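import Pool.Agent.H5.PD.Df

/-!
Module AA (row PDAA).  Adjunction on `Ext`, exact left adjoint; Shapiro's lemma with an explicit map.
`AA_main`: `F ⊣ G`, `F` exact and preserves projectives: `x ↦ F(x) ∘ ε_N` is a bijection `Ext^n(M, G N) → Ext^n(F M, N)`.  Induction on `n` for all `M`.
 `n = 0`: `Ext.homEquiv₀`, `Ext.mapExactFunctor_mk₀`, `Ext.mk₀_comp_mk₀`: the map is `f ↦ F(f) ≫ ε_N`, the inverse of `adj.homEquiv` (`Adjunction.homEquiv_counit`).
 Let `0 → K → P → M → 0`, `P` projective (`Projective.over M`), `S` this complex, `F(S)` exact, `F P` projective.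
 `n + 1`: every `x ∈ Ext^(n+1)(M, G N)` is `extClass(S).comp x'`, `x' ∈ Ext^n(K, G N)` (`Ext.contravariant_sequence_exact₃`, `Ext^(n+1)(P,·) = 0`), and `Φ(x) = extClass(F S).comp Φ(x')` (`Ext.mapExactFunctor_comp`, `Ext.mapExactFunctor_extClass`).
 Surjective: same for `F S` and the induction hypothesis for `K`.   Injective: `Φ(x) = 0` gives `Φ(x') = (mk₀ F(i)).comp y`, `y ∈ Ext^n(F P, N)` (`Ext.contravariant_sequence_exact₁`), `y = Φ(y')`, `y' ∈ Ext^n(P, G N)` (induction hypothesis for `P`), so
 `Φ(x' - (mk₀ i).comp y') = 0`, `x' = (mk₀ i).comp y'`, `x = extClass.comp (mk₀ i).comp y' = 0`.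
`AA_shp`: `F = Rep.resFunctor S.subtype` (instances in Mathlib RepresentationTheory/Rep/Res.lean and Coinduced.lean: additive, preserves limits, colimits, projectives), `G = Rep.coindFunctor ℤ S.subtype`, `Rep.resCoindAdjunction`; its counit is evaluation at `1`, i.e. `cev` (check by `rfl` or `ext`).
-/

namespace Pool.Agent.H5.PD

open CategoryTheory CategoryTheory.Abelian CategoryTheory.Limits Pool.Agent.H5.CP
  Pool.Agent.H75.CP Pool.Agent.H5.ZP

/-- the comparison map -/
private noncomputable def AA_hom {C D : Type 1} [Category.{0} C] [Category.{0} D] [Abelian C] [Abelian D]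
    [HasExt.{0} C] [HasExt.{0} D] {F : C ⥤ D} {G : D ⥤ C} (adj : F ⊣ G)
    [F.Additive] [PreservesFiniteLimits F] [PreservesFiniteColimits F] (M : C) (N : D) (n : ℕ) :
    Ext M (G.obj N) n →+ Ext (F.obj M) N n :=
  ((Ext.mk₀ (adj.counit.app N)).postcomp (F.obj M) (add_zero n)).comp (F.mapExtAddHom M (G.obj N) n)

private theorem AA_apply {C D : Type 1} [Category.{0} C] [Category.{0} D] [Abelian C] [Abelian D]
    [HasExt.{0} C] [HasExt.{0} D] {F : C ⥤ D} {G : D ⥤ C} (adj : F ⊣ G)
    [F.Additive] [PreservesFiniteLimits F] [PreservesFiniteColimits F] (M : C) (N : D) (n : ℕ)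
    (x : Ext M (G.obj N) n) : AA_hom adj M N n x =
      (x.mapExactFunctor F).comp (Ext.mk₀ (adj.counit.app N)) (add_zero n) := rfl

private theorem AA_zero {C D : Type 1} [Category.{0} C] [Category.{0} D] [Abelian C] [Abelian D]
    [HasExt.{0} C] [HasExt.{0} D] {F : C ⥤ D} {G : D ⥤ C} (adj : F ⊣ G)
    [F.Additive] [PreservesFiniteLimits F] [PreservesFiniteColimits F] (M : C) (N : D) :
    Function.Bijective (AA_hom adj M N 0) := by
  have h0 : ∀ f : M ⟶ G.obj N, AA_hom adj M N 0 (Ext.mk₀ f) =
      Ext.mk₀ ((adj.homEquiv M N).symm f) := by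
    intro f
    rw [AA_apply, Ext.mapExactFunctor_mk₀, Ext.mk₀_comp_mk₀, Adjunction.homEquiv_counit]
  constructor
  · intro x y h
    obtain ⟨f, rfl⟩ := (Ext.mk₀_bijective _ _).2 x
    obtain ⟨g, rfl⟩ := (Ext.mk₀_bijective _ _).2 y
    rw [h0, h0] at h
    rw [(adj.homEquiv M N).symm.injective ((Ext.mk₀_bijective _ _).1 h)]
  · intro y
    obtain ⟨g, rfl⟩ := (Ext.mk₀_bijective _ _).2 y
    refine ⟨Ext.mk₀ (adj.homEquiv M N g), ?_⟩
    rw [h0, Equiv.symm_apply_apply]

private theorem AA_pre {C D : Type 1} [Category.{0} C] [Category.{0} D] [Abelian C] [Abelian D]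
    [HasExt.{0} C] [HasExt.{0} D] {F : C ⥤ D} {G : D ⥤ C} (adj : F ⊣ G)
    [F.Additive] [PreservesFiniteLimits F] [PreservesFiniteColimits F] {M M' : C} (N : D) {a b n : ℕ}
    (u : Ext M M' a) (h : a + b = n) (x : Ext M' (G.obj N) b) :
    AA_hom adj M N n (u.comp x h) = (u.mapExactFunctor F).comp (AA_hom adj M' N b x) h := by
  rw [AA_apply, AA_apply, Ext.mapExactFunctor_comp]
  exact Ext.comp_assoc_of_third_deg_zero _ _ _ _

attribute [local instance] Ext.subsingleton_of_projective in
theorem AA_main {C D : Type 1} [Category.{0} C] [Category.{0} D] [Abelian C] [Abelian D]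
    [HasExt.{0} C] [HasExt.{0} D] [EnoughProjectives C] {F : C ⥤ D} {G : D ⥤ C} (adj : F ⊣ G)
    [F.Additive] [PreservesFiniteLimits F] [PreservesFiniteColimits F]
    [F.PreservesProjectiveObjects] (M : C) (N : D) (n : ℕ) :
    Function.Bijective (fun x : Ext M (G.obj N) n =>
      (x.mapExactFunctor F).comp (Ext.mk₀ (adj.counit.app N)) (add_zero n)) := by
  show Function.Bijective (AA_hom adj M N n)
  induction n generalizing M with
  | zero => exact AA_zero adj M N
  | succ n hn =>
    let P : ProjectivePresentation M := Classical.arbitrary _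
    let S := ShortComplex.mk _ _ (kernel.condition P.f)
    have hS : S.ShortExact := { exact := ShortComplex.exact_kernel P.f }
    have : Projective S.X₂ := P.projective
    have : Projective (S.map F).X₂ := Functor.PreservesProjectiveObjects.projective_obj P.projective
    exact AddMonoidHom.bijective_of_surjective_of_bijective_of_right_exact _ _ _ _
      (AA_hom adj S.X₂ N n) (AA_hom adj S.X₁ N n) (AA_hom adj S.X₃ N (n + 1))
      (by
        ext x
        have h1 := AA_pre adj N (Ext.mk₀ S.f) (zero_add n) x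
        rw [Ext.mapExactFunctor_mk₀] at h1
        exact h1.symm)
      (by
        ext x
        have h1 := AA_pre adj N hS.extClass (add_comm 1 n) x
        rw [Ext.mapExactFunctor_extClass] at h1
        exact h1.symm)
      ((ShortComplex.ab_exact_iff_function_exact _).1
        (Ext.contravariant_sequence_exact₁' hS (G.obj N) n (n + 1) (add_comm 1 n)))
      ((ShortComplex.ab_exact_iff_function_exact _).1
        (Ext.contravariant_sequence_exact₁' (hS.map F) N n (n + 1) (add_comm 1 n)))
      (hn _).surjective (hn _)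
      (fun x₃ ↦ Ext.contravariant_sequence_exact₃ hS _ x₃ (by subsingleton) (add_comm 1 n))
      (fun y₃ ↦ Ext.contravariant_sequence_exact₃ (hS.map F) _ y₃ (by subsingleton) (add_comm 1 n))

theorem AA_shp {G : Type} [Group G] (S : Subgroup G) (B : Rep.{0} ℤ S) (j : ℕ) :
    Function.Bijective (fun x : Ext (tz G) (Rep.coind S.subtype B) j =>
      (In S.subtype x).comp (Ext.mk₀ (cev S B)) (add_zero j)) := by
  have h := AA_main (Rep.resCoindAdjunction ℤ S.subtype) (tz G) B j
  have h1 : (Rep.resCoindAdjunction ℤ S.subtype).counit.app B = cev S B := by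
    rfl
  rw [h1] at h
  exact h

end Pool.Agent.H5.PD
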