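import Pool.Agent.H5.PD.Df

/-!
Module AB (row PDAB).  The change of groups isomorphism `Ext_{G/S}(M_S, N) ≅ Ext_G(M, Infl N)` with an explicit map (compare `Qe_main`, H5/ZP/Qe.lean, which only gives a bijection).
`Θ(y) = (mk₀ η_M).comp (Infl y)`, `η` the unit of `adj`.  Induction on `n` for all `M` with `C.P M`.
 `n = 0`: `Ext.homEquiv₀`, `Ext.mapExactFunctor_mk₀`: `Θ` is `f ↦ η_M ≫ Infl f`, i.e. `adj.homEquiv` (`Adjunction.homEquiv_unit`).
 Let `0 → K → P → M → 0`, `P` projective, `S` this complex; `C.P K` by `C.ker`; `S.map (QF k S)` is exact (`QEx_main`), `(QF).obj P` is projective (`QAdj_proj`).  `P` itself satisfies `C.P`: not needed, since for `P` projective both sides vanish in degrees `≥ 1`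
 and in degree `0` the bijection is the adjunction, for every module.
 `n + 1`: every `y ∈ Ext^(n+1)(M_S, N)` is `extClass(QF S).comp y'`, `y' ∈ Ext^n(K_S, N)`; `Θ(y) = extClass(S).comp Θ(y')`: `Ext.mapExactFunctor_comp`, `Ext.mapExactFunctor_extClass` and `ShortComplex.ShortExact.extClass_naturality` for the morphism of complexes
 `S → (S.map (QF k S)).map (Infl k S)` given by the unit.   Surjective: clear (`Ext.contravariant_sequence_exact₃`).   Injective: `Θ(y) = 0` gives `Θ(y') = (mk₀ i).comp z`, `z ∈ Ext^n(P, Infl N)` (`Ext.contravariant_sequence_exact₁`); `z = Θ(z')` (degree `0`: adjunction;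
 degree `≥ 1`: `z = 0`); naturality of `Θ` in `M` (naturality of `η`) gives `Θ(y' - (mk₀ (QF i)).comp z') = 0`, so `y' = (mk₀ (QF i)).comp z'` and `y = 0`.
-/

namespace Pool.Agent.H5.PD

open CategoryTheory CategoryTheory.Abelian CategoryTheory.Limits Pool.Agent.H5.CP
  Pool.Agent.H75.CP Pool.Agent.H5.ZP

universe v u v' u' w w'

section gen

variable {C : Type u} [Category.{v} C] [Abelian C] [HasExt.{w} C]
variable {D : Type u'} [Category.{v'} D] [Abelian D] [HasExt.{w'} D]
variable {F : C ⥤ D} {I : D ⥤ C} [F.Additive] [I.Additive] [PreservesFiniteLimits I]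
  [PreservesFiniteColimits I]

/-- the comparison map -/
noncomputable def AB_Th (adj : F ⊣ I) (M : C) (N : D) (n : ℕ) :
    Ext.{w'} (F.obj M) N n →+ Ext.{w} M (I.obj N) n :=
  AddMonoidHom.mk' (fun y => (Ext.mk₀ (adj.unit.app M)).comp (y.mapExactFunctor I) (zero_add n)) (by
    intro a b
    rw [Ext.mapExactFunctor_add, Ext.comp_add])

omit [F.Additive] in
theorem AB_Th_apply (adj : F ⊣ I) (M : C) (N : D) (n : ℕ) (y : Ext.{w'} (F.obj M) N n) :
    AB_Th adj M N n y = (Ext.mk₀ (adj.unit.app M)).comp (y.mapExactFunctor I) (zero_add n) := rfl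

theorem AB_zero (adj : F ⊣ I) (M : C) (N : D) :
    Function.Bijective (AB_Th.{v, u, v', u', w, w'} adj M N 0) := by
  have h : (AB_Th.{v, u, v', u', w, w'} adj M N 0 : Ext.{w'} (F.obj M) N 0 → Ext.{w} M (I.obj N) 0) =
      (fun f => Ext.homEquiv₀.symm f) ∘ (adj.homEquiv M N) ∘ (fun y => Ext.homEquiv₀ y) := by
    funext y
    obtain ⟨f, rfl⟩ := (Ext.mk₀_bijective (F.obj M) N).2 y
    rw [AB_Th_apply, Ext.mapExactFunctor_mk₀, Ext.mk₀_comp_mk₀]
    show _ = Ext.homEquiv₀.symm (adj.homEquiv M N (Ext.homEquiv₀ (Ext.mk₀ f)))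
    have h1 : Ext.homEquiv₀ (Ext.mk₀.{w'} f) = f := Ext.homEquiv₀.apply_symm_apply f
    rw [h1, Adjunction.homEquiv_unit]
    rfl
  rw [h]
  exact Ext.homEquiv₀.symm.bijective.comp ((adj.homEquiv M N).bijective.comp Ext.homEquiv₀.bijective)

/-- the unit as a morphism of short complexes -/
def AB_sc (adj : F ⊣ I) (X : ShortComplex C) : X ⟶ (X.map F).map I where
  τ₁ := adj.unit.app X.X₁
  τ₂ := adj.unit.app X.X₂
  τ₃ := adj.unit.app X.X₃
  comm₁₂ := (adj.unit.naturality X.f).symm
  comm₂₃ := (adj.unit.naturality X.g).symm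

theorem AB_sq {A B : C} {A' B' N : D} {n : ℕ} (f : A ⟶ B) (f' : A' ⟶ B') (a : A ⟶ I.obj A')
    (b : B ⟶ I.obj B') (h : f ≫ b = a ≫ I.map f') (y : Ext.{w'} B' N n) :
    (Ext.mk₀.{w} f).comp ((Ext.mk₀ b).comp (y.mapExactFunctor I) (zero_add n)) (zero_add n) =
      (Ext.mk₀ a).comp (((Ext.mk₀ f').comp y (zero_add n)).mapExactFunctor I) (zero_add n) := by
  rw [Ext.mapExactFunctor_comp, Ext.mapExactFunctor_mk₀, Ext.mk₀_comp_mk₀_assoc,
    Ext.mk₀_comp_mk₀_assoc, h]

theorem AB_ex {A B : C} {A' B' N : D} {n : ℕ} (e : Ext.{w} B A 1) (e' : Ext.{w'} B' A' 1)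
    (a : A ⟶ I.obj A') (b : B ⟶ I.obj B')
    (h : e.comp (Ext.mk₀ a) (add_zero 1) = (Ext.mk₀ b).comp (e'.mapExactFunctor I) (zero_add 1))
    (y : Ext.{w'} A' N n) :
    e.comp ((Ext.mk₀ a).comp (y.mapExactFunctor I) (zero_add n)) (add_comm 1 n) =
      (Ext.mk₀ b).comp ((e'.comp y (add_comm 1 n)).mapExactFunctor I) (zero_add (n + 1)) := by
  rw [Ext.mapExactFunctor_comp,
    ← Ext.comp_assoc e (Ext.mk₀ a) (y.mapExactFunctor I) (add_zero 1) (zero_add n) (by omega), h,
    Ext.comp_assoc (Ext.mk₀ b) (e'.mapExactFunctor I) (y.mapExactFunctor I) (zero_add 1)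
      (add_comm 1 n) (by omega)]

theorem AB_nat (adj : F ⊣ I) {X : ShortComplex C} (hX : X.ShortExact)
    (hQ : (X.map F).ShortExact) :
    hX.extClass.comp (Ext.mk₀.{w} (adj.unit.app X.X₁)) (add_zero 1) =
      (Ext.mk₀ (adj.unit.app X.X₃)).comp
        (Ext.mapExactFunctor I (hQ.extClass : Ext.{w'} (F.obj X.X₃) (F.obj X.X₁) 1))
          (zero_add 1) := by
  have h0 := ShortComplex.ShortExact.extClass_naturality hX (hQ.map_of_exact I) (AB_sc adj X)
  have h1 := Ext.mapExactFunctor_extClass I hQ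
  exact h0.trans (congrArg (fun t => (Ext.mk₀ (adj.unit.app X.X₃)).comp t (zero_add 1)) h1.symm)

theorem AB_step (adj : F ⊣ I) (N : D) (n : ℕ) {X : ShortComplex C} (hX : X.ShortExact)
    (hQ : (X.map F).ShortExact) [Projective X.X₂] [Projective (X.map F).X₂]
    (h2 : Function.Surjective (AB_Th.{v, u, v', u', w, w'} adj X.X₂ N n))
    (h1 : Function.Bijective (AB_Th.{v, u, v', u', w, w'} adj X.X₁ N n)) :
    Function.Bijective (AB_Th.{v, u, v', u', w, w'} adj X.X₃ N (n + 1)) := by
  refine AddMonoidHom.bijective_of_surjective_of_bijective_of_right_exact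
    ((Ext.mk₀ (X.map F).f).precomp N (zero_add n)) (hQ.extClass.precomp N (add_comm 1 n))
    ((Ext.mk₀ X.f).precomp (I.obj N) (zero_add n)) (hX.extClass.precomp (I.obj N) (add_comm 1 n))
    (AB_Th.{v, u, v', u', w, w'} adj X.X₂ N n) (AB_Th.{v, u, v', u', w, w'} adj X.X₁ N n)
    (AB_Th.{v, u, v', u', w, w'} adj X.X₃ N (n + 1)) ?_ ?_ ?_ ?_ h2 h1 ?_ ?_
  · ext y
    exact AB_sq X.f (F.map X.f) (adj.unit.app X.X₁) (adj.unit.app X.X₂)
      (adj.unit.naturality X.f) y
  · ext y
    exact AB_ex hX.extClass hQ.extClass (adj.unit.app X.X₁) (adj.unit.app X.X₃)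
      (AB_nat adj hX hQ) y
  · exact (ShortComplex.ab_exact_iff_function_exact _).1
      (Ext.contravariant_sequence_exact₁' hQ N n (n + 1) (add_comm 1 n))
  · exact (ShortComplex.ab_exact_iff_function_exact _).1
      (Ext.contravariant_sequence_exact₁' hX (I.obj N) n (n + 1) (add_comm 1 n))
  · intro x
    exact Ext.contravariant_sequence_exact₃ hQ N x (Ext.eq_zero_of_projective _) (add_comm 1 n)
  · intro x
    exact Ext.contravariant_sequence_exact₃ hX (I.obj N) x (Ext.eq_zero_of_projective _)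
      (add_comm 1 n)

end gen

theorem AB_main' {k G : Type} [CommRing k] [Group G] {S : Subgroup G} [S.Normal]
    (C : QClass k S) (adj : QF k S ⊣ Infl k S) (M : Rep.{0} k G) (hM : C.P M)
    (N : Rep.{0} k (G ⧸ S)) (n : ℕ) : Function.Bijective (AB_Th adj M N n) := by
  induction n generalizing M with
  | zero => exact AB_zero adj M N
  | succ n ih =>
    let X : ShortComplex (Rep.{0} k G) :=
      ShortComplex.mk (kernel.ι (Projective.π M)) (Projective.π M) (kernel.condition _)
    have hX : X.ShortExact :=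
      { exact := ShortComplex.exact_kernel (Projective.π M)
        mono_f := inferInstanceAs (Mono (kernel.ι (Projective.π M)))
        epi_g := inferInstanceAs (Epi (Projective.π M)) }
    have hP : Projective X.X₂ := inferInstanceAs (Projective (Projective.over M))
    have hK : C.P X.X₁ := C.ker X hX hP hM
    have hQ : (X.map (QF k S)).ShortExact := QEx_main C X hX hM
    have hP' : Projective (X.map (QF k S)).X₂ := QAdj_proj S X.X₂
    have h1 : Function.Bijective (AB_Th adj X.X₁ N n) := ih X.X₁ hK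
    have h2 : Function.Surjective (AB_Th adj X.X₂ N n) := by
      rcases n with _ | n
      · exact (AB_zero adj X.X₂ N).2
      · intro y
        exact ⟨0, by rw [map_zero, Ext.eq_zero_of_projective y]⟩
    have h3 : Function.Bijective (AB_Th adj X.X₃ N (n + 1)) :=
      AB_step (X := X) adj N n hX hQ h2 h1
    exact h3

theorem AB_main {k G : Type} [CommRing k] [Group G] {S : Subgroup G} [S.Normal]
    (C : QClass k S) (adj : QF k S ⊣ Infl k S) (M : Rep.{0} k G) (hM : C.P M)
    (N : Rep.{0} k (G ⧸ S)) (n : ℕ) :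
    Function.Bijective (fun y : Ext ((QF k S).obj M) N n =>
      (Ext.mk₀ (adj.unit.app M)).comp (y.mapExactFunctor (Infl k S)) (zero_add n)) :=
  AB_main' C adj M hM N n

end Pool.Agent.H5.PD
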