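import Pool.Agent.H5.PD.Df

/-!
Module BS (row PDBS).  The base level: `Γ` with `H^j(Γ;ℤΓ) = 0` for `j ≠ d` and `≅ ℤ` for `j = d`:
the long exact sequence of `0 → ℤΓ → ℤΓ → F_pΓ → 0` (multiplication by `p`).
-/

namespace Pool.Agent.H5.PD

open CategoryTheory CategoryTheory.Abelian CategoryTheory.Limits Pool.Agent.H5.CP
  Pool.Agent.H75.CP Pool.Agent.H5.ZP

/-- the coefficients of an element of `ℤΓ` -/
noncomputable def BS_c (G : Type) [Group G] : MonoidAlgebra ℤ G ≃ₗ[ℤ] G →₀ ℤ :=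
  MonoidAlgebra.coeffLinearEquiv ℤ

theorem BS_c_ρ {G : Type} [Group G] (g : G) (x : (Rep.leftRegular ℤ G).V) :
    BS_c G ((Rep.leftRegular ℤ G).ρ g x) = Finsupp.mapDomain (fun y => g • y)
      (BS_c G (x : MonoidAlgebra ℤ G)) := by
  show BS_c G ((BS_c G).symm (Finsupp.lmapDomain ℤ ℤ (g • ·)
      (BS_c G (x : MonoidAlgebra ℤ G)))) = _
  rw [LinearEquiv.apply_symm_apply]
  rfl

/-- reduction modulo `p`, on finitely supported functions -/
noncomputable def BS_r (p : ℕ) (G : Type) : (G →₀ ℤ) →+ (G →₀ ZMod p) :=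
  Finsupp.mapRange.addMonoidHom (Int.castAddHom (ZMod p))

theorem BS_r_apply (p : ℕ) (G : Type) (x : G →₀ ℤ) (a : G) :
    BS_r p G x a = ((x a : ℤ) : ZMod p) := rfl

/-- reduction modulo `p` -/
noncomputable def BS_g (p : ℕ) (G : Type) [Group G] : Rep.leftRegular ℤ G ⟶ PX p G G :=
  mkZ (M := Rep.leftRegular ℤ G) (N := PX p G G)
    ((BS_r p G).comp (BS_c G).toLinearMap.toAddMonoidHom) (fun g x => by
      show BS_r p G (BS_c G ((Rep.leftRegular ℤ G).ρ g x)) =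
        Finsupp.mapDomain (fun y => g • y) (BS_r p G (BS_c G (x : MonoidAlgebra ℤ G)))
      rw [BS_c_ρ]
      exact (Finsupp.mapDomain_mapRange _ _ _ (Int.cast_zero) Int.cast_add).symm)

theorem BS_g_hom (p : ℕ) (G : Type) [Group G] (x : MonoidAlgebra ℤ G) :
    (BS_g p G).hom x = BS_r p G (BS_c G x) := rfl

/-- multiplication by `p` -/
noncomputable def BS_f (p : ℕ) (G : Type) [Group G] :
    Rep.leftRegular ℤ G ⟶ Rep.leftRegular ℤ G := p • 𝟙 (Rep.leftRegular ℤ G)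

theorem BS_nsmul {G : Type} [Group G] {M N : Rep.{0} ℤ G} (f : M ⟶ N) (n : ℕ) (x : M.V) :
    (n • f).hom x = n • f.hom x := by
  induction n with
  | zero =>
    rw [zero_smul, zero_smul]
    rfl
  | succ n ih =>
    rw [succ_nsmul, succ_nsmul, ← ih]
    rfl

theorem BS_f_hom (p : ℕ) (G : Type) [Group G] (x : (Rep.leftRegular ℤ G).V) :
    (BS_f p G).hom x = p • x := BS_nsmul _ _ _

theorem BS_comp {G : Type} [Group G] {M N : Rep.{0} ℤ G} {j : ℕ} (n : ℕ) (x : Ext M N j) :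
    x.comp (Ext.mk₀ (n • 𝟙 N)) (add_zero j) = n • x := by
  induction n with
  | zero => rw [zero_smul, zero_smul, Ext.mk₀_zero, Ext.comp_zero]
  | succ n ih => rw [succ_nsmul, succ_nsmul, Ext.mk₀_add, Ext.comp_add, ih, Ext.comp_mk₀_id]

theorem BS_gf (p : ℕ) [NeZero p] (G : Type) [Group G] (x : (Rep.leftRegular ℤ G).V) :
    (BS_g p G).hom ((BS_f p G).hom x) = 0 := by
  rw [BS_f_hom, map_nsmul]
  show p • (BS_r p G (BS_c G x)) = (0 : G →₀ ZMod p)
  refine Finsupp.ext fun a => ?_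
  rw [Finsupp.smul_apply, ← Nat.cast_smul_eq_nsmul (ZMod p), CharP.cast_eq_zero, zero_smul]
  rfl

theorem BS_w (p : ℕ) [NeZero p] (G : Type) [Group G] : BS_f p G ≫ BS_g p G = 0 :=
  Rep.hom_ext (Representation.IntertwiningMap.ext (LinearMap.ext fun x => BS_gf p G x))

theorem BS_inj (p : ℕ) [NeZero p] (G : Type) [Group G] :
    Function.Injective (BS_f p G).hom := by
  have hp : (p : ℤ) ≠ 0 := by exact_mod_cast NeZero.ne p
  intro x y h
  have h1 : p • (x : MonoidAlgebra ℤ G) = p • (y : MonoidAlgebra ℤ G) := by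
    rw [BS_f_hom, BS_f_hom] at h
    exact h
  apply (BS_c G).injective
  refine Finsupp.ext fun a => ?_
  have h2 : p • BS_c G (x : MonoidAlgebra ℤ G) = p • BS_c G (y : MonoidAlgebra ℤ G) := by
    rw [← map_nsmul, ← map_nsmul, h1]
  have h3 := congrArg (fun z : G →₀ ℤ => z a) h2
  have h4 : (p : ℤ) * BS_c G (x : MonoidAlgebra ℤ G) a =
      (p : ℤ) * BS_c G (y : MonoidAlgebra ℤ G) a := by
    rw [← nsmul_eq_mul, ← nsmul_eq_mul]
    exact h3
  exact mul_left_cancel₀ hp h4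

theorem BS_surj (p : ℕ) [NeZero p] (G : Type) [Group G] :
    Function.Surjective (BS_g p G).hom := by
  intro y
  obtain ⟨x, hx⟩ := Finsupp.mapRange_surjective (α := G) (fun z : ℤ => (z : ZMod p))
    Int.cast_zero ZMod.intCast_surjective (y : G →₀ ZMod p)
  refine ⟨((BS_c G).symm x : MonoidAlgebra ℤ G), ?_⟩
  show BS_r p G (BS_c G ((BS_c G).symm x)) = y
  rw [LinearEquiv.apply_symm_apply]
  exact hx

theorem BS_mid (p : ℕ) [NeZero p] (G : Type) [Group G] (x : (Rep.leftRegular ℤ G).V)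
    (hx : (BS_g p G).hom x = 0) : ∃ y : (Rep.leftRegular ℤ G).V, (BS_f p G).hom y = x := by
  have h1 : BS_r p G (BS_c G (x : MonoidAlgebra ℤ G)) = 0 := hx
  have h2 : ∀ a, (p : ℤ) ∣ BS_c G (x : MonoidAlgebra ℤ G) a := by
    intro a
    rw [← ZMod.intCast_zmod_eq_zero_iff_dvd, ← BS_r_apply p G, h1]
    rfl
  refine ⟨((BS_c G).symm (Finsupp.mapRange (fun z : ℤ => z / p) (by simp)
    (BS_c G (x : MonoidAlgebra ℤ G))) : MonoidAlgebra ℤ G), ?_⟩
  rw [BS_f_hom]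
  apply (BS_c G).injective
  refine Finsupp.ext fun a => ?_
  show BS_c G (p • (BS_c G).symm _) a = _
  rw [map_nsmul, LinearEquiv.apply_symm_apply, Finsupp.smul_apply, Finsupp.mapRange_apply,
    nsmul_eq_mul]
  exact Int.mul_ediv_cancel' (h2 a)

/-- `0 → ℤΓ → ℤΓ → F_pΓ → 0` -/
theorem BS_ses (p : ℕ) [NeZero p] (G : Type) [Group G] :
    (ShortComplex.mk (BS_f p G) (BS_g p G) (BS_w p G)).ShortExact :=
  VTop_shortExact _ (BS_inj p G) (BS_surj p G) (BS_mid p G)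

theorem BS_les1 {G : Type} [Group G] {T A B C : Rep.{0} ℤ G} (f : A ⟶ B) (g : B ⟶ C)
    (w : f ≫ g = 0) (hS : (ShortComplex.mk f g w).ShortExact) (j : ℕ)
    (hA : ∀ y : Ext T A (j + 1), y.comp (Ext.mk₀ f) (add_zero (j + 1)) = 0 → y = 0)
    (x : Ext T C j) : ∃ y : Ext T B j, y.comp (Ext.mk₀ g) (add_zero j) = x := by
  refine Ext.covariant_sequence_exact₃ T hS x rfl (hA _ ?_)
  have h := ShortComplex.ShortExact.extClass_comp hS
  rw [Ext.comp_assoc_of_third_deg_zero]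
  exact (congrArg (fun z => x.comp z _) h).trans (Ext.comp_zero _ _ _ _ _)

theorem BS_les2 {G : Type} [Group G] {T A B C : Rep.{0} ℤ G} (f : A ⟶ B) (g : B ⟶ C)
    (w : f ≫ g = 0) (hS : (ShortComplex.mk f g w).ShortExact) (j : ℕ) (x : Ext T B j)
    (hx : x.comp (Ext.mk₀ g) (add_zero j) = 0) :
    ∃ y : Ext T A j, y.comp (Ext.mk₀ f) (add_zero j) = x :=
  Ext.covariant_sequence_exact₂ T hS x hx

theorem BS_card {A B : Type} [AddCommGroup A] [AddCommGroup B] (e : A ≃+ ℤ) (φ : A →+ B) (p : ℕ)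
    (hs : Function.Surjective φ) (h1 : ∀ x, φ (p • x) = 0) (h2 : ∀ x, φ x = 0 → ∃ y, p • y = x) :
    Nat.card B = p := by
  let ψ : ℤ →+ B := φ.comp e.symm.toAddMonoidHom
  have hψ : Function.Surjective ψ := hs.comp e.symm.surjective
  have hk : ψ.ker = AddSubgroup.zmultiples (p : ℤ) := by
    ext z
    rw [AddMonoidHom.mem_ker, Int.mem_zmultiples_iff]
    constructor
    · intro h
      obtain ⟨y, hy⟩ := h2 _ h
      refine ⟨e y, ?_⟩
      have h3 := congrArg e hy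
      rw [map_nsmul] at h3
      have h4 : e (e.symm z) = z := e.apply_symm_apply z
      rw [nsmul_eq_mul] at h3
      exact (h3.trans h4).symm
    · rintro ⟨c, rfl⟩
      show φ (e.symm ((p : ℤ) * c)) = 0
      have h3 : (p : ℤ) * c = p • c := (nsmul_eq_mul _ _).symm
      rw [h3, map_nsmul]
      exact h1 _
  rw [Nat.card_congr ((QuotientAddGroup.quotientKerEquivOfSurjective ψ hψ).symm.trans
    ((QuotientAddGroup.quotientAddEquivOfEq hk).trans
      (Int.quotientZMultiplesNatEquivZMod p))).toEquiv, Nat.card_zmod]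

theorem BS_main {Γ : Type} [Group Γ] (d : ℕ)
    (h0 : ∀ j, j ≠ d → IsZero (groupCohomology (Rep.leftRegular ℤ Γ) j))
    (h1 : Nonempty (groupCohomology (Rep.leftRegular ℤ Γ) d ≃+ ℤ)) (p : ℕ) [Fact p.Prime] :
    (∀ j, j ≠ d → hc p Γ j = 1) ∧ hc p Γ d = p ∧ (∀ j, Finite (Ext (tz Γ) (PX p Γ Γ) j)) ∧
      ∀ m, ∏ j ∈ Finset.range m, hc p Γ j ≤ p := by
  have hpp : p.Prime := Fact.out
  have : NeZero p := ⟨hpp.ne_zero⟩
  have hA : ∀ j, j ≠ d → ∀ x : Ext (tz Γ) (Rep.leftRegular ℤ Γ) j, x = 0 := by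
    intro j hj x
    obtain ⟨e⟩ := ExA_equiv (Rep.leftRegular ℤ Γ) j
    have h2 : Subsingleton (groupCohomology (Rep.leftRegular ℤ Γ) j) :=
      ModuleCat.subsingleton_of_isZero (h0 j hj)
    exact e.injective (Subsingleton.elim _ _)
  obtain ⟨e0⟩ := h1
  obtain ⟨e1⟩ := ExA_equiv (Rep.leftRegular ℤ Γ) d
  let e : Ext (tz Γ) (Rep.leftRegular ℤ Γ) d ≃+ ℤ := e1.trans e0
  have hp0 : (p : ℤ) ≠ 0 := by exact_mod_cast hpp.ne_zero
  have hA' : ∀ j, ∀ y : Ext (tz Γ) (Rep.leftRegular ℤ Γ) j, p • y = 0 → y = 0 := by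
    intro j y hy
    by_cases hjd : j = d
    · subst hjd
      have h5 := congrArg e hy
      rw [map_nsmul, map_zero, nsmul_eq_mul] at h5
      exact (map_eq_zero_iff e e.injective).1 ((mul_eq_zero.1 h5).resolve_left hp0)
    · exact hA j hjd _
  have hsurj : ∀ j, ∀ x : Ext (tz Γ) (PX p Γ Γ) j, ∃ y : Ext (tz Γ) (Rep.leftRegular ℤ Γ) j,
      y.comp (Ext.mk₀ (BS_g p Γ)) (add_zero j) = x := by
    intro j x
    refine BS_les1 (BS_f p Γ) (BS_g p Γ) (BS_w p Γ) (BS_ses p Γ) j ?_ x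
    intro y hy
    refine hA' _ y ?_
    rw [← BS_comp]
    exact hy
  have hB : ∀ j, j ≠ d → ∀ x : Ext (tz Γ) (PX p Γ Γ) j, x = 0 := by
    intro j hj x
    obtain ⟨y, hy⟩ := hsurj j x
    rw [← hy, hA j hj y, Ext.zero_comp]
  have hd : hc p Γ d = p := by
    refine BS_card e (AddMonoidHom.mk' (fun y : Ext (tz Γ) (Rep.leftRegular ℤ Γ) d =>
      y.comp (Ext.mk₀ (BS_g p Γ)) (add_zero d)) (fun x y => Ext.add_comp x y _ _)) p ?_ ?_ ?_
    · intro x
      exact hsurj d x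
    · intro x
      show (p • x).comp (Ext.mk₀ (BS_g p Γ)) (add_zero d) = 0
      rw [← BS_comp, Ext.comp_assoc_of_third_deg_zero, Ext.mk₀_comp_mk₀]
      have h3 : (p • 𝟙 (Rep.leftRegular ℤ Γ)) ≫ BS_g p Γ = 0 := BS_w p Γ
      rw [h3, Ext.mk₀_zero, Ext.comp_zero]
    · intro x hx
      obtain ⟨y, hy⟩ := BS_les2 (BS_f p Γ) (BS_g p Γ) (BS_w p Γ) (BS_ses p Γ) d x hx
      refine ⟨y, ?_⟩
      rw [← BS_comp]
      exact hy
  have hn : ∀ j, j ≠ d → hc p Γ j = 1 := by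
    intro j hj
    have : Subsingleton (Ext (tz Γ) (PX p Γ Γ) j) :=
      ⟨fun x y => (hB j hj x).trans (hB j hj y).symm⟩
    exact Nat.card_eq_one_iff_unique.2 ⟨this, ⟨0⟩⟩
  refine ⟨hn, hd, ?_, ?_⟩
  · intro j
    refine Nat.finite_of_card_ne_zero ?_
    show hc p Γ j ≠ 0
    by_cases hj : j = d
    · rw [hj, hd]
      exact hpp.ne_zero
    · rw [hn j hj]
      exact one_ne_zero
  · intro m
    by_cases hm : d ∈ Finset.range m
    · rw [Finset.prod_eq_single_of_mem d hm (fun j _ hj => hn j hj), hd]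
    · rw [Finset.prod_eq_one]
      · exact hpp.one_le
      · intro j hj
        refine hn j ?_
        rintro rfl
        exact hm hj

end Pool.Agent.H5.PD
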