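import Pool.Agent.H5.PD.DB
import Pool.Agent.H5.PD.BS

/-!
Module BA (row PDBA).  The base level of the chain.  Use only the STATEMENTS of DB, BS.
`z` has infinite order (`FPcd_tf`), `S = zpowers z` normal (`zpowers_normal`), `L = Γ ⧸ S`, `E`: `π = mk' S`, `t = z` (see `Ma_chain`, H5/ZP/Ma.lean).  `cd`: `FPcd_fin (ZMod p)`.  `ds`: `DB_main` and `FPinf (Γ ⧸ S)` (`FPcd_inf`, `TowB_main` or `FPd_main` as in `Ma_chain`).
`dv`: `DB_main p (FPcd_inf hΓ)` for `Γ` itself, applied to `Rep.res E.π N` and `T.res E.π`.  `fin`, `size`: `BS_main`.   Countable: `Γ` is finitely generated: `FPm ℤ Γ 1 (tz)`-part of `FPinf` gives that the augmentation ideal is finitely generated, hence `Γ`; it is enough to show that `Γ` is countable: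
 `BA_cnt`: there is a surjection `f : Rep.free ℤ Γ (Fin m) → I = kernel (aug ℤ Γ)`-like (`FPb_ker`/`FPe`: `I` is of type `FP_0`).  The finitely many generators have finite support; let `Γ₀` be the subgroup generated by all elements of these supports.  For `g ∈ Γ`: `g - 1 ∈ Σ ℤΓ (γ - 1)`, `γ ∈ Γ₀`, so `g - 1` maps to `0`
 in `ℤ[Γ/Γ₀]`, so `g ∈ Γ₀`.  So `Γ` is finitely generated (`Group.FG`), hence countable (`Group.FG` → `Countable`: `Group.countable_of_fg`-like, or `Subgroup.closure` of a finite set is countable).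
-/

namespace Pool.Agent.H5.PD

open CategoryTheory CategoryTheory.Abelian CategoryTheory.Limits Pool.Agent.H5.CP
  Pool.Agent.H75.CP Pool.Agent.H5.ZP

theorem BA_lift {Γ : Type} [Group Γ] {M N : Rep.{0} ℤ Γ} (f : M ⟶ N) (x : M.V)
    (hx : f.hom x = 0) : ∃ w : (kernel f).V, (kernel.ι f).hom w = x :=
  (ABs_exact _ _ (kernel.condition f)).1
    (ShortComplex.exact_of_f_is_kernel (ShortComplex.mk (kernel.ι f) f (kernel.condition f))
      (kernelIsKernel f)) x hx

/-- the map `ℤ[Γ]^m → ℤ[Γ/S]`, `e_i ↦ a_i` -/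
noncomputable def BA_th {Γ : Type} [Group Γ] (S : Subgroup Γ) {m : ℕ} (a : Fin m → ℤ) :
    (Fin m →₀ MonoidAlgebra ℤ Γ) →+ ((Γ ⧸ S) →₀ ℤ) :=
  Finsupp.liftAddHom (fun i => (zsmulAddGroupHom (a i)).comp
    ((Finsupp.mapDomain.addMonoidHom (QuotientGroup.mk : Γ → Γ ⧸ S)).comp
      (MonoidAlgebra.coeffAddEquiv : MonoidAlgebra ℤ Γ ≃+ (Γ →₀ ℤ)).toAddMonoidHom))

theorem BA_th_single {Γ : Type} [Group Γ] (S : Subgroup Γ) {m : ℕ} (a : Fin m → ℤ) (i : Fin m)
    (g : Γ) (c : ℤ) : BA_th S a (Finsupp.single i (MonoidAlgebra.single g c)) =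
      Finsupp.single (QuotientGroup.mk g : Γ ⧸ S) (c * a i) := by
  unfold BA_th
  rw [Finsupp.liftAddHom_apply_single]
  show a i • Finsupp.mapDomain _ (MonoidAlgebra.single g c).coeff = _
  rw [MonoidAlgebra.coeff_single, Finsupp.mapDomain_single, Finsupp.smul_single, smul_eq_mul,
    mul_comm]

theorem BA_val {Γ : Type} [Group Γ] {m : ℕ} (f : Rep.free ℤ Γ (Fin m) ⟶ tz Γ) (i : Fin m)
    (g : Γ) (c : ℤ) :
    (f.hom (Finsupp.single i (MonoidAlgebra.single g c) : Fin m →₀ MonoidAlgebra ℤ Γ) : ℤ) =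
      c * (f.hom (Finsupp.single i (MonoidAlgebra.single 1 1) : Fin m →₀ MonoidAlgebra ℤ Γ) : ℤ) := by
  have h1 : (Finsupp.single i (MonoidAlgebra.single g c) : Fin m →₀ MonoidAlgebra ℤ Γ) =
      c • (Rep.free ℤ Γ (Fin m)).ρ g
        (Finsupp.single i (MonoidAlgebra.single 1 1) : Fin m →₀ MonoidAlgebra ℤ Γ) := by
    have h2 : (Rep.free ℤ Γ (Fin m)).ρ g
        (Finsupp.single i (MonoidAlgebra.single 1 1) : Fin m →₀ MonoidAlgebra ℤ Γ) =
        (Finsupp.single i (MonoidAlgebra.single g 1) : Fin m →₀ MonoidAlgebra ℤ Γ) := by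
      refine (Representation.free_single_single (k := ℤ) g (1 : Γ) i (1 : ℤ)).trans ?_
      rw [mul_one]
    rw [h2]
    refine Eq.trans ?_ (Finsupp.smul_single c i _).symm
    rw [MonoidAlgebra.smul_single, smul_eq_mul, mul_one]
  rw [h1]
  refine (map_smul f.hom c _).trans ?_
  rw [Rep.hom_comm_apply]
  rfl

theorem BA_sum {Γ : Type} {m : ℕ} (x : Fin m →₀ MonoidAlgebra ℤ Γ) :
    x = ∑ i, ∑ γ ∈ (x i).coeff.support,
      Finsupp.single i (MonoidAlgebra.single γ ((x i).coeff γ)) := by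
  conv_lhs => rw [← Finsupp.univ_sum_single x]
  refine Finset.sum_congr rfl fun i _ => ?_
  conv_lhs => rw [← MonoidAlgebra.sum_coeff_single (x i)]
  rw [Finsupp.sum, Finsupp.single_finsetSum]

theorem BA_key {Γ : Type} [Group Γ] (S : Subgroup Γ) {m : ℕ} (f : Rep.free ℤ Γ (Fin m) ⟶ tz Γ)
    (x : Fin m →₀ MonoidAlgebra ℤ Γ) (hx : ∀ i, ∀ γ ∈ (x i).coeff.support, γ ∈ S) (g : Γ) :
    BA_th S (fun i => (f.hom (Finsupp.single i (MonoidAlgebra.single 1 1) :
      Fin m →₀ MonoidAlgebra ℤ Γ) : ℤ)) (Representation.free ℤ Γ (Fin m) g x) =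
      Finsupp.single (QuotientGroup.mk g : Γ ⧸ S) (f.hom x : ℤ) := by
  have h1 : (f.hom x : ℤ) = ∑ i, ∑ γ ∈ (x i).coeff.support, (f.hom (Finsupp.single i
      (MonoidAlgebra.single γ ((x i).coeff γ)) : Fin m →₀ MonoidAlgebra ℤ Γ) : ℤ) := by
    conv_lhs => rw [BA_sum x]
    refine (map_sum f.hom _ _).trans ?_
    refine Finset.sum_congr rfl fun i _ => ?_
    exact map_sum f.hom _ _
  rw [h1]
  conv_lhs => rw [BA_sum x]
  rw [map_sum, map_sum, Finsupp.single_finsetSum]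
  refine Finset.sum_congr rfl fun i _ => ?_
  rw [map_sum, map_sum, Finsupp.single_finsetSum]
  refine Finset.sum_congr rfl fun γ hγ => ?_
  have h2 : (QuotientGroup.mk (g * γ) : Γ ⧸ S) = QuotientGroup.mk g := by
    rw [QuotientGroup.eq, mul_inv_rev, mul_assoc, inv_mul_cancel, mul_one]
    exact S.inv_mem (hx i γ hγ)
  rw [Representation.free_single_single, BA_th_single, h2, BA_val f i γ ((x i).coeff γ)]

theorem BA_zero {Γ : Type} [Group Γ] (S : Subgroup Γ) {m r : ℕ}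
    (f : Rep.free ℤ Γ (Fin m) ⟶ tz Γ) (u : Rep.free ℤ Γ (Fin r) ⟶ Rep.free ℤ Γ (Fin m))
    (hu : ∀ y, f.hom (u.hom y) = 0)
    (hS : ∀ s : Fin r, ∀ i, ∀ γ ∈ (((u.hom (Finsupp.single s (MonoidAlgebra.single 1 1) :
      Fin r →₀ MonoidAlgebra ℤ Γ)) : Fin m →₀ MonoidAlgebra ℤ Γ) i).coeff.support, γ ∈ S)
    (y : Fin r →₀ MonoidAlgebra ℤ Γ) :
    BA_th S (fun i => (f.hom (Finsupp.single i (MonoidAlgebra.single 1 1) :
      Fin m →₀ MonoidAlgebra ℤ Γ) : ℤ)) (u.hom y) = 0 := by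
  rw [BA_sum y]
  have e1 : (u.hom (∑ i, ∑ γ ∈ (y i).coeff.support,
      Finsupp.single i (MonoidAlgebra.single γ ((y i).coeff γ)) : Fin r →₀ MonoidAlgebra ℤ Γ) :
        Fin m →₀ MonoidAlgebra ℤ Γ) = ∑ i, ∑ γ ∈ (y i).coeff.support,
      (u.hom (Finsupp.single i (MonoidAlgebra.single γ ((y i).coeff γ)) :
        Fin r →₀ MonoidAlgebra ℤ Γ) : Fin m →₀ MonoidAlgebra ℤ Γ) := by
    refine (map_sum u.hom _ _).trans ?_
    refine Finset.sum_congr rfl fun i _ => ?_
    exact map_sum u.hom _ _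
  rw [e1, map_sum]
  refine Finset.sum_eq_zero fun i _ => ?_
  rw [map_sum]
  refine Finset.sum_eq_zero fun γ _ => ?_
  have h1 : (Finsupp.single i (MonoidAlgebra.single γ ((y i).coeff γ)) :
      Fin r →₀ MonoidAlgebra ℤ Γ) = ((y i).coeff γ) • (Rep.free ℤ Γ (Fin r)).ρ γ
        (Finsupp.single i (MonoidAlgebra.single 1 1) : Fin r →₀ MonoidAlgebra ℤ Γ) := by
    have h2 : (Rep.free ℤ Γ (Fin r)).ρ γ
        (Finsupp.single i (MonoidAlgebra.single 1 1) : Fin r →₀ MonoidAlgebra ℤ Γ) =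
        (Finsupp.single i (MonoidAlgebra.single γ 1) : Fin r →₀ MonoidAlgebra ℤ Γ) := by
      refine (Representation.free_single_single (k := ℤ) γ (1 : Γ) i (1 : ℤ)).trans ?_
      rw [mul_one]
    rw [h2]
    refine Eq.trans ?_ (Finsupp.smul_single ((y i).coeff γ) i _).symm
    rw [MonoidAlgebra.smul_single, smul_eq_mul, mul_one]
  rw [h1]
  have h3 : (u.hom (((y i).coeff γ) • (Rep.free ℤ Γ (Fin r)).ρ γ
        (Finsupp.single i (MonoidAlgebra.single 1 1) : Fin r →₀ MonoidAlgebra ℤ Γ)) :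
        Fin m →₀ MonoidAlgebra ℤ Γ) = ((y i).coeff γ) • (Representation.free ℤ Γ (Fin m) γ
          (u.hom (Finsupp.single i (MonoidAlgebra.single 1 1) :
            Fin r →₀ MonoidAlgebra ℤ Γ) : Fin m →₀ MonoidAlgebra ℤ Γ)) := by
    refine (map_smul u.hom _ _).trans ?_
    rw [Rep.hom_comm_apply]
  rw [h3, map_zsmul, BA_key S f _ (hS i) γ, hu, Finsupp.single_zero, smul_zero]

theorem BA_cnt {Γ : Type} [Group Γ] (hΓ : FPinf Γ) : Group.FG Γ ∧ Countable Γ := by
  have hfg : Group.FG Γ := by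
    obtain ⟨m, f, hf, r, h, hh⟩ := hΓ 1
    let u : Rep.free ℤ Γ (Fin r) ⟶ Rep.free ℤ Γ (Fin m) := h ≫ kernel.ι f
    have hu : ∀ y, f.hom (u.hom y) = 0 := by
      intro y
      have h1 : (h ≫ kernel.ι f) ≫ f = 0 := by rw [Category.assoc, kernel.condition, comp_zero]
      have h2 := congrArg (fun φ => φ.hom y) h1
      exact h2
    have hlift : ∀ x : (Rep.free ℤ Γ (Fin m)).V, f.hom x = 0 → ∃ y, u.hom y = x := by
      intro x hx
      obtain ⟨w, hw⟩ := BA_lift f x hx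
      obtain ⟨y, hy⟩ := (Rep.epi_iff_surjective h).1 hh w
      refine ⟨y, ?_⟩
      rw [← hw, ← hy]
      rfl
    classical
    let T : Finset Γ := Finset.univ.biUnion fun s : Fin r => Finset.univ.biUnion fun i : Fin m =>
      (((u.hom (Finsupp.single s (MonoidAlgebra.single 1 1) :
        Fin r →₀ MonoidAlgebra ℤ Γ)) : Fin m →₀ MonoidAlgebra ℤ Γ) i).coeff.support
    refine ⟨T, ?_⟩
    rw [eq_top_iff]
    intro g _
    have hz := BA_zero (Subgroup.closure (T : Set Γ)) f u hu (by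
      intro s i γ hγ
      apply Subgroup.subset_closure
      rw [Finset.mem_coe, Finset.mem_biUnion]
      refine ⟨s, Finset.mem_univ _, ?_⟩
      rw [Finset.mem_biUnion]
      exact ⟨i, Finset.mem_univ _, hγ⟩)
    have hne : ∃ i : Fin m, (f.hom (Finsupp.single i (MonoidAlgebra.single 1 1) :
        Fin m →₀ MonoidAlgebra ℤ Γ) : ℤ) ≠ 0 := by
      by_contra hcon
      push Not at hcon
      obtain ⟨x, hx⟩ := (Rep.epi_iff_surjective f).1 hf (1 : ℤ)
      have h1 : (f.hom x : ℤ) = 0 := by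
        have h2 : (f.hom (x : Fin m →₀ MonoidAlgebra ℤ Γ) : ℤ) =
            ∑ i, ∑ γ ∈ ((x : Fin m →₀ MonoidAlgebra ℤ Γ) i).coeff.support,
            (f.hom (Finsupp.single i (MonoidAlgebra.single γ
              (((x : Fin m →₀ MonoidAlgebra ℤ Γ) i).coeff γ)) : Fin m →₀ MonoidAlgebra ℤ Γ) : ℤ) := by
          conv_lhs => rw [BA_sum (x : Fin m →₀ MonoidAlgebra ℤ Γ)]
          refine (map_sum f.hom _ _).trans ?_
          refine Finset.sum_congr rfl fun i _ => ?_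
          exact map_sum f.hom _ _
        rw [h2]
        refine Finset.sum_eq_zero fun i _ => Finset.sum_eq_zero fun γ _ => ?_
        rw [BA_val, hcon i, mul_zero]
      have h3 : (f.hom x : ℤ) = 1 := hx
      rw [h1] at h3
      exact zero_ne_one h3
    obtain ⟨i, hi⟩ := hne
    obtain ⟨y, hy⟩ := hlift ((Finsupp.single i (MonoidAlgebra.single g 1) :
      Fin m →₀ MonoidAlgebra ℤ Γ) - (Finsupp.single i (MonoidAlgebra.single 1 1) :
      Fin m →₀ MonoidAlgebra ℤ Γ)) (by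
        refine (map_sub f.hom _ _).trans ?_
        have e1 := BA_val f i g 1
        rw [one_mul] at e1
        exact sub_eq_zero.2 e1)
    have h4 := hz y
    rw [hy] at h4
    rw [map_sub, BA_th_single, BA_th_single, one_mul, sub_eq_zero] at h4
    have h5 := (Finsupp.single_eq_single_iff _ _ _ _).1 h4
    rcases h5 with ⟨h6, _⟩ | ⟨h6, _⟩
    · rw [QuotientGroup.eq, mul_one] at h6
      exact (Subgroup.inv_mem_iff _).1 h6
    · exact absurd h6 hi
  refine ⟨hfg, ?_⟩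
  obtain ⟨S, hS⟩ := hfg
  have hc : Countable (FreeGroup S) := inferInstanceAs (Countable (Quot _))
  have hs : Function.Surjective (FreeGroup.lift (fun s : S => (s : Γ))) := by
    rw [← MonoidHom.range_eq_top, FreeGroup.range_lift_eq_closure]
    have h1 : (Set.range fun s : S => (s : Γ)) = (S : Set Γ) := by
      ext x
      constructor
      · rintro ⟨s, rfl⟩
        exact s.2
      · intro hx
        exact ⟨⟨x, hx⟩, rfl⟩
    rw [h1]
    exact hS
  exact hs.countable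

theorem BA_main {Γ : Type} [Group Γ] (hΓ : IsTypeFP Γ) (d : ℕ)
    (h0 : ∀ j, j ≠ d → IsZero (groupCohomology (Rep.leftRegular ℤ Γ) j))
    (h1 : Nonempty (groupCohomology (Rep.leftRegular ℤ Γ) d ≃+ ℤ)) (p : ℕ) [Fact p.Prime]
    (z : Γ) (hz : z ∈ Subgroup.center Γ) (hz1 : z ≠ 1) :
    ∃ (n : ℕ) (L : Type) (_ : Group L) (E : CX Γ L), E.t = z ∧ Lv p n E := by
  have hinf : ∀ n : ℤ, z ^ n = 1 → n = 0 := by
    intro n hn
    by_contra hn0
    exact hz1 (FPcd_tf hΓ z (isOfFinOrder_iff_zpow_eq_one.2 ⟨n, hn0, hn⟩))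
  have hN : (Subgroup.zpowers z).Normal := zpowers_normal z hz
  let E : CX Γ (Γ ⧸ Subgroup.zpowers z) :=
    { π := QuotientGroup.mk' _
      t := z
      surj := QuotientGroup.mk'_surjective _
      ker := fun x => by
        rw [QuotientGroup.mk'_apply, QuotientGroup.eq_one_iff, Subgroup.mem_zpowers_iff]
        exact ⟨fun ⟨n, hn⟩ => ⟨n, hn.symm⟩, fun ⟨n, hn⟩ => ⟨n, hn.symm⟩⟩
      cent := hz
      inf := hinf }
  obtain ⟨n, hn⟩ := FPcd_fin (ZMod p) hΓ
  have hF : FPinf (Γ ⧸ Subgroup.zpowers z) := fun m => FPd_main z hz hinf (FPcd_inf hΓ) m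
  obtain ⟨-, -, hfin, hsize⟩ := BS_main d h0 h1 p
  refine ⟨n, Γ ⧸ Subgroup.zpowers z, inferInstance, E, rfl, ?_⟩
  exact
    { cd := hn
      ds := DB_main p hF
      dv := fun N hN' T j => DB_main p (FPcd_inf hΓ) (Rep.res E.π N) (fun x => hN' x) (T.res E.π) j
      fin := hfin
      size := hsize n }

end Pool.Agent.H5.PD
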