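import Pool.Agent.H5.PD.Df

/-!
Module C0 (row PDC0).  The induced module `C0 S B` inside the coinduced one (Df.lean).
`C0_ses`: `VTop_shortExact` (H5/CP/VTop.lean): `C0i` injective, `CQp` onto, exact in the middle (`Submodule.Quotient.mk_eq_zero`); see `InK_ses` (H75/CP/InK.lean).
`C0_nat`: `ext`; both sides are `f ↦ e (f 1)`.   `C0_kp`, `CQ_kp`: values are killed by `p`.
`C0_loc`: `f` is determined by its values at the finitely many `a ∈ F`: `f(s a) = s f(a)`.  By induction on the finite set `F`: some `e ∈ T.S` kills all `f(a)`, `a ∈ F` (`e₂` killing `e₁(f(a))`, `e₁ ≫ e₂ ∈ T.S` kills what `e₁` killed, and `f(a)`; empty set: `T.ne`).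
`C0_id`, `C0_comp`: functoriality, `rfl`-like.   `C0T` is then a tail system of `C0 S B`.
`C0_map` : the map of short exact sequences needed to see that `C0 S` is exact is not needed here.
-/

namespace Pool.Agent.H5.PD

open CategoryTheory CategoryTheory.Abelian CategoryTheory.Limits Pool.Agent.H5.CP
  Pool.Agent.H75.CP Pool.Agent.H5.ZP

theorem C0_wk {k G : Type} [CommRing k] [Group G] (S : Subgroup G) (B : Rep.{0} k S) :
    C0i S B ≫ CQp S B = 0 := by
  ext x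
  exact (Submodule.Quotient.mk_eq_zero _).2 x.2

theorem C0_sesk {k G : Type} [CommRing k] [Group G] (S : Subgroup G) (B : Rep.{0} k S)
    (w : C0i S B ≫ CQp S B = 0) :
    (ShortComplex.mk (C0i S B) (CQp S B) w).ShortExact := by
  refine VTop_shortExact _ ?_ ?_ ?_
  · intro a b hab
    exact Subtype.ext hab
  · intro z
    obtain ⟨F, rfl⟩ := Submodule.Quotient.mk_surjective _ z
    exact ⟨F, rfl⟩
  · intro x hx
    have hx' : x ∈ c0 S B := (Submodule.Quotient.mk_eq_zero _).1 hx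
    exact ⟨⟨x, hx'⟩, rfl⟩

theorem CQ_kpk {k G : Type} [CommRing k] [Group G] (S : Subgroup G) (B : Rep.{0} k S) (p : ℕ)
    (hB : ∀ x : B.V, p • x = 0) (z : (CQ S B).V) : p • z = 0 := by
  obtain ⟨f, rfl⟩ := Submodule.Quotient.mk_surjective _ z
  have h : p • f = 0 := by
    apply Subtype.ext
    funext g
    exact hB (f.1 g)
  refine (Submodule.Quotient.mk_eq_zero (c0 S B) (x := p • f)).2 ?_
  rw [h]
  exact (c0 S B).zero_mem

theorem C0_w {G : Type} [Group G] (S : Subgroup G) (B : Rep.{0} ℤ S) :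
    C0i S B ≫ CQp S B = 0 := C0_wk S B

theorem C0_ses {G : Type} [Group G] (S : Subgroup G) (B : Rep.{0} ℤ S) :
    (ShortComplex.mk (C0i S B) (CQp S B) (C0_w S B)).ShortExact := C0_sesk S B _

theorem C0_nat {G : Type} [Group G] (S : Subgroup G) {B B' : Rep.{0} ℤ S} (e : B ⟶ B') :
    (Rep.resFunctor S.subtype).map (C0m S e) ≫ c0ev S B' = c0ev S B ≫ e := by
  ext
  rfl

theorem C0_comp {G : Type} [Group G] (S : Subgroup G) {B B' B'' : Rep.{0} ℤ S} (e : B ⟶ B')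
    (f : B' ⟶ B'') : C0m S e ≫ C0m S f = C0m S (e ≫ f) := by
  ext
  rfl

theorem C0_kp {G : Type} [Group G] (S : Subgroup G) (B : Rep.{0} ℤ S) (p : ℕ) (hB : Kp p B) :
    Kp p (C0 S B) := by
  intro x
  apply Subtype.ext
  apply Subtype.ext
  funext g
  exact hB (x.1.1 g)

theorem CQ_kp {G : Type} [Group G] (S : Subgroup G) (B : Rep.{0} ℤ S) (p : ℕ) (hB : Kp p B) :
    Kp p (CQ S B) := CQ_kpk S B p hB

theorem C0_fin {G : Type} [Group G] {S : Subgroup G} {B : Rep.{0} ℤ S} (T : Tail B) (u : G → B.V)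
    (F : Set G) (hF : F.Finite) : ∃ e ∈ T.S, ∀ a ∈ F, e.hom (u a) = 0 := by
  induction F, hF using Set.Finite.induction_on with
  | empty =>
    obtain ⟨e, he⟩ := T.ne
    exact ⟨e, he, fun a ha => absurd ha (Set.notMem_empty a)⟩
  | @insert a F' _ _ ih =>
    obtain ⟨e₁, he₁, h₁⟩ := ih
    obtain ⟨e₂, he₂, h₂⟩ := T.loc (e₁.hom (u a))
    refine ⟨e₁ ≫ e₂, T.mul e₁ he₁ e₂ he₂, fun b hb => ?_⟩
    show e₂.hom (e₁.hom (u b)) = 0
    rcases Set.mem_insert_iff.1 hb with rfl | hb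
    · exact h₂
    · rw [h₁ b hb, map_zero]

theorem C0_loc {G : Type} [Group G] (S : Subgroup G) (B : Rep.{0} ℤ S) (T : Tail B)
    (f : (C0 S B).V) : ∃ e ∈ T.S, (C0m S e).hom f = 0 := by
  obtain ⟨F, hF, h⟩ := f.2
  obtain ⟨e, he, h1⟩ := C0_fin T f.1.1 F hF
  refine ⟨e, he, ?_⟩
  apply Subtype.ext
  apply Subtype.ext
  funext x
  show e.hom (f.1.1 x) = 0
  by_cases h0 : f.1.1 x = 0
  · rw [h0, map_zero]
  · obtain ⟨a, ha, s, rfl⟩ := h x h0
    have h2 : f.1.1 ((s : G) * a) = B.ρ s (f.1.1 a) := f.1.2 s a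
    rw [h2, Rep.hom_comm_apply, h1 a ha, map_zero]

/-- the tail system induced on `C0 S B` -/
noncomputable def C0T {G : Type} [Group G] (S : Subgroup G) {B : Rep.{0} ℤ S} (T : Tail B) :
    Tail (C0 S B) where
  S := {f | ∃ e ∈ T.S, f = C0m S e}
  ne := by
    obtain ⟨e, he⟩ := T.ne
    exact ⟨_, e, he, rfl⟩
  mul := by
    rintro _ ⟨e, he, rfl⟩ _ ⟨f, hf, rfl⟩
    exact ⟨e ≫ f, T.mul e he f hf, C0_comp S e f⟩
  loc := by
    intro x
    obtain ⟨e, he, h⟩ := C0_loc S B T x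
    exact ⟨_, ⟨e, he, rfl⟩, h⟩

end Pool.Agent.H5.PD
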