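import Pool.Agent.H5.PD.CZ
import Pool.Agent.H5.PD.C0

/-!
Module CA (row PDCA).  `Coind/Ind` is acyclic on the subgroups of order `p`.  Use only the STATEMENTS of CZ, C0.
`CA_hig` (Higman): `Q` a finite group, `M : Rep k Q`, `ε : M → M` `k`-linear (not equivariant), `Σ_{y ∈ Q} y ε(y⁻¹ m) = m`.  Then `H^(j+1)(Q;M) = 0`: `M` is a retract of `FunR Q M` (`Q` acting on itself by left multiplication): `α(m)(y) = y ε(y⁻¹ m)`, `β(F) = Σ_y F(y)` are equivariant, `β α = 1`;
 `FunA_free` (H75/CP/FunA.lean) and `LesA_ret` (H5/CP/LesA.lean).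
`CA_pac`: let `x ∈ G`, `x^p = 1`, `x ≠ 1`, `Q = zpowers x` (order `p`, finite).  Right cosets `S a` of `S` in `G`, `Q` acts on the right.  `S a x^i = S a` for some `0 < i < p` iff `a x a⁻¹ ∈ S` (`x` is a power of `x^i`), and by `hfix` at most one coset has this property.
 On the other cosets `Q` acts freely; choose a set `R` of such cosets which meets every free orbit exactly once (e.g. `R' ⊆ G` with `S R' = R'`: for a free coset exactly one `i ∈ ZMod p` with `a x^i ∈ R'`; `Quotient.out` for the double cosets `S\\G/Q`).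
 `ε(f)(g) = f(g)` if `g ∈ R'` and `0` otherwise; `ε` preserves coinduced functions (`S R' = R'`) and `c0`, so it induces `ε` on `CQ S B`.  `(y ε y⁻¹ f)(g) = 1_{R'}(g y) f(g)` (the action is `(y f)(g) = f(g y)`), so `Σ_y y ε y⁻¹ f` and `f` differ only on the fixed coset (`Σ_y 1_{R'}(g y) = 1` for
 `g` in a free coset, `= 0` for `g` in the fixed coset), i.e. by an element of `c0`.  `CA_hig`.
`CA_main`: `S = stabilizer L u`, `u^p = t`.  `a x a⁻¹ ∈ S` iff `x` fixes `a⁻¹ • u ∈ E.Y0 p`.  `YFi_main` (with `NoTor_main p ⟨n, hH⟩`, see `InK_pac`) : `x` has only one fixed point on `E.Y0 p ⊕ L`, so `a⁻¹ • u = b⁻¹ • u`, `b a⁻¹ ∈ S`.  So `CA_pac` applies; `CQ_kp`, `CZ_pac`.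
-/

namespace Pool.Agent.H5.PD

open CategoryTheory CategoryTheory.Abelian CategoryTheory.Limits Pool.Agent.H5.CP
  Pool.Agent.H75.CP Pool.Agent.H5.ZP

/-- products act by composition -/
theorem CA_mul {k Q : Type} [CommRing k] [Group Q] (M : Rep.{0} k Q) (a b : Q) (m : M.V) :
    M.ρ a (M.ρ b m) = M.ρ (a * b) m := by
  rw [map_mul]
  rfl

/-- `m ↦ (y ↦ y ε(y⁻¹ m))` -/
noncomputable def CA_a {k Q : Type} [CommRing k] [Group Q] (M : Rep.{0} k Q)
    (ε : M.V →ₗ[k] M.V) : M ⟶ FunR Q M :=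
  Rep.ofHom ⟨{ toFun := fun m y => M.ρ y (ε (M.ρ y⁻¹ m))
               map_add' := by
                intro a b
                funext y
                show M.ρ y (ε (M.ρ y⁻¹ (a + b))) =
                  M.ρ y (ε (M.ρ y⁻¹ a)) + M.ρ y (ε (M.ρ y⁻¹ b))
                rw [map_add, map_add, map_add]
               map_smul' := by
                intro r a
                funext y
                show M.ρ y (ε (M.ρ y⁻¹ (r • a))) = r • M.ρ y (ε (M.ρ y⁻¹ a))
                rw [map_smul, map_smul, map_smul] }, by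
    intro g
    apply LinearMap.ext
    intro m
    funext y
    show M.ρ y (ε (M.ρ y⁻¹ (M.ρ g m))) = M.ρ g (M.ρ (g⁻¹ * y) (ε (M.ρ (g⁻¹ * y)⁻¹ m)))
    rw [CA_mul, CA_mul, mul_inv_cancel_left, mul_inv_rev, inv_inv]⟩

/-- `F ↦ ∑ F(y)` -/
noncomputable def CA_b {k Q : Type} [CommRing k] [Group Q] [Fintype Q] (M : Rep.{0} k Q) :
    FunR Q M ⟶ M :=
  Rep.ofHom ⟨{ toFun := fun F => ∑ y : Q, (F : Q → M.V) y
               map_add' := by
                intro F F'
                exact Finset.sum_add_distrib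
               map_smul' := by
                intro r F
                show ∑ y : Q, r • (F : Q → M.V) y = r • ∑ y : Q, (F : Q → M.V) y
                rw [Finset.smul_sum] }, by
    intro g
    apply LinearMap.ext
    intro F
    show ∑ y : Q, M.ρ g ((F : Q → M.V) (g⁻¹ * y)) = M.ρ g (∑ y : Q, (F : Q → M.V) y)
    rw [map_sum]
    exact Fintype.sum_equiv (Equiv.mulLeft g⁻¹) _ _ (fun y => rfl)⟩

theorem CA_hig {k Q : Type} [CommRing k] [Group Q] [Fintype Q] (M : Rep.{0} k Q)
    (ε : M.V →ₗ[k] M.V) (h : ∀ m : M.V, ∑ y : Q, M.ρ y (ε (M.ρ y⁻¹ m)) = m) (j : ℕ) :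
    IsZero (groupCohomology M (j + 1)) := by
  refine LesA_ret ⟨CA_a M ε, CA_b M, ?_⟩ (j + 1) (FunA_free Q M j (fun g y hy => ?_))
  · ext m
    exact h m
  · rw [smul_eq_mul] at hy
    exact mul_eq_right.1 hy

/-- the double coset relation -/
def CA_rel {G : Type} [Group G] (S Q : Subgroup G) : Setoid G where
  r a b := ∃ s : S, ∃ y : Q, b = s * a * y
  iseqv :=
    { refl := fun a => ⟨1, 1, by simp⟩
      symm := by
        rintro a b ⟨s, y, rfl⟩
        refine ⟨s⁻¹, y⁻¹, ?_⟩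
        push_cast
        group
      trans := by
        rintro a b c ⟨s, y, rfl⟩ ⟨s', y', rfl⟩
        refine ⟨s' * s, y * y', ?_⟩
        push_cast
        group }

/-- the chosen representative of a double coset -/
noncomputable def CA_rep {G : Type} [Group G] (S Q : Subgroup G) (g : G) : G :=
  Quotient.out (Quotient.mk (CA_rel S Q) g)

theorem CA_rep_eq {G : Type} [Group G] (S Q : Subgroup G) (g : G) (s : S) (y : Q) :
    CA_rep S Q (s * g * y) = CA_rep S Q g := by
  unfold CA_rep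
  congr 1
  apply Quotient.sound
  exact (CA_rel S Q).symm ⟨s, y, rfl⟩

theorem CA_rep_ex {G : Type} [Group G] (S Q : Subgroup G) (g : G) :
    ∃ s : S, ∃ y : Q, CA_rep S Q g = s * g * y := by
  have h : (CA_rel S Q).r (CA_rep S Q g) g := Quotient.mk_out g
  exact (CA_rel S Q).symm h

/-- `g` is in the chosen coset of its double coset -/
def CA_P {G : Type} [Group G] (S Q : Subgroup G) (g : G) : Prop :=
  ∃ s : S, g = s * CA_rep S Q g

theorem CA_P_mul {G : Type} [Group G] (S Q : Subgroup G) (s : S) (g : G) :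
    CA_P S Q (s * g) ↔ CA_P S Q g := by
  have h : CA_rep S Q (s * g) = CA_rep S Q g := by
    have h1 := CA_rep_eq S Q g s 1
    rwa [Subgroup.coe_one, mul_one] at h1
  unfold CA_P
  rw [h]
  constructor
  · rintro ⟨s', hs'⟩
    refine ⟨s⁻¹ * s', ?_⟩
    push_cast
    rw [mul_assoc, ← hs', inv_mul_cancel_left]
  · rintro ⟨s', hs'⟩
    refine ⟨s * s', ?_⟩
    push_cast
    rw [mul_assoc, ← hs']

theorem CA_P_free {G : Type} [Group G] (S Q : Subgroup G) (g : G)
    (hf : ∀ z : Q, g * z * g⁻¹ ∈ S → z = 1) : ∃ y₀ : Q, ∀ y : Q, CA_P S Q (g * y) ↔ y = y₀ := by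
  obtain ⟨s₀, y₀, h0⟩ := CA_rep_ex S Q g
  refine ⟨y₀, fun y => ?_⟩
  have h : CA_rep S Q (g * y) = CA_rep S Q g := by
    have h1 := CA_rep_eq S Q g 1 y
    rwa [Subgroup.coe_one, one_mul] at h1
  unfold CA_P
  rw [h, h0]
  constructor
  · rintro ⟨s, hs⟩
    have h1 := hf (y * y₀⁻¹) (by
      have h2 : g * ((y * y₀⁻¹ : Q) : G) * g⁻¹ = ((s * s₀ : S) : G) := by
        push_cast
        rw [← mul_assoc g, hs]
        group
      rw [h2]
      exact (s * s₀).2)
    exact mul_inv_eq_one.1 h1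
  · rintro rfl
    refine ⟨s₀⁻¹, ?_⟩
    push_cast
    group

open scoped Classical in
/-- restriction of the functions to the chosen cosets -/
noncomputable def CA_e {k G : Type} [CommRing k] [Group G] (S Q : Subgroup G)
    (B : Rep.{0} k S) : (Rep.coind S.subtype B).V →ₗ[k] (Rep.coind S.subtype B).V where
  toFun f := ⟨fun g => if CA_P S Q g then f.1 g else 0, by
    intro s g
    show (if CA_P S Q (s * g) then f.1 (s * g) else 0) = B.ρ s (if CA_P S Q g then f.1 g else 0)
    have h : f.1 (s * g) = B.ρ s (f.1 g) := f.2 s g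
    by_cases hg : CA_P S Q g
    · rw [if_pos hg, if_pos ((CA_P_mul S Q s g).2 hg), h]
    · rw [if_neg hg, if_neg (fun h1 => hg ((CA_P_mul S Q s g).1 h1)), map_zero]⟩
  map_add' f f' := by
    apply Subtype.ext
    funext g
    show (if CA_P S Q g then f.1 g + f'.1 g else 0) =
      (if CA_P S Q g then f.1 g else 0) + (if CA_P S Q g then f'.1 g else 0)
    by_cases hg : CA_P S Q g
    · rw [if_pos hg, if_pos hg, if_pos hg]
    · rw [if_neg hg, if_neg hg, if_neg hg, add_zero]
  map_smul' r f := by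
    apply Subtype.ext
    funext g
    show (if CA_P S Q g then r • f.1 g else 0) = r • (if CA_P S Q g then f.1 g else 0)
    by_cases hg : CA_P S Q g
    · rw [if_pos hg, if_pos hg]
    · rw [if_neg hg, if_neg hg, smul_zero]

open scoped Classical in
theorem CA_e_apply {k G : Type} [CommRing k] [Group G] (S Q : Subgroup G) (B : Rep.{0} k S)
    (f : (Rep.coind S.subtype B).V) (g : G) :
    (CA_e S Q B f).1 g = if CA_P S Q g then f.1 g else 0 := rfl

theorem CA_e_c0 {k G : Type} [CommRing k] [Group G] (S Q : Subgroup G) (B : Rep.{0} k S) :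
    c0 S B ≤ (c0 S B).comap (CA_e S Q B) := by
  rintro f ⟨F, hF, h⟩
  refine ⟨F, hF, fun x hx => h x fun h0 => hx ?_⟩
  rw [CA_e_apply, h0]
  exact ite_self 0

/-- evaluation at `g` -/
noncomputable def CA_ev {k G : Type} [CommRing k] [Group G] (S : Subgroup G) (B : Rep.{0} k S)
    (g : G) : (Rep.coind S.subtype B).V →ₗ[k] B.V where
  toFun f := f.1 g
  map_add' _ _ := rfl
  map_smul' _ _ := rfl

theorem CA_pac {k G : Type} [CommRing k] [Group G] (S : Subgroup G) (p : ℕ) [Fact p.Prime]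
    (hfix : ∀ x : G, x ^ p = 1 → x ≠ 1 → ∀ a b : G, a * x * a⁻¹ ∈ S → b * x * b⁻¹ ∈ S →
      b * a⁻¹ ∈ S) (B : Rep.{0} k S) : PAc p (CQ S B) := by
  intro x hx hx1 j
  have hord : orderOf x = p := orderOf_eq_prime hx hx1
  have hcard : Nat.card (Subgroup.zpowers x) = p := by rw [Nat.card_zpowers, hord]
  have hfin : Finite (Subgroup.zpowers x) := Nat.finite_of_card_ne_zero (by
    rw [hcard]
    exact (Fact.out : p.Prime).ne_zero)
  let _ : Fintype (Subgroup.zpowers x) := Fintype.ofFinite _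
  refine CA_hig (Rep.res (Subgroup.zpowers x).subtype (CQ S B))
    ((c0 S B).mapQ (c0 S B) (CA_e S (Subgroup.zpowers x) B) (CA_e_c0 S _ B)) ?_ j
  intro m
  obtain ⟨f, rfl⟩ := Submodule.Quotient.mk_surjective _ m
  show ∑ y : Subgroup.zpowers x, (c0 S B).mkQ ((Rep.coind S.subtype B).ρ (y : G)
    (CA_e S (Subgroup.zpowers x) B ((Rep.coind S.subtype B).ρ ((y⁻¹ : Subgroup.zpowers x) : G) f)))
      = (c0 S B).mkQ f
  rw [← map_sum]
  refine (Submodule.Quotient.eq _).2 ?_
  have key : ∀ g : G, CA_ev S B g (∑ y : Subgroup.zpowers x, ((Rep.coind S.subtype B).ρ (y : G)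
      (CA_e S (Subgroup.zpowers x) B
        ((Rep.coind S.subtype B).ρ ((y⁻¹ : Subgroup.zpowers x) : G) f))) - f) ≠ 0 →
      g * x * g⁻¹ ∈ S := by
    classical
    intro g hg
    by_contra hgx
    apply hg
    obtain ⟨y₀, hy₀⟩ := CA_P_free S (Subgroup.zpowers x) g (by
      intro z hz
      by_contra hz1
      apply hgx
      obtain ⟨m, hm⟩ := Subgroup.mem_zpowers_iff.1 (mem_zpowers_of_prime_card hcard
        (g' := ⟨x, Subgroup.mem_zpowers x⟩) hz1)
      have hm' : (z : G) ^ m = x := congrArg Subtype.val hm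
      rw [← hm', ← conj_zpow]
      exact zpow_mem hz m)
    rw [map_sub, map_sum]
    have h1 : ∀ y : Subgroup.zpowers x, CA_ev S B g ((Rep.coind S.subtype B).ρ (y : G)
        (CA_e S (Subgroup.zpowers x) B
          ((Rep.coind S.subtype B).ρ ((y⁻¹ : Subgroup.zpowers x) : G) f))) =
        if y = y₀ then f.1 g else 0 := by
      intro y
      show (CA_e S (Subgroup.zpowers x) B
          ((Rep.coind S.subtype B).ρ ((y⁻¹ : Subgroup.zpowers x) : G) f)).1 (g * y) = _
      rw [CA_e_apply]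
      have h2 : ((Rep.coind S.subtype B).ρ ((y⁻¹ : Subgroup.zpowers x) : G) f).1 (g * y) =
          f.1 g := by
        show f.1 (g * y * ((y⁻¹ : Subgroup.zpowers x) : G)) = f.1 g
        rw [Subgroup.coe_inv, mul_inv_cancel_right]
      rw [h2]
      by_cases hy : y = y₀
      · rw [if_pos hy, if_pos ((hy₀ y).2 hy)]
      · rw [if_neg hy, if_neg fun h3 => hy ((hy₀ y).1 h3)]
    rw [Finset.sum_congr rfl fun y _ => h1 y, Finset.sum_ite_eq' , if_pos (Finset.mem_univ _)]
    exact sub_self _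
  by_cases hex : ∃ a : G, a * x * a⁻¹ ∈ S
  · obtain ⟨a, ha⟩ := hex
    refine ⟨{a}, Set.finite_singleton a, fun g hg => ⟨a, rfl, ?_⟩⟩
    have h1 := hfix x hx hx1 a g ha (key g hg)
    exact ⟨⟨g * a⁻¹, h1⟩, (inv_mul_cancel_right g a).symm⟩
  · exact ⟨∅, Set.finite_empty, fun g hg => absurd ⟨g, key g hg⟩ hex⟩

theorem CA_main {H L : Type} [Group H] [Group L] (E : CX H L) (p : ℕ) [Fact p.Prime] (n : ℕ)
    (hH : CD (ZMod p) H n) (u : E.Y0 p) (B : Rep.{0} ℤ (MulAction.stabilizer L u))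
    (hB : Kp p B) (j : ℕ) (hj : 2 * n + 3 ≤ j)
    (x : Ext (tz L) (CQ (MulAction.stabilizer L u) B) j) : x = 0 := by
  refine CZ_pac E p n hH _ (CQ_kp _ B p hB) (CA_pac _ p ?_ B) j hj x
  intro y hy hy1 a b ha hb
  obtain ⟨z, -, hz⟩ := YFi_main E p (fun w hw => NoTor_main p ⟨n, hH⟩ w hw) y hy hy1
  have key : ∀ c : L, c * y * c⁻¹ ∈ MulAction.stabilizer L u →
      (Sum.inl (c⁻¹ • u) : (E.Y0 p) ⊕ L) = z := by
    intro c hc
    apply hz
    rw [Sum.smul_inl]
    congr 1
    have h1 : (c * y * c⁻¹) • u = u := MulAction.mem_stabilizer_iff.1 hc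
    rw [mul_smul, mul_smul] at h1
    exact (inv_smul_eq_iff.2 h1.symm).symm
  have h1 : a⁻¹ • u = b⁻¹ • u := Sum.inl_injective ((key a ha).trans (key b hb).symm)
  rw [MulAction.mem_stabilizer_iff, mul_smul, h1, smul_inv_smul]

end Pool.Agent.H5.PD
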