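import Pool.Agent.H5.PD.Na
import Pool.Agent.H5.CP.EulN

/-!
Module DE (row PDDE).  Derivations and `Ext^1`.  `I = kernel (aug ℤ G)`, `0 → I → ℤ[G] → ℤ → 0` (`AugE_exact ℤ G`).
`DE_phi`: let `ψ : ℤ[G] → N` be the additive map `g ↦ f(g)` (`Finsupp.liftAddHom`-like on `MonoidAlgebra ℤ G`); `φ = ψ ∘ ι` (`ι = kernel.ι`).  Since `f(1) = 0`, `φ(u) = f(g)` if `ι(u) = g - 1`.  Equivariance: `ψ(g x) = g ψ(x) + ε(x) f(g)` for all `x ∈ ℤ[G]`
 (check on `x = single h r`, `f(gh) = f(g) + g f(h)`), and `ε(ι u) = 0`.  (`mkZ` in Df.)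
`DE_gen`: two morphisms `I ⟶ N` which agree on the elements `u` with `ι u = g - 1` are equal (`ι u = Σ r_g g = Σ r_g (g - 1)` if `Σ r_g = 0`; `ABs_lift`, `ABs_ι_inj`).
`DE_ex`: `Ext^1(ℤ[G], N) = 0`, so `x = extClass.comp (mk₀ φ)` (`Ext.contravariant_sequence_exact₃`), `f(g) = φ(g - 1)` is a derivation (`gh - 1 = (g - 1) + g (h - 1)`), `DE_gen`.
`DE_zero`: `extClass.comp (mk₀ φ) = 0` iff `φ` extends to `ℤ[G]` (`Ext.contravariant_sequence_exact₁`, compare `Qe_one_iff`, H5/ZP/Qe.lean), i.e. iff `φ(g - 1) = g n - n` for some `n` (`n` = image of `1`; `Rep.leftRegularHom`).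
`DE_In`: `In π` of `extClass(aug L).comp (mk₀ φ)` is `extClass(res aug L).comp (mk₀ φ)` (`Ext.mapExactFunctor_comp`, `_extClass`, `_mk₀`), and the morphism of short complexes `aug H → res (aug L)` (`ℤ[H] → ℤ[L]`, the identity on `ℤ`) and `extClass_naturality` give
 `extClass(aug H).comp (mk₀ κ) = extClass(res aug L)`, `κ : I_H → res I_L`, `κ(h - 1) = π(h) - 1`; conclude with `DE_gen`.
`DE_nat`: `Ext.comp_assoc`, `Ext.mk₀_comp_mk₀`, `DE_gen`.
-/

namespace Pool.Agent.H5.PD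

open CategoryTheory CategoryTheory.Abelian CategoryTheory.Limits Pool.Agent.H5.CP
  Pool.Agent.H75.CP Pool.Agent.H5.ZP

/-- derivations `G → N` -/
def IsDer {G : Type} [Group G] (N : Rep.{0} ℤ G) (f : G → N.V) : Prop :=
  ∀ g h, f (g * h) = f g + N.ρ g (f h)

/-- the linear extension of `f` to `k[G]` -/
noncomputable def DE_ψ {k G : Type} [CommRing k] [Group G] (N : Rep.{0} k G) (f : G → N.V) :
    MonoidAlgebra k G →ₗ[k] N.V :=
  Finsupp.lift N.V k G f ∘ₗ (MonoidAlgebra.coeffLinearEquiv k).toLinearMap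

theorem DE_ψ_single {k G : Type} [CommRing k] [Group G] (N : Rep.{0} k G) (f : G → N.V) (g : G)
    (r : k) : DE_ψ N f (MonoidAlgebra.single g r) = r • f g := by
  simp [DE_ψ]

theorem DE_lr_single {k G : Type} [CommRing k] [Group G] (g h : G) (r : k) :
    (Rep.leftRegular k G).ρ g (MonoidAlgebra.single h r : MonoidAlgebra k G) =
      (MonoidAlgebra.single (g * h) r : MonoidAlgebra k G) := by
  show Representation.ofMulAction k G G g (MonoidAlgebra.single h r) = _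
  simp

theorem DE_ψ_ρ {k G : Type} [CommRing k] [Group G] (N : Rep.{0} k G) (f : G → N.V)
    (hf : ∀ g h, f (g * h) = f g + N.ρ g (f h)) (g : G) (x : MonoidAlgebra k G) :
    DE_ψ N f ((Rep.leftRegular k G).ρ g x) = N.ρ g (DE_ψ N f x) + (aug k G).hom x • f g := by
  induction x using MonoidAlgebra.induction_linear with
  | zero =>
    have h1 : (Rep.leftRegular k G).ρ g (0 : MonoidAlgebra k G) = 0 := map_zero _
    have h2 : (aug k G).hom (0 : MonoidAlgebra k G) = 0 := map_zero _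
    rw [h1, h2, map_zero, map_zero, zero_smul, add_zero]
  | add a b ha hb =>
    have h1 : (Rep.leftRegular k G).ρ g (a + b : MonoidAlgebra k G) =
      (Rep.leftRegular k G).ρ g a + (Rep.leftRegular k G).ρ g b := map_add _ _ _
    have h2 : (aug k G).hom (a + b : MonoidAlgebra k G) = (aug k G).hom a + (aug k G).hom b :=
      map_add _ _ _
    have h3 : DE_ψ N f ((Rep.leftRegular k G).ρ g a + (Rep.leftRegular k G).ρ g b) =
      DE_ψ N f ((Rep.leftRegular k G).ρ g a) + DE_ψ N f ((Rep.leftRegular k G).ρ g b) :=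
      map_add _ _ _
    have h4 : ((aug k G).hom a + (aug k G).hom b) • f g = (aug k G).hom a • f g +
      (aug k G).hom b • f g := add_smul _ _ _
    rw [h1, h2, h3, h4, ha, hb, map_add, map_add]
    abel
  | single h r =>
    rw [DE_lr_single, DE_ψ_single, DE_ψ_single, ABs_aug_single, hf, smul_add, map_smul]
    abel

theorem DE_u {k G : Type} [CommRing k] [Group G] (g : G) : ∃ u : (kernel (aug k G)).V,
    (kernel.ι (aug k G)).hom u = (MonoidAlgebra.single g 1 - MonoidAlgebra.single 1 1 :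
      MonoidAlgebra k G) := by
  refine ABs_lift _ ?_
  refine (map_sub (aug k G).hom _ _).trans ?_
  rw [ABs_aug_single, ABs_aug_single, sub_self]

theorem DE_phiK {k G : Type} [CommRing k] [Group G] (N : Rep.{0} k G) (f : G → N.V)
    (hf : ∀ g h, f (g * h) = f g + N.ρ g (f h)) :
    ∃ φ : kernel (aug k G) ⟶ N, ∀ (u : (kernel (aug k G)).V) (g : G),
      (kernel.ι (aug k G)).hom u = (MonoidAlgebra.single g 1 - MonoidAlgebra.single 1 1 :
        MonoidAlgebra k G) → φ.hom u = f g := by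
  have h1 : f 1 = 0 := by
    have h := hf 1 1
    rw [mul_one, map_one] at h
    have h2 : f 1 + 0 = f 1 + f 1 := by
      rw [add_zero]
      exact h
    exact (add_left_cancel h2).symm
  refine ⟨Rep.ofHom ⟨DE_ψ N f ∘ₗ (kernel.ι (aug k G)).hom.toLinearMap, fun g =>
    LinearMap.ext fun u => ?_⟩, ?_⟩
  · show DE_ψ N f ((kernel.ι (aug k G)).hom ((kernel (aug k G)).ρ g u)) =
      N.ρ g (DE_ψ N f ((kernel.ι (aug k G)).hom u))
    have e1 : (kernel.ι (aug k G)).hom ((kernel (aug k G)).ρ g u) =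
        (Rep.leftRegular k G).ρ g ((kernel.ι (aug k G)).hom u) := Rep.hom_comm_apply _ _ _
    rw [e1]
    refine (DE_ψ_ρ N f hf g _).trans ?_
    have e2 : (aug k G).hom ((kernel.ι (aug k G)).hom u) = 0 := ABs_aug_ι u
    have e3 : (aug k G).hom ((kernel.ι (aug k G)).hom u) • f g = 0 := by
      rw [e2]
      exact zero_smul k (f g)
    rw [e3, add_zero]
  · intro u g hu
    show DE_ψ N f ((kernel.ι (aug k G)).hom u) = f g
    rw [hu]
    refine (map_sub (DE_ψ N f) _ _).trans ?_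
    rw [DE_ψ_single, DE_ψ_single, one_smul, one_smul, h1, sub_zero]

theorem DE_phi {G : Type} [Group G] (N : Rep.{0} ℤ G) (f : G → N.V) (hf : IsDer N f) :
    ∃ φ : kernel (aug ℤ G) ⟶ N, ∀ (u : (kernel (aug ℤ G)).V) (g : G),
      (kernel.ι (aug ℤ G)).hom u = (MonoidAlgebra.single g 1 - MonoidAlgebra.single 1 1 :
        MonoidAlgebra ℤ G) → φ.hom u = f g :=
  DE_phiK N f hf

theorem DE_genK {k G : Type} [CommRing k] [Group G] (N : Rep.{0} k G)
    (φ ψ : kernel (aug k G) ⟶ N)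
    (h : ∀ (u : (kernel (aug k G)).V) (g : G),
      (kernel.ι (aug k G)).hom u = (MonoidAlgebra.single g 1 - MonoidAlgebra.single 1 1 :
        MonoidAlgebra k G) → φ.hom u = ψ.hom u) : φ = ψ := by
  choose s hs using (DE_u (k := k) (G := G))
  have h1 : ∀ x : MonoidAlgebra k G, (kernel.ι (aug k G)).hom (DE_ψ (kernel (aug k G)) s x) =
      (x - (aug k G).hom x • MonoidAlgebra.single 1 1 : MonoidAlgebra k G) := by
    intro x
    induction x using MonoidAlgebra.induction_linear with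
    | zero =>
      have h2 : (aug k G).hom (0 : MonoidAlgebra k G) = 0 := map_zero _
      rw [h2, map_zero, map_zero, zero_smul, sub_zero]
    | add a b ha hb =>
      have h2 : (aug k G).hom (a + b : MonoidAlgebra k G) = (aug k G).hom a + (aug k G).hom b :=
        map_add _ _ _
      rw [h2, map_add, map_add, ha, hb, add_smul]
      show (a - (aug k G).hom a • MonoidAlgebra.single 1 1 : MonoidAlgebra k G) +
        (b - (aug k G).hom b • MonoidAlgebra.single 1 1 : MonoidAlgebra k G) = _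
      abel
    | single g r =>
      rw [DE_ψ_single, ABs_aug_single, map_smul, hs]
      show r • (MonoidAlgebra.single g 1 - MonoidAlgebra.single 1 1 : MonoidAlgebra k G) = _
      rw [smul_sub, MonoidAlgebra.smul_single, smul_eq_mul, mul_one]
  have h2 : ∀ u : (kernel (aug k G)).V,
      DE_ψ (kernel (aug k G)) s ((kernel.ι (aug k G)).hom u) = u := by
    intro u
    refine ABs_ι_inj _ _ ?_
    refine (h1 _).trans ?_
    have e2 : (aug k G).hom ((kernel.ι (aug k G)).hom u) = 0 := ABs_aug_ι u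
    rw [e2]
    show ((kernel.ι (aug k G)).hom u : MonoidAlgebra k G) -
      (0 : k) • (MonoidAlgebra.single 1 1 : MonoidAlgebra k G) = _
    rw [zero_smul, sub_zero]
  have h3 : ∀ x : MonoidAlgebra k G, φ.hom (DE_ψ (kernel (aug k G)) s x) =
      ψ.hom (DE_ψ (kernel (aug k G)) s x) := by
    intro x
    induction x using MonoidAlgebra.induction_linear with
    | zero => rw [map_zero, map_zero, map_zero]
    | add a b ha hb => rw [map_add, map_add, map_add, ha, hb]
    | single g r => rw [DE_ψ_single, map_smul, map_smul, h (s g) g (hs g)]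
  refine Rep.hom_ext ?_
  refine DFunLike.ext _ _ fun u => ?_
  have h4 := h3 ((kernel.ι (aug k G)).hom u)
  rw [h2] at h4
  exact h4

theorem DE_gen {G : Type} [Group G] (N : Rep.{0} ℤ G) (φ ψ : kernel (aug ℤ G) ⟶ N)
    (h : ∀ (u : (kernel (aug ℤ G)).V) (g : G),
      (kernel.ι (aug ℤ G)).hom u = (MonoidAlgebra.single g 1 - MonoidAlgebra.single 1 1 :
        MonoidAlgebra ℤ G) → φ.hom u = ψ.hom u) : φ = ψ :=
  DE_genK N φ ψ h

/-- the class of a derivation -/
noncomputable def dc {G : Type} [Group G] (N : Rep.{0} ℤ G) (f : G → N.V) (hf : IsDer N f) :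
    Ext (tz G) N 1 :=
  (AugE_exact ℤ G).extClass.comp (Ext.mk₀ (DE_phi N f hf).choose) (add_zero 1)

theorem DE_dc {G : Type} [Group G] (N : Rep.{0} ℤ G) (f : G → N.V) (hf : IsDer N f)
    (φ : kernel (aug ℤ G) ⟶ N) (h : ∀ (u : (kernel (aug ℤ G)).V) (g : G),
      (kernel.ι (aug ℤ G)).hom u = (MonoidAlgebra.single g 1 - MonoidAlgebra.single 1 1 :
        MonoidAlgebra ℤ G) → φ.hom u = f g) :
    dc N f hf = (AugE_exact ℤ G).extClass.comp (Ext.mk₀ φ) (add_zero 1) := by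
  have h1 : (DE_phi N f hf).choose = φ := DE_gen N _ _ fun u g hu =>
    ((DE_phi N f hf).choose_spec u g hu).trans (h u g hu).symm
  unfold dc
  rw [h1]

theorem DE_der {k G : Type} [CommRing k] [Group G] (N : Rep.{0} k G) (φ : kernel (aug k G) ⟶ N)
    (s : G → (kernel (aug k G)).V) (hs : ∀ g, (kernel.ι (aug k G)).hom (s g) =
      (MonoidAlgebra.single g 1 - MonoidAlgebra.single 1 1 : MonoidAlgebra k G)) (g h : G) :
    φ.hom (s (g * h)) = φ.hom (s g) + N.ρ g (φ.hom (s h)) := by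
  have h1 : s (g * h) = s g + (kernel (aug k G)).ρ g (s h) := by
    refine ABs_ι_inj _ _ ?_
    rw [map_add, hs, hs, Rep.hom_comm_apply, hs]
    have h2 : (Rep.leftRegular k G).ρ g (MonoidAlgebra.single h 1 - MonoidAlgebra.single 1 1 :
        MonoidAlgebra k G) = (MonoidAlgebra.single (g * h) 1 - MonoidAlgebra.single g 1 :
        MonoidAlgebra k G) := by
      refine (map_sub ((Rep.leftRegular k G).ρ g) _ _).trans ?_
      rw [DE_lr_single, DE_lr_single, mul_one]
    rw [h2]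
    show (MonoidAlgebra.single (g * h) 1 - MonoidAlgebra.single 1 1 : MonoidAlgebra k G) =
      (MonoidAlgebra.single g 1 - MonoidAlgebra.single 1 1 : MonoidAlgebra k G) +
        (MonoidAlgebra.single (g * h) 1 - MonoidAlgebra.single g 1 : MonoidAlgebra k G)
    abel
  rw [h1, map_add, Rep.hom_comm_apply]

theorem DE_ex {G : Type} [Group G] (N : Rep.{0} ℤ G) (x : Ext (tz G) N 1) :
    ∃ (f : G → N.V) (hf : IsDer N f), x = dc N f hf := by
  have : Projective (augSC ℤ G).X₂ := inferInstanceAs (Projective (Rep.leftRegular ℤ G))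
  obtain ⟨φ, hφ⟩ := Qe_one_surj (AugE_exact ℤ G) N x
  change kernel (aug ℤ G) ⟶ N at φ
  choose s hs using (DE_u (k := ℤ) (G := G))
  refine ⟨fun g => φ.hom (s g), DE_der N φ s hs, ?_⟩
  rw [DE_dc N _ _ φ]
  · exact hφ.symm
  · intro u g hu
    have h1 : u = s g := ABs_ι_inj _ _ (hu.trans (hs g).symm)
    rw [h1]

theorem DE_abs0 {C : Type*} [Category* C] [Abelian C] [HasExt.{0} C] {X₃ X₁ A : C}
    (β : Ext.{0} X₃ X₁ 1) :
    (0 : Ext.{0} X₃ A 1) = β.comp (Ext.mk₀ (0 : X₁ ⟶ A)) (add_zero 1) := by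
  rw [Ext.mk₀_zero, Ext.comp_zero]

theorem DE_abs1 {C D : Type*} [Category* C] [Category* D] [Abelian C] [Abelian D]
    [HasExt.{0} C] [HasExt.{0} D] (F : D ⥤ C) [F.Additive] [PreservesFiniteLimits F]
    [PreservesFiniteColimits F] {X₁ : C} {X₃ X₁' A : D} (β : Ext.{0} X₃ X₁' 1)
    (β' : Ext.{0} (F.obj X₃) X₁ 1) (φ : X₁' ⟶ A) (κ : X₁ ⟶ F.obj X₁')
    (h : β'.comp (Ext.mk₀ κ) (add_zero 1) = β.mapExactFunctor F) :
    (β.comp (Ext.mk₀ φ) (add_zero 1)).mapExactFunctor F =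
      β'.comp (Ext.mk₀ (κ ≫ F.map φ)) (add_zero 1) := by
  rw [Ext.mapExactFunctor_comp, Ext.mapExactFunctor_mk₀, ← h, ← Ext.mk₀_comp_mk₀]
  exact Ext.comp_assoc _ _ _ _ _ rfl

theorem DE_abs2 {C : Type*} [Category* C] [Abelian C] [HasExt.{0} C] {X₃ X₁ A B : C}
    (β : Ext.{0} X₃ X₁ 1) (φ : X₁ ⟶ A) (e : A ⟶ B) :
    (β.comp (Ext.mk₀ φ) (add_zero 1)).comp (Ext.mk₀ e) (add_zero 1) =
      β.comp (Ext.mk₀ (φ ≫ e)) (add_zero 1) := by
  rw [← Ext.mk₀_comp_mk₀]
  exact Ext.comp_assoc _ _ _ _ _ rfl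

theorem DE_lrh {k G : Type} [CommRing k] [Group G] (N : Rep.{0} k G) (n : N.V) (g : G) :
    (Rep.leftRegularHom N n).hom (MonoidAlgebra.single g 1 - MonoidAlgebra.single 1 1 :
      MonoidAlgebra k G) = N.ρ g n - n := by
  refine (map_sub (Rep.leftRegularHom N n).hom _ _).trans ?_
  rw [Rep.leftRegularHom_hom_single, Rep.leftRegularHom_hom_single, one_smul, one_smul, map_one]
  rfl

theorem DE_zero {G : Type} [Group G] (N : Rep.{0} ℤ G) (f : G → N.V) (hf : IsDer N f) :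
    dc N f hf = 0 ↔ ∃ n : N.V, ∀ g, f g = N.ρ g n - n := by
  have : Projective (augSC ℤ G).X₂ := inferInstanceAs (Projective (Rep.leftRegular ℤ G))
  obtain ⟨φ, hφ⟩ := DE_phi N f hf
  have h0 : (0 : Ext (tz G) N 1) = (AugE_exact ℤ G).extClass.comp
      (Ext.mk₀ (0 : kernel (aug ℤ G) ⟶ N)) (add_zero 1) := DE_abs0 _
  have h1 := Qe_one_iff (AugE_exact ℤ G) N φ (0 : kernel (aug ℤ G) ⟶ N)
  rw [DE_dc N f hf φ hφ, h0]
  refine h1.trans ?_
  constructor
  · rintro ⟨t, ht⟩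
    change Rep.leftRegular ℤ G ⟶ N at t
    have ht' : kernel.ι (aug ℤ G) ≫ t = φ := by
      have h2 : kernel.ι (aug ℤ G) ≫ t = φ - 0 := ht
      rw [h2, sub_zero]
    refine ⟨t.hom (MonoidAlgebra.single 1 1 : MonoidAlgebra ℤ G), fun g => ?_⟩
    obtain ⟨u, hu⟩ := DE_u (k := ℤ) g
    rw [← hφ u g hu, ← ht']
    show t.hom ((kernel.ι (aug ℤ G)).hom u) = _
    rw [hu, ← Rep.hom_comm_apply, DE_lr_single, mul_one]
    exact map_sub t.hom _ _
  · rintro ⟨n, hn⟩
    refine ⟨Rep.leftRegularHom N n, ?_⟩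
    show kernel.ι (aug ℤ G) ≫ Rep.leftRegularHom N n = φ - 0
    rw [sub_zero]
    refine DE_gen N _ _ fun u g hu => ?_
    rw [hφ u g hu, hn]
    show (Rep.leftRegularHom N n).hom ((kernel.ι (aug ℤ G)).hom u) = _
    rw [hu]
    exact DE_lrh N n g

theorem DE_In {H L : Type} [Group H] [Group L] (π : H →* L) (N : Rep.{0} ℤ L) (f : L → N.V)
    (hf : IsDer N f) (hf' : IsDer (Rep.res π N) (fun h => f (π h))) :
    In π (dc N f hf) = dc (Rep.res π N) (fun h => f (π h)) hf' := by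
  obtain ⟨φ, hφ⟩ := DE_phi N f hf
  let m1 : augSC ℤ H ⟶ (augSC ℤ L).map (Rep.resFunctor π) :=
    { τ₁ := EulN_k ℤ π
      τ₂ := EulN_r ℤ π
      τ₃ := EulN_t ℤ π
      comm₁₂ := EulN_k_ι _
      comm₂₃ := EulN_rt _ }
  have n1 := ShortComplex.ShortExact.extClass_naturality (AugE_exact ℤ H)
    ((AugE_exact ℤ L).map_of_exact (Rep.resFunctor π)) m1
  have k1 := Ext.mapExactFunctor_extClass (Rep.resFunctor π) (AugE_exact ℤ L)
  rw [← k1] at n1
  have e1 : (AugE_exact ℤ H).extClass.comp (Ext.mk₀ (EulN_k ℤ π)) (add_zero 1) =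
      (AugE_exact ℤ L).extClass.mapExactFunctor (Rep.resFunctor π) :=
    n1.trans (Ext.mk₀_id_comp _)
  have e2 : (AugE_exact ℤ H).extClass.comp (Ext.mk₀ (EulN_k ℤ π ≫ (Rep.resFunctor π).map φ))
      (add_zero 1) = dc (Rep.res π N) (fun h => f (π h)) hf' := by
    refine (DE_dc (Rep.res π N) (fun h => f (π h)) hf' (EulN_k ℤ π ≫ (Rep.resFunctor π).map φ)
      fun u g hu => ?_).symm
    show φ.hom ((EulN_k ℤ π).hom u) = f (π g)
    refine hφ _ _ ?_
    rw [EulN_k_apply, hu, map_sub, EulN_m_single, EulN_m_single, map_one]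
  rw [← e2, DE_dc N f hf φ hφ]
  exact DE_abs1 (Rep.resFunctor π) _ _ φ (EulN_k ℤ π) e1

theorem DE_nat {G : Type} [Group G] {N N' : Rep.{0} ℤ G} (e : N ⟶ N') (f : G → N.V)
    (hf : IsDer N f) (hf' : IsDer N' (fun g => e.hom (f g))) :
    (dc N f hf).comp (Ext.mk₀ e) (add_zero 1) = dc N' (fun g => e.hom (f g)) hf' := by
  obtain ⟨φ, hφ⟩ := DE_phi N f hf
  rw [DE_dc N f hf φ hφ, DE_dc N' (fun g => e.hom (f g)) hf' (φ ≫ e)]
  · exact DE_abs2 _ φ e
  · intro u g hu
    show e.hom (φ.hom u) = _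
    rw [hφ u g hu]

end Pool.Agent.H5.PD
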