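import Pool.Agent.H5.PD.TL
import Pool.Agent.H5.PD.DE

/-!
Module FG (row PDFG).  Use only the STATEMENTS of TL, DE.
`FG_main`: `L` countable, `l : ℕ → L` onto, `D n = Subgroup.closure (l '' {i | i ≤ n})`, finitely generated, increasing, every `g` is in `D n` for large `n`.  `N = PX p L (Σ n, L ⧸ D n)` (`PX_kp`).  `f(g) = Σ_{n < M} (single ⟨n, g D_n⟩ 1 - single ⟨n, D_n⟩ 1)` for any `M` with `g ∈ D M` (independent of
 `M`, e.g. `M = ` the least one, `Nat.find`; the terms with `g ∈ D n` vanish); a derivation: for `M` large `f(gh) = Σ (gh D_n - D_n) = f(g) + g f(h)`.  `h N _ (TLt p) 1 (dc N f hf)`: there is a finite `F` with `(dc f).comp (mk₀ (cut F)) = 0`, so (`DE_nat`, `DE_zero`) `cut_F f(g) = g b - b` for some `b`.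
 Choose `n ∉ F` not among the first components of the support of `b` (finite): then for all `g` the `n`-component of `f(g)` is `0`: if `g ∉ D n`, it is `single (g D_n) 1 - single D_n 1 ≠ 0` (`p` prime, `1 ≠ 0` in `ZMod p`).  So `D n = ⊤` is finitely generated.
`FG_ext`: `H` is generated by `t` and lifts of generators of `L` (`E.surj`, `E.ker`): `Group.FG`; e.g. the subgroup `K` generated by them satisfies `E.π(K) = ⊤` and contains the kernel.
-/

namespace Pool.Agent.H5.PD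

open CategoryTheory CategoryTheory.Abelian CategoryTheory.Limits Pool.Agent.H5.CP
  Pool.Agent.H75.CP Pool.Agent.H5.ZP

/-- the subgroup generated by the first elements of an enumeration -/
def FG_D {L : Type} [Group L] (l : ℕ → L) (n : ℕ) : Subgroup L :=
  Subgroup.closure (l '' {i | i ≤ n})

/-- the `n`-th component of the derivation -/
noncomputable def FG_t (p : ℕ) {L : Type} [Group L] (l : ℕ → L) (n : ℕ) (g : L) :
    (Σ n : ℕ, L ⧸ FG_D l n) →₀ ZMod p :=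
  Finsupp.single (⟨n, (g : L ⧸ FG_D l n)⟩ : Σ n : ℕ, L ⧸ FG_D l n) 1 -
    Finsupp.single (⟨n, ((1 : L) : L ⧸ FG_D l n)⟩ : Σ n : ℕ, L ⧸ FG_D l n) 1

theorem FG_t_zero (p : ℕ) {L : Type} [Group L] (l : ℕ → L) (n : ℕ) (g : L) (hg : g ∈ FG_D l n) :
    FG_t p l n g = 0 := by
  have h : ((g : L) : L ⧸ FG_D l n) = ((1 : L) : L ⧸ FG_D l n) := by
    rw [QuotientGroup.eq, mul_one]
    exact inv_mem hg
  unfold FG_t
  rw [h, sub_self]

theorem FG_t_mul (p : ℕ) {L : Type} [Group L] (l : ℕ → L) (n : ℕ) (g h : L) :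
    FG_t p l n (g * h) = FG_t p l n g +
      Finsupp.mapDomain (fun x : (Σ n : ℕ, L ⧸ FG_D l n) => g • x) (FG_t p l n h) := by
  have h1 : Finsupp.mapDomain (fun x : (Σ n : ℕ, L ⧸ FG_D l n) => g • x) (FG_t p l n h) =
      Finsupp.single (⟨n, ((g * h : L) : L ⧸ FG_D l n)⟩ : Σ n : ℕ, L ⧸ FG_D l n) 1 -
        Finsupp.single (⟨n, (g : L ⧸ FG_D l n)⟩ : Σ n : ℕ, L ⧸ FG_D l n) 1 := by
    have h2 := map_sub (Finsupp.mapDomain.addMonoidHom (M := ZMod p)
      (fun x : (Σ n : ℕ, L ⧸ FG_D l n) => g • x))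
      (Finsupp.single (⟨n, (h : L ⧸ FG_D l n)⟩ : Σ n : ℕ, L ⧸ FG_D l n) 1)
      (Finsupp.single (⟨n, ((1 : L) : L ⧸ FG_D l n)⟩ : Σ n : ℕ, L ⧸ FG_D l n) 1)
    refine h2.trans ?_
    show Finsupp.mapDomain _ (Finsupp.single _ _) - Finsupp.mapDomain _ (Finsupp.single _ _) = _
    rw [Finsupp.mapDomain_single, Finsupp.mapDomain_single]
    have h3 : g • (⟨n, ((1 : L) : L ⧸ FG_D l n)⟩ : Σ n : ℕ, L ⧸ FG_D l n) =
        ⟨n, (g : L ⧸ FG_D l n)⟩ := by
      show (⟨n, ((g * 1 : L) : L ⧸ FG_D l n)⟩ : Σ n : ℕ, L ⧸ FG_D l n) = _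
      rw [mul_one]
    rw [h3]
    rfl
  rw [h1]
  unfold FG_t
  abel

theorem FG_fin (p : ℕ) {L : Type} [Group L] (l : ℕ → L) (hl : Function.Surjective l) (g : L) :
    (Function.support (fun n => FG_t p l n g)).Finite := by
  obtain ⟨m, rfl⟩ := hl g
  refine (Set.finite_lt_nat m).subset ?_
  intro n hn
  rw [Function.mem_support] at hn
  by_contra hcon
  apply hn
  apply FG_t_zero
  have hmn : m ≤ n := not_lt.mp (fun h => hcon h)
  exact Subgroup.subset_closure ⟨m, hmn, rfl⟩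

/-- the derivation -/
noncomputable def FG_f (p : ℕ) {L : Type} [Group L] (l : ℕ → L) (g : L) :
    (Σ n : ℕ, L ⧸ FG_D l n) →₀ ZMod p := ∑ᶠ n, FG_t p l n g

theorem FG_der (p : ℕ) {L : Type} [Group L] (l : ℕ → L) (hl : Function.Surjective l) (g h : L) :
    FG_f p l (g * h) = FG_f p l g +
      Finsupp.mapDomain (fun x : (Σ n : ℕ, L ⧸ FG_D l n) => g • x) (FG_f p l h) := by
  unfold FG_f
  have h1 : Finsupp.mapDomain (fun x : (Σ n : ℕ, L ⧸ FG_D l n) => g • x) (∑ᶠ n, FG_t p l n h) =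
      ∑ᶠ n, Finsupp.mapDomain (fun x : (Σ n : ℕ, L ⧸ FG_D l n) => g • x) (FG_t p l n h) :=
    AddMonoidHom.map_finsum (Finsupp.mapDomain.addMonoidHom (M := ZMod p)
      (fun x : (Σ n : ℕ, L ⧸ FG_D l n) => g • x)) (FG_fin p l hl h)
  have h2 : (Function.support (fun n => Finsupp.mapDomain
      (fun x : (Σ n : ℕ, L ⧸ FG_D l n) => g • x) (FG_t p l n h))).Finite := by
    refine (FG_fin p l hl h).subset ?_
    intro n hn
    rw [Function.mem_support] at hn ⊢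
    intro h0
    apply hn
    rw [h0, Finsupp.mapDomain_zero]
  rw [h1, ← finsum_add_distrib (FG_fin p l hl g) h2]
  exact finsum_congr (fun n => FG_t_mul p l n g h)

theorem FG_val (p : ℕ) {L : Type} [Group L] (l : ℕ → L) (hl : Function.Surjective l) (n : ℕ)
    (g : L) (hg : g ∉ FG_D l n) : FG_f p l g ⟨n, (g : L ⧸ FG_D l n)⟩ = 1 := by
  classical
  have h1 : FG_f p l g ⟨n, (g : L ⧸ FG_D l n)⟩ =
      ∑ᶠ m, FG_t p l m g ⟨n, (g : L ⧸ FG_D l n)⟩ :=
    AddMonoidHom.map_finsum (Finsupp.applyAddHom (M := ZMod p)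
      (⟨n, (g : L ⧸ FG_D l n)⟩ : Σ n : ℕ, L ⧸ FG_D l n)) (FG_fin p l hl g)
  have hne : ((1 : L) : L ⧸ FG_D l n) ≠ (g : L ⧸ FG_D l n) := by
    intro h
    rw [QuotientGroup.eq, inv_one, one_mul] at h
    exact hg h
  rw [h1, finsum_eq_single _ n]
  · unfold FG_t
    rw [Finsupp.sub_apply, Finsupp.single_eq_same, Finsupp.single_eq_of_ne, sub_zero]
    intro h
    rw [Sigma.mk.injEq] at h
    exact hne (eq_of_heq h.2).symm
  · intro m hm
    unfold FG_t
    rw [Finsupp.sub_apply, Finsupp.single_eq_of_ne, Finsupp.single_eq_of_ne, sub_zero]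
    · intro h
      rw [Sigma.mk.injEq] at h
      exact hm h.1.symm
    · intro h
      rw [Sigma.mk.injEq] at h
      exact hm h.1.symm

theorem FG_main (p : ℕ) [Fact p.Prime] {L : Type} [Group L] [Countable L] (h : Ds p L) :
    Group.FG L := by
  classical
  obtain ⟨l, hl⟩ := exists_surjective_nat L
  let N : Rep.{0} ℤ L := PX p L (Σ n : ℕ, L ⧸ FG_D l n)
  let f : L → N.V := fun g => FG_f p l g
  have hf : IsDer N f := fun g g' => FG_der p l hl g g'
  obtain ⟨e, ⟨F, hF, rfl⟩, he⟩ := h N (PX_kp p L _) (TLt p) 1 (dc N f hf)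
  have hf' : IsDer N (fun g => (cut p (G := L) (X := fun n => L ⧸ FG_D l n) F).hom (f g)) := by
    intro g g'
    show (cut p (G := L) (X := fun n => L ⧸ FG_D l n) F).hom (f (g * g')) = _
    rw [hf g g', map_add, Rep.hom_comm_apply]
  rw [DE_nat _ f hf hf'] at he
  obtain ⟨b, hb⟩ := (DE_zero N _ hf').mp he
  change (Σ n : ℕ, L ⧸ FG_D l n) →₀ ZMod p at b
  obtain ⟨n, hn⟩ := (hF.union (b.support.image Sigma.fst).finite_toSet).exists_notMem
  rw [Set.mem_union, not_or] at hn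
  have hb0 : ∀ y : L ⧸ FG_D l n, b ⟨n, y⟩ = 0 := by
    intro y
    by_contra hy
    apply hn.2
    rw [Finset.mem_coe, Finset.mem_image]
    exact ⟨⟨n, y⟩, Finsupp.mem_support_iff.mpr hy, rfl⟩
  have htop : FG_D l n = ⊤ := by
    rw [eq_top_iff]
    intro g _
    by_contra hg
    have h1 := hb g
    have h2 := congrArg (fun v : (Σ n : ℕ, L ⧸ FG_D l n) →₀ ZMod p =>
      v ⟨n, (g : L ⧸ FG_D l n)⟩) h1
    have h3 : (show (Σ n : ℕ, L ⧸ FG_D l n) →₀ ZMod p from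
        (cut p (G := L) (X := fun n => L ⧸ FG_D l n) F).hom (f g)) ⟨n, (g : L ⧸ FG_D l n)⟩ = 1 := by
      rw [← FG_val p l hl n g hg]
      exact (TL_apply p F (FG_f p l g) ⟨n, (g : L ⧸ FG_D l n)⟩).2 hn.1
    have h4 : (show (Σ n : ℕ, L ⧸ FG_D l n) →₀ ZMod p from
        (N.ρ g (show N.V from b) - (show N.V from b) : N.V))
        ⟨n, (g : L ⧸ FG_D l n)⟩ = 0 := by
      show (Finsupp.mapDomain (fun x : (Σ n : ℕ, L ⧸ FG_D l n) => g • x) b - b)
        ⟨n, (g : L ⧸ FG_D l n)⟩ = 0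
      rw [Finsupp.sub_apply, hb0, sub_zero]
      have h5 : (⟨n, (g : L ⧸ FG_D l n)⟩ : Σ n : ℕ, L ⧸ FG_D l n) =
          g • (⟨n, ((1 : L) : L ⧸ FG_D l n)⟩ : Σ n : ℕ, L ⧸ FG_D l n) := by
        show _ = (⟨n, ((g * 1 : L) : L ⧸ FG_D l n)⟩ : Σ n : ℕ, L ⧸ FG_D l n)
        rw [mul_one]
      rw [h5]
      exact (Finsupp.mapDomain_apply (MulAction.injective g) b _).trans (hb0 _)
    exact one_ne_zero (h3.symm.trans (h2.trans h4))
  refine ⟨(Subgroup.fg_iff _).mpr ⟨l '' {i | i ≤ n}, htop, ?_⟩⟩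
  exact (Set.finite_le_nat n).image l

theorem FG_ext {H L : Type} [Group H] [Group L] (E : CX H L) (h : Group.FG L) :
    Group.FG H := by
  obtain ⟨S, hS, hSf⟩ := (Subgroup.fg_iff _).mp h.out
  refine ⟨(Subgroup.fg_iff _).mpr ⟨Function.surjInv E.surj '' S ∪ {E.t}, ?_,
    (hSf.image _).union (Set.finite_singleton _)⟩⟩
  rw [eq_top_iff]
  intro x _
  set K := Subgroup.closure (Function.surjInv E.surj '' S ∪ {E.t}) with hK
  have h1 : (⊤ : Subgroup L) ≤ K.map E.π := by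
    rw [← hS, Subgroup.closure_le]
    intro s hs
    exact ⟨Function.surjInv E.surj s, Subgroup.subset_closure (Or.inl ⟨s, hs, rfl⟩),
      Function.surjInv_eq E.surj s⟩
  obtain ⟨y, hy, hyx⟩ := h1 (Subgroup.mem_top (E.π x))
  have h2 : E.π (y⁻¹ * x) = 1 := by
    rw [map_mul, map_inv, hyx, inv_mul_cancel]
  obtain ⟨n, hn⟩ := (E.ker _).mp h2
  have h3 : E.t ∈ K := Subgroup.subset_closure (Or.inr rfl)
  have h4 : x = y * E.t ^ n := by
    rw [← hn, mul_inv_cancel_left]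
  rw [h4]
  exact mul_mem hy (zpow_mem h3 n)

end Pool.Agent.H5.PD
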