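import Mathlib

/-!
Module FI (row PDFI, pure group theory).  `G` torsion-free, `v^m` central, `m ≥ 1`, the centraliser of `v` of finite index: then `v` is central.
Let `V` be the normal closure of `v` and `N` the normal core of the centraliser of `v`, of finite index.  `V` centralises `N`, so the centre of `V` has finite index `n` in `V`, and
the transfer `x ↦ x^n` into the centre is a homomorphism: the `n`-th power of every commutator is trivial, and `V` is commutative because it is torsion-free.
For `g ∈ G`: `u = g v g⁻¹`, `u^m = g v^m g⁻¹ = v^m`, `u` and `v` commute, `(u v⁻¹)^m = 1`, so `u = v`.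
-/

open scoped commutatorElement

namespace Pool.Agent.H5.PD

/-- A torsion-free group with centre of finite index is commutative. -/
lemma FI_comm {V : Type} [Group V] (htf : ∀ x : V, IsOfFinOrder x → x = 1)
    [(Subgroup.center V).FiniteIndex] (x y : V) : x * y = y * x := by
  have h1 : (⁅x, y⁆ : V) ^ (Subgroup.center V).index = 1 := by
    rw [← MonoidHom.transferCenterPow_apply, map_commutatorElement,
      commutatorElement_eq_one_iff_mul_comm.2]
    · rfl
    · apply Subtype.ext
      exact Subgroup.mem_center_iff.1 (MonoidHom.transferCenterPow V y).2 _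
  have h2 : IsOfFinOrder (⁅x, y⁆ : V) :=
    isOfFinOrder_iff_pow_eq_one.2 ⟨_, Nat.pos_of_ne_zero Subgroup.FiniteIndex.index_ne_zero, h1⟩
  exact commutatorElement_eq_one_iff_mul_comm.1 (htf _ h2)

theorem FI_main {G : Type} [Group G] (htf : ∀ x : G, IsOfFinOrder x → x = 1) (v : G) (m : ℕ)
    (hm : 0 < m) (hv : v ^ m ∈ Subgroup.center G)
    (hfi : (Subgroup.centralizer {v} : Subgroup G).FiniteIndex) : v ∈ Subgroup.center G := by
  set N : Subgroup G := (Subgroup.centralizer {v} : Subgroup G).normalCore with hN
  set V : Subgroup G := Subgroup.normalClosure {v} with hV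
  have hNle : N ≤ Subgroup.centralizer {v} := Subgroup.normalCore_le _
  have hVN : V ≤ Subgroup.centralizer (N : Set G) := by
    apply Subgroup.normalClosure_le_normal
    rw [Set.singleton_subset_iff, SetLike.mem_coe, Subgroup.mem_centralizer_iff]
    intro n hn
    have h := Subgroup.mem_centralizer_iff.1 (hNle hn) v rfl
    exact h.symm
  have hc : N.subgroupOf V ≤ Subgroup.center V := by
    intro n hn
    rw [Subgroup.mem_subgroupOf] at hn
    rw [Subgroup.mem_center_iff]
    intro w
    apply Subtype.ext
    exact (Subgroup.mem_centralizer_iff.1 (hVN w.2) n hn).symm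
  have : (Subgroup.center V).FiniteIndex := Subgroup.finiteIndex_of_le hc
  have htV : ∀ x : V, IsOfFinOrder x → x = 1 := by
    intro x hx
    apply Subtype.ext
    exact htf x (Submonoid.isOfFinOrder_coe.2 hx)
  have hvV : v ∈ V := Subgroup.subset_normalClosure rfl
  rw [Subgroup.mem_center_iff]
  intro g
  have huV : g * v * g⁻¹ ∈ V := Subgroup.normalClosure_normal.conj_mem v hvV g
  have hcomm : Commute (g * v * g⁻¹) v :=
    congrArg Subtype.val (FI_comm htV ⟨g * v * g⁻¹, huV⟩ ⟨v, hvV⟩)
  have hpow : (g * v * g⁻¹) ^ m = v ^ m := by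
    rw [conj_pow, ← Subgroup.mem_center_iff.1 hv g |>.symm, mul_assoc, mul_inv_cancel, mul_one]
  have h1 : (g * v * g⁻¹ * v⁻¹) ^ m = 1 := by
    rw [(hcomm.inv_right).mul_pow, hpow, inv_pow, mul_inv_cancel]
  have h2 := htf _ (isOfFinOrder_iff_pow_eq_one.2 ⟨m, hm, h1⟩)
  have h3 : g * v * g⁻¹ = v := mul_inv_eq_one.1 h2
  exact mul_inv_eq_iff_eq_mul.1 h3

end Pool.Agent.H5.PD
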