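import Mathlib

/-!
Module W1 (row PDW1, pure combinatorics).  `G` finitely generated, `X` an infinite transitive `G`-set.  There are a finite `S ⊆ G` and `a : X → S` such that for `next x = a(x) x` every `y` has only finitely many pairs `(x,k)` with `next^k x = y` (every point escapes to infinity, locally finitely).
`S`: finite, symmetric, generates `G`.  Fix `x₀`; `d(x)` = least length of a word in `S` taking `x₀` to `x` (`Nat.find`; exists since `S` is symmetric and generates and `X` is transitive: `Subgroup.closure_induction`).  Balls are finite (`S` finite).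
For `x ≠ x₀` choose `par(x) = s x`, `s ∈ S`, with `d(par x) + 1 = d(x)`; put `par x₀ = x₀`.  `desc(x) = {y | ∃ k, par^k y = x ∧ d y = d x + k}`.  `desc(x₀) = X`.  `x` is BIG if `desc(x)` is infinite.  `desc(x) = {x} ∪ ⋃_{y child of x} desc(y)`, finitely many children (they are `s⁻¹ x`-like, `s ∈ S`), so a big `x` has a big child.
`next x` = a big child of `x` if `x` is big, `par x` otherwise (`x₀` is big, so `par` is only used for `x ≠ x₀`).  Both are `s x` with `s ∈ S` (`S` symmetric).
Let `next^k x = y`.  If `x` is big all iterates are big, `d y = d x + k`, `par^k y = x`: so `k ≤ d y`, finitely many pairs.  If `x` is not big and `y` is not big: all intermediate points are not big (big points stay big), `y = par^k x`, `x ∈ desc(y)` finite, `k = d x - d y`.  If `x` is not big and `y` is big: let `i ≥ 1` be the least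
 with `z = next^i x` big; `z = par^i x`, `w = par^(i-1) x` is a non-big child of `z`, `x ∈ desc(w)`; `(z, k - i)` is one of the finitely many pairs of the first case, `z` has finitely many children `w`, `desc(w)` is finite, `i = d x - d z`.
(Any other proof is fine.)
-/

namespace Pool.Agent.H5.PD

/-- the descendants of `x` in the tree given by `par` -/
def W1_desc {X : Type} (par : X → X) (d : X → ℕ) (x : X) : Set X :=
  {y | ∃ k, par^[k] y = x ∧ d y = d x + k}

lemma W1_le {X : Type} {x₀ : X} {par : X → X} {d : X → ℕ} (h0 : ∀ x, d x = 0 ↔ x = x₀)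
    (hp : ∀ x, x ≠ x₀ → d (par x) + 1 = d x) (y : X) (j : ℕ) : d y ≤ d (par^[j] y) + j := by
  induction j generalizing y with
  | zero => simp
  | succ j ih =>
    rw [Function.iterate_succ_apply]
    have h1 := ih (par y)
    by_cases hy : y = x₀
    · have := (h0 y).2 hy
      omega
    · have := hp y hy
      omega

lemma W1_desc_sub {X : Type} {x₀ : X} {par : X → X} {d : X → ℕ} (h0 : ∀ x, d x = 0 ↔ x = x₀)
    (hp : ∀ x, x ≠ x₀ → d (par x) + 1 = d x) (x : X) :
    W1_desc par d x ⊆ {x} ∪ ⋃ z ∈ {z | z ≠ x₀ ∧ par z = x}, W1_desc par d z := by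
  rintro y ⟨k, hk, hd⟩
  cases k with
  | zero =>
    left
    simpa using hk
  | succ j =>
    right
    rw [Function.iterate_succ_apply'] at hk
    have h1 := W1_le h0 hp y j
    have hz : par^[j] y ≠ x₀ := by
      intro h
      have := (h0 _).2 h
      omega
    have h2 := hp _ hz
    rw [hk] at h2
    refine Set.mem_biUnion (x := par^[j] y) ⟨hz, hk⟩ ⟨j, rfl, ?_⟩
    omega

lemma W1_desc_root {X : Type} {x₀ : X} {par : X → X} {d : X → ℕ} (h0 : ∀ x, d x = 0 ↔ x = x₀)
    (hp : ∀ x, x ≠ x₀ → d (par x) + 1 = d x) : W1_desc par d x₀ = Set.univ := by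
  have key : ∀ n : ℕ, ∀ y : X, d y = n → par^[n] y = x₀ := by
    intro n
    induction n with
    | zero =>
      intro y hy
      exact (h0 y).1 hy
    | succ n ih =>
      intro y hy
      rw [Function.iterate_succ_apply]
      apply ih
      have hy0 : y ≠ x₀ := by
        intro h
        have := (h0 y).2 h
        omega
      have := hp y hy0
      omega
  apply Set.eq_univ_of_forall
  intro y
  refine ⟨d y, key _ y rfl, ?_⟩
  have := (h0 x₀).2 rfl
  omega

/-- the abstract statement about rooted locally finite trees -/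
theorem W1_abs {X : Type} [Infinite X] {x₀ : X} {par : X → X} {d : X → ℕ}
    (h0 : ∀ x, d x = 0 ↔ x = x₀) (hp : ∀ x, x ≠ x₀ → d (par x) + 1 = d x)
    (hfin : ∀ x, {y | y ≠ x₀ ∧ par y = x}.Finite) :
    ∃ next : X → X, (∀ x, (x ≠ x₀ ∧ next x = par x) ∨ (next x ≠ x₀ ∧ par (next x) = x)) ∧
      ∀ y : X, {q : X × ℕ | next^[q.2] q.1 = y}.Finite := by
  classical
  set Big : X → Prop := fun x => (W1_desc par d x).Infinite with hBig
  have hroot : Big x₀ := by
    rw [hBig]
    simp only
    rw [W1_desc_root h0 hp]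
    exact Set.infinite_univ
  have hch : ∀ x, Big x → ∃ z, (z ≠ x₀ ∧ par z = x) ∧ Big z := by
    intro x hx
    by_contra hcon
    push Not at hcon
    apply hx
    apply Set.Finite.subset _ (W1_desc_sub h0 hp x)
    apply Set.Finite.union (Set.finite_singleton x)
    apply Set.Finite.biUnion (hfin x)
    intro z hz
    by_contra hz2
    exact hcon z hz hz2
  have hex : ∀ x, ∃ z, (Big x → (z ≠ x₀ ∧ par z = x) ∧ Big z) ∧ (¬ Big x → z = par x) := by
    intro x
    by_cases hx : Big x
    · obtain ⟨z, hz⟩ := hch x hx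
      exact ⟨z, fun _ => hz, fun h => absurd hx h⟩
    · exact ⟨par x, fun h => absurd h hx, fun _ => rfl⟩
  choose next hn1 hn2 using hex
  have hnr : ∀ x, ¬ Big x → x ≠ x₀ := by
    intro x hx h
    rw [h] at hx
    exact hx hroot
  refine ⟨next, ?_, ?_⟩
  · intro x
    by_cases hx : Big x
    · right
      exact (hn1 x hx).1
    · left
      exact ⟨hnr x hx, hn2 x hx⟩
  -- big points
  have hb : ∀ k : ℕ, ∀ x, Big x → Big (next^[k] x) ∧ d (next^[k] x) = d x + k ∧
      par^[k] (next^[k] x) = x := by
    intro k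
    induction k with
    | zero =>
      intro x hx
      exact ⟨hx, rfl, rfl⟩
    | succ k ih =>
      intro x hx
      obtain ⟨i1, i2, i3⟩ := ih x hx
      obtain ⟨⟨j1, j2⟩, j3⟩ := hn1 _ i1
      rw [Function.iterate_succ_apply']
      refine ⟨j3, ?_, ?_⟩
      · have := hp _ j1
        rw [j2] at this
        omega
      · rw [Function.iterate_succ_apply, j2, i3]
  -- small points
  have hs : ∀ k : ℕ, ∀ x, ¬ Big (next^[k] x) → par^[k] x = next^[k] x ∧
      d x = d (next^[k] x) + k ∧ ¬ Big x := by
    intro k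
    induction k with
    | zero =>
      intro x hx
      exact ⟨rfl, rfl, hx⟩
    | succ k ih =>
      intro x hx
      rw [Function.iterate_succ_apply'] at hx
      have hx2 : ¬ Big (next^[k] x) := by
        intro h
        exact hx (hn1 _ h).2
      obtain ⟨i1, i2, i3⟩ := ih x hx2
      rw [Function.iterate_succ_apply', Function.iterate_succ_apply', i1]
      have e := hn2 _ hx2
      have e2 := hp _ (hnr _ hx2)
      refine ⟨e.symm, ?_, i3⟩
      rw [e]
      omega
  have hPB : ∀ y, {q : X × ℕ | next^[q.2] q.1 = y ∧ Big q.1}.Finite := by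
    intro y
    apply Set.Finite.subset ((Set.finite_Iic (d y)).image fun k : ℕ => (par^[k] y, k))
    rintro ⟨x, k⟩ ⟨hq, hB⟩
    simp only at hq hB
    obtain ⟨i1, i2, i3⟩ := hb k x hB
    rw [hq] at i1 i2 i3
    refine ⟨k, ?_, ?_⟩
    · simp only [Set.mem_Iic]
      omega
    · simp only [i3]
  have hPN : ∀ y, ¬ Big y → {q : X × ℕ | next^[q.2] q.1 = y}.Finite := by
    intro y hy
    have hy2 : (W1_desc par d y).Finite := by
      by_contra h
      exact hy h
    apply Set.Finite.subset (hy2.image fun x : X => (x, d x - d y))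
    rintro ⟨x, k⟩ hq
    simp only [Set.mem_ofPred_eq] at hq
    have hxk : ¬ Big (next^[k] x) := by
      rw [hq]
      exact hy
    obtain ⟨i1, i2, i3⟩ := hs k x hxk
    rw [hq] at i1 i2
    refine ⟨x, ⟨k, i1, i2⟩, ?_⟩
    simp only [Prod.mk.injEq, true_and]
    omega
  intro y
  by_cases hy : Big y
  · have hU : (⋃ q ∈ {q : X × ℕ | next^[q.2] q.1 = y ∧ Big q.1},
        ⋃ w ∈ {w | w ≠ x₀ ∧ par w = q.1} ∩ {w | ¬ Big w},
          (fun p : X × ℕ => (p.1, p.2 + 1 + q.2)) ''
            {p : X × ℕ | next^[p.2] p.1 = w}).Finite := by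
      apply Set.Finite.biUnion (hPB y)
      intro q hq
      apply Set.Finite.biUnion ((hfin q.1).inter_of_left _)
      intro w hw
      exact (hPN w hw.2).image _
    apply Set.Finite.subset ((hPB y).union hU)
    rintro ⟨x, k⟩ hq
    simp only [Set.mem_ofPred_eq] at hq
    by_cases hx : Big x
    · left
      exact ⟨hq, hx⟩
    · right
      have hexi : ∃ i, Big (next^[i] x) := ⟨k, by rw [hq]; exact hy⟩
      have hi := Nat.find_spec hexi
      have hle : Nat.find hexi ≤ k := Nat.find_min' hexi (by rw [hq]; exact hy)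
      obtain ⟨j, hj⟩ : ∃ j, Nat.find hexi = j + 1 := by
        cases hc : Nat.find hexi with
        | zero =>
          rw [hc] at hi
          exact absurd hi hx
        | succ j => exact ⟨j, rfl⟩
      have hmin : ¬ Big (next^[j] x) := Nat.find_min hexi (by omega)
      rw [hj] at hi hle
      have e1 : next^[j + 1] x = par (next^[j] x) := by
        rw [Function.iterate_succ_apply']
        exact hn2 _ hmin
      refine Set.mem_biUnion (x := ((next^[j + 1] x, k - (j + 1)) : X × ℕ)) ⟨?_, hi⟩ ?_
      · change next^[k - (j + 1)] (next^[j + 1] x) = y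
        rw [← Function.iterate_add_apply, Nat.sub_add_cancel hle]
        exact hq
      · refine Set.mem_biUnion (x := next^[j] x) ⟨⟨hnr _ hmin, e1.symm⟩, hmin⟩ ?_
        refine ⟨(x, j), rfl, ?_⟩
        simp only [Prod.mk.injEq, true_and]
        omega
  · exact hPN y hy

theorem W1_main {G X : Type} [Group G] [MulAction G X] (hG : Group.FG G)
    (htr : ∀ x y : X, ∃ g : G, g • x = y) [Infinite X] :
    ∃ (S : Finset G) (a : X → G), (∀ x, a x ∈ S) ∧
      ∀ y : X, {q : X × ℕ | (fun x => a x • x)^[q.2] q.1 = y}.Finite := by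
  classical
  obtain ⟨T, hT⟩ := hG.out
  set S : Finset G := T ∪ T.image (fun g => g⁻¹) with hS
  have hsym : ∀ s ∈ S, s⁻¹ ∈ S := by
    intro s hs
    rw [hS, Finset.mem_union, Finset.mem_image] at hs ⊢
    rcases hs with hs | ⟨t, ht, rfl⟩
    · exact Or.inr ⟨s, hs, rfl⟩
    · left
      simpa using ht
  obtain ⟨x₀⟩ : Nonempty X := inferInstance
  have hw : ∀ x : X, ∃ n : ℕ, ∃ l : List G, l.length = n ∧ (∀ s ∈ l, s ∈ S) ∧ l.prod • x₀ = x := by
    intro x
    obtain ⟨g, hg⟩ := htr x₀ x
    have hgm : g ∈ Subgroup.closure (T : Set G) := by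
      rw [hT]
      trivial
    rw [← Subgroup.mem_toSubmonoid, Subgroup.closure_toSubmonoid] at hgm
    obtain ⟨l, hl1, hl2⟩ := Submonoid.exists_list_of_mem_closure hgm
    refine ⟨l.length, l, rfl, ?_, by rw [hl2, hg]⟩
    intro s hs
    rw [hS, Finset.mem_union, Finset.mem_image]
    rcases hl1 s hs with h | h
    · exact Or.inl (by simpa using h)
    · exact Or.inr ⟨s⁻¹, by simpa using h, inv_inv s⟩
  set d : X → ℕ := fun x => Nat.find (hw x) with hd
  have hle : ∀ (x : X) (l : List G), (∀ s ∈ l, s ∈ S) → l.prod • x₀ = x → d x ≤ l.length := by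
    intro x l h1 h2
    exact Nat.find_min' (hw x) ⟨l, rfl, h1, h2⟩
  have h0 : ∀ x, d x = 0 ↔ x = x₀ := by
    intro x
    constructor
    · intro h
      obtain ⟨l, h1, h2, h3⟩ := Nat.find_spec (hw x)
      have h4 : l.length = 0 := by
        rw [h1]
        exact h
      rw [List.length_eq_zero_iff] at h4
      rw [h4] at h3
      simpa using h3.symm
    · intro h
      have := hle x [] (by simp) (by simp [h])
      simpa using this
  have hstep : ∀ x : X, ∃ s : G, x ≠ x₀ → s ∈ S ∧ d (s • x) + 1 = d x := by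
    intro x
    by_cases hx : x = x₀
    · exact ⟨1, fun h => absurd hx h⟩
    · obtain ⟨l, h1, h2, h3⟩ := Nat.find_spec (hw x)
      have h1' : l.length = d x := h1
      cases l with
      | nil =>
        exact absurd (by simpa using h3.symm) hx
      | cons s l' =>
        refine ⟨s⁻¹, fun _ => ⟨hsym s (h2 s (by simp)), ?_⟩⟩
        have e : s⁻¹ • x = l'.prod • x₀ := by
          rw [← h3, List.prod_cons, mul_smul, inv_smul_smul]
        have u1 := hle (s⁻¹ • x) l' (fun t ht => h2 t (by simp [ht])) e.symm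
        obtain ⟨l2, g1, g2, g3⟩ := Nat.find_spec (hw (s⁻¹ • x))
        have g1' : l2.length = d (s⁻¹ • x) := g1
        have u2 := hle x (s :: l2) (by
          intro t ht
          rw [List.mem_cons] at ht
          rcases ht with rfl | ht
          · exact h2 t (by simp)
          · exact g2 t ht) (by rw [List.prod_cons, mul_smul, g3, smul_inv_smul])
        simp only [List.length_cons] at h1' u2
        omega
  choose b hb using hstep
  obtain ⟨next, hn, hf⟩ := W1_abs (par := fun x => b x • x) h0 (fun x hx => (hb x hx).2) (by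
    intro x
    apply Set.Finite.subset ((S.finite_toSet).image fun s : G => s⁻¹ • x)
    rintro y ⟨hy, hy2⟩
    refine ⟨b y, by simpa using (hb y hy).1, ?_⟩
    simp only at hy2 ⊢
    rw [← hy2, inv_smul_smul])
  have ha : ∀ x, ∃ a : G, a ∈ S ∧ a • x = next x := by
    intro x
    rcases hn x with ⟨h1, h2⟩ | ⟨h1, h2⟩
    · exact ⟨b x, (hb x h1).1, h2.symm⟩
    · refine ⟨(b (next x))⁻¹, hsym _ (hb _ h1).1, ?_⟩
      rw [inv_smul_eq_iff]
      exact h2.symm
  choose a ha1 ha2 using ha
  refine ⟨S, a, ha1, ?_⟩
  have : (fun x => a x • x) = next := funext ha2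
  rw [this]
  exact hf

end Pool.Agent.H5.PD
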