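import Pool.Agent.H5.PD.Df

/-!
Module W2 (row PDW2).  The swindle.  `next x = a(x) x`, every `y` has finitely many pairs `(x,k)` with `next^k x = y`.  `f : X → N`, `N` killed by `p`, `χ(g)` prime to `p`; let `χ'(g) : ℕ` with `χ(g) χ'(g) ≡ 1 mod p`, so `χ'(g) • χ(g) • x = x` in `N`.
`T_x : N → N`, `T_x(n) = χ'(a x) • ρ(a x) n` (additive), `T_x^(k) = T_(next^(k-1) x) ∘ … ∘ T_x`.  `m(y) = Σ_{(x,k), next^k x = y} T_x^(k) f(x)` (finite sum: `Set.Finite.toFinset` or `finsum`).  Then `m(y) = f(y) + Σ_{x, next x = y} T_x m(x)` (finite sum: the pairs `(x,k+1)` for `y` are the pairs `((x), k)` for the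
 preimages `next^k x` of `y`; `T_x^(k+1) = T_(next^k x) ∘ T_x^(k)`).
Let `F_s(x) = - χ'(s) • m(x)` if `a x = s`, and `0` otherwise.  `((ρ s F_s) - χ(s) • F_s)(y) = ρ(s) F_s(s⁻¹ y) - χ(s) F_s(y)`.  Sum over `s ∈ S`: the second part gives `Σ_s χ(s) χ'(s) m(y) [a y = s] = m(y)`, the first `- Σ_s Σ_(x = s⁻¹ y, a x = s) χ'(s) ρ(s) m(x) = - Σ_{x : next x = y} T_x m(x)`
 (`x ↦ a x` is injective on the preimages of `y`: `x = (a x)⁻¹ y`).  Total: `f(y)`.
(An alternative to the explicit `m`: well-founded recursion.)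
-/

namespace Pool.Agent.H5.PD

open CategoryTheory CategoryTheory.Abelian CategoryTheory.Limits Pool.Agent.H5.CP
  Pool.Agent.H75.CP Pool.Agent.H5.ZP

theorem W2_rank {X : Type} (nx : X → X) (hfin : ∀ y : X, {q : X × ℕ | nx^[q.2] q.1 = y}.Finite)
    {x y : X} (h : nx x = y) :
    {q : X × ℕ | nx^[q.2] q.1 = x}.ncard < {q : X × ℕ | nx^[q.2] q.1 = y}.ncard := by
  have hinj : Function.Injective (fun q : X × ℕ => (q.1, q.2 + 1)) := by
    rintro ⟨u, k⟩ ⟨v, l⟩ huv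
    simp only [Prod.mk.injEq, add_left_inj] at huv
    rw [huv.1, huv.2]
  rw [← Set.ncard_image_of_injective {q : X × ℕ | nx^[q.2] q.1 = x} hinj]
  apply Set.ncard_lt_ncard _ (hfin y)
  constructor
  · rintro _ ⟨q, hq, rfl⟩
    show nx^[q.2 + 1] q.1 = y
    rw [Function.iterate_succ_apply']
    rw [show nx^[q.2] q.1 = x from hq, h]
  · intro hsub
    have h1 : ((y, 0) : X × ℕ) ∈ {q : X × ℕ | nx^[q.2] q.1 = y} := rfl
    obtain ⟨q, -, hq⟩ := hsub h1
    have h2 : q.2 + 1 = 0 := congrArg Prod.snd hq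
    omega

open scoped Classical in
theorem W2_rec {G X V : Type} [Group G] [MulAction G X] [AddCommGroup V] (S : Finset G)
    (a : X → G) (hfin : ∀ y : X, {q : X × ℕ | (fun x => a x • x)^[q.2] q.1 = y}.Finite)
    (T : G → V → V) (f : X → V) :
    ∃ m : X → V, ∀ y, m y = f y + ∑ s ∈ S, if a (s⁻¹ • y) = s then T s (m (s⁻¹ • y)) else 0 := by
  classical
  have hwf : WellFounded (fun x y : X => (fun x => a x • x) x = y) := by
    apply WellFounded.mono (r := InvImage (· < ·)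
      (fun x => {q : X × ℕ | (fun x => a x • x)^[q.2] q.1 = x}.ncard))
      (InvImage.wf _ (Nat.lt_wfRel.wf))
    intro x y hxy
    exact W2_rank _ hfin hxy
  have hs : ∀ (y : X) (s : G), a (s⁻¹ • y) = s → (fun x => a x • x) (s⁻¹ • y) = y := by
    intro y s h
    show a (s⁻¹ • y) • s⁻¹ • y = y
    rw [h, smul_inv_smul]
  let F : (y : X) → ((x : X) → (fun x => a x • x) x = y → V) → V := fun y ih =>
    f y + ∑ s ∈ S, if h : a (s⁻¹ • y) = s then T s (ih (s⁻¹ • y) (hs y s h)) else 0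
  refine ⟨hwf.fix F, fun y => ?_⟩
  rw [hwf.fix_eq]
  show f y + ∑ s ∈ S, (if h : a (s⁻¹ • y) = s then T s (hwf.fix F (s⁻¹ • y)) else 0) = _
  congr 1

theorem W2_inv (p : ℕ) [hp : Fact p.Prime] {c : ℕ} (hc : ¬ p ∣ c) : ∃ d t : ℕ, d * c = p * t + 1 := by
  have h1 : (c : ZMod p) ≠ 0 := by
    rw [Ne, ZMod.natCast_eq_zero_iff]
    exact hc
  obtain ⟨d, hd⟩ : ∃ d : ℕ, (d : ZMod p) = (c : ZMod p)⁻¹ := ⟨_, ZMod.natCast_zmod_val _⟩
  have h2 : ((d * c : ℕ) : ZMod p) = ((1 : ℕ) : ZMod p) := by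
    rw [Nat.cast_mul, hd, inv_mul_cancel₀ h1, Nat.cast_one]
  have h3 : d * c % p = 1 := by
    have h4 := (ZMod.natCast_eq_natCast_iff' _ _ _).1 h2
    rw [h4]
    exact Nat.mod_eq_of_lt hp.out.one_lt
  refine ⟨d, d * c / p, ?_⟩
  have h5 := Nat.div_add_mod (d * c) p
  rw [h3] at h5
  exact h5.symm

theorem W2_key {G X V : Type} [Group G] [MulAction G X] [AddCommGroup V] (S : Finset G)
    (a : X → G) (ha : ∀ x, a x ∈ S)
    (hfin : ∀ y : X, {q : X × ℕ | (fun x => a x • x)^[q.2] q.1 = y}.Finite)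
    (R : G → V →+ V) (χ d : G → ℕ) (hd : ∀ g (v : V), χ g • d g • v = v) (f : X → V) :
    ∃ F : G → X → V, ∀ y, f y = ∑ s ∈ S, (R s (F s (s⁻¹ • y)) - χ s • F s y) := by
  classical
  obtain ⟨m, hm⟩ := W2_rec S a hfin (fun s v => d s • R s v) f
  refine ⟨fun s x => if a x = s then -(d s • m x) else 0, fun y => ?_⟩
  have h1 : ∀ s ∈ S, (R s (if a (s⁻¹ • y) = s then -(d s • m (s⁻¹ • y)) else 0) -
      χ s • (if a y = s then -(d s • m y) else 0)) =
      -(if a (s⁻¹ • y) = s then d s • R s (m (s⁻¹ • y)) else 0) + (if a y = s then m y else 0) := by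
    intro s _
    have e1 : R s (if a (s⁻¹ • y) = s then -(d s • m (s⁻¹ • y)) else 0) =
        -(if a (s⁻¹ • y) = s then d s • R s (m (s⁻¹ • y)) else 0) := by
      split_ifs
      · rw [map_neg, map_nsmul]
      · rw [map_zero, neg_zero]
    have e2 : χ s • (if a y = s then -(d s • m y) else 0) = -(if a y = s then m y else 0) := by
      split_ifs
      · rw [smul_neg, hd]
      · rw [smul_zero, neg_zero]
    rw [e1, e2, sub_neg_eq_add]
  rw [Finset.sum_congr rfl h1, Finset.sum_add_distrib, Finset.sum_neg_distrib, Finset.sum_ite_eq,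
    if_pos (ha y)]
  have h2 := hm y
  rw [h2]
  abel

theorem W2_main (p : ℕ) [Fact p.Prime] {G X : Type} [Group G] [MulAction G X] (S : Finset G)
    (a : X → G) (ha : ∀ x, a x ∈ S)
    (hfin : ∀ y : X, {q : X × ℕ | (fun x => a x • x)^[q.2] q.1 = y}.Finite) (N : Rep.{0} ℤ G)
    (hN : Kp p N) (χ : G → ℕ) (hχ : ∀ g, ¬ p ∣ χ g) (f : (FunR X N).V) :
    ∃ F : G → (FunR X N).V, f = ∑ s ∈ S, ((FunR X N).ρ s (F s) - χ s • F s) := by
  choose d t hdt using fun g => W2_inv p (hχ g)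
  obtain ⟨F, hF⟩ := W2_key (V := N.V) S a ha hfin (fun s => (N.ρ s).toAddMonoidHom) χ d
    (fun g v => by
      rw [smul_smul, mul_comm, hdt, add_smul, one_smul, mul_smul, hN, zero_add]) f
  let F' : G → (FunR X N).V := F
  refine ⟨F', ?_⟩
  show (f : X → N.V) = _
  funext y
  rw [hF y]
  let ev : (FunR X N).V →+ N.V := (Pi.evalAddMonoidHom (fun _ : X => N.V) y)
  show _ = ev (∑ s ∈ S, ((FunR X N).ρ s (F' s) - χ s • F' s))
  rw [map_sum]
  apply Finset.sum_congr rfl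
  intro s _
  rw [map_sub, map_nsmul]
  rfl

end Pool.Agent.H5.PD
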