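import Pool.Agent.H5.PD.TP
import Pool.Agent.H5.PD.W1
import Pool.Agent.H5.PD.W2
import Pool.Agent.H5.PD.DE

/-!
Module SB (row PDSB).  Strebel's theorem: subgroups of infinite index have smaller dimension.  Use only the STATEMENTS of TP, W1, W2, CZ, DE.
`SB_van`: `X = H ⧸ K` infinite, transitive, `N` killed by `p`: `Ext (tz H) (FunR X N) c = 0`: `W1_main` gives `S, a`; `TP_main` for the module `FunR X N` (killed by `p`) gives `Φ, χ`; `W2_main`: `f = Σ_s (s F_s - χ(s) F_s)`, so `Φ(f) = Σ_s (χ(s) • Φ(F_s) - χ(s) • Φ(F_s)) = 0` (`Φ` is additive, so it commutes with sums,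
 differences and `•`); `Φ` is onto.
`SB_main`: by `CZ_CD` let `M : Rep ℤ K` be killed by `p`, `j ≥ c + 1`.  `j ≥ c + 2`: `SubC_main` (`CD (ZMod p) K (c+2)`) and `CZ_zero`.   `j = c + 1`: let `N = Rep.coind K.subtype M` (or `C0 K M`), killed by `p`; `M` is a retract of `Rep.res K.subtype N` (evaluation at `1`, `cev K M`; section `m ↦` the function with support `K`,
 `k ↦ k m`; `mkZ`).  So it is enough that `H^(c+1)(K; res N) = 0`.  `Fun(H/K, N) = FunR (H ⧸ K) N` is isomorphic to the module coinduced from `res N`: `FunA_m` is an isomorphism onto the product over the single orbit, whose stabiliser is a conjugate of `K`; or directly: `Rep.coind K.subtype (Rep.res K.subtype N) ≅ FunR (H ⧸ K) N`,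
 `φ ↦ (gK ↦ g φ(g⁻¹))` (well defined: `(gk) φ(k⁻¹g⁻¹) = g k k⁻¹ φ(g⁻¹)`; equivariant: `(h·φ)(x) = φ(x h)`, `gK ↦ g φ(g⁻¹h) = h (h⁻¹g) φ((h⁻¹g)⁻¹)`); then `AA_shp`-like Shapiro: `Ext (tz H) (coind) ≅ Ext (tz K) (res N)`: Mathlib `groupCohomology.coindIso` and `ExB_zero`, `LesA_coind`.  `SB_van` with `c + 1` for `c`.
`SB_one`: `CD (ZMod p) H 1` is false: `CD (ZMod p) ⟨t⟩ 1` (`SubC_main`), but on the trivial module `ZMod p` of `⟨t⟩` the derivation `t^n ↦ n` is not inner (`DE_zero`: inner derivations of trivial modules vanish), `CZ_zero`.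
-/

namespace Pool.Agent.H5.PD

open CategoryTheory CategoryTheory.Abelian CategoryTheory.Limits Pool.Agent.H5.CP
  Pool.Agent.H75.CP Pool.Agent.H5.ZP

theorem SB_van {H L : Type} [Group H] [Group L] (E : CX H L) (p : ℕ) [Fact p.Prime] (n : ℕ)
    (hE : Lv p n E) (hfg : Group.FG H) (c : ℕ) (hc : CD (ZMod p) H (c + 1)) (K : Subgroup H)
    (hK : Infinite (H ⧸ K)) (N : Rep.{0} ℤ H) (hN : Kp p N)
    (x : Ext (tz H) (FunR (H ⧸ K) N) c) : x = 0 := by
  obtain ⟨S, a, ha, hfin⟩ := W1_main (G := H) (X := H ⧸ K) hfg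
    (fun x y => MulAction.exists_smul_eq H x y)
  have hN' : Kp p (FunR (H ⧸ K) N) := by
    intro F
    funext y
    exact hN ((F : H ⧸ K → N.V) y)
  obtain ⟨Φ, χ, hadd, hsur, hχ, hρ⟩ := TP_main E p n hE c hc (FunR (H ⧸ K) N) hN'
  obtain ⟨f, rfl⟩ := hsur x
  obtain ⟨F, hF⟩ := W2_main p S a ha hfin N hN χ hχ f
  let Ψ : (FunR (H ⧸ K) N).V →+ Ext (tz H) (FunR (H ⧸ K) N) c := AddMonoidHom.mk' Φ hadd
  have h1 : Φ f = Ψ f := rfl
  rw [h1, hF, map_sum]
  apply Finset.sum_eq_zero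
  intro s _
  rw [map_sub, map_nsmul]
  show Φ ((FunR (H ⧸ K) N).ρ s (F s)) - χ s • Φ (F s) = 0
  rw [hρ, sub_self]

/-- the section `M → res (coind M)` -/
noncomputable def SB_sec {H : Type} [Group H] (K : Subgroup H) (M : Rep.{0} ℤ K) :
    M ⟶ Rep.res K.subtype (Rep.coind K.subtype M) := by
  classical
  exact mkZ (M := M) (N := Rep.res K.subtype (Rep.coind K.subtype M))
    { toFun := fun m => ⟨fun x => if hx : x ∈ K then M.ρ ⟨x, hx⟩ m else 0, by
        intro s x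
        show (if hx : s.1 * x ∈ K then M.ρ ⟨s.1 * x, hx⟩ m else 0) =
          M.ρ s (if hx : x ∈ K then M.ρ ⟨x, hx⟩ m else 0)
        by_cases hx : x ∈ K
        · rw [dif_pos hx, dif_pos (K.mul_mem s.2 hx)]
          have h1 : (⟨s.1 * x, K.mul_mem s.2 hx⟩ : K) = s * ⟨x, hx⟩ := rfl
          rw [h1, map_mul]
          rfl
        · rw [dif_neg hx, dif_neg (fun h => hx ((K.mul_mem_cancel_left s.2).1 h)), map_zero]⟩
      map_zero' := by
        apply Subtype.ext
        funext x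
        show (if hx : x ∈ K then M.ρ ⟨x, hx⟩ 0 else 0) = 0
        split_ifs
        · exact map_zero _
        · rfl
      map_add' := by
        intro m m'
        apply Subtype.ext
        funext x
        show (if hx : x ∈ K then M.ρ ⟨x, hx⟩ (m + m') else 0) =
          (if hx : x ∈ K then M.ρ ⟨x, hx⟩ m else 0) + (if hx : x ∈ K then M.ρ ⟨x, hx⟩ m' else 0)
        split_ifs
        · exact map_add _ _ _
        · rw [add_zero] } (by
      intro k m
      apply Subtype.ext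
      funext x
      show (if hx : x ∈ K then M.ρ ⟨x, hx⟩ (M.ρ k m) else 0) =
          (if hx : x * k.1 ∈ K then M.ρ ⟨x * k.1, hx⟩ m else 0)
      by_cases hx : x ∈ K
      · rw [dif_pos hx, dif_pos (K.mul_mem hx k.2)]
        have h1 : (⟨x * k.1, K.mul_mem hx k.2⟩ : K) = ⟨x, hx⟩ * k := rfl
        rw [h1, map_mul]
        rfl
      · rw [dif_neg hx, dif_neg (fun h => hx ((K.mul_mem_cancel_right k.2).1 h))])

theorem SB_sec_cev {H : Type} [Group H] (K : Subgroup H) (M : Rep.{0} ℤ K) :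
    SB_sec K M ≫ cev K M = 𝟙 M := by
  classical
  refine Rep.hom_ext ?_
  refine DFunLike.ext _ _ fun m => ?_
  show (if hx : (1 : H) ∈ K then M.ρ ⟨1, hx⟩ m else 0) = m
  rw [dif_pos K.one_mem]
  have h1 : (⟨1, K.one_mem⟩ : K) = 1 := rfl
  rw [h1, map_one]
  rfl

/-- `coind (res N) → Fun(H/K, N)` -/
noncomputable def SB_i {H : Type} [Group H] (K : Subgroup H) (N : Rep.{0} ℤ H) :
    Rep.coind K.subtype (Rep.res K.subtype N) ⟶ FunR (H ⧸ K) N := by
  have key : ∀ (f : (Rep.coind K.subtype (Rep.res K.subtype N)).V) (g : H),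
      N.ρ (Quotient.out (QuotientGroup.mk g : H ⧸ K)) (f.1 (Quotient.out (QuotientGroup.mk g : H ⧸ K))⁻¹) =
        N.ρ g (f.1 g⁻¹) := by
    intro f g
    obtain ⟨k, hk⟩ := QuotientGroup.mk_out_eq_mul K g
    rw [hk]
    have h1 : f.1 (g * (k : H))⁻¹ = N.ρ (k⁻¹ : K).1 (f.1 g⁻¹) := by
      have h2 := f.2 k⁻¹ g⁻¹
      rw [mul_inv_rev]
      exact h2
    rw [h1, map_mul]
    show N.ρ g (N.ρ k.1 (N.ρ (k⁻¹ : K).1 (f.1 g⁻¹))) = _
    congr 1
    show N.ρ k.1 (N.ρ (k.1)⁻¹ (f.1 g⁻¹)) = f.1 g⁻¹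
    have h3 : (N.ρ k.1 * N.ρ (k.1)⁻¹) (f.1 g⁻¹) = f.1 g⁻¹ := by
      rw [← map_mul, mul_inv_cancel, map_one]
      rfl
    exact h3
  exact mkZ (M := Rep.coind K.subtype (Rep.res K.subtype N)) (N := FunR (H ⧸ K) N)
    { toFun := fun f x => N.ρ (Quotient.out x) (f.1 (Quotient.out x)⁻¹)
      map_zero' := by
        funext x
        exact map_zero _
      map_add' := by
        intro f f'
        funext x
        exact map_add _ _ _ } (by
      intro h f
      funext x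
      induction x using QuotientGroup.induction_on with
      | H g =>
        show N.ρ (Quotient.out (QuotientGroup.mk g : H ⧸ K))
          (((Rep.coind K.subtype (Rep.res K.subtype N)).ρ h f).1
            (Quotient.out (QuotientGroup.mk g : H ⧸ K))⁻¹) =
          N.ρ h (N.ρ (Quotient.out (QuotientGroup.mk (h⁻¹ * g) : H ⧸ K))
            (f.1 (Quotient.out (QuotientGroup.mk (h⁻¹ * g) : H ⧸ K))⁻¹))
        rw [key, key]
        show N.ρ g (f.1 (g⁻¹ * h)) = N.ρ h (N.ρ (h⁻¹ * g) (f.1 (h⁻¹ * g)⁻¹))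
        have h4 : (N.ρ h * N.ρ (h⁻¹ * g)) (f.1 (h⁻¹ * g)⁻¹) = N.ρ g (f.1 (g⁻¹ * h)) := by
          rw [← map_mul, mul_inv_cancel_left, mul_inv_rev, inv_inv]
        exact h4.symm)

theorem SB_i_apply {H : Type} [Group H] (K : Subgroup H) (N : Rep.{0} ℤ H)
    (f : (Rep.coind K.subtype (Rep.res K.subtype N)).V) (x : H ⧸ K) :
    ((SB_i K N).hom f : H ⧸ K → N.V) x = N.ρ (Quotient.out x) (f.1 (Quotient.out x)⁻¹) := rfl

/-- `Fun(H/K, N) → coind (res N)` -/
noncomputable def SB_r {H : Type} [Group H] (K : Subgroup H) (N : Rep.{0} ℤ H) :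
    FunR (H ⧸ K) N ⟶ Rep.coind K.subtype (Rep.res K.subtype N) :=
  mkZ (M := FunR (H ⧸ K) N) (N := Rep.coind K.subtype (Rep.res K.subtype N))
    { toFun := fun F => ⟨fun g => N.ρ g ((F : H ⧸ K → N.V) (QuotientGroup.mk g⁻¹)), by
        intro s g
        show N.ρ (s.1 * g) ((F : H ⧸ K → N.V) (QuotientGroup.mk (s.1 * g)⁻¹)) =
          N.ρ s.1 (N.ρ g ((F : H ⧸ K → N.V) (QuotientGroup.mk g⁻¹)))
        have h1 : (QuotientGroup.mk (s.1 * g)⁻¹ : H ⧸ K) = QuotientGroup.mk g⁻¹ := by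
          rw [mul_inv_rev]
          exact QuotientGroup.mk_mul_of_mem _ (K.inv_mem s.2)
        rw [h1, map_mul]
        rfl⟩
      map_zero' := by
        apply Subtype.ext
        funext x
        exact map_zero _
      map_add' := by
        intro f f'
        apply Subtype.ext
        funext x
        exact map_add _ _ _ } (by
      intro h F
      apply Subtype.ext
      funext g
      show N.ρ g (N.ρ h ((F : H ⧸ K → N.V) (QuotientGroup.mk (h⁻¹ * g⁻¹)))) =
        N.ρ (g * h) ((F : H ⧸ K → N.V) (QuotientGroup.mk (g * h)⁻¹))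
      rw [mul_inv_rev, map_mul]
      rfl)

theorem SB_i_r {H : Type} [Group H] (K : Subgroup H) (N : Rep.{0} ℤ H) :
    SB_i K N ≫ SB_r K N = 𝟙 (Rep.coind K.subtype (Rep.res K.subtype N)) := by
  refine Rep.hom_ext ?_
  refine DFunLike.ext _ _ fun f => ?_
  apply Subtype.ext
  funext g
  show N.ρ g (N.ρ (Quotient.out (QuotientGroup.mk g⁻¹ : H ⧸ K))
    (f.1 (Quotient.out (QuotientGroup.mk g⁻¹ : H ⧸ K))⁻¹)) = f.1 g
  obtain ⟨k, hk⟩ := QuotientGroup.mk_out_eq_mul K g⁻¹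
  rw [hk]
  have h1 : f.1 (g⁻¹ * (k : H))⁻¹ = N.ρ (k⁻¹ : K).1 (f.1 g) := by
    have h2 := f.2 k⁻¹ g
    rw [mul_inv_rev, inv_inv]
    exact h2
  rw [h1]
  have h3 : (N.ρ g * (N.ρ (g⁻¹ * k.1) * N.ρ (k⁻¹ : K).1)) (f.1 g) = f.1 g := by
    rw [← map_mul, ← map_mul]
    have h4 : g * (g⁻¹ * k.1 * (k⁻¹ : K).1) = 1 := by
      show g * (g⁻¹ * k.1 * (k.1)⁻¹) = 1
      group
    rw [h4, map_one]
    rfl
  exact h3

theorem SB_main {H L : Type} [Group H] [Group L] (E : CX H L) (p : ℕ) [Fact p.Prime] (n : ℕ)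
    (hE : Lv p n E) (hfg : Group.FG H) (c : ℕ) (hc : CD (ZMod p) H (c + 2)) (K : Subgroup H)
    (hK : Infinite (H ⧸ K)) : CD (ZMod p) K (c + 1) := by
  apply CZ_CD
  intro M hM j hj x
  rcases Nat.lt_or_ge j (c + 2) with h | h
  · obtain rfl : j = c + 1 := by omega
    have hN : Kp p (Rep.coind K.subtype M) := by
      intro f
      apply Subtype.ext
      funext g
      exact hM (f.1 g)
    have h1 : IsZero (groupCohomology (FunR (H ⧸ K) (Rep.coind K.subtype M)) (c + 1)) := by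
      rw [ExB_zero]
      exact SB_van E p n hE hfg (c + 1) hc K hK _ hN
    have h2 : IsZero (groupCohomology (Rep.coind K.subtype
        (Rep.res K.subtype (Rep.coind K.subtype M))) (c + 1)) :=
      LesA_ret ⟨SB_i K _, SB_r K _, SB_i_r K _⟩ _ h1
    have h3 := (LesA_coind K _ _).1 h2
    have h4 : IsZero (groupCohomology M (c + 1)) :=
      LesA_ret ⟨SB_sec K M, cev K M, SB_sec_cev K M⟩ _ h3
    exact (ExB_zero M (c + 1)).1 h4 x
  · exact CZ_zero p (c + 2) (SubC_main (c + 2) hc K) M hM j h x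

theorem SB_one {H L : Type} [Group H] [Group L] (E : CX H L) (p : ℕ) [Fact p.Prime] :
    ¬ CD (ZMod p) H 1 := by
  intro h
  have hi : Function.Injective (zpowersHom H E.t) := by
    rw [injective_iff_map_eq_one]
    intro a ha
    have h1 := E.inf (Multiplicative.toAdd a) ha
    exact Multiplicative.toAdd.injective h1
  have h1 := CZ_inj p (zpowersHom H E.t) hi 1 h
  let N : Rep.{0} ℤ (Multiplicative ℤ) := Rep.trivial ℤ (Multiplicative ℤ) (ZMod p)
  have hN : Kp p N := by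
    intro x
    show p • (x : ZMod p) = 0
    rw [nsmul_eq_mul, ZMod.natCast_self, zero_mul]
  let f : Multiplicative ℤ → N.V := fun a => ((Multiplicative.toAdd a : ℤ) : ZMod p)
  have hf : IsDer N f := by
    intro a b
    show (((Multiplicative.toAdd (a * b) : ℤ) : ZMod p)) =
      ((Multiplicative.toAdd a : ℤ) : ZMod p) + ((Multiplicative.toAdd b : ℤ) : ZMod p)
    rw [toAdd_mul, Int.cast_add]
  have h2 := CZ_zero p 1 h1 N hN 1 le_rfl (dc N f hf)
  obtain ⟨m, hm⟩ := (DE_zero N f hf).1 h2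
  have h3 := hm (Multiplicative.ofAdd 1)
  have h4 : ((1 : ℤ) : ZMod p) = (m : ZMod p) - (m : ZMod p) := h3
  rw [sub_self, Int.cast_one] at h4
  exact one_ne_zero h4

end Pool.Agent.H5.PD
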