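import Pool.Agent.H5.PD.LS
import Pool.Agent.H5.PD.BA
import Pool.Agent.H5.PD.FG
import Pool.Agent.H5.PD.SB
import Pool.Agent.H5.PD.FI

/-!
Module CH (row PDCH).  The chain of centralisers.  Use only the STATEMENTS of LS, BA, FG, SB, FI, CZ.
`CH_cx`: `v` central of infinite order in `K`: `CX K (K ⧸ zpowers v)` with `t = v`.
`CH_lv`: `C k = centralizer {w (k+1)}`.  `BA_main` gives `n`, `E : CX Γ L`, `E.t = z = w 0`, `Lv p n E`.  `k = 0`: `LS_main` with `u = w 1`, `i = (C 0).subtype`, `E₁` from `CH_cx` for `v = ⟨w 1, _⟩` (infinite order: `w 1 ^ p = z`, `z ≠ 1`, `Γ` torsion-free `FPcd_tf`).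
 `k + 1`: `H = C k`, `C (k+1) ≤ C k` (`w (k+1)` is a power of `w (k+2)`), `i = Subgroup.inclusion`, `u = ⟨w (k+2), _⟩`, `u^p = E.t`.
`CH_main`: let `m k` be the least `m` with `CD (ZMod p) (C k) m` (`Nat.find`, exists by `Lv.cd`); `m (k+1) ≤ m k` (`CZ_inj` for the inclusion).  So there is `K` with `m k = m K` for `k ≥ K`.  `m k ≥ 2` (`CZ_ne`, `SB_one`), `m k = c + 2`.
 `C k` is finitely generated: `Γ` countable (`BA_cnt`, `FPcd_inf`), so `C k` and its quotient `L` are countable; `FG_main` (`Lv.ds`), `FG_ext`.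
 For `k ≥ K`: the subgroup `C (k+1)` of `C k` (`(C (k+1)).subgroupOf (C k)`, isomorphic to `C (k+1)`: `CZ_inj`) has finite index: otherwise `SB_main` gives `CD (ZMod p) (C (k+1)) (c+1)`, `m (k+1) ≤ c + 1`.  It is the centraliser of `w (k+2)` in `C k`, and `w (k+2)^p = w (k+1)` is central in `C k`: `FI_main` (`C k` is torsion-free): `w (k+2)`
 is central in `C k`, so `C (k+1) = C k`.  So `C k = C K` for all `k ≥ K`; `Δ = C K`: for `k ≥ K`, `w (k+1)` is in `C k = Δ` and commutes with it; for smaller indices `w j` is a power of `w (K+1)` (`Zs_pow`).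
-/

namespace Pool.Agent.H5.PD

open CategoryTheory CategoryTheory.Abelian CategoryTheory.Limits Pool.Agent.H5.CP
  Pool.Agent.H75.CP Pool.Agent.H5.ZP

theorem CH_cx {K : Type} [Group K] (v : K) (hv : v ∈ Subgroup.center K)
    (hi : ∀ n : ℤ, v ^ n = 1 → n = 0) : ∃ (L : Type) (_ : Group L) (E : CX K L), E.t = v := by
  have hle : Subgroup.zpowers v ≤ Subgroup.center K := by
    rw [Subgroup.zpowers_le]
    exact hv
  have hN : (Subgroup.zpowers v).Normal := by
    constructor
    intro n hn g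
    rw [Subgroup.mem_center_iff.1 (hle hn) g, mul_inv_cancel_right]
    exact hn
  let E : CX K (K ⧸ Subgroup.zpowers v) :=
    { π := QuotientGroup.mk' _
      t := v
      surj := QuotientGroup.mk'_surjective _
      ker := fun x => by
        rw [QuotientGroup.mk'_apply, QuotientGroup.eq_one_iff, Subgroup.mem_zpowers_iff]
        exact ⟨fun ⟨n, hn⟩ => ⟨n, hn.symm⟩, fun ⟨n, hn⟩ => ⟨n, hn.symm⟩⟩
      cent := hv
      inf := hi }
  exact ⟨_, _, E, rfl⟩

theorem CH_winf {Γ : Type} [Group Γ] (hΓ : IsTypeFP Γ) (p : ℕ) (z : Γ) (hz1 : z ≠ 1)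
    (w : ℕ → Γ) (hw0 : w 0 = z) (hw : ∀ k, w (k + 1) ^ p = w k) (k : ℕ) (n : ℤ)
    (hn : w k ^ n = 1) : n = 0 := by
  by_contra hn0
  have h1 : w k = 1 := FPcd_tf hΓ (w k) (isOfFinOrder_iff_zpow_eq_one.2 ⟨n, hn0, hn⟩)
  have h2 := Zs_pow hw 0 k
  rw [zero_add, h1, one_pow, hw0] at h2
  exact hz1 h2.symm

theorem CH_succ {Γ : Type} [Group Γ] (p : ℕ) (w : ℕ → Γ) (hw : ∀ k, w (k + 1) ^ p = w k)
    (k : ℕ) : (Subgroup.centralizer {w (k + 1)} : Subgroup Γ) ≤ Subgroup.centralizer {w k} := by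
  intro x hx
  rw [Subgroup.mem_centralizer_singleton_iff] at hx ⊢
  rw [← hw k]
  exact (show Commute x (w (k + 1)) from hx).pow_right p

theorem CH_mem {Γ : Type} [Group Γ] (p : ℕ) (w : ℕ → Γ) (hw : ∀ k, w (k + 1) ^ p = w k)
    (k : ℕ) : w (k + 1) ∈ (Subgroup.centralizer {w k} : Subgroup Γ) := by
  rw [Subgroup.mem_centralizer_singleton_iff, ← hw k]
  exact (Commute.refl (w (k + 1))).pow_right p

theorem CH_self {Γ : Type} [Group Γ] (x : Γ) : x ∈ (Subgroup.centralizer {x} : Subgroup Γ) := by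
  rw [Subgroup.mem_centralizer_singleton_iff]

theorem CH_cen {Γ : Type} [Group Γ] (x : Γ) :
    (⟨x, CH_self x⟩ : (Subgroup.centralizer {x} : Subgroup Γ)) ∈ Subgroup.center _ := by
  rw [Subgroup.mem_center_iff]
  intro g
  apply Subtype.ext
  exact Subgroup.mem_centralizer_singleton_iff.1 g.2

theorem CH_lv {Γ : Type} [Group Γ] (hΓ : IsTypeFP Γ) (d : ℕ)
    (h0 : ∀ j, j ≠ d → IsZero (groupCohomology (Rep.leftRegular ℤ Γ) j))
    (h1 : Nonempty (groupCohomology (Rep.leftRegular ℤ Γ) d ≃+ ℤ)) (p : ℕ) [Fact p.Prime]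
    (z : Γ) (hz : z ∈ Subgroup.center Γ) (hz1 : z ≠ 1) (w : ℕ → Γ) (hw0 : w 0 = z)
    (hw : ∀ k, w (k + 1) ^ p = w k) :
    ∃ n, ∀ k, ∃ (L : Type) (_ : Group L)
      (E : CX (Subgroup.centralizer {w (k + 1)} : Subgroup Γ) L), (E.t : Γ) = w (k + 1) ∧
        Lv p n E := by
  obtain ⟨n, L, _, E, hEt, hE⟩ := BA_main hΓ d h0 h1 p z hz hz1
  have hcx : ∀ k, ∃ (L' : Type) (_ : Group L')
      (E' : CX (Subgroup.centralizer {w k} : Subgroup Γ) L'), (E'.t : Γ) = w k := by
    intro k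
    obtain ⟨L', _, E', hE'⟩ := CH_cx (K := (Subgroup.centralizer {w k} : Subgroup Γ))
      ⟨w k, CH_self (w k)⟩ (CH_cen (w k)) (by
        intro m hm
        apply CH_winf hΓ p z hz1 w hw0 hw k m
        have h2 := congrArg Subtype.val hm
        simpa using h2)
    exact ⟨L', _, E', by rw [hE']⟩
  refine ⟨n, ?_⟩
  intro k
  induction k with
  | zero =>
    obtain ⟨L', _, E', hE'⟩ := hcx (0 + 1)
    refine ⟨L', _, E', hE', ?_⟩
    refine LS_main E p n hE (w (0 + 1)) ?_ (Subgroup.subtype _) Subtype.val_injective ?_ E' hE'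
    · rw [hw 0, hw0, hEt]
    · intro x
      rw [← Subgroup.mem_centralizer_singleton_iff]
      constructor
      · rintro ⟨c, rfl⟩
        exact c.2
      · intro hx
        exact ⟨⟨x, hx⟩, rfl⟩
  | succ k ih =>
    obtain ⟨L₀, _, E₀, ht₀, hE₀⟩ := ih
    obtain ⟨L', _, E', hE'⟩ := hcx (k + 1 + 1)
    refine ⟨L', _, E', hE', ?_⟩
    refine LS_main E₀ p n hE₀ ⟨w (k + 1 + 1), CH_mem p w hw (k + 1)⟩ ?_
      (Subgroup.inclusion (CH_succ p w hw (k + 1))) (Subgroup.inclusion_injective _) ?_ E' ?_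
    · apply Subtype.ext
      rw [ht₀]
      exact hw (k + 1)
    · intro x
      constructor
      · rintro ⟨c, rfl⟩
        apply Subtype.ext
        exact Subgroup.mem_centralizer_singleton_iff.1 c.2
      · intro hx
        refine ⟨⟨x, ?_⟩, rfl⟩
        rw [Subgroup.mem_centralizer_singleton_iff]
        exact congrArg Subtype.val hx
    · apply Subtype.ext
      exact hE'

theorem CH_main {Γ : Type} [Group Γ] (hΓ : IsTypeFP Γ) (d : ℕ)
    (h0 : ∀ j, j ≠ d → IsZero (groupCohomology (Rep.leftRegular ℤ Γ) j))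
    (h1 : Nonempty (groupCohomology (Rep.leftRegular ℤ Γ) d ≃+ ℤ)) (p : ℕ) [Fact p.Prime]
    (z : Γ) (hz : z ∈ Subgroup.center Γ) (hz1 : z ≠ 1) (w : ℕ → Γ) (hw0 : w 0 = z)
    (hw : ∀ k, w (k + 1) ^ p = w k) :
    ∃ K : ℕ, (Subgroup.centralizer {w (K + 1)} : Subgroup Γ).FG ∧
      ∀ k, w k ∈ (Subgroup.centralizer {w (K + 1)} : Subgroup Γ) ∧
        ∀ g ∈ (Subgroup.centralizer {w (K + 1)} : Subgroup Γ), g * w k = w k * g := by
  classical
  obtain ⟨n, hlv⟩ := CH_lv hΓ d h0 h1 p z hz hz1 w hw0 hw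
  have hcd : ∀ k, ∃ m, CD (ZMod p) (Subgroup.centralizer {w (k + 1)} : Subgroup Γ) m := by
    intro k
    obtain ⟨L, _, E, _, hE⟩ := hlv k
    exact ⟨n, hE.cd⟩
  let m : ℕ → ℕ := fun k => Nat.find (hcd k)
  have hm : ∀ k, CD (ZMod p) (Subgroup.centralizer {w (k + 1)} : Subgroup Γ) (m k) :=
    fun k => Nat.find_spec (hcd k)
  have hmin : ∀ k c, CD (ZMod p) (Subgroup.centralizer {w (k + 1)} : Subgroup Γ) c → m k ≤ c :=
    fun k c hc => Nat.find_min' (hcd k) hc
  have hanti : ∀ k, m (k + 1) ≤ m k := fun k => hmin (k + 1) (m k)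
    (CZ_inj p (Subgroup.inclusion (CH_succ p w hw (k + 1))) (Subgroup.inclusion_injective _) _ (hm k))
  have hanti' : ∀ K j, m (K + j) ≤ m K := by
    intro K j
    induction j with
    | zero => exact le_rfl
    | succ j ih => exact (hanti (K + j)).trans ih
  obtain ⟨K, hK⟩ : ∃ K, ∀ k, m K ≤ m k := by
    have hne : (Set.range m).Nonempty := ⟨m 0, 0, rfl⟩
    obtain ⟨K, hKe⟩ := Nat.sInf_mem hne
    exact ⟨K, fun k => by rw [hKe]; exact Nat.sInf_le ⟨k, rfl⟩⟩
  have hst : ∀ j, m (K + j) = m K := fun j => le_antisymm (hanti' K j) (hK _)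
  have hm0 : m K ≠ 0 := by
    intro h
    have h2 := hm K
    rw [h] at h2
    exact CZ_ne p h2
  have hm1 : m K ≠ 1 := by
    intro h
    have h2 := hm K
    rw [h] at h2
    obtain ⟨L, _, E, _, _⟩ := hlv K
    exact SB_one E p h2
  obtain ⟨c, hc⟩ : ∃ c, m K = c + 2 := ⟨m K - 2, by omega⟩
  have hcnt : Countable Γ := (BA_cnt (FPcd_inf hΓ)).2
  have hfg : ∀ k, Group.FG (Subgroup.centralizer {w (k + 1)} : Subgroup Γ) := by
    intro k
    obtain ⟨L, _, E, _, hE⟩ := hlv k
    have : Countable L := E.surj.countable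
    exact FG_ext E (FG_main p hE.ds)
  have hstep : ∀ j, (Subgroup.centralizer {w (K + j + 1)} : Subgroup Γ) ≤
      Subgroup.centralizer {w (K + j + 1 + 1)} := by
    intro j
    obtain ⟨L, _, E, hEt, hE⟩ := hlv (K + j)
    have hle := CH_succ p w hw (K + j + 1)
    let S : Subgroup (Subgroup.centralizer {w (K + j + 1)} : Subgroup Γ) :=
      (Subgroup.centralizer {w (K + j + 1 + 1)} : Subgroup Γ).subgroupOf _
    have hfin : ¬ Infinite ((Subgroup.centralizer {w (K + j + 1)} : Subgroup Γ) ⧸ S) := by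
      intro hinf
      have h2 : CD (ZMod p) (Subgroup.centralizer {w (K + j + 1)} : Subgroup Γ) (c + 2) := by
        have := hm (K + j)
        rwa [hst j, hc] at this
      have h3 := SB_main E p n hE (hfg (K + j)) c h2 S hinf
      have h4 := CZ_inj p (Subgroup.subgroupOfEquivOfLe hle).symm.toMonoidHom
        (Subgroup.subgroupOfEquivOfLe hle).symm.injective (c + 1) h3
      have h5 := hmin (K + j + 1) (c + 1) h4
      have h6 := hst (j + 1)
      have h7 : m (K + j + 1) = m K := h6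
      omega
    let v : (Subgroup.centralizer {w (K + j + 1)} : Subgroup Γ) :=
      ⟨w (K + j + 1 + 1), CH_mem p w hw (K + j + 1)⟩
    have hSv : S = Subgroup.centralizer {v} := by
      ext x
      rw [Subgroup.mem_subgroupOf, Subgroup.mem_centralizer_singleton_iff,
        Subgroup.mem_centralizer_singleton_iff]
      exact (Subtype.ext_iff (a1 := x * v) (a2 := v * x)).symm
    have hfi : (Subgroup.centralizer {v} : Subgroup _).FiniteIndex := by
      rw [← hSv]
      have : Finite ((Subgroup.centralizer {w (K + j + 1)} : Subgroup Γ) ⧸ S) :=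
        not_infinite_iff_finite.1 hfin
      exact Subgroup.finiteIndex_of_finite_quotient
    have hvp : v ^ p = ⟨w (K + j + 1), CH_self _⟩ := Subtype.ext (hw (K + j + 1))
    have hvc := FI_main (fun x hx => by
        apply Subtype.ext
        exact FPcd_tf hΓ (x : Γ) (by
          have := (Subgroup.centralizer {w (K + j + 1)} : Subgroup Γ).subtype.isOfFinOrder hx
          exact this)) v p (Fact.out : p.Prime).pos
      (by rw [hvp]; exact CH_cen _) hfi
    intro x hx
    rw [Subgroup.mem_centralizer_singleton_iff]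
    have h8 := Subgroup.mem_center_iff.1 hvc ⟨x, hx⟩
    exact congrArg Subtype.val h8
  have hall : ∀ j, (Subgroup.centralizer {w (K + j + 1)} : Subgroup Γ) =
      Subgroup.centralizer {w (K + 1)} := by
    intro j
    induction j with
    | zero => rfl
    | succ j ih =>
      rw [← ih]
      exact le_antisymm (CH_succ p w hw (K + j + 1)) (hstep j)
  refine ⟨K, (Group.fg_iff_subgroup_fg _).1 (hfg K), ?_⟩
  intro k
  rcases le_total k (K + 1) with hk | hk
  · obtain ⟨j, hj⟩ := Nat.exists_eq_add_of_le hk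
    have h9 : w k = w (K + 1) ^ (p ^ j) := by rw [hj]; exact (Zs_pow hw k j).symm
    constructor
    · rw [Subgroup.mem_centralizer_singleton_iff, h9]
      exact ((Commute.refl (w (K + 1))).pow_left _)
    · intro g hg
      rw [Subgroup.mem_centralizer_singleton_iff] at hg
      rw [h9]
      exact (show Commute g (w (K + 1)) from hg).pow_right _
  · obtain ⟨j, hj⟩ := Nat.exists_eq_add_of_le hk
    have h9 : k = K + j + 1 := by omega
    subst h9
    constructor
    · rw [← hall j]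
      exact CH_self _
    · intro g hg
      rw [← hall j] at hg
      exact Subgroup.mem_centralizer_singleton_iff.1 hg

end Pool.Agent.H5.PD
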