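import Pool.Agent.H5.PD.Df

/-!
Module CZ (row PDCZ).  Coefficients: `ℤ`-modules killed by `p` versus `F_p`-modules.  Tools: `InK_rho`, `InK_tr`, `InK_base` (H75/CP/InK.lean: a module killed by `p` as a `ZMod p`-module: `AddCommGroup.zmodModule`), `KilB_main`, `KilA_one`, `ExB_zero`, `CocB_resZ`, `resZ` (H5/CP/Defs.lean).
`CZ_zero`: `j ≥ 1`: `KilB_main` (identities) from `Rep.of (InK_rho N.ρ p)`, `ExB_zero`.   `j = 0` (then `n = 0`): impossible: `CD (ZMod p) H 0` contradicts `H^0(H; trivial F_p) ≠ 0` (`groupCohomology.H0Iso`, see `Cp_zero`, H5/ZP/Cp.lean).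
`CZ_CD`: for `A : Rep (ZMod p) K` apply `h` to `resZ A` (killed by `p`), `ExB_zero`, `CocB_resZ` (degrees `≥ 1`).
`CZ_inj`: `i` is an isomorphism `C ≃* i.range`, `SubC_main`, `KilB_main` for degrees `≥ 1`; `n = 0` is impossible as above.
`CZ_pac`: as `InK_base`: `VMa_main` for `Rep.of (InK_rho B.ρ p)`; `PAc p` transfers by `KilB_main` (`MulEquiv.refl`, identity).
`CZ_ne`: `H^0(H; F_p[H]...)` is not needed; the statement: if all classes vanish in degree `0` for all modules killed by `p`, contradiction (trivial module `ZMod p`: the map `1 ↦ 1`, `Ext.mk₀`, `Ext.homEquiv₀`).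
-/

namespace Pool.Agent.H5.PD

open CategoryTheory CategoryTheory.Abelian CategoryTheory.Limits Pool.Agent.H5.CP
  Pool.Agent.H75.CP Pool.Agent.H5.ZP

/-- a module killed by `p` as a `ZMod p`-module -/
noncomputable def CZ_B {k G : Type} [CommRing k] [Group G] (p : ℕ) (B : Rep.{0} k G)
    (hB : ∀ b : B.V, p • b = 0) : Rep.{0} (ZMod p) G :=
  letI : Module (ZMod p) B.V := AddCommGroup.zmodModule hB
  Rep.of (InK_rho B.ρ p)

theorem CZ_Bz {k G : Type} [CommRing k] [Group G] (p : ℕ) (B : Rep.{0} k G)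
    (hB : ∀ b : B.V, p • b = 0) (j : ℕ)
    (hz : IsZero (groupCohomology (CZ_B p B hB) (j + 1))) : IsZero (groupCohomology B (j + 1)) := by
  let _ : Module (ZMod p) B.V := AddCommGroup.zmodModule hB
  rw [← KilA_one] at hz ⊢
  exact KilB_main (MulEquiv.refl G) (Rep.of (InK_rho B.ρ p)) B (AddEquiv.refl B.V)
    (fun _ _ => rfl) 1 j hz

theorem CZ_Bp {k G : Type} [CommRing k] [Group G] (p : ℕ) (B : Rep.{0} k G)
    (hB : ∀ b : B.V, p • b = 0) (hP : PAc p B) : PAc p (CZ_B p B hB) := by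
  let _ : Module (ZMod p) B.V := AddCommGroup.zmodModule hB
  intro y hy hy1 m
  have h0 := hP y hy hy1 m
  rw [← KilA_one] at h0 ⊢
  exact KilB_main (MulEquiv.refl _) (Rep.res (Subgroup.zpowers y).subtype B)
    (Rep.res (Subgroup.zpowers y).subtype (Rep.of (InK_rho B.ρ p))) (AddEquiv.refl B.V)
    (fun _ _ => rfl) 1 m h0

theorem CZ_no0 (p : ℕ) [Fact p.Prime] {K : Type} [Group K] : ¬ CD (ZMod p) K 0 := by
  intro h
  let B : Rep.{0} (ZMod p) K := Rep.trivial (ZMod p) K (ZMod p)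
  let e := (groupCohomology.H0Iso B).toLinearEquiv
  let a : ZMod p → B.ρ.invariants := fun b => ⟨b, fun g => rfl⟩
  have ha : Function.Injective a := fun x y h => congrArg Subtype.val h
  have h1 := (e.symm.injective.comp ha).nontrivial
  have h2 := ModuleCat.isZero_iff_subsingleton.1 (h B 0 le_rfl)
  exact not_subsingleton _ h2

theorem CZ_zero (p : ℕ) [Fact p.Prime] {H : Type} [Group H] (n : ℕ) (h : CD (ZMod p) H n)
    (N : Rep.{0} ℤ H) (hN : Kp p N) (j : ℕ) (hj : n ≤ j) (x : Ext (tz H) N j) : x = 0 := by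
  cases j with
  | zero =>
    have h0 : n = 0 := by omega
    subst h0
    exact absurd h (CZ_no0 p)
  | succ i =>
    exact (ExB_zero N (i + 1)).1 (CZ_Bz p N hN i (h _ (i + 1) hj)) x

theorem CZ_CD (p : ℕ) [Fact p.Prime] {K : Type} [Group K] (c : ℕ)
    (h : ∀ N : Rep.{0} ℤ K, Kp p N → ∀ j, c + 1 ≤ j → ∀ x : Ext (tz K) N j, x = 0) :
    CD (ZMod p) K (c + 1) := by
  intro A j hj
  obtain ⟨i, rfl⟩ : ∃ i, j = i + 1 := ⟨j - 1, by omega⟩
  rw [CocB_resZ, ExB_zero]
  refine h (resZ A) ?_ (i + 1) hj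
  have h2 : ∀ b : A.V, p • b = 0 := by
    intro b
    have h3 : ((p : ℕ) : ZMod p) • b = 0 := by
      rw [ZMod.natCast_self, zero_smul]
    rw [Nat.cast_smul_eq_nsmul] at h3
    exact h3
  exact h2

theorem CZ_ne (p : ℕ) [Fact p.Prime] {K : Type} [Group K] : ¬ CD (ZMod p) K 0 :=
  CZ_no0 p

theorem CZ_inj (p : ℕ) [Fact p.Prime] {C H : Type} [Group C] [Group H] (i : C →* H)
    (hi : Function.Injective i) (n : ℕ) (h : CD (ZMod p) H n) : CD (ZMod p) C n := by
  intro A j hj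
  cases j with
  | zero =>
    have h0 : n = 0 := by omega
    subst h0
    exact absurd h (CZ_no0 p)
  | succ m =>
    let e : C ≃* i.range := MonoidHom.ofInjective hi
    have h1 := SubC_main n h i.range (Rep.res e.symm.toMonoidHom A) (m + 1) hj
    rw [← KilA_one] at h1 ⊢
    exact KilB_main e.symm (Rep.res e.symm.toMonoidHom A) A (AddEquiv.refl A.V)
      (fun _ _ => rfl) 1 m h1

theorem CZ_pac {H L : Type} [Group H] [Group L] (E : CX H L) (p : ℕ) [Fact p.Prime] (n : ℕ)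
    (hH : CD (ZMod p) H n) (B : Rep.{0} ℤ L) (hB : Kp p B) (hP : PAc p B) (j : ℕ)
    (hj : 2 * n + 3 ≤ j) (x : Ext (tz L) B j) : x = 0 := by
  obtain ⟨i, rfl⟩ : ∃ i, j = i + 1 := ⟨j - 1, by omega⟩
  exact (ExB_zero B (i + 1)).1
    (CZ_Bz p B hB i (VMa_main E p n hH _ (CZ_Bp p B hB hP) (i + 1) hj)) x

end Pool.Agent.H5.PD
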