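import Pool.Agent.H5.PD.Df

/-!
Module DB (row PDDB).  `G` of type `FP_∞` (`FPinf G`, H5/CP/GDef.lean: `FPm ℤ G n (tz G)`-like for all `n`) satisfies `Ds p G`.
General statement, by induction on `n`, for all `M`: if `FPm ℤ G n M` then for every `N`, every tail system `T` of `N` and `x ∈ Ext M N n` there is `e ∈ T.S` with `x.comp (mk₀ e) = 0` (`p` plays no role).
 `n = 0`: `Rep.free ℤ G (Fin m) → M` is onto; `x = mk₀ f`; finitely many elements `f(m_i)` of `N` are killed by one `e ∈ T.S` (induction on a finite set, closed under composition: if `e₁` kills the first ones and `e₂` kills `e₁(y)` then `e₁ ≫ e₂`; empty set: `T.ne`); then `f ≫ e = 0`.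
 `n + 1`: `0 → K → F → M → 0`, `F` free of finite rank, `K` of type `FP_n` (definition of `FPm`); `x = extClass.comp y`, `y ∈ Ext K N n` (`Ext^(n+1)(F,N) = 0`, `Ext.contravariant_sequence_exact₃`), `x.comp (mk₀ e) = extClass.comp (y.comp (mk₀ e))` (`Ext.comp_assoc`).
 Compare `Fd_ext` (H5/ZP/Fd.lean).
-/

namespace Pool.Agent.H5.PD

open CategoryTheory CategoryTheory.Abelian CategoryTheory.Limits Pool.Agent.H5.CP
  Pool.Agent.H75.CP Pool.Agent.H5.ZP

theorem DB_fin {G : Type} [Group G] {N : Rep.{0} ℤ G} (T : Tail N) {ι : Type} (s : Finset ι)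
    (v : ι → N.V) : ∃ e ∈ T.S, ∀ i ∈ s, e.hom (v i) = 0 := by
  classical
  induction s using Finset.induction_on with
  | empty =>
    obtain ⟨e, he⟩ := T.ne
    exact ⟨e, he, fun i hi => absurd hi (Finset.notMem_empty i)⟩
  | insert a s ha ih =>
    obtain ⟨e, he, h⟩ := ih
    obtain ⟨f, hf, h'⟩ := T.loc (e.hom (v a))
    refine ⟨e ≫ f, T.mul e he f hf, fun i hi => ?_⟩
    rcases Finset.mem_insert.1 hi with rfl | hi
    · exact h'
    · show f.hom (e.hom (v i)) = 0
      rw [h i hi, map_zero]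

theorem DB_ext {G : Type} [Group G] (n : ℕ) (M : Rep.{0} ℤ G) (hM : FPm ℤ G n M)
    (N : Rep.{0} ℤ G) (T : Tail N) (x : Ext M N n) :
    ∃ e ∈ T.S, x.comp (Ext.mk₀ e) (add_zero n) = 0 := by
  induction n generalizing M with
  | zero =>
    obtain ⟨m, q, hq⟩ := hM
    obtain ⟨f, rfl⟩ := Ext.addEquiv₀.symm.surjective x
    obtain ⟨e, he, h⟩ := DB_fin T (Finset.univ : Finset (Fin m))
      (fun i => (q ≫ f).hom (Finsupp.single i (MonoidAlgebra.single 1 1)))
    refine ⟨e, he, ?_⟩
    have h1 : q ≫ (f ≫ e) = q ≫ 0 := by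
      apply Rep.free_ext
      intro i
      have h2 := h i (Finset.mem_univ i)
      rw [comp_zero]
      exact h2
    have h3 : f ≫ e = 0 := (cancel_epi q).1 h1
    show (Ext.mk₀ f).comp (Ext.mk₀ e) (add_zero 0) = 0
    rw [Ext.mk₀_comp_mk₀, h3, Ext.mk₀_zero]
  | succ n ih =>
    obtain ⟨m, f, hf, hK⟩ := hM
    let S : ShortComplex (Rep.{0} ℤ G) := ShortComplex.mk (kernel.ι f) f (kernel.condition f)
    have hS : S.ShortExact := { exact := ShortComplex.exact_of_f_is_kernel _ (kernelIsKernel f) }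
    have he : (Ext.mk₀ S.g).comp x (zero_add (n + 1)) = 0 := Ext.eq_zero_of_projective _
    obtain ⟨y, rfl⟩ := Ext.contravariant_sequence_exact₃ hS _ x he
      (show 1 + n = n + 1 by omega)
    obtain ⟨e, he, h⟩ := ih (kernel f) hK y
    refine ⟨e, he, ?_⟩
    rw [Ext.comp_assoc _ _ _ (show 1 + n = n + 1 by omega) (add_zero n) (by omega), h, Ext.comp_zero]

theorem DB_main {G : Type} [Group G] (p : ℕ) (h : FPinf G) : Ds p G := by
  intro N _ T j x
  exact DB_ext j _ (h j) N T x

end Pool.Agent.H5.PD
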