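import Pool.Agent.H5.PD.DE

/-!
Module IS (row PDIS).  Inflation `H^j(St;B) → H^j(C;B)` is onto.  `C → St = C/⟨t⟩ → L' = C/⟨v⟩`, `v = E₁.t`, `t = E'.t = v^p`, `B` an `L'`-module killed by `p`.  Use only the STATEMENTS of DE, Na.
Induction on `j`, for all `B`.   `j = 0`: `Ext^0 = Hom` (`Ext.homEquiv₀`), `E'.π` is onto: a morphism `tz C ⟶ Rep.res E'.π (…)` is given by an invariant element (`Rep.resFunctor` is full for surjective homomorphisms: `Rep.full_res`; `Ext.mapExactFunctor_mk₀`).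
`j = 1`: `w = dc N f hf` (`DE_ex`); `v` acts trivially on `N = res res B` (`r (E'.π v) = E₁.π v = 1`), so `f` is additive on `⟨v⟩` and `f(t) = f(v^p) = p f(v) = 0`; `t` acts trivially too, so `f(c t^m) = f(c)` and `f` factors through `E'.π` (`E'.ker`, `E'.surj`): `f = f' ∘ E'.π`, `f'` a derivation, `DE_In`.
`j + 2`: let `A = FunR L' B` (`L'` acting on itself by left multiplication), `0 → B → A → QB L' B → 0` (`QSe_main`), all killed by `p`.  `IS_van`: `H^(j+2)(C; res A) = 0`: restricted to `C`, `A` is `FunR L' (res B)` for the `C`-set `L'` (`MulAction.compHom`), all stabilisers are `ker E₁.π = ⟨v⟩`,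
 infinite cyclic, and `H^(j+2)(⟨v⟩; ·) = 0` (`FunA_main` with `m = 1`, `KilA_one`; for `ℤ`: `CD ℤ (Multiplicative ℤ) 2`: look for it in H5/CP (e.g. `TorC`, `RkZ`, `FPe`, `CocC`) or prove it with `QB`/dimension shift or Mathlib; `KilB_main` for transport; `ExB_zero`).
 So `w` maps to `0` in `Ext^(j+2)(tz C, res A)` and `w = w'.comp extClass` (`Ext.covariant_sequence_exact₁` for the restricted sequence), `w' ∈ Ext^(j+1)(tz C, res (QB L' B))`; `w' = In x'` by induction, `w = In (x'.comp extClass)` (`Ext.mapExactFunctor_comp`, `_extClass`).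
(`Rep.res E'.π (Rep.res r ·)` is `Rep.res (r.comp E'.π) ·` by `rfl`.)
-/

namespace Pool.Agent.H5.PD

open CategoryTheory CategoryTheory.Abelian CategoryTheory.Limits Pool.Agent.H5.CP
  Pool.Agent.H75.CP Pool.Agent.H5.ZP

/-- a cyclic group as an extension of the trivial group -/
noncomputable def IS_E0 {H : Type} [Group H] (t : H) (h1 : ∀ x : H, ∃ n : ℤ, x = t ^ n)
    (h2 : ∀ n : ℤ, t ^ n = 1 → n = 0) : CX H Unit where
  π := 1
  t := t
  surj := fun _ => ⟨1, rfl⟩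
  ker := fun x => ⟨fun _ => h1 x, fun _ => rfl⟩
  cent := by
    rw [Subgroup.mem_center_iff]
    intro g
    obtain ⟨n, rfl⟩ := h1 g
    rw [← zpow_add_one, ← zpow_one_add, add_comm]
  inf := h2

theorem IS_fun0 {H : Type} [Group H] (M : Rep.{0} ℤ H) (j : ℕ)
    (w : Ext (tz H) (FunR H M) (j + 1)) : w = 0 :=
  (ExB_zero (FunR H M) (j + 1)).1 (FunA_free H M j fun _ _ hgy => mul_eq_right.1 hgy) w

theorem IS_shift {H : Type} [Group H] (M : Rep.{0} ℤ H) (j : ℕ)
    (h : ∀ w : Ext (tz H) (QB H M) (j + 1), w = 0) (w : Ext (tz H) M (j + 2)) : w = 0 := by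
  have hS := QSe_main H M
  obtain ⟨y, hy⟩ := Ext.covariant_sequence_exact₁ (tz H) hS (w : Ext (tz H) (QBS H M).X₁ (j + 2))
    (IS_fun0 M (j + 1) _) (n₀ := j + 1) (by omega)
  have h2 : y = 0 := h y
  rw [h2, Ext.zero_comp] at hy
  exact hy.symm

theorem IS_van0 {H : Type} [Group H] (t : H) (h1 : ∀ x : H, ∃ n : ℤ, x = t ^ n)
    (M : Rep.{0} ℤ H) (hM : ∀ y : M.V, ∃ x : M.V, M.ρ t x - x = y)
    (w : Ext (tz H) M 1) : w = 0 := by
  obtain ⟨f, hf, rfl⟩ := DE_ex M w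
  rw [DE_zero]
  obtain ⟨n, hn⟩ := hM (f t)
  refine ⟨n, ?_⟩
  have hd : ∀ g h, f (g * h) = f g + M.ρ g (f h) := hf
  have h0 : f 1 = 0 := by
    have h := hd 1 1
    rw [mul_one, map_one] at h
    exact left_eq_add.1 h
  have key : ∀ g h, f g = M.ρ g n - n → f h = M.ρ h n - n → f (g * h) = M.ρ (g * h) n - n := by
    intro g h hg hh
    have e : M.ρ (g * h) n = M.ρ g (M.ρ h n) := by rw [map_mul]; rfl
    rw [hd, hg, hh, map_sub, e]
    abel
  have kinv : ∀ g, f g = M.ρ g n - n → f g⁻¹ = M.ρ g⁻¹ n - n := by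
    intro g hg
    have h := hd g⁻¹ g
    have e : M.ρ g⁻¹ (M.ρ g n) = n := by
      have h3 : M.ρ (g⁻¹ * g) n = n := by
        rw [inv_mul_cancel, map_one]
        rfl
      rw [map_mul] at h3
      exact h3
    rw [inv_mul_cancel, h0, hg, map_sub, e] at h
    have h4 : f g⁻¹ = -(n - M.ρ g⁻¹ n) := eq_neg_of_add_eq_zero_left h.symm
    rw [h4]
    abel
  have kpow : ∀ m : ℕ, f (t ^ m) = M.ρ (t ^ m) n - n := by
    intro m
    induction m with
    | zero =>
      rw [pow_zero, h0, map_one]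
      exact (sub_self _).symm
    | succ m ih =>
      rw [pow_succ]
      exact key _ _ ih hn.symm
  intro g
  obtain ⟨m, rfl⟩ := h1 g
  obtain ⟨m, rfl | rfl⟩ := m.eq_nat_or_neg
  · rw [zpow_natCast]
    exact kpow m
  · rw [zpow_neg, zpow_natCast]
    exact kinv _ (kpow m)

theorem IS_van1 {H : Type} [Group H] (t : H) (h1 : ∀ x : H, ∃ n : ℤ, x = t ^ n)
    (h2 : ∀ n : ℤ, t ^ n = 1 → n = 0) (j : ℕ) :
    ∀ (M : Rep.{0} ℤ H) (_ : ∀ y : M.V, ∃ x : M.V, M.ρ t x - x = y)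
    (w : Ext (tz H) M (j + 1)), w = 0 := by
  induction j with
  | zero => exact fun M hM w => IS_van0 t h1 M hM w
  | succ j ih =>
    intro M hM w
    exact IS_shift M j (ih (QB H M) (CoA_qb (IS_E0 t h1 h2) M)) w

theorem IS_van2 {H : Type} [Group H] (t : H) (h1 : ∀ x : H, ∃ n : ℤ, x = t ^ n)
    (h2 : ∀ n : ℤ, t ^ n = 1 → n = 0) (j : ℕ) (M : Rep.{0} ℤ H)
    (w : Ext (tz H) M (j + 2)) : w = 0 :=
  IS_shift M j (IS_van1 t h1 h2 j (QB H M) (CoA_qb (IS_E0 t h1 h2) M)) w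

theorem IS_van {C L' : Type} [Group C] [Group L'] (E₁ : CX C L') (B : Rep.{0} ℤ L') (j : ℕ)
    (w : Ext (tz C) (Rep.res E₁.π (FunR L' B)) (j + 2)) : w = 0 := by
  let _ : MulAction C L' := MulAction.compHom L' E₁.π
  have hs : ∀ (c : C) (y : L'), c • y = E₁.π c * y := fun _ _ => rfl
  have hst : ∀ (y : L') (c : C), c ∈ MulAction.stabilizer C y ↔ ∃ n : ℤ, c = E₁.t ^ n := by
    intro y c
    rw [MulAction.mem_stabilizer_iff, hs, mul_eq_right]
    exact E₁.ker c
  have h1 : Kill 1 (FunR (G := C) L' (Rep.res E₁.π B)) (j + 1 + 1) := by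
    refine FunA_main L' (Rep.res E₁.π B) 1 (j + 1) fun y => ?_
    rw [KilA_one, ExB_zero]
    intro e
    have ht : E₁.t ∈ MulAction.stabilizer C y := (hst y _).2 ⟨1, (zpow_one _).symm⟩
    refine IS_van2 (H := MulAction.stabilizer C y) ⟨E₁.t, ht⟩ ?_ ?_ j _ e
    · rintro ⟨x, hx⟩
      obtain ⟨n, rfl⟩ := (hst y x).1 hx
      exact ⟨n, Subtype.ext rfl⟩
    · intro n hn
      exact E₁.inf n (congrArg Subtype.val hn)
  have h2 : Kill 1 (Rep.res E₁.π (FunR L' B)) (j + 1 + 1) := by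
    refine KilB_main (MulEquiv.refl C) (FunR (G := C) L' (Rep.res E₁.π B))
      (Rep.res E₁.π (FunR L' B)) (AddEquiv.refl _) ?_ 1 (j + 1) h1
    intro g a
    funext y
    show B.ρ (E₁.π g) ((a : L' → B.V) (g⁻¹ • y)) = B.ρ (E₁.π g) ((a : L' → B.V) ((E₁.π g)⁻¹ * y))
    rw [hs, map_inv]
  rw [KilA_one, ExB_zero] at h2
  exact h2 w

theorem IS_zero {C St : Type} [Group C] [Group St] (E' : CX C St) (N : Rep.{0} ℤ St)
    (w : Ext (tz C) (Rep.res E'.π N) 0) : ∃ x : Ext (tz St) N 0, In E'.π x = w := by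
  obtain ⟨f, hf⟩ := (Ext.mk₀_bijective (tz C) (Rep.res E'.π N)).2 w
  have : (Rep.resFunctor (k := ℤ) E'.π).Full := Rep.full_res E'.π E'.surj
  obtain ⟨g, hg⟩ := (Rep.resFunctor (k := ℤ) E'.π).map_surjective
    (X := tz St) (Y := N) (f : (Rep.resFunctor E'.π).obj (tz St) ⟶ (Rep.resFunctor E'.π).obj N)
  refine ⟨Ext.mk₀ g, ?_⟩
  unfold In
  rw [Ext.mapExactFunctor_mk₀, hg]
  exact hf

theorem IS_one {C St L' : Type} [Group C] [Group St] [Group L'] (E' : CX C St) (E₁ : CX C L')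
    (r : St →* L') (hr : ∀ c, r (E'.π c) = E₁.π c) (p : ℕ)
    (hp : E₁.t ^ p = E'.t) (B : Rep.{0} ℤ L') (hB : Kp p B)
    (w : Ext (tz C) (Rep.res E'.π (Rep.res r B)) 1) :
    ∃ x : Ext (tz St) (Rep.res r B) 1, In E'.π x = w := by
  obtain ⟨f, hf, rfl⟩ := DE_ex _ w
  have hd : ∀ g h : C, f (g * h) = f g + B.ρ (E₁.π g) (f h) := by
    intro g h
    rw [← hr g]
    exact hf g h
  have h0 : f 1 = 0 := by
    have h := hd 1 1
    rw [mul_one, map_one, map_one] at h
    exact left_eq_add.1 h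
  have hv : E₁.π E₁.t = 1 := (E₁.ker _).2 ⟨1, (zpow_one _).symm⟩
  have hadd : ∀ g h : C, E₁.π g = 1 → f (g * h) = f g + f h := by
    intro g h hg
    rw [hd, hg, map_one]
    rfl
  have hpow : ∀ m : ℕ, f (E₁.t ^ m) = m • f E₁.t := by
    intro m
    induction m with
    | zero => rw [pow_zero, h0, zero_smul]
    | succ m ih =>
      rw [pow_succ', hadd _ _ hv, ih, succ_nsmul']
  have ht : f E'.t = 0 := by
    rw [← hp, hpow]
    exact hB _
  have ht1 : E₁.π E'.t = 1 := by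
    rw [← hp, map_pow, hv, one_pow]
  have htn : ∀ m : ℕ, f (E'.t ^ m) = 0 := by
    intro m
    induction m with
    | zero => rw [pow_zero, h0]
    | succ m ih => rw [pow_succ', hadd _ _ ht1, ih, ht, add_zero]
  have htz : ∀ m : ℤ, f (E'.t ^ m) = 0 := by
    intro m
    obtain ⟨m, rfl | rfl⟩ := m.eq_nat_or_neg
    · rw [zpow_natCast]
      exact htn m
    · rw [zpow_neg, zpow_natCast]
      have h : E₁.π (E'.t ^ m) = 1 := by rw [map_pow, ht1, one_pow]
      have h3 := hadd (E'.t ^ m) (E'.t ^ m)⁻¹ h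
      rw [mul_inv_cancel, h0, htn, zero_add] at h3
      exact h3.symm
  have hfac : ∀ c c' : C, E'.π c = E'.π c' → f c = f c' := by
    intro c c' h
    have h1 : E'.π (c⁻¹ * c') = 1 := by
      rw [map_mul, map_inv, h, inv_mul_cancel]
    obtain ⟨m, hm⟩ := (E'.ker _).1 h1
    have h2 : c' = c * E'.t ^ m := by rw [← hm, mul_inv_cancel_left]
    rw [h2, hd, htz, map_zero, add_zero]
  obtain ⟨s, hs⟩ := E'.surj.hasRightInverse
  have hfs : ∀ c, f (s (E'.π c)) = f c := fun c => hfac _ _ (hs _)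
  have hf' : IsDer (Rep.res r B) (fun x => f (s x)) := by
    intro x y
    obtain ⟨c, rfl⟩ := E'.surj x
    obtain ⟨d, rfl⟩ := E'.surj y
    show f (s (E'.π c * E'.π d)) = f (s (E'.π c)) + B.ρ (r (E'.π c)) (f (s (E'.π d)))
    rw [← map_mul, hfs, hfs, hfs, hr]
    exact hd c d
  have he : (fun h : C => f (s (E'.π h))) = f := funext hfs
  have hf'' : IsDer (Rep.res E'.π (Rep.res r B)) (fun h : C => f (s (E'.π h))) := by
    rw [he]
    exact hf
  refine ⟨dc (Rep.res r B) (fun x => f (s x)) hf', ?_⟩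
  rw [DE_In E'.π (Rep.res r B) (fun x => f (s x)) hf' hf'']
  congr 1

theorem IS_kq {k G : Type} [CommRing k] [Group G] (Y : Type) [MulAction G Y]
    (B : Rep.{0} k G) (p : ℕ) (hB : ∀ x : B.V, p • x = 0) (x : (QB Y B).V) : p • x = 0 := by
  obtain ⟨F, rfl⟩ := Submodule.Quotient.mk_surjective _ x
  have h1 : p • (F : Y → B.V) = 0 := by
    funext y
    exact hB ((F : Y → B.V) y)
  have h2 : (Submodule.Quotient.mk (p • (F : Y → B.V)) : (Y → B.V) ⧸ cst k Y B.V) = 0 := by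
    rw [h1]
    rfl
  exact h2

theorem IS_step {C St L' : Type} [Group C] [Group St] [Group L'] (E' : CX C St) (r : St →* L')
    (B : Rep.{0} ℤ L') (j : ℕ)
    (hv : ∀ w : Ext (tz C) (Rep.res E'.π (Rep.res r (FunR L' B))) (j + 2), w = 0)
    (ih : ∀ w : Ext (tz C) (Rep.res E'.π (Rep.res r (QB L' B))) (j + 1),
      ∃ x : Ext (tz St) (Rep.res r (QB L' B)) (j + 1), In E'.π x = w)
    (w : Ext (tz C) (Rep.res E'.π (Rep.res r B)) (j + 2)) :
    ∃ x : Ext (tz St) (Rep.res r B) (j + 2), In E'.π x = w := by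
  have hS := QSe_main L' B
  have hS1 : ((QBS L' B).map (Rep.resFunctor r)).ShortExact := hS.map_of_exact (Rep.resFunctor r)
  have hS2 : (((QBS L' B).map (Rep.resFunctor r)).map (Rep.resFunctor E'.π)).ShortExact :=
    hS1.map_of_exact (Rep.resFunctor E'.π)
  obtain ⟨y, hy⟩ := Ext.covariant_sequence_exact₁ (tz C) hS2
    (w : Ext (tz C) (((QBS L' B).map (Rep.resFunctor r)).map (Rep.resFunctor E'.π)).X₁ (j + 2))
    (hv _) (n₀ := j + 1) (by omega)
  obtain ⟨x, hx⟩ := ih y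
  refine ⟨(x : Ext (tz St) ((QBS L' B).map (Rep.resFunctor r)).X₃ (j + 1)).comp hS1.extClass
    (by omega), ?_⟩
  refine Eq.trans ?_ hy
  have h1 := Ext.mapExactFunctor_comp (F := Rep.resFunctor E'.π)
    (x : Ext (tz St) ((QBS L' B).map (Rep.resFunctor r)).X₃ (j + 1)) hS1.extClass
    (show j + 1 + 1 = j + 2 by omega)
  have h2 := Ext.mapExactFunctor_extClass (F := Rep.resFunctor E'.π) hS1
  refine h1.trans ?_
  refine (congrArg (fun z => ((x : Ext (tz St) ((QBS L' B).map (Rep.resFunctor r)).X₃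
    (j + 1)).mapExactFunctor (Rep.resFunctor E'.π)).comp z
      (show j + 1 + 1 = j + 2 by omega)) h2).trans ?_
  rw [← hx]
  rfl

theorem IS_main {C St L' : Type} [Group C] [Group St] [Group L'] (E' : CX C St) (E₁ : CX C L')
    (r : St →* L') (hr : ∀ c, r (E'.π c) = E₁.π c) (p : ℕ) [Fact p.Prime]
    (hp : E₁.t ^ p = E'.t) (B : Rep.{0} ℤ L') (hB : Kp p B) (j : ℕ)
    (w : Ext (tz C) (Rep.res E'.π (Rep.res r B)) j) :
    ∃ x : Ext (tz St) (Rep.res r B) j, In E'.π x = w := by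
  have hπ : E₁.π = r.comp E'.π := by
    apply MonoidHom.ext
    intro c
    exact (hr c).symm
  have hvan : ∀ (B : Rep.{0} ℤ L') (j : ℕ)
      (w : Ext (tz C) (Rep.res (r.comp E'.π) (FunR L' B)) (j + 2)), w = 0 := by
    rw [← hπ]
    exact fun B j w => IS_van E₁ B j w
  induction j generalizing B with
  | zero => exact IS_zero E' (Rep.res r B) w
  | succ j ih =>
    cases j with
    | zero => exact IS_one E' E₁ r hr p hp B hB w
    | succ j =>
      exact IS_step E' r B j (fun w => hvan B j w)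
        (fun w => ih (QB L' B) (IS_kq L' B p hB) w) w

end Pool.Agent.H5.PD
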