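import Pool.Agent.H5.PD.GC
import Pool.Agent.H5.PD.IS

/-!
Module DC (row PDDC).  Tails for `St` in large degrees give tails for `C` and `L'` in all degrees.  Use only the STATEMENTS of GC, IS, Na.
Let `e` be the class of `GC_main E'`.  Let `B : Rep ℤ L'` be killed by `p`, `T : Tail B`, `T.res r : Tail (Rep.res r B)`.
(1) for `j ≥ m`: `DT (T.res r) j` (hypothesis).   (2) for all `j`: by `IS_main` and `Gyn.b`, `e.comp : Ext (tz St) (Rep.res r B) j → Ext … (j+2)` is injective; so downward induction: `e.comp x` is killed by `f`, `(e.comp x).comp (mk₀ f) = e.comp (x.comp (mk₀ f))` (`Ext.comp_assoc`), so `x.comp (mk₀ f) = 0`.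
(3) `w ∈ Ext (tz C) (Rep.res E'.π (Rep.res r B)) j` is `In x` (`IS_main`), `In_nat`, so it is killed.  `E₁.π = r.comp E'.π` (`MonoidHom.ext hr`): to pass to `Rep.res E₁.π B` generalise over `φ : C →* L'` with `φ = r.comp E'.π` and `subst`.
(4) `Ds p L'`: strong induction on `j` with `e₁` from `GC_main E₁`: `x ∈ Ext (tz L') B j`; `In E₁.π x` is killed by some `f₁ ∈ T.S` (by (3)), so `In E₁.π (x.comp (mk₀ f₁)) = 0` (`In_nat`).  `j = 0, 1`: `Gyn.a0`, `a1`.  `j + 2`: `x.comp (mk₀ f₁) = e₁.comp y`, `y` killed by `f₂`, `f₁ ≫ f₂` kills `x`.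
-/

namespace Pool.Agent.H5.PD

open CategoryTheory CategoryTheory.Abelian CategoryTheory.Limits Pool.Agent.H5.CP
  Pool.Agent.H75.CP Pool.Agent.H5.ZP

theorem DC_assoc {G : Type} [Group G] {N N' : Rep.{0} ℤ G} (e : Ext (tz G) (tz G) 2) {j : ℕ}
    (x : Ext (tz G) N j) (f : N ⟶ N') :
    (e.comp x (add_comm 2 j)).comp (Ext.mk₀ f) (add_zero (j + 2)) =
      e.comp (x.comp (Ext.mk₀ f) (add_zero j)) (add_comm 2 j) :=
  Ext.comp_assoc e x (Ext.mk₀ f) (add_comm 2 j) (add_zero j) (by omega)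

theorem DC_low {C St L' : Type} [Group C] [Group St] [Group L'] (E' : CX C St) (E₁ : CX C L')
    (r : St →* L') (hr : ∀ c, r (E'.π c) = E₁.π c) (p : ℕ) [Fact p.Prime]
    (hp : E₁.t ^ p = E'.t) (m : ℕ)
    (h : ∀ B : Rep.{0} ℤ St, Kp p B → ∀ (T : Tail B) (j : ℕ), m ≤ j → DT T j)
    (N : Rep.{0} ℤ L') (hN : Kp p N) (T : Tail N) :
    ∀ d j : ℕ, m ≤ j + 2 * d → DT (T.res r) j := by
  obtain ⟨e, he⟩ := GC_main E'
  intro d
  induction d with
  | zero =>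
    intro j hj
    exact h (Rep.res r N) hN (T.res r) j (by omega)
  | succ d ih =>
    intro j hj x
    obtain ⟨f, hf, h0⟩ := ih (j + 2) (by omega) (e.comp x (add_comm 2 j))
    refine ⟨f, hf, ?_⟩
    rw [DC_assoc] at h0
    exact he.b (Rep.res r N) j (fun w => IS_main E' E₁ r hr p hp N hN (j + 1) w) _ h0

theorem DC_C {C St L' : Type} [Group C] [Group St] [Group L'] (E' : CX C St) (E₁ : CX C L')
    (r : St →* L') (hr : ∀ c, r (E'.π c) = E₁.π c) (p : ℕ) [Fact p.Prime]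
    (hp : E₁.t ^ p = E'.t) (m : ℕ)
    (h : ∀ B : Rep.{0} ℤ St, Kp p B → ∀ (T : Tail B) (j : ℕ), m ≤ j → DT T j)
    (N : Rep.{0} ℤ L') (hN : Kp p N) (T : Tail N) (j : ℕ) : DT (T.res (r.comp E'.π)) j := by
  intro w
  obtain ⟨x, hx⟩ := IS_main E' E₁ r hr p hp N hN j w
  obtain ⟨f, ⟨e, he, rfl⟩, h0⟩ := DC_low E' E₁ r hr p hp m h N hN T m j (by omega) x
  refine ⟨(Rep.resFunctor (r.comp E'.π)).map e, ⟨e, he, rfl⟩, ?_⟩
  have h1 := In_nat E'.π ((Rep.resFunctor r).map e) x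
  rw [h0, In_zero, hx] at h1
  exact h1.symm

theorem DC_cast {C L' : Type} [Group C] [Group L'] (φ ψ : C →* L') (hφ : φ = ψ)
    (N : Rep.{0} ℤ L') (T : Tail N) (j : ℕ) (h : DT (T.res ψ) j) : DT (T.res φ) j := by
  subst hφ
  exact h

theorem DC_main {C St L' : Type} [Group C] [Group St] [Group L'] (E' : CX C St) (E₁ : CX C L')
    (r : St →* L') (hr : ∀ c, r (E'.π c) = E₁.π c) (p : ℕ) [Fact p.Prime]
    (hp : E₁.t ^ p = E'.t) (m : ℕ)
    (h : ∀ B : Rep.{0} ℤ St, Kp p B → ∀ (T : Tail B) (j : ℕ), m ≤ j → DT T j) :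
    Ds p L' ∧ ∀ N : Rep.{0} ℤ L', Kp p N → ∀ (T : Tail N) (j : ℕ), DT (T.res E₁.π) j := by
  have h2 : ∀ N : Rep.{0} ℤ L', Kp p N → ∀ (T : Tail N) (j : ℕ), DT (T.res E₁.π) j := by
    intro N hN T j
    exact DC_cast E₁.π (r.comp E'.π) (MonoidHom.ext fun c => (hr c).symm) N T j
      (DC_C E' E₁ r hr p hp m h N hN T j)
  refine ⟨?_, h2⟩
  obtain ⟨e, he⟩ := GC_main E₁
  intro N hN T j
  induction j using Nat.strong_induction_on with
  | _ j ih =>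
    intro x
    obtain ⟨f, ⟨f₁, hf₁, rfl⟩, h0⟩ := h2 N hN T j (In E₁.π x)
    rw [← In_nat] at h0
    match j, ih, x, h0 with
    | 0, _, x, h0 => exact ⟨f₁, hf₁, he.a0 N _ h0⟩
    | 1, _, x, h0 => exact ⟨f₁, hf₁, he.a1 N _ h0⟩
    | j + 2, ih, x, h0 =>
      obtain ⟨y, hy⟩ := he.a2 N j _ h0
      obtain ⟨f₂, hf₂, h3⟩ := ih j (by omega) y
      refine ⟨f₁ ≫ f₂, T.mul f₁ hf₁ f₂ hf₂, ?_⟩
      have h4 : x.comp (Ext.mk₀ (f₁ ≫ f₂)) (add_zero (j + 2)) =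
          (x.comp (Ext.mk₀ f₁) (add_zero (j + 2))).comp (Ext.mk₀ f₂) (add_zero (j + 2)) := by
        rw [← Ext.mk₀_comp_mk₀]
        exact (Ext.comp_assoc x (Ext.mk₀ f₁) (Ext.mk₀ f₂) (add_zero _) (add_zero 0)
          (by omega)).symm
      rw [h4, hy, DC_assoc, h3, Ext.comp_zero]

end Pool.Agent.H5.PD
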