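import Pool.Agent.H75.CP.InK
import Pool.Agent.H5.ZP.Ma
import Pool.Agent.H5.ZP.Fi

/-!
MP_37b730_gt, Smith theory for Poincare duality groups (project MP_37b730_PD, helper5): definitions.
Paper proof: /team-store/H5_37b730_PD.md.

All modules are objects of `Rep ℤ G` (universe 0) killed by the prime `p`; cohomology is `H^j(G;N) = Ext (tz G) N j`, `tz G` the
trivial module `ℤ`.
-/

namespace Pool.Agent.H5.PD

open CategoryTheory CategoryTheory.Abelian CategoryTheory.Limits Pool.Agent.H5.CP
  Pool.Agent.H75.CP Pool.Agent.H5.ZP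

/-- a morphism of representations from an additive map -/
noncomputable def mkH {k G : Type} [CommRing k] [Group G] {M N : Rep.{0} k G} (f : M.V →+ N.V)
    (hs : ∀ (r : k) (x : M.V), f (r • x) = r • f x)
    (hg : ∀ (g : G) (x : M.V), f (M.ρ g x) = N.ρ g (f x)) : M ⟶ N :=
  Rep.ofHom ⟨{ toFun := f
               map_add' := map_add f
               map_smul' := hs }, fun g => LinearMap.ext fun x => hg g x⟩

theorem mkZ_aux {A B : Type} [AddCommGroup A] [AddCommGroup B] (m₁ : Module ℤ A)
    (m₂ : Module ℤ B) (f : A →+ B) (r : ℤ) (x : A) :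
    f (m₁.toSMul.smul r x) = m₂.toSMul.smul r (f x) := by
  have h := @map_intCast_smul A B _ _ (A →+ B) _ _ f ℤ ℤ _ _ m₁ m₂ r x
  rw [Int.cast_id] at h
  exact h

/-- a morphism of `ℤ`-representations from an additive equivariant map -/
noncomputable def mkZ {G : Type} [Group G] {M N : Rep.{0} ℤ G} (f : M.V →+ N.V)
    (hg : ∀ (g : G) (x : M.V), f (M.ρ g x) = N.ρ g (f x)) : M ⟶ N :=
  mkH f (fun r x => mkZ_aux M.hV2 N.hV2 f r x) hg

theorem mkZ_hom {G : Type} [Group G] {M N : Rep.{0} ℤ G} (f : M.V →+ N.V)
    (hg : ∀ (g : G) (x : M.V), f (M.ρ g x) = N.ρ g (f x)) (x : M.V) :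
    (mkZ f hg).hom x = f x := rfl

/-- restriction (inflation) along `π : H → L` on cohomology -/
noncomputable def In {H L : Type} [Group H] [Group L] (π : H →* L) {B : Rep.{0} ℤ L} {j : ℕ}
    (x : Ext (tz L) B j) : Ext (tz H) (Rep.res π B) j :=
  x.mapExactFunctor (Rep.resFunctor π)

/-- `p` kills `N` -/
def Kp {G : Type} [Group G] (p : ℕ) (N : Rep.{0} ℤ G) : Prop := ∀ x : N.V, p • x = 0

/-- the permutation module `F_p[X]` -/
noncomputable def PX (p : ℕ) (G X : Type) [Group G] [MulAction G X] : Rep.{0} ℤ G :=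
  Rep.of (X := X →₀ ZMod p)
    ({ toFun := fun g => Finsupp.lmapDomain (ZMod p) ℤ (fun x => g • x)
       map_one' := by
        apply LinearMap.ext
        intro f
        show Finsupp.mapDomain _ f = f
        have h : (fun x : X => (1 : G) • x) = id := by
          funext x
          exact one_smul G x
        rw [h, Finsupp.mapDomain_id]
       map_mul' := by
        intro g h
        apply LinearMap.ext
        intro f
        show Finsupp.mapDomain _ f = Finsupp.mapDomain _ (Finsupp.mapDomain _ f)
        rw [← Finsupp.mapDomain_comp]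
        congr 1
        funext x
        exact mul_smul g h x } : Representation ℤ G (X →₀ ZMod p))

theorem PX_ρ (p : ℕ) (G X : Type) [Group G] [MulAction G X] (g : G) (f : X →₀ ZMod p) :
    ((PX p G X).ρ g f : X →₀ ZMod p) = Finsupp.mapDomain (fun x => g • x) f := rfl

/-- the map `F_p[X] → F_p[Y]` of a map of `G`-sets -/
noncomputable def PXm (p : ℕ) {G X Y : Type} [Group G] [MulAction G X] [MulAction G Y]
    (f : X → Y) (hf : ∀ (g : G) (x : X), f (g • x) = g • f x) : PX p G X ⟶ PX p G Y :=
  Rep.ofHom ⟨Finsupp.lmapDomain (ZMod p) ℤ f, by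
    intro g
    apply LinearMap.ext
    intro u
    show Finsupp.mapDomain f (Finsupp.mapDomain _ u) = Finsupp.mapDomain _ (Finsupp.mapDomain f u)
    rw [← Finsupp.mapDomain_comp, ← Finsupp.mapDomain_comp]
    congr 1
    funext x
    exact hf g x⟩

theorem PXm_hom (p : ℕ) {G X Y : Type} [Group G] [MulAction G X] [MulAction G Y]
    (f : X → Y) (hf : ∀ (g : G) (x : X), f (g • x) = g • f x) (u : X →₀ ZMod p) :
    ((PXm p f hf).hom u : Y →₀ ZMod p) = Finsupp.mapDomain f u := rfl

/-- the additive map `F_p[G] → N`, `g ↦ g n`, for a module `N` killed by `p` -/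
noncomputable def PXa (p : ℕ) {G : Type} [Group G] (N : Rep.{0} ℤ G) (hN : Kp p N) (n : N.V) :
    (G →₀ ZMod p) →+ N.V :=
  letI : Module (ZMod p) N.V := AddCommGroup.zmodModule hN
  Finsupp.liftAddHom (fun g : G =>
    ((LinearMap.toSpanSingleton (ZMod p) N.V (N.ρ g n)).toAddMonoidHom : ZMod p →+ N.V))

theorem PXa_single (p : ℕ) {G : Type} [Group G] (N : Rep.{0} ℤ G) (hN : Kp p N) (n : N.V)
    (g : G) (a : ℕ) : PXa p N hN n (Finsupp.single g (a : ZMod p)) = a • N.ρ g n := by
  let _ : Module (ZMod p) N.V := AddCommGroup.zmodModule hN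
  show Finsupp.liftAddHom _ (Finsupp.single g (a : ZMod p)) = _
  rw [Finsupp.liftAddHom_apply_single]
  show (a : ZMod p) • N.ρ g n = a • N.ρ g n
  exact Nat.cast_smul_eq_nsmul (ZMod p) a (N.ρ g n)

/-- the map `F_p[G] → N`, `g ↦ g n`, for a module `N` killed by `p` -/
noncomputable def PXo (p : ℕ) [NeZero p] {G : Type} [Group G] (N : Rep.{0} ℤ G) (hN : Kp p N)
    (n : N.V) : PX p G G ⟶ N :=
  mkZ (M := PX p G G) (PXa p N hN n) (by
    intro g u
    show PXa p N hN n (Finsupp.mapDomain _ u) = N.ρ g (PXa p N hN n u)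
    change G →₀ ZMod p at u
    induction u using Finsupp.induction_linear with
    | zero => rw [Finsupp.mapDomain_zero, map_zero, map_zero]
    | add a b ha hb =>
      rw [Finsupp.mapDomain_add, map_add, map_add, map_add, ha, hb]
    | single a b =>
      rw [Finsupp.mapDomain_single]
      obtain ⟨m, rfl⟩ : ∃ m : ℕ, (m : ZMod p) = b := ⟨b.val, ZMod.natCast_zmod_val b⟩
      rw [PXa_single, PXa_single, map_nsmul]
      show m • N.ρ (g * a) n = m • N.ρ g (N.ρ a n)
      rw [map_mul]
      rfl)

theorem PXo_single (p : ℕ) [NeZero p] {G : Type} [Group G] (N : Rep.{0} ℤ G) (hN : Kp p N)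
    (n : N.V) (g : G) : (PXo p N hN n).hom (Finsupp.single g (1 : ZMod p)) = N.ρ g n := by
  have h := PXa_single p N hN n g 1
  rw [one_smul, Nat.cast_one] at h
  exact h

/-- A system of endomorphisms of `N`, closed under composition, such that every element of `N` is killed by one of them.
(Example: the projections of a direct sum which kill finitely many summands.) -/
structure Tail {G : Type} [Group G] (N : Rep.{0} ℤ G) where
  S : Set (N ⟶ N)
  ne : S.Nonempty
  mul : ∀ e ∈ S, ∀ f ∈ S, e ≫ f ∈ S
  loc : ∀ x : N.V, ∃ e ∈ S, e.hom x = 0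

/-- image of a tail system under restriction along `π` -/
def Tail.res {H L : Type} [Group H] [Group L] (π : H →* L) {N : Rep.{0} ℤ L} (T : Tail N) :
    Tail (Rep.res π N) where
  S := {f | ∃ e ∈ T.S, f = (Rep.resFunctor π).map e}
  ne := by
    obtain ⟨e, he⟩ := T.ne
    exact ⟨_, e, he, rfl⟩
  mul := by
    rintro _ ⟨e, he, rfl⟩ _ ⟨f, hf, rfl⟩
    exact ⟨e ≫ f, T.mul e he f hf, rfl⟩
  loc := by
    intro x
    obtain ⟨e, he, h⟩ := T.loc x
    exact ⟨_, ⟨e, he, rfl⟩, h⟩

/-- the classes in `H^j(G;N)` are killed by the members of the tail system `T` -/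
def DT {G : Type} [Group G] {N : Rep.{0} ℤ G} (T : Tail N) (j : ℕ) : Prop :=
  ∀ x : Ext (tz G) N j, ∃ e ∈ T.S, x.comp (Ext.mk₀ e) (add_zero j) = 0

/-- the cohomology of `G` with coefficients killed by `p` is killed by tail systems, in all degrees -/
def Ds (p : ℕ) (G : Type) [Group G] : Prop :=
  ∀ N : Rep.{0} ℤ G, Kp p N → ∀ (T : Tail N) (j : ℕ), DT T j

/-- `card H^j(G;F_p[G])` -/
noncomputable def hc (p : ℕ) (G : Type) [Group G] (j : ℕ) : ℕ :=
  Nat.card (Ext (tz G) (PX p G G) j)

/-- the data carried along the chain of centralisers -/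
structure Lv (p n : ℕ) {H L : Type} [Group H] [Group L] (E : CX H L) : Prop where
  cd : CD (ZMod p) H n
  ds : Ds p L
  dv : ∀ N : Rep.{0} ℤ L, Kp p N → ∀ (T : Tail N) (j : ℕ), DT (T.res E.π) j
  fin : ∀ j, Finite (Ext (tz H) (PX p H H) j)
  size : ∏ j ∈ Finset.range n, hc p H j ≤ p

/-- the finitely supported elements of the module coinduced from `S` -/
noncomputable def c0 {k G : Type} [CommRing k] [Group G] (S : Subgroup G) (B : Rep.{0} k S) :
    Submodule k (Rep.coind S.subtype B).V where
  carrier := {f | ∃ F : Set G, F.Finite ∧ ∀ x, f.1 x ≠ 0 → ∃ a ∈ F, ∃ s : S, x = s * a}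
  zero_mem' := ⟨∅, Set.finite_empty, fun x hx => absurd rfl hx⟩
  add_mem' := by
    rintro f g ⟨F, hF, h1⟩ ⟨F', hF', h2⟩
    refine ⟨F ∪ F', hF.union hF', fun x hx => ?_⟩
    by_cases h : f.1 x = 0
    · have h3 : g.1 x ≠ 0 := by
        intro h4
        apply hx
        show f.1 x + g.1 x = 0
        rw [h, h4, add_zero]
      obtain ⟨a, ha, s, hs⟩ := h2 x h3
      exact ⟨a, Or.inr ha, s, hs⟩
    · obtain ⟨a, ha, s, hs⟩ := h1 x h
      exact ⟨a, Or.inl ha, s, hs⟩
  smul_mem' := by
    rintro r f ⟨F, hF, h1⟩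
    refine ⟨F, hF, fun x hx => h1 x ?_⟩
    intro h
    apply hx
    show r • f.1 x = 0
    rw [h, smul_zero]

theorem c0_stable {k G : Type} [CommRing k] [Group G] (S : Subgroup G) (B : Rep.{0} k S) (g : G) :
    c0 S B ≤ (c0 S B).comap ((Rep.coind S.subtype B).ρ g) := by
  rintro f ⟨F, hF, h⟩
  refine ⟨(fun a => a * g⁻¹) '' F, hF.image _, fun x hx => ?_⟩
  obtain ⟨a, ha, s, hs⟩ := h (x * g) hx
  refine ⟨a * g⁻¹, ⟨a, ha, rfl⟩, s, ?_⟩
  rw [← mul_assoc, ← hs, mul_inv_cancel_right]

/-- the (finitely supported) induced module, inside the coinduced one -/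
noncomputable def C0 {k G : Type} [CommRing k] [Group G] (S : Subgroup G) (B : Rep.{0} k S) : Rep.{0} k G :=
  (Rep.coind S.subtype B).subrepresentation (c0 S B) (c0_stable S B)

/-- the inclusion -/
noncomputable def C0i {k G : Type} [CommRing k] [Group G] (S : Subgroup G) (B : Rep.{0} k S) :
    C0 S B ⟶ Rep.coind S.subtype B :=
  Rep.subtype (Rep.coind S.subtype B) (c0 S B) (c0_stable S B)

/-- the quotient of the coinduced module by the induced one -/
noncomputable def CQ {k G : Type} [CommRing k] [Group G] (S : Subgroup G) (B : Rep.{0} k S) : Rep.{0} k G :=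
  (Rep.coind S.subtype B).quotient (c0 S B) (c0_stable S B)

/-- the projection -/
noncomputable def CQp {k G : Type} [CommRing k] [Group G] (S : Subgroup G) (B : Rep.{0} k S) :
    Rep.coind S.subtype B ⟶ CQ S B :=
  Rep.mkQ (Rep.coind S.subtype B) (c0 S B) (c0_stable S B)

/-- evaluation at `1` -/
noncomputable def cev {k G : Type} [CommRing k] [Group G] (S : Subgroup G) (B : Rep.{0} k S) :
    Rep.res S.subtype (Rep.coind S.subtype B) ⟶ B :=
  Rep.ofHom ⟨{ toFun := fun f => f.1 1
               map_add' := fun _ _ => rfl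
               map_smul' := fun _ _ => rfl }, by
    intro s
    apply LinearMap.ext
    intro f
    show f.1 (1 * (s : G)) = B.ρ s (f.1 1)
    have h := f.2 s 1
    rw [one_mul]
    rw [mul_one] at h
    exact h⟩

/-- evaluation at `1` on the induced module -/
noncomputable def c0ev {k G : Type} [CommRing k] [Group G] (S : Subgroup G) (B : Rep.{0} k S) :
    Rep.res S.subtype (C0 S B) ⟶ B :=
  (Rep.resFunctor S.subtype).map (C0i S B) ≫ cev S B

/-- functoriality of the induced module -/
noncomputable def C0m {k G : Type} [CommRing k] [Group G] (S : Subgroup G) {B B' : Rep.{0} k S} (e : B ⟶ B') :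
    C0 S B ⟶ C0 S B' :=
  Rep.ofHom ⟨{ toFun := fun f => ⟨⟨fun x => e.hom (f.1.1 x), by
                  intro s x
                  have h := f.1.2 s x
                  show e.hom (f.1.1 (s.1 * x)) = B'.ρ s (e.hom (f.1.1 x))
                  rw [← Rep.hom_comm_apply]
                  exact congrArg e.hom h⟩, by
                  obtain ⟨F, hF, h⟩ := f.2
                  refine ⟨F, hF, fun x hx => h x ?_⟩
                  intro h0
                  apply hx
                  show e.hom (f.1.1 x) = 0
                  rw [h0, map_zero]⟩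
               map_add' := by
                intro f g
                apply Subtype.ext
                apply Subtype.ext
                funext x
                exact map_add e.hom _ _
               map_smul' := by
                intro r f
                apply Subtype.ext
                apply Subtype.ext
                funext x
                exact map_smul e.hom _ _ }, by
    intro g
    apply LinearMap.ext
    intro f
    rfl⟩

theorem C0_cev {k G : Type} [CommRing k] [Group G] (S : Subgroup G) (B : Rep.{0} k S) (f : (C0 S B).V) :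
    (c0ev S B).hom f = f.1.1 1 := rfl

end Pool.Agent.H5.PD
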