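import Pool.Agent.H5.CP.Defs

/-!
MP_37b730_gt, project MP_37b730_PD (helper5): Poincare duality groups over a ring `k`.
-/

namespace Pool.Agent.H5.PD

open CategoryTheory CategoryTheory.Limits Pool.Agent.H5.CP

/-- `G` is a Poincare duality group of dimension `c` over `k`: of type FP over `k` (type `FP_∞` and `cd_k G ≤ c`), and
`H^j(G;k[G])` is `0` for `j ≠ c` and isomorphic to `k` for `j = c`. -/
def IsPD (k G : Type) [CommRing k] [Group G] (c : ℕ) : Prop :=
  (∀ m, FPm k G m (Rep.trivial k G k)) ∧ CD k G (c + 1) ∧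
    (∀ j, j ≠ c → IsZero (groupCohomology (Rep.leftRegular k G) j)) ∧
      Nonempty (groupCohomology (Rep.leftRegular k G) c ≃+ k)

end Pool.Agent.H5.PD
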