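import Pool.Agent.H5.PD.Df
import Pool.Agent.H5.PD.DfP

/-!
MP_37b730_gt, project MP_37b730_PD (helper5): definitions for Poincare duality groups over a ring `k`.
-/

namespace Pool.Agent.H5.PD

open CategoryTheory CategoryTheory.Abelian CategoryTheory.Limits Pool.Agent.H5.CP
  Pool.Agent.H75.CP Pool.Agent.H5.ZP

/-- tail systems over a general ring (see `Tail`) -/
structure TailK {k G : Type} [CommRing k] [Group G] (N : Rep.{0} k G) where
  S : Set (N ⟶ N)
  ne : S.Nonempty
  mul : ∀ e ∈ S, ∀ f ∈ S, e ≫ f ∈ S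
  loc : ∀ x : N.V, ∃ e ∈ S, e.hom x = 0

/-- the functor `resZ` (underlying `ℤ`-representation) -/
noncomputable def Rz (k G : Type) [CommRing k] [Group G] : Rep.{0} k G ⥤ Rep.{0} ℤ G where
  obj := fun A => resZ A
  map := fun {A B} f => mkZ (M := resZ A) (N := resZ B) (f.hom.toLinearMap.toAddMonoidHom)
    (fun g x => Rep.hom_comm_apply f g x)
  map_id := fun A => by
    ext x
    rfl
  map_comp := fun f g => by
    ext x
    rfl

theorem Rz_hom {k G : Type} [CommRing k] [Group G] {A B : Rep.{0} k G} (f : A ⟶ B) (x : A.V) :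
    ((Rz k G).map f).hom x = f.hom x := rfl

instance Rz_add (k G : Type) [CommRing k] [Group G] : (Rz k G).Additive where
  map_add {X Y} f g := by
    ext x
    rfl

/-- `ℤ → k`, `1 ↦ 1`, as a map of trivial modules -/
noncomputable def zk (k G : Type) [CommRing k] [Group G] :
    tz G ⟶ (Rz k G).obj (Rep.trivial k G k) :=
  mkZ (M := tz G) (N := resZ (Rep.trivial k G k)) (Int.castAddHom k) (fun _ _ => rfl)

end Pool.Agent.H5.PD
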