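import Pool.Agent.H5.PD.DfP
import Pool.Agent.H5.ZP.Zs

/-!
MP_37b730_gt, project MP_37b730_PD (helper5): the exotic subgroups.
-/

namespace Pool.Agent.H5.PD

open Pool.Agent.H5.CP Pool.Agent.H5.ZP

/-- `Δ` is a finitely generated subgroup of the `d`-dimensional Poincare duality group `Γ`, a Poincare duality group of
dimension `c` over `F_p`, the centraliser of an element of the subgroup `A ≅ ℤ[1/p]`, which is central in `Δ`; with the
numerical restrictions proved. -/
structure Exo (Γ : Type) [Group Γ] (d p c : ℕ) (Δ A : Subgroup Γ) : Prop where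
  fg : Δ.FG
  pd : IsPD (ZMod p) Δ c
  le : A ≤ Δ
  cent : ∀ a ∈ A, ∀ g ∈ Δ, g * a = a * g
  cen : ∃ u ∈ A, Δ = Subgroup.centralizer {u}
  iso : Nonempty (A ≃* Multiplicative (Zp p))
  dim : c ≤ d
  parity : c % 2 = d % 2
  top : c = d → Δ = ⊤
  rank : ∀ (r : ℕ) (φ : Multiplicative (Fin r → ℤ) →* Δ),
    (∀ v, (φ v : Γ) ∈ A → v = 1) → r + 3 ≤ c

end Pool.Agent.H5.PD
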