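import Pool.Agent.H5.PD.GQ

/-!
Module GC (row PDGC).  The Gysin properties for `E : CX H L`.  Use only the STATEMENTS of GQ, Na.
`S = zpowers E.t` is normal (`Gy_normal`, H5/ZP/Gy.lean); `θ : H ⧸ S ≃* L` with `θ ∘ mk' S = E.π` (`QuotientGroup.quotientMulEquivOfEq`, `quotientKerEquivOfSurjective`; see `VMa_main`, `Gy_equiv`).  `e'` from `GQ_main`; `e` with `In θ e = e'` (`In_bij`).
For `B : Rep ℤ L` let `B' = Rep.res θ B`.  `In (mk' S) (In θ x) = In E.π x` (`In_comp`; `θ.toMonoidHom.comp (mk' S) = E.π`: the modules `Rep.res (mk' S) (Rep.res θ B)` and `Rep.res E.π B` agree by `rfl` if `θ (mk' S h)` reduces to `E.π h`, otherwise generalise over a homomorphism `φ` with `hφ : φ = θ.comp (mk' S)` and `subst`).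
Each property for `B` follows from that for `B'` by the bijections `In_bij` and `In_mul` (`In θ (e.comp y) = e'.comp (In θ y)`).
-/

namespace Pool.Agent.H5.PD

open CategoryTheory CategoryTheory.Abelian CategoryTheory.Limits Pool.Agent.H5.CP
  Pool.Agent.H75.CP Pool.Agent.H5.ZP

theorem GC_inj {H L : Type} [Group H] [Group L] (θ : H ≃* L) (B : Rep.{0} ℤ L) (j : ℕ)
    (x : Ext (tz L) B j) (h : In θ.toMonoidHom x = 0) : x = 0 := by
  apply (In_bij θ B j).1
  show In θ.toMonoidHom x = In θ.toMonoidHom 0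
  rw [h, In_zero]

theorem GC_tr {H K L : Type} [Group H] [Group K] [Group L] (σ : H →* K) (θ : K ≃* L)
    (e' : Ext (tz K) (tz K) 2) (hG : Gyn σ e') (e : Ext (tz L) (tz L) 2)
    (he : (In θ.toMonoidHom e : Ext (tz K) (tz K) 2) = e') :
    Gyn (θ.toMonoidHom.comp σ) e := by
  have hmul : ∀ (B : Rep.{0} ℤ L) (j : ℕ) (y : Ext (tz L) B j),
      In θ.toMonoidHom (e.comp y (add_comm 2 j)) =
        Ext.comp e' (In θ.toMonoidHom y) (add_comm 2 j) := by
    intro B j y
    rw [In_mul θ.toMonoidHom e y (add_comm 2 j), he]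
    rfl
  refine ⟨?_, ?_, ?_, ?_, ?_⟩
  · rw [← In_comp]
    have h1 : In σ (In θ.toMonoidHom e) = In σ e' := congrArg (In (B := tz K) σ) he
    rw [h1]
    exact hG.ez
  · intro B x hx
    rw [← In_comp] at hx
    exact GC_inj θ B 0 x (hG.a0 (Rep.res θ.toMonoidHom B) _ hx)
  · intro B x hx
    rw [← In_comp] at hx
    exact GC_inj θ B 1 x (hG.a1 (Rep.res θ.toMonoidHom B) _ hx)
  · intro B j x hx
    rw [← In_comp] at hx
    obtain ⟨y', hy'⟩ := hG.a2 (Rep.res θ.toMonoidHom B) j _ hx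
    obtain ⟨y, hy⟩ := (In_bij θ B j).2 y'
    refine ⟨y, ?_⟩
    apply (In_bij θ B (j + 2)).1
    show In θ.toMonoidHom x = In θ.toMonoidHom (e.comp y (add_comm 2 j))
    rw [hmul, hy']
    have hy2 : In θ.toMonoidHom y = y' := hy
    rw [hy2]
  · intro B j hw y hy
    apply GC_inj θ B j y
    refine hG.b (Rep.res θ.toMonoidHom B) j ?_ _ ?_
    · intro w
      obtain ⟨x, hx⟩ := hw w
      refine ⟨In θ.toMonoidHom x, ?_⟩
      rw [← In_comp] at hx
      exact hx
    · rw [← hmul, hy, In_zero]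

theorem GC_main {H L : Type} [Group H] [Group L] (E : CX H L) :
    ∃ e : Ext (tz L) (tz L) 2, Gyn E.π e := by
  have hn : (Subgroup.zpowers E.t).Normal := Gy_normal E
  have hk : Subgroup.zpowers E.t = E.π.ker := by
    ext x
    rw [MonoidHom.mem_ker, E.ker, Subgroup.mem_zpowers_iff]
    constructor
    · rintro ⟨n, hn⟩
      exact ⟨n, hn.symm⟩
    · rintro ⟨n, hn⟩
      exact ⟨n, hn.symm⟩
  obtain ⟨e', hG⟩ := GQ_main E.t E.cent E.inf
  let θ : (H ⧸ Subgroup.zpowers E.t) ≃* L := (QuotientGroup.quotientMulEquivOfEq hk).trans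
    (QuotientGroup.quotientKerEquivOfSurjective E.π E.surj)
  obtain ⟨e, he⟩ := (In_bij θ (tz L) 2).2 e'
  refine ⟨e, ?_⟩
  have h2 : θ.toMonoidHom.comp (QuotientGroup.mk' (Subgroup.zpowers E.t)) = E.π := by
    ext h
    rfl
  have h3 := GC_tr (QuotientGroup.mk' (Subgroup.zpowers E.t)) θ e' hG e he
  rw [h2] at h3
  exact h3

end Pool.Agent.H5.PD
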