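import Pool.Agent.H5.PD.AB
import Pool.Agent.H5.PD.DE

/-!
Module GQ (row PDGQ).  The Gysin sequence of `H → L = H/⟨t⟩`, `t` central of infinite order, `S = ⟨t⟩`.  Use only the STATEMENTS of AB, DE, Na.
`I = kernel (aug ℤ H)` satisfies `TReg t` (`AugE_ker`), `C` the class of `TRegC_main ℤ t`, `adj = (QAdj_main ℤ S).some`, `η : I ⟶ Infl I_S` the unit, `I_S = (QF ℤ S).obj I`, `J = kernel (aug ℤ L)`; `0 → ℤ → I_S → J → 0` exact with maps `ι, a` (`ABs_main ℤ t`; for the explicit form of `a`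
 use `IsAB`/`GDef`, H5/CP/EDef.lean and `EulN`/`GysD`: `∃ e, IsEul S j e`, or define `a` by `ABs_β`).  `e = extClass(aug L).comp extClass(ι,a)`.
 `κ : I ⟶ Infl J`, `κ = η ≫ Infl(a)`, is the map `h - 1 ↦ π(h) - 1`, and `extClass(aug H).comp (mk₀ κ) = extClass(Infl aug L)` (`extClass_naturality` for `aug H → Infl (aug L)`, identity on `ℤ`).   `Θ(y) = (mk₀ η).comp (Infl y)` (`AB_main`, bijective).
 KEY: for `y ∈ Ext^m(J,B)`: `In π (extClass(aug L).comp y) = extClass(aug H).comp (Θ((mk₀ a).comp y))`.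
`ez`: `In π e = extClass(aug H).comp (mk₀ η).comp (mk₀ Infl a).comp (extClass(Infl(ι,a))) = 0` (`g` followed by `extClass` is `0`: `ShortExact.comp_extClass`).
`a0`: `In_zero_inj`.   `a1`: `DE_ex`, `DE_In`, `DE_zero`: `f(π h) = h n - n` for all `h`, `π` onto (`DE_zero` for `L`).
`a2`: `x = extClass(aug L).comp y`, `y ∈ Ext^(j+1)(J,B)`; `In π x = 0` gives by KEY `Θ((mk₀ a).comp y) = 0` (`Ext^(j+1)(ℤ[H], ·) = 0`, `Ext.contravariant_sequence_exact₁`), so `(mk₀ a).comp y = 0`, `y = extClass(ι,a).comp z`.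
`b`: `e.comp y = 0`: `z = extClass(ι,a).comp y ∈ Ext^(j+1)(J,B)` has `extClass(aug L).comp z = 0`, so `z = 0` (`Ext^(j+1)(ℤ[L],B) = 0`), so `y = (mk₀ ι).comp w`, `w ∈ Ext^j(I_S,B)`.  `extClass(aug H).comp Θ(w) = In π x` for some `x` (hypothesis), `x = extClass(aug L).comp u`, so by KEY
 `extClass(aug H).comp Θ(w - (mk₀ a).comp u) = 0`, so `Θ(w - (mk₀ a).comp u)` is the restriction of some `ζ ∈ Ext^j(ℤ[H], Infl B)`.  If `j ≥ 1`: `ζ = 0`, `w = (mk₀ a).comp u`, `y = (mk₀ ι).comp (mk₀ a).comp u = 0`.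
 If `j = 0`: `ζ` is a homomorphism, `ζ(1) = b`; the restriction of `ζ` to `I` is `κ ≫ Infl(ζ')`, `ζ' : J → B` the restriction of `ℤ[L] → B`, `1 ↦ b`; so it is `Θ((mk₀ a).comp (mk₀ ζ'))` and again `w = (mk₀ a).comp (…)`, `y = 0`.
-/

namespace Pool.Agent.H5.PD

open CategoryTheory CategoryTheory.Abelian CategoryTheory.Limits Pool.Agent.H5.CP
  Pool.Agent.H75.CP Pool.Agent.H5.ZP

/-- the adjunction with explicit unit -/
noncomputable def GQ_adj' (k : Type) {G : Type} [CommRing k] [Group G] (S : Subgroup G)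
    [S.Normal] : QF k S ⊣ Infl k S :=
  Adjunction.mkOfUnitCounit
    { unit := { app := fun M => QAdj_unit S M
                naturality := by
                  intro M N f
                  ext x
                  rfl }
      counit := { app := fun N => QAdj_counit S N
                  naturality := by
                    intro M N f
                    ext y
                    obtain ⟨x, rfl⟩ := qmk_surjective S ((Infl k S).obj M) y
                    rfl }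
      left_triangle := by
        ext M y
        obtain ⟨x, rfl⟩ := qmk_surjective S M y
        rfl
      right_triangle := by
        ext N x
        rfl }

/-- the adjunction over `ℤ` -/
noncomputable def GQ_adj {G : Type} [Group G] (S : Subgroup G) [S.Normal] :
    QF ℤ S ⊣ Infl ℤ S := GQ_adj' ℤ S

theorem GQ_lrh {k G : Type} [CommRing k] [Group G] (B : Rep.{0} k G) (b : B.V) (g : G) :
    (Rep.leftRegularHom B b).hom (MonoidAlgebra.single g 1 : MonoidAlgebra k G) = B.ρ g b := by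
  rw [Rep.leftRegularHom_hom_single, one_smul]

theorem GQ_unit {G : Type} [Group G] (S : Subgroup G) [S.Normal] (M : Rep.{0} ℤ G) :
    (GQ_adj S).unit.app M = QAdj_unit S M := rfl

theorem GQ_kap {Γ A : Type} [Group Γ] [AddCommGroup A] (S : Subgroup Γ) [S.Normal]
    (j : Multiplicative A →* Γ)
    (ι : Rep.trivial ℤ (Γ ⧸ S) A ⟶ (QF ℤ S).obj (kernel (aug ℤ Γ)))
    (a : (QF ℤ S).obj (kernel (aug ℤ Γ)) ⟶ kernel (aug ℤ (Γ ⧸ S))) (h : IsAB S j ι a) :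
    QAdj_unit S (kernel (aug ℤ Γ)) ≫ (Infl ℤ S).map a = EulN_k ℤ (QuotientGroup.mk' S) := by
  refine Rep.hom_ext ?_
  refine DFunLike.ext _ _ fun x => ?_
  refine ABs_ι_inj _ _ ?_
  show (kernel.ι (aug ℤ (Γ ⧸ S))).hom (a.hom (qmk S _ x)) =
    (kernel.ι (aug ℤ (Γ ⧸ S))).hom ((EulN_k ℤ (QuotientGroup.mk' S)).hom x)
  rw [EulN_k_apply, h.ha]
  rfl

theorem GQ_nat {H L : Type} [Group H] [Group L] (φ : H →* L) :
    ((AugE_exact ℤ H).extClass.comp (Ext.mk₀ (EulN_k ℤ φ)) (add_zero 1) :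
      Ext (tz H) (Rep.res φ (kernel (aug ℤ L))) 1) =
        In φ (B := kernel (aug ℤ L)) (AugE_exact ℤ L).extClass := by
  let m1 : augSC ℤ H ⟶ (augSC ℤ L).map (Rep.resFunctor φ) :=
    { τ₁ := EulN_k ℤ φ
      τ₂ := EulN_r ℤ φ
      τ₃ := EulN_t ℤ φ
      comm₁₂ := EulN_k_ι _
      comm₂₃ := EulN_rt _ }
  have n1 := ShortComplex.ShortExact.extClass_naturality (AugE_exact ℤ H)
    ((AugE_exact ℤ L).map_of_exact (Rep.resFunctor φ)) m1
  have k1 := Ext.mapExactFunctor_extClass (Rep.resFunctor φ) (AugE_exact ℤ L)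
  rw [← k1] at n1
  refine n1.trans ?_
  exact Ext.mk₀_id_comp _

/-- the class in the augmentation sequence -/
noncomputable def ae (G : Type) [Group G] : Ext (tz G) (kernel (aug ℤ G)) 1 :=
  (AugE_exact ℤ G).extClass

section

variable {H : Type} [Group H] (S : Subgroup H) [S.Normal]

/-- the map `Θ` -/
noncomputable def GQ_T {B : Rep.{0} ℤ (H ⧸ S)} {n : ℕ}
    (y : Ext ((QF ℤ S).obj (kernel (aug ℤ H))) B n) :
    Ext (kernel (aug ℤ H)) (Rep.res (QuotientGroup.mk' S) B) n :=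
  (Ext.mk₀ ((GQ_adj S).unit.app (kernel (aug ℤ H)))).comp (y.mapExactFunctor (Infl ℤ S))
    (zero_add n)

theorem GQ_key {A : Type} [AddCommGroup A]
    (j : Multiplicative A →* H)
    (ι : Rep.trivial ℤ (H ⧸ S) A ⟶ (QF ℤ S).obj (kernel (aug ℤ H)))
    (a : (QF ℤ S).obj (kernel (aug ℤ H)) ⟶ kernel (aug ℤ (H ⧸ S))) (h : IsAB S j ι a)
    {B : Rep.{0} ℤ (H ⧸ S)} {m n : ℕ} (hn : 1 + m = n) (y : Ext (kernel (aug ℤ (H ⧸ S))) B m) :
    In (QuotientGroup.mk' S) ((ae (H ⧸ S)).comp y hn) =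
      (ae H).comp (GQ_T S ((Ext.mk₀ a).comp y (zero_add m))) hn := by
  have h1 : In (QuotientGroup.mk' S) ((ae (H ⧸ S)).comp y hn) =
      (In (QuotientGroup.mk' S) (ae (H ⧸ S))).comp
        (y.mapExactFunctor (Rep.resFunctor (QuotientGroup.mk' S)) :
          Ext (Rep.res (QuotientGroup.mk' S) (kernel (aug ℤ (H ⧸ S))))
            (Rep.res (QuotientGroup.mk' S) B) m) hn :=
    Ext.mapExactFunctor_comp _ _ _ hn
  have h2 : In (QuotientGroup.mk' S) (ae (H ⧸ S)) =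
      ((ae H).comp (Ext.mk₀ (EulN_k ℤ (QuotientGroup.mk' S))) (add_zero 1) :
        Ext (tz H) (Rep.res (QuotientGroup.mk' S) (kernel (aug ℤ (H ⧸ S)))) 1) :=
    (GQ_nat (QuotientGroup.mk' S)).symm
  rw [h1, h2, Ext.comp_assoc_of_second_deg_zero]
  congr 1
  rw [← GQ_kap S j ι a h]
  unfold GQ_T
  rw [Ext.mapExactFunctor_comp, Ext.mapExactFunctor_mk₀, GQ_unit, ← Ext.mk₀_comp_mk₀,
    Ext.comp_assoc_of_second_deg_zero]

theorem GQ_T_zero {B : Rep.{0} ℤ (H ⧸ S)} {n : ℕ} :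
    GQ_T S (0 : Ext ((QF ℤ S).obj (kernel (aug ℤ H))) B n) = 0 := by
  unfold GQ_T
  rw [Ext.mapExactFunctor_zero, Ext.comp_zero]

theorem GQ_T_add {B : Rep.{0} ℤ (H ⧸ S)} {n : ℕ}
    (x y : Ext ((QF ℤ S).obj (kernel (aug ℤ H))) B n) :
    GQ_T S (x + y) = GQ_T S x + GQ_T S y := by
  unfold GQ_T
  rw [Ext.mapExactFunctor_add, Ext.comp_add]

theorem GQ_ext0 {A : Type} [AddCommGroup A]
    (j : Multiplicative A →* H)
    (ι : Rep.trivial ℤ (H ⧸ S) A ⟶ (QF ℤ S).obj (kernel (aug ℤ H)))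
    (a : (QF ℤ S).obj (kernel (aug ℤ H)) ⟶ kernel (aug ℤ (H ⧸ S))) (h : IsAB S j ι a)
    (B : Rep.{0} ℤ (H ⧸ S)) (z : Rep.leftRegular ℤ H ⟶ (Infl ℤ S).obj B) :
    kernel.ι (aug ℤ H) ≫ z = QAdj_unit S (kernel (aug ℤ H)) ≫ (Infl ℤ S).map (a ≫
      kernel.ι (aug ℤ (H ⧸ S)) ≫ Rep.leftRegularHom B
        (z.hom (MonoidAlgebra.single 1 1 : MonoidAlgebra ℤ H))) := by
  refine DE_gen ((Infl ℤ S).obj B) _ _ fun u g hu => ?_
  show z.hom ((kernel.ι (aug ℤ H)).hom u) = (Rep.leftRegularHom B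
        (z.hom (MonoidAlgebra.single 1 1 : MonoidAlgebra ℤ H))).hom
          ((kernel.ι (aug ℤ (H ⧸ S))).hom (a.hom (qmk S _ u)))
  rw [h.ha, hu]
  have h1 : ABs_π ℤ S (MonoidAlgebra.single g 1 - MonoidAlgebra.single 1 1 :
        MonoidAlgebra ℤ H) = (MonoidAlgebra.single (QuotientGroup.mk g) 1 -
          MonoidAlgebra.single 1 1 : MonoidAlgebra ℤ (H ⧸ S)) := by
    rw [map_sub, ABs_π_single, ABs_π_single]
    rfl
  rw [h1]
  refine (map_sub z.hom _ _).trans ?_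
  refine Eq.trans ?_ (map_sub (Rep.leftRegularHom B
        (z.hom (MonoidAlgebra.single 1 1 : MonoidAlgebra ℤ H))).hom _ _).symm
  rw [GQ_lrh, GQ_lrh, map_one]
  have h2 : z.hom (MonoidAlgebra.single g 1 : MonoidAlgebra ℤ H) =
      B.ρ (QuotientGroup.mk g) (z.hom (MonoidAlgebra.single 1 1 : MonoidAlgebra ℤ H)) := by
    have h3 := Rep.hom_comm_apply z g (MonoidAlgebra.single 1 1 : MonoidAlgebra ℤ H)
    rw [ABs_ρ_single, mul_one] at h3
    exact h3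
  rw [h2]
  rfl

theorem GQ_ext {A : Type} [AddCommGroup A]
    (j : Multiplicative A →* H)
    (ι : Rep.trivial ℤ (H ⧸ S) A ⟶ (QF ℤ S).obj (kernel (aug ℤ H)))
    (a : (QF ℤ S).obj (kernel (aug ℤ H)) ⟶ kernel (aug ℤ (H ⧸ S))) (h : IsAB S j ι a)
    (B : Rep.{0} ℤ (H ⧸ S)) (n : ℕ)
    (ζ : Ext (Rep.leftRegular ℤ H) (Rep.res (QuotientGroup.mk' S) B) n) :
    ∃ u : Ext (kernel (aug ℤ (H ⧸ S))) B n,
      (Ext.mk₀ (kernel.ι (aug ℤ H))).comp ζ (zero_add n) =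
        GQ_T S ((Ext.mk₀ a).comp u (zero_add n)) := by
  rcases n with _ | n
  · obtain ⟨z, rfl⟩ : ∃ z, Ext.mk₀ z = ζ := ⟨Ext.homEquiv₀ ζ, Ext.mk₀_homEquiv₀_apply ζ⟩
    refine ⟨Ext.mk₀ (kernel.ι (aug ℤ (H ⧸ S)) ≫ Rep.leftRegularHom B
        (z.hom (MonoidAlgebra.single 1 1 : MonoidAlgebra ℤ H))), ?_⟩
    unfold GQ_T
    rw [Ext.mk₀_comp_mk₀, Ext.mk₀_comp_mk₀, Ext.mapExactFunctor_mk₀, GQ_unit,
      Ext.mk₀_comp_mk₀]
    exact congrArg Ext.mk₀ (GQ_ext0 S j ι a h B z)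
  · refine ⟨0, ?_⟩
    rw [Ext.eq_zero_of_projective ζ, Ext.comp_zero, Ext.comp_zero, GQ_T_zero]

end

theorem GQ_lift {G : Type} [Group G] (N : Rep.{0} ℤ G) (n : ℕ) (x : Ext (tz G) N (n + 1)) :
    ∃ y : Ext (kernel (aug ℤ G)) N n, (ae G).comp y (add_comm 1 n) = x := by
  have hP : Projective (augSC ℤ G).X₂ := inferInstanceAs (Projective (Rep.leftRegular ℤ G))
  exact Ext.contravariant_sequence_exact₃ (AugE_exact ℤ G) N x (Ext.eq_zero_of_projective _)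
    (add_comm 1 n)

theorem GQ_ker {G : Type} [Group G] (N : Rep.{0} ℤ G) {m n : ℕ}
    (y : Ext (kernel (aug ℤ G)) N n) (h : 1 + n = m) (h0 : (ae G).comp y h = 0) :
    ∃ z : Ext (Rep.leftRegular ℤ G) N n,
      (Ext.mk₀ (kernel.ι (aug ℤ G))).comp z (zero_add n) = y :=
  Ext.contravariant_sequence_exact₁ (AugE_exact ℤ G) N y h h0

theorem GQ_ker' {G : Type} [Group G] (N : Rep.{0} ℤ G) {m n : ℕ}
    (y : Ext (kernel (aug ℤ G)) N (n + 1)) (h : 1 + (n + 1) = m) (h0 : (ae G).comp y h = 0) :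
    y = 0 := by
  obtain ⟨z, hz⟩ := GQ_ker N y h h0
  rw [← hz, Ext.eq_zero_of_projective z, Ext.comp_zero]

section

variable {H : Type} [Group H] (S : Subgroup H) [S.Normal]

theorem GQ_a2 {A : Type} [AddCommGroup A]
    (j : Multiplicative A →* H)
    (ι : Rep.trivial ℤ (H ⧸ S) A ⟶ (QF ℤ S).obj (kernel (aug ℤ H)))
    (a : (QF ℤ S).obj (kernel (aug ℤ H)) ⟶ kernel (aug ℤ (H ⧸ S))) (h : IsAB S j ι a)
    (w : ι ≫ a = 0) (hS : (ShortComplex.mk ι a w).ShortExact)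
    (hinj : ∀ (B : Rep.{0} ℤ (H ⧸ S)) (n : ℕ), Function.Injective
      (fun y : Ext ((QF ℤ S).obj (kernel (aug ℤ H))) B n => GQ_T S y))
    (B : Rep.{0} ℤ (H ⧸ S)) (n : ℕ) (x : Ext (tz (H ⧸ S)) B (n + 2))
    (hx : In (QuotientGroup.mk' S) x = 0) :
    ∃ y : Ext (Rep.trivial ℤ (H ⧸ S) A) B n,
      x = ((ae (H ⧸ S)).comp hS.extClass (show 1 + 1 = 2 from rfl)).comp y (add_comm 2 n) := by
  obtain ⟨u, hu⟩ := GQ_lift B (n + 1) x
  have h1 : (ae H).comp (GQ_T S ((Ext.mk₀ a).comp u (zero_add (n + 1)))) (add_comm 1 (n + 1)) =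
      0 := by
    rw [← GQ_key S j ι a h (add_comm 1 (n + 1)) u, hu, hx]
  have h2 := GQ_ker' _ _ _ h1
  have h3 : (Ext.mk₀ a).comp u (zero_add (n + 1)) = 0 :=
    hinj B (n + 1) (h2.trans (GQ_T_zero S).symm)
  obtain ⟨z, hz⟩ := Ext.contravariant_sequence_exact₃ hS B u h3 (add_comm 1 n)
  refine ⟨z, ?_⟩
  rw [← hu, ← hz]
  exact (Ext.comp_assoc _ _ _ _ _ (by omega)).symm

theorem GQ_b {A : Type} [AddCommGroup A]
    (j : Multiplicative A →* H)
    (ι : Rep.trivial ℤ (H ⧸ S) A ⟶ (QF ℤ S).obj (kernel (aug ℤ H)))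
    (a : (QF ℤ S).obj (kernel (aug ℤ H)) ⟶ kernel (aug ℤ (H ⧸ S))) (h : IsAB S j ι a)
    (w : ι ≫ a = 0) (hS : (ShortComplex.mk ι a w).ShortExact)
    (hinj : ∀ (B : Rep.{0} ℤ (H ⧸ S)) (n : ℕ), Function.Injective
      (fun y : Ext ((QF ℤ S).obj (kernel (aug ℤ H))) B n => GQ_T S y))
    (B : Rep.{0} ℤ (H ⧸ S)) (n : ℕ)
    (hsurj : ∀ v : Ext (tz H) (Rep.res (QuotientGroup.mk' S) B) (n + 1),
      ∃ x : Ext (tz (H ⧸ S)) B (n + 1), In (QuotientGroup.mk' S) x = v)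
    (y : Ext (Rep.trivial ℤ (H ⧸ S) A) B n)
    (hy : ((ae (H ⧸ S)).comp hS.extClass (show 1 + 1 = 2 from rfl)).comp y (add_comm 2 n) = 0) :
    y = 0 := by
  have h0 : (ae (H ⧸ S)).comp (hS.extClass.comp y (add_comm 1 n))
      (show 1 + (n + 1) = n + 2 by omega) = 0 := by
    refine (Ext.comp_assoc _ _ _ _ _ ?_).symm.trans hy
    omega
  have h1 := GQ_ker' _ _ _ h0
  obtain ⟨v, hv⟩ := Ext.contravariant_sequence_exact₁ hS B y (add_comm 1 n) h1
  obtain ⟨x, hx⟩ := hsurj ((ae H).comp (GQ_T S v) (add_comm 1 n))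
  obtain ⟨u, hu⟩ := GQ_lift B n x
  have h2 : (ae H).comp (GQ_T S ((Ext.mk₀ a).comp u (zero_add n))) (add_comm 1 n) =
      (ae H).comp (GQ_T S v) (add_comm 1 n) := by
    rw [← hx, ← hu]
    exact (GQ_key S j ι a h (add_comm 1 n) u).symm
  have h5 : GQ_T S v = GQ_T S (v - (Ext.mk₀ a).comp u (zero_add n)) +
      GQ_T S ((Ext.mk₀ a).comp u (zero_add n)) := by
    rw [← GQ_T_add, sub_add_cancel]
  have h3 : (ae H).comp (GQ_T S (v - (Ext.mk₀ a).comp u (zero_add n))) (add_comm 1 n) = 0 := by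
    rw [h5, Ext.comp_add] at h2
    exact (left_eq_add.1 (h2.trans (add_comm _ _)))
  obtain ⟨ζ, hζ⟩ := GQ_ker _ _ _ h3
  obtain ⟨u', hu'⟩ := GQ_ext S j ι a h B n ζ
  have h4 : v - (Ext.mk₀ a).comp u (zero_add n) = (Ext.mk₀ a).comp u' (zero_add n) :=
    hinj B n (hζ.symm.trans hu')
  have h6 : ∀ q : Ext (kernel (aug ℤ (H ⧸ S))) B n,
      (Ext.mk₀ ι).comp ((Ext.mk₀ a).comp q (zero_add n)) (zero_add n) = 0 := by
    intro q
    rw [Ext.mk₀_comp_mk₀_assoc, w, Ext.mk₀_zero, Ext.zero_comp]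
  rw [← hv, sub_eq_iff_eq_add.1 h4]
  show (Ext.mk₀ ι).comp _ (zero_add n) = 0
  rw [Ext.comp_add, h6, h6, add_zero]

end

/-- the Gysin properties of `π : H → L` and `e ∈ H²(L;ℤ)` -/
structure Gyn {H L : Type} [Group H] [Group L] (π : H →* L) (e : Ext (tz L) (tz L) 2) :
    Prop where
  ez : In π e = 0
  a0 : ∀ (B : Rep.{0} ℤ L) (x : Ext (tz L) B 0), In π x = 0 → x = 0
  a1 : ∀ (B : Rep.{0} ℤ L) (x : Ext (tz L) B 1), In π x = 0 → x = 0
  a2 : ∀ (B : Rep.{0} ℤ L) (j : ℕ) (x : Ext (tz L) B (j + 2)), In π x = 0 →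
    ∃ y : Ext (tz L) B j, x = e.comp y (add_comm 2 j)
  b : ∀ (B : Rep.{0} ℤ L) (j : ℕ),
    (∀ w : Ext (tz H) (Rep.res π B) (j + 1), ∃ x : Ext (tz L) B (j + 1), In π x = w) →
      ∀ y : Ext (tz L) B j, e.comp y (add_comm 2 j) = 0 → y = 0

theorem GQ_main {H : Type} [Group H] (t : H) (hc : t ∈ Subgroup.center H)
    (ht : ∀ n : ℤ, t ^ n = 1 → n = 0) [(Subgroup.zpowers t).Normal] :
    ∃ e : Ext (tz (H ⧸ Subgroup.zpowers t)) (tz (H ⧸ Subgroup.zpowers t)) 2,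
      Gyn (QuotientGroup.mk' (Subgroup.zpowers t)) e := by
  have hcS : Subgroup.zpowers t ≤ Subgroup.center H := (Subgroup.zpowers_le).2 hc
  have hz : Function.Injective (zpowersHom H t) := by
    rw [injective_iff_map_eq_one]
    intro n hn
    rw [zpowersHom_apply] at hn
    exact Multiplicative.toAdd.injective (ht _ hn)
  have hS' : ∀ x, x ∈ Subgroup.zpowers t ↔
      ∃ a : ℤ, zpowersHom H t (Multiplicative.ofAdd a) = x := by
    intro x
    rw [Subgroup.mem_zpowers_iff]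
    rfl
  obtain ⟨e, ι, a, w, hS, hAB, he⟩ :=
    ABg_main (Subgroup.zpowers t) hcS (zpowersHom H t) hz hS'
  obtain ⟨C, hC⟩ := TRegC_main ℤ t hc ht
  have hP : C.P (kernel (aug ℤ H)) := (hC _).2 (AugE_ker t ht)
  have hinj : ∀ (B : Rep.{0} ℤ (H ⧸ Subgroup.zpowers t)) (n : ℕ), Function.Injective
      (fun y : Ext ((QF ℤ (Subgroup.zpowers t)).obj (kernel (aug ℤ H))) B n =>
        GQ_T (Subgroup.zpowers t) y) :=
    fun B n => (AB_main C (GQ_adj (Subgroup.zpowers t)) _ hP B n).1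
  refine ⟨e, ⟨?_, ?_, ?_, ?_, ?_⟩⟩
  · rw [he]
    refine (GQ_key (Subgroup.zpowers t) (zpowersHom H t) ι a hAB
      (B := tz (H ⧸ Subgroup.zpowers t)) (show 1 + 1 = 2 from rfl) hS.extClass).trans ?_
    have h1 : (Ext.mk₀ a).comp hS.extClass (zero_add 1) = 0 := hS.comp_extClass
    rw [h1, GQ_T_zero, Ext.comp_zero]
  · intro B x hx
    exact In_zero_inj _ x hx
  · intro B x hx
    obtain ⟨f, hf, rfl⟩ := DE_ex B x
    have hf' : IsDer (Rep.res (QuotientGroup.mk' (Subgroup.zpowers t)) B)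
        (fun h => f (QuotientGroup.mk' (Subgroup.zpowers t) h)) := by
      intro g h
      show f (QuotientGroup.mk' (Subgroup.zpowers t) (g * h)) = _
      rw [map_mul]
      exact hf _ _
    rw [DE_In _ B f hf hf', DE_zero] at hx
    obtain ⟨n, hn⟩ := hx
    rw [DE_zero]
    refine ⟨n, fun g => ?_⟩
    obtain ⟨g, rfl⟩ := QuotientGroup.mk_surjective g
    exact hn g
  · intro B n x hx
    rw [he]
    exact GQ_a2 (Subgroup.zpowers t) (zpowersHom H t) ι a hAB w hS hinj B n x hx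
  · intro B n hsurj y hy
    rw [he] at hy
    exact GQ_b (Subgroup.zpowers t) (zpowersHom H t) ι a hAB w hS hinj B n hsurj y hy

end Pool.Agent.H5.PD
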