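import Pool.Agent.H5.PD.Df

/-!
Module GX (row PDGX, pure group theory).  `E : CX H L`, `u ∈ H`, `u^p = t`; `i : C → H` injective with image the centraliser of `u`; `E₁ : CX C L'` with `i(E₁.t) = u`.
`E' : CX C (stabilizer L u)`: `π(c) = E.π (i c)` (it fixes `u`: `CX.Y0_smul`; compare `Gp_stab`, `Gp_phi`, H5/ZP/Gp.lean), central element `τ = E₁.t ^ p`, `i τ = u^p = t`.  Onto: `g` fixes `u`, `h = E.s g`, `h u h⁻¹ = u`, so `h = i c`.
 Kernel: `E.π (i c) = 1` iff `i c = t^n = i (τ^n)`.  `τ` central (`i` injective, `t` central), of infinite order.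
`r(s) = E₁.π c` for any `c` with `E'.π c = s`: well defined since `ker E'.π = ⟨τ⟩ ⊆ ⟨E₁.t⟩ = ker E₁.π` (`QuotientGroup.lift`, or `Function.surjInv` as `CX.s`).
-/

namespace Pool.Agent.H5.PD

open CategoryTheory CategoryTheory.Abelian CategoryTheory.Limits Pool.Agent.H5.CP
  Pool.Agent.H75.CP Pool.Agent.H5.ZP

/-- `π` on `C`, with values in the stabiliser -/
def GX_phi {H L C : Type} [Group H] [Group L] [Group C] (E : CX H L) (p : ℕ) (u : E.Y0 p)
    (i : C →* H) (hr : ∀ x : H, (∃ c, i c = x) ↔ x * u.1 = u.1 * x) :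
    C →* MulAction.stabilizer L u where
  toFun c := ⟨E.π (i c), by
    rw [MulAction.mem_stabilizer_iff]
    apply Subtype.ext
    rw [E.Y0_smul]
    have h : i c * u.1 = u.1 * i c := (hr _).1 ⟨c, rfl⟩
    rw [h, mul_inv_cancel_right]⟩
  map_one' := Subtype.ext (by
    show E.π (i 1) = 1
    rw [map_one, map_one])
  map_mul' a b := Subtype.ext (by
    show E.π (i (a * b)) = E.π (i a) * E.π (i b)
    rw [map_mul, map_mul])

lemma GX_surj {H L C : Type} [Group H] [Group L] [Group C] (E : CX H L) (p : ℕ) (u : E.Y0 p)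
    (i : C →* H) (hr : ∀ x : H, (∃ c, i c = x) ↔ x * u.1 = u.1 * x) :
    Function.Surjective (GX_phi E p u i hr) := by
  intro g
  obtain ⟨x, hx⟩ := E.surj g.1
  have h1 : x * u.1 * x⁻¹ = u.1 := by
    have h2 : (E.π x • u : E.Y0 p).1 = x * u.1 * x⁻¹ := E.Y0_smul p _ u
    rw [← h2, hx]
    exact congrArg Subtype.val g.2
  have h3 : x * u.1 = u.1 * x := by
    rw [mul_inv_eq_iff_eq_mul] at h1
    exact h1
  obtain ⟨c, hc⟩ := (hr x).2 h3
  refine ⟨c, Subtype.ext ?_⟩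
  show E.π (i c) = g.1
  rw [hc, hx]

lemma GX_tau {H L C L' : Type} [Group H] [Group L] [Group C] [Group L'] (E : CX H L) (p : ℕ)
    (u : E.Y0 p) (i : C →* H) (E₁ : CX C L') (h₁ : i E₁.t = u.1) : i (E₁.t ^ p) = E.t := by
  rw [map_pow, h₁]
  exact u.2

theorem GX_main {H L C L' : Type} [Group H] [Group L] [Group C] [Group L'] (E : CX H L) (p : ℕ)
    (u : E.Y0 p) (i : C →* H) (hi : Function.Injective i)
    (hr : ∀ x : H, (∃ c, i c = x) ↔ x * u.1 = u.1 * x) (E₁ : CX C L') (h₁ : i E₁.t = u.1) :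
    ∃ (E' : CX C (MulAction.stabilizer L u)) (r : MulAction.stabilizer L u →* L'),
      (∀ c, ((E'.π c : MulAction.stabilizer L u) : L) = E.π (i c)) ∧ i E'.t = E.t ∧
        E₁.t ^ p = E'.t ∧ ∀ c, r (E'.π c) = E₁.π c := by
  have ht := GX_tau E p u i E₁ h₁
  have hsurj := GX_surj E p u i hr
  have hker : ∀ x, GX_phi E p u i hr x = 1 ↔ ∃ n : ℤ, x = (E₁.t ^ p) ^ n := by
    intro c
    constructor
    · intro h
      have h2 : E.π (i c) = 1 := congrArg Subtype.val h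
      obtain ⟨n, hn⟩ := (E.ker _).1 h2
      refine ⟨n, hi ?_⟩
      rw [hn, map_zpow, ht]
    · rintro ⟨n, rfl⟩
      apply Subtype.ext
      show E.π (i ((E₁.t ^ p) ^ n)) = 1
      rw [map_zpow, ht]
      exact (E.ker _).2 ⟨n, rfl⟩
  have hcent : E₁.t ^ p ∈ Subgroup.center C := by
    rw [Subgroup.mem_center_iff]
    intro c
    apply hi
    rw [map_mul, map_mul, ht]
    exact Subgroup.mem_center_iff.1 E.cent (i c)
  have hinf : ∀ n : ℤ, (E₁.t ^ p) ^ n = 1 → n = 0 := by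
    intro n hn
    apply E.inf
    rw [← ht, ← map_zpow, hn, map_one]
  let E' : CX C (MulAction.stabilizer L u) :=
    ⟨GX_phi E p u i hr, E₁.t ^ p, hsurj, hker, hcent, hinf⟩
  have hle : (GX_phi E p u i hr).ker ≤ E₁.π.ker := by
    intro c hc
    rw [MonoidHom.mem_ker] at hc ⊢
    obtain ⟨n, rfl⟩ := (hker c).1 hc
    refine (E₁.ker _).2 ⟨(p : ℤ) * n, ?_⟩
    rw [zpow_mul, zpow_natCast]
  refine ⟨E', (GX_phi E p u i hr).liftOfRightInverse (Function.surjInv hsurj)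
    (Function.rightInverse_surjInv hsurj) ⟨E₁.π, hle⟩, fun c => rfl, ht, rfl, ?_⟩
  intro c
  exact (GX_phi E p u i hr).liftOfRightInverse_comp_apply (Function.surjInv hsurj)
    (Function.rightInverse_surjInv hsurj) ⟨E₁.π, hle⟩ c

end Pool.Agent.H5.PD
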