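import Pool.Agent.H5.PD.Df

/-!
Module IX (row PDIX).  The induced module of `F_p[St/P]`.  `E : CX H L`, `u^p = t`, `St = stabilizer L u`, `i : C → H` the centraliser of `u`, `E₁ : CX C L'`, `i(E₁.t) = u`, `r : St → L'` with `r(π(i c)) = E₁.π(c)`.  `B = Rep.res r (F_p[L'])`, `St` acts on `L'` through `r`.
Claim: `C0 St B`, as an `H`-module, is `F_p[H/⟨u⟩]`.  Let `δ ∈ C0 St B`: `δ(x) = single (r x) 1` if `x ∈ St`, `0` otherwise.  The map `single (g⟨u⟩) a ↦ a • (π(g) δ)`, `(π(g) δ)(x) = δ(x π(g))`: well defined (`π(u) ∈ St`, `r(π(u)) = E₁.π(E₁.t) = 1`, so `δ(x π(u)) = δ(x)`), `H`-equivariant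
 (`mkZ`, `Finsupp.liftAddHom`).
Bijective: `(π(g)δ)(x) ≠ 0` iff `x ∈ St π(g)⁻¹`.  Write `x = s a`, `a` in a set of representatives of `St\\L`; an element `f` of `C0` is given by the finitely many `f(a) ∈ F_p[L']`.  `g⟨u⟩ ↦ (the coset St a of π(g)⁻¹, the element r(a π(g)) ∈ L')` is a bijection `H/⟨u⟩ → (St\\L) × L'`: injective: same coset gives
 `π(g') = a⁻¹ s' …`: `a π(g), a π(g') ∈ St` with the same image under `r`, so `π(g)⁻¹π(g') ∈ St` is in the kernel of `r`, `g⁻¹ g' = i(c) t^n`-like `= i c'` with `E₁.π c' = 1`, `c' ∈ ⟨E₁.t⟩`, `g⁻¹g' ∈ ⟨u⟩` (every `h` with `π(h) ∈ St` is `i c`: `CX.Y0_smul`, `hr`).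
 Onto: `l = E₁.π(c) = r(π(i c))`, `g = (lift of a)⁻¹ i(c)`.   In terms of this bijection the map is `single (St a, l) 1 ↦` the function with value `single l 1` at `a` and `0` on the other cosets.  Injectivity: evaluate at `a`.  Surjectivity: finite sums (`f(a) ≠ 0` for finitely many cosets only).
An isomorphism of representations from a bijective morphism: `asIso`/`isIso_of_mono_of_epi` with `Rep.mono_iff_injective`, `Rep.epi_iff_surjective`.
-/

namespace Pool.Agent.H5.PD

open CategoryTheory CategoryTheory.Abelian CategoryTheory.Limits Pool.Agent.H5.CP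
  Pool.Agent.H75.CP Pool.Agent.H5.ZP

theorem IX_mem {H L C : Type} [Group H] [Group L] [Group C] (E : CX H L) (p : ℕ)
    (u : E.Y0 p) (i : C →* H) (hr : ∀ x : H, (∃ c, i c = x) ↔ x * u.1 = u.1 * x) (x : H) :
    E.π x ∈ MulAction.stabilizer L u ↔ ∃ c, i c = x := by
  rw [MulAction.mem_stabilizer_iff, hr]
  constructor
  · intro h
    have h1 := E.Y0_smul p x u
    rw [h] at h1
    calc x * u.1 = x * u.1 * x⁻¹ * x := by group
      _ = u.1 * x := by rw [← h1]
  · intro h
    apply Subtype.ext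
    rw [E.Y0_smul, h, mul_inv_cancel_right]

section IXs

variable {H L C L' : Type} [Group H] [Group L] [Group C] [Group L'] (E : CX H L) (p : ℕ)
    (u : E.Y0 p) (i : C →* H)
    (hr : ∀ x : H, (∃ c, i c = x) ↔ x * u.1 = u.1 * x) (E₁ : CX C L') (h₁ : i E₁.t = u.1)
    (r : MulAction.stabilizer L u →* L')
    (hr2 : ∀ (c : C) (s : MulAction.stabilizer L u), (s : L) = E.π (i c) → r s = E₁.π c)

include hr hr2 in
theorem IX_surj (l : L') : ∃ s : MulAction.stabilizer L u, r s = l := by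
  obtain ⟨c, rfl⟩ := E₁.surj l
  exact ⟨⟨E.π (i c), (IX_mem E p u i hr (i c)).2 ⟨c, rfl⟩⟩, hr2 c _ rfl⟩

include hr h₁ hr2 in
theorem IX_u (n : ℤ) : ∃ s : MulAction.stabilizer L u, (s : L) = E.π (u.1 ^ n) ∧ r s = 1 := by
  refine ⟨⟨E.π (u.1 ^ n), (IX_mem E p u i hr _).2 ⟨E₁.t ^ n, ?_⟩⟩, rfl, ?_⟩
  · rw [map_zpow, h₁]
  · have h2 : E.π (u.1 ^ n) = E.π (i (E₁.t ^ n)) := by rw [map_zpow i, h₁]
    refine (hr2 (E₁.t ^ n) _ h2).trans ?_
    exact (E₁.ker _).2 ⟨n, rfl⟩

include hr h₁ hr2 in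
theorem IX_ker (g : H) (s : MulAction.stabilizer L u) (hs : (s : L) = E.π g) (h : r s = 1) :
    g ∈ Subgroup.zpowers u.1 := by
  obtain ⟨c, rfl⟩ := (IX_mem E p u i hr g).1 (by rw [← hs]; exact s.2)
  have h2 := hr2 c s hs
  rw [h] at h2
  obtain ⟨n, hn⟩ := (E₁.ker c).1 h2.symm
  rw [hn, map_zpow, h₁]
  exact ⟨n, rfl⟩

/-- the value at `x` -/
noncomputable def IXw (f : (C0 (MulAction.stabilizer L u) (Rep.res r (PX p L' L'))).V) (x : L) :
    L' →₀ ZMod p := f.1.1 x

/-- the value at `g` -/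
noncomputable def IXv (f : (C0 (MulAction.stabilizer L u) (Rep.res r (PX p L' L'))).V) (g : H) :
    ZMod p := IXw E p u r f (E.π g)⁻¹ 1

theorem IX_val (f : (C0 (MulAction.stabilizer L u) (Rep.res r (PX p L' L'))).V)
    (s : MulAction.stabilizer L u) (x : L) (l : L') :
    IXw E p u r f ((s : L) * x) (r s * l) = IXw E p u r f x l := by
  have h : IXw E p u r f ((s : L) * x) =
      Finsupp.mapDomain (fun y => r s • y) (IXw E p u r f x) := f.1.2 s x
  rw [h]
  exact Finsupp.mapDomain_apply (MulAction.injective (r s)) _ l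

include hr h₁ hr2 in
theorem IXv_u (f : (C0 (MulAction.stabilizer L u) (Rep.res r (PX p L' L'))).V) (g : H) (n : ℤ) :
    IXv E p u r f (g * u.1 ^ n) = IXv E p u r f g := by
  obtain ⟨s, hs, h1⟩ := IX_u E p u i hr E₁ h₁ r hr2 (-n)
  have h := IX_val E p u r f s ((E.π g)⁻¹) 1
  rw [h1, hs, one_mul] at h
  have h2 : E.π (u.1 ^ (-n)) * (E.π g)⁻¹ = (E.π (g * u.1 ^ n))⁻¹ := by
    rw [zpow_neg, map_inv, map_mul, mul_inv_rev]
  rw [h2] at h
  exact h

/-- the function on the quotient -/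
noncomputable def IXq (f : (C0 (MulAction.stabilizer L u) (Rep.res r (PX p L' L'))).V) :
    H ⧸ Subgroup.zpowers u.1 → ZMod p := fun q => IXv E p u r f q.out

include hr h₁ hr2 in
theorem IXq_mk (f : (C0 (MulAction.stabilizer L u) (Rep.res r (PX p L' L'))).V) (g : H) :
    IXq E p u r f (g : H ⧸ Subgroup.zpowers u.1) = IXv E p u r f g := by
  obtain ⟨h, hh⟩ := QuotientGroup.mk_out_eq_mul (Subgroup.zpowers u.1) g
  obtain ⟨n, hn⟩ := h.2
  show IXv E p u r f (Quotient.out (g : H ⧸ Subgroup.zpowers u.1)) = _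
  rw [hh, ← hn]
  exact IXv_u E p u i hr E₁ h₁ r hr2 f g n

include hr h₁ hr2 in
theorem IXq_fin (f : (C0 (MulAction.stabilizer L u) (Rep.res r (PX p L' L'))).V) :
    (Function.support (IXq E p u r f)).Finite := by
  obtain ⟨F, hF, h⟩ := f.2
  have key : Function.support (IXq E p u r f) ⊆ ⋃ a ∈ F, ⋃ l ∈
      (IXw E p u r f a).support, {q : H ⧸ Subgroup.zpowers u.1 | ∃ g : H,
        (g : H ⧸ Subgroup.zpowers u.1) = q ∧ ∃ s : MulAction.stabilizer L u,
          (E.π g)⁻¹ = (s : L) * a ∧ (r s)⁻¹ = l} := by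
    intro q hq
    have hq' : IXv E p u r f q.out ≠ 0 := hq
    have h0 : f.1.1 (E.π q.out)⁻¹ ≠ 0 := by
      intro h0
      apply hq'
      have h00 : IXw E p u r f (E.π q.out)⁻¹ = 0 := h0
      show IXw E p u r f (E.π q.out)⁻¹ 1 = 0
      rw [h00]
      rfl
    obtain ⟨a, ha, s, hs⟩ := h _ h0
    refine Set.mem_biUnion ha ?_
    refine Set.mem_biUnion (x := (r s)⁻¹) ?_ ?_
    · apply Finsupp.mem_support_iff.2
      have h2 := IX_val E p u r f s a (r s)⁻¹
      rw [mul_inv_cancel, ← hs] at h2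
      rw [← h2]
      exact hq'
    · exact ⟨q.out, QuotientGroup.out_eq' q, s, hs, rfl⟩
  refine Set.Finite.subset ?_ key
  refine Set.Finite.biUnion hF fun a _ => ?_
  refine Set.Finite.biUnion (Finset.finite_toSet _) fun l _ => ?_
  apply Set.Subsingleton.finite
  rintro q ⟨g, rfl, s, hs, hl⟩ q' ⟨g', rfl, s', hs', hl'⟩
  rw [QuotientGroup.eq]
  refine IX_ker E p u i hr E₁ h₁ r hr2 (g⁻¹ * g') (s * s'⁻¹) ?_ ?_
  · have h1 : E.π g' = a⁻¹ * (s' : L)⁻¹ := by
      rw [← inv_inv (E.π g'), hs', mul_inv_rev]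
    rw [map_mul, map_inv, hs, h1]
    show (s : L) * (s' : L)⁻¹ = _
    group
  · rw [map_mul, map_inv, ← inv_inv (r s), hl, ← hl', mul_inv_eq_one]
    rw [inv_inv]

end IXs

theorem IX_main {H L C L' : Type} [Group H] [Group L] [Group C] [Group L'] (E : CX H L) (p : ℕ)
    [Fact p.Prime] (u : E.Y0 p) (i : C →* H) (hi : Function.Injective i)
    (hr : ∀ x : H, (∃ c, i c = x) ↔ x * u.1 = u.1 * x) (E₁ : CX C L') (h₁ : i E₁.t = u.1)
    (r : MulAction.stabilizer L u →* L')
    (hr2 : ∀ (c : C) (s : MulAction.stabilizer L u), (s : L) = E.π (i c) → r s = E₁.π c) :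
    Nonempty (Rep.res E.π (C0 (MulAction.stabilizer L u) (Rep.res r (PX p L' L'))) ≅
      PX p H (H ⧸ Subgroup.zpowers u.1)) := by
  classical
  have hmk := IXq_mk E p u i hr E₁ h₁ r hr2
  let Ψ : (C0 (MulAction.stabilizer L u) (Rep.res r (PX p L' L'))).V →+
      ((H ⧸ Subgroup.zpowers u.1) →₀ ZMod p) :=
    { toFun := fun f => Finsupp.ofSupportFinite (IXq E p u r f)
        (IXq_fin E p u i hr E₁ h₁ r hr2 f)
      map_zero' := by
        ext q
        rfl
      map_add' := by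
        intro f g
        ext q
        rfl }
  have hΨ : ∀ (f : (C0 (MulAction.stabilizer L u) (Rep.res r (PX p L' L'))).V) (g : H),
      Ψ f (g : H ⧸ Subgroup.zpowers u.1) = IXv E p u r f g := fun f g => hmk f g
  have hΨe : ∀ (h : H) (f : (C0 (MulAction.stabilizer L u) (Rep.res r (PX p L' L'))).V),
      Ψ ((C0 (MulAction.stabilizer L u) (Rep.res r (PX p L' L'))).ρ (E.π h) f) =
        Finsupp.mapDomain (fun q => h • q) (Ψ f) := by
    intro h f
    ext q
    obtain ⟨g, rfl⟩ := QuotientGroup.mk_surjective q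
    have h1 : (g : H ⧸ Subgroup.zpowers u.1) = h • ((h⁻¹ * g : H) : H ⧸ Subgroup.zpowers u.1) := by
      show _ = ((h * (h⁻¹ * g) : H) : H ⧸ Subgroup.zpowers u.1)
      rw [mul_inv_cancel_left]
    rw [hΨ]
    conv_rhs => rw [h1]
    rw [Finsupp.mapDomain_apply (MulAction.injective h), hΨ]
    show IXw E p u r f ((E.π g)⁻¹ * E.π h) 1 = IXw E p u r f (E.π (h⁻¹ * g))⁻¹ 1
    rw [map_mul, map_inv, mul_inv_rev, inv_inv]
  have hinj : Function.Injective Ψ := by
    rw [injective_iff_map_eq_zero]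
    intro f hf
    apply Subtype.ext
    apply Subtype.ext
    funext x
    show IXw E p u r f x = 0
    ext l
    obtain ⟨s, hs⟩ := IX_surj E p u i hr E₁ r hr2 l⁻¹
    have h2 := IX_val E p u r f s x l
    rw [hs, inv_mul_cancel] at h2
    obtain ⟨g, hg⟩ := E.surj ((s : L) * x)⁻¹
    have h3 : IXv E p u r f g = 0 := by rw [← hΨ, hf]; rfl
    have h4 : (E.π g)⁻¹ = (s : L) * x := by rw [hg, inv_inv]
    have h5 : IXw E p u r f (E.π g)⁻¹ 1 = 0 := h3
    rw [h4, h2] at h5
    rw [h5]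
    rfl
  -- the element `a • δ`
  have hδ : ∀ a : ZMod p, ∃ f : (C0 (MulAction.stabilizer L u) (Rep.res r (PX p L' L'))).V,
      Ψ f = Finsupp.single ((1 : H) : H ⧸ Subgroup.zpowers u.1) a := by
    intro a
    let d : L → (L' →₀ ZMod p) := fun x =>
      if h : x ∈ MulAction.stabilizer L u then Finsupp.single (r ⟨x, h⟩) a else 0
    have hd : ∀ (s : MulAction.stabilizer L u) (x : L), d ((s : L) * x) =
        Finsupp.mapDomain (fun y => r s • y) (d x) := by
      intro s x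
      by_cases h : x ∈ MulAction.stabilizer L u
      · have h' : (s : L) * x ∈ MulAction.stabilizer L u := mul_mem s.2 h
        simp only [d]
        rw [dif_pos h, dif_pos h', Finsupp.mapDomain_single]
        congr 1
        show r (s * ⟨x, h⟩) = _
        rw [map_mul]
        rfl
      · have h' : (s : L) * x ∉ MulAction.stabilizer L u := fun h' => h (by
          have := mul_mem (inv_mem s.2) h'
          rwa [inv_mul_cancel_left] at this)
        simp only [d]
        rw [dif_neg h, dif_neg h', Finsupp.mapDomain_zero]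
    refine ⟨⟨⟨d, hd⟩, {1}, Set.finite_singleton _, ?_⟩, ?_⟩
    · intro x hx
      by_cases h : x ∈ MulAction.stabilizer L u
      · exact ⟨1, rfl, ⟨x, h⟩, (mul_one x).symm⟩
      · exact absurd (dif_neg h) hx
    · ext q
      obtain ⟨g, rfl⟩ := QuotientGroup.mk_surjective q
      refine (hΨ _ g).trans ?_
      show d (E.π g)⁻¹ 1 = _
      by_cases hg : g ∈ Subgroup.zpowers u.1
      · have h1 : (g : H ⧸ Subgroup.zpowers u.1) = ((1 : H) : H ⧸ Subgroup.zpowers u.1) := by
          rw [QuotientGroup.eq]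
          simpa using hg
        rw [h1, Finsupp.single_eq_same]
        obtain ⟨n, rfl⟩ := hg
        obtain ⟨s, hs, h2⟩ := IX_u E p u i hr E₁ h₁ r hr2 (-n)
        have h3 : (E.π ((fun x => u.1 ^ x) n))⁻¹ = (s : L) := by
          rw [hs, zpow_neg, map_inv]
        rw [h3]
        simp only [d]
        rw [dif_pos s.2]
        have h4 : (⟨(s : L), s.2⟩ : MulAction.stabilizer L u) = s := rfl
        rw [h4, h2, Finsupp.single_eq_same]
      · have h1 : (g : H ⧸ Subgroup.zpowers u.1) ≠ ((1 : H) : H ⧸ Subgroup.zpowers u.1) := by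
          intro h1
          apply hg
          rw [QuotientGroup.eq] at h1
          simpa using h1
        rw [Finsupp.single_eq_of_ne h1]
        by_cases h : (E.π g)⁻¹ ∈ MulAction.stabilizer L u
        · simp only [d]
          rw [dif_pos h]
          apply Finsupp.single_eq_of_ne
          intro h2
          apply hg
          have h3 := IX_ker E p u i hr E₁ h₁ r hr2 g⁻¹ ⟨(E.π g)⁻¹, h⟩ (by rw [map_inv]) h2.symm
          simpa using h3
        · simp only [d]
          rw [dif_neg h]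
          rfl
  have hsurj : Function.Surjective Ψ := by
    intro φ
    induction φ using Finsupp.induction_linear with
    | zero => exact ⟨0, map_zero _⟩
    | add a b ha hb =>
      obtain ⟨x, rfl⟩ := ha
      obtain ⟨y, rfl⟩ := hb
      exact ⟨x + y, map_add _ _ _⟩
    | single q a =>
      obtain ⟨g, rfl⟩ := QuotientGroup.mk_surjective q
      obtain ⟨f, hf⟩ := hδ a
      refine ⟨(C0 (MulAction.stabilizer L u) (Rep.res r (PX p L' L'))).ρ (E.π g) f, ?_⟩
      rw [hΨe, hf, Finsupp.mapDomain_single]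
      congr 1
      show ((g * 1 : H) : H ⧸ Subgroup.zpowers u.1) = _
      rw [mul_one]
  let φ : Rep.res E.π (C0 (MulAction.stabilizer L u) (Rep.res r (PX p L' L'))) ⟶
      PX p H (H ⧸ Subgroup.zpowers u.1) :=
    mkZ (M := Rep.res E.π (C0 (MulAction.stabilizer L u) (Rep.res r (PX p L' L'))))
      (N := PX p H (H ⧸ Subgroup.zpowers u.1)) Ψ (fun h f => hΨe h f)
  have : Mono φ := (Rep.mono_iff_injective _).2 hinj
  have : Epi φ := (Rep.epi_iff_surjective _).2 hsurj
  have : IsIso φ := isIso_of_mono_of_epi φ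
  exact ⟨asIso φ⟩

end Pool.Agent.H5.PD
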