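import Pool.Agent.H5.PD.GC

/-!
Module K1 (row PDK1).  Orders of cohomology groups and the Gysin sequence.  Use only the STATEMENTS of GC, Na.  `e` from `GC_main E`, `A_j = Ext (tz L) B j`, `D_j = Ext (tz H) (Rep.res E.π B) j`.
`K1_le`: `A_0 → D_0`, `A_1 → D_1` are injective (`Gyn.a0`, `a1`, `In_add`), and the kernel of `In : A_(j+2) → D_(j+2)` is contained in the image of `e.comp : A_j → A_(j+2)` (`Gyn.a2`), so `A_(j+2)` is finite and `|A_(j+2)| ≤ |A_j| |D_(j+2)|` (compare `Fl_mid`, H5/ZP/Fl.lean: choose for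
 every element of the image a preimage; `A_j × D_(j+2) → A_(j+2)` onto, or `AddSubgroup.card_mul_index`, `Nat.card_le_card_of_surjective`).  Induction (`Finset.prod_range_succ`).
`K1_eq`: if `In` is onto in all degrees then `e.comp : A_j → A_(j+2)` is injective (`Gyn.b`) and its image is the kernel of `In` (`In (e.comp y) = (In e).comp (In y) = 0` by `In_mul`, `Gyn.ez`).  So all `A_j` are finite (they embed in `A_(j+2m)`), all `D_j` are finite (images),
 `|A_(j+2)| = |A_j| |D_(j+2)|`, `|A_0| = |D_0|`.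
-/

namespace Pool.Agent.H5.PD

open CategoryTheory CategoryTheory.Abelian CategoryTheory.Limits Pool.Agent.H5.CP
  Pool.Agent.H75.CP Pool.Agent.H5.ZP

universe u v w

theorem K1_mid {A : Type u} {B : Type v} {C : Type w} [AddCommGroup A] [AddCommGroup B]
    [AddCommGroup C] (α : A →+ B) (β : B →+ C) (h : ∀ b, β b = 0 → ∃ a, α a = b)
    (hA : Finite A) (hC : Finite C) : Finite B ∧ Nat.card B ≤ Nat.card A * Nat.card C := by
  classical
  let σ : C → B := fun c => if hc : ∃ b, β b = c then hc.choose else 0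
  have hσ : ∀ b, β (σ (β b)) = β b := by
    intro b
    have hc : ∃ b', β b' = β b := ⟨b, rfl⟩
    have h1 : σ (β b) = hc.choose := dif_pos hc
    rw [h1]
    exact hc.choose_spec
  have hs : Function.Surjective (fun x : A × C => α x.1 + σ x.2) := fun b => by
    obtain ⟨a, ha⟩ := h (b - σ (β b)) (by rw [map_sub, hσ, sub_self])
    exact ⟨(a, β b), by simp only [ha, sub_add_cancel]⟩
  refine ⟨Finite.of_surjective _ hs, ?_⟩
  rw [← Nat.card_prod]
  exact Nat.card_le_card_of_surjective _ hs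

theorem K1_ex {A : Type u} {B : Type v} {C : Type w} [AddCommGroup A] [AddCommGroup B]
    [AddCommGroup C] (α : A →+ B) (β : B →+ C) (h : ∀ b, β b = 0 → ∃ a, α a = b)
    (h0 : ∀ a, β (α a) = 0) (hi : Function.Injective α) (hs : Function.Surjective β) :
    Nat.card B = Nat.card A * Nat.card C := by
  classical
  let σ : C → B := Function.surjInv hs
  have hσ : ∀ c, β (σ c) = c := Function.surjInv_eq hs
  rw [← Nat.card_prod]
  refine (Nat.card_eq_of_bijective (fun x : A × C => α x.1 + σ x.2) ⟨?_, ?_⟩).symm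
  · rintro ⟨a, c⟩ ⟨a', c'⟩ hx
    have hx' : α a + σ c = α a' + σ c' := hx
    have h1 : c = c' := by
      have h2 := congrArg β hx'
      rw [map_add, map_add, h0, h0, hσ, hσ, zero_add, zero_add] at h2
      exact h2
    subst h1
    have h3 : a = a' := hi (add_right_cancel hx')
    rw [h3]
  · intro b
    obtain ⟨a, ha⟩ := h (b - σ (β b)) (by rw [map_sub, hσ, sub_self])
    exact ⟨(a, β b), by simp only [ha, sub_add_cancel]⟩

/-- `In` as an additive map -/
noncomputable def K1_In {H L : Type} [Group H] [Group L] (π : H →* L) (B : Rep.{0} ℤ L) (j : ℕ) :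
    Ext (tz L) B j →+ Ext (tz H) (Rep.res π B) j :=
  AddMonoidHom.mk' (fun x => In π x) (fun x y => In_add π x y)

theorem K1_In_apply {H L : Type} [Group H] [Group L] (π : H →* L) (B : Rep.{0} ℤ L) (j : ℕ)
    (x : Ext (tz L) B j) : K1_In π B j x = In π x := rfl

theorem K1_a {H L : Type} [Group H] [Group L] {π : H →* L} {e : Ext (tz L) (tz L) 2}
    (g : Gyn π e) (B : Rep.{0} ℤ L) (j : ℕ) (x : Ext (tz L) B (j + 2))
    (hx : K1_In π B (j + 2) x = 0) : ∃ a, (e.precomp B (add_comm 2 j)) a = x := by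
  obtain ⟨y, hy⟩ := g.a2 B j x hx
  exact ⟨y, hy.symm⟩

theorem K1_z {H L : Type} [Group H] [Group L] {π : H →* L} {e : Ext (tz L) (tz L) 2}
    (g : Gyn π e) (B : Rep.{0} ℤ L) (j : ℕ) (y : Ext (tz L) B j) :
    K1_In π B (j + 2) ((e.precomp B (add_comm 2 j)) y) = 0 := by
  have h1 : In π (e.comp y (add_comm 2 j)) = _ := In_mul π e y (add_comm 2 j)
  show In π (e.comp y (add_comm 2 j)) = 0
  rw [h1, g.ez]
  exact Ext.zero_comp (tz H) 2 (In π y) (j + 2) (add_comm 2 j)

theorem K1_le {H L : Type} [Group H] [Group L] (E : CX H L) (B : Rep.{0} ℤ L)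
    (hf : ∀ i, Finite (Ext (tz H) (Rep.res E.π B) i)) :
    (∀ N, Finite (Ext (tz L) B N)) ∧ ∀ m, Nat.card (Ext (tz L) B (2 * m)) ≤
      ∏ i ∈ Finset.range (m + 1), Nat.card (Ext (tz H) (Rep.res E.π B) (2 * i)) := by
  obtain ⟨e, g⟩ := GC_main E
  have i0 : Function.Injective (K1_In E.π B 0) :=
    (injective_iff_map_eq_zero _).2 fun x hx => g.a0 B x hx
  have i1 : Function.Injective (K1_In E.π B 1) :=
    (injective_iff_map_eq_zero _).2 fun x hx => g.a1 B x hx
  have hfin : ∀ N, Finite (Ext (tz L) B N) ∧ Finite (Ext (tz L) B (N + 1)) := by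
    intro N
    induction N with
    | zero =>
      have := hf 0
      have := hf 1
      exact ⟨Finite.of_injective _ i0, Finite.of_injective _ i1⟩
    | succ j ih =>
      exact ⟨ih.2, (K1_mid (e.precomp B (add_comm 2 j)) (K1_In E.π B (j + 2)) (K1_a g B j)
        ih.1 (hf _)).1⟩
  refine ⟨fun N => (hfin N).1, fun m => ?_⟩
  induction m with
  | zero =>
    have := hf 0
    rw [zero_add, Finset.prod_range_one]
    exact Nat.card_le_card_of_injective _ i0
  | succ m ih =>
    rw [Finset.prod_range_succ]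
    exact ((K1_mid (e.precomp B (add_comm 2 (2 * m))) (K1_In E.π B (2 * m + 2))
      (K1_a g B (2 * m)) (hfin _).1 (hf _)).2).trans (Nat.mul_le_mul_right _ ih)

theorem K1_eq {H L : Type} [Group H] [Group L] (E : CX H L) (B : Rep.{0} ℤ L)
    (hs : ∀ (j : ℕ) (w : Ext (tz H) (Rep.res E.π B) j), ∃ x : Ext (tz L) B j, In E.π x = w)
    (m₀ : ℕ) (hf : ∀ j, m₀ ≤ j → Finite (Ext (tz L) B j)) :
    (∀ i, Finite (Ext (tz H) (Rep.res E.π B) i)) ∧ ∀ m, Nat.card (Ext (tz L) B (2 * m)) =
      ∏ i ∈ Finset.range (m + 1), Nat.card (Ext (tz H) (Rep.res E.π B) (2 * i)) := by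
  obtain ⟨e, g⟩ := GC_main E
  have i0 : Function.Injective (K1_In E.π B 0) :=
    (injective_iff_map_eq_zero _).2 fun x hx => g.a0 B x hx
  have hsu : ∀ j, Function.Surjective (K1_In E.π B j) := fun j w => hs j w
  have hin : ∀ j, Function.Injective (e.precomp B (add_comm 2 j)) := fun j =>
    (injective_iff_map_eq_zero _).2 fun y hy => g.b B j (hs (j + 1)) y hy
  have hfin : ∀ k j, m₀ ≤ j + 2 * k → Finite (Ext (tz L) B j) := by
    intro k
    induction k with
    | zero => exact fun j hj => hf j hj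
    | succ k ih =>
      intro j hj
      have := ih (j + 2) (by omega)
      exact Finite.of_injective _ (hin j)
  have hfa : ∀ j, Finite (Ext (tz L) B j) := fun j => hfin m₀ j (by omega)
  refine ⟨fun i => ?_, fun m => ?_⟩
  · have := hfa i
    exact Finite.of_surjective _ (hsu i)
  · induction m with
    | zero =>
      rw [zero_add, Finset.prod_range_one]
      exact Nat.card_eq_of_bijective _ ⟨i0, hsu 0⟩
    | succ m ih =>
      rw [Finset.prod_range_succ, ← ih]
      exact K1_ex (e.precomp B (add_comm 2 (2 * m))) (K1_In E.π B (2 * m + 2))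
        (K1_a g B (2 * m)) (K1_z g B (2 * m)) (hin _) (hsu _)

end Pool.Agent.H5.PD
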