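import Pool.Agent.H5.PD.Df

/-!
Module Na (row PDNA).  Elementary facts on `In` (= `Ext.mapExactFunctor (Rep.resFunctor π)`).
`In_comp`: induction on the degree `j`, for all modules `X` in place of `tz L` (prove first the general statement: for `x : Ext X Y n` in `Rep ℤ L`,
 `(x.mapExactFunctor (Rep.resFunctor π)).mapExactFunctor (Rep.resFunctor ρ) = x.mapExactFunctor (Rep.resFunctor (π.comp ρ))`; both sides have the same type by `rfl`).
 `n = 0`: `x = mk₀ f` (`Ext.mk₀_surjective`-like / `Ext.homEquiv₀`), `Ext.mapExactFunctor_mk₀`.   `n + 1`: `0 → K → P → X → 0`, `P` projective (`Projective.over X`), `x = extClass.comp y` (`Ext.contravariant_sequence_exact₃`,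
 `Ext^(n+1)(P,Y) = 0`, see `Qe_step`/TrKer.lean), `Ext.mapExactFunctor_comp`, `Ext.mapExactFunctor_extClass`.
`In_bij`: `Rep.resFunctor θ` is full (`Rep.full_res`), faithful, preserves projectives (it has the left adjoint `Rep.resFunctor θ.symm`; or `Functor.preservesProjectiveObjects_of_adjunction_of_preservesEpimorphisms`, or it is an equivalence):
 `Functor.mapExt_bijective_of_preservesProjectiveObjects` (Mathlib DerivedCategory/Ext/MapBijective.lean).
`In_zero_inj` : degree 0 : `Ext^0 = Hom`, `Rep.resFunctor` is faithful.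
`Cen_main`: `v` central in `G`: multiplication by `v` on the coefficients acts as the identity on `Ext (tz G) N j`.  General statement for `x : Ext X N j`: `x.comp (mk₀ (cmul v N)) = (mk₀ (cmul v X)).comp x` by the same induction on `j`
 (`ShortComplex.ShortExact.extClass_naturality` for the endomorphism `cmul v` of `0 → K → P → X → 0`), and `cmul v (tz G) = 𝟙`.
-/

namespace Pool.Agent.H5.PD

open CategoryTheory CategoryTheory.Abelian CategoryTheory.Limits Pool.Agent.H5.CP
  Pool.Agent.H75.CP Pool.Agent.H5.ZP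

theorem In_nat {H L : Type} [Group H] [Group L] (π : H →* L) {B B' : Rep.{0} ℤ L} (f : B ⟶ B')
    {j : ℕ} (x : Ext (tz L) B j) :
    In π (x.comp (Ext.mk₀ f) (add_zero j)) =
      (In π x).comp (Ext.mk₀ ((Rep.resFunctor π).map f)) (add_zero j) := by
  unfold In
  rw [Ext.mapExactFunctor_comp, Ext.mapExactFunctor_mk₀]
  rfl

theorem In_add {H L : Type} [Group H] [Group L] (π : H →* L) {B : Rep.{0} ℤ L}
    {j : ℕ} (x y : Ext (tz L) B j) : In π (x + y) = In π x + In π y := by
  unfold In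
  rw [Ext.mapExactFunctor_add]
  rfl

theorem In_zero {H L : Type} [Group H] [Group L] (π : H →* L) {B : Rep.{0} ℤ L}
    {j : ℕ} : In π (0 : Ext (tz L) B j) = 0 := by
  unfold In
  rw [Ext.mapExactFunctor_zero]
  rfl

theorem In_mul {H L : Type} [Group H] [Group L] (π : H →* L) {B : Rep.{0} ℤ L}
    {i j n : ℕ} (e : Ext (tz L) (tz L) i) (x : Ext (tz L) B j) (h : i + j = n) :
    In π (e.comp x h) = Ext.comp (In π e : Ext (tz H) (tz H) i) (In π x) h :=
  Ext.mapExactFunctor_comp _ e x h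

theorem Na_comp {K H L : Type} [Group K] [Group H] [Group L] (ρ : K →* H) (π : H →* L)
    (B : Rep.{0} ℤ L) (j : ℕ) : ∀ (X : Rep.{0} ℤ L) (x : Ext X B j),
    (x.mapExactFunctor (Rep.resFunctor π)).mapExactFunctor (Rep.resFunctor ρ) =
      (x.mapExactFunctor (Rep.resFunctor (π.comp ρ)) :) := by
  induction j with
  | zero =>
    intro X x
    obtain ⟨f, rfl⟩ := (Ext.mk₀_bijective X B).2 x
    rw [Ext.mapExactFunctor_mk₀, Ext.mapExactFunctor_mk₀, Ext.mapExactFunctor_mk₀]
    rfl
  | succ n ih =>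
    intro X x
    let P : ProjectivePresentation X := Classical.arbitrary _
    let S := ShortComplex.mk _ _ (kernel.condition P.f)
    have hP : Projective S.X₂ := P.projective
    have hS : S.ShortExact := { exact := ShortComplex.exact_kernel P.f }
    obtain ⟨y, hy⟩ := Ext.contravariant_sequence_exact₃ hS B x (Ext.eq_zero_of_projective _) (add_comm 1 n)
    have h1 := ih _ y
    have hA : (hS.extClass.mapExactFunctor (Rep.resFunctor π)).mapExactFunctor
        (Rep.resFunctor ρ) = (hS.map_of_exact (Rep.resFunctor (π.comp ρ))).extClass :=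
      (congrArg (fun z => Ext.mapExactFunctor (Rep.resFunctor ρ) z)
        (Ext.mapExactFunctor_extClass (Rep.resFunctor π) hS)).trans
        (Ext.mapExactFunctor_extClass (Rep.resFunctor ρ) (hS.map_of_exact (Rep.resFunctor π)))
    have hB : hS.extClass.mapExactFunctor (Rep.resFunctor (π.comp ρ)) =
        (hS.map_of_exact (Rep.resFunctor (π.comp ρ))).extClass :=
      Ext.mapExactFunctor_extClass (Rep.resFunctor (π.comp ρ)) hS
    rw [← hy]
    refine Eq.trans (congrArg (fun z => Ext.mapExactFunctor (Rep.resFunctor ρ) z)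
      (Ext.mapExactFunctor_comp (Rep.resFunctor π) hS.extClass y (add_comm 1 n))) ?_
    refine Eq.trans (Ext.mapExactFunctor_comp (Rep.resFunctor ρ)
      (hS.extClass.mapExactFunctor (Rep.resFunctor π))
      (y.mapExactFunctor (Rep.resFunctor π)) (add_comm 1 n)) ?_
    refine Eq.trans ?_ (Ext.mapExactFunctor_comp (Rep.resFunctor (π.comp ρ)) hS.extClass y
      (add_comm 1 n)).symm
    rw [hB, h1, hA]

theorem In_comp {K H L : Type} [Group K] [Group H] [Group L] (ρ : K →* H) (π : H →* L)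
    {B : Rep.{0} ℤ L} {j : ℕ} (x : Ext (tz L) B j) : In ρ (In π x) = In (π.comp ρ) x :=
  Na_comp ρ π B j (tz L) x

theorem Na_ess {H L : Type} [Group H] [Group L] (θ : H ≃* L) :
    (Rep.resFunctor (k := ℤ) θ.toMonoidHom : Rep.{0} ℤ L ⥤ Rep.{0} ℤ H).EssSurj where
  mem_essImage Y := by
    have e1 : ∀ (g : H) (x : Y.V), Y.ρ (θ.symm (θ g)) x = Y.ρ g x := fun g x => by
      rw [θ.symm_apply_apply]
    refine ⟨Rep.res θ.symm.toMonoidHom Y, ⟨⟨?_, ?_, ?_, ?_⟩⟩⟩
    · exact mkZ (AddMonoidHom.id _) (fun g x => e1 g x)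
    · exact mkZ (AddMonoidHom.id _) (fun g x => (e1 g x).symm)
    · rfl
    · rfl

theorem In_bij {H L : Type} [Group H] [Group L] (θ : H ≃* L) (B : Rep.{0} ℤ L) (j : ℕ) :
    Function.Bijective (fun x : Ext (tz L) B j => In θ.toMonoidHom x) := by
  have h1 : (Rep.resFunctor (k := ℤ) θ.toMonoidHom : Rep.{0} ℤ L ⥤ Rep.{0} ℤ H).Full :=
    Rep.full_res _ θ.surjective
  have h2 : (Rep.resFunctor (k := ℤ) θ.toMonoidHom : Rep.{0} ℤ L ⥤ Rep.{0} ℤ H).EssSurj := Na_ess θ
  have h3 : (Rep.resFunctor (k := ℤ) θ.toMonoidHom : Rep.{0} ℤ L ⥤ Rep.{0} ℤ H).IsEquivalence := {}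
  exact Functor.mapExt_bijective_of_preservesProjectiveObjects
    (Rep.resFunctor (k := ℤ) θ.toMonoidHom : Rep.{0} ℤ L ⥤ Rep.{0} ℤ H) (tz L) B j

theorem In_zero_inj {H L : Type} [Group H] [Group L] (π : H →* L) {B : Rep.{0} ℤ L}
    (x : Ext (tz L) B 0) (h : In π x = 0) : x = 0 := by
  obtain ⟨f, rfl⟩ := (Ext.mk₀_bijective (tz L) B).2 x
  unfold In at h
  rw [Ext.mapExactFunctor_mk₀] at h
  have h1 : (Rep.resFunctor π).map f = (Rep.resFunctor π).map 0 := by
    apply (Ext.mk₀_bijective _ _).1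
    rw [Functor.map_zero, Ext.mk₀_zero]
    exact h
  rw [(Rep.resFunctor π).map_injective h1, Ext.mk₀_zero]

/-- multiplication by the central element `v` -/
noncomputable def cmul {G : Type} [Group G] (v : G) (hv : v ∈ Subgroup.center G)
    (N : Rep.{0} ℤ G) : N ⟶ N :=
  mkZ (N.ρ v).toAddMonoidHom (by
    intro g x
    show N.ρ v (N.ρ g x) = N.ρ g (N.ρ v x)
    have h : v * g = g * v := (Subgroup.mem_center_iff.1 hv g).symm
    have h1 : N.ρ (v * g) x = N.ρ (g * v) x := by rw [h]
    rw [map_mul, map_mul] at h1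
    exact h1)

theorem cmul_hom {G : Type} [Group G] (v : G) (hv : v ∈ Subgroup.center G)
    (N : Rep.{0} ℤ G) (x : N.V) : (cmul v hv N).hom x = N.ρ v x := rfl

theorem Na_cmul_nat {G : Type} [Group G] (v : G) (hv : v ∈ Subgroup.center G)
    {M N : Rep.{0} ℤ G} (f : M ⟶ N) : cmul v hv M ≫ f = f ≫ cmul v hv N := by
  apply Rep.hom_ext
  apply DFunLike.ext
  intro x
  change f.hom (M.ρ v x) = N.ρ v (f.hom x)
  exact Rep.hom_comm_apply f v x

theorem Na_cen {G : Type} [Group G] (v : G) (hv : v ∈ Subgroup.center G) (N : Rep.{0} ℤ G)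
    (j : ℕ) : ∀ (X : Rep.{0} ℤ G) (x : Ext X N j),
    x.comp (Ext.mk₀ (cmul v hv N)) (add_zero j) = (Ext.mk₀ (cmul v hv X)).comp x (zero_add j) := by
  induction j with
  | zero =>
    intro X x
    obtain ⟨f, rfl⟩ := (Ext.mk₀_bijective X N).2 x
    rw [Ext.mk₀_comp_mk₀, Ext.mk₀_comp_mk₀, Na_cmul_nat]
  | succ n ih =>
    intro X x
    let P : ProjectivePresentation X := Classical.arbitrary _
    let S := ShortComplex.mk _ _ (kernel.condition P.f)
    have hP : Projective S.X₂ := P.projective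
    have hS : S.ShortExact := { exact := ShortComplex.exact_kernel P.f }
    obtain ⟨y, hy⟩ := Ext.contravariant_sequence_exact₃ hS N x (Ext.eq_zero_of_projective _) (add_comm 1 n)
    let F : S ⟶ S := ShortComplex.homMk (cmul v hv _) (cmul v hv _) (cmul v hv _)
      (Na_cmul_nat v hv _) (Na_cmul_nat v hv _)
    have h1 := ShortComplex.ShortExact.extClass_naturality hS hS F
    have h2 : hS.extClass.comp (Ext.mk₀ (cmul v hv S.X₁)) (add_zero 1) =
      (Ext.mk₀ (cmul v hv X)).comp hS.extClass (zero_add 1) := h1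
    rw [← hy, Ext.comp_assoc _ _ _ (add_comm 1 n) (add_zero n) (by omega), ih,
      ← Ext.comp_assoc _ _ _ (add_zero 1) (zero_add n) (by omega), h2,
      Ext.comp_assoc _ _ _ (zero_add 1) (add_comm 1 n) (by omega)]

theorem Cen_main {G : Type} [Group G] (v : G) (hv : v ∈ Subgroup.center G) (N : Rep.{0} ℤ G)
    (j : ℕ) (x : Ext (tz G) N j) :
    x.comp (Ext.mk₀ (cmul v hv N)) (add_zero j) = x := by
  rw [Na_cen v hv N j (tz G) x]
  have h1 : cmul v hv (tz G) = 𝟙 _ := by
    apply Rep.hom_ext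
    apply DFunLike.ext
    intro y
    rfl
  rw [h1, Ext.mk₀_id_comp]

end Pool.Agent.H5.PD
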