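import Pool.Agent.H5.PD.SV
import Pool.Agent.H5.PD.Na

/-!
Module K2 (row PDK2).  Orders of `H^i(K;F_p[K/⟨v⟩])`.  Use only the STATEMENTS of SV, Na.  `X` is a transitive `K`-set with base point `x₀` whose stabiliser is `⟨v⟩`, `v` of infinite order.
`SV_main` with `Y = K` (left multiplication), `σ y = y v` (`Equiv.mulRight v`), `q y = y • x₀`: `0 → F_pK → F_pK → F_p[X] → 0`, first map `a = ρ_v - 1`, `ρ_v = PXm p (· * v)`.
`K2_le`: `H^i(K;F_pK) → H^i(K;F_p[X]) → H^(i+1)(K;F_pK)` is exact (`Ext.covariant_sequence_exact₂`, `₃`), so finite and of order `≤ h_i h_(i+1)` (see `Fl_mid`).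
`K2_eq`: if `v` is central then `ρ_v = cmul v` on `PX p K K` (`y v = v y`), so `x.comp (mk₀ a) = 0` for all classes `x` (`Cen_main`, `Ext.comp_sub`-like), so `0 → H^i(K;F_pK) → H^i(K;F_p[X]) → H^(i+1)(K;F_pK) → 0` is exact: all finite if the middle ones are, and the orders multiply
 (`AddSubgroup.card_mul_index`/`Nat.card_congr` with `QuotientAddGroup.quotientKerEquivOfSurjective`).
-/

namespace Pool.Agent.H5.PD

open CategoryTheory CategoryTheory.Abelian CategoryTheory.Limits Pool.Agent.H5.CP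
  Pool.Agent.H75.CP Pool.Agent.H5.ZP

universe u v w

private theorem K2_card {A : Type u} {B : Type v} {C : Type w} [AddCommGroup A] [AddCommGroup B]
    [AddCommGroup C] (α : A →+ B) (β : B →+ C) (h : ∀ b, β b = 0 → ∃ a, α a = b)
    (hA : Finite A) (hC : Finite C) :
    Finite B ∧ Nat.card B ≤ Nat.card A * Nat.card C := by
  classical
  let σ : C → B := fun c => if hc : ∃ b, β b = c then hc.choose else 0
  have hσ : ∀ b, β (σ (β b)) = β b := by
    intro b
    have hc : ∃ b', β b' = β b := ⟨b, rfl⟩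
    have h1 : σ (β b) = hc.choose := dif_pos hc
    rw [h1]
    exact hc.choose_spec
  have hs : Function.Surjective (fun x : A × C => α x.1 + σ x.2) := by
    intro b
    obtain ⟨a, ha⟩ := h (b - σ (β b)) (by rw [map_sub, hσ, sub_self])
    exact ⟨(a, β b), by simp only [ha, sub_add_cancel]⟩
  refine ⟨Finite.of_surjective _ hs, ?_⟩
  rw [← Nat.card_prod]
  exact Nat.card_le_card_of_surjective _ hs

private theorem K2_cardeq {A : Type u} {B : Type v} {C : Type w} [AddCommGroup A] [AddCommGroup B]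
    [AddCommGroup C] (α : A →+ B) (β : B →+ C) (h : ∀ b, β b = 0 → ∃ a, α a = b)
    (h0 : ∀ a, β (α a) = 0) (hi : ∀ a, α a = 0 → a = 0) (hβ : Function.Surjective β) :
    Nat.card B = Nat.card A * Nat.card C := by
  obtain ⟨σ, hσ⟩ := hβ.hasRightInverse
  rw [← Nat.card_prod]
  symm
  refine Nat.card_eq_of_bijective (fun x : A × C => α x.1 + σ x.2) ⟨?_, ?_⟩
  · rintro ⟨a, c⟩ ⟨a', c'⟩ hx
    have hx' : α a + σ c = α a' + σ c' := hx
    have h1 : c = c' := by
      have h2 := congrArg β hx'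
      rw [map_add, map_add, h0, h0, zero_add, zero_add, hσ, hσ] at h2
      exact h2
    rw [h1, add_left_inj] at hx'
    have h3 : a = a' := by
      rw [← sub_eq_zero]
      refine hi _ ?_
      rw [map_sub, hx', sub_self]
    rw [h1, h3]
  · intro b
    obtain ⟨a, ha⟩ := h (b - σ (β b)) (by rw [map_sub, hσ, sub_self])
    exact ⟨(a, β b), by simp only [ha, sub_add_cancel]⟩

private theorem K2_pow {K : Type} [Group K] (v : K) (n : ℤ) (y : K) :
    ((Equiv.mulRight v : Equiv.Perm K) ^ n) y = y * v ^ n := by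
  have h1 : ∀ (m : ℕ) (y : K), ((Equiv.mulRight v : Equiv.Perm K) ^ m) y = y * v ^ m := by
    intro m
    induction m with
    | zero =>
      intro y
      rw [pow_zero, pow_zero, Equiv.Perm.one_apply, mul_one]
    | succ m ih =>
      intro y
      rw [pow_succ, Equiv.Perm.mul_apply, ih, Equiv.coe_mulRight, pow_succ', mul_assoc]
  obtain ⟨m, rfl | rfl⟩ := n.eq_nat_or_neg
  · rw [zpow_natCast, zpow_natCast, h1]
  · rw [zpow_neg, zpow_neg, zpow_natCast, zpow_natCast, Equiv.Perm.inv_eq_iff_eq, h1,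
      inv_mul_cancel_right]

private theorem K2_seq (p : ℕ) {K X : Type} [Group K] [MulAction K X] (v : K)
    (hv : ∀ n : ℤ, v ^ n = 1 → n = 0) (x₀ : X) (htr : ∀ x : X, ∃ g : K, g • x₀ = x)
    (hst : ∀ g : K, g • x₀ = x₀ ↔ ∃ n : ℤ, g = v ^ n) :
    ∃ (hσ : ∀ (g y : K), (Equiv.mulRight v : Equiv.Perm K) (g • y)
        = g • (Equiv.mulRight v : Equiv.Perm K) y)
      (hq : ∀ (g y : K), (fun y : K => y • x₀) (g • y) = g • (fun y : K => y • x₀) y)
      (w : (PXm p (Equiv.mulRight v : Equiv.Perm K) hσ - 𝟙 (PX p K K))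
        ≫ PXm p (fun y : K => y • x₀) hq = 0),
      (ShortComplex.mk (PXm p (Equiv.mulRight v : Equiv.Perm K) hσ - 𝟙 (PX p K K))
        (PXm p (fun y : K => y • x₀) hq) w).ShortExact := by
  have hσ : ∀ (g y : K), (Equiv.mulRight v : Equiv.Perm K) (g • y)
      = g • (Equiv.mulRight v : Equiv.Perm K) y := by
    intro g y
    exact mul_assoc g y v
  have hq : ∀ (g y : K), (fun y : K => y • x₀) (g • y) = g • (fun y : K => y • x₀) y := by
    intro g y
    exact mul_smul g y x₀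
  obtain ⟨w, hw⟩ := SV_main p (Equiv.mulRight v : Equiv.Perm K) hσ
    (fun n y h => hv n (by
      rw [K2_pow] at h
      exact mul_eq_left.1 h))
    (fun y : K => y • x₀) hq htr (fun y y' => by
      show y • x₀ = y' • x₀ ↔ _
      have h1 : y • x₀ = y' • x₀ ↔ (y⁻¹ * y') • x₀ = x₀ := by
        rw [mul_smul, inv_smul_eq_iff]
        exact eq_comm
      rw [h1, hst]
      refine exists_congr fun n => ?_
      rw [K2_pow]
      constructor
      · intro h
        rw [← h, mul_inv_cancel_left]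
      · intro h
        rw [← h, inv_mul_cancel_left])
  exact ⟨hσ, hq, w, hw⟩

theorem K2_le (p : ℕ) [Fact p.Prime] {K X : Type} [Group K] [MulAction K X] (v : K)
    (hv : ∀ n : ℤ, v ^ n = 1 → n = 0) (x₀ : X) (htr : ∀ x : X, ∃ g : K, g • x₀ = x)
    (hst : ∀ g : K, g • x₀ = x₀ ↔ ∃ n : ℤ, g = v ^ n)
    (hf : ∀ i, Finite (Ext (tz K) (PX p K K) i)) (i : ℕ) :
    Finite (Ext (tz K) (PX p K X) i) ∧
      Nat.card (Ext (tz K) (PX p K X) i) ≤ hc p K i * hc p K (i + 1) := by
  obtain ⟨hσ, hq, w, hS⟩ := K2_seq p v hv x₀ htr hst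
  exact K2_card
    ((Ext.mk₀ (PXm p (fun y : K => y • x₀) hq)).postcomp (tz K) (add_zero i))
    (hS.extClass.postcomp (tz K) (rfl : i + 1 = i + 1))
    (fun b hb => Ext.covariant_sequence_exact₃ (tz K) hS b rfl hb) (hf i) (hf (i + 1))

theorem K2_eq (p : ℕ) [Fact p.Prime] {K X : Type} [Group K] [MulAction K X] (v : K)
    (hv : ∀ n : ℤ, v ^ n = 1 → n = 0) (hc : v ∈ Subgroup.center K) (x₀ : X)
    (htr : ∀ x : X, ∃ g : K, g • x₀ = x)
    (hst : ∀ g : K, g • x₀ = x₀ ↔ ∃ n : ℤ, g = v ^ n)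
    (hf : ∀ i, Finite (Ext (tz K) (PX p K X) i)) :
    (∀ i, Finite (Ext (tz K) (PX p K K) i)) ∧ ∀ i,
      Nat.card (Ext (tz K) (PX p K X) i) =
        Pool.Agent.H5.PD.hc p K i * Pool.Agent.H5.PD.hc p K (i + 1) := by
  obtain ⟨hσ, hq, w, hS⟩ := K2_seq p v hv x₀ htr hst
  have hcm : PXm p (Equiv.mulRight v : Equiv.Perm K) hσ = cmul v hc (PX p K K) := by
    refine Rep.hom_ext ?_
    refine Representation.IntertwiningMap.ext ?_
    refine LinearMap.ext fun u => ?_
    change K →₀ ZMod p at u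
    show Finsupp.mapDomain (Equiv.mulRight v) u = Finsupp.mapDomain (fun x : K => v • x) u
    have h : (⇑(Equiv.mulRight v) : K → K) = fun x : K => v • x := by
      funext x
      exact Subgroup.mem_center_iff.1 hc x
    rw [h]
  have hz : ∀ (j : ℕ) (x : Ext (tz K) (PX p K K) j),
      x.comp (Ext.mk₀ (PXm p (Equiv.mulRight v : Equiv.Perm K) hσ - 𝟙 (PX p K K)))
        (add_zero j) = 0 := by
    intro j x
    rw [hcm, sub_eq_add_neg, Ext.mk₀_add, Ext.mk₀_neg, Ext.comp_add, Ext.comp_neg, Cen_main,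
      Ext.comp_mk₀_id, add_neg_cancel]
  have hinj : ∀ (j : ℕ) (x : Ext (tz K) (PX p K K) j),
      x.comp (Ext.mk₀ (PXm p (fun y : K => y • x₀) hq)) (add_zero j) = 0 → x = 0 := by
    intro j x hx
    obtain ⟨x₁, h1⟩ := Ext.covariant_sequence_exact₂ (tz K) hS x hx
    rw [← h1]
    exact hz j x₁
  refine ⟨fun j => ?_, fun j => ?_⟩
  · refine Finite.of_injective
      (fun x : Ext (tz K) (PX p K K) j =>
        x.comp (Ext.mk₀ (PXm p (fun y : K => y • x₀) hq)) (add_zero j)) ?_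
    intro x y hxy
    rw [← sub_eq_zero]
    refine hinj j _ ?_
    have hxy' : x.comp (Ext.mk₀ (PXm p (fun y : K => y • x₀) hq)) (add_zero j)
        = y.comp (Ext.mk₀ (PXm p (fun y : K => y • x₀) hq)) (add_zero j) := hxy
    rw [sub_eq_add_neg, Ext.add_comp, Ext.neg_comp, hxy', add_neg_cancel]
  · refine K2_cardeq
      ((Ext.mk₀ (PXm p (fun y : K => y • x₀) hq)).postcomp (tz K) (add_zero j))
      (hS.extClass.postcomp (tz K) (rfl : j + 1 = j + 1))
      (fun b hb => Ext.covariant_sequence_exact₃ (tz K) hS b rfl hb) ?_ (hinj j) ?_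
    · intro x
      show (x.comp (Ext.mk₀ (PXm p (fun y : K => y • x₀) hq)) (add_zero j)).comp hS.extClass
        rfl = 0
      rw [Ext.comp_assoc_of_second_deg_zero, hS.comp_extClass, Ext.comp_zero]
    · intro x
      exact Ext.covariant_sequence_exact₁ (tz K) hS x (hz _ x) rfl

end Pool.Agent.H5.PD
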