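import Pool.Agent.H5.PD.SZ
import Pool.Agent.H5.PD.DC
import Pool.Agent.H5.PD.GX

/-!
Module LS (row PDLS).  The level step.  Use only the STATEMENTS of SZ, DC, GX, SH, CZ.  `GX_main` gives `E'`, `r`.  `cd`: `CZ_inj`.  `ds`, `dv`: `DC_main` with `m = 2n+4` and `SH_tail`.  `fin`, `size`: `SZ_main`.
-/

namespace Pool.Agent.H5.PD

open CategoryTheory CategoryTheory.Abelian CategoryTheory.Limits Pool.Agent.H5.CP
  Pool.Agent.H75.CP Pool.Agent.H5.ZP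

theorem LS_main {H L C L' : Type} [Group H] [Group L] [Group C] [Group L'] (E : CX H L) (p : ℕ)
    [Fact p.Prime] (n : ℕ) (hE : Lv p n E) (u : H) (hu : u ^ p = E.t) (i : C →* H)
    (hi : Function.Injective i) (hr : ∀ x : H, (∃ c, i c = x) ↔ x * u = u * x)
    (E₁ : CX C L') (h₁ : i E₁.t = u) : Lv p n E₁ := by
  obtain ⟨E', r, hE', _, hp, hr'⟩ := GX_main E p (⟨u, hu⟩ : E.Y0 p) i hi hr E₁ h₁
  have hcd : CD (ZMod p) C n := CZ_inj p i hi n hE.cd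
  obtain ⟨hds, hdv⟩ := DC_main E' E₁ r hr' p hp (2 * n + 4)
    (fun B hB T j hj => SH_tail E p n hE.cd hE.ds (⟨u, hu⟩ : E.Y0 p) B hB T j hj)
  obtain ⟨hfin, hsize⟩ := SZ_main E p n hE (⟨u, hu⟩ : E.Y0 p) i hi hr E₁ h₁ E' r hE' hp hr'
  exact ⟨hcd, hds, hdv, hfin, hsize⟩

end Pool.Agent.H5.PD
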