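import Pool.Agent.H5.PD.AA
import Pool.Agent.H5.PD.CA
import Pool.Agent.H5.PD.Na

/-!
Module SH (row PDSH).  `H^j(L; Ind B) ≅ H^j(St; B)` in large degrees, and the transfer of tails.  Use only the STATEMENTS of AA, CA, C0, Na.
`SH_main`: `C0_ses`, `CA_main` in degrees `j - 1` and `j` (`j ≥ 2n+4`), `Ext.covariant_sequence_exact₂`, `₁`: `x ↦ x.comp (mk₀ C0i)` is a bijection `Ext (tz L) (C0 B) j → Ext (tz L) (coind B) j`; `AA_shp`; `c0ev = res(C0i) ≫ cev` (`In_nat`, `Ext.comp_assoc`, `Ext.mk₀_comp_mk₀`).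
`SH_tail`: `x ∈ Ext (tz St) B j` is the image of `x' ∈ Ext (tz L) (C0 B) j`; `hd` applied to `C0T S T` (`C0_kp`) gives `e ∈ T.S` with `x'.comp (mk₀ (C0m S e)) = 0`; `C0_nat` and `In_nat`: the image of `x'.comp (mk₀ (C0m S e))` is `x.comp (mk₀ e)`.
-/

namespace Pool.Agent.H5.PD

open CategoryTheory CategoryTheory.Abelian CategoryTheory.Limits Pool.Agent.H5.CP
  Pool.Agent.H75.CP Pool.Agent.H5.ZP

theorem SH_ev {L : Type} [Group L] (S : Subgroup L) (B : Rep.{0} ℤ S) (j : ℕ)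
    (x : Ext (tz L) (C0 S B) j) :
    (In S.subtype x).comp (Ext.mk₀ (c0ev S B)) (add_zero j) =
      (In S.subtype (x.comp (Ext.mk₀ (C0i S B)) (add_zero j))).comp (Ext.mk₀ (cev S B))
        (add_zero j) := by
  rw [In_nat, Ext.comp_assoc_of_third_deg_zero, Ext.mk₀_comp_mk₀]
  rfl

theorem SH_inc {H L : Type} [Group H] [Group L] (E : CX H L) (p : ℕ) [Fact p.Prime] (n : ℕ)
    (hH : CD (ZMod p) H n) (u : E.Y0 p) (B : Rep.{0} ℤ (MulAction.stabilizer L u))
    (hB : Kp p B) (j : ℕ) (hj : 2 * n + 4 ≤ j) :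
    Function.Bijective (fun x : Ext (tz L) (C0 (MulAction.stabilizer L u) B) j =>
      x.comp (Ext.mk₀ (C0i (MulAction.stabilizer L u) B)) (add_zero j)) := by
  constructor
  · intro x y hxy
    have h0 : (x - y).comp (Ext.mk₀ (C0i (MulAction.stabilizer L u) B)) (add_zero j) = 0 :=
      (map_sub ((Ext.mk₀ (C0i (MulAction.stabilizer L u) B)).postcomp (tz L) (add_zero j))
        x y).trans (sub_eq_zero.2 hxy)
    obtain ⟨z, hz⟩ := Ext.covariant_sequence_exact₁ (tz L) (C0_ses (MulAction.stabilizer L u) B)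
      (x - y) h0 (n₀ := j - 1) (by omega)
    have hz0 : z = 0 := CA_main E p n hH u B hB (j - 1) (by omega) z
    rw [hz0, Ext.zero_comp] at hz
    exact sub_eq_zero.1 hz.symm
  · intro y
    exact Ext.covariant_sequence_exact₂ (tz L) (C0_ses (MulAction.stabilizer L u) B) y
      (CA_main E p n hH u B hB j (by omega) _)

theorem SH_main {H L : Type} [Group H] [Group L] (E : CX H L) (p : ℕ) [Fact p.Prime] (n : ℕ)
    (hH : CD (ZMod p) H n) (u : E.Y0 p) (B : Rep.{0} ℤ (MulAction.stabilizer L u))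
    (hB : Kp p B) (j : ℕ) (hj : 2 * n + 4 ≤ j) :
    Function.Bijective (fun x : Ext (tz L) (C0 (MulAction.stabilizer L u) B) j =>
      (In (MulAction.stabilizer L u).subtype x).comp
        (Ext.mk₀ (c0ev (MulAction.stabilizer L u) B)) (add_zero j)) := by
  have h := (AA_shp (MulAction.stabilizer L u) B j).comp (SH_inc E p n hH u B hB j hj)
  have h1 : (fun x : Ext (tz L) (C0 (MulAction.stabilizer L u) B) j =>
      (In (MulAction.stabilizer L u).subtype x).comp
        (Ext.mk₀ (c0ev (MulAction.stabilizer L u) B)) (add_zero j)) =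
      (fun x => (In (MulAction.stabilizer L u).subtype x).comp
        (Ext.mk₀ (cev (MulAction.stabilizer L u) B)) (add_zero j)) ∘
      (fun x => x.comp (Ext.mk₀ (C0i (MulAction.stabilizer L u) B)) (add_zero j)) := by
    funext x
    exact SH_ev (MulAction.stabilizer L u) B j x
  rw [h1]
  exact h

theorem SH_tail {H L : Type} [Group H] [Group L] (E : CX H L) (p : ℕ) [Fact p.Prime] (n : ℕ)
    (hH : CD (ZMod p) H n) (hd : Ds p L) (u : E.Y0 p)
    (B : Rep.{0} ℤ (MulAction.stabilizer L u)) (hB : Kp p B) (T : Tail B) (j : ℕ)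
    (hj : 2 * n + 4 ≤ j) : DT T j := by
  intro x
  obtain ⟨x', hx'⟩ := (SH_main E p n hH u B hB j hj).2 x
  obtain ⟨_, ⟨e, he, rfl⟩, h0⟩ := hd (C0 (MulAction.stabilizer L u) B)
    (C0_kp (MulAction.stabilizer L u) B p hB) (C0T (MulAction.stabilizer L u) T) j x'
  refine ⟨e, he, ?_⟩
  have h1 : (In (MulAction.stabilizer L u).subtype
      (x'.comp (Ext.mk₀ (C0m (MulAction.stabilizer L u) e)) (add_zero j))).comp
        (Ext.mk₀ (c0ev (MulAction.stabilizer L u) B)) (add_zero j) = 0 := by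
    rw [h0, In_zero, Ext.zero_comp]
  rw [In_nat, Ext.comp_assoc_of_third_deg_zero, Ext.mk₀_comp_mk₀, C0_nat] at h1
  rw [← hx']
  show Ext.comp (Ext.comp _ _ _) _ _ = 0
  rw [Ext.comp_assoc_of_third_deg_zero, Ext.mk₀_comp_mk₀]
  exact h1

end Pool.Agent.H5.PD
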