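import Pool.Agent.H5.PD.Df
import Pool.Agent.H5.CP.VTop

/-!
Module SV (row PDSV).  `0 → F_p[Y] → F_p[Y] → F_p[Z] → 0` for a `K`-set `Y` with a commuting free action of `ℤ` (generator `σ`) and `Z = Y/σ`.
`VTop_shortExact` (H5/CP/VTop.lean).  The maps are `f ↦ σ_* f - f` and `f ↦ q_* f` on finitely supported functions (`Finsupp.mapDomain`).
Composition zero: `q ∘ σ = q` (`hfib` with `n = 1`).   Onto: `q` onto (`Finsupp.mapDomain_surjective`).
Injective: `σ_* f = f` means `f(σ y) = f(y)` for all `y` (`Finsupp.mapDomain_apply` for the injective `σ`); if `f(y) ≠ 0` then `f(σ^n y) ≠ 0` for all `n` and these points are different: infinite support.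
Middle: let `q_* f = 0`.  Show by induction on the support (or by `Finsupp.induction`) that modulo the image `f ≡ Σ_z (Σ_{q y = z} f(y)) s(z)` for a section `s` of `q`: `single y a - single (σ^n y) a` is in the image for all `n : ℤ` (telescope), so `f - s_* q_* f` is in the image for every finitely supported `f`
 (additive in `f`, check on `single y a`, `y = σ^n s(q y)`).  If `q_* f = 0` then `f` is in the image.
-/

namespace Pool.Agent.H5.PD

open CategoryTheory CategoryTheory.Abelian CategoryTheory.Limits Pool.Agent.H5.CP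
  Pool.Agent.H75.CP Pool.Agent.H5.ZP

private theorem SV_inj {A Y : Type} [AddCommGroup A] (σ : Equiv.Perm Y)
    (hfree : ∀ (n : ℤ) (y : Y), (σ ^ n) y = y → n = 0) (f : Y →₀ A)
    (hf : Finsupp.mapDomain σ f = f) : f = 0 := by
  by_contra hne
  obtain ⟨y, hy⟩ : ∃ y, f y ≠ 0 := by
    by_contra hcon
    exact hne (Finsupp.ext fun y => by
      by_contra h
      exact hcon ⟨y, h⟩)
  have h1 : ∀ x, f (σ x) = f x := by
    intro x
    have h := Finsupp.mapDomain_apply σ.injective f x
    rw [hf] at h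
    exact h
  have h2 : ∀ n : ℕ, f ((σ ^ n) y) = f y := by
    intro n
    induction n with
    | zero => rfl
    | succ n ih =>
      rw [pow_succ', Equiv.Perm.mul_apply, h1]
      exact ih
  have h3 : ∀ n : ℕ, (σ ^ n) y ∈ (f.support : Set Y) := by
    intro n
    rw [Finset.mem_coe, Finsupp.mem_support_iff, h2]
    exact hy
  have h4 : Function.Injective fun n : ℕ => (σ ^ n) y := by
    intro m n hmn
    have h : (σ ^ ((m : ℤ) - n)) ((σ ^ (n : ℤ)) y) = (σ ^ (n : ℤ)) y := by
      rw [← Equiv.Perm.mul_apply, ← zpow_add, sub_add_cancel]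
      exact hmn
    have h' := hfree _ _ h
    omega
  exact Set.infinite_of_injective_forall_mem h4 h3 f.support.finite_toSet

private theorem SV_nat {A Y : Type} [AddCommGroup A] (σ : Equiv.Perm Y) (n : ℕ) (y : Y) (a : A) :
    ∃ u : Y →₀ A, Finsupp.mapDomain σ u - u
      = Finsupp.single ((σ ^ n) y) a - Finsupp.single y a := by
  induction n with
  | zero =>
    refine ⟨0, ?_⟩
    rw [Finsupp.mapDomain_zero, pow_zero, Equiv.Perm.one_apply, sub_self, sub_self]
  | succ n ih =>
    obtain ⟨u, hu⟩ := ih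
    refine ⟨u + Finsupp.single ((σ ^ n) y) a, ?_⟩
    rw [Finsupp.mapDomain_add, Finsupp.mapDomain_single, pow_succ', Equiv.Perm.mul_apply,
      add_sub_add_comm, hu]
    abel

private theorem SV_int {A Y : Type} [AddCommGroup A] (σ : Equiv.Perm Y) (n : ℤ) (y : Y) (a : A) :
    ∃ u : Y →₀ A, Finsupp.mapDomain σ u - u
      = Finsupp.single ((σ ^ n) y) a - Finsupp.single y a := by
  obtain ⟨m, rfl | rfl⟩ := n.eq_nat_or_neg
  · rw [zpow_natCast]
    exact SV_nat σ m y a
  · obtain ⟨u, hu⟩ := SV_nat σ m ((σ ^ (-(m : ℤ))) y) a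
    have h : (σ ^ m) ((σ ^ (-(m : ℤ))) y) = y := by
      rw [← zpow_natCast, ← Equiv.Perm.mul_apply, ← zpow_add, add_neg_cancel, zpow_zero,
        Equiv.Perm.one_apply]
    rw [h] at hu
    refine ⟨-u, ?_⟩
    have h5 : Finsupp.mapDomain σ (-u) = -Finsupp.mapDomain σ u := by
      rw [eq_neg_iff_add_eq_zero, ← Finsupp.mapDomain_add, neg_add_cancel,
        Finsupp.mapDomain_zero]
    rw [h5, ← neg_sub (Finsupp.single y a), ← hu]
    abel

private theorem SV_mid {A Y Z : Type} [AddCommGroup A] (σ : Equiv.Perm Y) (q : Y → Z) (s : Z → Y)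
    (hs : ∀ z, q (s z) = z)
    (hfib : ∀ y y' : Y, q y = q y' ↔ ∃ n : ℤ, (σ ^ n) y = y') (f : Y →₀ A) :
    ∃ u : Y →₀ A, Finsupp.mapDomain σ u - u
      = f - Finsupp.mapDomain s (Finsupp.mapDomain q f) := by
  induction f using Finsupp.induction_linear with
  | zero =>
    refine ⟨0, ?_⟩
    rw [Finsupp.mapDomain_zero, Finsupp.mapDomain_zero, Finsupp.mapDomain_zero]
  | add a b ha hb =>
    obtain ⟨u, hu⟩ := ha
    obtain ⟨v, hv⟩ := hb
    refine ⟨u + v, ?_⟩
    rw [Finsupp.mapDomain_add, Finsupp.mapDomain_add, Finsupp.mapDomain_add, add_sub_add_comm,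
      hu, hv, add_sub_add_comm]
  | single y a =>
    obtain ⟨n, hn⟩ := (hfib (s (q y)) y).1 (hs (q y))
    obtain ⟨u, hu⟩ := SV_int σ n (s (q y)) a
    refine ⟨u, ?_⟩
    rw [hu, hn, Finsupp.mapDomain_single, Finsupp.mapDomain_single]

theorem SV_main (p : ℕ) {K Y Z : Type} [Group K] [MulAction K Y] [MulAction K Z]
    (σ : Equiv.Perm Y) (hσ : ∀ (g : K) (y : Y), σ (g • y) = g • σ y)
    (hfree : ∀ (n : ℤ) (y : Y), (σ ^ n) y = y → n = 0) (q : Y → Z)
    (hq : ∀ (g : K) (y : Y), q (g • y) = g • q y) (hs : Function.Surjective q)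
    (hfib : ∀ y y' : Y, q y = q y' ↔ ∃ n : ℤ, (σ ^ n) y = y') :
    ∃ w : (PXm p σ hσ - 𝟙 (PX p K Y)) ≫ PXm p q hq = 0,
      (ShortComplex.mk (PXm p σ hσ - 𝟙 (PX p K Y)) (PXm p q hq) w).ShortExact := by
  have hval : ∀ u : Y →₀ ZMod p, ((PXm p σ hσ - 𝟙 (PX p K Y)).hom u : Y →₀ ZMod p)
      = Finsupp.mapDomain σ u - u := fun u => rfl
  have hqσ : ∀ u : Y →₀ ZMod p, Finsupp.mapDomain q (Finsupp.mapDomain σ u)
      = Finsupp.mapDomain q u := by
    intro u
    rw [← Finsupp.mapDomain_comp]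
    congr 1
    funext y
    refine ((hfib y (σ y)).2 ⟨1, ?_⟩).symm
    rw [zpow_one]
  have hsub : ∀ u v : Y →₀ ZMod p, Finsupp.mapDomain q (u - v)
      = Finsupp.mapDomain q u - Finsupp.mapDomain q v := by
    intro u v
    rw [eq_sub_iff_add_eq, ← Finsupp.mapDomain_add, sub_add_cancel]
  refine ⟨?_, ?_⟩
  · refine Rep.hom_ext ?_
    refine Representation.IntertwiningMap.ext ?_
    refine LinearMap.ext fun u => ?_
    change Y →₀ ZMod p at u
    show Finsupp.mapDomain q (Finsupp.mapDomain σ u - u) = 0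
    rw [hsub, hqσ, sub_self]
  · refine VTop_shortExact _ ?_ ?_ ?_
    · intro u v huv
      change Y →₀ ZMod p at u v
      have h : Finsupp.mapDomain σ u - u = Finsupp.mapDomain σ v - v := huv
      refine sub_eq_zero.1 (SV_inj σ hfree (u - v) ?_)
      have h5 : Finsupp.mapDomain σ (u - v) = Finsupp.mapDomain σ u - Finsupp.mapDomain σ v := by
        rw [eq_sub_iff_add_eq, ← Finsupp.mapDomain_add, sub_add_cancel]
      rw [h5, sub_eq_sub_iff_sub_eq_sub]
      exact h
    · exact Finsupp.mapDomain_surjective hs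
    · intro u hu
      change Y →₀ ZMod p at u
      have hu' : Finsupp.mapDomain q u = 0 := hu
      obtain ⟨s, hs'⟩ := hs.hasRightInverse
      obtain ⟨v, hv⟩ := SV_mid σ q s hs' hfib u
      refine ⟨v, ?_⟩
      rw [hu', Finsupp.mapDomain_zero, sub_zero] at hv
      exact hv

end Pool.Agent.H5.PD
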