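import Pool.Agent.H5.PD.SH
import Pool.Agent.H5.PD.IS
import Pool.Agent.H5.PD.K1
import Pool.Agent.H5.PD.K2
import Pool.Agent.H5.PD.IX
import Pool.Agent.H5.PD.CZ

/-!
Module SZ (row PDSZ).  The size estimate for the centraliser.  Use only the STATEMENTS of the imported PD files.  `E : CX H L` with `Lv p n E`, `u^p = t`, `St = stabilizer L u`, `E' : CX C St`, `E₁ : CX C L'`, `r : St → L'` (as in `GX_main`).
`B = Rep.res r (PX p L' L')` (killed by `p`), `h_i = hc p H i`, `c_i = hc p C i`.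
(1) `M = C0 St B`, `Rep.res E.π M ≅ PX p H (H ⧸ zpowers u)` (`IX_main`), so `Ext (tz H) (Rep.res E.π M) i` is finite of order `≤ h_i h_(i+1)` (`K2_le` with `v = u`, `x₀ = (1 : H) mod ⟨u⟩`; an isomorphism `A ≅ A'` of coefficients gives a bijection on `Ext` by composition with `mk₀`).
(2) `K1_le E M`: `Ext (tz L) M N` is finite for all `N` and `|Ext (tz L) M (2m)| ≤ Π_{i ≤ m} h_(2i) h_(2i+1) = Π_{j < 2m+2} h_j`, which is `≤ p` when `n ≤ 2m + 2`: `h_j = 1` for `j ≥ n` (`CZ_zero`: the group is zero) (`Lv.size`).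
(3) `SH_main`: for `j ≥ 2n+4`: `Ext (tz St) B j` is in bijection with `Ext (tz L) M j`: finite, of order `≤ p` for even `j`.
(4) `K1_eq E' B` (`hs` by `IS_main`): all `Ext (tz C) (Rep.res E'.π B) i` are finite and `|Ext (tz St) B (2m)| = Π_{i ≤ m} |Ext (tz C) (Rep.res E'.π B) (2i)|`.
(5) `Rep.res E'.π B = Rep.res (r.comp E'.π) (PX p L' L')`, `r.comp E'.π = E₁.π` (`subst` trick or `MonoidHom.ext` and `rw`), which is `PX p C L'` for the `C`-set `L'` (`MulAction.compHom L' E₁.π`, by `rfl`), transitive, stabiliser of `1` is `⟨E₁.t⟩`.  `K2_eq` with `v = E₁.t`: `F_p[C]`-cohomology is finite and the order in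
 degree `2i` is `c_(2i) c_(2i+1)`.  So `Π_{j < 2m+2} c_j ≤ p` for large `m`; every `c_j ≥ 1` (finite non-empty), so `Π_{j < n} c_j ≤ p` (`Finset.prod_le_prod_of_subset_of_one_le'`-like, or `Finset.prod_range_add`...).
-/

namespace Pool.Agent.H5.PD

open CategoryTheory CategoryTheory.Abelian CategoryTheory.Limits Pool.Agent.H5.CP
  Pool.Agent.H75.CP Pool.Agent.H5.ZP

theorem SZ_pair (f : ℕ → ℕ) (m : ℕ) : ∏ i ∈ Finset.range (m + 1), (f (2 * i) * f (2 * i + 1)) =
    ∏ j ∈ Finset.range (2 * m + 2), f j := by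
  induction m with
  | zero =>
    rw [Finset.prod_range_one, Nat.mul_zero, Nat.zero_add, Nat.zero_add, Finset.prod_range_succ,
      Finset.prod_range_one]
  | succ m ih =>
    rw [Finset.prod_range_succ, ih, show 2 * (m + 1) + 2 = (2 * m + 2) + 1 + 1 by ring,
      Finset.prod_range_succ f (2 * m + 2 + 1), Finset.prod_range_succ f (2 * m + 2),
      show 2 * (m + 1) = 2 * m + 2 by ring, mul_assoc]

theorem SZ_kp (p : ℕ) (G X : Type) [Group G] [MulAction G X] : Kp p (PX p G X) := by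
  intro x
  change X →₀ ZMod p at x
  show (p • x : X →₀ ZMod p) = 0
  ext y
  rw [Finsupp.smul_apply, Finsupp.zero_apply, nsmul_eq_mul, CharP.cast_eq_zero, zero_mul]

/-- an isomorphism of coefficients gives a bijection of cohomology -/
theorem SZ_iso {G : Type} [Group G] {A A' : Rep.{0} ℤ G} (e : A ≅ A') (j : ℕ) :
    Nonempty (Ext (tz G) A j ≃ Ext (tz G) A' j) := by
  refine ⟨⟨fun x => x.comp (Ext.mk₀ e.hom) (add_zero j),
    fun x => x.comp (Ext.mk₀ e.inv) (add_zero j), ?_, ?_⟩⟩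
  · intro x
    show (x.comp (Ext.mk₀ e.hom) (add_zero j)).comp (Ext.mk₀ e.inv) (add_zero j) = x
    rw [Ext.comp_assoc_of_third_deg_zero, Ext.mk₀_comp_mk₀, e.hom_inv_id, Ext.comp_mk₀_id]
  · intro x
    show (x.comp (Ext.mk₀ e.inv) (add_zero j)).comp (Ext.mk₀ e.hom) (add_zero j) = x
    rw [Ext.comp_assoc_of_third_deg_zero, Ext.mk₀_comp_mk₀, e.inv_hom_id, Ext.comp_mk₀_id]

/-- steps 1 and 2 -/
theorem SZ_one {H L C L' : Type} [Group H] [Group L] [Group C] [Group L'] (E : CX H L) (p : ℕ)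
    [Fact p.Prime] (n : ℕ) (hE : Lv p n E) (u : E.Y0 p) (M : Rep.{0} ℤ L)
    (hM : Nonempty (Rep.res E.π M ≅ PX p H (H ⧸ Subgroup.zpowers u.1))) :
    (∀ N, Finite (Ext (tz L) M N)) ∧ ∀ m, n ≤ 2 * m + 2 → Nat.card (Ext (tz L) M (2 * m)) ≤ p := by
  obtain ⟨e⟩ := hM
  have hv : ∀ k : ℤ, u.1 ^ k = 1 → k = 0 := by
    intro k hk
    apply E.inf
    rw [← u.2, ← zpow_natCast, ← zpow_mul, mul_comm, zpow_mul, hk, one_zpow]
  have htr : ∀ x : H ⧸ Subgroup.zpowers u.1, ∃ g : H,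
      g • ((1 : H) : H ⧸ Subgroup.zpowers u.1) = x := by
    intro x
    obtain ⟨g, rfl⟩ := QuotientGroup.mk_surjective x
    refine ⟨g, ?_⟩
    show ((g * 1 : H) : H ⧸ Subgroup.zpowers u.1) = _
    rw [mul_one]
  have hst : ∀ g : H, g • ((1 : H) : H ⧸ Subgroup.zpowers u.1) = ((1 : H) : _) ↔
      ∃ k : ℤ, g = u.1 ^ k := by
    intro g
    have h1 : g • ((1 : H) : H ⧸ Subgroup.zpowers u.1) =
        ((g * 1 : H) : H ⧸ Subgroup.zpowers u.1) := rfl
    rw [h1, mul_one, eq_comm, QuotientGroup.eq, inv_one, one_mul, Subgroup.mem_zpowers_iff]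
    exact ⟨fun ⟨k, hk⟩ => ⟨k, hk.symm⟩, fun ⟨k, hk⟩ => ⟨k, hk.symm⟩⟩
  have hK := fun j => K2_le p u.1 hv ((1 : H) : H ⧸ Subgroup.zpowers u.1) htr hst hE.fin j
  have hfin : ∀ j, Finite (Ext (tz H) (Rep.res E.π M) j) := by
    intro j
    obtain ⟨q⟩ := SZ_iso e j
    have := (hK j).1
    exact Finite.of_equiv _ q.symm
  have hcard : ∀ j, Nat.card (Ext (tz H) (Rep.res E.π M) j) ≤ hc p H j * hc p H (j + 1) := by
    intro j
    obtain ⟨q⟩ := SZ_iso e j
    rw [Nat.card_congr q]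
    exact (hK j).2
  obtain ⟨h1, h2⟩ := K1_le E M hfin
  refine ⟨h1, fun m hm => (h2 m).trans ?_⟩
  refine le_trans (Finset.prod_le_prod' (fun j _ => hcard (2 * j))) ?_
  rw [SZ_pair (fun j => hc p H j) m]
  refine le_trans (le_of_eq ?_) hE.size
  symm
  apply Finset.prod_subset (Finset.range_subset_range.2 hm)
  intro j _ hj
  rw [Finset.mem_range, not_lt] at hj
  have hz : ∀ x : Ext (tz H) (PX p H H) j, x = 0 :=
    fun x => CZ_zero p n hE.cd (PX p H H) (SZ_kp p H H) j hj x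
  have : Subsingleton (Ext (tz H) (PX p H H) j) := ⟨fun x y => (hz x).trans (hz y).symm⟩
  have : Nonempty (Ext (tz H) (PX p H H) j) := ⟨0⟩
  exact Nat.card_eq_one_iff_unique.2 ⟨inferInstance, inferInstance⟩

theorem SZ_main {H L C L' : Type} [Group H] [Group L] [Group C] [Group L'] (E : CX H L) (p : ℕ)
    [Fact p.Prime] (n : ℕ) (hE : Lv p n E) (u : E.Y0 p) (i : C →* H)
    (hi : Function.Injective i) (hr : ∀ x : H, (∃ c, i c = x) ↔ x * u.1 = u.1 * x)
    (E₁ : CX C L') (h₁ : i E₁.t = u.1) (E' : CX C (MulAction.stabilizer L u))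
    (r : MulAction.stabilizer L u →* L')
    (hE' : ∀ c, ((E'.π c : MulAction.stabilizer L u) : L) = E.π (i c))
    (hp : E₁.t ^ p = E'.t) (hr' : ∀ c, r (E'.π c) = E₁.π c) :
    (∀ j, Finite (Ext (tz C) (PX p C C) j)) ∧ ∏ j ∈ Finset.range n, hc p C j ≤ p := by
  have hr2 : ∀ (c : C) (s : MulAction.stabilizer L u), (s : L) = E.π (i c) → r s = E₁.π c := by
    intro c s hs
    have h1 : s = E'.π c := Subtype.ext (by rw [hs, hE'])
    rw [h1, hr']
  have hkp : Kp p (PX p L' L') := SZ_kp p L' L'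
  have hB : Kp p (Rep.res r (PX p L' L')) := fun x => hkp x
  obtain ⟨hLf, hLc⟩ := SZ_one (C := C) (L' := L') E p n hE u
    (C0 (MulAction.stabilizer L u) (Rep.res r (PX p L' L')))
    (IX_main E p u i hi hr E₁ h₁ r hr2)
  -- step 3
  have hbij := fun j hj => SH_main E p n hE.cd u (Rep.res r (PX p L' L')) hB j hj
  have hSf : ∀ j, 2 * n + 4 ≤ j →
      Finite (Ext (tz (MulAction.stabilizer L u)) (Rep.res r (PX p L' L')) j) := by
    intro j hj
    have := hLf j
    exact Finite.of_surjective _ (hbij j hj).2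
  have hSc : Nat.card (Ext (tz (MulAction.stabilizer L u)) (Rep.res r (PX p L' L'))
      (2 * (n + 2))) ≤ p := by
    rw [← Nat.card_congr (Equiv.ofBijective _ (hbij (2 * (n + 2)) (by omega)))]
    exact hLc (n + 2) (by omega)
  -- step 4
  obtain ⟨hCf, hCc⟩ := K1_eq E' (Rep.res r (PX p L' L'))
    (fun j w => IS_main E' E₁ r hr' p hp (PX p L' L') hkp j w) (2 * n + 4) hSf
  rw [hCc (n + 2)] at hSc
  -- step 5
  let _ : MulAction C L' := MulAction.compHom L' E₁.π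
  have hcomp : r.comp E'.π = E₁.π := MonoidHom.ext hr'
  have hres : Rep.res E'.π (Rep.res r (PX p L' L')) = PX p C L' := by
    show Rep.res (r.comp E'.π) (PX p L' L') = PX p C L'
    rw [hcomp]
    rfl
  rw [hres] at hCf hSc
  have hsm : ∀ (g : C) (x : L'), g • x = E₁.π g * x := fun g x => rfl
  obtain ⟨hf1, hf2⟩ := K2_eq p (K := C) (X := L') E₁.t E₁.inf E₁.cent (1 : L')
    (by
      intro x
      obtain ⟨g, hg⟩ := E₁.surj x
      exact ⟨g, by rw [hsm, mul_one, hg]⟩)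
    (by
      intro g
      rw [hsm, mul_one]
      exact E₁.ker g) hCf
  refine ⟨hf1, ?_⟩
  simp only [hf2] at hSc
  rw [SZ_pair (fun j => hc p C j) (n + 2)] at hSc
  refine le_trans ?_ hSc
  rw [show 2 * (n + 2) + 2 = n + (n + 6) by ring, Finset.prod_range_add]
  refine Nat.le_mul_of_pos_right _ (Finset.prod_pos (fun j _ => ?_))
  have := hf1 (n + j)
  have : Nonempty (Ext (tz C) (PX p C C) (n + j)) := ⟨0⟩
  exact Nat.card_pos

end Pool.Agent.H5.PD
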