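import Pool.Agent.H5.PD.Df

/-!
Module TL (row PDTL).  Direct sums of permutation modules: `PX p G (Σ i, X i)`, `G` acting on each `X i` (Mathlib action on sigma types).
`TL_eq`: the action preserves the first component, so it commutes with `Finsupp.filter` (check on `single`, additive).   `cut F` removes the components with index in `F`.
`TL_mul`: `cut F ≫ cut F' = cut (F ∪ F')`.   `TL_loc`: `F` = the set of first components of the support.   `TL_sum`: the identity minus `cut F` is the sum over `i ∈ F` of projection to and inclusion of the `i`-th component (check on `single`).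
`prj i`: `f ↦ (x ↦ f ⟨i, x⟩)` (`Finsupp.comapDomain`-like along the injection `Sigma.mk i`, or `Finsupp.split`): it is given here through `TL_prj`: `single ⟨l, x⟩ a ↦ single x a` if `l = i`, else `0`.
-/

namespace Pool.Agent.H5.PD

open CategoryTheory CategoryTheory.Abelian CategoryTheory.Limits Pool.Agent.H5.CP
  Pool.Agent.H75.CP Pool.Agent.H5.ZP

theorem TL_eq (p : ℕ) {G ι : Type} [Group G] {X : ι → Type} [∀ i, MulAction G (X i)]
    (F : Set ι) [DecidablePred (fun y : (Σ i, X i) => y.1 ∉ F)] (g : G)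
    (f : (Σ i, X i) →₀ ZMod p) :
    Finsupp.filter (fun y : (Σ i, X i) => y.1 ∉ F) (Finsupp.mapDomain (fun x => g • x) f) =
      Finsupp.mapDomain (fun x => g • x) (Finsupp.filter (fun y : (Σ i, X i) => y.1 ∉ F) f) := by
  induction f using Finsupp.induction_linear with
  | zero => rw [Finsupp.mapDomain_zero, Finsupp.filter_zero, Finsupp.mapDomain_zero]
  | add a b ha hb =>
    rw [Finsupp.mapDomain_add, Finsupp.filter_add, Finsupp.filter_add, Finsupp.mapDomain_add,
      ha, hb]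
  | single y b =>
    rw [Finsupp.mapDomain_single]
    by_cases h : y.1 ∉ F
    · have h' : (g • y).1 ∉ F := h
      rw [Finsupp.filter_single_of_pos (fun y : (Σ i, X i) => y.1 ∉ F) h',
        Finsupp.filter_single_of_pos (fun y : (Σ i, X i) => y.1 ∉ F) h, Finsupp.mapDomain_single]
    · have h' : ¬ (g • y).1 ∉ F := h
      rw [Finsupp.filter_single_of_neg (fun y : (Σ i, X i) => y.1 ∉ F) h',
        Finsupp.filter_single_of_neg (fun y : (Σ i, X i) => y.1 ∉ F) h, Finsupp.mapDomain_zero]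

open Classical in
/-- removal of the components with index in `F` -/
noncomputable def cut (p : ℕ) {G ι : Type} [Group G] {X : ι → Type} [∀ i, MulAction G (X i)]
    (F : Set ι) : PX p G (Σ i, X i) ⟶ PX p G (Σ i, X i) :=
  mkZ (M := PX p G (Σ i, X i)) (N := PX p G (Σ i, X i))
    (Finsupp.filterAddHom (fun y : (Σ i, X i) => y.1 ∉ F)) (fun g f => TL_eq p F g f)

theorem TL_apply (p : ℕ) {G ι : Type} [Group G] {X : ι → Type} [∀ i, MulAction G (X i)]
    (F : Set ι) (f : (Σ i, X i) →₀ ZMod p) (y : Σ i, X i) :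
    (y.1 ∈ F → (show (Σ i, X i) →₀ ZMod p from (cut p (G := G) F).hom f) y = 0) ∧
      (y.1 ∉ F → (show (Σ i, X i) →₀ ZMod p from (cut p (G := G) F).hom f) y = f y) := by
  classical
  refine ⟨fun h => ?_, fun h => ?_⟩
  · exact Finsupp.filter_apply_neg (fun y : (Σ i, X i) => y.1 ∉ F) f (not_not.2 h)
  · exact Finsupp.filter_apply_pos (fun y : (Σ i, X i) => y.1 ∉ F) f h

theorem TL_mul (p : ℕ) {G ι : Type} [Group G] {X : ι → Type} [∀ i, MulAction G (X i)]
    (F F' : Set ι) : cut p (G := G) (X := X) F ≫ cut p F' = cut p (F ∪ F') := by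
  apply Rep.hom_ext
  apply DFunLike.ext
  intro f
  show (cut p (G := G) (X := X) F').hom ((cut p (G := G) (X := X) F).hom f) =
    (cut p (G := G) (X := X) (F ∪ F')).hom f
  apply Finsupp.ext
  intro y
  have h1 := TL_apply p (G := G) F f y
  have h2 := TL_apply p (G := G) F' ((cut p (G := G) (X := X) F).hom f) y
  have h3 := TL_apply p (G := G) (F ∪ F') f y
  by_cases a : y.1 ∈ F
  · have e3 := h3.1 (Or.inl a)
    by_cases b : y.1 ∈ F'
    · exact (h2.1 b).trans e3.symm
    · exact (h2.2 b).trans ((h1.1 a).trans e3.symm)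
  · by_cases b : y.1 ∈ F'
    · exact (h2.1 b).trans (h3.1 (Or.inr b)).symm
    · exact (h2.2 b).trans ((h1.2 a).trans (h3.2 (fun h => h.elim a b)).symm)

theorem TL_loc (p : ℕ) {G ι : Type} [Group G] {X : ι → Type} [∀ i, MulAction G (X i)]
    (f : (PX p G (Σ i, X i)).V) : ∃ F : Set ι, F.Finite ∧ (cut p (G := G) F).hom f = 0 := by
  change (Σ i, X i) →₀ ZMod p at f
  refine ⟨Sigma.fst '' (f.support : Set (Σ i, X i)), (Finset.finite_toSet _).image _, ?_⟩
  apply Finsupp.ext
  intro y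
  have h := TL_apply p (G := G) (Sigma.fst '' (f.support : Set (Σ i, X i))) f y
  by_cases a : y.1 ∈ Sigma.fst '' (f.support : Set (Σ i, X i))
  · exact h.1 a
  · refine (h.2 a).trans ?_
    by_contra hne
    exact a ⟨y, Finsupp.mem_support_iff.2 hne, rfl⟩

/-- the tail system of a direct sum of permutation modules -/
noncomputable def TLt (p : ℕ) {G ι : Type} [Group G] {X : ι → Type} [∀ i, MulAction G (X i)] :
    Tail (PX p G (Σ i, X i)) where
  S := {e | ∃ F : Set ι, F.Finite ∧ e = cut p F}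
  ne := ⟨_, ∅, Set.finite_empty, rfl⟩
  mul := by
    rintro _ ⟨F, hF, rfl⟩ _ ⟨F', hF', rfl⟩
    exact ⟨F ∪ F', hF.union hF', TL_mul p F F'⟩
  loc := by
    intro x
    obtain ⟨F, hF, h⟩ := TL_loc p x
    exact ⟨_, ⟨F, hF, rfl⟩, h⟩

/-- the inclusion of a component -/
noncomputable def inc (p : ℕ) {G ι : Type} [Group G] {X : ι → Type} [∀ i, MulAction G (X i)]
    (i : ι) : PX p G (X i) ⟶ PX p G (Σ i, X i) :=
  PXm p (fun x => (⟨i, x⟩ : Σ i, X i)) (fun _ _ => rfl)

theorem TL_inj {ι : Type} {X : ι → Type} (i : ι) :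
    Function.Injective (fun x : X i => (⟨i, x⟩ : Σ i, X i)) := sigma_mk_injective

/-- the additive map underlying the projection -/
noncomputable def TL_pa (p : ℕ) {ι : Type} {X : ι → Type} (i : ι) :
    ((Σ i, X i) →₀ ZMod p) →+ (X i →₀ ZMod p) where
  toFun f := Finsupp.comapDomain (fun x : X i => (⟨i, x⟩ : Σ i, X i)) f (TL_inj i).injOn
  map_zero' := by
    apply Finsupp.ext
    intro x
    rfl
  map_add' f g := by
    apply Finsupp.ext
    intro x
    rfl

theorem TL_pa_apply (p : ℕ) {ι : Type} {X : ι → Type} (i : ι) (f : (Σ i, X i) →₀ ZMod p) (x : X i) :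
    TL_pa p i f x = f ⟨i, x⟩ := rfl

theorem TL_pa_eq (p : ℕ) {G ι : Type} [Group G] {X : ι → Type} [∀ i, MulAction G (X i)] (i : ι)
    (g : G) (f : (Σ i, X i) →₀ ZMod p) :
    TL_pa p i (Finsupp.mapDomain (fun x => g • x) f) =
      Finsupp.mapDomain (fun x => g • x) (TL_pa p i f) := by
  apply Finsupp.ext
  intro x
  have e : x = g • (g⁻¹ • x) := (smul_inv_smul g x).symm
  have e2 : (⟨i, x⟩ : Σ i, X i) = g • (⟨i, g⁻¹ • x⟩ : Σ i, X i) := by
    show (⟨i, x⟩ : Σ i, X i) = ⟨i, g • (g⁻¹ • x)⟩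
    rw [smul_inv_smul]
  rw [TL_pa_apply, e2]
  conv_rhs => rw [e]
  have h1 := Finsupp.mapDomain_apply (M := ZMod p)
    (MulAction.injective (β := Σ i, X i) g) f (⟨i, g⁻¹ • x⟩ : Σ i, X i)
  have h2 := Finsupp.mapDomain_apply (M := ZMod p) (MulAction.injective (β := X i) g)
    (TL_pa p i f) (g⁻¹ • x)
  exact h1.trans h2.symm

/-- the projection to a component -/
noncomputable def TL_prj (p : ℕ) {G ι : Type} [Group G] {X : ι → Type} [∀ i, MulAction G (X i)]
    (i : ι) : PX p G (Σ i, X i) ⟶ PX p G (X i) :=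
  mkZ (M := PX p G (Σ i, X i)) (N := PX p G (X i)) (TL_pa p i) (fun g f => TL_pa_eq p i g f)

theorem TL_sum_hom {G : Type} [Group G] {M N : Rep.{0} ℤ G} {ι : Type} (F : Finset ι)
    (f : ι → (M ⟶ N)) (x : M.V) : (∑ i ∈ F, f i).hom x = ∑ i ∈ F, (f i).hom x := by
  classical
  induction F using Finset.induction_on with
  | empty => rfl
  | insert a s ha ih =>
    rw [Finset.sum_insert ha, Finset.sum_insert ha, ← ih]
    rfl

theorem TL_add_hom {G : Type} [Group G] {M N : Rep.{0} ℤ G} {ι : Type} (F : Finset ι)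
    (e : M ⟶ N) (f : ι → (M ⟶ N)) (x : M.V) :
    (e + ∑ i ∈ F, f i).hom x = e.hom x + ∑ i ∈ F, (f i).hom x := by
  rw [← TL_sum_hom]
  rfl

theorem TL_comp (p : ℕ) {G ι : Type} [Group G] {X : ι → Type} [∀ i, MulAction G (X i)]
    (i : ι) (f : (Σ i, X i) →₀ ZMod p) (y : Σ i, X i) :
    (y.1 = i → (show (Σ i, X i) →₀ ZMod p from
      (TL_prj p (G := G) i ≫ inc p i).hom f) y = f y) ∧
    (y.1 ≠ i → (show (Σ i, X i) →₀ ZMod p from
      (TL_prj p (G := G) i ≫ inc p i).hom f) y = 0) := by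
  obtain ⟨l, x⟩ := y
  refine ⟨fun h => ?_, fun h => ?_⟩
  · subst h
    show Finsupp.mapDomain (fun x => (⟨l, x⟩ : Σ i, X i)) (TL_pa p l f) ⟨l, x⟩ = f ⟨l, x⟩
    exact (Finsupp.mapDomain_apply (TL_inj l) (TL_pa p l f) x).trans (TL_pa_apply p l f x)
  · show Finsupp.mapDomain (fun x => (⟨i, x⟩ : Σ i, X i)) (TL_pa p i f) ⟨l, x⟩ = 0
    refine Finsupp.mapDomain_of_notMem_range _ _ ?_
    rintro ⟨z, hz⟩
    exact h (congrArg Sigma.fst hz).symm

theorem TL_sum (p : ℕ) {G ι : Type} [Group G] {X : ι → Type} [∀ i, MulAction G (X i)] :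
    ∃ prj : ∀ i : ι, PX p G (Σ i, X i) ⟶ PX p G (X i),
      (∀ i, inc p i ≫ prj i = 𝟙 _) ∧
      ∀ F : Finset ι, 𝟙 (PX p G (Σ i, X i)) = cut p (F : Set ι) + ∑ i ∈ F, prj i ≫ inc p i := by
  classical
  refine ⟨fun i => TL_prj p i, fun i => ?_, fun F => ?_⟩
  · apply Rep.hom_ext
    apply DFunLike.ext
    intro u
    apply Finsupp.ext
    intro x
    show Finsupp.mapDomain (fun x => (⟨i, x⟩ : Σ i, X i)) u ⟨i, x⟩ = _
    exact Finsupp.mapDomain_apply (TL_inj i) u x
  · apply Rep.hom_ext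
    apply DFunLike.ext
    intro f
    change (Σ i, X i) →₀ ZMod p at f
    apply Finsupp.ext
    intro y
    have e1 := TL_add_hom F (cut p (G := G) (X := X) (F : Set ι))
      (fun i => TL_prj p (G := G) i ≫ inc p i) f
    refine Eq.trans ?_ (congrArg (fun u : (Σ i, X i) →₀ ZMod p => u y) e1).symm
    show f y = (show (Σ i, X i) →₀ ZMod p from (cut p (G := G) (X := X) (F : Set ι)).hom f) y +
      (show (Σ i, X i) →₀ ZMod p from ∑ i ∈ F, (TL_prj p (G := G) i ≫ inc p i).hom f) y
    have e2 : (show (Σ i, X i) →₀ ZMod p from ∑ i ∈ F, (TL_prj p (G := G) i ≫ inc p i).hom f) y =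
        ∑ i ∈ F, (show (Σ i, X i) →₀ ZMod p from
          (TL_prj p (G := G) i ≫ inc p i).hom f) y :=
      Finsupp.finsetSum_apply F (fun i => (show (Σ i, X i) →₀ ZMod p from
          (TL_prj p (G := G) i ≫ inc p i).hom f)) y
    have h := TL_apply p (G := G) (F : Set ι) f y
    rw [e2]
    by_cases a : y.1 ∈ (F : Set ι)
    · rw [h.1 a, zero_add, Finset.sum_eq_single y.1]
      · exact ((TL_comp p (G := G) y.1 f y).1 rfl).symm
      · intro b _ hb
        exact (TL_comp p (G := G) b f y).2 (fun h => hb h.symm)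
      · intro hb
        exact absurd a hb
    · rw [h.2 a, Finset.sum_eq_zero, add_zero]
      intro b hb
      refine (TL_comp p (G := G) b f y).2 (fun h => a ?_)
      rw [h]
      exact hb

theorem PX_kp (p : ℕ) (G X : Type) [Group G] [MulAction G X] : Kp p (PX p G X) := by
  intro x
  change X →₀ ZMod p at x
  apply Finsupp.ext
  intro a
  show p • x a = 0
  rw [nsmul_eq_mul, ZMod.natCast_self, zero_mul]

end Pool.Agent.H5.PD
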