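import Pool.Agent.H5.PD.TL
import Pool.Agent.H5.PD.SV
import Pool.Agent.H5.PD.Na
import Pool.Agent.H5.PD.CZ

/-!
Module TP (row PDTP).  Cohomology in the top degree `c`.  `E : CX H L`, `Lv p n E`, `CD (ZMod p) H (c+1)`, `t = E.t`.  Use only the STATEMENTS of TL, SV, Na, CZ.  `D = Ext (tz H) (PX p H H) c`.
(1) `TP_tail`: for every type `ι` and `x ∈ Ext (tz H) (PX p H (Σ _ : ι, H)) c` there is a finite `F ⊆ ι` with `x.comp (mk₀ (cut F)) = 0`.  `SV_main` with `Y = Σ _ : ι, H`, `σ ⟨i, h⟩ = ⟨i, t h⟩`, `Z = Σ _ : ι, L` (an `H`-set through `E.π`: `PX p H Z` with `MulAction.compHom` is `Rep.res E.π (PX p L Z)` by `rfl`),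
 `q ⟨i, h⟩ = ⟨i, π h⟩`.  `PXm σ = cmul t` (`t` central), so by `Cen_main` the map `PXm σ - 1` induces `0` on `Ext`, and `x ↦ x.comp (mk₀ q_*)` is injective (`Ext.covariant_sequence_exact₂`).  `hE.dv` with `TLt p` for `PX p L (Σ _ : ι, L)` kills `x.comp (mk₀ q_*)`; `cut_F ≫ q_* = q_* ≫ cut_F`.
(2) `D` has order `1` or `p`: `hc p H c ≤ p` (`c < n`: each factor of the product is `≥ 1`; `c ≥ n`: `CZ_zero`), killed by `p` (`PX_kp`).  So there is `d₀ ∈ D` such that every `d ∈ D` is `a • d₀`, `a : ℕ`.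
(3) `Φ(x) = d₀.comp (mk₀ (PXo p N hN x))`; `PXo` is additive in `x` (check on `single`), so `Φ` is additive.
(4) `Φ` is onto: `ι = N.V`, `P = PX p H (Σ _ : ι, H) → N`, `single ⟨x, h⟩ 1 ↦ h x` is onto (build it with `mkZ`, `Finsupp.liftAddHom`, as `PXo` in Df.lean, or as sum); `Ext^(c+1)` of its kernel (killed by `p`) vanishes (`CZ_zero`), so `y ∈ Ext (tz H) N c` is `y'.comp`, `y' ∈ Ext (tz H) P c`; by (1) and `TL_sum`
 `y' = Σ_{x ∈ F} (y'.comp prj_x).comp inc_x`, `y'.comp prj_x = a_x • d₀`, `inc_x` followed by `P → N` is `PXo x`; so `y = Σ a_x • Φ(x) = Φ(Σ a_x • x)`.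
(5) `PXo (g x) = ρ_g ≫ PXo x` with `ρ_g = PXm p (· * g)` (right multiplication, `H`-equivariant), `d₀.comp (mk₀ ρ_g) = χ(g) • d₀` for some natural number `χ(g)`; not divisible by `p`: if `D = 0` take `χ(g) = 1`; otherwise `ρ_g` is invertible (`ρ_g ≫ ρ_{g⁻¹} = 1`), `d₀ ≠ 0`.
-/

namespace Pool.Agent.H5.PD

open CategoryTheory CategoryTheory.Abelian CategoryTheory.Limits Pool.Agent.H5.CP
  Pool.Agent.H75.CP Pool.Agent.H5.ZP

/-- multiplication by `t` on the second component -/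
def TP_sig {H : Type} [Group H] (ι : Type) (t : H) : Equiv.Perm (Σ _ : ι, H) where
  toFun y := ⟨y.1, t * y.2⟩
  invFun y := ⟨y.1, t⁻¹ * y.2⟩
  left_inv y := by
    rcases y with ⟨i, h⟩
    show (⟨i, t⁻¹ * (t * h)⟩ : Σ _ : ι, H) = ⟨i, h⟩
    rw [inv_mul_cancel_left]
  right_inv y := by
    rcases y with ⟨i, h⟩
    show (⟨i, t * (t⁻¹ * h)⟩ : Σ _ : ι, H) = ⟨i, h⟩
    rw [mul_inv_cancel_left]

theorem TP_pow {H : Type} [Group H] (ι : Type) (t : H) (n : ℕ) (i : ι) (h : H) :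
    ((TP_sig ι t) ^ n) ⟨i, h⟩ = ⟨i, t ^ n * h⟩ := by
  induction n with
  | zero => rw [pow_zero, pow_zero, one_mul]; rfl
  | succ n ih =>
    rw [pow_succ', Equiv.Perm.mul_apply, ih, pow_succ', mul_assoc]
    rfl

theorem TP_zpow {H : Type} [Group H] (ι : Type) (t : H) (n : ℤ) (i : ι) (h : H) :
    ((TP_sig ι t) ^ n) ⟨i, h⟩ = ⟨i, t ^ n * h⟩ := by
  cases n with
  | ofNat n =>
    rw [Int.ofNat_eq_natCast, zpow_natCast, zpow_natCast]
    exact TP_pow ι t n i h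
  | negSucc n =>
    rw [zpow_negSucc, zpow_negSucc, Equiv.Perm.inv_eq_iff_eq, TP_pow, mul_inv_cancel_left]

theorem TP_q (p : ℕ) {ι A B : Type} (q : A → B) (F : Set ι)
    [DecidablePred (fun y : (Σ _ : ι, A) => y.1 ∉ F)]
    [DecidablePred (fun y : (Σ _ : ι, B) => y.1 ∉ F)] (f : (Σ _ : ι, A) →₀ ZMod p) :
    Finsupp.mapDomain (fun y : (Σ _ : ι, A) => (⟨y.1, q y.2⟩ : Σ _ : ι, B))
        (Finsupp.filter (fun y : (Σ _ : ι, A) => y.1 ∉ F) f) =
      Finsupp.filter (fun y : (Σ _ : ι, B) => y.1 ∉ F)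
        (Finsupp.mapDomain (fun y : (Σ _ : ι, A) => (⟨y.1, q y.2⟩ : Σ _ : ι, B)) f) := by
  induction f using Finsupp.induction_linear with
  | zero => rw [Finsupp.filter_zero, Finsupp.mapDomain_zero, Finsupp.filter_zero]
  | add a b ha hb =>
    rw [Finsupp.filter_add, Finsupp.mapDomain_add, Finsupp.mapDomain_add, Finsupp.filter_add, ha, hb]
  | single y a =>
    rw [Finsupp.mapDomain_single]
    by_cases h : y.1 ∈ F
    · rw [Finsupp.filter_single_of_neg, Finsupp.filter_single_of_neg, Finsupp.mapDomain_zero]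
      · exact fun h1 => h1 h
      · exact fun h1 => h1 h
    · rw [Finsupp.filter_single_of_pos (fun y : (Σ _ : ι, A) => y.1 ∉ F) h,
        Finsupp.filter_single_of_pos, Finsupp.mapDomain_single]
      exact h

theorem TP_tail {H L : Type} [Group H] [Group L] (E : CX H L) (p : ℕ) [Fact p.Prime] (n : ℕ)
    (hE : Lv p n E) (c : ℕ) (ι : Type) (x : Ext (tz H) (PX p H (Σ _ : ι, H)) c) :
    ∃ F : Set ι, F.Finite ∧ x.comp (Ext.mk₀ (cut p F)) (add_zero c) = 0 := by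
  classical
  have hcent : ∀ g : H, E.t * g = g * E.t := fun g => (Subgroup.mem_center_iff.1 E.cent g).symm
  obtain ⟨σ, hσdef⟩ : ∃ σ : Equiv.Perm (Σ _ : ι, H), σ = TP_sig ι E.t := ⟨_, rfl⟩
  have hσ : ∀ (g : H) (y : Σ _ : ι, H), σ (g • y) = g • σ y := by
    rintro g ⟨i, h⟩
    rw [hσdef]
    show (⟨i, E.t * (g * h)⟩ : Σ _ : ι, H) = ⟨i, g * (E.t * h)⟩
    rw [← mul_assoc, hcent, mul_assoc]
  have hfree : ∀ (n : ℤ) (y : Σ _ : ι, H), (σ ^ n) y = y → n = 0 := by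
    rintro n ⟨i, h⟩ hy
    rw [hσdef, TP_zpow] at hy
    have h1 : E.t ^ n * h = h := eq_of_heq (Sigma.mk.inj hy).2
    exact E.inf n (mul_eq_right.1 h1)
  let actZ : MulAction H (Σ _ : ι, L) := MulAction.compHom _ E.π
  let q : (Σ _ : ι, H) → (Σ _ : ι, L) := fun y => ⟨y.1, E.π y.2⟩
  have hq : ∀ (g : H) (y : Σ _ : ι, H), q (g • y) = g • q y := by
    rintro g ⟨i, h⟩
    show (⟨i, E.π (g * h)⟩ : Σ _ : ι, L) = ⟨i, E.π g * E.π h⟩
    rw [map_mul]
  have hs : Function.Surjective q := by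
    rintro ⟨i, l⟩
    obtain ⟨h, rfl⟩ := E.surj l
    exact ⟨⟨i, h⟩, rfl⟩
  have hfib : ∀ y y' : Σ _ : ι, H, q y = q y' ↔ ∃ n : ℤ, (σ ^ n) y = y' := by
    rintro ⟨i, h⟩ ⟨i', h'⟩
    constructor
    · intro e
      have e1 : i = i' := congrArg Sigma.fst e
      subst e1
      have e2 : E.π h = E.π h' := eq_of_heq (Sigma.mk.inj e).2
      have e3 : E.π (h' * h⁻¹) = 1 := by rw [map_mul, map_inv, e2, mul_inv_cancel]
      obtain ⟨n, hn⟩ := (E.ker _).1 e3
      refine ⟨n, ?_⟩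
      rw [hσdef, TP_zpow, ← hn, inv_mul_cancel_right]
    · rintro ⟨n, hn⟩
      rw [hσdef, TP_zpow] at hn
      rw [← hn]
      show (⟨i, E.π h⟩ : Σ _ : ι, L) = ⟨i, E.π (E.t ^ n * h)⟩
      rw [map_mul, (E.ker _).2 ⟨n, rfl⟩, one_mul]
  obtain ⟨w, hw⟩ := SV_main p (K := H) (Y := Σ _ : ι, H) (Z := Σ _ : ι, L) σ hσ hfree q hq hs hfib
  obtain ⟨e, ⟨e', ⟨F, hF, rfl⟩, rfl⟩, he⟩ := hE.dv (PX p L (Σ _ : ι, L)) (PX_kp p L _) (TLt p) c
    (x.comp (Ext.mk₀ (PXm p q hq)) (add_zero c))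
  refine ⟨F, hF, ?_⟩
  obtain ⟨e2, he2⟩ : ∃ e2 : PX p H (Σ _ : ι, L) ⟶ PX p H (Σ _ : ι, L),
      e2 = (Rep.resFunctor E.π).map (cut p (G := L) (X := fun _ : ι => L) F) := ⟨_, rfl⟩
  have he' : (x.comp (Ext.mk₀ (PXm p q hq)) (add_zero c)).comp (Ext.mk₀ e2) (add_zero c) = 0 := by
    rw [he2]
    exact he
  have hcut : cut p (G := H) (X := fun _ : ι => H) F ≫ PXm p q hq = PXm p q hq ≫ e2 := by
    rw [he2]
    apply Rep.hom_ext
    apply Representation.IntertwiningMap.ext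
    apply LinearMap.ext
    intro f
    exact TP_q p (E.π : H → L) F f
  have h1 : (x.comp (Ext.mk₀ (cut p F)) (add_zero c)).comp (Ext.mk₀ (PXm p q hq)) (add_zero c) = 0 := by
    rw [Ext.comp_assoc_of_third_deg_zero, Ext.mk₀_comp_mk₀, hcut, ← Ext.mk₀_comp_mk₀,
      ← Ext.comp_assoc_of_third_deg_zero]
    exact he'
  obtain ⟨z, hz⟩ : ∃ z : Ext (tz H) (PX p H (Σ _ : ι, H)) c,
      z.comp (Ext.mk₀ (PXm p σ hσ - 𝟙 (PX p H (Σ _ : ι, H)))) (add_zero c) =
        x.comp (Ext.mk₀ (cut p F)) (add_zero c) := by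
    obtain ⟨z, hz⟩ := Ext.covariant_sequence_exact₂ (tz H) hw _ h1
    exact ⟨z, hz⟩
  rw [← hz]
  have hc : PXm p σ hσ = cmul E.t E.cent (PX p H (Σ _ : ι, H)) := by
    apply Rep.hom_ext
    apply Representation.IntertwiningMap.ext
    apply LinearMap.ext
    intro f
    show Finsupp.mapDomain σ f = Finsupp.mapDomain (fun y => E.t • y) f
    congr 1
    funext y
    rw [hσdef]
    rfl
  have h2 : z.comp (Ext.mk₀ (PXm p σ hσ)) (add_zero c) = z := by
    rw [hc]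
    exact Cen_main E.t E.cent _ c z
  have h3 : z.comp (Ext.mk₀ (PXm p σ hσ)) (add_zero c) =
      z.comp (Ext.mk₀ (PXm p σ hσ - 𝟙 (PX p H (Σ _ : ι, H)))) (add_zero c) + z := by
    have h4 : PXm p σ hσ = (PXm p σ hσ - 𝟙 (PX p H (Σ _ : ι, H))) + 𝟙 _ := (sub_add_cancel _ _).symm
    conv_lhs => rw [h4]
    rw [Ext.mk₀_add, Ext.comp_add, Ext.comp_mk₀_id]
  rw [h2] at h3
  exact (right_eq_add.1 h3)

/-- composition with a fixed class -/
noncomputable def TPc {G : Type} [Group G] {X A : Rep.{0} ℤ G} {j : ℕ} (z : Ext X A j)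
    (B : Rep.{0} ℤ G) : (A ⟶ B) →+ Ext X B j where
  toFun g := z.comp (Ext.mk₀ g) (add_zero j)
  map_zero' := by rw [Ext.mk₀_zero, Ext.comp_zero]
  map_add' f g := by rw [Ext.mk₀_add, Ext.comp_add]

theorem TPc_apply {G : Type} [Group G] {X A : Rep.{0} ℤ G} {j : ℕ} (z : Ext X A j)
    (B : Rep.{0} ℤ G) (g : A ⟶ B) : TPc z B g = z.comp (Ext.mk₀ g) (add_zero j) := rfl

/-- classes with coefficients killed by `p` are killed by `p` -/
theorem TP_kill {G : Type} [Group G] (p : ℕ) {X N : Rep.{0} ℤ G} (hN : Kp p N) {j : ℕ}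
    (z : Ext X N j) : p • z = 0 := by
  have h1 : p • (𝟙 N) = 0 := by
    apply Rep.hom_ext
    refine DFunLike.ext _ _ fun f => ?_
    exact hN f
  have h2 := map_nsmul (TPc z N) p (𝟙 N)
  rw [h1, map_zero, TPc_apply, Ext.comp_mk₀_id] at h2
  exact h2.symm

theorem TP_gen {H L : Type} [Group H] [Group L] (E : CX H L) (p : ℕ) [Fact p.Prime] (n : ℕ)
    (hE : Lv p n E) (c : ℕ) :
    ∃ d₀ : Ext (tz H) (PX p H H) c, ∀ d : Ext (tz H) (PX p H H) c, ∃ a : ℕ, d = a • d₀ := by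
  have hp : p.Prime := Fact.out
  have hfin := hE.fin c
  have hcard : Nat.card (Ext (tz H) (PX p H H) c) ≤ p := by
    rcases lt_or_ge c n with h | h
    · have h1 : hc p H c ∣ ∏ j ∈ Finset.range n, hc p H j :=
        Finset.dvd_prod_of_mem _ (Finset.mem_range.2 h)
      have h2 : 0 < ∏ j ∈ Finset.range n, hc p H j := by
        apply Finset.prod_pos
        intro j _
        have := hE.fin j
        exact Nat.card_pos
      exact (Nat.le_of_dvd h2 h1).trans hE.size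
    · have h1 : Subsingleton (Ext (tz H) (PX p H H) c) := by
        refine ⟨fun a b => ?_⟩
        rw [CZ_zero p n hE.cd _ (PX_kp p H H) c h a, CZ_zero p n hE.cd _ (PX_kp p H H) c h b]
      rw [Nat.card_eq_one_iff_unique.2 ⟨h1, ⟨0⟩⟩]
      exact hp.one_lt.le
  by_cases h0 : ∃ d₀ : Ext (tz H) (PX p H H) c, d₀ ≠ 0
  · obtain ⟨d₀, hd₀⟩ := h0
    have h1 : addOrderOf d₀ = p :=
      addOrderOf_eq_prime (TP_kill p (PX_kp p H H) d₀) hd₀
    have h2 : AddSubgroup.zmultiples d₀ = ⊤ := by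
      apply AddSubgroup.eq_top_of_le_card
      rw [Nat.card_zmultiples, h1]
      exact hcard
    refine ⟨d₀, fun d => ?_⟩
    have h3 : d ∈ AddSubgroup.zmultiples d₀ := by
      rw [h2]
      exact AddSubgroup.mem_top d
    rw [← mem_multiples_iff_mem_zmultiples] at h3
    obtain ⟨a, ha⟩ := h3
    exact ⟨a, ha.symm⟩
  · push Not at h0
    exact ⟨0, fun d => ⟨0, by rw [h0 d, zero_smul]⟩⟩

theorem TP_add (p : ℕ) [NeZero p] {X V : Type} [AddCommGroup V] (f g : (X →₀ ZMod p) →+ V)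
    (h : ∀ x : X, f (Finsupp.single x (1 : ZMod p)) = g (Finsupp.single x (1 : ZMod p))) : f = g := by
  apply AddMonoidHom.ext
  intro u
  induction u using Finsupp.induction_linear with
  | zero => rw [map_zero, map_zero]
  | add a b ha hb => rw [map_add, map_add, ha, hb]
  | single a b =>
    obtain ⟨m, rfl⟩ : ∃ m : ℕ, (m : ZMod p) = b := ⟨b.val, ZMod.natCast_zmod_val b⟩
    have h1 : (Finsupp.single a ((m : ℕ) : ZMod p) : X →₀ ZMod p) =
        m • Finsupp.single a (1 : ZMod p) := by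
      rw [Finsupp.smul_single, nsmul_one]
    rw [h1, map_nsmul, map_nsmul, h a]

/-- maps out of `F_p[X]` agree if they agree on the basis -/
theorem TP_ext (p : ℕ) [NeZero p] {G X : Type} [Group G] [MulAction G X] {N : Rep.{0} ℤ G}
    {f g : PX p G X ⟶ N}
    (h : ∀ x : X, f.hom (Finsupp.single x (1 : ZMod p)) = g.hom (Finsupp.single x (1 : ZMod p))) :
    f = g := by
  apply Rep.hom_ext
  refine DFunLike.ext _ _ fun u => ?_
  have h1 := TP_add p (X := X) (V := N.V)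
    (AddMonoidHom.mk' (fun u : X →₀ ZMod p => f.hom u) (fun a b => map_add f.hom a b))
    (AddMonoidHom.mk' (fun u : X →₀ ZMod p => g.hom u) (fun a b => map_add g.hom a b)) h
  exact DFunLike.congr_fun h1 u

/-- the additive map `⟨x, h⟩ ↦ h x` -/
noncomputable def TPa (p : ℕ) {G : Type} [Group G] (N : Rep.{0} ℤ G) (hN : Kp p N) :
    ((Σ _ : N.V, G) →₀ ZMod p) →+ N.V :=
  letI : Module (ZMod p) N.V := AddCommGroup.zmodModule hN
  Finsupp.liftAddHom (fun y : (Σ _ : N.V, G) =>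
    ((LinearMap.toSpanSingleton (ZMod p) N.V (N.ρ y.2 y.1)).toAddMonoidHom : ZMod p →+ N.V))

theorem TPa_single (p : ℕ) {G : Type} [Group G] (N : Rep.{0} ℤ G) (hN : Kp p N)
    (y : Σ _ : N.V, G) (a : ℕ) :
    TPa p N hN (Finsupp.single y (a : ZMod p)) = a • N.ρ y.2 y.1 := by
  let _ : Module (ZMod p) N.V := AddCommGroup.zmodModule hN
  show Finsupp.liftAddHom _ (Finsupp.single y (a : ZMod p)) = _
  rw [Finsupp.liftAddHom_apply_single]
  show (a : ZMod p) • N.ρ y.2 y.1 = a • N.ρ y.2 y.1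
  exact Nat.cast_smul_eq_nsmul (ZMod p) a (N.ρ y.2 y.1)

/-- the equivariant map `⟨x, h⟩ ↦ h x` -/
noncomputable def TPo (p : ℕ) [NeZero p] {G : Type} [Group G] (N : Rep.{0} ℤ G) (hN : Kp p N) :
    PX p G (Σ _ : N.V, G) ⟶ N :=
  mkZ (M := PX p G (Σ _ : N.V, G)) (TPa p N hN) (by
    intro g u
    show TPa p N hN (Finsupp.mapDomain _ u) = N.ρ g (TPa p N hN u)
    change (Σ _ : N.V, G) →₀ ZMod p at u
    induction u using Finsupp.induction_linear with
    | zero => rw [Finsupp.mapDomain_zero, map_zero, map_zero]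
    | add a b ha hb =>
      rw [Finsupp.mapDomain_add, map_add, map_add, map_add, ha, hb]
    | single a b =>
      rw [Finsupp.mapDomain_single]
      obtain ⟨m, rfl⟩ : ∃ m : ℕ, (m : ZMod p) = b := ⟨b.val, ZMod.natCast_zmod_val b⟩
      rw [TPa_single, TPa_single, map_nsmul]
      show m • N.ρ (g * a.2) a.1 = m • N.ρ g (N.ρ a.2 a.1)
      rw [map_mul]
      rfl)

theorem TPo_single (p : ℕ) [NeZero p] {G : Type} [Group G] (N : Rep.{0} ℤ G) (hN : Kp p N)
    (y : Σ _ : N.V, G) : (TPo p N hN).hom (Finsupp.single y (1 : ZMod p)) = N.ρ y.2 y.1 := by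
  have h := TPa_single p N hN y 1
  rw [one_smul, Nat.cast_one] at h
  exact h

/-- right multiplication by `g` -/
noncomputable def TPr (p : ℕ) {G : Type} [Group G] (g : G) : PX p G G ⟶ PX p G G :=
  PXm p (fun h => h * g) (fun k h => mul_assoc k h g)

theorem TPr_single (p : ℕ) {G : Type} [Group G] (g h : G) :
    ((TPr p g).hom (Finsupp.single h (1 : ZMod p)) : G →₀ ZMod p) =
      Finsupp.single (h * g) (1 : ZMod p) :=
  Finsupp.mapDomain_single

theorem TP_main {H L : Type} [Group H] [Group L] (E : CX H L) (p : ℕ) [Fact p.Prime] (n : ℕ)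
    (hE : Lv p n E) (c : ℕ) (hc : CD (ZMod p) H (c + 1)) (N : Rep.{0} ℤ H) (hN : Kp p N) :
    ∃ (Φ : N.V → Ext (tz H) N c) (χ : H → ℕ), (∀ x y, Φ (x + y) = Φ x + Φ y) ∧
      Function.Surjective Φ ∧ (∀ g, ¬ p ∣ χ g) ∧ ∀ g x, Φ (N.ρ g x) = χ g • Φ x := by
  classical
  have hp : p.Prime := Fact.out
  have hne : NeZero p := ⟨hp.ne_zero⟩
  obtain ⟨d₀, hd₀⟩ := TP_gen E p n hE c
  have hadd : ∀ x y : N.V, PXo p N hN (x + y) = PXo p N hN x + PXo p N hN y := by
    intro x y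
    apply TP_ext
    intro h
    rw [Rep.add_hom]
    show _ = (PXo p N hN x).hom _ + (PXo p N hN y).hom _
    rw [PXo_single, PXo_single, PXo_single, map_add]
  let Ψ : N.V →+ (PX p H H ⟶ N) := AddMonoidHom.mk' (fun x => PXo p N hN x) hadd
  let Φ : N.V →+ Ext (tz H) N c := (TPc d₀ N).comp Ψ
  have hΦ : ∀ x, Φ x = d₀.comp (Ext.mk₀ (PXo p N hN x)) (add_zero c) := fun _ => rfl
  have hr : ∀ (g : H) (x : N.V), PXo p N hN (N.ρ g x) = TPr p g ≫ PXo p N hN x := by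
    intro g x
    apply TP_ext
    intro h
    rw [PXo_single]
    show N.ρ h (N.ρ g x) = (PXo p N hN x).hom ((TPr p g).hom (Finsupp.single h (1 : ZMod p)))
    rw [TPr_single, PXo_single, map_mul]
    rfl
  -- the character
  have hχ : ∀ g : H, ∃ a : ℕ, ¬ p ∣ a ∧ d₀.comp (Ext.mk₀ (TPr p g)) (add_zero c) = a • d₀ := by
    intro g
    by_cases h0 : d₀ = 0
    · refine ⟨1, hp.one_lt.ne' ∘ Nat.dvd_one.1, ?_⟩
      rw [h0, Ext.zero_comp, smul_zero]
    · obtain ⟨a, ha⟩ := hd₀ (d₀.comp (Ext.mk₀ (TPr p g)) (add_zero c))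
      refine ⟨a, ?_, ha⟩
      rintro ⟨b, rfl⟩
      apply h0
      have h1 : d₀.comp (Ext.mk₀ (TPr p g)) (add_zero c) = 0 := by
        rw [ha, mul_comm, mul_smul, TP_kill p (PX_kp p H H) d₀, smul_zero]
      have h2 : TPr p g ≫ TPr p g⁻¹ = 𝟙 (PX p H H) := by
        apply TP_ext
        intro h
        show (TPr p g⁻¹).hom ((TPr p g).hom (Finsupp.single h (1 : ZMod p))) =
          (Finsupp.single h (1 : ZMod p) : H →₀ ZMod p)
        rw [TPr_single, TPr_single, mul_inv_cancel_right]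
      have h3 : (d₀.comp (Ext.mk₀ (TPr p g)) (add_zero c)).comp (Ext.mk₀ (TPr p g⁻¹))
          (add_zero c) = d₀ := by
        rw [Ext.comp_assoc_of_third_deg_zero, Ext.mk₀_comp_mk₀, h2, Ext.comp_mk₀_id]
      rw [← h3, h1, Ext.zero_comp]
  choose χ hχ1 hχ2 using hχ
  refine ⟨Φ, χ, fun x y => map_add Φ x y, ?_, hχ1, ?_⟩
  · intro y
    -- the kernel of `P → N`
    have hsurj : Function.Surjective (TPo p N hN).hom := by
      intro x
      refine ⟨Finsupp.single ⟨x, 1⟩ (1 : ZMod p), ?_⟩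
      rw [TPo_single, map_one]
      rfl
    have hepi : Epi (TPo p N hN) := (Rep.epi_iff_surjective _).2 hsurj
    let S : ShortComplex (Rep.{0} ℤ H) :=
      ShortComplex.mk (kernel.ι (TPo p N hN)) (TPo p N hN) (kernel.condition _)
    have hS : S.ShortExact :=
      { exact := ShortComplex.exact_kernel _
        mono_f := inferInstanceAs (Mono (kernel.ι (TPo p N hN)))
        epi_g := hepi }
    have hK : Kp p (kernel (TPo p N hN)) := by
      intro u
      have hinj := (Rep.mono_iff_injective (kernel.ι (TPo p N hN))).1 inferInstance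
      apply hinj
      rw [map_nsmul, map_zero]
      exact PX_kp p H _ _
    obtain ⟨y', hy'⟩ := Ext.covariant_sequence_exact₃ (tz H) hS y (rfl : c + 1 = c + 1)
      (CZ_zero p (c + 1) hc _ hK (c + 1) le_rfl _)
    obtain ⟨F, hF, hcut⟩ := TP_tail E p n hE c N.V y'
    obtain ⟨prj, -, hprj⟩ := TL_sum p (G := H) (X := fun _ : N.V => H)
    have hsum := hprj hF.toFinset
    rw [hF.coe_toFinset] at hsum
    have hinc : ∀ i : N.V, inc p (G := H) (X := fun _ : N.V => H) i ≫ TPo p N hN =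
        PXo p N hN i := by
      intro i
      apply TP_ext
      intro h
      rw [PXo_single]
      show (TPo p N hN).hom (Finsupp.mapDomain _ (Finsupp.single h (1 : ZMod p))) = _
      rw [Finsupp.mapDomain_single, TPo_single]
    choose a ha using fun i : N.V => hd₀ (y'.comp (Ext.mk₀ (prj i)) (add_zero c))
    refine ⟨∑ i ∈ hF.toFinset, a i • i, ?_⟩
    rw [map_sum, ← hy']
    have h1 : TPc y' N (TPo p N hN) =
        TPc y' N ((cut p F + ∑ i ∈ hF.toFinset,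
          prj i ≫ inc p (G := H) (X := fun _ : N.V => H) i) ≫ TPo p N hN) := by
      rw [← hsum, Category.id_comp]
    have h2 : TPc y' N (cut p F ≫ TPo p N hN) = 0 := by
      rw [TPc_apply, ← Ext.mk₀_comp_mk₀, ← Ext.comp_assoc_of_third_deg_zero, hcut, Ext.zero_comp]
    rw [Preadditive.add_comp, map_add, h2, zero_add, Preadditive.sum_comp, map_sum] at h1
    show _ = TPc y' N (TPo p N hN)
    rw [h1]
    refine Finset.sum_congr rfl fun i _ => ?_
    rw [map_nsmul, hΦ, TPc_apply, Category.assoc, hinc, ← Ext.mk₀_comp_mk₀,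
      ← Ext.comp_assoc_of_third_deg_zero, ha i]
    exact (map_nsmul ((Ext.bilinearComp (tz H) (PX p H H) N c 0 c (add_zero c)).flip
      (Ext.mk₀ (PXo p N hN i))) (a i) d₀).symm
  · intro g x
    rw [hΦ, hr, ← Ext.mk₀_comp_mk₀, ← Ext.comp_assoc_of_third_deg_zero, hχ2, hΦ]
    exact map_nsmul ((Ext.bilinearComp (tz H) (PX p H H) N c 0 c (add_zero c)).flip
      (Ext.mk₀ (PXo p N hN x))) (χ g) d₀

end Pool.Agent.H5.PD
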