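import Pool.Agent.H5.PD.XC

/-!
Module VI (row PDVI).  `C0 S (F_p[X])`, restricted along `π : H → L`, is `F_p[H/W]`, `W` the preimage in `H` of the stabiliser of `x₀ ∈ X` (`X` a transitive `S`-set).  Same proof as `IX_main` in IX.lean (read it first; there `X = L'`, `x₀ = 1`, `W = ⟨u⟩`): `Ψ f (g W) = f((π g)⁻¹)(x₀)`.
 Well defined: for `w ∈ W`, `π w = s ∈ S`, `s x₀ = x₀`: `f((π (g w))⁻¹)(x₀) = f(s⁻¹ (π g)⁻¹)(x₀) = (s⁻¹ • f((π g)⁻¹))(x₀) = f((π g)⁻¹)(s x₀)`.  Finite support, equivariant, injective (`f(x)(y)` with `y = s⁻¹ • x₀`-type elements: `f(s x)(s y) = f(x)(y)`, `π` onto), surjective (the element `dlt`-like with value `single (s x₀) a` at `s ∈ S`).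
 The generator: `Ψ (dlt S _ (single x₀ 1)) = single (mk 1) 1` (`dlt_apply`/definition of `dlt` in XC.lean: value `ρ(s) m` at `s ∈ S`, `0` outside).
-/

namespace Pool.Agent.H5.PD

open CategoryTheory CategoryTheory.Abelian CategoryTheory.Limits Pool.Agent.H5.CP
  Pool.Agent.H75.CP Pool.Agent.H5.ZP

section VIs

variable {H L X : Type} [Group H] [Group L] (π : H →* L)
    (S : Subgroup L) [MulAction S X] (x₀ : X)
    (W : Subgroup H) (hW : ∀ g : H, g ∈ W ↔ ∃ s : S, (s : L) = π g ∧ s • x₀ = x₀) (p : ℕ)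

/-- the value at `x` -/
noncomputable def VIw (f : (C0 S (PX p S X)).V) (x : L) : X →₀ ZMod p := f.1.1 x

/-- the value at `g` -/
noncomputable def VIv (f : (C0 S (PX p S X)).V) (g : H) : ZMod p := VIw S p f (π g)⁻¹ x₀

theorem VI_val (f : (C0 S (PX p S X)).V) (s : S) (x : L) (y : X) :
    VIw S p f ((s : L) * x) (s • y) = VIw S p f x y := by
  have h : VIw S p f ((s : L) * x) = Finsupp.mapDomain (fun y => s • y) (VIw S p f x) := f.1.2 s x
  rw [h]
  exact Finsupp.mapDomain_apply (MulAction.injective s) _ y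

include hW in
theorem VIv_u (f : (C0 S (PX p S X)).V) (g w : H) (hw : w ∈ W) :
    VIv π S x₀ p f (g * w) = VIv π S x₀ p f g := by
  obtain ⟨s, hs, h1⟩ := (hW _).1 (W.inv_mem hw)
  have h := VI_val S p f s ((π g)⁻¹) x₀
  rw [h1, hs] at h
  have h2 : π w⁻¹ * (π g)⁻¹ = (π (g * w))⁻¹ := by
    rw [map_inv, map_mul, mul_inv_rev]
  rw [h2] at h
  exact h

/-- the function on the quotient -/
noncomputable def VIq (f : (C0 S (PX p S X)).V) : H ⧸ W → ZMod p := fun q => VIv π S x₀ p f q.out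

include hW in
theorem VIq_mk (f : (C0 S (PX p S X)).V) (g : H) :
    VIq π S x₀ W p f (g : H ⧸ W) = VIv π S x₀ p f g := by
  obtain ⟨h, hh⟩ := QuotientGroup.mk_out_eq_mul W g
  show VIv π S x₀ p f (Quotient.out (g : H ⧸ W)) = _
  rw [hh]
  exact VIv_u π S x₀ W hW p f g _ h.2

include hW in
theorem VIq_fin (f : (C0 S (PX p S X)).V) :
    (Function.support (VIq π S x₀ W p f)).Finite := by
  obtain ⟨F, hF, h⟩ := f.2
  have key : Function.support (VIq π S x₀ W p f) ⊆ ⋃ a ∈ F, ⋃ l ∈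
      (VIw S p f a).support, {q : H ⧸ W | ∃ g : H,
        (g : H ⧸ W) = q ∧ ∃ s : S, (π g)⁻¹ = (s : L) * a ∧ s⁻¹ • x₀ = l} := by
    intro q hq
    have hq' : VIv π S x₀ p f q.out ≠ 0 := hq
    have h0 : f.1.1 (π q.out)⁻¹ ≠ 0 := by
      intro h0
      apply hq'
      have h00 : VIw S p f (π q.out)⁻¹ = 0 := h0
      show VIw S p f (π q.out)⁻¹ x₀ = 0
      rw [h00]
      rfl
    obtain ⟨a, ha, s, hs⟩ := h _ h0
    refine Set.mem_biUnion ha ?_
    refine Set.mem_biUnion (x := s⁻¹ • x₀) ?_ ?_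
    · apply Finsupp.mem_support_iff.2
      have h2 := VI_val S p f s a (s⁻¹ • x₀)
      rw [smul_inv_smul, ← hs] at h2
      rw [← h2]
      exact hq'
    · exact ⟨q.out, QuotientGroup.out_eq' q, s, hs, rfl⟩
  refine Set.Finite.subset ?_ key
  refine Set.Finite.biUnion hF fun a _ => ?_
  refine Set.Finite.biUnion (Finset.finite_toSet _) fun l _ => ?_
  apply Set.Subsingleton.finite
  rintro q ⟨g, rfl, s, hs, hl⟩ q' ⟨g', rfl, s', hs', hl'⟩
  rw [QuotientGroup.eq, hW]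
  refine ⟨s * s'⁻¹, ?_, ?_⟩
  · have h1 : π g' = a⁻¹ * (s' : L)⁻¹ := by
      rw [← inv_inv (π g'), hs', mul_inv_rev]
    rw [map_mul, map_inv, hs, h1]
    show (s : L) * (s' : L)⁻¹ = _
    group
  · rw [mul_smul, hl', ← hl, smul_inv_smul]

end VIs

theorem VI_main {H L X : Type} [Group H] [Group L] (π : H →* L) (hπ : Function.Surjective π)
    (S : Subgroup L) [MulAction S X] (x₀ : X) (htr : ∀ x : X, ∃ s : S, s • x₀ = x)
    (W : Subgroup H) (hW : ∀ g : H, g ∈ W ↔ ∃ s : S, (s : L) = π g ∧ s • x₀ = x₀) (p : ℕ)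
    [Fact p.Prime] :
    ∃ φ : Rep.res π (C0 S (PX p S X)) ≅ PX p H (H ⧸ W),
      φ.inv.hom (Finsupp.single (QuotientGroup.mk (1 : H)) (1 : ZMod p) : (H ⧸ W) →₀ ZMod p) =
      dlt S (PX p S X) (Finsupp.single x₀ (1 : ZMod p) : X →₀ ZMod p) := by
  classical
  have hmk := VIq_mk π S x₀ W hW p
  let Ψ : (C0 S (PX p S X)).V →+ ((H ⧸ W) →₀ ZMod p) :=
    { toFun := fun f => Finsupp.ofSupportFinite (VIq π S x₀ W p f) (VIq_fin π S x₀ W hW p f)
      map_zero' := by
        ext q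
        rfl
      map_add' := by
        intro f g
        ext q
        rfl }
  have hΨ : ∀ (f : (C0 S (PX p S X)).V) (g : H),
      Ψ f (g : H ⧸ W) = VIv π S x₀ p f g := fun f g => hmk f g
  have hΨe : ∀ (h : H) (f : (C0 S (PX p S X)).V),
      Ψ ((C0 S (PX p S X)).ρ (π h) f) = Finsupp.mapDomain (fun q => h • q) (Ψ f) := by
    intro h f
    ext q
    obtain ⟨g, rfl⟩ := QuotientGroup.mk_surjective q
    have h1 : (g : H ⧸ W) = h • ((h⁻¹ * g : H) : H ⧸ W) := by
      show _ = ((h * (h⁻¹ * g) : H) : H ⧸ W)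
      rw [mul_inv_cancel_left]
    rw [hΨ]
    conv_rhs => rw [h1]
    rw [Finsupp.mapDomain_apply (MulAction.injective h), hΨ]
    show VIw S p f ((π g)⁻¹ * π h) x₀ = VIw S p f (π (h⁻¹ * g))⁻¹ x₀
    rw [map_mul, map_inv, mul_inv_rev, inv_inv]
  have hinj : Function.Injective Ψ := by
    rw [injective_iff_map_eq_zero]
    intro f hf
    apply Subtype.ext
    apply Subtype.ext
    funext x
    show VIw S p f x = 0
    ext l
    obtain ⟨s, hs⟩ := htr l
    have h2 := VI_val S p f s⁻¹ x l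
    rw [← hs, inv_smul_smul, hs] at h2
    obtain ⟨g, hg⟩ := hπ (((s⁻¹ : S) : L) * x)⁻¹
    have h3 : VIv π S x₀ p f g = 0 := by rw [← hΨ, hf]; rfl
    have h4 : (π g)⁻¹ = ((s⁻¹ : S) : L) * x := by rw [hg, inv_inv]
    have h5 : VIw S p f (π g)⁻¹ x₀ = 0 := h3
    rw [h4, h2] at h5
    rw [h5]
    rfl
  have hd : ∀ a : ZMod p, Ψ (dlt S (PX p S X) (Finsupp.single x₀ a : X →₀ ZMod p)) =
      Finsupp.single ((1 : H) : H ⧸ W) a := by
    intro a
    have hv : ∀ (x : L) (h : x ∈ S),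
        VIw S p (dlt S (PX p S X) (Finsupp.single x₀ a : X →₀ ZMod p)) x =
        Finsupp.single ((⟨x, h⟩ : S) • x₀) a := by
      intro x h
      have h1 := dlt_apply S (PX p S X) (Finsupp.single x₀ a : X →₀ ZMod p) x h
      have h2 : (PX p S X).ρ ⟨x, h⟩ (Finsupp.single x₀ a : X →₀ ZMod p) =
          (Finsupp.single ((⟨x, h⟩ : S) • x₀) a : X →₀ ZMod p) := by
        show Finsupp.mapDomain (fun y => (⟨x, h⟩ : S) • y) (Finsupp.single x₀ a : X →₀ ZMod p) = _
        rw [Finsupp.mapDomain_single]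
      exact h1.trans h2
    have hv0 : ∀ (x : L) (h : x ∉ S),
        VIw S p (dlt S (PX p S X) (Finsupp.single x₀ a : X →₀ ZMod p)) x = 0 := fun x h =>
      dlt_zero S (PX p S X) (Finsupp.single x₀ a : X →₀ ZMod p) x h
    ext q
    obtain ⟨g, rfl⟩ := QuotientGroup.mk_surjective q
    refine (hΨ _ g).trans ?_
    unfold VIv
    by_cases hg : g ∈ W
    · have h1 : (g : H ⧸ W) = ((1 : H) : H ⧸ W) := by
        rw [QuotientGroup.eq]
        simpa using hg
      rw [h1, Finsupp.single_eq_same]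
      obtain ⟨s, hs, h2⟩ := (hW _).1 (W.inv_mem hg)
      have h3 : (π g)⁻¹ = (s : L) := by
        rw [hs, map_inv]
      rw [h3, hv _ s.2]
      have h4 : (⟨(s : L), s.2⟩ : S) = s := rfl
      rw [h4, h2, Finsupp.single_eq_same]
    · have h1 : (g : H ⧸ W) ≠ ((1 : H) : H ⧸ W) := by
        intro h1
        apply hg
        rw [QuotientGroup.eq] at h1
        simpa using h1
      rw [Finsupp.single_eq_of_ne h1]
      by_cases h : (π g)⁻¹ ∈ S
      · rw [hv _ h]
        apply Finsupp.single_eq_of_ne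
        intro h2
        apply hg
        rw [← W.inv_mem_iff, hW]
        exact ⟨⟨(π g)⁻¹, h⟩, by rw [map_inv], h2.symm⟩
      · rw [hv0 _ h]
        rfl
  have hsurj : Function.Surjective Ψ := by
    intro φ
    induction φ using Finsupp.induction_linear with
    | zero => exact ⟨0, map_zero _⟩
    | add a b ha hb =>
      obtain ⟨x, rfl⟩ := ha
      obtain ⟨y, rfl⟩ := hb
      exact ⟨x + y, map_add _ _ _⟩
    | single q a =>
      obtain ⟨g, rfl⟩ := QuotientGroup.mk_surjective q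
      refine ⟨(C0 S (PX p S X)).ρ (π g) (dlt S (PX p S X) (Finsupp.single x₀ a : X →₀ ZMod p)), ?_⟩
      rw [hΨe, hd, Finsupp.mapDomain_single]
      congr 1
      show ((g * 1 : H) : H ⧸ W) = _
      rw [mul_one]
  let φ : Rep.res π (C0 S (PX p S X)) ⟶ PX p H (H ⧸ W) :=
    mkZ (M := Rep.res π (C0 S (PX p S X))) (N := PX p H (H ⧸ W)) Ψ (fun h f => hΨe h f)
  have : Mono φ := (Rep.mono_iff_injective _).2 hinj
  have : Epi φ := (Rep.epi_iff_surjective _).2 hsurj
  have : IsIso φ := isIso_of_mono_of_epi φ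
  have hΨφ : ∀ f : (C0 S (PX p S X)).V, φ.hom f = Ψ f := fun f => rfl
  refine ⟨asIso φ, ?_⟩
  have h5 : φ.hom (dlt S (PX p S X) (Finsupp.single x₀ (1 : ZMod p) : X →₀ ZMod p)) =
      (Finsupp.single (QuotientGroup.mk (1 : H)) (1 : ZMod p) : (H ⧸ W) →₀ ZMod p) :=
    (hΨφ _).trans (hd 1)
  have h6 := congrArg (fun e => e.hom (dlt S (PX p S X)
    (Finsupp.single x₀ (1 : ZMod p) : X →₀ ZMod p))) (asIso φ).hom_inv_id
  refine Eq.trans ?_ h6
  exact congrArg (asIso φ).inv.hom h5.symm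

end Pool.Agent.H5.PD
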