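import Pool.Agent.H5.PD.GC
import Pool.Agent.H5.PD.CZ

/-!
Module XP (row PDXP).  The parity lemma.  `E : CX H L`, `D = H^c(H;F_pH)` of order `p`, all other `H^j(H;F_pH) = 0` (order `1`), `c ≥ 1`, `CD (ZMod p) H (c+1)`.  `ρ = rmu p u` right multiplication by `u`, `u^p = t`.
 Exact sequences: (S) `0 → F_pH → F_pH → Res M₁ → 0` (maps `ρ - 1`, `b₁`) over `H`, and (B) `0 → M₁ → M₂ → M₁ → 0` (maps `j, q`) over `L`; `b₂ : F_pH → Res M₂` with `b₂ ≫ q = b₁`, `(ρ - 1) ≫ b₂ = b₁ ≫ j`.  Use only the STATEMENTS of GC, CZ, Na.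
(1) `x.comp (mk₀ ρ) = x` for `x ∈ D`: `D` is cyclic of order `p`, so `x.comp (mk₀ ρ) = a • x` for a fixed `a : ℕ` (on a generator, hence on all); `ρ^p` is right multiplication by the central `t`, i.e. `cmul t`, so `a^p x = x` (`Cen_main`), and `a^p ≡ a mod p` (Fermat: `ZMod.pow_card`), so `a • x = x` (`p • x = 0`).
(2) `H^j(H; Res M₁) = 0` for `j ≤ c - 2` (by (S), `Ext.covariant_sequence_exact₂/₃`).
(3) in degree `c - 1`: the connecting map `∂ : H^(c-1)(H;Res M₁) → H^c(H;F_pH)` of (S) is injective (`H^(c-1)(H;F_pH) = 0`), `b₁_* : D → H^c(H;Res M₁)` is injective (its kernel is the image of `(ρ - 1)_* = 0`), and the connecting map `δ` of (B) (restricted to `H`) is `b₁_* ∂` (`extClass_naturality` for the morphism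
 (S) → (B) given by `b₁, b₂, 1`).  So `δ` is injective, so `q_* = 0` on `H^(c-1)(H;Res M₂) → H^(c-1)(H;Res M₁)`.
(4) `H^j(L;M₁) = 0` for `j ≤ c - 2` (strong induction: `In x = 0` by (2), `Gyn.a0, a1, a2`).  So `In` is injective on `H^(c-1)(L;M₁)` (`a2`: kernel `= e.comp` of `H^(c-3) = 0`), so `x.comp (mk₀ q) = 0` for `x ∈ H^(c-1)(L;M₂)` (`In_nat`, (3)).
(5) `N = c + 1 + 2k`: `H^N(H;Res M₂) = 0` (`CZ_zero`), so `x = e.comp y`, `y ∈ H^(N-2)(L;M₂)` (`a2`), `x.comp (mk₀ q) = e.comp (y.comp (mk₀ q)) = 0` by induction.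
-/

namespace Pool.Agent.H5.PD

open CategoryTheory CategoryTheory.Abelian CategoryTheory.Limits Pool.Agent.H5.CP
  Pool.Agent.H75.CP Pool.Agent.H5.ZP

/-- right multiplication by `u` on `F_p[H]` -/
noncomputable def rmu (p : ℕ) {H : Type} [Group H] (u : H) : PX p H H ⟶ PX p H H :=
  PXm p (fun h => h * u) (fun g h => mul_assoc g h u)

theorem XP_one (p : ℕ) {H : Type} [Group H] : rmu p (1 : H) = 𝟙 (PX p H H) := by
  apply Rep.hom_ext
  apply DFunLike.ext
  intro f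
  change H →₀ ZMod p at f
  change Finsupp.mapDomain (fun h : H => h * 1) f = f
  have h : (fun x : H => x * 1) = id := by
    funext x
    exact mul_one x
  rw [h, Finsupp.mapDomain_id]

theorem XP_mul (p : ℕ) {H : Type} [Group H] (u v : H) :
    rmu p u ≫ rmu p v = rmu p (u * v) := by
  apply Rep.hom_ext
  apply DFunLike.ext
  intro f
  change H →₀ ZMod p at f
  change Finsupp.mapDomain (fun h : H => h * v) (Finsupp.mapDomain (fun h : H => h * u) f) =
    Finsupp.mapDomain (fun h : H => h * (u * v)) f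
  rw [← Finsupp.mapDomain_comp]
  congr 1
  funext x
  exact mul_assoc x u v

theorem XP_cen (p : ℕ) {H : Type} [Group H] (t : H) (ht : t ∈ Subgroup.center H) :
    rmu p t = cmul t ht (PX p H H) := by
  apply Rep.hom_ext
  apply DFunLike.ext
  intro f
  change H →₀ ZMod p at f
  change Finsupp.mapDomain (fun h : H => h * t) f = Finsupp.mapDomain (fun h : H => t • h) f
  congr 1
  funext x
  exact Subgroup.mem_center_iff.1 ht x

/-- an endomorphism of a group of prime order whose power of that order is `1` is the identity -/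
theorem XP_cyc {D : Type} [AddCommGroup D] (p : ℕ) [Fact p.Prime] (hD : Nat.card D = p)
    (φ : D →+ D) (h : ∀ x, φ^[p] x = x) (x : D) : φ x = x := by
  by_cases hx : x = 0
  · rw [hx, map_zero]
  have h1 : ∀ y : D, y ∈ AddSubgroup.zmultiples x := by
    intro y
    exact mem_zmultiples_of_prime_card hD hx
  obtain ⟨a, ha⟩ := AddSubgroup.mem_zmultiples_iff.1 (h1 (φ x))
  have h4 : ∀ k : ℕ, φ^[k] x = a ^ k • x := by
    intro k
    induction k with
    | zero => simp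
    | succ k ih =>
      rw [Function.iterate_succ_apply', ih, map_zsmul, ← ha, smul_smul, pow_succ]
  have h5 : a ^ p • x = x := by rw [← h4, h]
  have h6 : (p : ℤ) • x = 0 := by
    have h7 : addOrderOf x ∣ p := by
      rw [← hD]
      exact addOrderOf_dvd_natCard x
    rw [natCast_zsmul]
    exact addOrderOf_dvd_iff_nsmul_eq_zero.1 h7
  have h8 : (p : ℤ) ∣ a ^ p - a := by
    rw [← ZMod.intCast_zmod_eq_zero_iff_dvd, Int.cast_sub, Int.cast_pow, ZMod.pow_card, sub_self]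
  obtain ⟨m, hm⟩ := h8
  have h9 : a ^ p • x = a • x := by
    have h10 : a ^ p = a + m * p := by rw [mul_comm m]; omega
    rw [h10, add_smul, mul_smul, h6, smul_zero, add_zero]
  rw [← ha, ← h9, h5]

theorem XP_D {H L : Type} [Group H] [Group L] (E : CX H L) (p : ℕ) [Fact p.Prime] (c : ℕ)
    (hc2 : hc p H c = p) (u : H) (hu : u ^ p = E.t) (x : Ext (tz H) (PX p H H) c) :
    x.comp (Ext.mk₀ (rmu p u)) (add_zero c) = x := by
  let φ : Ext (tz H) (PX p H H) c →+ Ext (tz H) (PX p H H) c :=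
    { toFun := fun y => y.comp (Ext.mk₀ (rmu p u)) (add_zero c)
      map_zero' := Ext.zero_comp _ _ _ _ _
      map_add' := fun y z => Ext.add_comp _ _ _ _ }
  have h1 : ∀ (k : ℕ) (y : Ext (tz H) (PX p H H) c),
      φ^[k] y = y.comp (Ext.mk₀ (rmu p (u ^ k))) (add_zero c) := by
    intro k y
    induction k with
    | zero =>
      rw [pow_zero, XP_one, Ext.comp_mk₀_id]
      rfl
    | succ k ih =>
      rw [Function.iterate_succ_apply', ih]
      change Ext.comp (y.comp (Ext.mk₀ (rmu p (u ^ k))) (add_zero c)) (Ext.mk₀ (rmu p u))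
        (add_zero c) = _
      rw [Ext.comp_assoc _ _ _ (add_zero c) (add_zero 0) (by omega), Ext.mk₀_comp_mk₀, XP_mul,
        ← pow_succ]
  refine XP_cyc p hc2 φ (fun y => ?_) x
  rw [h1, hu, XP_cen p E.t E.cent, Cen_main]

theorem XP_ce {C : Type*} [Category C] [Abelian C] [HasExt.{0} C] {S : ShortComplex C}
    (hS : S.ShortExact) {X : C} {n : ℕ} (x : Ext X S.X₂ n) :
    (x.comp (Ext.mk₀ S.g) (add_zero n)).comp hS.extClass rfl = 0 := by
  rw [Ext.comp_assoc _ _ _ (add_zero n) (zero_add 1) (by omega), hS.comp_extClass, Ext.comp_zero]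

theorem XP_main {H L : Type} [Group H] [Group L] (E : CX H L) (p : ℕ) [Fact p.Prime] (c : ℕ)
    (hc0 : 1 ≤ c) (hc1 : CD (ZMod p) H (c + 1)) (hc2 : hc p H c = p)
    (hc3 : ∀ j, j ≠ c → hc p H j = 1) (M₁ M₂ : Rep.{0} ℤ L) (hM₁ : Kp p M₁) (hM₂ : Kp p M₂)
    (j : M₁ ⟶ M₂) (q : M₂ ⟶ M₁) (w : j ≫ q = 0) (hB : (ShortComplex.mk j q w).ShortExact)
    (u : H) (hu : u ^ p = E.t) (b₁ : PX p H H ⟶ Rep.res E.π M₁)
    (w₁ : (rmu p u - 𝟙 _) ≫ b₁ = 0) (hS : (ShortComplex.mk (rmu p u - 𝟙 _) b₁ w₁).ShortExact)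
    (b₂ : PX p H H ⟶ Rep.res E.π M₂) (hb : b₂ ≫ (Rep.resFunctor E.π).map q = b₁)
    (hb2 : (rmu p u - 𝟙 _) ≫ b₂ = b₁ ≫ (Rep.resFunctor E.π).map j) (N : ℕ) (hN : c ≤ N + 1)
    (hpar : (N + 1) % 2 = c % 2) (x : Ext (tz L) M₂ N) :
    x.comp (Ext.mk₀ q) (add_zero N) = 0 := by
  have hsub : ∀ x : Ext (tz H) (PX p H H) c,
      x.comp (Ext.mk₀ (rmu p u - 𝟙 _)) (add_zero c) = 0 := by
    intro x
    have h1 := XP_D E p c hc2 u hu x
    rw [sub_eq_add_neg, Ext.mk₀_add, Ext.mk₀_neg, Ext.comp_add, Ext.comp_neg, h1,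
      Ext.comp_mk₀_id, add_neg_cancel]
  have hz : ∀ j, j ≠ c → ∀ x : Ext (tz H) (PX p H H) j, x = 0 := by
    intro j hj x
    have h1 := hc3 j hj
    unfold hc at h1
    have h2 := (Nat.card_eq_one_iff_unique.1 h1).1
    exact Subsingleton.elim x 0
  -- step 2
  have h2 : ∀ j, j + 2 ≤ c → ∀ x : Ext (tz H) (Rep.res E.π M₁) j, x = 0 := by
    intro j hj x
    obtain ⟨y, hy⟩ := Ext.covariant_sequence_exact₃ (tz H) hS x rfl
      (hz (j + 1) (by omega) _)
    rw [← hy, hz j (by omega) y, Ext.zero_comp]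
  -- step 3
  obtain ⟨d, rfl⟩ : ∃ d, c = d + 1 := ⟨c - 1, by omega⟩
  let F : ShortComplex.mk (rmu p u - 𝟙 _) b₁ w₁ ⟶ (ShortComplex.mk j q w).map (Rep.resFunctor E.π) :=
    ShortComplex.homMk b₁ b₂ (𝟙 _) hb2.symm (by
      change b₂ ≫ (Rep.resFunctor E.π).map q = b₁ ≫ 𝟙 _
      rw [hb, Category.comp_id])
  have hBr : ((ShortComplex.mk j q w).map (Rep.resFunctor E.π)).ShortExact :=
    hB.map_of_exact (Rep.resFunctor E.π)
  have hnat : hS.extClass.comp (Ext.mk₀ b₁) (add_zero 1) = hBr.extClass := by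
    have h := ShortComplex.ShortExact.extClass_naturality hS hBr F
    change hS.extClass.comp (Ext.mk₀ b₁) (add_zero 1) =
      (Ext.mk₀ (𝟙 _)).comp hBr.extClass (zero_add 1) at h
    rw [Ext.mk₀_id_comp] at h
    exact h
  have h3 : ∀ x : Ext (tz H) (Rep.res E.π M₂) d,
      x.comp (Ext.mk₀ ((Rep.resFunctor E.π).map q)) (add_zero d) = 0 := by
    intro x
    obtain ⟨y, hy⟩ : ∃ y : Ext (tz H) (Rep.res E.π M₁) d,
      y = x.comp (Ext.mk₀ ((Rep.resFunctor E.π).map q)) (add_zero d) := ⟨_, rfl⟩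
    have h4 : y.comp hBr.extClass rfl = 0 := by
      rw [hy]
      exact XP_ce hBr x
    have h5 : (y.comp hS.extClass rfl).comp (Ext.mk₀ b₁) (add_zero (d + 1)) = 0 := by
      rw [Ext.comp_assoc _ _ _ rfl (add_zero 1) (by omega), hnat]
      exact h4
    obtain ⟨z, hz1⟩ := Ext.covariant_sequence_exact₂ (tz H) hS (y.comp hS.extClass rfl) h5
    have h6 : y.comp hS.extClass rfl = 0 := by
      rw [← hz1]
      exact hsub z
    obtain ⟨v, hv⟩ := Ext.covariant_sequence_exact₃ (tz H) hS y rfl h6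
    rw [← hy, ← hv, hz d (by omega) v, Ext.zero_comp]
  obtain ⟨e, hG⟩ := GC_main E
  -- step 4
  have h4 : ∀ i, i + 2 ≤ d + 1 → ∀ x : Ext (tz L) M₁ i, x = 0 := by
    intro i
    induction i using Nat.strong_induction_on with
    | _ i ih =>
      intro hi x
      have hx : In E.π x = 0 := h2 i hi _
      match i, ih, hi, x, hx with
      | 0, ih, hi, x, hx => exact hG.a0 M₁ x hx
      | 1, ih, hi, x, hx => exact hG.a1 M₁ x hx
      | i + 2, ih, hi, x, hx =>
        obtain ⟨y, hy⟩ := hG.a2 M₁ i x hx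
        rw [hy, ih i (by omega) (by omega) y, Ext.comp_zero]
  have h5 : ∀ x : Ext (tz L) M₁ d, In E.π x = 0 → x = 0 := by
    intro x hx
    match d, h4, x, hx with
    | 0, h4, x, hx => exact hG.a0 M₁ x hx
    | 1, h4, x, hx => exact hG.a1 M₁ x hx
    | i + 2, h4, x, hx =>
      obtain ⟨y, hy⟩ := hG.a2 M₁ i x hx
      rw [hy, h4 i (by omega) y, Ext.comp_zero]
  have h6 : ∀ x : Ext (tz L) M₂ d, x.comp (Ext.mk₀ q) (add_zero d) = 0 := by
    intro x
    apply h5
    rw [In_nat, h3]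
  -- step 5
  obtain ⟨k, hk⟩ : ∃ k, N = d + 2 * k := ⟨(N - d) / 2, by omega⟩
  subst hk
  clear hN hpar
  induction k with
  | zero => exact h6 x
  | succ k ih =>
    have h7 : In E.π x = 0 :=
      CZ_zero p (d + 1 + 1) hc1 (Rep.res E.π M₂) hM₂ _ (by omega) _
    obtain ⟨y, hy⟩ := hG.a2 M₂ (d + 2 * k) x h7
    rw [hy, Ext.comp_assoc _ _ _ (add_comm 2 (d + 2 * k)) (add_zero _) (by omega), ih y,
      Ext.comp_zero]

end Pool.Agent.H5.PD
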