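import Pool.Agent.H5.PD.K2
import Pool.Agent.H5.PD.XP

/-!
Module VK (row PDVK).  `K2_eq` (K2.lean) with the hypothesis `v ∈ center K` replaced by `hD`: right multiplication by `v` acts trivially on `H^*(K;F_pK)`.  Copy the proof (in K2.lean the hypothesis `hc` is used only for `hcm`, `hz`; `PXm p (Equiv.mulRight v) hσ` is `rmu p v` by `rfl`); the private lemmas `K2_seq`, `K2_cardeq`, `K2_pow` have to be copied (rename them `VK_…`).
-/

namespace Pool.Agent.H5.PD

open CategoryTheory CategoryTheory.Abelian CategoryTheory.Limits Pool.Agent.H5.CP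
  Pool.Agent.H75.CP Pool.Agent.H5.ZP

universe u v w

private theorem VK_cardeq {A : Type u} {B : Type v} {C : Type w} [AddCommGroup A] [AddCommGroup B]
    [AddCommGroup C] (α : A →+ B) (β : B →+ C) (h : ∀ b, β b = 0 → ∃ a, α a = b)
    (h0 : ∀ a, β (α a) = 0) (hi : ∀ a, α a = 0 → a = 0) (hβ : Function.Surjective β) :
    Nat.card B = Nat.card A * Nat.card C := by
  obtain ⟨σ, hσ⟩ := hβ.hasRightInverse
  rw [← Nat.card_prod]
  symm
  refine Nat.card_eq_of_bijective (fun x : A × C => α x.1 + σ x.2) ⟨?_, ?_⟩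
  · rintro ⟨a, c⟩ ⟨a', c'⟩ hx
    have hx' : α a + σ c = α a' + σ c' := hx
    have h1 : c = c' := by
      have h2 := congrArg β hx'
      rw [map_add, map_add, h0, h0, zero_add, zero_add, hσ, hσ] at h2
      exact h2
    rw [h1, add_left_inj] at hx'
    have h3 : a = a' := by
      rw [← sub_eq_zero]
      refine hi _ ?_
      rw [map_sub, hx', sub_self]
    rw [h1, h3]
  · intro b
    obtain ⟨a, ha⟩ := h (b - σ (β b)) (by rw [map_sub, hσ, sub_self])
    exact ⟨(a, β b), by simp only [ha, sub_add_cancel]⟩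

private theorem VK_pow {K : Type} [Group K] (v : K) (n : ℤ) (y : K) :
    ((Equiv.mulRight v : Equiv.Perm K) ^ n) y = y * v ^ n := by
  have h1 : ∀ (m : ℕ) (y : K), ((Equiv.mulRight v : Equiv.Perm K) ^ m) y = y * v ^ m := by
    intro m
    induction m with
    | zero =>
      intro y
      rw [pow_zero, pow_zero, Equiv.Perm.one_apply, mul_one]
    | succ m ih =>
      intro y
      rw [pow_succ, Equiv.Perm.mul_apply, ih, Equiv.coe_mulRight, pow_succ', mul_assoc]
  obtain ⟨m, rfl | rfl⟩ := n.eq_nat_or_neg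
  · rw [zpow_natCast, zpow_natCast, h1]
  · rw [zpow_neg, zpow_neg, zpow_natCast, zpow_natCast, Equiv.Perm.inv_eq_iff_eq, h1,
      inv_mul_cancel_right]

private theorem VK_seq (p : ℕ) {K X : Type} [Group K] [MulAction K X] (v : K)
    (hv : ∀ n : ℤ, v ^ n = 1 → n = 0) (x₀ : X) (htr : ∀ x : X, ∃ g : K, g • x₀ = x)
    (hst : ∀ g : K, g • x₀ = x₀ ↔ ∃ n : ℤ, g = v ^ n) :
    ∃ (hσ : ∀ (g y : K), (Equiv.mulRight v : Equiv.Perm K) (g • y)
        = g • (Equiv.mulRight v : Equiv.Perm K) y)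
      (hq : ∀ (g y : K), (fun y : K => y • x₀) (g • y) = g • (fun y : K => y • x₀) y)
      (w : (PXm p (Equiv.mulRight v : Equiv.Perm K) hσ - 𝟙 (PX p K K))
        ≫ PXm p (fun y : K => y • x₀) hq = 0),
      (ShortComplex.mk (PXm p (Equiv.mulRight v : Equiv.Perm K) hσ - 𝟙 (PX p K K))
        (PXm p (fun y : K => y • x₀) hq) w).ShortExact := by
  have hσ : ∀ (g y : K), (Equiv.mulRight v : Equiv.Perm K) (g • y)
      = g • (Equiv.mulRight v : Equiv.Perm K) y := by
    intro g y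
    exact mul_assoc g y v
  have hq : ∀ (g y : K), (fun y : K => y • x₀) (g • y) = g • (fun y : K => y • x₀) y := by
    intro g y
    exact mul_smul g y x₀
  obtain ⟨w, hw⟩ := SV_main p (Equiv.mulRight v : Equiv.Perm K) hσ
    (fun n y h => hv n (by
      rw [VK_pow] at h
      exact mul_eq_left.1 h))
    (fun y : K => y • x₀) hq htr (fun y y' => by
      show y • x₀ = y' • x₀ ↔ _
      have h1 : y • x₀ = y' • x₀ ↔ (y⁻¹ * y') • x₀ = x₀ := by
        rw [mul_smul, inv_smul_eq_iff]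
        exact eq_comm
      rw [h1, hst]
      refine exists_congr fun n => ?_
      rw [VK_pow]
      constructor
      · intro h
        rw [← h, mul_inv_cancel_left]
      · intro h
        rw [← h, inv_mul_cancel_left])
  exact ⟨hσ, hq, w, hw⟩

theorem VK_main (p : ℕ) [Fact p.Prime] {K X : Type} [Group K] [MulAction K X] (v : K)
    (hv : ∀ n : ℤ, v ^ n = 1 → n = 0)
    (hD : ∀ (j : ℕ) (x : Ext (tz K) (PX p K K) j),
      x.comp (Ext.mk₀ (rmu p v)) (add_zero j) = x) (x₀ : X)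
    (htr : ∀ x : X, ∃ g : K, g • x₀ = x)
    (hst : ∀ g : K, g • x₀ = x₀ ↔ ∃ n : ℤ, g = v ^ n) (i : ℕ) :
    Nat.card (Ext (tz K) (PX p K X) i) = hc p K i * hc p K (i + 1) := by
  obtain ⟨hσ, hq, w, hS⟩ := VK_seq p v hv x₀ htr hst
  have hz : ∀ (j : ℕ) (x : Ext (tz K) (PX p K K) j),
      x.comp (Ext.mk₀ (PXm p (Equiv.mulRight v : Equiv.Perm K) hσ - 𝟙 (PX p K K)))
        (add_zero j) = 0 := by
    intro j x
    have h1 : x.comp (Ext.mk₀ (PXm p (Equiv.mulRight v : Equiv.Perm K) hσ)) (add_zero j) = x := hD j x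
    rw [sub_eq_add_neg, Ext.mk₀_add, Ext.mk₀_neg, Ext.comp_add, Ext.comp_neg, h1,
      Ext.comp_mk₀_id, add_neg_cancel]
  have hinj : ∀ (j : ℕ) (x : Ext (tz K) (PX p K K) j),
      x.comp (Ext.mk₀ (PXm p (fun y : K => y • x₀) hq)) (add_zero j) = 0 → x = 0 := by
    intro j x hx
    obtain ⟨x₁, h1⟩ := Ext.covariant_sequence_exact₂ (tz K) hS x hx
    rw [← h1]
    exact hz j x₁
  refine VK_cardeq
      ((Ext.mk₀ (PXm p (fun y : K => y • x₀) hq)).postcomp (tz K) (add_zero i))
      (hS.extClass.postcomp (tz K) (rfl : i + 1 = i + 1))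
      (fun b hb => Ext.covariant_sequence_exact₃ (tz K) hS b rfl hb) ?_ (hinj i) ?_
  · intro x
    show (x.comp (Ext.mk₀ (PXm p (fun y : K => y • x₀) hq)) (add_zero i)).comp hS.extClass
      rfl = 0
    rw [Ext.comp_assoc_of_second_deg_zero, hS.comp_extClass, Ext.comp_zero]
  · intro x
    exact Ext.covariant_sequence_exact₁ (tz K) hS x (hz _ x) rfl

end Pool.Agent.H5.PD
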