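import Pool.Agent.H5.PD.K1
import Pool.Agent.H5.PD.K2
import Pool.Agent.H5.PD.IS
import Pool.Agent.H5.PD.CZ

/-!
Module XR (row PDXQ, replaces XQ).  The map `q_*` cannot vanish in all large degrees.  Use only the STATEMENTS of K1, K2, IS, GC, CZ.  `C → St → L'` as in IS; `B = Rep.res r (PX p L' L')`, `S_N = Ext (tz St) B N`, `ε = extClass(j,q) ∈ Ext B B 1`.
(1) `S_(2m) ≠ 0` for all large `m`: `Ext (tz C) (Rep.res E'.π B) i` is finite (`K2_le`, `X = L'` with `MulAction.compHom L' E₁.π`, `v = E₁.t`; `Rep.res E'.π B` is `PX p C L'` by `rfl` up to `r.comp E'.π = E₁.π`) of order `c_i c_(i+1)` (`K2_eq`), `c_i = hc p C i`.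
 So all `S_N` are finite (`K1_le E' B`) and `|S_(2m)| = Π_{i ≤ m} c_(2i) c_(2i+1)` (`K1_eq`, `hs` by `IS_main`), which is `≥ c_(j₀) ≥ 2` as soon as `2m + 1 ≥ j₀` (all `c_j ≥ 1`: finite and non-empty).  (Compare the proof of `SZ_main` in SZ.lean.)
(2) `ε.comp ε = 0`: `extClass_naturality` for the morphism of short complexes `(j₃,q₃) → (j,q)` given by `q : M₂ → B`, `f : M₃ → M₂`, `𝟙`: `ε₃.comp (mk₀ q) = ε`, `ε₃ = extClass(j₃,q₃)`, and `(mk₀ q).comp ε = 0` (`ShortComplex.ShortExact.comp_extClass`).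
(3) Suppose `q_* = 0` on `Ext (tz St) M₂ N` for `N ≥ N₀`.  Then `x ↦ x.comp ε` is injective on `S_N`, `N ≥ N₀` (`Ext.covariant_sequence_exact₃`: `x.comp ε = 0` implies `x = y.comp (mk₀ q) = 0`).  So for `x ∈ S_N`: `(x.comp ε).comp ε = x.comp (ε.comp ε) = 0`, hence `x.comp ε = 0`, hence `x = 0`: `S_N = 0` for all `N ≥ N₀`,
 contradiction to (1).
-/

namespace Pool.Agent.H5.PD

open CategoryTheory CategoryTheory.Abelian CategoryTheory.Limits Pool.Agent.H5.CP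
  Pool.Agent.H75.CP Pool.Agent.H5.ZP

theorem XR_kp (p : ℕ) (L' : Type) [Group L'] : Kp p (PX p L' L') := by
  intro x
  change L' →₀ ZMod p at x
  refine Finsupp.ext fun a => ?_
  have h1 : p • x a = 0 := by
    rw [nsmul_eq_mul, ZMod.natCast_self, zero_mul]
  exact h1

theorem XR_rep (p : ℕ) {C St L' : Type} [Group C] [Group St] [Group L'] (π : C →* St)
    (r : St →* L') (φ : C →* L') (hφ : ∀ c, r (π c) = φ c) :
    Rep.res π (Rep.res r (PX p L' L')) = @PX p C L' _ (MulAction.compHom L' φ) := by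
  obtain rfl : φ = r.comp π := MonoidHom.ext fun c => (hφ c).symm
  rfl

theorem XR_k2 (p : ℕ) [Fact p.Prime] {C St L' : Type} [Group C] [Group St] [Group L']
    (E' : CX C St) (E₁ : CX C L') (r : St →* L') (hr : ∀ c, r (E'.π c) = E₁.π c)
    (hfin : ∀ j, Finite (Ext (tz C) (PX p C C) j)) (i : ℕ) :
    Finite (Ext (tz C) (Rep.res E'.π (Rep.res r (PX p L' L'))) i) ∧
      Nat.card (Ext (tz C) (Rep.res E'.π (Rep.res r (PX p L' L'))) i) =
        hc p C i * hc p C (i + 1) := by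
  rw [XR_rep p E'.π r E₁.π hr]
  let _ : MulAction C L' := MulAction.compHom L' E₁.π
  have hsm : ∀ g : C, g • (1 : L') = E₁.π g := fun g => by
    show E₁.π g * 1 = E₁.π g
    rw [mul_one]
  have htr : ∀ x : L', ∃ g : C, g • (1 : L') = x := fun x => by
    obtain ⟨g, hg⟩ := E₁.surj x
    exact ⟨g, (hsm g).trans hg⟩
  have hst : ∀ g : C, g • (1 : L') = 1 ↔ ∃ n : ℤ, g = E₁.t ^ n := fun g => by
    rw [hsm g]
    exact E₁.ker g
  have h1 := K2_le p (K := C) (X := L') E₁.t E₁.inf 1 htr hst hfin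
  have h2 := K2_eq p (K := C) (X := L') E₁.t E₁.inf E₁.cent 1 htr hst (fun i => (h1 i).1)
  exact ⟨(h1 i).1, h2.2 i⟩

theorem XR_one {a b : ℕ} (h : a * b ∣ 1) : a = 1 ∧ b = 1 := by
  have h1 : a * b = 1 := Nat.dvd_one.1 h
  exact ⟨Nat.eq_one_of_mul_eq_one_right h1, Nat.eq_one_of_mul_eq_one_left h1⟩

theorem XR_sq {X : Type} [Group X] {B M₂ M₃ : Rep.{0} ℤ X} (j : B ⟶ M₂) (q : M₂ ⟶ B)
    (w : j ≫ q = 0) (j₃ : M₂ ⟶ M₃) (q₃ : M₃ ⟶ B) (w₃ : j₃ ≫ q₃ = 0) (f : M₃ ⟶ M₂)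
    (hB : (ShortComplex.mk j q w).ShortExact) (hB₃ : (ShortComplex.mk j₃ q₃ w₃).ShortExact)
    (hf1 : f ≫ q = q₃) (hf2 : j₃ ≫ f = q ≫ j) :
    Ext.comp (Y := B) hB.extClass hB.extClass (rfl : 1 + 1 = 2) = 0 := by
  let φ : ShortComplex.mk j₃ q₃ w₃ ⟶ ShortComplex.mk j q w :=
    { τ₁ := q
      τ₂ := f
      τ₃ := 𝟙 B
      comm₁₂ := hf2.symm
      comm₂₃ := by
        show f ≫ q = q₃ ≫ 𝟙 B
        rw [hf1, Category.comp_id] }
  have h1 : hB₃.extClass.comp (Ext.mk₀ q) (add_zero 1) =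
      (Ext.mk₀ (𝟙 B)).comp hB.extClass (zero_add 1) :=
    ShortComplex.ShortExact.extClass_naturality hB₃ hB φ
  rw [Ext.mk₀_id_comp] at h1
  have h2 : (Ext.mk₀ q).comp hB.extClass (zero_add 1) = 0 := hB.comp_extClass
  have h3 : (hB₃.extClass.comp (Ext.mk₀ q) (add_zero 1)).comp hB.extClass (rfl : 1 + 1 = 2) = 0 := by
    rw [Ext.comp_assoc_of_second_deg_zero, h2, Ext.comp_zero]
  rw [h1] at h3
  exact h3

theorem XR_van {X : Type} [Group X] {B M₂ : Rep.{0} ℤ X} (j : B ⟶ M₂) (q : M₂ ⟶ B)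
    (w : j ≫ q = 0) (hB : (ShortComplex.mk j q w).ShortExact)
    (hs : Ext.comp (Y := B) hB.extClass hB.extClass (rfl : 1 + 1 = 2) = 0) (N : ℕ)
    (h0 : ∀ x : Ext (tz X) M₂ N, x.comp (Ext.mk₀ q) (add_zero N) = 0)
    (h1 : ∀ x : Ext (tz X) M₂ (N + 1), x.comp (Ext.mk₀ q) (add_zero (N + 1)) = 0)
    (x : Ext (tz X) B N) : x = 0 := by
  have h2 : ∀ (i : ℕ) (_ : ∀ x : Ext (tz X) M₂ i, x.comp (Ext.mk₀ q) (add_zero i) = 0)
      (y : Ext (tz X) B i), y.comp (hB.extClass : Ext B B 1) (rfl : i + 1 = i + 1) = 0 → y = 0 := by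
    intro i hi y hy
    obtain ⟨z, hz⟩ := Ext.covariant_sequence_exact₃ (X := tz X) hB y rfl hy
    rw [← hz]
    exact hi z
  apply h2 N h0
  apply h2 (N + 1) h1
  rw [Ext.comp_assoc x hB.extClass hB.extClass rfl (rfl : 1 + 1 = 2) rfl, hs, Ext.comp_zero]

theorem XR_main {C St L' : Type} [Group C] [Group St] [Group L'] (E' : CX C St) (E₁ : CX C L')
    (r : St →* L') (hr : ∀ c, r (E'.π c) = E₁.π c) (p : ℕ) [Fact p.Prime]
    (hp : E₁.t ^ p = E'.t) (n : ℕ)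
    (hC : CD (ZMod p) C n) (hfin : ∀ j, Finite (Ext (tz C) (PX p C C) j)) (j₀ : ℕ)
    (hj₀ : hc p C j₀ ≠ 1) (M₂ M₃ : Rep.{0} ℤ St) (j : Rep.res r (PX p L' L') ⟶ M₂)
    (q : M₂ ⟶ Rep.res r (PX p L' L')) (w : j ≫ q = 0) (j₃ : M₂ ⟶ M₃)
    (q₃ : M₃ ⟶ Rep.res r (PX p L' L')) (w₃ : j₃ ≫ q₃ = 0) (f : M₃ ⟶ M₂)
    (hB : (ShortComplex.mk j q w).ShortExact) (hB₃ : (ShortComplex.mk j₃ q₃ w₃).ShortExact)
    (hf1 : f ≫ q = q₃) (hf2 : j₃ ≫ f = q ≫ j)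
    (N₀ : ℕ) (h : ∀ N, N₀ ≤ N → ∀ x : Ext (tz St) M₂ N,
      x.comp (Ext.mk₀ q) (add_zero N) = 0) : False := by
  have hs := fun (i : ℕ) (w : Ext (tz C) (Rep.res E'.π (Rep.res r (PX p L' L'))) i) =>
    IS_main E' E₁ r hr p hp (PX p L' L') (XR_kp p L') i w
  have hk := XR_k2 p E' E₁ r hr hfin
  have hfS := (K1_le E' (Rep.res r (PX p L' L')) (fun i => (hk i).1)).1
  have hcS := (K1_eq E' (Rep.res r (PX p L' L')) hs 0 (fun i _ => hfS i)).2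
  have hsq := XR_sq j q w j₃ q₃ w₃ f hB hB₃ hf1 hf2
  have hm : ∀ m, j₀ ≤ m → N₀ ≤ 2 * m → False := by
    intro m m1 m2
    have a4 := XR_van j q w hB hsq (2 * m) (h _ m2) (h _ (by omega))
    have a5 : Nat.card (Ext (tz St) (Rep.res r (PX p L' L')) (2 * m)) = 1 := by
      have : Subsingleton (Ext (tz St) (Rep.res r (PX p L' L')) (2 * m)) :=
        ⟨fun x y => (a4 x).trans (a4 y).symm⟩
      exact Nat.card_of_subsingleton 0
    have a8 := hcS m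
    rw [a5] at a8
    have a9 : ∀ i, i ≤ m → hc p C (2 * i) = 1 ∧ hc p C (2 * i + 1) = 1 := by
      intro i hi
      have b1 := Finset.dvd_prod_of_mem
        (fun i => Nat.card (Ext (tz C) (Rep.res E'.π (Rep.res r (PX p L' L'))) (2 * i)))
        (Finset.mem_range.2 (show i < m + 1 by omega))
      rw [← a8] at b1
      apply XR_one
      rw [← (hk (2 * i)).2]
      exact b1
    obtain ⟨i, hi | hi⟩ : ∃ i, j₀ = 2 * i ∨ j₀ = 2 * i + 1 := ⟨j₀ / 2, by omega⟩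
    · exact hj₀ (hi ▸ (a9 i (by omega)).1)
    · exact hj₀ (hi ▸ (a9 i (by omega)).2)
  exact hm (j₀ + N₀) (by omega) (by omega)

end Pool.Agent.H5.PD
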