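import Pool.Agent.H5.PD.VP
import Pool.Agent.H5.PD.VK
import Pool.Agent.H5.PD.XR

/-!
Module VR (row PDVR).  `XR_main` (XR.lean) for the prime `2`, with `L'` replaced by the `L'`-set `X = L' ⧸ ⟨E₁.π v⟩`, `v² = E₁.t`.  Copy the proof of `XR_main`; reuse `XR_sq`, `XR_van`, `XR_one`.  Changes:
* `IS_main E' E₁ r hr 2 hp (PX 2 L' X)` (killed by `2`: `PX_kp`/as `XR_kp`);
* `XR_k2` is replaced by: `Rep.res E'.π (Rep.res r (PX 2 L' X))` is `PX 2 C X` for the action of `C` through `E₁.π` (as `XR_rep`), finite in all degrees by `K2_le 2 v …`, of order `hc i * hc (i+1)` by `VK_main 2 v …` (`hD` from `VP_two`), `x₀ = mk 1`;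
 transitive: `E₁.surj`; stabiliser: `g • x₀ = x₀ ↔ E₁.π g ∈ zpowers (E₁.π v) ↔ ∃ n, g = v ^ n` (`E₁.ker`, `E₁.t = v²`); `v` has infinite order (`E₁.inf`).
`hfin`: a type of `Nat.card` `1` or `2` is finite (`Nat.finite_of_card_ne_zero`).
-/

namespace Pool.Agent.H5.PD

open CategoryTheory CategoryTheory.Abelian CategoryTheory.Limits Pool.Agent.H5.CP
  Pool.Agent.H75.CP Pool.Agent.H5.ZP

theorem VR_kp (p : ℕ) (G X : Type) [Group G] [MulAction G X] : Kp p (PX p G X) := by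
  intro x
  change X →₀ ZMod p at x
  refine Finsupp.ext fun a => ?_
  have h1 : p • x a = 0 := by
    rw [nsmul_eq_mul, ZMod.natCast_self, zero_mul]
  exact h1

theorem VR_rep (p : ℕ) {C St L' X : Type} [Group C] [Group St] [Group L'] [MulAction L' X]
    (π : C →* St) (r : St →* L') (φ : C →* L') (hφ : ∀ c, r (π c) = φ c) :
    Rep.res π (Rep.res r (PX p L' X)) = @PX p C X _ (MulAction.compHom X φ) := by
  obtain rfl : φ = r.comp π := MonoidHom.ext fun c => (hφ c).symm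
  rfl

theorem VR_st {C L' : Type} [Group C] [Group L'] (E₁ : CX C L') (v : C) (hv : v ^ 2 = E₁.t)
    (g : C) : (QuotientGroup.mk (E₁.π g) : L' ⧸ Subgroup.zpowers (E₁.π v)) = QuotientGroup.mk 1 ↔
      ∃ n : ℤ, g = v ^ n := by
  rw [QuotientGroup.eq, mul_one, inv_mem_iff, Subgroup.mem_zpowers_iff]
  constructor
  · rintro ⟨n, hn⟩
    have h1 : E₁.π (g * (v ^ n)⁻¹) = 1 := by
      rw [map_mul, map_inv, map_zpow, hn, mul_inv_cancel]
    obtain ⟨m, hm⟩ := (E₁.ker _).1 h1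
    refine ⟨2 * m + n, ?_⟩
    rw [zpow_add, zpow_mul, zpow_ofNat, hv, ← hm, inv_mul_cancel_right]
  · rintro ⟨n, rfl⟩
    exact ⟨n, (map_zpow _ _ _).symm⟩

theorem VR_k2 {C St L' : Type} [Group C] [Group St] [Group L'] (E' : CX C St) (E₁ : CX C L')
    (r : St →* L') (hr : ∀ c, r (E'.π c) = E₁.π c) (v : C) (hv : v ^ 2 = E₁.t)
    (hcc : ∀ j, hc 2 C j = 1 ∨ hc 2 C j = 2)
    (hfin : ∀ j, Finite (Ext (tz C) (PX 2 C C) j)) (i : ℕ) :
    Finite (Ext (tz C) (Rep.res E'.π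
        (Rep.res r (PX 2 L' (L' ⧸ Subgroup.zpowers (E₁.π v))))) i) ∧
      Nat.card (Ext (tz C) (Rep.res E'.π
        (Rep.res r (PX 2 L' (L' ⧸ Subgroup.zpowers (E₁.π v))))) i) =
        hc 2 C i * hc 2 C (i + 1) := by
  rw [VR_rep 2 E'.π r E₁.π hr]
  let _ : MulAction C (L' ⧸ Subgroup.zpowers (E₁.π v)) := MulAction.compHom _ E₁.π
  have hsm : ∀ (g : C) (a : L'), g • (QuotientGroup.mk a : L' ⧸ Subgroup.zpowers (E₁.π v)) =
      QuotientGroup.mk (E₁.π g * a) := fun _ _ => rfl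
  have hinf : ∀ n : ℤ, v ^ n = 1 → n = 0 := by
    intro n hn
    apply E₁.inf
    rw [← hv, ← zpow_natCast, ← zpow_mul, mul_comm, zpow_mul, hn, one_zpow]
  have htr : ∀ x : L' ⧸ Subgroup.zpowers (E₁.π v), ∃ g : C,
      g • (QuotientGroup.mk 1 : L' ⧸ Subgroup.zpowers (E₁.π v)) = x := fun x => by
    obtain ⟨a, rfl⟩ := QuotientGroup.mk_surjective x
    obtain ⟨g, hg⟩ := E₁.surj a
    refine ⟨g, ?_⟩
    rw [hsm, mul_one, hg]
  have hst : ∀ g : C, g • (QuotientGroup.mk 1 : L' ⧸ Subgroup.zpowers (E₁.π v)) =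
      QuotientGroup.mk 1 ↔ ∃ n : ℤ, g = v ^ n := fun g => by
    rw [hsm, mul_one]
    exact VR_st E₁ v hv g
  have h1 := K2_le 2 (K := C) (X := L' ⧸ Subgroup.zpowers (E₁.π v)) v hinf
    (QuotientGroup.mk 1) htr hst hfin
  have h2 := VK_main 2 (K := C) (X := L' ⧸ Subgroup.zpowers (E₁.π v)) v hinf
    (fun j x => VP_two v j (hcc j) x) (QuotientGroup.mk 1) htr hst
  exact ⟨(h1 i).1, h2 i⟩

theorem VR_main {C St L' : Type} [Group C] [Group St] [Group L'] (E' : CX C St) (E₁ : CX C L')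
    (r : St →* L') (hr : ∀ c, r (E'.π c) = E₁.π c)
    (hp : E₁.t ^ 2 = E'.t) (v : C) (hv : v ^ 2 = E₁.t)
    (hcc : ∀ j, hc 2 C j = 1 ∨ hc 2 C j = 2) (j₀ : ℕ)
    (hj₀ : hc 2 C j₀ ≠ 1) (M₂ M₃ : Rep.{0} ℤ St)
    (j : Rep.res r (PX 2 L' (L' ⧸ Subgroup.zpowers (E₁.π v))) ⟶ M₂)
    (q : M₂ ⟶ Rep.res r (PX 2 L' (L' ⧸ Subgroup.zpowers (E₁.π v)))) (w : j ≫ q = 0)
    (j₃ : M₂ ⟶ M₃) (q₃ : M₃ ⟶ Rep.res r (PX 2 L' (L' ⧸ Subgroup.zpowers (E₁.π v))))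
    (w₃ : j₃ ≫ q₃ = 0) (f : M₃ ⟶ M₂)
    (hB : (ShortComplex.mk j q w).ShortExact) (hB₃ : (ShortComplex.mk j₃ q₃ w₃).ShortExact)
    (hf1 : f ≫ q = q₃) (hf2 : j₃ ≫ f = q ≫ j)
    (N₀ : ℕ) (h : ∀ N, N₀ ≤ N → ∀ x : Ext (tz St) M₂ N,
      x.comp (Ext.mk₀ q) (add_zero N) = 0) : False := by
  have hfin : ∀ j, Finite (Ext (tz C) (PX 2 C C) j) := by
    intro j
    apply Nat.finite_of_card_ne_zero
    have h1 : Nat.card (Ext (tz C) (PX 2 C C) j) = 1 ∨ Nat.card (Ext (tz C) (PX 2 C C) j) = 2 :=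
      hcc j
    omega
  have hs := fun (i : ℕ) (w : Ext (tz C) (Rep.res E'.π
      (Rep.res r (PX 2 L' (L' ⧸ Subgroup.zpowers (E₁.π v))))) i) =>
    IS_main E' E₁ r hr 2 hp (PX 2 L' (L' ⧸ Subgroup.zpowers (E₁.π v))) (VR_kp 2 L' _) i w
  have hk := VR_k2 E' E₁ r hr v hv hcc hfin
  have hfS := (K1_le E' (Rep.res r (PX 2 L' (L' ⧸ Subgroup.zpowers (E₁.π v))))
    (fun i => (hk i).1)).1
  have hcS := (K1_eq E' (Rep.res r (PX 2 L' (L' ⧸ Subgroup.zpowers (E₁.π v)))) hs 0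
    (fun i _ => hfS i)).2
  have hsq := XR_sq j q w j₃ q₃ w₃ f hB hB₃ hf1 hf2
  have hm : ∀ m, j₀ ≤ m → N₀ ≤ 2 * m → False := by
    intro m m1 m2
    have a4 := XR_van j q w hB hsq (2 * m) (h _ m2) (h _ (by omega))
    have a5 : Nat.card (Ext (tz St) (Rep.res r (PX 2 L' (L' ⧸ Subgroup.zpowers (E₁.π v))))
        (2 * m)) = 1 := by
      have : Subsingleton (Ext (tz St)
          (Rep.res r (PX 2 L' (L' ⧸ Subgroup.zpowers (E₁.π v)))) (2 * m)) :=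
        ⟨fun x y => (a4 x).trans (a4 y).symm⟩
      exact Nat.card_of_subsingleton 0
    have a8 := hcS m
    rw [a5] at a8
    have a9 : ∀ i, i ≤ m → hc 2 C (2 * i) = 1 ∧ hc 2 C (2 * i + 1) = 1 := by
      intro i hi
      have b1 := Finset.dvd_prod_of_mem
        (fun i => Nat.card (Ext (tz C) (Rep.res E'.π
          (Rep.res r (PX 2 L' (L' ⧸ Subgroup.zpowers (E₁.π v))))) (2 * i)))
        (Finset.mem_range.2 (show i < m + 1 by omega))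
      rw [← a8] at b1
      apply XR_one
      rw [← (hk (2 * i)).2]
      exact b1
    obtain ⟨i, hi | hi⟩ : ∃ i, j₀ = 2 * i ∨ j₀ = 2 * i + 1 := ⟨j₀ / 2, by omega⟩
    · exact hj₀ (hi ▸ (a9 i (by omega)).1)
    · exact hj₀ (hi ▸ (a9 i (by omega)).2)
  exact hm (j₀ + N₀) (by omega) (by omega)

end Pool.Agent.H5.PD
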