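import Pool.Agent.H5.PD.VA
import Pool.Agent.H5.PD.VI
import Pool.Agent.H5.PD.VR

/-!
Module VF (row PDVF).  `XF_main` (XF.lean, read it first) for the prime `2`, if `u = i(v)²`.  Use only the STATEMENTS of VA, VI, VP, VR, SH, GX, SV, XF.  `X = L' ⧸ ⟨E₁.π v⟩`, `B = Rep.res r (PX 2 L' X)` (which is `PX 2 St X` with `MulAction.compHom X r`, by `rfl`), `V = E'.π v ∈ St`, `V² = E'.π E₁.t`, `V^4 = 1`, `V² ≠ 1`, `r V = E₁.π v`.
* `VF_a` (as `XF_a`): `VP_main E' 2 c'` with `u := v`, `hD` from `VP_two`, `M₁ = B`, `b₁ = PXm (c ↦ mk (r (E'.π c)))`, exact sequence by `SV_main` (`Y = C`, `σ = Equiv.mulRight v`, `Z = X`; fibres: `mk (E₁.π y) = mk (E₁.π y')` iff `∃ n : ℤ, y v^n = y'`), `b₂ = PXo 2 _ _ m`.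
* `VF_b` (as `XF_b`): `VP_main E 2 c` with `u := i v`, `hD` from `VP_two`, `M₁ = C0 St B`, `M₂ := C0 St M₂`, `VI_main` in place of `XI_main`: `π = E.π`, `S = stabilizer L u`, `x₀ = mk 1`, `W = Subgroup.zpowers (i v)` (`hW`: `E.π g = s ∈ St` iff `g = i c` (`IX_mem`), `r s = E₁.π c`; `s • x₀ = x₀` iff `E₁.π c ∈ ⟨E₁.π v⟩` iff `c ∈ ⟨v⟩`;
 conversely `g = i v ^ n`).
* `VF_main` (as `XF_main`): `XF_c` is used unchanged; the contradiction is `VR_main`.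
(Helper lemmas for the parts are recommended, as in XF.lean.)
-/

namespace Pool.Agent.H5.PD

open CategoryTheory CategoryTheory.Abelian CategoryTheory.Limits Pool.Agent.H5.CP
  Pool.Agent.H75.CP Pool.Agent.H5.ZP

theorem VF_inf {C L' : Type} [Group C] [Group L'] (E₁ : CX C L') (v : C) (hv : v ^ 2 = E₁.t)
    (n : ℤ) (hn : v ^ n = 1) : n = 0 := by
  apply E₁.inf
  rw [← hv, ← zpow_natCast, ← zpow_mul, mul_comm, zpow_mul, hn, one_zpow]

theorem VF_mk {C L' : Type} [Group C] [Group L'] (E₁ : CX C L') (v : C) (hv : v ^ 2 = E₁.t)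
    (y y' : C) : (QuotientGroup.mk (E₁.π y) : L' ⧸ Subgroup.zpowers (E₁.π v)) =
      QuotientGroup.mk (E₁.π y') ↔ ∃ n : ℤ, y * v ^ n = y' := by
  have h := VR_st E₁ v hv (y⁻¹ * y')
  rw [QuotientGroup.eq, mul_one, inv_mem_iff, map_mul, map_inv] at h
  rw [QuotientGroup.eq, h]
  constructor
  · rintro ⟨n, hn⟩
    refine ⟨n, ?_⟩
    rw [← hn, mul_inv_cancel_left]
  · rintro ⟨n, hn⟩
    refine ⟨n, ?_⟩
    rw [← hn, inv_mul_cancel_left]

theorem VF_alg {St L' : Type} [Group St] [Group L']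
    (r : St →* L') (hr : Function.Surjective r) (V : St) (hV : V ^ 4 = 1) (hV1 : V ^ 2 ≠ 1)
    (hk : ∀ s s' : St, r s = r s' ↔ ∃ n : ℕ, s * (V ^ 2) ^ n = s') (a : L') (ha : r V = a) :
    ∃ (M₂ M₃ : Rep.{0} ℤ St) (j : Rep.res r (PX 2 L' (L' ⧸ Subgroup.zpowers a)) ⟶ M₂)
      (q : M₂ ⟶ Rep.res r (PX 2 L' (L' ⧸ Subgroup.zpowers a))) (w : j ≫ q = 0)
      (j₃ : M₂ ⟶ M₃) (q₃ : M₃ ⟶ Rep.res r (PX 2 L' (L' ⧸ Subgroup.zpowers a)))
      (w₃ : j₃ ≫ q₃ = 0) (f : M₃ ⟶ M₂), Kp 2 M₂ ∧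
      (ShortComplex.mk j q w).ShortExact ∧ (ShortComplex.mk j₃ q₃ w₃).ShortExact ∧
      f ≫ q = q₃ ∧ j₃ ≫ f = q ≫ j ∧
      ∃ m : M₂.V, (q.hom m : (L' ⧸ Subgroup.zpowers a) →₀ ZMod 2) =
          Finsupp.single (QuotientGroup.mk (1 : L')) 1 ∧
        M₂.ρ V m - m = j.hom (Finsupp.single (QuotientGroup.mk (1 : L')) (1 : ZMod 2) :
          (L' ⧸ Subgroup.zpowers a) →₀ ZMod 2) := by
  subst ha
  exact VA_main r hr V hV hV1 hk

/-- part (a) of the header -/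
theorem VF_a {C St L' : Type} [Group C] [Group St] [Group L'] (E' : CX C St) (E₁ : CX C L')
    (r : St →* L') (hrr : ∀ c, r (E'.π c) = E₁.π c) (v : C) (hv : v ^ 2 = E₁.t) (c' : ℕ)
    (hc0' : 1 ≤ c') (hC1 : CD (ZMod 2) C (c' + 1)) (hC2 : hc 2 C c' = 2)
    (hC3 : ∀ j, j ≠ c' → hc 2 C j = 1) (M₂ : Rep.{0} ℤ St)
    (j : Rep.res r (PX 2 L' (L' ⧸ Subgroup.zpowers (E₁.π v))) ⟶ M₂)
    (q : M₂ ⟶ Rep.res r (PX 2 L' (L' ⧸ Subgroup.zpowers (E₁.π v)))) (w₂ : j ≫ q = 0)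
    (hK : Kp 2 M₂) (hK1 : Kp 2 (Rep.res r (PX 2 L' (L' ⧸ Subgroup.zpowers (E₁.π v)))))
    (hB : (ShortComplex.mk j q w₂).ShortExact) (m : M₂.V)
    (hm1 : (q.hom m : (L' ⧸ Subgroup.zpowers (E₁.π v)) →₀ ZMod 2) =
      Finsupp.single (QuotientGroup.mk (1 : L')) 1)
    (hm2 : M₂.ρ (E'.π v) m - m =
      j.hom (Finsupp.single (QuotientGroup.mk (1 : L')) (1 : ZMod 2) :
        (L' ⧸ Subgroup.zpowers (E₁.π v)) →₀ ZMod 2)) (N : ℕ) (hN : c' ≤ N + 1)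
    (hpar : (N + 1) % 2 = c' % 2) (x : Ext (tz St) M₂ N) :
    x.comp (Ext.mk₀ q) (add_zero N) = 0 := by
  have h1 : r (E'.π 1) = 1 := by rw [map_one, map_one]
  let _ : MulAction C (L' ⧸ Subgroup.zpowers (E₁.π v)) :=
    MulAction.compHom (L' ⧸ Subgroup.zpowers (E₁.π v)) (r.comp E'.π)
  have hq : ∀ (g y : C), (QuotientGroup.mk (r (E'.π (g • y))) :
      L' ⧸ Subgroup.zpowers (E₁.π v)) =
      g • (QuotientGroup.mk (r (E'.π y)) : L' ⧸ Subgroup.zpowers (E₁.π v)) := fun g y => by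
    show (QuotientGroup.mk (r (E'.π (g * y))) : L' ⧸ Subgroup.zpowers (E₁.π v)) =
      QuotientGroup.mk (r (E'.π g) * r (E'.π y))
    rw [map_mul, map_mul]
  obtain ⟨w, hS⟩ := SV_main 2 (K := C) (Y := C) (Z := L' ⧸ Subgroup.zpowers (E₁.π v))
    (Equiv.mulRight v)
    (fun g y => mul_assoc g y v) (fun n y h => by
      rw [XF_zpow] at h
      exact VF_inf E₁ v hv n (mul_eq_left.1 h)) (fun y => QuotientGroup.mk (r (E'.π y))) hq
      (fun z => by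
      obtain ⟨l, rfl⟩ := QuotientGroup.mk_surjective z
      obtain ⟨y, hy⟩ := E₁.surj l
      refine ⟨y, ?_⟩
      show (QuotientGroup.mk (r (E'.π y)) : L' ⧸ Subgroup.zpowers (E₁.π v)) = QuotientGroup.mk l
      rw [hrr, hy]) (fun y y' => by
      show (QuotientGroup.mk (r (E'.π y)) : L' ⧸ Subgroup.zpowers (E₁.π v)) =
        QuotientGroup.mk (r (E'.π y')) ↔ _
      rw [hrr, hrr, VF_mk E₁ v hv]
      constructor
      · rintro ⟨n, hn⟩
        exact ⟨n, (XF_zpow v n y).trans hn⟩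
      · rintro ⟨n, hn⟩
        exact ⟨n, (XF_zpow v n y).symm.trans hn⟩)
  let b₁ : PX 2 C C ⟶ Rep.res E'.π (Rep.res r (PX 2 L' (L' ⧸ Subgroup.zpowers (E₁.π v)))) :=
    PXm 2 (fun y => QuotientGroup.mk (r (E'.π y))) hq
  have hb1 : b₁.hom (Finsupp.single (1 : C) (1 : ZMod 2) : C →₀ ZMod 2) =
      (Finsupp.single (QuotientGroup.mk (1 : L')) (1 : ZMod 2) :
        (L' ⧸ Subgroup.zpowers (E₁.π v)) →₀ ZMod 2) := by
    refine (PXm_hom 2 (fun y => (QuotientGroup.mk (r (E'.π y)) :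
      L' ⧸ Subgroup.zpowers (E₁.π v))) hq _).trans ?_
    rw [Finsupp.mapDomain_single]
    show (Finsupp.single (QuotientGroup.mk (r (E'.π 1))) 1 :
      (L' ⧸ Subgroup.zpowers (E₁.π v)) →₀ ZMod 2) = _
    rw [h1]
  refine VP_main E' 2 c' hc0' hC1 hC2 hC3 (Rep.res r (PX 2 L' (L' ⧸ Subgroup.zpowers (E₁.π v))))
    M₂ hK1 hK j q w₂ hB v (fun y => VP_two v c' (Or.inr hC2) y)
    b₁ w hS (PXo 2 (Rep.res E'.π M₂) hK m) ?_ ?_ N hN hpar x
  · refine XF_ext 2 _ _ ?_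
    refine Eq.trans ?_ hb1.symm
    show q.hom ((PXo 2 (Rep.res E'.π M₂) hK m).hom (Finsupp.single (1 : C) (1 : ZMod 2))) = _
    exact (congrArg q.hom (XF_po1 2 (Rep.res E'.π M₂) hK m)).trans hm1
  · refine XF_ext 2 _ _ ?_
    refine (XF_po2 2 v (Rep.res E'.π M₂) hK m).trans (Eq.trans hm2 ?_)
    show _ = j.hom (b₁.hom (Finsupp.single (1 : C) (1 : ZMod 2) : C →₀ ZMod 2))
    exact congrArg j.hom hb1.symm

/-- the preimage of the stabiliser of the base point -/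
theorem VF_W {H L C L' : Type} [Group H] [Group L] [Group C] [Group L'] (E : CX H L)
    (u : E.Y0 2) (i : C →* H) (E₁ : CX C L') (v : C) (hv : v ^ 2 = E₁.t)
    (E' : CX C (MulAction.stabilizer L u)) (r : MulAction.stabilizer L u →* L')
    (hπ : ∀ c, ((E'.π c : MulAction.stabilizer L u) : L) = E.π (i c)) (hti : i E'.t = E.t)
    (hp : E₁.t ^ 2 = E'.t) (hrr : ∀ c, r (E'.π c) = E₁.π c) (g : H) :
    g ∈ Subgroup.zpowers (i v) ↔ ∃ s : MulAction.stabilizer L u, (s : L) = E.π g ∧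
      (QuotientGroup.mk (r s * 1) : L' ⧸ Subgroup.zpowers (E₁.π v)) = QuotientGroup.mk 1 := by
  rw [Subgroup.mem_zpowers_iff]
  constructor
  · rintro ⟨n, rfl⟩
    refine ⟨E'.π (v ^ n), ?_, ?_⟩
    · rw [hπ, map_zpow i]
    · rw [mul_one, hrr]
      exact (VR_st E₁ v hv (v ^ n)).2 ⟨n, rfl⟩
  · rintro ⟨s, hs1, hs2⟩
    obtain ⟨a, rfl⟩ := E'.surj s
    rw [mul_one, hrr] at hs2
    obtain ⟨n, hn⟩ := (VR_st E₁ v hv a).1 hs2
    rw [hπ] at hs1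
    obtain ⟨k, hk⟩ := (E.ker (g * (i a)⁻¹)).1 (by
      rw [map_mul, map_inv, hs1, mul_inv_cancel])
    refine ⟨4 * k + n, ?_⟩
    have h1 : E.t = (i v) ^ (4 : ℤ) := by
      rw [← hti, ← hp, ← hv, ← pow_mul, map_pow]
      norm_num
    rw [zpow_add, zpow_mul, ← h1, ← hk, ← map_zpow i, ← hn, inv_mul_cancel_right]

/-- part (b) of the header: vanishing for `C0` -/
theorem VF_b {H L C L' : Type} [Group H] [Group L] [Group C] [Group L'] (E : CX H L)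
    (u : E.Y0 2) (i : C →* H) (hi : Function.Injective i)
    (E₁ : CX C L') (v : C) (hv : v ^ 2 = E₁.t) (c : ℕ) (hc0 : 1 ≤ c)
    (hH1 : CD (ZMod 2) H (c + 1)) (hH2 : hc 2 H c = 2) (hH3 : ∀ j, j ≠ c → hc 2 H j = 1)
    (E' : CX C (MulAction.stabilizer L u)) (r : MulAction.stabilizer L u →* L')
    (hπ : ∀ c, ((E'.π c : MulAction.stabilizer L u) : L) = E.π (i c)) (hti : i E'.t = E.t)
    (hp : E₁.t ^ 2 = E'.t) (hrr : ∀ c, r (E'.π c) = E₁.π c) (hrs : Function.Surjective r)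
    (M₂ : Rep.{0} ℤ (MulAction.stabilizer L u))
    (j : Rep.res r (PX 2 L' (L' ⧸ Subgroup.zpowers (E₁.π v))) ⟶ M₂)
    (q : M₂ ⟶ Rep.res r (PX 2 L' (L' ⧸ Subgroup.zpowers (E₁.π v)))) (w₂ : j ≫ q = 0)
    (hK : Kp 2 M₂) (hK1 : Kp 2 (Rep.res r (PX 2 L' (L' ⧸ Subgroup.zpowers (E₁.π v)))))
    (hB : (ShortComplex.mk j q w₂).ShortExact) (m : M₂.V)
    (hm1 : (q.hom m : (L' ⧸ Subgroup.zpowers (E₁.π v)) →₀ ZMod 2) =
      Finsupp.single (QuotientGroup.mk (1 : L')) 1)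
    (hm2 : M₂.ρ (E'.π v) m - m =
      j.hom (Finsupp.single (QuotientGroup.mk (1 : L')) (1 : ZMod 2) :
        (L' ⧸ Subgroup.zpowers (E₁.π v)) →₀ ZMod 2)) (N : ℕ) (hN : c ≤ N + 1)
    (hpar : (N + 1) % 2 = c % 2)
    (x : Ext (tz L) (C0 (MulAction.stabilizer L u) M₂) N) :
    x.comp (Ext.mk₀ (C0m (MulAction.stabilizer L u) q)) (add_zero N) = 0 := by
  let _ : MulAction (MulAction.stabilizer L u) (L' ⧸ Subgroup.zpowers (E₁.π v)) :=
    MulAction.compHom (L' ⧸ Subgroup.zpowers (E₁.π v)) r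
  obtain ⟨φ, hφ⟩ : ∃ φ : Rep.res E.π (C0 (MulAction.stabilizer L u)
        (Rep.res r (PX 2 L' (L' ⧸ Subgroup.zpowers (E₁.π v))))) ≅
        PX 2 H (H ⧸ Subgroup.zpowers (i v)),
      φ.inv.hom (Finsupp.single (QuotientGroup.mk (1 : H)) (1 : ZMod 2) :
        (H ⧸ Subgroup.zpowers (i v)) →₀ ZMod 2) =
      dlt (MulAction.stabilizer L u) (Rep.res r (PX 2 L' (L' ⧸ Subgroup.zpowers (E₁.π v))))
        (Finsupp.single (QuotientGroup.mk (1 : L')) (1 : ZMod 2) :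
          (L' ⧸ Subgroup.zpowers (E₁.π v)) →₀ ZMod 2) :=
    VI_main E.π E.surj (MulAction.stabilizer L u)
      (X := L' ⧸ Subgroup.zpowers (E₁.π v)) (QuotientGroup.mk (1 : L')) (fun z => by
        obtain ⟨l, rfl⟩ := QuotientGroup.mk_surjective z
        obtain ⟨s, rfl⟩ := hrs l
        refine ⟨s, ?_⟩
        show (QuotientGroup.mk (r s * 1) : L' ⧸ Subgroup.zpowers (E₁.π v)) = _
        rw [mul_one])
      (Subgroup.zpowers (i v)) (fun g => VF_W E u i E₁ v hv E' r hπ hti hp hrr g) 2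
  have hq : ∀ (g y : H), (QuotientGroup.mk (g • y) : H ⧸ Subgroup.zpowers (i v)) =
      g • (QuotientGroup.mk y : H ⧸ Subgroup.zpowers (i v)) := fun g y => rfl
  obtain ⟨w, hS⟩ := SV_main 2 (K := H) (Y := H) (Z := H ⧸ Subgroup.zpowers (i v))
    (Equiv.mulRight (i v))
    (fun g y => mul_assoc g y (i v)) (fun n y h => by
      rw [XF_zpow] at h
      have h2 := mul_eq_left.1 h
      rw [← map_zpow i] at h2
      exact VF_inf E₁ v hv n (hi (h2.trans (map_one i).symm))) (fun y => QuotientGroup.mk y) hq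
      (QuotientGroup.mk_surjective) (fun y y' => by
      show (QuotientGroup.mk y : H ⧸ Subgroup.zpowers (i v)) = QuotientGroup.mk y' ↔ _
      rw [QuotientGroup.eq, Subgroup.mem_zpowers_iff]
      constructor
      · rintro ⟨n, hn⟩
        refine ⟨n, ?_⟩
        rw [XF_zpow, hn, mul_inv_cancel_left]
      · rintro ⟨n, rfl⟩
        refine ⟨n, ?_⟩
        rw [XF_zpow, inv_mul_cancel_left])
  let b₀ : PX 2 H H ⟶ PX 2 H (H ⧸ Subgroup.zpowers (i v)) := PXm 2 (fun y => QuotientGroup.mk y) hq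
  let b₁ : PX 2 H H ⟶ Rep.res E.π (C0 (MulAction.stabilizer L u)
      (Rep.res r (PX 2 L' (L' ⧸ Subgroup.zpowers (E₁.π v))))) :=
    b₀ ≫ φ.symm.hom
  have w0 : (rmu 2 (i v) - 𝟙 _) ≫ b₀ = 0 := w
  have w' : (rmu 2 (i v) - 𝟙 _) ≫ b₁ = 0 := by
    show (rmu 2 (i v) - 𝟙 _) ≫ b₀ ≫ φ.symm.hom = 0
    rw [← Category.assoc, w0, zero_comp]
  have hS' : (ShortComplex.mk (rmu 2 (i v) - 𝟙 _) b₁ w').ShortExact :=
    XF_iso _ b₀ w hS φ.symm w'
  have hb1 : b₁.hom (Finsupp.single (1 : H) (1 : ZMod 2) : H →₀ ZMod 2) =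
      dlt (MulAction.stabilizer L u) (Rep.res r (PX 2 L' (L' ⧸ Subgroup.zpowers (E₁.π v))))
        (Finsupp.single (QuotientGroup.mk (1 : L')) (1 : ZMod 2) :
          (L' ⧸ Subgroup.zpowers (E₁.π v)) →₀ ZMod 2) := by
    refine Eq.trans ?_ hφ
    show φ.inv.hom (Finsupp.mapDomain (fun y : H => (QuotientGroup.mk y :
      H ⧸ Subgroup.zpowers (i v))) (Finsupp.single (1 : H) (1 : ZMod 2))) = _
    rw [Finsupp.mapDomain_single]
  have hK2 : Kp 2 (C0 (MulAction.stabilizer L u) M₂) := C0_kp _ M₂ 2 hK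
  have hB' : (ShortComplex.mk (C0m (MulAction.stabilizer L u) j)
      (C0m (MulAction.stabilizer L u) q)
      (XC_w (MulAction.stabilizer L u) (ShortComplex.mk j q w₂))).ShortExact :=
    XC_ses (MulAction.stabilizer L u) (ShortComplex.mk j q w₂) hB
  have hd : (C0 (MulAction.stabilizer L u) M₂).ρ (E.π (i v))
      (dlt (MulAction.stabilizer L u) M₂ m) - dlt (MulAction.stabilizer L u) M₂ m =
      dlt (MulAction.stabilizer L u) M₂
        (j.hom (Finsupp.single (QuotientGroup.mk (1 : L')) (1 : ZMod 2) :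
          (L' ⧸ Subgroup.zpowers (E₁.π v)) →₀ ZMod 2)) := by
    rw [← hπ, dlt_ρ, ← hm2, sub_eq_iff_eq_add, ← dlt_add, sub_add_cancel]
  refine VP_main E 2 c hc0 hH1 hH2 hH3 _ _ (C0_kp _ _ 2 hK1) hK2 _ _ _ hB' (i v)
    (fun y => VP_two (i v) c (Or.inr hH2) y)
    b₁ w' hS' (PXo 2 (Rep.res E.π (C0 (MulAction.stabilizer L u) M₂)) hK2
      (dlt (MulAction.stabilizer L u) M₂ m)) ?_ ?_ N hN hpar x
  · refine XF_ext 2 _ _ ?_
    refine Eq.trans ?_ hb1.symm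
    show (C0m (MulAction.stabilizer L u) q).hom
      ((PXo 2 (Rep.res E.π (C0 (MulAction.stabilizer L u) M₂)) hK2
      (dlt (MulAction.stabilizer L u) M₂ m)).hom (Finsupp.single (1 : H) (1 : ZMod 2))) = _
    refine (congrArg (C0m (MulAction.stabilizer L u) q).hom (XF_po1 2
      (Rep.res E.π (C0 (MulAction.stabilizer L u) M₂)) hK2
        (dlt (MulAction.stabilizer L u) M₂ m))).trans ?_
    refine (dlt_m (MulAction.stabilizer L u) q m).trans ?_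
    exact congrArg (dlt (MulAction.stabilizer L u)
      (Rep.res r (PX 2 L' (L' ⧸ Subgroup.zpowers (E₁.π v))))) hm1
  · refine XF_ext 2 _ _ ?_
    refine (XF_po2 2 (i v) (Rep.res E.π (C0 (MulAction.stabilizer L u) M₂)) hK2
        (dlt (MulAction.stabilizer L u) M₂ m)).trans (Eq.trans hd ?_)
    show _ = (C0m (MulAction.stabilizer L u) j).hom
      (b₁.hom (Finsupp.single (1 : H) (1 : ZMod 2) : H →₀ ZMod 2))
    refine Eq.trans ?_ (congrArg (C0m (MulAction.stabilizer L u) j).hom hb1).symm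
    exact (dlt_m (MulAction.stabilizer L u) j _).symm

theorem VF_main {H L C L' : Type} [Group H] [Group L] [Group C] [Group L'] (E : CX H L) (n : ℕ)
    (hH : CD (ZMod 2) H n) (u : H) (hu : u ^ 2 = E.t) (i : C →* H)
    (hi : Function.Injective i) (hr : ∀ x : H, (∃ c, i c = x) ↔ x * u = u * x)
    (E₁ : CX C L') (h₁ : i E₁.t = u) (v : C) (hv : v ^ 2 = E₁.t)
    (c c' : ℕ) (hc0 : 1 ≤ c) (hc0' : 1 ≤ c')
    (hH1 : CD (ZMod 2) H (c + 1)) (hH2 : hc 2 H c = 2) (hH3 : ∀ j, j ≠ c → hc 2 H j = 1)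
    (hC1 : CD (ZMod 2) C (c' + 1)) (hC2 : hc 2 C c' = 2) (hC3 : ∀ j, j ≠ c' → hc 2 C j = 1) :
    c % 2 = c' % 2 := by
  by_contra hne
  let u₀ : E.Y0 2 := ⟨u, hu⟩
  obtain ⟨E', r, hπ, hti, hp, hrr⟩ := GX_main E 2 u₀ i hi hr E₁ h₁
  obtain ⟨U, hUd⟩ : ∃ U, U = E'.π E₁.t := ⟨_, rfl⟩
  have hpow : ∀ k : ℤ, E'.π (E₁.t ^ ((2 : ℤ) * k)) = 1 := by
    intro k
    refine (E'.ker _).2 ⟨k, ?_⟩
    rw [zpow_mul, zpow_ofNat, hp]
  have hU3 : U ^ 2 = 1 := by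
    rw [hUd, ← map_pow, hp]
    exact (E'.ker _).2 ⟨1, (zpow_one _).symm⟩
  have hU1 : U ≠ 1 := by
    intro h
    rw [hUd] at h
    obtain ⟨k, hk⟩ := (E'.ker _).1 h
    rw [← hp] at hk
    have h3 : E₁.t ^ ((2 : ℤ) * k - 1) = 1 := by
      have h4 : (E₁.t ^ 2) ^ k = E₁.t ^ ((2 : ℤ) * k) := by
        rw [zpow_mul, zpow_ofNat]
      rw [zpow_sub, zpow_one, ← h4, ← hk, mul_inv_cancel]
    have h5 := E₁.inf _ h3
    omega
  have hrU : r U = 1 := by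
    rw [hUd, hrr]
    exact (E₁.ker _).2 ⟨1, (zpow_one _).symm⟩
  have hk : ∀ s s' : MulAction.stabilizer L u₀, r s = r s' ↔ ∃ n : ℕ, s * U ^ n = s' := by
    intro s s'
    constructor
    · intro h
      obtain ⟨a, rfl⟩ := E'.surj s
      obtain ⟨a', rfl⟩ := E'.surj s'
      rw [hrr, hrr] at h
      obtain ⟨k, hk⟩ := (E₁.ker (a⁻¹ * a')).1 (by rw [map_mul, map_inv, h, inv_mul_cancel])
      have h1 : a' = a * E₁.t ^ k := by rw [← hk, mul_inv_cancel_left]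
      obtain ⟨m, hm⟩ := Int.eq_ofNat_of_zero_le (Int.emod_nonneg k (by norm_num : (2 : ℤ) ≠ 0))
      have h2 : E₁.t ^ k = E₁.t ^ ((2 : ℤ) * (k / 2)) * E₁.t ^ m := by
        rw [← zpow_natCast E₁.t m, ← hm, ← zpow_add, Int.mul_ediv_add_emod]
      refine ⟨m, ?_⟩
      rw [h1, map_mul, h2, map_mul, hpow, one_mul, map_pow, hUd]
    · rintro ⟨m, rfl⟩
      rw [map_mul, map_pow, hrU, one_pow, mul_one]
  have hrs : Function.Surjective r := by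
    intro l
    obtain ⟨a, ha⟩ := E₁.surj l
    exact ⟨E'.π a, (hrr a).trans ha⟩
  have hV2 : E'.π v ^ 2 = U := by rw [hUd, ← map_pow, hv]
  obtain ⟨M₂, M₃, j, q, w, j₃, q₃, w₃, f, hK, hB, hB₃, hf1, hf2, m, hm1, hm2⟩ :=
    VF_alg r hrs (E'.π v) (by
      have e : E'.π v ^ 4 = (E'.π v ^ 2) ^ 2 := by rw [← pow_mul]
      rw [e, hV2, hU3]) (by rw [hV2]; exact hU1) (by rw [hV2]; exact hk) (E₁.π v) (hrr v)
  have hK1 : Kp 2 (Rep.res r (PX 2 L' (L' ⧸ Subgroup.zpowers (E₁.π v)))) :=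
    fun y => VR_kp 2 L' _ y
  have hcc : ∀ j, hc 2 C j = 1 ∨ hc 2 C j = 2 := by
    intro j
    by_cases hj : j = c'
    · right
      rw [hj, hC2]
    · exact Or.inl (hC3 j hj)
  refine VR_main E' E₁ r hrr hp v hv hcc c' (by rw [hC2]; norm_num)
    M₂ M₃ j q w j₃ q₃ w₃ f hB hB₃ hf1 hf2 (2 * n + 4 + c + c') ?_
  intro N hN x
  by_cases hpar : (N + 1) % 2 = c' % 2
  · exact VF_a E' E₁ r hrr v hv c' hc0' hC1 hC2 hC3 M₂ j q w hK hK1 hB m hm1 hm2 N (by omega)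
      hpar x
  · exact XF_c 2 E n hH u₀ M₂ _ q hK N (by omega) (VF_b E u₀ i hi E₁ v hv c hc0 hH1 hH2 hH3
      E' r hπ hti hp hrr hrs M₂ j q w hK hK1 hB m hm1 hm2 N (by omega) (by omega)) x

end Pool.Agent.H5.PD
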