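import Pool.Agent.H5.PD.X5
import Pool.Agent.H5.PD.VF
import Pool.Agent.H5.PD.PF

/-!
Module V5 (row PDV5).  `X5_par` and `X5_cen` (X5.lean, read the proofs there) without the hypothesis `p ≠ 2`.  `V5_par`: the same induction, with `VF_main` in place of `XF_main` when `p = 2`: in the step from `H = C k` (or `H = Γ`) to `C (k+1) = centralizer {w (k+2)}`, `u = w (k+2)`, take `v = ⟨w (k+3), _⟩` (`w (k+3)` commutes with its power `w (k+2)`), `v ^ 2 = u`.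
 `V5_cen`: the same proof as `X5_cen`, with `V5_par` (copy it).
-/

namespace Pool.Agent.H5.PD

open CategoryTheory CategoryTheory.Abelian CategoryTheory.Limits Pool.Agent.H5.CP
  Pool.Agent.H75.CP Pool.Agent.H5.ZP

/-- the parity step for all primes: `u = i E₁.t`, `E₁.t = v ^ p` -/
theorem V5_step {H L C L' : Type} [Group H] [Group L] [Group C] [Group L'] (E : CX H L)
    (p : ℕ) [hpf : Fact p.Prime] (n : ℕ)
    (hH : CD (ZMod p) H n) (u : H) (hu : u ^ p = E.t) (i : C →* H)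
    (hi : Function.Injective i) (hr : ∀ x : H, (∃ c, i c = x) ↔ x * u = u * x)
    (E₁ : CX C L') (h₁ : i E₁.t = u) (v : C) (hv : v ^ p = E₁.t)
    (c c' : ℕ) (hc0 : 1 ≤ c) (hc0' : 1 ≤ c')
    (hH1 : CD (ZMod p) H (c + 1)) (hH2 : hc p H c = p) (hH3 : ∀ j, j ≠ c → hc p H j = 1)
    (hC1 : CD (ZMod p) C (c' + 1)) (hC2 : hc p C c' = p) (hC3 : ∀ j, j ≠ c' → hc p C j = 1) :
    c % 2 = c' % 2 := by
  by_cases hp2 : p = 2
  · subst hp2
    exact VF_main E n hH u hu i hi hr E₁ h₁ v hv c c' hc0 hc0' hH1 hH2 hH3 hC1 hC2 hC3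
  · exact XF_main E p hp2 n hH u hu i hi hr E₁ h₁ c c' hc0 hc0' hH1 hH2 hH3 hC1 hC2 hC3

/-- the top degrees of the centralisers -/
theorem V5_top {Γ : Type} [Group Γ] (hΓ : IsTypeFP Γ) (d : ℕ)
    (h0 : ∀ j, j ≠ d → IsZero (groupCohomology (Rep.leftRegular ℤ Γ) j))
    (h1 : Nonempty (groupCohomology (Rep.leftRegular ℤ Γ) d ≃+ ℤ)) (p : ℕ) [Fact p.Prime]
    (z : Γ) (hz : z ∈ Subgroup.center Γ) (hz1 : z ≠ 1) (w : ℕ → Γ) (hw0 : w 0 = z)
    (hw : ∀ k, w (k + 1) ^ p = w k) (k : ℕ) :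
    ∃ c, 1 ≤ c ∧ c % 2 = d % 2 ∧
      CD (ZMod p) (Subgroup.centralizer {w (k + 1)} : Subgroup Γ) (c + 1) ∧
      ¬ CD (ZMod p) (Subgroup.centralizer {w (k + 1)} : Subgroup Γ) c ∧
      hc p (Subgroup.centralizer {w (k + 1)} : Subgroup Γ) c = p ∧
      ∀ j, j ≠ c → hc p (Subgroup.centralizer {w (k + 1)} : Subgroup Γ) j = 1 := by
  obtain ⟨n, hlv⟩ := CH_lv hΓ d h0 h1 p z hz hz1 w hw0 hw
  induction k with
  | zero =>
    obtain ⟨n', L, _, E, hEt, hE⟩ := BA_main hΓ d h0 h1 p z hz hz1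
    obtain ⟨hd1, hd2, hd3, hd4⟩ := X5_base hΓ d h0 h1 p z hz hz1
    obtain ⟨L₁, _, E₁, hE₁t, hE₁⟩ := hlv 0
    obtain ⟨c, hc1, hc2, hc3, hc4, hc5⟩ := X5_top E₁ p n hE₁
    refine ⟨c, hc1, ?_, hc2, hc3, hc4, hc5⟩
    refine (V5_step E p n' hE.cd (w (0 + 1)) ?_ (Subgroup.subtype _) Subtype.val_injective ?_ E₁
      hE₁t ⟨w (0 + 1 + 1), CH_mem p w hw (0 + 1)⟩ ?_ d c hd1 hc1 hd2 hd3 hd4 hc2 hc4 hc5).symm
    · rw [hw 0, hw0, hEt]
    · intro x
      rw [← Subgroup.mem_centralizer_singleton_iff]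
      constructor
      · rintro ⟨c, rfl⟩
        exact c.2
      · intro hx
        exact ⟨⟨x, hx⟩, rfl⟩
    · apply Subtype.ext
      rw [hE₁t]
      exact hw (0 + 1)
  | succ k ih =>
    obtain ⟨c₀, hc₀1, hc₀p, hc₀2, hc₀3, hc₀4, hc₀5⟩ := ih
    obtain ⟨L₀, _, E₀, hE₀t, hE₀⟩ := hlv k
    obtain ⟨L₁, _, E₁, hE₁t, hE₁⟩ := hlv (k + 1)
    obtain ⟨c, hc1, hc2, hc3, hc4, hc5⟩ := X5_top E₁ p n hE₁
    refine ⟨c, hc1, ?_, hc2, hc3, hc4, hc5⟩
    rw [← hc₀p]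
    refine (V5_step E₀ p n hE₀.cd ⟨w (k + 1 + 1), CH_mem p w hw (k + 1)⟩ ?_
      (Subgroup.inclusion (CH_succ p w hw (k + 1))) (Subgroup.inclusion_injective _) ?_ E₁ ?_
      ⟨w (k + 1 + 1 + 1), CH_mem p w hw (k + 1 + 1)⟩ ?_ c₀ c hc₀1 hc1 hc₀2 hc₀4 hc₀5 hc2 hc4
      hc5).symm
    · apply Subtype.ext
      rw [hE₀t]
      exact hw (k + 1)
    · intro x
      constructor
      · rintro ⟨c, rfl⟩
        apply Subtype.ext
        exact Subgroup.mem_centralizer_singleton_iff.1 c.2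
      · intro hx
        refine ⟨⟨x, ?_⟩, rfl⟩
        rw [Subgroup.mem_centralizer_singleton_iff]
        exact congrArg Subtype.val hx
    · apply Subtype.ext
      exact hE₁t
    · apply Subtype.ext
      rw [hE₁t]
      exact hw (k + 1 + 1)

theorem V5_par {Γ : Type} [Group Γ] (hΓ : IsTypeFP Γ) (d : ℕ)
    (h0 : ∀ j, j ≠ d → IsZero (groupCohomology (Rep.leftRegular ℤ Γ) j))
    (h1 : Nonempty (groupCohomology (Rep.leftRegular ℤ Γ) d ≃+ ℤ)) (p : ℕ) [Fact p.Prime]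
    (z : Γ) (hz : z ∈ Subgroup.center Γ) (hz1 : z ≠ 1) (w : ℕ → Γ) (hw0 : w 0 = z)
    (hw : ∀ k, w (k + 1) ^ p = w k) (k : ℕ) :
    ∃ c, 1 ≤ c ∧ c ≤ d ∧ c % 2 = d % 2 ∧
      CD (ZMod p) (Subgroup.centralizer {w (k + 1)} : Subgroup Γ) (c + 1) ∧
      ¬ CD (ZMod p) (Subgroup.centralizer {w (k + 1)} : Subgroup Γ) c := by
  obtain ⟨c, hc1, hcp, hc2, hc3, -, -⟩ := V5_top hΓ d h0 h1 p z hz hz1 w hw0 hw k
  refine ⟨c, hc1, ?_, hcp, hc2, hc3⟩
  by_contra hcd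
  obtain ⟨-, hd2, -, -⟩ := X5_base hΓ d h0 h1 p z hz hz1
  have h2 := SubC_main (d + 1) hd2 (Subgroup.centralizer {w (k + 1)} : Subgroup Γ)
  exact hc3 fun A j hj => h2 A j (by omega)

theorem V5_cen {Γ : Type} [Group Γ] (hΓ : IsTypeFP Γ) (d : ℕ) (hd : d ≤ 4)
    (h0 : ∀ j, j ≠ d → IsZero (groupCohomology (Rep.leftRegular ℤ Γ) j))
    (h1 : Nonempty (groupCohomology (Rep.leftRegular ℤ Γ) d ≃+ ℤ)) (p : ℕ) [Fact p.Prime]
    (z : Γ) (hz : z ∈ Subgroup.center Γ) (hz1 : z ≠ 1)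
    (h : ∀ k : ℕ, ∃ u : Γ, u ^ (p ^ k) = z) (k : ℕ) :
    ∃ u ∈ Subgroup.center Γ, u ^ (p ^ k) = z := by
  have hp : p.Prime := Fact.out
  have hp0 := hp.ne_zero
  obtain ⟨f, hf, hfz⟩ := Ma_chain hΓ z hz hz1 p hp h
  let w : ℕ → Γ := fun k => f (Multiplicative.ofAdd ⟨_, PF_mem p k hp0⟩)
  have hw0 : w 0 = z := by
    rw [← hfz]
    show f _ = f _
    congr 2
    apply Subtype.ext
    show (1 : ℚ) / (p : ℚ) ^ 0 = 1
    simp
  have hw : ∀ k, w (k + 1) ^ p = w k := fun k => PF_w p hp0 f k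
  obtain ⟨K, hfg, hK⟩ := CH_main hΓ d h0 h1 p z hz hz1 w hw0 hw
  have hfg' : Group.FG (Subgroup.centralizer {w (K + 1)} : Subgroup Γ) :=
    (Group.fg_iff_subgroup_fg _).2 hfg
  have hA : ∀ x, f x ∈ (Subgroup.centralizer {w (K + 1)} : Subgroup Γ) := by
    intro x
    obtain ⟨m, k, hmk⟩ := (Multiplicative.toAdd x).2
    have h2 : f x = w k ^ m := PF_q p hp0 f (Multiplicative.toAdd x) m k hmk
    rw [h2]
    exact Subgroup.zpow_mem _ (hK k).1 m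
  let g : Multiplicative (Zp p) →* (Subgroup.centralizer {w (K + 1)} : Subgroup Γ) :=
    f.codRestrict _ hA
  have hg : Function.Injective g := by
    intro a b hab
    exact hf (congrArg Subtype.val hab)
  obtain ⟨c, hc1, hcd, hpar, hc2, hc3⟩ := V5_par hΓ d h0 h1 p z hz hz1 w hw0 hw K
  have hcn1 : c ≠ 1 := by
    rintro rfl
    exact ZA_main p (CZ_inj p g hg 2 hc2)
  have hcn2 : c ≠ 2 := by
    rintro rfl
    obtain ⟨n, hlv⟩ := CH_lv hΓ d h0 h1 p z hz hz1 w hw0 hw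
    obtain ⟨L, _, E, -, hE⟩ := hlv K
    have hinf : Infinite ((Subgroup.centralizer {w (K + 1)} : Subgroup Γ) ⧸ g.range) := by
      by_contra hfin
      have : Finite ((Subgroup.centralizer {w (K + 1)} : Subgroup Γ) ⧸ g.range) :=
        not_infinite_iff_finite.1 hfin
      have hfi : g.range.FiniteIndex := Subgroup.finiteIndex_of_finite_quotient
      have h3 : Group.FG g.range := Subgroup.fg_of_index_ne_zero g.range
      have h4 : Group.FG (Multiplicative (Zp p)) :=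
        Group.fg_of_surjective (f := (MonoidHom.ofInjective hg).symm.toMonoidHom)
          (MonoidHom.ofInjective hg).symm.surjective
      exact ZA_fg p h4
    have h5 := SB_main E p n hE hfg' 1 hc2 g.range hinf
    exact ZA_main p (CZ_inj p g.rangeRestrict (fun a b hab => hg (congrArg Subtype.val hab)) 2 h5)
  have hce : c = d := by omega
  subst hce
  obtain ⟨n', L', _, E', -, hE'⟩ := BA_main hΓ c h0 h1 p z hz hz1
  obtain ⟨-, hd2, -, -⟩ := X5_base hΓ c h0 h1 p z hz hz1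
  have hfin : Finite (Γ ⧸ (Subgroup.centralizer {w (K + 1)} : Subgroup Γ)) := by
    by_contra hinf
    have hinf' : Infinite (Γ ⧸ (Subgroup.centralizer {w (K + 1)} : Subgroup Γ)) :=
      not_finite_iff_infinite.1 hinf
    obtain ⟨c', rfl⟩ : ∃ c', c = c' + 1 := ⟨c - 1, by omega⟩
    exact hc3 (SB_main E' p n' hE' (BA_cnt (FPcd_inf hΓ)).1 c' hd2 _ hinf')
  have hfi : (Subgroup.centralizer {w (K + 1)} : Subgroup Γ).FiniteIndex :=
    Subgroup.finiteIndex_of_finite_quotient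
  have hzp : w (K + 1) ^ (p ^ (K + 1)) = z := by
    have h6 := Zs_pow hw 0 (K + 1)
    rw [zero_add, hw0] at h6
    exact h6
  have hcen : w (K + 1) ∈ Subgroup.center Γ :=
    FI_main (fun x hx => FPcd_tf hΓ x hx) (w (K + 1)) (p ^ (K + 1)) (pow_pos hp.pos _)
      (by rw [hzp]; exact hz) hfi
  refine ⟨w k, ?_, ?_⟩
  · rw [Subgroup.mem_center_iff]
    intro x
    refine (hK k).2 x ?_
    rw [Subgroup.mem_centralizer_singleton_iff]
    exact Subgroup.mem_center_iff.1 hcen x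
  · have h6 := Zs_pow hw 0 k
    rw [zero_add, hw0] at h6
    exact h6

end Pool.Agent.H5.PD
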