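import Pool.Agent.H5.CP.MainB
import Pool.Agent.H5.ZP.Fi

/-!
Module V6 (row PDV6, group theory).  As X6.lean (`X6_emb`, `X6_fg`), with all rationals.  `V6_emb`: `A` a torsion-free abelian group, `z ≠ 1`, such that for every prime `p` and `k` there is `u` with `u^(p^k) = z`.  Then for every `m > 0` there is a unique `u_m` with `u_m^m = z` (existence: factor `m`; for coprime `a, b` with `u^a = z`, `v^b = z`,
 `s a + t b = 1`: `w = u^t v^s` has `w^(ab) = z^(tb + sa) = z`; induction over coprime factors `Nat.recOnPosPrimePosCoprime`/`Nat.recOnPrimeCoprime`; uniqueness: torsion-free).  `f(q) = u_(q.den)^(q.num)`; `f(q)^m = z^a` whenever `q m = a`, which characterises `f(q)` (`m > 0`, uniqueness of roots), so `f` is additive; injective (`z` has infinite order).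
`V6_fg`: `ℚ` is not finitely generated (Mathlib may have it; otherwise a finitely generated subgroup of `ℚ` has bounded denominators).
-/

namespace Pool.Agent.H5.PD

open Pool.Agent.H5.CP Pool.Agent.H5.ZP

theorem V6_uniq {A : Type} [CommGroup A] (htf : ∀ x : A, IsOfFinOrder x → x = 1) {u v : A} {m : ℕ}
    (hm : 0 < m) (h : u ^ m = v ^ m) : u = v := by
  have h1 : (u / v) ^ m = 1 := by rw [div_pow, h, div_self']
  have h2 : u / v = 1 := htf _ (isOfFinOrder_iff_pow_eq_one.2 ⟨m, hm, h1⟩)
  exact div_eq_one.1 h2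

theorem V6_root {A : Type} [CommGroup A] (z : A)
    (h : ∀ p k : ℕ, p.Prime → ∃ u : A, u ^ (p ^ k) = z) : ∀ m : ℕ, 0 < m → ∃ u : A, u ^ m = z := by
  intro m
  induction m using Nat.recOnPosPrimePosCoprime with
  | prime_pow p n hp _ => exact fun _ => h p n hp
  | zero => exact fun h0 => absurd h0 (lt_irrefl 0)
  | one => exact fun _ => ⟨z, pow_one z⟩
  | coprime a b ha hb hab iha ihb =>
    intro _
    obtain ⟨u, hu⟩ := iha (by omega)
    obtain ⟨v, hv⟩ := ihb (by omega)
    have hbez := Nat.gcd_eq_gcd_ab a b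
    rw [Nat.Coprime.gcd_eq_one hab] at hbez
    refine ⟨u ^ (Nat.gcdB a b) * v ^ (Nat.gcdA a b), ?_⟩
    have e1 : (u ^ (Nat.gcdB a b)) ^ (a * b) = z ^ ((b : ℤ) * Nat.gcdB a b) := by
      rw [← hu, ← zpow_natCast (u ^ (Nat.gcdB a b)), ← zpow_mul, ← zpow_natCast u a, ← zpow_mul]
      congr 1
      push_cast
      ring
    have e2 : (v ^ (Nat.gcdA a b)) ^ (a * b) = z ^ ((a : ℤ) * Nat.gcdA a b) := by
      rw [← hv, ← zpow_natCast (v ^ (Nat.gcdA a b)), ← zpow_mul, ← zpow_natCast v b, ← zpow_mul]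
      congr 1
      push_cast
      ring
    rw [mul_pow, e1, e2, ← zpow_add]
    have e3 : (b : ℤ) * Nat.gcdB a b + (a : ℤ) * Nat.gcdA a b = 1 := by
      have : ((1 : ℕ) : ℤ) = a * Nat.gcdA a b + b * Nat.gcdB a b := hbez
      push_cast at this
      linarith
    rw [e3, zpow_one]

theorem V6_emb {A : Type} [CommGroup A] (htf : ∀ x : A, IsOfFinOrder x → x = 1) (z : A)
    (hz1 : z ≠ 1) (h : ∀ p k : ℕ, p.Prime → ∃ u : A, u ^ (p ^ k) = z) :
    ∃ f : Multiplicative ℚ →* A, Function.Injective f := by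
  have hr := V6_root z h
  have hU : ∀ q : ℚ, ∃ u : A, u ^ q.den = z := fun q => hr _ q.den_pos
  choose U hU using hU
  set F : ℚ → A := fun q => U q ^ q.num with hF
  have key : ∀ (q : ℚ) (m : ℕ) (a : ℤ), q * m = a → F q ^ m = z ^ a := by
    intro q m a hq
    have hden : (q.den : ℚ) ≠ 0 := by exact_mod_cast q.den_ne_zero
    have h1 : (q.num : ℚ) * m = a * q.den := by
      rw [← hq]
      have h2 : (q.num : ℚ) = q * q.den := (Rat.mul_den_eq_num q).symm
      rw [h2]
      ring
    have h3 : q.num * (m : ℤ) = a * q.den := by exact_mod_cast h1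
    simp only [hF]
    rw [← zpow_natCast, ← zpow_mul, h3, mul_comm a, zpow_mul, zpow_natCast, hU]
  have hadd : ∀ q r : ℚ, F (q + r) = F q * F r := by
    intro q r
    have hm : 0 < q.den * r.den := Nat.mul_pos q.den_pos r.den_pos
    apply V6_uniq htf hm
    have h1 := key q (q.den * r.den) (q.num * r.den) (by
      push_cast
      rw [← mul_assoc, Rat.mul_den_eq_num])
    have h2 := key r (q.den * r.den) (r.num * q.den) (by
      push_cast
      rw [mul_comm (q.den : ℚ), ← mul_assoc, Rat.mul_den_eq_num])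
    have h3 := key (q + r) (q.den * r.den) (q.num * r.den + r.num * q.den) (by
      push_cast
      have e1 : q * (q.den * r.den : ℚ) = q.num * r.den := by
        rw [← mul_assoc, Rat.mul_den_eq_num]
      have e2 : r * (q.den * r.den : ℚ) = r.num * q.den := by
        rw [mul_comm (q.den : ℚ), ← mul_assoc, Rat.mul_den_eq_num]
      rw [add_mul, e1, e2])
    rw [mul_pow, h1, h2, h3, zpow_add]
  refine ⟨MonoidHom.mk' (fun q => F (Multiplicative.toAdd q)) fun q r => hadd _ _, ?_⟩
  rw [injective_iff_map_eq_one]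
  intro q hq
  have hq' : F (Multiplicative.toAdd q) = 1 := hq
  have h1 := key (Multiplicative.toAdd q) (Multiplicative.toAdd q).den (Multiplicative.toAdd q).num
    (Rat.mul_den_eq_num _)
  rw [hq', one_pow] at h1
  have h2 : (Multiplicative.toAdd q).num = 0 := by
    by_contra hne
    apply hz1
    apply htf
    rw [isOfFinOrder_iff_zpow_eq_one]
    exact ⟨_, hne, h1.symm⟩
  have h3 : Multiplicative.toAdd q = 0 := Rat.num_eq_zero.1 h2
  exact h3

theorem V6_fg : ¬ Group.FG (Multiplicative ℚ) := by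
  intro hfg
  rw [Group.fg_def] at hfg
  obtain ⟨S, hS⟩ := hfg
  set D : ℕ := ∏ s ∈ S, (Multiplicative.toAdd s).den with hD
  have hD0 : D ≠ 0 := Finset.prod_ne_zero_iff.2 fun s _ => (Multiplicative.toAdd s).den_ne_zero
  have hDq : (D : ℚ) ≠ 0 := by exact_mod_cast hD0
  let H : Subgroup (Multiplicative ℚ) :=
    { carrier := {q | ∃ n : ℤ, Multiplicative.toAdd q * D = n}
      mul_mem' := by
        rintro q r ⟨n, hn⟩ ⟨m, hm⟩
        refine ⟨n + m, ?_⟩
        rw [toAdd_mul, add_mul, hn, hm]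
        push_cast
        ring
      one_mem' := ⟨0, by simp⟩
      inv_mem' := by
        rintro q ⟨n, hn⟩
        refine ⟨-n, ?_⟩
        rw [toAdd_inv, neg_mul, hn]
        push_cast
        ring }
  have hSH : Subgroup.closure (S : Set (Multiplicative ℚ)) ≤ H := by
    rw [Subgroup.closure_le]
    intro s hs
    have hs' : s ∈ S := hs
    obtain ⟨c, hc⟩ := Finset.dvd_prod_of_mem (fun s : Multiplicative ℚ => (Multiplicative.toAdd s).den) hs'
    refine ⟨(Multiplicative.toAdd s).num * c, ?_⟩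
    rw [hD, hc]
    push_cast
    rw [← mul_assoc, Rat.mul_den_eq_num]
  rw [hS] at hSH
  obtain ⟨n, hn⟩ := hSH (Subgroup.mem_top (Multiplicative.ofAdd (1 / (2 * D) : ℚ)))
  rw [toAdd_ofAdd] at hn
  have h1 : (1 / (2 * D) : ℚ) * D = 1 / 2 := by
    field_simp
  rw [h1] at hn
  have h2 : (1 : ℚ) = 2 * n := by linarith
  have h3 : (1 : ℤ) = 2 * n := by exact_mod_cast h2
  omega

end Pool.Agent.H5.PD
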