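import Pool.Agent.H5.PD.V5
import Pool.Agent.H5.PD.V6

/-!
Module V7 (helper5).  Poincare duality groups of dimension `≤ 4`: the class CP and the centre.
-/

namespace Pool.Agent.H5.PD

open CategoryTheory CategoryTheory.Abelian CategoryTheory.Limits Pool.Agent.H5.CP
  Pool.Agent.H75.CP Pool.Agent.H5.ZP

open scoped IsMulCommutative

theorem V7_sub {A : Type} [CommGroup A] (hA : Group.FG A) (S : Subgroup A) : Group.FG S := by
  have h1 : AddGroup.FG (Additive A) := GroupFG.iff_add_fg.1 hA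
  have h2 : Module.Finite ℤ (Additive A) := Module.Finite.iff_addGroup_fg.2 h1
  have h3 : IsNoetherian ℤ (Additive A) := isNoetherian_of_isNoetherianRing_of_finite ℤ (Additive A)
  have h4 : (AddSubgroup.toIntSubmodule (Subgroup.toAddSubgroup S)).FG := h3.noetherian _
  rw [Group.fg_iff_subgroup_fg, Subgroup.fg_iff_add_fg]
  obtain ⟨s, hs⟩ := h4
  refine ⟨s, ?_⟩
  have h5 := congrArg Submodule.toAddSubgroup hs
  rw [Submodule.span_int_eq_addSubgroupClosure] at h5
  rw [h5]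
  rfl

theorem V7_main (Γ : Type) [Group Γ] (d : ℕ) (hd : d ≤ 4) (hΓ : IsTypeFP Γ)
    (h0 : ∀ j, j ≠ d → IsZero (groupCohomology (Rep.leftRegular ℤ Γ) j))
    (h1 : Nonempty (groupCohomology (Rep.leftRegular ℤ Γ) d ≃+ ℤ)) :
    List.TFAE
      [InCP Γ,
       (Subgroup.center Γ).FG,
       ¬ ∃ A : Subgroup Γ, A ≤ Subgroup.center Γ ∧ Nonempty (A ≃* Multiplicative ℚ)] := by
  tfae_have 1 → 2 := fun h => ((MainB_iff hΓ).1 h).1
  tfae_have 2 → 3 := by
    rintro h ⟨A, hA, ⟨e⟩⟩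
    have h2 : Group.FG (Subgroup.center Γ) := (Group.fg_iff_subgroup_fg _).2 h
    have h3 : Group.FG (A.subgroupOf (Subgroup.center Γ)) := V7_sub h2 _
    have e2 : A.subgroupOf (Subgroup.center Γ) ≃* A := Subgroup.subgroupOfEquivOfLe hA
    have h4 : Group.FG (Multiplicative ℚ) :=
      Group.fg_of_surjective (f := (e2.trans e).toMonoidHom) (e2.trans e).surjective
    exact V6_fg h4
  tfae_have 3 → 1 := by
    intro h
    refine ((Fi_main Γ hΓ).out 2 0).1 ?_
    intro z hz hz1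
    by_contra hcon
    push Not at hcon
    have htf : ∀ x : Subgroup.center Γ, IsOfFinOrder x → x = 1 := by
      intro x hx
      have h2 : IsOfFinOrder (x : Γ) := (Subgroup.center Γ).subtype.isOfFinOrder hx
      exact Subtype.ext (FPcd_tf hΓ _ h2)
    have hroot : ∀ p k : ℕ, p.Prime → ∃ u : Subgroup.center Γ, u ^ (p ^ k) = ⟨z, hz⟩ := by
      intro p k hp
      have : Fact p.Prime := ⟨hp⟩
      obtain ⟨u, hu, huk⟩ := V5_cen hΓ d hd h0 h1 p z hz hz1 (fun k => hcon p k hp) k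
      exact ⟨⟨u, hu⟩, Subtype.ext huk⟩
    obtain ⟨f, hf⟩ := V6_emb htf ⟨z, hz⟩ (fun h2 => hz1 (congrArg Subtype.val h2)) hroot
    refine h ⟨((Subgroup.center Γ).subtype.comp f).range, ?_, ⟨(MonoidHom.ofInjective ?_).symm⟩⟩
    · rintro _ ⟨x, rfl⟩
      exact (f x).2
    · exact Subtype.val_injective.comp hf
  tfae_finish

end Pool.Agent.H5.PD
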