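import Pool.Agent.H5.PD.GC
import Pool.Agent.H5.PD.CZ

/-!
Module WZ (row PDWZ).  `cd (G × ℤ) ≥ cd G + 1`.  Use only the STATEMENTS of GC, CZ, Na.
`E : CX (G × Multiplicative ℤ) G` with `π = MonoidHom.fst`, `t = (1, ofAdd 1)`; `e` from `GC_main E`; `s : G → G × ℤ`, `g ↦ (g, 1)`, `π ∘ s = id`.  By `CZ_CD`: let `N : Rep ℤ G` be killed by `p`, `j ≥ m + 1`, `y ∈ Ext (tz G) N j`.  `Ext (tz (G×ℤ)) (Rep.res π N) (j+1) = 0` (`CZ_zero`, `j + 1 ≥ m + 2`), so the hypothesis of `Gyn.b` in degree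
 `j` is trivially true: `e.comp y = 0` implies `y = 0`.  And `e.comp y = 0`: `In π (e.comp y) = (In π e).comp (In π y) = 0` (`In_mul`, `Gyn.ez`), and `In s (In π x) = In (π.comp s) x` (`In_comp`) is `x` for `π.comp s = MonoidHom.id G` (generalise and `subst`; `In (MonoidHom.id G)` is injective by `In_bij (MulEquiv.refl G)`), so `In π` is injective.
-/

namespace Pool.Agent.H5.PD

open CategoryTheory CategoryTheory.Abelian CategoryTheory.Limits Pool.Agent.H5.CP
  Pool.Agent.H75.CP Pool.Agent.H5.ZP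

theorem WZ_pow (G : Type) [Group G] (n : ℤ) :
    ((1, Multiplicative.ofAdd 1) : G × Multiplicative ℤ) ^ n = (1, Multiplicative.ofAdd n) := by
  refine Prod.ext ?_ ?_
  · show (1 : G) ^ n = 1
    exact one_zpow n
  · show (Multiplicative.ofAdd (1 : ℤ)) ^ n = Multiplicative.ofAdd n
    rw [← ofAdd_zsmul, smul_eq_mul, mul_one]

/-- the product with `ℤ` as a central extension -/
def WZ_E (G : Type) [Group G] : CX (G × Multiplicative ℤ) G where
  π := MonoidHom.fst G (Multiplicative ℤ)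
  t := (1, Multiplicative.ofAdd 1)
  surj := fun g => ⟨(g, 1), rfl⟩
  ker := by
    rintro ⟨g, z⟩
    constructor
    · intro h
      have h1 : g = 1 := h
      refine ⟨Multiplicative.toAdd z, ?_⟩
      rw [WZ_pow, h1]
      rfl
    · rintro ⟨n, hn⟩
      rw [WZ_pow] at hn
      exact congrArg Prod.fst hn
  cent := by
    rw [Subgroup.mem_center_iff]
    rintro ⟨g, z⟩
    refine Prod.ext ?_ ?_
    · show g * 1 = 1 * g
      rw [mul_one, one_mul]
    · exact mul_comm _ _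
  inf := by
    intro n hn
    rw [WZ_pow] at hn
    exact congrArg Prod.snd hn

theorem WZ_id {G : Type} [Group G] (N : Rep.{0} ℤ G) (j : ℕ) (φ : G →* G)
    (hφ : φ = MonoidHom.id G) (x : Ext (tz G) N j) (h : In φ x = 0) : x = 0 := by
  subst hφ
  have h1 := (In_bij (MulEquiv.refl G) N j).1
  apply h1
  show In (MonoidHom.id G) x = In (MonoidHom.id G) 0
  rw [h, In_zero]

theorem WZ_inj {G : Type} [Group G] (N : Rep.{0} ℤ G) (j : ℕ) (x : Ext (tz G) N j)
    (h : In (WZ_E G).π x = 0) : x = 0 := by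
  apply WZ_id N j ((WZ_E G).π.comp (MonoidHom.inl G (Multiplicative ℤ))) (MonoidHom.ext fun _ => rfl)
  rw [← In_comp, h, In_zero]

theorem WZ_main (p : ℕ) [Fact p.Prime] {G : Type} [Group G] (m : ℕ)
    (h : CD (ZMod p) (G × Multiplicative ℤ) (m + 2)) : CD (ZMod p) G (m + 1) := by
  refine CZ_CD p m ?_
  intro N hN j hj y
  obtain ⟨e, g⟩ := GC_main (WZ_E G)
  refine g.b N j (fun w => ⟨0, ?_⟩) y ?_
  · rw [In_zero]
    exact (CZ_zero p (m + 2) h _ (fun x => hN x) (j + 1) (by omega) w).symm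
  · apply WZ_inj
    have h1 : In (WZ_E G).π (e.comp y (add_comm 2 j)) = _ := In_mul _ e y (add_comm 2 j)
    rw [h1, g.ez]
    exact Ext.zero_comp _ 2 (In (WZ_E G).π y) (j + 2) (add_comm 2 j)

end Pool.Agent.H5.PD
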