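import Pool.Agent.H5.PD.DE
import Pool.Agent.H5.PD.CZ

/-!
Module ZA (row PDZA).  `cd_{F_p}(ℤ[1/p]) ≥ 2`.  `A = Multiplicative (Zp p)` (written additively below), `A_k = {i/p^k : i ∈ ℤ}`, `A = ⋃ A_k`, `w_k = 1/p^k`.  `N = FunR A (trivial ZMod p)` (functions `A → F_p`), `M` the submodule of finitely supported functions, `Q = N/M`.  Use only the STATEMENTS of DE, CZ.
Suppose `CD (ZMod p) A 2`.  `Ext (tz A) M 2 = 0` (`CZ_zero`) and `Ext (tz A) N 1 = 0` (`FunA_free`, `ExB_zero`), so `Ext (tz A) Q 1 = 0` (`Ext.covariant_sequence_exact₃`): every derivation `A → Q` is inner (`DE_zero`).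
`h_i : A → F_p`: `h_i(x) = 1` if `x ∈ A_i` and `x ≥ 0`, else `0`.  For `a ∈ A_i`: `a·h_i - h_i` is finitely supported (`(a·h)(x) = h(x - a)`).  `n_k = Σ_{i < k} h_i`.  `f(a) = [a·n_k - n_k] ∈ Q` for any `k` with `a ∈ A_k` (independent of `k`: `n_(k+1) - n_k = h_k`), a derivation.
 So there is `n : A → F_p` with `a·(n - n_k) - (n - n_k)` finitely supported for all `k` and `a ∈ A_k`.  Put `g_k = n - n_k`.
 For `x ∈ A` and `k`: `g_k(x + m/p^k)` is constant for large `m` and for small `m` (`m → -∞`): its difference function has finite support.  For `k = 0` let `J(x) = ` (limit of `n(x+m)`, `m → +∞`) minus (limit, `m → -∞`).  `a·n - n` for `a = 1` has finite support, so `J(x) = 0` for all `x` outside finitely many cosets of `ℤ = A_0`.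
 For `g_k`: the limits along `x + ℤ` exist and equal those along `x + A_k`, so the jump `J_k(x) = lim_+ g_k - lim_- g_k` satisfies `J_k(x) = J_k(x')` for `x - x' ∈ A_k`.  The jump of `h_i` at `x` is `1` if `x ∈ A_i`, else `0`.  So `J_k(x) = J(x) - #{i < k : x ∈ A_i}` (in `F_p`).
 Choose `K` such that `J(x) = 0` for `x ∈ A \\ A_K` (finitely many cosets, each in some `A_K`).  For `k > K`: `x = w_k ∈ A_k \\ A_(k-1)`: `J_k(w_k) = 0`, so `J_k(0) = 0`: `J(0) = k` in `F_p`; the same for `k + 1`: `J(0) = k + 1`, contradiction.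
-/

namespace Pool.Agent.H5.PD

open CategoryTheory CategoryTheory.Abelian CategoryTheory.Limits Pool.Agent.H5.CP
  Pool.Agent.H75.CP Pool.Agent.H5.ZP

/-- `x ∈ p⁻ⁱ ℤ` -/
def ZA_lv (p i : ℕ) (x : Zp p) : Prop := ∃ m : ℤ, (x : ℚ) * (p : ℚ) ^ i = m

theorem ZA_lv_ex (p : ℕ) (x : Zp p) : ∃ i, ZA_lv p i x := by
  obtain ⟨a, k, h⟩ := x.2
  exact ⟨k, a, h⟩

theorem ZA_lv_mono {p i j : ℕ} (h : i ≤ j) {x : Zp p} (hx : ZA_lv p i x) : ZA_lv p j x := by
  obtain ⟨m, hm⟩ := hx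
  obtain ⟨d, rfl⟩ := Nat.exists_eq_add_of_le h
  refine ⟨m * (p : ℤ) ^ d, ?_⟩
  rw [pow_add, ← mul_assoc, hm]
  push_cast
  rfl

theorem ZA_lv_add {p i : ℕ} {x y : Zp p} (hx : ZA_lv p i x) (hy : ZA_lv p i y) :
    ZA_lv p i (x + y) := by
  obtain ⟨m, hm⟩ := hx
  obtain ⟨n, hn⟩ := hy
  refine ⟨m + n, ?_⟩
  show ((x : ℚ) + (y : ℚ)) * _ = _
  rw [add_mul, hm, hn]
  push_cast
  rfl

theorem ZA_lv_neg {p i : ℕ} {x : Zp p} (hx : ZA_lv p i x) : ZA_lv p i (-x) := by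
  obtain ⟨m, hm⟩ := hx
  refine ⟨-m, ?_⟩
  show (-(x : ℚ)) * _ = _
  rw [neg_mul, hm]
  push_cast
  rfl

theorem ZA_lv_sub {p i : ℕ} {x y : Zp p} (hx : ZA_lv p i x) (hy : ZA_lv p i y) :
    ZA_lv p i (x - y) := by
  rw [sub_eq_add_neg]
  exact ZA_lv_add hx (ZA_lv_neg hy)

/-- the element `1` -/
def ZA_u (p : ℕ) : Zp p := ⟨1, Zs_one p⟩

theorem ZA_zu (p : ℕ) (m : ℤ) : ((m • ZA_u p : Zp p) : ℚ) = m := by
  show m • (1 : ℚ) = m
  simp

theorem ZA_lv_zu (p i : ℕ) (m : ℤ) : ZA_lv p i (m • ZA_u p) := by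
  refine ⟨m * (p : ℤ) ^ i, ?_⟩
  rw [ZA_zu]
  push_cast
  rfl

theorem ZA_lv_addz {p i : ℕ} {x : Zp p} (m : ℤ) : ZA_lv p i (x + m • ZA_u p) ↔ ZA_lv p i x := by
  constructor
  · intro h
    have h1 := ZA_lv_sub h (ZA_lv_zu p i m)
    rwa [add_sub_cancel_right] at h1
  · intro h
    exact ZA_lv_add h (ZA_lv_zu p i m)

/-- finite support -/
def ZA_fs {p : ℕ} (g : Zp p → ZMod p) : Prop := {x | g x ≠ 0}.Finite

theorem ZA_fs_sub {p : ℕ} {g g' : Zp p → ZMod p} (h : ZA_fs g) (h' : ZA_fs g') :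
    ZA_fs (fun x => g x - g' x) := by
  refine (h.union h').subset ?_
  intro x hx
  by_contra hc
  rw [Set.mem_union, not_or] at hc
  have h1 : g x = 0 := not_not.1 hc.1
  have h2 : g' x = 0 := not_not.1 hc.2
  apply hx
  show g x - g' x = 0
  rw [h1, h2, sub_zero]

theorem ZA_fs_add {p : ℕ} {g g' : Zp p → ZMod p} (h : ZA_fs g) (h' : ZA_fs g') :
    ZA_fs (fun x => g x + g' x) := by
  refine (h.union h').subset ?_
  intro x hx
  by_contra hc
  rw [Set.mem_union, not_or] at hc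
  have h1 : g x = 0 := not_not.1 hc.1
  have h2 : g' x = 0 := not_not.1 hc.2
  apply hx
  show g x + g' x = 0
  rw [h1, h2, add_zero]

theorem ZA_fs_zero (p : ℕ) : ZA_fs (fun _ : Zp p => (0 : ZMod p)) := by
  unfold ZA_fs
  simp

theorem ZA_fs_tr {p : ℕ} {g : Zp p → ZMod p} (h : ZA_fs g) (t : Zp p) :
    ZA_fs (fun x => g (x + t)) := by
  have h1 : {x | g (x + t) ≠ 0} = (fun x => x + t) ⁻¹' {x | g x ≠ 0} := rfl
  unfold ZA_fs
  rw [h1]
  exact h.preimage (fun _ _ _ _ hab => add_right_cancel hab)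

theorem ZA_fin (p : ℕ) [Fact p.Prime] (i : ℕ) (C : ℚ) :
    {x : Zp p | ZA_lv p i x ∧ |(x : ℚ)| ≤ C}.Finite := by
  have hp : (0 : ℚ) < (p : ℚ) ^ i := by
    have := (Fact.out : p.Prime).pos
    positivity
  obtain ⟨N, hN⟩ := exists_int_gt (C * (p : ℚ) ^ i)
  refine Set.Finite.of_finite_image (f := fun x : Zp p => ⌊(x : ℚ) * (p : ℚ) ^ i⌋)
    ((Set.finite_Icc (-N) N).subset ?_) ?_
  · rintro _ ⟨x, ⟨⟨m, hm⟩, hx⟩, rfl⟩
    simp only [hm, Int.floor_intCast]
    have h1 : |(m : ℚ)| ≤ N := by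
      rw [← hm, abs_mul, abs_of_pos hp]
      exact (mul_le_mul_of_nonneg_right hx hp.le).trans hN.le
    rw [abs_le] at h1
    constructor
    · exact_mod_cast h1.1
    · exact_mod_cast h1.2
  · rintro x ⟨⟨m, hm⟩, -⟩ y ⟨⟨n, hn⟩, -⟩ hxy
    simp only [hm, hn, Int.floor_intCast] at hxy
    rw [hxy, ← hn] at hm
    exact Subtype.ext (mul_right_cancel₀ hp.ne' hm)

open scoped Classical in
/-- the indicator function of the elements `≥ 0` of level `i` -/
noncomputable def ZA_h (p i : ℕ) (x : Zp p) : ZMod p := if ZA_lv p i x ∧ 0 ≤ (x : ℚ) then 1 else 0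

theorem ZA_hT (p : ℕ) [Fact p.Prime] (i : ℕ) (a : Zp p) (ha : ZA_lv p i a) :
    ZA_fs (fun x => ZA_h p i (x - a) - ZA_h p i x) := by
  refine (ZA_fin p i |(a : ℚ)|).subset ?_
  intro x hx
  have e : ((x - a : Zp p) : ℚ) = (x : ℚ) - a := rfl
  by_cases hl : ZA_lv p i x
  · refine ⟨hl, ?_⟩
    by_contra hc
    rw [not_le] at hc
    apply hx
    have hl' : ZA_lv p i (x - a) := ZA_lv_sub hl ha
    have h1 := neg_abs_le (a : ℚ)
    have h2 := le_abs_self (a : ℚ)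
    show ZA_h p i (x - a) - ZA_h p i x = 0
    unfold ZA_h
    rw [e]
    rcases lt_abs.1 hc with h3 | h3
    · rw [if_pos ⟨hl', by linarith⟩, if_pos ⟨hl, by linarith [abs_nonneg (a : ℚ)]⟩, sub_self]
    · rw [if_neg (fun h => by linarith [h.2]),
        if_neg (fun h => by linarith [h.2, abs_nonneg (a : ℚ)]), sub_self]
  · exfalso
    apply hx
    have hl' : ¬ ZA_lv p i (x - a) := by
      intro h
      apply hl
      have h1 := ZA_lv_add h ha
      rwa [sub_add_cancel] at h1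
    show ZA_h p i (x - a) - ZA_h p i x = 0
    unfold ZA_h
    rw [if_neg (fun h => hl' h.1), if_neg (fun h => hl h.1), sub_zero]

/-- the sum of the first `k` of them -/
noncomputable def ZA_n (p k : ℕ) (x : Zp p) : ZMod p := ∑ i ∈ Finset.range k, ZA_h p i x

/-- the difference `a g - g` -/
def ZA_T {p : ℕ} (a : Zp p) (g : Zp p → ZMod p) (x : Zp p) : ZMod p := g (x - a) - g x

theorem ZA_nT (p : ℕ) [Fact p.Prime] (k l : ℕ) (hlk : l ≤ k) (a : Zp p) (ha : ZA_lv p l a) :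
    ZA_fs (fun x => ZA_T a (ZA_n p k) x - ZA_T a (ZA_n p l) x) := by
  induction k, hlk using Nat.le_induction with
  | base => simpa using ZA_fs_zero p
  | succ k hk ih =>
    have h1 := ZA_fs_add ih (ZA_hT p k a (ZA_lv_mono hk ha))
    have h2 : (fun x => ZA_T a (ZA_n p (k + 1)) x - ZA_T a (ZA_n p l) x) =
        fun x => (ZA_T a (ZA_n p k) x - ZA_T a (ZA_n p l) x) + (ZA_h p k (x - a) - ZA_h p k x) := by
      funext x
      unfold ZA_T ZA_n
      rw [Finset.sum_range_succ, Finset.sum_range_succ]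
      ring
    rw [h2]
    exact h1

/-- the jump of `g` along `x + ℤ` -/
noncomputable def ZA_J {p : ℕ} (g : Zp p → ZMod p) (x : Zp p) : ZMod p :=
  ∑ᶠ m : ℤ, (g (x + m • ZA_u p) - g (x + m • ZA_u p - ZA_u p))

theorem ZA_inj (p : ℕ) (x : Zp p) : Function.Injective (fun m : ℤ => x + m • ZA_u p) := by
  intro m n h
  have h1 : m • ZA_u p = n • ZA_u p := add_left_cancel h
  have h2 := congrArg (fun z : Zp p => (z : ℚ)) h1
  simp only [ZA_zu] at h2
  exact_mod_cast h2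

theorem ZA_zfin {p : ℕ} {g : Zp p → ZMod p} (h : ZA_fs g) (x : Zp p) :
    (Function.support fun m : ℤ => g (x + m • ZA_u p)).Finite :=
  Set.Finite.preimage (fun _ _ _ _ hab => ZA_inj p x hab) h

theorem ZA_Tfin {p : ℕ} {g : Zp p → ZMod p} (h : ZA_fs (ZA_T (ZA_u p) g)) (x : Zp p) :
    (Function.support fun m : ℤ => (g (x + m • ZA_u p) - g (x + m • ZA_u p - ZA_u p))).Finite := by
  refine (ZA_zfin h x).subset ?_
  intro m hm hc
  apply hm
  have h1 : g (x + m • ZA_u p - ZA_u p) - g (x + m • ZA_u p) = 0 := hc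
  show g (x + m • ZA_u p) - g (x + m • ZA_u p - ZA_u p) = 0
  rw [← neg_sub, h1, neg_zero]

theorem ZA_J_sub {p : ℕ} {g g' : Zp p → ZMod p} (h : ZA_fs (ZA_T (ZA_u p) g))
    (h' : ZA_fs (ZA_T (ZA_u p) g')) (x : Zp p) :
    ZA_J (fun y => g y - g' y) x = ZA_J g x - ZA_J g' x := by
  unfold ZA_J
  rw [← finsum_sub_distrib (ZA_Tfin h x) (ZA_Tfin h' x)]
  apply finsum_congr
  intro m
  ring

theorem ZA_J_fs {p : ℕ} {g : Zp p → ZMod p} (h : ZA_fs g) (x : Zp p) : ZA_J g x = 0 := by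
  unfold ZA_J
  have h1 : (fun m : ℤ => g (x + m • ZA_u p - ZA_u p)) =
      fun m : ℤ => (fun m : ℤ => g (x + m • ZA_u p)) (m - 1) := by
    funext m
    show g (x + m • ZA_u p - ZA_u p) = g (x + (m - 1) • ZA_u p)
    rw [sub_smul, one_smul, add_sub_assoc]
  have h2 : ∑ᶠ m : ℤ, g (x + m • ZA_u p - ZA_u p) = ∑ᶠ m : ℤ, g (x + m • ZA_u p) := by
    rw [h1]
    exact finsum_comp_equiv (Equiv.subRight (1 : ℤ)) (f := fun m : ℤ => g (x + m • ZA_u p))
  have h3 : (Function.support fun m : ℤ => g (x + m • ZA_u p - ZA_u p)).Finite := by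
    rw [h1]
    exact Set.Finite.preimage (fun _ _ _ _ hab => sub_left_injective hab) (ZA_zfin h x)
  rw [finsum_sub_distrib (ZA_zfin h x) h3, h2, sub_self]

theorem ZA_J_tr {p : ℕ} {g : Zp p → ZMod p} (w : Zp p) (h : ZA_fs (ZA_T (ZA_u p) g))
    (hw : ZA_fs (ZA_T w g)) (x : Zp p) : ZA_J g (x + w) = ZA_J g x := by
  have h1 : ZA_fs (fun y => g (y + w) - g y) := by
    have h2 := ZA_fs_sub (ZA_fs_zero p) (ZA_fs_tr hw w)
    refine h2.subset ?_
    intro y hy hc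
    apply hy
    have h3 : (0 : ZMod p) - (g (y + w - w) - g (y + w)) = 0 := hc
    rw [add_sub_cancel_right] at h3
    show g (y + w) - g y = 0
    linear_combination h3
  have h4 := ZA_J_fs h1 x
  have h5 : ZA_J (fun y => g (y + w)) x = ZA_J g (x + w) := by
    unfold ZA_J
    apply finsum_congr
    intro m
    have e1 : x + m • ZA_u p + w = x + w + m • ZA_u p := by abel
    have e2 : x + m • ZA_u p - ZA_u p + w = x + w + m • ZA_u p - ZA_u p := by abel
    show g (x + m • ZA_u p + w) - g (x + m • ZA_u p - ZA_u p + w) = _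
    rw [e1, e2]
  have h6 : ZA_fs (ZA_T (ZA_u p) (fun y => g (y + w))) := by
    have h7 := ZA_fs_tr h w
    refine h7.subset ?_
    intro y hy hc
    apply hy
    have h8 : g (y + w - ZA_u p) - g (y + w) = 0 := hc
    show g (y - ZA_u p + w) - g (y + w) = 0
    have e : y - ZA_u p + w = y + w - ZA_u p := by abel
    rw [e]
    exact h8
  rw [ZA_J_sub h6 h x, h5] at h4
  exact sub_eq_zero.1 h4

theorem ZA_J_h0 (p : ℕ) (i : ℕ) : ZA_J (ZA_h p i) 0 = 1 := by
  unfold ZA_J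
  rw [finsum_eq_single _ (0 : ℤ)]
  · rw [zero_smul, add_zero]
    unfold ZA_h
    rw [if_pos, if_neg, sub_zero]
    · rintro ⟨-, h⟩
      have e : ((0 - ZA_u p : Zp p) : ℚ) = 0 - 1 := rfl
      rw [e] at h
      norm_num at h
    · refine ⟨?_, le_rfl⟩
      have h := ZA_lv_zu p i 0
      rwa [zero_smul] at h
  · intro m hm
    have e1 : ((0 + m • ZA_u p : Zp p) : ℚ) = m := by
      rw [zero_add]
      exact ZA_zu p m
    have e2 : ((0 + m • ZA_u p - ZA_u p : Zp p) : ℚ) = m - 1 := by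
      show ((0 + m • ZA_u p : Zp p) : ℚ) - 1 = m - 1
      rw [e1]
    have l1 : ZA_lv p i (0 + m • ZA_u p) := by
      rw [zero_add]
      exact ZA_lv_zu p i m
    have l2 : ZA_lv p i (0 + m • ZA_u p - ZA_u p) := by
      have h := ZA_lv_sub l1 (ZA_lv_zu p i 1)
      rwa [one_smul] at h
    unfold ZA_h
    rw [e1, e2]
    rcases lt_or_gt_of_ne hm with h | h
    · have h1 : (m : ℚ) < 0 := by exact_mod_cast h
      rw [if_neg (fun h2 => by linarith [h2.2]), if_neg (fun h2 => by linarith [h2.2]), sub_self]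
    · have h1 : (1 : ℚ) ≤ m := by exact_mod_cast h
      rw [if_pos ⟨l1, by linarith⟩, if_pos ⟨l2, by linarith⟩, sub_self]

theorem ZA_J_hx {p i : ℕ} {x : Zp p} (hx : ¬ ZA_lv p i x) : ZA_J (ZA_h p i) x = 0 := by
  unfold ZA_J
  refine (finsum_congr fun m => ?_).trans finsum_zero
  have l1 : ¬ ZA_lv p i (x + m • ZA_u p) := fun h => hx ((ZA_lv_addz m).1 h)
  have l2 : ¬ ZA_lv p i (x + m • ZA_u p - ZA_u p) := by
    intro h
    apply l1
    have h1 := ZA_lv_add h (ZA_lv_zu p i 1)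
    rwa [one_smul, sub_add_cancel] at h1
  unfold ZA_h
  rw [if_neg (fun h => l1 h.1), if_neg (fun h => l2 h.1), sub_zero]

theorem ZA_nTu (p : ℕ) [Fact p.Prime] (k : ℕ) : ZA_fs (ZA_T (ZA_u p) (ZA_n p k)) := by
  have h0 := ZA_lv_zu p 0 1
  rw [one_smul] at h0
  have h := ZA_nT p k 0 (Nat.zero_le k) (ZA_u p) h0
  refine h.subset ?_
  intro x hx hc
  apply hx
  have h1 : ZA_T (ZA_u p) (ZA_n p k) x - ZA_T (ZA_u p) (ZA_n p 0) x = 0 := hc
  have h2 : ZA_T (ZA_u p) (ZA_n p 0) x = 0 := by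
    unfold ZA_T ZA_n
    simp
  rwa [h2, sub_zero] at h1

theorem ZA_J_n (p : ℕ) [Fact p.Prime] (k : ℕ) (x : Zp p) :
    ZA_J (ZA_n p k) x = ∑ i ∈ Finset.range k, ZA_J (ZA_h p i) x := by
  induction k with
  | zero =>
    rw [Finset.sum_range_zero]
    have : ZA_n p 0 = fun _ => (0 : ZMod p) := by
      funext y
      unfold ZA_n
      simp
    rw [this]
    exact ZA_J_fs (ZA_fs_zero p) x
  | succ k ih =>
    rw [Finset.sum_range_succ, ← ih]
    have h0 := ZA_lv_zu p k 1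
    rw [one_smul] at h0
    have h1 : ZA_fs (ZA_T (ZA_u p) (ZA_h p k)) := ZA_hT p k (ZA_u p) h0
    have h2 := ZA_J_sub (ZA_nTu p (k + 1)) h1 x
    have h3 : (fun y => ZA_n p (k + 1) y - ZA_h p k y) = ZA_n p k := by
      funext y
      unfold ZA_n
      rw [Finset.sum_range_succ, add_sub_cancel_right]
    rw [h3] at h2
    rw [h2, sub_add_cancel]

/-- the element `p⁻ᵏ` -/
noncomputable def ZA_w (p : ℕ) [Fact p.Prime] (k : ℕ) : Zp p := ⟨1 / (p : ℚ) ^ k, 1, k, by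
  have := (Fact.out : p.Prime).pos
  have h : ((p : ℚ) ^ k) ≠ 0 := by positivity
  rw [one_div, inv_mul_cancel₀ h]
  norm_num⟩

theorem ZA_w_lv (p : ℕ) [Fact p.Prime] (k : ℕ) : ZA_lv p k (ZA_w p k) := by
  refine ⟨1, ?_⟩
  have := (Fact.out : p.Prime).pos
  have h : ((p : ℚ) ^ k) ≠ 0 := by positivity
  show 1 / (p : ℚ) ^ k * (p : ℚ) ^ k = _
  rw [one_div, inv_mul_cancel₀ h]
  norm_num

theorem ZA_w_not (p : ℕ) [Fact p.Prime] {i k : ℕ} (hik : i < k) : ¬ ZA_lv p i (ZA_w p k) := by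
  rintro ⟨m, hm⟩
  have hp := (Fact.out : p.Prime)
  have hp0 := hp.pos
  obtain ⟨d, rfl⟩ : ∃ d, k = i + (d + 1) := ⟨k - i - 1, by omega⟩
  have hm' : 1 / (p : ℚ) ^ (i + (d + 1)) * (p : ℚ) ^ i = m := hm
  have h0 : (p : ℚ) ≠ 0 := by positivity
  have h1 : (1 : ℚ) = m * (p : ℚ) ^ (d + 1) := by
    rw [← hm', pow_add]
    field_simp
  have h2 : (1 : ℤ) = m * (p : ℤ) ^ (d + 1) := by exact_mod_cast h1
  have h3 : (p : ℤ) ∣ 1 := by
    rw [h2, pow_succ, ← mul_assoc]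
    exact dvd_mul_left _ _
  have h4 : p ∣ 1 := by exact_mod_cast h3
  exact hp.one_lt.ne' (Nat.dvd_one.1 h4)

theorem ZA_comb (p : ℕ) [Fact p.Prime] (n : Zp p → ZMod p)
    (hn : ∀ k a, ZA_lv p k a → ZA_fs (fun x => ZA_T a n x - ZA_T a (ZA_n p k) x)) : False := by
  have hp := (Fact.out : p.Prime)
  have h0 : ZA_fs (ZA_T (ZA_u p) n) := by
    have h1 := ZA_lv_zu p 0 1
    rw [one_smul] at h1
    have h2 := ZA_fs_add (hn 0 _ h1) (ZA_nTu p 0)
    refine h2.subset ?_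
    intro x hx hc
    apply hx
    have h3 : ZA_T (ZA_u p) n x - ZA_T (ZA_u p) (ZA_n p 0) x + ZA_T (ZA_u p) (ZA_n p 0) x = 0 := hc
    rwa [sub_add_cancel] at h3
  -- the level of the support
  obtain ⟨K, hK⟩ : ∃ K, ∀ x, ZA_T (ZA_u p) n x ≠ 0 → ZA_lv p K x := by
    choose l hl using ZA_lv_ex p
    have hfin : (l '' {x | ZA_T (ZA_u p) n x ≠ 0}).Finite := h0.image l
    obtain ⟨K, hK⟩ := hfin.bddAbove
    exact ⟨K, fun x hx => ZA_lv_mono (hK ⟨x, hx, rfl⟩) (hl x)⟩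
  have hJ : ∀ x, ¬ ZA_lv p K x → ZA_J n x = 0 := by
    intro x hx
    unfold ZA_J
    refine (finsum_congr fun m => ?_).trans finsum_zero
    by_contra hc
    have h1 : ZA_T (ZA_u p) n (x + m • ZA_u p) ≠ 0 := by
      intro h2
      apply hc
      have h3 : n (x + m • ZA_u p - ZA_u p) - n (x + m • ZA_u p) = 0 := h2
      rw [← neg_sub, h3, neg_zero]
    exact hx ((ZA_lv_addz m).1 (hK _ h1))
  have key : ∀ k, K < k → ZA_J n 0 = (k : ZMod p) := by
    intro k hk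
    have h1 : ZA_fs (ZA_T (ZA_u p) (fun y => n y - ZA_n p k y)) := by
      refine (ZA_fs_sub h0 (ZA_nTu p k)).subset ?_
      intro x hx hc
      apply hx
      have h2 : ZA_T (ZA_u p) n x - ZA_T (ZA_u p) (ZA_n p k) x = 0 := hc
      unfold ZA_T at h2 ⊢
      linear_combination h2
    have h2 : ZA_fs (ZA_T (ZA_w p k) (fun y => n y - ZA_n p k y)) := by
      refine (hn k (ZA_w p k) (ZA_w_lv p k)).subset ?_
      intro x hx hc
      apply hx
      have h3 : ZA_T (ZA_w p k) n x - ZA_T (ZA_w p k) (ZA_n p k) x = 0 := hc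
      unfold ZA_T at h3 ⊢
      linear_combination h3
    have h3 := ZA_J_tr (ZA_w p k) h1 h2 0
    rw [zero_add, ZA_J_sub h0 (ZA_nTu p k), ZA_J_sub h0 (ZA_nTu p k),
      hJ _ (ZA_w_not p hk), ZA_J_n, ZA_J_n,
      Finset.sum_congr rfl (fun i hi => ZA_J_hx (ZA_w_not p (Finset.mem_range.1 hi))),
      Finset.sum_congr rfl (fun i _ => ZA_J_h0 p i)] at h3
    simp only [Finset.sum_const_zero, Finset.sum_const, Finset.card_range, nsmul_eq_mul, mul_one,
      sub_zero] at h3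
    linear_combination -h3
  have h1 := key (K + 1) (by omega)
  have h2 := key (K + 2) (by omega)
  rw [h1] at h2
  push_cast at h2
  have h3 : (1 : ZMod p) = 0 := by linear_combination -h2
  exact one_ne_zero h3

theorem ZA_fg' (p : ℕ) [Fact p.Prime] : ¬ Group.FG (Multiplicative (Zp p)) := by
  intro h
  obtain ⟨S, hS⟩ := (Group.fg_iff.1 h)
  obtain ⟨hS1, hS2⟩ := hS
  choose l hl using ZA_lv_ex p
  obtain ⟨K, hK⟩ := (hS2.image (fun x : Multiplicative (Zp p) => l (Multiplicative.toAdd x))).bddAbove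
  let H : Subgroup (Multiplicative (Zp p)) :=
    { carrier := {x | ZA_lv p K (Multiplicative.toAdd x)}
      mul_mem' := fun ha hb => ZA_lv_add ha hb
      one_mem' := by
        have h := ZA_lv_zu p K 0
        rw [zero_smul] at h
        exact h
      inv_mem' := fun ha => ZA_lv_neg ha }
  have h1 : Subgroup.closure S ≤ H := by
    rw [Subgroup.closure_le]
    intro x hx
    exact ZA_lv_mono (hK ⟨x, hx, rfl⟩) (hl _)
  rw [hS1] at h1
  exact ZA_w_not p (Nat.lt_succ_self K) (h1 (Subgroup.mem_top (Multiplicative.ofAdd (ZA_w p (K + 1)))))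

/-- functions on `A = ℤ[1/p]` with values in `F_p` -/
noncomputable def ZA_N (p : ℕ) : Rep.{0} ℤ (Multiplicative (Zp p)) :=
  FunR (Multiplicative (Zp p)) (Rep.trivial ℤ (Multiplicative (Zp p)) (ZMod p))

/-- an element of `ZA_N` as a function -/
def ZA_g {p : ℕ} (F : (ZA_N p).V) (x : Zp p) : ZMod p :=
  (F : Multiplicative (Zp p) → ZMod p) (Multiplicative.ofAdd x)

/-- a function as an element of `ZA_N` -/
def ZA_F {p : ℕ} (g : Zp p → ZMod p) : (ZA_N p).V :=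
  (fun y : Multiplicative (Zp p) => g (Multiplicative.toAdd y) :
    Multiplicative (Zp p) → ZMod p)

theorem ZA_g_ρ {p : ℕ} (a : Multiplicative (Zp p)) (F : (ZA_N p).V) (x : Zp p) :
    ZA_g ((ZA_N p).ρ a F) x = ZA_g F (x - Multiplicative.toAdd a) := by
  have h : a⁻¹ * Multiplicative.ofAdd x = Multiplicative.ofAdd (x - Multiplicative.toAdd a) := by
    rw [mul_comm]
    apply Multiplicative.toAdd.injective
    show x + -(Multiplicative.toAdd a) = x - Multiplicative.toAdd a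
    rw [sub_eq_add_neg]
  show (F : Multiplicative (Zp p) → ZMod p) (a⁻¹ * Multiplicative.ofAdd x) = _
  rw [h]
  rfl

/-- the functions with finite support -/
noncomputable def ZA_S (p : ℕ) : Submodule ℤ (ZA_N p).V where
  carrier := {F | ZA_fs (ZA_g F)}
  zero_mem' := ZA_fs_zero p
  add_mem' := fun ha hb => ZA_fs_add ha hb
  smul_mem' := by
    intro r F hF
    refine Set.Finite.subset hF ?_
    intro x hx hc
    apply hx
    have h1 : (F : Multiplicative (Zp p) → ZMod p) (Multiplicative.ofAdd x) = 0 := hc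
    show r • (F : Multiplicative (Zp p) → ZMod p) (Multiplicative.ofAdd x) = 0
    rw [h1, smul_zero]

theorem ZA_St (p : ℕ) (a : Multiplicative (Zp p)) :
    ZA_S p ≤ (ZA_S p).comap ((ZA_N p).ρ a) := by
  intro F hF
  have h1 : ZA_fs (ZA_g F) := hF
  have h2 : ZA_fs (ZA_g ((ZA_N p).ρ a F)) := by
    have h3 := ZA_fs_tr h1 (-(Multiplicative.toAdd a))
    refine h3.subset ?_
    intro x hx hc
    apply hx
    rw [ZA_g_ρ, sub_eq_add_neg]
    exact hc
  exact h2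

/-- the quotient -/
noncomputable def ZA_Q (p : ℕ) : Rep.{0} ℤ (Multiplicative (Zp p)) :=
  (ZA_N p).quotient (ZA_S p) (ZA_St p)

/-- the finitely supported functions as a module -/
noncomputable def ZA_M (p : ℕ) : Rep.{0} ℤ (Multiplicative (Zp p)) :=
  (ZA_N p).subrepresentation (ZA_S p) (ZA_St p)

noncomputable def ZA_i (p : ℕ) : ZA_M p ⟶ ZA_N p := Rep.subtype (ZA_N p) (ZA_S p) (ZA_St p)

noncomputable def ZA_q (p : ℕ) : ZA_N p ⟶ ZA_Q p := Rep.mkQ (ZA_N p) (ZA_S p) (ZA_St p)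

theorem ZA_iq (p : ℕ) : ZA_i p ≫ ZA_q p = 0 := by
  ext x
  exact (Submodule.Quotient.mk_eq_zero (ZA_S p)).2 x.2

theorem ZA_ses (p : ℕ) : (ShortComplex.mk (ZA_i p) (ZA_q p) (ZA_iq p)).ShortExact := by
  refine VTop_shortExact _ ?_ ?_ ?_
  · intro a b hab
    exact Subtype.ext hab
  · intro z
    obtain ⟨F, rfl⟩ := Submodule.Quotient.mk_surjective _ z
    exact ⟨F, rfl⟩
  · intro x hx
    have hx' : x ∈ ZA_S p := (Submodule.Quotient.mk_eq_zero _).1 hx
    exact ⟨⟨x, hx'⟩, rfl⟩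

theorem ZA_kp (p : ℕ) : Kp p (ZA_M p) := by
  intro x
  apply Subtype.ext
  funext y
  have h1 : ∀ z : ZMod p, p • z = 0 := by
    intro z
    rw [nsmul_eq_mul, ZMod.natCast_self, zero_mul]
  exact h1 _

theorem ZA_ext (p : ℕ) [Fact p.Prime] (h : CD (ZMod p) (Multiplicative (Zp p)) 2)
    (x : Ext (tz (Multiplicative (Zp p))) (ZA_Q p) 1) : x = 0 := by
  obtain ⟨y, hy⟩ := Ext.covariant_sequence_exact₃ (tz (Multiplicative (Zp p))) (ZA_ses p) x
    (rfl : 1 + 1 = 2) (CZ_zero p 2 h _ (ZA_kp p) 2 le_rfl _)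
  have h1 : IsZero (groupCohomology (ZA_N p) (0 + 1)) := by
    refine FunA_free _ _ 0 ?_
    intro g y hg
    have h2 : g * y = y := hg
    exact mul_eq_right.1 h2
  have h2 : y = 0 := (ExB_zero (ZA_N p) (0 + 1)).1 h1 y
  rw [← hy, h2, Ext.zero_comp]

theorem ZA_mk_ρ (p : ℕ) (a : Multiplicative (Zp p)) (F : (ZA_N p).V) :
    (ZA_Q p).ρ a (Submodule.Quotient.mk F : (ZA_N p).V ⧸ ZA_S p) =
      (Submodule.Quotient.mk ((ZA_N p).ρ a F) : (ZA_N p).V ⧸ ZA_S p) := rfl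

theorem ZA_core (p : ℕ) [Fact p.Prime] (h : CD (ZMod p) (Multiplicative (Zp p)) 2)
    (F : Multiplicative (Zp p) → (ZA_N p).V)
    (hF : ∀ a b, F (a * b) - (F a + (ZA_N p).ρ a (F b)) ∈ ZA_S p) :
    ∃ n : (ZA_N p).V, ∀ a, F a - ((ZA_N p).ρ a n - n) ∈ ZA_S p := by
  let f : Multiplicative (Zp p) → (ZA_Q p).V := fun a =>
    (Submodule.Quotient.mk (F a) : (ZA_N p).V ⧸ ZA_S p)
  have hf : IsDer (ZA_Q p) f := by
    intro a b
    exact (Submodule.Quotient.eq (ZA_S p)).2 (hF a b)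
  have h1 := (DE_zero (ZA_Q p) f hf).1 (ZA_ext p h _)
  obtain ⟨N, hN⟩ := h1
  obtain ⟨n, rfl⟩ := Submodule.Quotient.mk_surjective _ N
  refine ⟨n, fun a => ?_⟩
  exact (Submodule.Quotient.eq (ZA_S p)).1 (hN a)

theorem ZA_main (p : ℕ) [Fact p.Prime] : ¬ CD (ZMod p) (Multiplicative (Zp p)) 2 := by
  intro h
  classical
  let l : Zp p → ℕ := fun a => Nat.find (ZA_lv_ex p a)
  have hl : ∀ a, ZA_lv p (l a) a := fun a => Nat.find_spec (ZA_lv_ex p a)
  have hl' : ∀ a k, ZA_lv p k a → l a ≤ k := fun a k hk => Nat.find_min' (ZA_lv_ex p a) hk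
  let F : Multiplicative (Zp p) → (ZA_N p).V := fun a =>
    ZA_F (ZA_T (Multiplicative.toAdd a) (ZA_n p (l (Multiplicative.toAdd a))))
  have hF : ∀ a b, F (a * b) - (F a + (ZA_N p).ρ a (F b)) ∈ ZA_S p := by
    intro a b
    obtain ⟨s, rfl⟩ := Multiplicative.ofAdd.surjective a
    obtain ⟨t, rfl⟩ := Multiplicative.ofAdd.surjective b
    obtain ⟨k, hk⟩ : ∃ k, k = l s + l t + l (s + t) := ⟨_, rfl⟩
    have h1 := ZA_nT p k (l s) (by omega) s (hl s)
    have h2 := ZA_fs_tr (ZA_nT p k (l t) (by omega) t (hl t)) (-s)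
    have h3 := ZA_nT p k (l (s + t)) (by omega) (s + t) (hl (s + t))
    have h4 : ZA_fs (ZA_g (F (Multiplicative.ofAdd s * Multiplicative.ofAdd t) -
        (F (Multiplicative.ofAdd s) + (ZA_N p).ρ (Multiplicative.ofAdd s)
          (F (Multiplicative.ofAdd t))))) := by
      refine (ZA_fs_sub (ZA_fs_add h1 h2) h3).subset ?_
      intro x hx hc
      apply hx
      have e0 : ZA_g ((ZA_N p).ρ (Multiplicative.ofAdd s) (F (Multiplicative.ofAdd t))) x =
          ZA_T t (ZA_n p (l t)) (x - s) := ZA_g_ρ _ _ x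
      have e1 : ZA_g (F (Multiplicative.ofAdd s * Multiplicative.ofAdd t) -
          (F (Multiplicative.ofAdd s) + (ZA_N p).ρ (Multiplicative.ofAdd s)
            (F (Multiplicative.ofAdd t)))) x =
          ZA_T (s + t) (ZA_n p (l (s + t))) x - (ZA_T s (ZA_n p (l s)) x +
            ZA_g ((ZA_N p).ρ (Multiplicative.ofAdd s) (F (Multiplicative.ofAdd t))) x) := rfl
      have hc' : ((ZA_T s (ZA_n p k) x - ZA_T s (ZA_n p (l s)) x) +
          (ZA_T t (ZA_n p k) (x + -s) - ZA_T t (ZA_n p (l t)) (x + -s))) -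
          (ZA_T (s + t) (ZA_n p k) x - ZA_T (s + t) (ZA_n p (l (s + t))) x) = 0 := hc
      rw [← sub_eq_add_neg] at hc'
      have e2 : ZA_T (s + t) (ZA_n p k) x = ZA_T s (ZA_n p k) x + ZA_T t (ZA_n p k) (x - s) := by
        unfold ZA_T
        rw [sub_sub]
        ring
      rw [e1, e0]
      linear_combination hc' + e2
    exact h4
  obtain ⟨n, hn⟩ := ZA_core p h F hF
  refine ZA_comb p (ZA_g n) ?_
  intro k a hk
  have h1 : ZA_fs (ZA_g (F (Multiplicative.ofAdd a) -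
      ((ZA_N p).ρ (Multiplicative.ofAdd a) n - n))) := hn (Multiplicative.ofAdd a)
  have h2 := ZA_nT p k (l a) (hl' a k hk) a (hl a)
  refine (ZA_fs_add h1 h2).subset ?_
  intro x hx hc
  apply hx
  have e0 : ZA_g ((ZA_N p).ρ (Multiplicative.ofAdd a) n) x = ZA_g n (x - a) := ZA_g_ρ _ _ x
  have e1 : ZA_g (F (Multiplicative.ofAdd a) - ((ZA_N p).ρ (Multiplicative.ofAdd a) n - n)) x =
      ZA_T a (ZA_n p (l a)) x - (ZA_g ((ZA_N p).ρ (Multiplicative.ofAdd a) n) x - ZA_g n x) := rfl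
  have hc' : ZA_g (F (Multiplicative.ofAdd a) - ((ZA_N p).ρ (Multiplicative.ofAdd a) n - n)) x +
      (ZA_T a (ZA_n p k) x - ZA_T a (ZA_n p (l a)) x) = 0 := hc
  rw [e1, e0] at hc'
  have e2 : ZA_T a (ZA_g n) x = ZA_g n (x - a) - ZA_g n x := rfl
  show ZA_T a (ZA_g n) x - ZA_T a (ZA_n p k) x = 0
  rw [e2]
  linear_combination -hc'

theorem ZA_fg (p : ℕ) [Fact p.Prime] : ¬ Group.FG (Multiplicative (Zp p)) := ZA_fg' p

end Pool.Agent.H5.PD
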