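import Pool.Agent.H5.PD.SB
import Pool.Agent.H5.PD.WZ
import Pool.Agent.H5.PD.ZA

/-!
Module Y7 (row PDY7).  Abelian subgroups and the dimension.  Use only the STATEMENTS of SB, WZ, ZA, CZ.
`Y7_rank`: `cd_{F_p}(ℤ[1/p] × ℤ^r) ≥ r + 2`: induction on `r`: `r = 0`: `ZA_main` (`CZ_inj` for `x ↦ (x, 1)`).  `r + 1`: `(Multiplicative (Zp p) × Multiplicative (Fin r → ℤ)) × Multiplicative ℤ` embeds in `Multiplicative (Zp p) × Multiplicative (Fin (r+1) → ℤ)` (`Fin.cons`/`Fin.snoc`), `CZ_inj`, `WZ_main`.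
`Y7_low`: `B` = image of `ψ : Multiplicative (Zp p) × Multiplicative (Fin r → ℤ) → Δ`, `(q, v) ↦ (e.symm q) φ(v)` (a homomorphism since `A` is central; injective by `hφ`).  `B` has infinite index in `Δ`: otherwise `B` is finitely generated (Schreier), and so is its quotient `Multiplicative (Zp p)`, contradiction to `ZA_fg`.
 If `c = 0`: `CD (ZMod p) Δ 1`, contradiction to `SB_one`.  Otherwise `c = c₁ + 1`, `SB_main`: `CD (ZMod p) B (c₁ + 1)`, so `CD (ZMod p) (… × …) c` (`CZ_inj`).  If `c ≤ r + 2` then `CD … (r + 2)` (monotone), contradiction to `Y7_rank`.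
-/

namespace Pool.Agent.H5.PD

open CategoryTheory CategoryTheory.Abelian CategoryTheory.Limits Pool.Agent.H5.CP
  Pool.Agent.H75.CP Pool.Agent.H5.ZP

/-- `(G × ℤ^r) × ℤ → G × ℤ^(r+1)` -/
def Y7_i (G : Type) [Group G] (r : ℕ) :
    (G × Multiplicative (Fin r → ℤ)) × Multiplicative ℤ →* G × Multiplicative (Fin (r + 1) → ℤ) where
  toFun := fun x => (x.1.1, Multiplicative.ofAdd
    (Matrix.vecCons (Multiplicative.toAdd x.2) (Multiplicative.toAdd x.1.2)))
  map_one' := by
    refine Prod.ext rfl ?_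
    apply Multiplicative.toAdd.injective
    show Matrix.vecCons (0 : ℤ) (0 : Fin r → ℤ) = 0
    exact Matrix.cons_zero_zero
  map_mul' := by
    rintro ⟨⟨g, v⟩, n⟩ ⟨⟨g', v'⟩, n'⟩
    refine Prod.ext rfl ?_
    apply Multiplicative.toAdd.injective
    show Matrix.vecCons (Multiplicative.toAdd n + Multiplicative.toAdd n')
        (Multiplicative.toAdd v + Multiplicative.toAdd v') =
      Matrix.vecCons (Multiplicative.toAdd n) (Multiplicative.toAdd v) +
        Matrix.vecCons (Multiplicative.toAdd n') (Multiplicative.toAdd v')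
    exact (Matrix.cons_add_cons _ _ _ _).symm

theorem Y7_i_inj (G : Type) [Group G] (r : ℕ) : Function.Injective (Y7_i G r) := by
  rintro ⟨⟨g, v⟩, n⟩ ⟨⟨g', v'⟩, n'⟩ h
  have h1 : g = g' := congrArg Prod.fst h
  have h2 : Matrix.vecCons (Multiplicative.toAdd n) (Multiplicative.toAdd v) =
      Matrix.vecCons (Multiplicative.toAdd n') (Multiplicative.toAdd v') :=
    congrArg (fun x : G × Multiplicative (Fin (r + 1) → ℤ) => Multiplicative.toAdd x.2) h
  have h3 := congrFun h2 0
  have h4 : Multiplicative.toAdd n = Multiplicative.toAdd n' := by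
    rw [Matrix.cons_val_zero, Matrix.cons_val_zero] at h3
    exact h3
  have h5 : Multiplicative.toAdd v = Multiplicative.toAdd v' := by
    funext i
    have h6 := congrFun h2 i.succ
    rw [Matrix.cons_val_succ, Matrix.cons_val_succ] at h6
    exact h6
  have h7 : n = n' := Multiplicative.toAdd.injective h4
  have h8 : v = v' := Multiplicative.toAdd.injective h5
  rw [h1, h7, h8]

theorem Y7_rank (p : ℕ) [Fact p.Prime] (r : ℕ) :
    ¬ CD (ZMod p) (Multiplicative (Zp p) × Multiplicative (Fin r → ℤ)) (r + 2) := by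
  induction r with
  | zero =>
    intro h
    exact ZA_main p (CZ_inj p (MonoidHom.inl (Multiplicative (Zp p)) (Multiplicative (Fin 0 → ℤ)))
      (fun x y hxy => congrArg Prod.fst hxy) 2 h)
  | succ r ih =>
    intro h
    apply ih
    exact WZ_main p (r + 1) (CZ_inj p (Y7_i (Multiplicative (Zp p)) r)
      (Y7_i_inj (Multiplicative (Zp p)) r) (r + 3) h)

/-- the map `ℤ[1/p] × ℤ^r → Δ` -/
noncomputable def Y7_psi {Δ : Type} [Group Δ] (p : ℕ) (A : Subgroup Δ)
    (hA : A ≤ Subgroup.center Δ) (e : A ≃* Multiplicative (Zp p)) (r : ℕ)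
    (φ : Multiplicative (Fin r → ℤ) →* Δ) :
    Multiplicative (Zp p) × Multiplicative (Fin r → ℤ) →* Δ :=
  MonoidHom.noncommCoprod (A.subtype.comp e.symm.toMonoidHom) φ
    (fun q v => ((Subgroup.mem_center_iff.1 (hA (e.symm q).2) (φ v))).symm)

theorem Y7_psi_inj {Δ : Type} [Group Δ] (p : ℕ) (A : Subgroup Δ)
    (hA : A ≤ Subgroup.center Δ) (e : A ≃* Multiplicative (Zp p)) (r : ℕ)
    (φ : Multiplicative (Fin r → ℤ) →* Δ) (hφ : ∀ v, φ v ∈ A → v = 1) :
    Function.Injective (Y7_psi p A hA e r φ) := by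
  rw [injective_iff_map_eq_one]
  rintro ⟨q, v⟩ h
  have h1 : (e.symm q : Δ) * φ v = 1 := h
  have h2 : φ v = ((e.symm q)⁻¹ : A) := by
    rw [Subgroup.coe_inv]
    exact eq_inv_of_mul_eq_one_right h1
  have h3 : v = 1 := hφ v (by rw [h2]; exact ((e.symm q)⁻¹ : A).2)
  rw [h3, map_one, mul_one] at h1
  have h4 : e.symm q = 1 := Subtype.ext h1
  have h5 : q = 1 := by
    rw [← e.apply_symm_apply q, h4, map_one]
  rw [h3, h5]
  rfl

theorem Y7_low {Δ L : Type} [Group Δ] [Group L] (E : CX Δ L) (p : ℕ) [Fact p.Prime] (n : ℕ)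
    (hE : Lv p n E) (hfg : Group.FG Δ) (c : ℕ) (hc : CD (ZMod p) Δ (c + 1)) (A : Subgroup Δ)
    (hA : A ≤ Subgroup.center Δ) (e : A ≃* Multiplicative (Zp p)) (r : ℕ)
    (φ : Multiplicative (Fin r → ℤ) →* Δ) (hφ : ∀ v, φ v ∈ A → v = 1) : r + 3 ≤ c := by
  have hinj := Y7_psi_inj p A hA e r φ hφ
  have hK : Infinite (Δ ⧸ (Y7_psi p A hA e r φ).range) := by
    by_contra hni
    have hfin : Finite (Δ ⧸ (Y7_psi p A hA e r φ).range) := not_infinite_iff_finite.1 hni
    have hfi : (Y7_psi p A hA e r φ).range.FiniteIndex := Subgroup.finiteIndex_of_finite_quotient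
    have h1 : Group.FG (Y7_psi p A hA e r φ).range := Subgroup.fg_of_index_ne_zero _
    have e1 := MonoidHom.ofInjective hinj
    have h2 : Group.FG (Multiplicative (Zp p) × Multiplicative (Fin r → ℤ)) :=
      Group.fg_of_surjective (f := e1.symm.toMonoidHom) e1.symm.surjective
    have h3 : Group.FG (Multiplicative (Zp p)) :=
      Group.fg_of_surjective (f := MonoidHom.fst (Multiplicative (Zp p))
        (Multiplicative (Fin r → ℤ))) (fun x => ⟨(x, 1), rfl⟩)
    exact ZA_fg p h3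
  cases c with
  | zero => exact absurd hc (SB_one E p)
  | succ c₁ =>
    have h1 := SB_main E p n hE hfg c₁ hc (Y7_psi p A hA e r φ).range hK
    have h2 := CZ_inj p (Y7_psi p A hA e r φ).rangeRestrict
      (fun x y hxy => hinj (congrArg Subtype.val hxy)) (c₁ + 1) h1
    by_contra hlt
    apply Y7_rank p r
    intro M j hj
    exact h2 M j (by omega)

end Pool.Agent.H5.PD
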