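import Pool.Agent.H5.PD.Y6
import Pool.Agent.H5.PD.V5
import Pool.Agent.H5.PD.Y7
import Pool.Agent.H5.PD.PF

/-!
Module V8 (helper5).  `Y6_main` with the rank property of `Y7_low`, and `Δ` the centraliser of an element of the image of `f`.
-/

namespace Pool.Agent.H5.PD

open CategoryTheory CategoryTheory.Abelian CategoryTheory.Limits Pool.Agent.H5.CP
  Pool.Agent.H75.CP Pool.Agent.H5.ZP

theorem V8_main {Γ : Type} [Group Γ] (hΓ : IsTypeFP Γ) (d : ℕ)
    (h0 : ∀ j, j ≠ d → IsZero (groupCohomology (Rep.leftRegular ℤ Γ) j))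
    (h1 : Nonempty (groupCohomology (Rep.leftRegular ℤ Γ) d ≃+ ℤ)) (p : ℕ) [Fact p.Prime]
    (z : Γ) (hz : z ∈ Subgroup.center Γ) (hz1 : z ≠ 1) (w : ℕ → Γ) (hw0 : w 0 = z)
    (hw : ∀ k, w (k + 1) ^ p = w k) (f : Multiplicative (Zp p) →* Γ)
    (hf : Function.Injective f)
    (hfw : ∀ (q : Zp p) (a : ℤ) (k : ℕ), (q : ℚ) * (p : ℚ) ^ k = a →
      f (Multiplicative.ofAdd q) = w k ^ a) :
    ∃ (Δ : Subgroup Γ) (c : ℕ), (∃ u ∈ f.range, Δ = Subgroup.centralizer {u}) ∧ c ≤ d ∧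
      c % 2 = d % 2 ∧ Δ.FG ∧
      IsPD (ZMod p) Δ c ∧ (∀ k, w k ∈ Δ ∧ ∀ g ∈ Δ, g * w k = w k * g) ∧
        (c = d → Δ = ⊤) ∧ (∀ (r : ℕ) (φ : Multiplicative (Fin r → ℤ) →* Δ),
          (∀ v, (φ v : Γ) ∈ f.range → v = 1) → r + 3 ≤ c) := by
  obtain ⟨K, hfg, hcen⟩ := CH_main hΓ d h0 h1 p z hz hz1 w hw0 hw
  obtain ⟨n, hlv⟩ := CH_lv hΓ d h0 h1 p z hz hz1 w hw0 hw
  obtain ⟨L, _, E, hEt, hE⟩ := hlv K
  have hfg' : Group.FG (Subgroup.centralizer {w (K + 1)} : Subgroup Γ) :=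
    (Group.fg_iff_subgroup_fg _).2 hfg
  obtain ⟨hFGΓ, hcnt⟩ := BA_cnt (FPcd_inf hΓ)
  obtain ⟨c, hc1, hcd, hncd, hcc, hcj⟩ := X5_top E p n hE
  obtain ⟨hd1, hdcd, -, -⟩ := X5_base hΓ d h0 h1 p z hz hz1
  have hPD : IsPD (ZMod p) (Subgroup.centralizer {w (K + 1)} : Subgroup Γ) c :=
    Y4_main E p n hE c hcd hcc hcj
  have hcd' : c ≤ d := by
    by_contra hlt
    exact hncd (Y6_mono (by omega) (SubC_main (d + 1) hdcd _))
  have hpar : c % 2 = d % 2 := by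
    obtain ⟨c', -, -, h4, h5, h6⟩ := V5_par hΓ d h0 h1 p z hz hz1 w hw0 hw K
    have h7 : c' = c := by
      rcases lt_trichotomy c' c with h | h | h
      · exact absurd (Y6_mono (by omega) h5) hncd
      · exact h
      · exact absurd (Y6_mono (by omega) hcd) h6
    rw [← h7, h4]
  have hval : ∀ q : Multiplicative (Zp p), ∃ (k : ℕ) (a : ℤ), f q = w k ^ a := by
    intro q
    obtain ⟨a, k, hq⟩ := (Multiplicative.toAdd q).2
    exact ⟨k, a, hfw (Multiplicative.toAdd q) a k hq⟩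
  have hmem : ∀ q, f q ∈ (Subgroup.centralizer {w (K + 1)} : Subgroup Γ) := by
    intro q
    obtain ⟨k, a, hq⟩ := hval q
    rw [hq]
    exact Subgroup.zpow_mem _ (hcen k).1 a
  have hcomm : ∀ q, ∀ g ∈ (Subgroup.centralizer {w (K + 1)} : Subgroup Γ), g * f q = f q * g := by
    intro q g hg
    obtain ⟨k, a, hq⟩ := hval q
    rw [hq]
    exact (show Commute g (w k) from (hcen k).2 g hg).zpow_right a
  let i : Multiplicative (Zp p) →* (Subgroup.centralizer {w (K + 1)} : Subgroup Γ) :=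
    f.codRestrict _ hmem
  have hi : Function.Injective i := fun a b hab => hf (congrArg Subtype.val hab)
  have hrk : ∀ (r : ℕ) (φ : Multiplicative (Fin r → ℤ) →*
      (Subgroup.centralizer {w (K + 1)} : Subgroup Γ)),
      (∀ v, (φ v : Γ) ∈ f.range → v = 1) → r + 3 ≤ c := by
    intro r φ hφ
    refine Y7_low E p n hE hfg' c hcd i.range ?_ (MonoidHom.ofInjective hi).symm r φ ?_
    · rintro _ ⟨q, rfl⟩
      rw [Subgroup.mem_center_iff]
      intro g
      exact Subtype.ext (hcomm q g.1 g.2)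
    · rintro v ⟨q, hq⟩
      exact hφ v ⟨q, congrArg Subtype.val hq⟩
  have hc3 : 3 ≤ c := by
    have h := hrk 0 1 (fun v _ => Subsingleton.elim (α := Fin 0 → ℤ) _ _)
    omega
  have hu : w (K + 1) ∈ f.range := by
    refine ⟨Multiplicative.ofAdd ⟨_, PF_mem p (K + 1) (Fact.out : p.Prime).ne_zero⟩, ?_⟩
    rw [hfw _ 1 (K + 1), zpow_one]
    have h : (p : ℚ) ≠ 0 := by exact_mod_cast (Fact.out : p.Prime).ne_zero
    show (1 : ℚ) / (p : ℚ) ^ (K + 1) * (p : ℚ) ^ (K + 1) = ((1 : ℤ) : ℚ)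
    field_simp
    norm_num
  refine ⟨Subgroup.centralizer {w (K + 1)}, c, ⟨_, hu, rfl⟩, hcd', hpar, hfg, hPD, hcen, ?_,
    hrk⟩
  · intro hcdeq
    obtain ⟨n', L', _, E', hEt', hE'⟩ := BA_main hΓ d h0 h1 p z hz hz1
    have hfin : (Subgroup.centralizer {w (K + 1)} : Subgroup Γ).FiniteIndex := by
      have : Finite (Γ ⧸ (Subgroup.centralizer {w (K + 1)} : Subgroup Γ)) := by
        rw [← not_infinite_iff_finite]
        intro hinf
        obtain ⟨d', rfl⟩ : ∃ d', d = d' + 1 := ⟨d - 1, by omega⟩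
        have h2 := SB_main E' p n' hE' hFGΓ d' hdcd _ hinf
        rw [hcdeq] at hncd
        exact hncd h2
      exact Subgroup.finiteIndex_of_finite_quotient
    have hv : w (K + 1) ∈ Subgroup.center Γ := by
      refine FI_main (FPcd_tf hΓ) (w (K + 1)) (p ^ (K + 1))
        (pow_pos (Fact.out : p.Prime).pos _) ?_ hfin
      have h2 := Zs_pow hw 0 (K + 1)
      rw [zero_add, hw0] at h2
      rw [h2]
      exact hz
    rw [eq_top_iff]
    intro g _
    rw [Subgroup.mem_centralizer_singleton_iff]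
    exact Subgroup.mem_center_iff.1 hv g

end Pool.Agent.H5.PD
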