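import Pool.Agent.H5.PD.Ex
import Pool.Agent.H5.PD.V8

/-!
Module V9 (helper5).  The final theorem of the project MP_37b730_PD.
-/

namespace Pool.Agent.H5.PD

open CategoryTheory CategoryTheory.Abelian CategoryTheory.Limits Pool.Agent.H5.CP
  Pool.Agent.H75.CP Pool.Agent.H5.ZP

theorem V9_ex {Γ : Type} [Group Γ] (hΓ : IsTypeFP Γ) (d : ℕ)
    (h0 : ∀ j, j ≠ d → IsZero (groupCohomology (Rep.leftRegular ℤ Γ) j))
    (h1 : Nonempty (groupCohomology (Rep.leftRegular ℤ Γ) d ≃+ ℤ)) (p : ℕ) (hp : p.Prime)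
    (z : Γ) (hz : z ∈ Subgroup.center Γ) (hz1 : z ≠ 1)
    (hr : ∀ k : ℕ, ∃ u : Γ, u ^ (p ^ k) = z) :
    ∃ (c : ℕ) (Δ A : Subgroup Γ), z ∈ A ∧ Exo Γ d p c Δ A := by
  have hpf : Fact p.Prime := ⟨hp⟩
  have hp0 := hp.ne_zero
  obtain ⟨f, hf, hfz⟩ := Ma_chain hΓ z hz hz1 p hp hr
  let w : ℕ → Γ := fun k => f (Multiplicative.ofAdd ⟨_, PF_mem p k hp0⟩)
  have hw0 : w 0 = z := by
    rw [← hfz]
    show f _ = f _
    congr 2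
    apply Subtype.ext
    show (1 : ℚ) / (p : ℚ) ^ 0 = 1
    simp
  have hw : ∀ k, w (k + 1) ^ p = w k := fun k => PF_w p hp0 f k
  have hfw : ∀ (q : Zp p) (a : ℤ) (k : ℕ), (q : ℚ) * (p : ℚ) ^ k = a →
      f (Multiplicative.ofAdd q) = w k ^ a := fun q a k h => PF_q p hp0 f q a k h
  obtain ⟨Δ, c, hcen, hcd, hpar, hfg, hPD, hK, htop, hrk⟩ :=
    V8_main hΓ d h0 h1 p z hz hz1 w hw0 hw f hf hfw
  have hA : ∀ a ∈ f.range, ∃ (k : ℕ) (m : ℤ), a = w k ^ m := by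
    rintro _ ⟨x, rfl⟩
    obtain ⟨m, k, hmk⟩ := (Multiplicative.toAdd x).2
    exact ⟨k, m, PF_q p hp0 f (Multiplicative.toAdd x) m k hmk⟩
  refine ⟨c, Δ, f.range, ⟨_, hfz⟩, hfg, hPD, ?_, ?_, hcen, ⟨(MonoidHom.ofInjective hf).symm⟩,
    hcd, hpar, htop, hrk⟩
  · intro a ha
    obtain ⟨k, m, rfl⟩ := hA a ha
    exact Subgroup.zpow_mem _ (hK k).1 m
  · intro a ha g hg
    obtain ⟨k, m, rfl⟩ := hA a ha
    have h : Commute g (w k) := (hK k).2 g hg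
    exact h.zpow_right m

theorem V9_main (Γ : Type) [Group Γ] (d : ℕ) (hΓ : IsTypeFP Γ)
    (h0 : ∀ j, j ≠ d → IsZero (groupCohomology (Rep.leftRegular ℤ Γ) j))
    (h1 : Nonempty (groupCohomology (Rep.leftRegular ℤ Γ) d ≃+ ℤ)) :
    InCP Γ ↔ ∀ z ∈ Subgroup.center Γ, z ≠ 1 → ∃ p : ℕ, p.Prime ∧
      ¬ ∃ (c : ℕ) (Δ A : Subgroup Γ), z ∈ A ∧ Exo Γ d p c Δ A := by
  constructor
  · intro h z hz hz1
    have h2 := ((Fi_main Γ hΓ).out 0 1).1 h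
    obtain ⟨p, hp, hS⟩ := h2 z hz hz1
    exact ⟨p, hp, fun ⟨_, _, A, hzA, hE⟩ => hS ⟨A, hzA, hE.iso⟩⟩
  · intro h
    refine ((Fi_main Γ hΓ).out 2 0).1 ?_
    intro z hz hz1
    obtain ⟨p, hp, hS⟩ := h z hz hz1
    by_contra hcon
    push Not at hcon
    exact hS (V9_ex hΓ d h0 h1 p hp z hz hz1 (fun k => hcon p k hp))

end Pool.Agent.H5.PD
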