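import Pool.Agent.H5.PD.C0

/-!
Module XC (row PDXC).  The functor `C0 S` is exact; the elements `dlt m` supported on `S`.
`XC_ses`: `VTop_shortExact` (H5/CP/VTop.lean).  From `hX`: `X.f` injective, `X.g` onto, exact (`Rep.mono_iff_injective`, `Rep.epi_iff_surjective`, `ABs_exact`).  Onto: an element `h` of `C0 S X.X₃` has finite support modulo `S`: choose representatives `a` of the cosets `S a` and preimages `b_a` of `h(a)` (`0` if `h(a) = 0`), and
 define the lift by `s a ↦ ρ(s) b_a`.  Middle: pointwise preimages of `f(x)` are unique (`X.f` injective), hence they form a function in `C0 S X.X₁` (same support).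
`dlt m (x) = ρ(x) m` for `x ∈ S`, `0` otherwise.
-/

namespace Pool.Agent.H5.PD

open CategoryTheory CategoryTheory.Abelian CategoryTheory.Limits Pool.Agent.H5.CP
  Pool.Agent.H75.CP Pool.Agent.H5.ZP

theorem XC_w {G : Type} [Group G] (S : Subgroup G) (X : ShortComplex (Rep.{0} ℤ S)) :
    C0m S X.f ≫ C0m S X.g = 0 := by
  rw [C0_comp, X.zero]
  ext
  rfl

/-- the representative of the coset `S x` -/
noncomputable def XC_r {G : Type} [Group G] (S : Subgroup G) (x : G) : G :=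
  (Quotient.mk (QuotientGroup.rightRel S) x).out

theorem XC_r_mem {G : Type} [Group G] (S : Subgroup G) (x : G) : x * (XC_r S x)⁻¹ ∈ S := by
  have h : (QuotientGroup.rightRel S).r (XC_r S x) x :=
    Quotient.exact (Quotient.out_eq (Quotient.mk (QuotientGroup.rightRel S) x))
  exact QuotientGroup.rightRel_apply.1 h

theorem XC_r_mul {G : Type} [Group G] (S : Subgroup G) (s : S) (x : G) :
    XC_r S ((s : G) * x) = XC_r S x := by
  have h : Quotient.mk (QuotientGroup.rightRel S) ((s : G) * x) =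
      Quotient.mk (QuotientGroup.rightRel S) x := by
    apply Quotient.sound
    apply QuotientGroup.rightRel_apply.2
    rw [mul_inv_rev, mul_inv_cancel_left]
    exact S.inv_mem s.2
  unfold XC_r
  rw [h]

open Classical in
/-- preimages, `0` over `0` -/
noncomputable def XC_b {G : Type} [Group G] {S : Subgroup G} {M N : Rep.{0} ℤ S} (g : M ⟶ N)
    (hg : Function.Surjective g.hom) (y : N.V) : M.V :=
  if y = 0 then 0 else (hg y).choose

theorem XC_b_zero {G : Type} [Group G] {S : Subgroup G} {M N : Rep.{0} ℤ S} (g : M ⟶ N)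
    (hg : Function.Surjective g.hom) (y : N.V) (h : y = 0) : XC_b g hg y = 0 := if_pos h

theorem XC_b_g {G : Type} [Group G] {S : Subgroup G} {M N : Rep.{0} ℤ S} (g : M ⟶ N)
    (hg : Function.Surjective g.hom) (y : N.V) : g.hom (XC_b g hg y) = y := by
  by_cases h : y = 0
  · rw [XC_b_zero g hg y h, map_zero, h]
  · unfold XC_b
    rw [if_neg h]
    exact (hg y).choose_spec

theorem XC_surj {G : Type} [Group G] {S : Subgroup G} {M N : Rep.{0} ℤ S} (g : M ⟶ N)
    (hg : Function.Surjective g.hom) : Function.Surjective (C0m S g).hom := by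
  intro h
  obtain ⟨F, hF, hs⟩ := h.2
  have hsm : ∀ (s : S) (x : G), (⟨(s : G) * x * (XC_r S ((s : G) * x))⁻¹, XC_r_mem S _⟩ : S) =
      s * ⟨x * (XC_r S x)⁻¹, XC_r_mem S x⟩ := by
    intro s x
    apply Subtype.ext
    show (s : G) * x * (XC_r S ((s : G) * x))⁻¹ = (s : G) * (x * (XC_r S x)⁻¹)
    rw [XC_r_mul, mul_assoc]
  refine ⟨⟨⟨fun x => M.ρ ⟨x * (XC_r S x)⁻¹, XC_r_mem S x⟩ (XC_b g hg (h.1.1 (XC_r S x))), ?_⟩,
    ?_⟩, ?_⟩
  · intro s x
    show M.ρ ⟨(s : G) * x * (XC_r S ((s : G) * x))⁻¹, XC_r_mem S _⟩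
      (XC_b g hg (h.1.1 (XC_r S ((s : G) * x)))) =
      M.ρ s (M.ρ ⟨x * (XC_r S x)⁻¹, XC_r_mem S x⟩ (XC_b g hg (h.1.1 (XC_r S x))))
    rw [hsm s x, XC_r_mul, map_mul]
    rfl
  · refine ⟨F, hF, fun x hx => ?_⟩
    have h1 : h.1.1 (XC_r S x) ≠ 0 := by
      intro h0
      apply hx
      show M.ρ ⟨x * (XC_r S x)⁻¹, XC_r_mem S x⟩ (XC_b g hg (h.1.1 (XC_r S x))) = 0
      rw [XC_b_zero g hg _ h0, map_zero]
    obtain ⟨a, ha, s, hsa⟩ := hs _ h1
    refine ⟨a, ha, ⟨x * (XC_r S x)⁻¹, XC_r_mem S x⟩ * s, ?_⟩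
    show x = x * (XC_r S x)⁻¹ * (s : G) * a
    rw [mul_assoc _ (s : G) a, ← hsa, inv_mul_cancel_right]
  · apply Subtype.ext
    apply Subtype.ext
    funext x
    show g.hom (M.ρ ⟨x * (XC_r S x)⁻¹, XC_r_mem S x⟩ (XC_b g hg (h.1.1 (XC_r S x)))) = h.1.1 x
    rw [Rep.hom_comm_apply, XC_b_g]
    have h2 : h.1.1 (x * (XC_r S x)⁻¹ * XC_r S x) =
        N.ρ ⟨x * (XC_r S x)⁻¹, XC_r_mem S x⟩ (h.1.1 (XC_r S x)) :=
      h.1.2 ⟨x * (XC_r S x)⁻¹, XC_r_mem S x⟩ (XC_r S x)
    rw [← h2, inv_mul_cancel_right]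

theorem XC_inj {G : Type} [Group G] {S : Subgroup G} {M N : Rep.{0} ℤ S} (f : M ⟶ N)
    (hf : Function.Injective f.hom) : Function.Injective (C0m S f).hom := by
  intro a b hab
  apply Subtype.ext
  apply Subtype.ext
  funext x
  apply hf
  have h : ((C0m S f).hom a).1.1 x = ((C0m S f).hom b).1.1 x := by rw [hab]
  exact h

theorem XC_mid {G : Type} [Group G] {S : Subgroup G} {L M N : Rep.{0} ℤ S} (f : L ⟶ M)
    (g : M ⟶ N) (hf : Function.Injective f.hom)
    (he : ∀ x : M.V, g.hom x = 0 → ∃ y : L.V, f.hom y = x) (z : (C0 S M).V)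
    (hz : (C0m S g).hom z = 0) : ∃ y : (C0 S L).V, (C0m S f).hom y = z := by
  have h1 : ∀ x : G, ∃ y : L.V, f.hom y = z.1.1 x := by
    intro x
    apply he
    have h : ((C0m S g).hom z).1.1 x = (0 : (C0 S N).V).1.1 x := by rw [hz]
    exact h
  choose u hu using h1
  refine ⟨⟨⟨u, ?_⟩, ?_⟩, ?_⟩
  · intro s x
    apply hf
    show f.hom (u ((s : G) * x)) = f.hom (L.ρ s (u x))
    rw [hu, Rep.hom_comm_apply, hu]
    exact z.1.2 s x
  · obtain ⟨F, hF, hs⟩ := z.2
    refine ⟨F, hF, fun x hx => hs x ?_⟩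
    intro h0
    apply hx
    apply hf
    show f.hom (u x) = f.hom 0
    rw [hu, map_zero]
    exact h0
  · apply Subtype.ext
    apply Subtype.ext
    funext x
    exact hu x

theorem XC_ses {G : Type} [Group G] (S : Subgroup G) (X : ShortComplex (Rep.{0} ℤ S))
    (hX : X.ShortExact) :
    (ShortComplex.mk (C0m S X.f) (C0m S X.g) (XC_w S X)).ShortExact := by
  have hi : Function.Injective X.f.hom := (Rep.mono_iff_injective _).1 hX.mono_f
  have hs : Function.Surjective X.g.hom := (Rep.epi_iff_surjective _).1 hX.epi_g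
  have he : ∀ x : X.X₂.V, X.g.hom x = 0 → ∃ y : X.X₁.V, X.f.hom y = x := fun x hx =>
    (ABs_exact X.f X.g X.zero).1 hX.exact x hx
  exact VTop_shortExact _ (XC_inj X.f hi) (XC_surj X.g hs) (XC_mid X.f X.g hi he)

open Classical in
/-- the function supported on `S` with value `m` at `1` -/
noncomputable def dlt {k G : Type} [CommRing k] [Group G] (S : Subgroup G) (B : Rep.{0} k S)
    (m : B.V) : (C0 S B).V :=
  ⟨⟨fun x => if h : x ∈ S then B.ρ ⟨x, h⟩ m else 0, by
    intro s x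
    show (if h : s.1 * x ∈ S then B.ρ ⟨s.1 * x, h⟩ m else 0) =
      B.ρ s (if h : x ∈ S then B.ρ ⟨x, h⟩ m else 0)
    by_cases h : x ∈ S
    · rw [dif_pos h, dif_pos (S.mul_mem s.2 h)]
      have h1 : (⟨s.1 * x, S.mul_mem s.2 h⟩ : S) = s * ⟨x, h⟩ := rfl
      rw [h1, map_mul]
      rfl
    · rw [dif_neg h, dif_neg, map_zero]
      intro h2
      exact h ((S.mul_mem_cancel_left s.2).1 h2)⟩, by
    refine ⟨{1}, Set.finite_singleton 1, ?_⟩
    intro x hx
    by_cases h : x ∈ S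
    · exact ⟨1, rfl, ⟨x, h⟩, (mul_one x).symm⟩
    · exact absurd (dif_neg h) hx⟩

theorem dlt_apply {k G : Type} [CommRing k] [Group G] (S : Subgroup G) (B : Rep.{0} k S)
    (m : B.V) (x : G) (h : x ∈ S) : (dlt S B m).1.1 x = B.ρ ⟨x, h⟩ m := dif_pos h

theorem dlt_zero {k G : Type} [CommRing k] [Group G] (S : Subgroup G) (B : Rep.{0} k S)
    (m : B.V) (x : G) (h : x ∉ S) : (dlt S B m).1.1 x = 0 := dif_neg h

theorem dlt_ρ {k G : Type} [CommRing k] [Group G] (S : Subgroup G) (B : Rep.{0} k S)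
    (m : B.V) (s : S) : (C0 S B).ρ (s : G) (dlt S B m) = dlt S B (B.ρ s m) := by
  apply Subtype.ext
  apply Subtype.ext
  funext x
  show (dlt S B m).1.1 (x * (s : G)) = (dlt S B (B.ρ s m)).1.1 x
  by_cases h : x ∈ S
  · rw [dlt_apply S B _ x h, dlt_apply S B m _ (S.mul_mem h s.2)]
    have h1 : (⟨x * (s : G), S.mul_mem h s.2⟩ : S) = ⟨x, h⟩ * s := rfl
    rw [h1, map_mul]
    rfl
  · rw [dlt_zero S B _ x h, dlt_zero S B m]
    intro h2
    exact h ((S.mul_mem_cancel_right s.2).1 h2)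

theorem dlt_m {k G : Type} [CommRing k] [Group G] (S : Subgroup G) {B B' : Rep.{0} k S}
    (e : B ⟶ B') (m : B.V) : (C0m S e).hom (dlt S B m) = dlt S B' (e.hom m) := by
  apply Subtype.ext
  apply Subtype.ext
  funext x
  show e.hom ((dlt S B m).1.1 x) = (dlt S B' (e.hom m)).1.1 x
  by_cases h : x ∈ S
  · rw [dlt_apply S B _ x h, dlt_apply S B' _ x h, Rep.hom_comm_apply]
  · rw [dlt_zero S B _ x h, dlt_zero S B' _ x h, map_zero]

theorem dlt_add {k G : Type} [CommRing k] [Group G] (S : Subgroup G) (B : Rep.{0} k S)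
    (m m' : B.V) : dlt S B (m + m') = dlt S B m + dlt S B m' := by
  apply Subtype.ext
  apply Subtype.ext
  funext x
  show (dlt S B (m + m')).1.1 x = (dlt S B m).1.1 x + (dlt S B m').1.1 x
  by_cases h : x ∈ S
  · rw [dlt_apply S B _ x h, dlt_apply S B _ x h, dlt_apply S B _ x h, map_add]
  · rw [dlt_zero S B _ x h, dlt_zero S B _ x h, dlt_zero S B _ x h, add_zero]

end Pool.Agent.H5.PD
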