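import Pool.Agent.H5.PD.IX
import Pool.Agent.H5.PD.XC

/-!
Module XI (row PDXI).  `IX_main` with the explicit generator: the isomorphism sends `dlt (single 1 1)` (the function `δ` of IX.lean: `δ(x) = single (r x) 1` for `x ∈ St`, `0` otherwise) to `single (1 mod ⟨u⟩) 1`.  Reuse the construction in IX.lean (its proof builds exactly this isomorphism: `single (g⟨u⟩) a ↦ a • π(g) δ`);
 if necessary copy it.
-/

namespace Pool.Agent.H5.PD

open CategoryTheory CategoryTheory.Abelian CategoryTheory.Limits Pool.Agent.H5.CP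
  Pool.Agent.H75.CP Pool.Agent.H5.ZP

theorem XI_main {H L C L' : Type} [Group H] [Group L] [Group C] [Group L'] (E : CX H L) (p : ℕ)
    [Fact p.Prime] (u : E.Y0 p) (i : C →* H) (hi : Function.Injective i)
    (hr : ∀ x : H, (∃ c, i c = x) ↔ x * u.1 = u.1 * x) (E₁ : CX C L') (h₁ : i E₁.t = u.1)
    (r : MulAction.stabilizer L u →* L')
    (hr2 : ∀ (c : C) (s : MulAction.stabilizer L u), (s : L) = E.π (i c) → r s = E₁.π c) :
    ∃ φ : Rep.res E.π (C0 (MulAction.stabilizer L u) (Rep.res r (PX p L' L'))) ≅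
        PX p H (H ⧸ Subgroup.zpowers u.1),
      φ.inv.hom (Finsupp.single (QuotientGroup.mk (1 : H)) (1 : ZMod p) :
        (H ⧸ Subgroup.zpowers u.1) →₀ ZMod p) =
      dlt (MulAction.stabilizer L u) (Rep.res r (PX p L' L'))
        (Finsupp.single (1 : L') (1 : ZMod p) : L' →₀ ZMod p) := by
  classical
  have hmk := IXq_mk E p u i hr E₁ h₁ r hr2
  let Ψ : (C0 (MulAction.stabilizer L u) (Rep.res r (PX p L' L'))).V →+
      ((H ⧸ Subgroup.zpowers u.1) →₀ ZMod p) :=
    { toFun := fun f => Finsupp.ofSupportFinite (IXq E p u r f)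
        (IXq_fin E p u i hr E₁ h₁ r hr2 f)
      map_zero' := by
        ext q
        rfl
      map_add' := by
        intro f g
        ext q
        rfl }
  have hΨ : ∀ (f : (C0 (MulAction.stabilizer L u) (Rep.res r (PX p L' L'))).V) (g : H),
      Ψ f (g : H ⧸ Subgroup.zpowers u.1) = IXv E p u r f g := fun f g => hmk f g
  have hΨe : ∀ (h : H) (f : (C0 (MulAction.stabilizer L u) (Rep.res r (PX p L' L'))).V),
      Ψ ((C0 (MulAction.stabilizer L u) (Rep.res r (PX p L' L'))).ρ (E.π h) f) =
        Finsupp.mapDomain (fun q => h • q) (Ψ f) := by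
    intro h f
    ext q
    obtain ⟨g, rfl⟩ := QuotientGroup.mk_surjective q
    have h1 : (g : H ⧸ Subgroup.zpowers u.1) = h • ((h⁻¹ * g : H) : H ⧸ Subgroup.zpowers u.1) := by
      show _ = ((h * (h⁻¹ * g) : H) : H ⧸ Subgroup.zpowers u.1)
      rw [mul_inv_cancel_left]
    rw [hΨ]
    conv_rhs => rw [h1]
    rw [Finsupp.mapDomain_apply (MulAction.injective h), hΨ]
    show IXw E p u r f ((E.π g)⁻¹ * E.π h) 1 = IXw E p u r f (E.π (h⁻¹ * g))⁻¹ 1
    rw [map_mul, map_inv, mul_inv_rev, inv_inv]
  have hinj : Function.Injective Ψ := by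
    rw [injective_iff_map_eq_zero]
    intro f hf
    apply Subtype.ext
    apply Subtype.ext
    funext x
    show IXw E p u r f x = 0
    ext l
    obtain ⟨s, hs⟩ := IX_surj E p u i hr E₁ r hr2 l⁻¹
    have h2 := IX_val E p u r f s x l
    rw [hs, inv_mul_cancel] at h2
    obtain ⟨g, hg⟩ := E.surj ((s : L) * x)⁻¹
    have h3 : IXv E p u r f g = 0 := by rw [← hΨ, hf]; rfl
    have h4 : (E.π g)⁻¹ = (s : L) * x := by rw [hg, inv_inv]
    have h5 : IXw E p u r f (E.π g)⁻¹ 1 = 0 := h3
    rw [h4, h2] at h5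
    rw [h5]
    rfl
  -- the element `a • δ`
  have hδ : ∀ a : ZMod p, ∃ f : (C0 (MulAction.stabilizer L u) (Rep.res r (PX p L' L'))).V,
      Ψ f = Finsupp.single ((1 : H) : H ⧸ Subgroup.zpowers u.1) a := by
    intro a
    let d : L → (L' →₀ ZMod p) := fun x =>
      if h : x ∈ MulAction.stabilizer L u then Finsupp.single (r ⟨x, h⟩) a else 0
    have hd : ∀ (s : MulAction.stabilizer L u) (x : L), d ((s : L) * x) =
        Finsupp.mapDomain (fun y => r s • y) (d x) := by
      intro s x
      by_cases h : x ∈ MulAction.stabilizer L u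
      · have h' : (s : L) * x ∈ MulAction.stabilizer L u := mul_mem s.2 h
        simp only [d]
        rw [dif_pos h, dif_pos h', Finsupp.mapDomain_single]
        congr 1
        show r (s * ⟨x, h⟩) = _
        rw [map_mul]
        rfl
      · have h' : (s : L) * x ∉ MulAction.stabilizer L u := fun h' => h (by
          have := mul_mem (inv_mem s.2) h'
          rwa [inv_mul_cancel_left] at this)
        simp only [d]
        rw [dif_neg h, dif_neg h', Finsupp.mapDomain_zero]
    refine ⟨⟨⟨d, hd⟩, {1}, Set.finite_singleton _, ?_⟩, ?_⟩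
    · intro x hx
      by_cases h : x ∈ MulAction.stabilizer L u
      · exact ⟨1, rfl, ⟨x, h⟩, (mul_one x).symm⟩
      · exact absurd (dif_neg h) hx
    · ext q
      obtain ⟨g, rfl⟩ := QuotientGroup.mk_surjective q
      refine (hΨ _ g).trans ?_
      show d (E.π g)⁻¹ 1 = _
      by_cases hg : g ∈ Subgroup.zpowers u.1
      · have h1 : (g : H ⧸ Subgroup.zpowers u.1) = ((1 : H) : H ⧸ Subgroup.zpowers u.1) := by
          rw [QuotientGroup.eq]
          simpa using hg
        rw [h1, Finsupp.single_eq_same]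
        obtain ⟨n, rfl⟩ := hg
        obtain ⟨s, hs, h2⟩ := IX_u E p u i hr E₁ h₁ r hr2 (-n)
        have h3 : (E.π ((fun x => u.1 ^ x) n))⁻¹ = (s : L) := by
          rw [hs, zpow_neg, map_inv]
        rw [h3]
        simp only [d]
        rw [dif_pos s.2]
        have h4 : (⟨(s : L), s.2⟩ : MulAction.stabilizer L u) = s := rfl
        rw [h4, h2, Finsupp.single_eq_same]
      · have h1 : (g : H ⧸ Subgroup.zpowers u.1) ≠ ((1 : H) : H ⧸ Subgroup.zpowers u.1) := by
          intro h1
          apply hg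
          rw [QuotientGroup.eq] at h1
          simpa using h1
        rw [Finsupp.single_eq_of_ne h1]
        by_cases h : (E.π g)⁻¹ ∈ MulAction.stabilizer L u
        · simp only [d]
          rw [dif_pos h]
          apply Finsupp.single_eq_of_ne
          intro h2
          apply hg
          have h3 := IX_ker E p u i hr E₁ h₁ r hr2 g⁻¹ ⟨(E.π g)⁻¹, h⟩ (by rw [map_inv]) h2.symm
          simpa using h3
        · simp only [d]
          rw [dif_neg h]
          rfl
  have hsurj : Function.Surjective Ψ := by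
    intro φ
    induction φ using Finsupp.induction_linear with
    | zero => exact ⟨0, map_zero _⟩
    | add a b ha hb =>
      obtain ⟨x, rfl⟩ := ha
      obtain ⟨y, rfl⟩ := hb
      exact ⟨x + y, map_add _ _ _⟩
    | single q a =>
      obtain ⟨g, rfl⟩ := QuotientGroup.mk_surjective q
      obtain ⟨f, hf⟩ := hδ a
      refine ⟨(C0 (MulAction.stabilizer L u) (Rep.res r (PX p L' L'))).ρ (E.π g) f, ?_⟩
      rw [hΨe, hf, Finsupp.mapDomain_single]
      congr 1
      show ((g * 1 : H) : H ⧸ Subgroup.zpowers u.1) = _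
      rw [mul_one]
  let φ : Rep.res E.π (C0 (MulAction.stabilizer L u) (Rep.res r (PX p L' L'))) ⟶
      PX p H (H ⧸ Subgroup.zpowers u.1) :=
    mkZ (M := Rep.res E.π (C0 (MulAction.stabilizer L u) (Rep.res r (PX p L' L'))))
      (N := PX p H (H ⧸ Subgroup.zpowers u.1)) Ψ (fun h f => hΨe h f)
  have : Mono φ := (Rep.mono_iff_injective _).2 hinj
  have : Epi φ := (Rep.epi_iff_surjective _).2 hsurj
  have : IsIso φ := isIso_of_mono_of_epi φ
  have hΨφ : ∀ f : (C0 (MulAction.stabilizer L u) (Rep.res r (PX p L' L'))).V,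
      φ.hom f = Ψ f := fun f => rfl
  refine ⟨asIso φ, ?_⟩
  have hd : Ψ (dlt (MulAction.stabilizer L u) (Rep.res r (PX p L' L'))
        (Finsupp.single (1 : L') (1 : ZMod p) : L' →₀ ZMod p)) =
      Finsupp.single ((1 : H) : H ⧸ Subgroup.zpowers u.1) (1 : ZMod p) := by
    have hv : ∀ (x : L) (h : x ∈ MulAction.stabilizer L u),
        IXw E p u r (dlt (MulAction.stabilizer L u) (Rep.res r (PX p L' L'))
          (Finsupp.single (1 : L') (1 : ZMod p) : L' →₀ ZMod p)) x =
        Finsupp.single (r ⟨x, h⟩) (1 : ZMod p) := by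
      intro x h
      have h1 := dlt_apply (MulAction.stabilizer L u) (Rep.res r (PX p L' L'))
        (Finsupp.single (1 : L') (1 : ZMod p) : L' →₀ ZMod p) x h
      have h2 : (Rep.res r (PX p L' L')).ρ ⟨x, h⟩
          (Finsupp.single (1 : L') (1 : ZMod p) : L' →₀ ZMod p) =
          (Finsupp.single (r ⟨x, h⟩ * 1) (1 : ZMod p) : L' →₀ ZMod p) := by
        show Finsupp.mapDomain (fun y => r ⟨x, h⟩ • y)
          (Finsupp.single (1 : L') (1 : ZMod p) : L' →₀ ZMod p) = _
        rw [Finsupp.mapDomain_single]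
        rfl
      rw [mul_one] at h2
      exact h1.trans h2
    have hv0 : ∀ (x : L) (h : x ∉ MulAction.stabilizer L u),
        IXw E p u r (dlt (MulAction.stabilizer L u) (Rep.res r (PX p L' L'))
          (Finsupp.single (1 : L') (1 : ZMod p) : L' →₀ ZMod p)) x = 0 := fun x h =>
      dlt_zero (MulAction.stabilizer L u) (Rep.res r (PX p L' L'))
        (Finsupp.single (1 : L') (1 : ZMod p) : L' →₀ ZMod p) x h
    ext q
    obtain ⟨g, rfl⟩ := QuotientGroup.mk_surjective q
    refine (hΨ _ g).trans ?_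
    unfold IXv
    by_cases hg : g ∈ Subgroup.zpowers u.1
    · have h1 : (g : H ⧸ Subgroup.zpowers u.1) = ((1 : H) : H ⧸ Subgroup.zpowers u.1) := by
        rw [QuotientGroup.eq]
        simpa using hg
      rw [h1, Finsupp.single_eq_same]
      obtain ⟨n, rfl⟩ := hg
      obtain ⟨s, hs, h2⟩ := IX_u E p u i hr E₁ h₁ r hr2 (-n)
      have h3 : (E.π ((fun x => u.1 ^ x) n))⁻¹ = (s : L) := by
        rw [hs, zpow_neg, map_inv]
      rw [h3, hv _ s.2]
      have h4 : (⟨(s : L), s.2⟩ : MulAction.stabilizer L u) = s := rfl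
      rw [h4, h2, Finsupp.single_eq_same]
    · have h1 : (g : H ⧸ Subgroup.zpowers u.1) ≠ ((1 : H) : H ⧸ Subgroup.zpowers u.1) := by
        intro h1
        apply hg
        rw [QuotientGroup.eq] at h1
        simpa using h1
      rw [Finsupp.single_eq_of_ne h1]
      by_cases h : (E.π g)⁻¹ ∈ MulAction.stabilizer L u
      · rw [hv _ h]
        apply Finsupp.single_eq_of_ne
        intro h2
        apply hg
        have h3 := IX_ker E p u i hr E₁ h₁ r hr2 g⁻¹ ⟨(E.π g)⁻¹, h⟩ (by rw [map_inv]) h2.symm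
        simpa using h3
      · rw [hv0 _ h]
        rfl
  have h5 : φ.hom (dlt (MulAction.stabilizer L u) (Rep.res r (PX p L' L'))
        (Finsupp.single (1 : L') (1 : ZMod p) : L' →₀ ZMod p)) =
      (Finsupp.single (QuotientGroup.mk (1 : H)) (1 : ZMod p) :
        (H ⧸ Subgroup.zpowers u.1) →₀ ZMod p) := (hΨφ _).trans hd
  have h6 := congrArg (fun e => e.hom (dlt (MulAction.stabilizer L u)
    (Rep.res r (PX p L' L')) (Finsupp.single (1 : L') (1 : ZMod p) : L' →₀ ZMod p)))
    (asIso φ).hom_inv_id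
  refine Eq.trans ?_ h6
  exact congrArg (asIso φ).inv.hom h5.symm

end Pool.Agent.H5.PD
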