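import Pool.Agent.H5.PD.XM
import Pool.Agent.H5.PD.XI
import Pool.Agent.H5.PD.XP
import Pool.Agent.H5.PD.XR
import Pool.Agent.H5.PD.SH
import Pool.Agent.H5.PD.GX
import Pool.Agent.H5.PD.SV

/-!
Module XF (row PDXE, replaces XE).  Parity of the dimension along the level step, `p` odd.  Use only the STATEMENTS of the imported PD files.  `GX_main`: `E' : CX C St`, `r : St → L'`, `St = stabilizer L u`.
`XF_alg` (recommended helper): `XM_main` with `G = St`, `Y = St` (left multiplication), `σ y = y * ū`, `ū = E'.π(E₁.t)` (as an element of `L` it is `E.π u`; `ū^p = 1`, `ū ≠ 1` since `E₁.t` is not a power of `E'.t = E₁.t^p`; `ū` is central in `St` because `E₁.t` is central in `C` and `E'.π` is onto), `Z = L'` with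
 `MulAction.compHom L' r`, `b = r` (`ker r` = the powers of `ū`: `ker E₁.π` = powers of `E₁.t`); `PX p St L'` is `Rep.res r (PX p L' L')` by `rfl`.  Let `m = c₂ (single 1 1) ∈ M₂`: `q m = single 1 1`, and `ū m - m = c₂(single ū 1 - single 1 1) = c₂(τ(single 1 1)) = j(single 1 1)`.
`XF_main`: suppose `c` and `c'` have different parity.  (a) `XP_main` for `E'`, `u := E₁.t` (`E₁.t ^ p = E'.t`), `M₁ = B := Rep.res r (PX p L' L')`, `M₂`, `b₁` = the map `PXm` of `c ↦ E₁.π c` (`Rep.res E'.π B` is `PX p C L'` for `MulAction.compHom L' (r.comp E'.π)`), exact sequence by `SV_main` (`Y = C`, `σ` = right multiplication by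
 `E₁.t`), `b₂ = PXo p _ _ m`: so `q_* = 0` on `Ext (tz St) M₂ N` for `N ≥ c' - 1`, `N + 1 ≡ c' mod 2`.
 (b) `XP_main` for `E`, `u`, `M₁ = C0 St B`, `M₂ := C0 St M₂`, `j, q := C0m` (exact: `XC_ses`, killed by `p`: `C0_kp`), `b₁ =` (`H → H/⟨u⟩`)_* followed by `φ.inv` (`XI_main`; exact by `SV_main` with `Y = H`, `Z = H ⧸ zpowers u`), `b₂ = PXo p _ _ (dlt m)`; the identities `b₂ ≫ q = b₁`, `(ρ_u - 1) ≫ b₂ = b₁ ≫ j` are checked on
 `single 1 1` (morphisms from `F_p[H]` which agree there are equal): `dlt_m`, `dlt_ρ` (`π(u) = ū ∈ St`), `dlt_add`.  So `(C0m q)_* = 0` on `Ext (tz L) (C0 St M₂) N` for `N + 1 ≡ c mod 2`, `N + 1 ≥ c`, and by `SH_main` (bijective for `M₂`, `N ≥ 2n+4`) and `C0_nat`, `In_nat`: `q_* = 0` on `Ext (tz St) M₂ N` for `N ≥ 2n+4`, `N + 1 ≡ c`.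
 If the parities differ, `q_* = 0` for all large `N`: contradiction to `XR_main` (`j₀ = c'`; `hfin`: orders `1` and `p` are non-zero, `Nat.finite_of_card_ne_zero`).
(Helper lemmas for the parts (a), (b) are recommended.)
-/

namespace Pool.Agent.H5.PD

open CategoryTheory CategoryTheory.Abelian CategoryTheory.Limits Pool.Agent.H5.CP
  Pool.Agent.H75.CP Pool.Agent.H5.ZP

theorem XF_hx {k G : Type} [CommRing k] [Group G] {A B : Rep.{0} k G} (f g : A ⟶ B)
    (h : ∀ v : A.V, f.hom v = g.hom v) : f = g := by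
  refine Rep.hom_ext ?_
  exact DFunLike.ext _ _ h

/-- morphisms from `F_p[G]` which agree on the generator are equal -/
theorem XF_ext (p : ℕ) [NeZero p] {G : Type} [Group G] {N : Rep.{0} ℤ G} (f g : PX p G G ⟶ N)
    (h : f.hom (Finsupp.single (1 : G) (1 : ZMod p) : G →₀ ZMod p) =
      g.hom (Finsupp.single (1 : G) (1 : ZMod p) : G →₀ ZMod p)) : f = g := by
  have h1 : ∀ x : G, f.hom (Finsupp.single x (1 : ZMod p) : G →₀ ZMod p) =
      g.hom (Finsupp.single x (1 : ZMod p) : G →₀ ZMod p) := by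
    intro x
    have e : (Finsupp.single x (1 : ZMod p) : G →₀ ZMod p) =
        (PX p G G).ρ x (Finsupp.single (1 : G) (1 : ZMod p) : G →₀ ZMod p) := by
      rw [PX_ρ, Finsupp.mapDomain_single]
      show _ = Finsupp.single (x * 1) 1
      rw [mul_one]
    exact (congrArg f.hom e).trans ((Rep.hom_comm_apply f x _).trans
      ((congrArg (N.ρ x) h).trans ((Rep.hom_comm_apply g x _).symm.trans (congrArg g.hom e).symm)))
  refine XF_hx f g fun v => ?_
  change G →₀ ZMod p at v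
  show f.hom v = g.hom v
  induction v using Finsupp.induction_linear with
  | zero => exact (map_zero f.hom).trans (map_zero g.hom).symm
  | add a b ha hb =>
    exact (map_add f.hom a b).trans ((congrArg₂ (· + ·) ha hb).trans (map_add g.hom a b).symm)
  | single a b =>
    obtain ⟨m, rfl⟩ : ∃ m : ℕ, (m : ZMod p) = b := ⟨b.val, ZMod.natCast_zmod_val b⟩
    have e : (Finsupp.single a (m : ZMod p) : G →₀ ZMod p) =
        m • (Finsupp.single a (1 : ZMod p) : G →₀ ZMod p) := by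
      rw [Finsupp.smul_single, nsmul_one]
    rw [e]
    exact (map_nsmul f.hom m _).trans ((congrArg (m • ·) (h1 a)).trans (map_nsmul g.hom m _).symm)

theorem XF_alg (p : ℕ) [Fact p.Prime] (hp2 : p ≠ 2) {St L' : Type} [Group St] [Group L']
    (r : St →* L') (hr : Function.Surjective r) (U : St) (hU : U ^ p = 1) (hU1 : U ≠ 1)
    (hk : ∀ s s' : St, r s = r s' ↔ ∃ n : ℕ, s * U ^ n = s') :
    ∃ (M₂ M₃ : Rep.{0} ℤ St) (j : Rep.res r (PX p L' L') ⟶ M₂)
      (q : M₂ ⟶ Rep.res r (PX p L' L')) (w : j ≫ q = 0) (j₃ : M₂ ⟶ M₃)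
      (q₃ : M₃ ⟶ Rep.res r (PX p L' L')) (w₃ : j₃ ≫ q₃ = 0) (f : M₃ ⟶ M₂), Kp p M₂ ∧
      (ShortComplex.mk j q w).ShortExact ∧ (ShortComplex.mk j₃ q₃ w₃).ShortExact ∧
      f ≫ q = q₃ ∧ j₃ ≫ f = q ≫ j ∧
      ∃ m : M₂.V, (q.hom m : L' →₀ ZMod p) = Finsupp.single 1 1 ∧
        M₂.ρ U m - m = j.hom (Finsupp.single (1 : L') (1 : ZMod p) : L' →₀ ZMod p) := by
  let _ : MulAction St L' := MulAction.compHom L' r
  have hpow : ∀ (n : ℕ) (y : St), ((Equiv.mulRight U) ^ n) y = y * U ^ n := by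
    intro n y
    rw [Equiv.pow_mulRight]
    rfl
  have hb : ∀ (g y : St), r (g • y) = g • r y := fun g y => map_mul r g y
  obtain ⟨M₂, M₃, c₂, j, q, w, j₃, q₃, w₃, f, hK, hB, hB₃, hf1, hf2, hc1, hc2⟩ :=
    XM_main p hp2 (G := St) (Y := St) (Z := L')
    (Equiv.mulRight U) (fun g y => mul_assoc g y U) (fun y => by rw [hpow, hU, mul_one])
    (fun y h => hU1 (mul_eq_left.1 h)) r hb hr (fun y y' => by
      rw [hk]
      constructor
      · rintro ⟨n, hn⟩
        exact ⟨n, (hpow n y).trans hn⟩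
      · rintro ⟨n, hn⟩
        exact ⟨n, (hpow n y).symm.trans hn⟩)
  have hr1 : r 1 = 1 := map_one r
  have e0 : (PXm p r hb).hom (Finsupp.single (1 : St) (1 : ZMod p) : St →₀ ZMod p) =
      (Finsupp.single (1 : L') (1 : ZMod p) : L' →₀ ZMod p) := by
    refine (PXm_hom p r hb _).trans ?_
    rw [Finsupp.mapDomain_single, hr1]
  refine ⟨M₂, M₃, j, q, w, j₃, q₃, w₃, f, hK, hB, hB₃, hf1, hf2,
    c₂.hom (Finsupp.single (1 : St) (1 : ZMod p) : St →₀ ZMod p), ?_, ?_⟩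
  · exact (congrArg (fun φ : PX p St St ⟶ PX p St L' =>
      φ.hom (Finsupp.single (1 : St) (1 : ZMod p) : St →₀ ZMod p)) hc1).trans e0
  · have e1 : ((PX p St St).ρ U (Finsupp.single (1 : St) (1 : ZMod p) : St →₀ ZMod p) :
        St →₀ ZMod p) = Finsupp.single U 1 := by
      rw [PX_ρ, Finsupp.mapDomain_single]
      show (Finsupp.single (U * 1) 1 : St →₀ ZMod p) = _
      rw [mul_one]
    have e2 : ((PXm p (Equiv.mulRight U) (fun g y => mul_assoc g y U) - 𝟙 (PX p St St)).hom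
        (Finsupp.single (1 : St) (1 : ZMod p) : St →₀ ZMod p) : St →₀ ZMod p) =
        Finsupp.single U 1 - Finsupp.single 1 1 := by
      show (Finsupp.mapDomain (Equiv.mulRight U) (Finsupp.single (1 : St) (1 : ZMod p)) :
        St →₀ ZMod p) - Finsupp.single (1 : St) (1 : ZMod p) = _
      rw [Finsupp.mapDomain_single]
      show (Finsupp.single (1 * U) 1 : St →₀ ZMod p) - Finsupp.single (1 : St) (1 : ZMod p) = _
      rw [one_mul]
      rfl
    have e3 := congrArg (fun φ : PX p St St ⟶ M₂ =>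
      φ.hom (Finsupp.single (1 : St) (1 : ZMod p) : St →₀ ZMod p)) hc2
    have e4 : c₂.hom (Finsupp.single U (1 : ZMod p) - Finsupp.single (1 : St) (1 : ZMod p) :
        St →₀ ZMod p) = j.hom (Finsupp.single (1 : L') (1 : ZMod p) : L' →₀ ZMod p) :=
      (congrArg c₂.hom e2).symm.trans (e3.trans (congrArg j.hom e0))
    refine Eq.trans ?_ e4
    refine Eq.trans ?_ (map_sub c₂.hom _ _).symm
    refine congrArg₂ (· - ·) ?_ rfl
    exact (Rep.hom_comm_apply c₂ U _).symm.trans (congrArg c₂.hom e1)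

theorem XF_po1 (p : ℕ) [NeZero p] {G : Type} [Group G] (N : Rep.{0} ℤ G) (hN : Kp p N) (n : N.V) :
    (PXo p N hN n).hom (Finsupp.single (1 : G) (1 : ZMod p) : G →₀ ZMod p) = n := by
  rw [PXo_single, map_one]
  rfl

theorem XF_po2 (p : ℕ) [NeZero p] {G : Type} [Group G] (u : G) (N : Rep.{0} ℤ G) (hN : Kp p N)
    (n : N.V) : ((rmu p u - 𝟙 (PX p G G)) ≫ PXo p N hN n).hom
      (Finsupp.single (1 : G) (1 : ZMod p) : G →₀ ZMod p) = N.ρ u n - n := by
  have e1 : ((rmu p u - 𝟙 (PX p G G)).hom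
      (Finsupp.single (1 : G) (1 : ZMod p) : G →₀ ZMod p) : G →₀ ZMod p) =
      Finsupp.single u 1 - Finsupp.single 1 1 := by
    show (Finsupp.mapDomain (fun h => h * u) (Finsupp.single (1 : G) (1 : ZMod p)) :
      G →₀ ZMod p) - Finsupp.single (1 : G) (1 : ZMod p) = _
    rw [Finsupp.mapDomain_single, one_mul]
    rfl
  refine (congrArg (PXo p N hN n).hom e1).trans ?_
  refine (map_sub (PXo p N hN n).hom _ _).trans ?_
  exact congrArg₂ (· - ·) (PXo_single p N hN n u) (XF_po1 p N hN n)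

theorem XF_zpow {G : Type} [Group G] (t : G) (n : ℤ) (y : G) :
    ((Equiv.mulRight t) ^ n) y = y * t ^ n := by
  rw [Equiv.zpow_mulRight]
  rfl

theorem XF_iso {G : Type} [Group G] {A B X Y : Rep.{0} ℤ G} (f : A ⟶ B) (g : B ⟶ X) (w : f ≫ g = 0)
    (h : (ShortComplex.mk f g w).ShortExact) (φ : X ≅ Y) (w' : f ≫ g ≫ φ.hom = 0) :
    (ShortComplex.mk f (g ≫ φ.hom) w').ShortExact := by
  exact ShortComplex.shortExact_of_iso (S₁ := ShortComplex.mk f g w)
    (S₂ := ShortComplex.mk f (g ≫ φ.hom) w')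
    (ShortComplex.isoMk (Iso.refl _) (Iso.refl _) φ (by simp) (by simp)) h

/-- part (a) of the header -/
theorem XF_a (p : ℕ) [Fact p.Prime] {C St L' : Type} [Group C] [Group St] [Group L'] (E' : CX C St) (E₁ : CX C L')
    (r : St →* L') (hrr : ∀ c, r (E'.π c) = E₁.π c) (hp : E₁.t ^ p = E'.t) (c' : ℕ)
    (hc0' : 1 ≤ c') (hC1 : CD (ZMod p) C (c' + 1)) (hC2 : hc p C c' = p)
    (hC3 : ∀ j, j ≠ c' → hc p C j = 1) (M₂ : Rep.{0} ℤ St)
    (j : Rep.res r (PX p L' L') ⟶ M₂) (q : M₂ ⟶ Rep.res r (PX p L' L')) (w₂ : j ≫ q = 0)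
    (hK : Kp p M₂) (hK1 : Kp p (Rep.res r (PX p L' L')))
    (hB : (ShortComplex.mk j q w₂).ShortExact) (m : M₂.V)
    (hm1 : (q.hom m : L' →₀ ZMod p) = Finsupp.single 1 1)
    (hm2 : M₂.ρ (E'.π E₁.t) m - m =
      j.hom (Finsupp.single (1 : L') (1 : ZMod p) : L' →₀ ZMod p)) (N : ℕ) (hN : c' ≤ N + 1)
    (hpar : (N + 1) % 2 = c' % 2) (x : Ext (tz St) M₂ N) :
    x.comp (Ext.mk₀ q) (add_zero N) = 0 := by
  have h1 : r (E'.π 1) = 1 := by rw [map_one, map_one]
  let _ : MulAction C L' := MulAction.compHom L' (r.comp E'.π)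
  have hq : ∀ (g y : C), r (E'.π (g • y)) = g • (r (E'.π y)) := fun g y => by
    show r (E'.π (g * y)) = r (E'.π g) * r (E'.π y)
    rw [map_mul, map_mul]
  obtain ⟨w, hS⟩ := SV_main p (K := C) (Y := C) (Z := L') (Equiv.mulRight E₁.t)
    (fun g y => mul_assoc g y E₁.t) (fun n y h => by
      rw [XF_zpow] at h
      exact E₁.inf n (mul_eq_left.1 h)) (fun y => r (E'.π y)) hq (fun l => by
      obtain ⟨y, hy⟩ := E₁.surj l
      exact ⟨y, (hrr y).trans hy⟩) (fun y y' => by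
      show r (E'.π y) = r (E'.π y') ↔ _
      rw [hrr, hrr]
      constructor
      · intro h
        obtain ⟨n, hn⟩ := (E₁.ker (y⁻¹ * y')).1 (by
          rw [map_mul, map_inv, h, inv_mul_cancel])
        refine ⟨n, ?_⟩
        rw [XF_zpow, ← hn, mul_inv_cancel_left]
      · rintro ⟨n, rfl⟩
        rw [XF_zpow, map_mul, (E₁.ker _).2 ⟨n, rfl⟩, mul_one])
  let b₁ : PX p C C ⟶ Rep.res E'.π (Rep.res r (PX p L' L')) := PXm p (fun y => r (E'.π y)) hq
  have hb1 : b₁.hom (Finsupp.single (1 : C) (1 : ZMod p) : C →₀ ZMod p) =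
      (Finsupp.single (1 : L') (1 : ZMod p) : L' →₀ ZMod p) := by
    refine (PXm_hom p (fun y => r (E'.π y)) hq _).trans ?_
    rw [Finsupp.mapDomain_single]
    show (Finsupp.single (r (E'.π 1)) 1 : L' →₀ ZMod p) = _
    rw [h1]
  refine XP_main E' p c' hc0' hC1 hC2 hC3 (Rep.res r (PX p L' L')) M₂ hK1 hK j q w₂ hB E₁.t hp
    b₁ w hS (PXo p (Rep.res E'.π M₂) hK m) ?_ ?_ N hN hpar x
  · refine XF_ext p _ _ ?_
    refine Eq.trans ?_ hb1.symm
    show q.hom ((PXo p (Rep.res E'.π M₂) hK m).hom (Finsupp.single (1 : C) (1 : ZMod p))) = _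
    exact (congrArg q.hom (XF_po1 p (Rep.res E'.π M₂) hK m)).trans hm1
  · refine XF_ext p _ _ ?_
    refine (XF_po2 p E₁.t (Rep.res E'.π M₂) hK m).trans (Eq.trans hm2 ?_)
    show _ = j.hom (b₁.hom (Finsupp.single (1 : C) (1 : ZMod p) : C →₀ ZMod p))
    exact congrArg j.hom hb1.symm

/-- part (b) of the header: vanishing for `C0` -/
theorem XF_b (p : ℕ) [Fact p.Prime] {H L C L' : Type} [Group H] [Group L] [Group C] [Group L'] (E : CX H L)
    (u : E.Y0 p) (i : C →* H)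
    (hi : Function.Injective i) (hr : ∀ x : H, (∃ c, i c = x) ↔ x * u.1 = u.1 * x)
    (E₁ : CX C L') (h₁ : i E₁.t = u.1) (c : ℕ) (hc0 : 1 ≤ c)
    (hH1 : CD (ZMod p) H (c + 1)) (hH2 : hc p H c = p) (hH3 : ∀ j, j ≠ c → hc p H j = 1)
    (r : MulAction.stabilizer L u →* L')
    (hr2 : ∀ (c : C) (s : MulAction.stabilizer L u), (s : L) = E.π (i c) → r s = E₁.π c)
    (U : MulAction.stabilizer L u) (hU : (U : L) = E.π u.1)
    (M₂ : Rep.{0} ℤ (MulAction.stabilizer L u))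
    (j : Rep.res r (PX p L' L') ⟶ M₂) (q : M₂ ⟶ Rep.res r (PX p L' L')) (w₂ : j ≫ q = 0)
    (hK : Kp p M₂) (hK1 : Kp p (Rep.res r (PX p L' L')))
    (hB : (ShortComplex.mk j q w₂).ShortExact) (m : M₂.V)
    (hm1 : (q.hom m : L' →₀ ZMod p) = Finsupp.single 1 1)
    (hm2 : M₂.ρ U m - m =
      j.hom (Finsupp.single (1 : L') (1 : ZMod p) : L' →₀ ZMod p)) (N : ℕ) (hN : c ≤ N + 1)
    (hpar : (N + 1) % 2 = c % 2)
    (x : Ext (tz L) (C0 (MulAction.stabilizer L u) M₂) N) :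
    x.comp (Ext.mk₀ (C0m (MulAction.stabilizer L u) q)) (add_zero N) = 0 := by
  obtain ⟨φ, hφ⟩ := XI_main E p u i hi hr E₁ h₁ r hr2
  have hq : ∀ (g y : H), (QuotientGroup.mk (g • y) : H ⧸ Subgroup.zpowers u.1) =
      g • (QuotientGroup.mk y : H ⧸ Subgroup.zpowers u.1) := fun g y => rfl
  obtain ⟨w, hS⟩ := SV_main p (K := H) (Y := H) (Z := H ⧸ Subgroup.zpowers u.1)
    (Equiv.mulRight u.1)
    (fun g y => mul_assoc g y u.1) (fun n y h => by
      rw [XF_zpow] at h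
      exact Gp_inf E p u n (mul_eq_left.1 h)) (fun y => QuotientGroup.mk y) hq
      (QuotientGroup.mk_surjective) (fun y y' => by
      show (QuotientGroup.mk y : H ⧸ Subgroup.zpowers u.1) = QuotientGroup.mk y' ↔ _
      rw [QuotientGroup.eq, Subgroup.mem_zpowers_iff]
      constructor
      · rintro ⟨n, hn⟩
        refine ⟨n, ?_⟩
        rw [XF_zpow, hn, mul_inv_cancel_left]
      · rintro ⟨n, rfl⟩
        refine ⟨n, ?_⟩
        rw [XF_zpow, inv_mul_cancel_left])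
  let b₀ : PX p H H ⟶ PX p H (H ⧸ Subgroup.zpowers u.1) := PXm p (fun y => QuotientGroup.mk y) hq
  let b₁ : PX p H H ⟶ Rep.res E.π (C0 (MulAction.stabilizer L u) (Rep.res r (PX p L' L'))) :=
    b₀ ≫ φ.symm.hom
  have w0 : (rmu p u.1 - 𝟙 _) ≫ b₀ = 0 := w
  have w' : (rmu p u.1 - 𝟙 _) ≫ b₁ = 0 := by
    show (rmu p u.1 - 𝟙 _) ≫ b₀ ≫ φ.symm.hom = 0
    rw [← Category.assoc, w0, zero_comp]
  have hS' : (ShortComplex.mk (rmu p u.1 - 𝟙 _) b₁ w').ShortExact :=
    XF_iso _ b₀ w hS φ.symm w'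
  have hb1 : b₁.hom (Finsupp.single (1 : H) (1 : ZMod p) : H →₀ ZMod p) =
      dlt (MulAction.stabilizer L u) (Rep.res r (PX p L' L'))
        (Finsupp.single (1 : L') (1 : ZMod p) : L' →₀ ZMod p) := by
    refine Eq.trans ?_ hφ
    show φ.inv.hom (Finsupp.mapDomain (fun y : H => (QuotientGroup.mk y :
      H ⧸ Subgroup.zpowers u.1)) (Finsupp.single (1 : H) (1 : ZMod p))) = _
    rw [Finsupp.mapDomain_single]
  have hK2 : Kp p (C0 (MulAction.stabilizer L u) M₂) := C0_kp _ M₂ p hK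
  have hB' : (ShortComplex.mk (C0m (MulAction.stabilizer L u) j)
      (C0m (MulAction.stabilizer L u) q)
      (XC_w (MulAction.stabilizer L u) (ShortComplex.mk j q w₂))).ShortExact :=
    XC_ses (MulAction.stabilizer L u) (ShortComplex.mk j q w₂) hB
  have hd : (C0 (MulAction.stabilizer L u) M₂).ρ (E.π u.1)
      (dlt (MulAction.stabilizer L u) M₂ m) - dlt (MulAction.stabilizer L u) M₂ m =
      dlt (MulAction.stabilizer L u) M₂
        (j.hom (Finsupp.single (1 : L') (1 : ZMod p) : L' →₀ ZMod p)) := by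
    rw [← hU, dlt_ρ, ← hm2, sub_eq_iff_eq_add, ← dlt_add, sub_add_cancel]
  refine XP_main E p c hc0 hH1 hH2 hH3 _ _ (C0_kp _ _ p hK1) hK2 _ _ _ hB' u.1 u.2
    b₁ w' hS' (PXo p (Rep.res E.π (C0 (MulAction.stabilizer L u) M₂)) hK2
      (dlt (MulAction.stabilizer L u) M₂ m)) ?_ ?_ N hN hpar x
  · refine XF_ext p _ _ ?_
    refine Eq.trans ?_ hb1.symm
    show (C0m (MulAction.stabilizer L u) q).hom
      ((PXo p (Rep.res E.π (C0 (MulAction.stabilizer L u) M₂)) hK2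
      (dlt (MulAction.stabilizer L u) M₂ m)).hom (Finsupp.single (1 : H) (1 : ZMod p))) = _
    refine (congrArg (C0m (MulAction.stabilizer L u) q).hom
      (XF_po1 p (Rep.res E.π (C0 (MulAction.stabilizer L u) M₂)) hK2
        (dlt (MulAction.stabilizer L u) M₂ m))).trans ?_
    refine (dlt_m (MulAction.stabilizer L u) q m).trans ?_
    exact congrArg (dlt (MulAction.stabilizer L u) (Rep.res r (PX p L' L'))) hm1
  · refine XF_ext p _ _ ?_
    refine (XF_po2 p u.1 (Rep.res E.π (C0 (MulAction.stabilizer L u) M₂)) hK2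
        (dlt (MulAction.stabilizer L u) M₂ m)).trans (Eq.trans hd ?_)
    show _ = (C0m (MulAction.stabilizer L u) j).hom
      (b₁.hom (Finsupp.single (1 : H) (1 : ZMod p) : H →₀ ZMod p))
    refine Eq.trans ?_ (congrArg (C0m (MulAction.stabilizer L u) j).hom hb1).symm
    exact (dlt_m (MulAction.stabilizer L u) j _).symm

/-- part (b) of the header: from `C0` to the stabiliser -/
theorem XF_c (p : ℕ) [Fact p.Prime] {H L : Type} [Group H] [Group L] (E : CX H L) (n : ℕ)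
    (hH : CD (ZMod p) H n) (u : E.Y0 p) (M₂ B : Rep.{0} ℤ (MulAction.stabilizer L u))
    (q : M₂ ⟶ B) (hK : Kp p M₂) (N : ℕ) (hN : 2 * n + 4 ≤ N)
    (h : ∀ x : Ext (tz L) (C0 (MulAction.stabilizer L u) M₂) N,
      x.comp (Ext.mk₀ (C0m (MulAction.stabilizer L u) q)) (add_zero N) = 0)
    (x : Ext (tz (MulAction.stabilizer L u)) M₂ N) : x.comp (Ext.mk₀ q) (add_zero N) = 0 := by
  obtain ⟨x', hx'⟩ := (SH_main E p n hH u M₂ hK N hN).2 x
  have hx'' : (In (MulAction.stabilizer L u).subtype x').comp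
        (Ext.mk₀ (c0ev (MulAction.stabilizer L u) M₂)) (add_zero N) = x := hx'
  rw [← hx'', Ext.comp_assoc _ _ _ (add_zero N) (add_zero 0) (by omega), Ext.mk₀_comp_mk₀,
    ← C0_nat, ← Ext.mk₀_comp_mk₀,
    ← Ext.comp_assoc _ _ _ (add_zero N) (add_zero 0) (by omega), ← In_nat, h x', In_zero,
    Ext.zero_comp]

theorem XF_main {H L C L' : Type} [Group H] [Group L] [Group C] [Group L'] (E : CX H L)
    (p : ℕ) [Fact p.Prime] (hp2 : p ≠ 2) (n : ℕ)
    (hH : CD (ZMod p) H n) (u : H) (hu : u ^ p = E.t) (i : C →* H)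
    (hi : Function.Injective i) (hr : ∀ x : H, (∃ c, i c = x) ↔ x * u = u * x)
    (E₁ : CX C L') (h₁ : i E₁.t = u) (c c' : ℕ) (hc0 : 1 ≤ c) (hc0' : 1 ≤ c')
    (hH1 : CD (ZMod p) H (c + 1)) (hH2 : hc p H c = p) (hH3 : ∀ j, j ≠ c → hc p H j = 1)
    (hC1 : CD (ZMod p) C (c' + 1)) (hC2 : hc p C c' = p) (hC3 : ∀ j, j ≠ c' → hc p C j = 1) :
    c % 2 = c' % 2 := by
  by_contra hne
  have hpp : p.Prime := Fact.out
  let u₀ : E.Y0 p := ⟨u, hu⟩
  obtain ⟨E', r, hπ, hti, hp, hrr⟩ := GX_main E p u₀ i hi hr E₁ h₁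
  have hr2 : ∀ (c : C) (s : MulAction.stabilizer L u₀), (s : L) = E.π (i c) → r s = E₁.π c := by
    intro a s hs
    have h1 : s = E'.π a := Subtype.ext (hs.trans (hπ a).symm)
    rw [h1, hrr]
  obtain ⟨U, hUd⟩ : ∃ U, U = E'.π E₁.t := ⟨_, rfl⟩
  have hU3 : U ^ p = 1 := by
    rw [hUd, ← map_pow, hp]
    exact (E'.ker _).2 ⟨1, (zpow_one _).symm⟩
  have hpow : ∀ k : ℤ, E'.π (E₁.t ^ ((p : ℤ) * k)) = 1 := by
    intro k
    refine (E'.ker _).2 ⟨k, ?_⟩
    rw [zpow_mul, zpow_natCast, hp]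
  have hU1 : U ≠ 1 := by
    intro h
    rw [hUd] at h
    obtain ⟨k, hk⟩ := (E'.ker _).1 h
    rw [← hp] at hk
    have h3 : E₁.t ^ ((p : ℤ) * k - 1) = 1 := by
      have h4 : (E₁.t ^ p) ^ k = E₁.t ^ ((p : ℤ) * k) := by
        rw [zpow_mul, zpow_natCast]
      rw [zpow_sub, zpow_one, ← h4, ← hk, mul_inv_cancel]
    have h5 := E₁.inf _ h3
    have h6 : (p : ℤ) ∣ 1 := ⟨k, by linarith⟩
    have h7 : p ∣ 1 := by exact_mod_cast h6
    exact hpp.one_lt.ne' (Nat.dvd_one.1 h7)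
  have hrU : r U = 1 := by
    rw [hUd, hrr]
    exact (E₁.ker _).2 ⟨1, (zpow_one _).symm⟩
  have hk : ∀ s s' : MulAction.stabilizer L u₀, r s = r s' ↔ ∃ n : ℕ, s * U ^ n = s' := by
    intro s s'
    constructor
    · intro h
      obtain ⟨a, rfl⟩ := E'.surj s
      obtain ⟨a', rfl⟩ := E'.surj s'
      rw [hrr, hrr] at h
      obtain ⟨k, hk⟩ := (E₁.ker (a⁻¹ * a')).1 (by rw [map_mul, map_inv, h, inv_mul_cancel])
      have h1 : a' = a * E₁.t ^ k := by rw [← hk, mul_inv_cancel_left]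
      have hp0 : (p : ℤ) ≠ 0 := by exact_mod_cast hpp.ne_zero
      obtain ⟨m, hm⟩ := Int.eq_ofNat_of_zero_le (Int.emod_nonneg k hp0)
      have h2 : E₁.t ^ k = E₁.t ^ ((p : ℤ) * (k / p)) * E₁.t ^ m := by
        rw [← zpow_natCast E₁.t m, ← hm, ← zpow_add, Int.mul_ediv_add_emod]
      refine ⟨m, ?_⟩
      rw [h1, map_mul, h2, map_mul, hpow, one_mul, map_pow, hUd]
    · rintro ⟨m, rfl⟩
      rw [map_mul, map_pow, hrU, one_pow, mul_one]
  have hrs : Function.Surjective r := by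
    intro l
    obtain ⟨a, ha⟩ := E₁.surj l
    exact ⟨E'.π a, (hrr a).trans ha⟩
  obtain ⟨M₂, M₃, j, q, w, j₃, q₃, w₃, f, hK, hB, hB₃, hf1, hf2, m, hm1, hm2⟩ :=
    XF_alg p hp2 r hrs U hU3 hU1 hk
  have hK1 : Kp p (Rep.res r (PX p L' L')) := by
    intro x
    change L' →₀ ZMod p at x
    show p • x = 0
    ext l
    show p • x l = 0
    rw [← Nat.cast_smul_eq_nsmul (ZMod p)]
    show ((p : ℕ) : ZMod p) • x l = 0
    have : ((p : ℕ) : ZMod p) = 0 := ZMod.natCast_self p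
    rw [this, zero_smul]
  have hUL : (U : L) = E.π u₀.1 := by
    rw [hUd, hπ, h₁]
  have hfin : ∀ j, Finite (Ext (tz C) (PX p C C) j) := by
    intro j
    refine Nat.finite_of_card_ne_zero ?_
    by_cases hj : j = c'
    · rw [hj]
      have h1 : Nat.card (Ext (tz C) (PX p C C) c') = p := hC2
      rw [h1]
      exact hpp.ne_zero
    · have h1 : Nat.card (Ext (tz C) (PX p C C) j) = 1 := hC3 j hj
      rw [h1]
      exact one_ne_zero
  refine XR_main E' E₁ r hrr p hp (c' + 1) hC1 hfin c' (by rw [hC2]; exact hpp.one_lt.ne')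
    M₂ M₃ j q w j₃ q₃ w₃ f hB hB₃ hf1 hf2 (2 * n + 4 + c + c') ?_
  intro N hN x
  by_cases hpar : (N + 1) % 2 = c' % 2
  · exact XF_a p E' E₁ r hrr hp c' hc0' hC1 hC2 hC3 M₂ j q w hK hK1 hB m hm1 (by
      rw [← hUd]
      exact hm2) N (by omega) hpar x
  · exact XF_c p E n hH u₀ M₂ _ q hK N (by omega) (XF_b p E u₀ i hi hr E₁ h₁ c hc0 hH1 hH2 hH3 r hr2
      U hUL M₂ j q w hK hK1 hB m hm1 hm2 N (by omega) (by omega)) x

end Pool.Agent.H5.PD
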