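import Pool.Agent.H5.PD.VM
import Pool.Agent.H5.PD.XF

/-!
Module VA (row PDVA).  `XF_alg` (XF.lean) for the prime `2` and an element `V` of order `4`.  Copy the proof of `XF_alg`, with `VM_main` in place of `XM_main`: `G = St`, `Y = St`, `σ = Equiv.mulRight V` (`σ^4 = 1` by `hV`, `σ² y = y V² ≠ y`), `Z = L' ⧸ ⟨r V⟩` with the action of `St` through `r`, `b s = mk (r s)`:
 onto; `b s = b s' ↔ (r s)⁻¹ (r s') ∈ ⟨r V⟩ ↔ ∃ n, s * V ^ n = s'` (`hk`; `r V ^ 2 = 1`, so every power is `1` or `r V`).  `PX 2 St Z` for this action is `Rep.res r (PX 2 L' Z)` by `rfl`.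
-/

namespace Pool.Agent.H5.PD

open CategoryTheory CategoryTheory.Abelian CategoryTheory.Limits Pool.Agent.H5.CP
  Pool.Agent.H75.CP Pool.Agent.H5.ZP

theorem VA_main {St L' : Type} [Group St] [Group L']
    (r : St →* L') (hr : Function.Surjective r) (V : St) (hV : V ^ 4 = 1) (hV1 : V ^ 2 ≠ 1)
    (hk : ∀ s s' : St, r s = r s' ↔ ∃ n : ℕ, s * (V ^ 2) ^ n = s') :
    ∃ (M₂ M₃ : Rep.{0} ℤ St) (j : Rep.res r (PX 2 L' (L' ⧸ Subgroup.zpowers (r V))) ⟶ M₂)
      (q : M₂ ⟶ Rep.res r (PX 2 L' (L' ⧸ Subgroup.zpowers (r V)))) (w : j ≫ q = 0)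
      (j₃ : M₂ ⟶ M₃) (q₃ : M₃ ⟶ Rep.res r (PX 2 L' (L' ⧸ Subgroup.zpowers (r V))))
      (w₃ : j₃ ≫ q₃ = 0) (f : M₃ ⟶ M₂), Kp 2 M₂ ∧
      (ShortComplex.mk j q w).ShortExact ∧ (ShortComplex.mk j₃ q₃ w₃).ShortExact ∧
      f ≫ q = q₃ ∧ j₃ ≫ f = q ≫ j ∧
      ∃ m : M₂.V, (q.hom m : (L' ⧸ Subgroup.zpowers (r V)) →₀ ZMod 2) =
          Finsupp.single (QuotientGroup.mk (1 : L')) 1 ∧
        M₂.ρ V m - m = j.hom (Finsupp.single (QuotientGroup.mk (1 : L')) (1 : ZMod 2) :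
          (L' ⧸ Subgroup.zpowers (r V)) →₀ ZMod 2) := by
  let _ : MulAction St (L' ⧸ Subgroup.zpowers (r V)) := MulAction.compHom _ r
  have hpow : ∀ (n : ℕ) (y : St), ((Equiv.mulRight V) ^ n) y = y * V ^ n := by
    intro n y
    rw [Equiv.pow_mulRight]
    rfl
  obtain ⟨b, hbd⟩ : ∃ b : St → L' ⧸ Subgroup.zpowers (r V), ∀ s, b s = QuotientGroup.mk (r s) :=
    ⟨_, fun _ => rfl⟩
  have hb : ∀ (g y : St), b (g • y) = g • b y := by
    intro g y
    rw [hbd, hbd]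
    show (QuotientGroup.mk (r (g * y)) : L' ⧸ Subgroup.zpowers (r V)) = QuotientGroup.mk (r g * r y)
    rw [map_mul]
  have hs : Function.Surjective b := by
    intro z
    obtain ⟨l, rfl⟩ := QuotientGroup.mk_surjective z
    obtain ⟨s, rfl⟩ := hr l
    exact ⟨s, hbd s⟩
  have hfib : ∀ y y' : St, b y = b y' ↔ ∃ n : ℕ, ((Equiv.mulRight V) ^ n) y = y' := by
    intro y y'
    rw [hbd, hbd, QuotientGroup.eq, Subgroup.mem_zpowers_iff]
    constructor
    · rintro ⟨k, hk1⟩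
      obtain ⟨m, hm⟩ := Int.eq_ofNat_of_zero_le (Int.emod_nonneg k (by norm_num : (4 : ℤ) ≠ 0))
      have h1 : V ^ k = V ^ m := by
        have h2 : k = 4 * (k / 4) + m := by
          rw [← hm, Int.mul_ediv_add_emod]
        rw [h2, zpow_add, zpow_mul, zpow_natCast]
        have h3 : V ^ (4 : ℤ) = 1 := by
          have h4 := hV
          rw [← zpow_natCast] at h4
          exact_mod_cast h4
        rw [h3, one_zpow, one_mul]
      have h2 : r (y * V ^ m) = r y' := by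
        rw [map_mul, ← h1, map_zpow, hk1, mul_inv_cancel_left]
      obtain ⟨n, hn⟩ := (hk _ _).1 h2
      refine ⟨m + 2 * n, ?_⟩
      rw [hpow, ← hn, pow_add, pow_mul, mul_assoc]
    · rintro ⟨n, hn⟩
      rw [hpow] at hn
      refine ⟨n, ?_⟩
      rw [← hn, map_mul, map_pow, inv_mul_cancel_left, zpow_natCast]
  obtain ⟨M₂, M₃, c₂, j, q, w, j₃, q₃, w₃, f, hK, hB, hB₃, hf1, hf2, hc1, hc2⟩ :=
    VM_main (G := St) (Y := St) (Z := L' ⧸ Subgroup.zpowers (r V))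
    (Equiv.mulRight V) (fun g y => mul_assoc g y V) (fun y => by rw [hpow, hV, mul_one])
    (fun y h => by
      rw [hpow] at h
      exact hV1 (mul_eq_left.1 h)) b hb hs hfib
  have hr1 : b 1 = QuotientGroup.mk (1 : L') := by
    rw [hbd, map_one]
  have e0 : (PXm 2 b hb).hom (Finsupp.single (1 : St) (1 : ZMod 2) : St →₀ ZMod 2) =
      (Finsupp.single (QuotientGroup.mk (1 : L')) (1 : ZMod 2) :
        (L' ⧸ Subgroup.zpowers (r V)) →₀ ZMod 2) := by
    refine (PXm_hom 2 b hb _).trans ?_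
    rw [Finsupp.mapDomain_single, hr1]
  refine ⟨M₂, M₃, j, q, w, j₃, q₃, w₃, f, hK, hB, hB₃, hf1, hf2,
    c₂.hom (Finsupp.single (1 : St) (1 : ZMod 2) : St →₀ ZMod 2), ?_, ?_⟩
  · exact (congrArg (fun φ : PX 2 St St ⟶ PX 2 St (L' ⧸ Subgroup.zpowers (r V)) =>
      φ.hom (Finsupp.single (1 : St) (1 : ZMod 2) : St →₀ ZMod 2)) hc1).trans e0
  · have e1 : ((PX 2 St St).ρ V (Finsupp.single (1 : St) (1 : ZMod 2) : St →₀ ZMod 2) :
        St →₀ ZMod 2) = Finsupp.single V 1 := by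
      rw [PX_ρ, Finsupp.mapDomain_single]
      show (Finsupp.single (V * 1) 1 : St →₀ ZMod 2) = _
      rw [mul_one]
    have e2 : ((PXm 2 (Equiv.mulRight V) (fun g y => mul_assoc g y V) - 𝟙 (PX 2 St St)).hom
        (Finsupp.single (1 : St) (1 : ZMod 2) : St →₀ ZMod 2) : St →₀ ZMod 2) =
        Finsupp.single V 1 - Finsupp.single 1 1 := by
      show (Finsupp.mapDomain (Equiv.mulRight V) (Finsupp.single (1 : St) (1 : ZMod 2)) :
        St →₀ ZMod 2) - Finsupp.single (1 : St) (1 : ZMod 2) = _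
      rw [Finsupp.mapDomain_single]
      show (Finsupp.single (1 * V) 1 : St →₀ ZMod 2) - Finsupp.single (1 : St) (1 : ZMod 2) = _
      rw [one_mul]
      rfl
    have e3 := congrArg (fun φ : PX 2 St St ⟶ M₂ =>
      φ.hom (Finsupp.single (1 : St) (1 : ZMod 2) : St →₀ ZMod 2)) hc2
    have e4 : c₂.hom (Finsupp.single V (1 : ZMod 2) - Finsupp.single (1 : St) (1 : ZMod 2) :
        St →₀ ZMod 2) = j.hom (Finsupp.single (QuotientGroup.mk (1 : L')) (1 : ZMod 2) :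
          (L' ⧸ Subgroup.zpowers (r V)) →₀ ZMod 2) :=
      (congrArg c₂.hom e2).symm.trans (e3.trans (congrArg j.hom e0))
    refine Eq.trans ?_ e4
    refine Eq.trans ?_ (map_sub c₂.hom _ _).symm
    refine congrArg₂ (· - ·) ?_ rfl
    exact (Rep.hom_comm_apply c₂ V _).symm.trans (congrArg c₂.hom e1)

end Pool.Agent.H5.PD
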