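import Pool.Agent.H5.PD.XM

/-!
Module VM (row PDVM).  `XM_main` for the prime `2` and a free action of a cyclic group of order `4`.  `σ^4 = 1`, `σ² y ≠ y`.  Read XM.lean first and reuse its lemmas: the only changes are:
* `XM_Nim` is replaced by: with `N x = Σ_{i<4} (σ^i)_* x` (`XM_N` with `Finset.range 4`; `XM_N p σ` has `range p`, so define the `4`-version) one has `τ (τ (τ x)) = N x` over `ZMod 2` (`τ = σ_* - 1`, `(σ-1)³ = σ³ - 3σ² + 3σ - 1 = σ³ + σ² + σ + 1` in characteristic `2`; check on `single`), so `N x` is of the form `τ (τ u)`;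
* `XM_orb`/`XM_N_apply` for the `4`-element orbits: `(σ^m) y = (σ^n) y ↔ m % 4 = n % 4` (the minimal period of `σ` at `y` divides `4` and does not divide `2`), `N x y = (mapDomain b x) (b y)`;
* then `XM_F2` (same proof) and `XM_main` (same proof, from `XM_abs`, `XM_F1`, `XM_bt`).
-/

namespace Pool.Agent.H5.PD

open CategoryTheory CategoryTheory.Abelian CategoryTheory.Limits Pool.Agent.H5.CP
  Pool.Agent.H75.CP Pool.Agent.H5.ZP

theorem VM_two {Y : Type} (x : Y →₀ ZMod 2) : x + x = 0 := by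
  ext y
  exact CharTwo.add_self_eq_zero (x y)

/-- the norm `1 + σ_* + σ_*^2 + σ_*^3` -/
noncomputable def VM_N {Y : Type} (σ : Equiv.Perm Y) (x : Y →₀ ZMod 2) : Y →₀ ZMod 2 :=
  ∑ i ∈ Finset.range 4, Finsupp.mapDomain (fun y => (σ ^ i) y) x

theorem VM_N_zero {Y : Type} (σ : Equiv.Perm Y) : VM_N σ 0 = 0 := by
  unfold VM_N
  exact Finset.sum_eq_zero fun i _ => Finsupp.mapDomain_zero

theorem VM_N_add {Y : Type} (σ : Equiv.Perm Y) (x y : Y →₀ ZMod 2) :
    VM_N σ (x + y) = VM_N σ x + VM_N σ y := by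
  unfold VM_N
  rw [← Finset.sum_add_distrib]
  exact Finset.sum_congr rfl fun i _ => Finsupp.mapDomain_add

theorem VM_N_single {Y : Type} (σ : Equiv.Perm Y) (y : Y) (a : ZMod 2) :
    VM_N σ (Finsupp.single y a) = ∑ i ∈ Finset.range 4, Finsupp.single ((σ ^ i) y) a := by
  unfold VM_N
  exact Finset.sum_congr rfl fun i _ => Finsupp.mapDomain_single

theorem VM_Nim {Y : Type} (σ : Equiv.Perm Y) (x : Y →₀ ZMod 2) :
    ∃ u, XM_t 2 σ (XM_t 2 σ u) = VM_N σ x := by
  induction x using Finsupp.induction_linear with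
  | zero => exact ⟨0, by rw [VM_N_zero, map_zero, map_zero]⟩
  | add a c ha hc =>
    obtain ⟨u, hu⟩ := ha
    obtain ⟨v, hv⟩ := hc
    exact ⟨u + v, by rw [map_add, map_add, hu, hv, VM_N_add]⟩
  | single y a =>
    refine ⟨XM_t 2 σ (Finsupp.single y a), ?_⟩
    have h1 : ∀ i : ℕ, XM_t 2 σ (Finsupp.single ((σ ^ i) y) a) =
        Finsupp.single ((σ ^ (i + 1)) y) a - Finsupp.single ((σ ^ i) y) a := by
      intro i
      rw [XM_t_single, pow_succ']
      rfl
    have h0 : Finsupp.single y a = Finsupp.single ((σ ^ 0) y) a := by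
      rw [pow_zero, Equiv.Perm.one_apply]
    have e0 := VM_two (Finsupp.single ((σ ^ 0) y) a)
    have e1 := VM_two (Finsupp.single ((σ ^ 1) y) a)
    have e2 := VM_two (Finsupp.single ((σ ^ 2) y) a)
    rw [VM_N_single, Finset.sum_range_succ, Finset.sum_range_succ, Finset.sum_range_succ,
      Finset.sum_range_one]
    conv_lhs => rw [h0]
    simp only [h1, map_sub, zero_add, Nat.reduceAdd]
    generalize Finsupp.single ((σ ^ 0) y) a = s0 at *
    generalize Finsupp.single ((σ ^ 1) y) a = s1 at *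
    generalize Finsupp.single ((σ ^ 2) y) a = s2 at *
    generalize Finsupp.single ((σ ^ 3) y) a = s3 at *
    have h2 : s3 - s2 - (s2 - s1) - (s2 - s1 - (s1 - s0)) =
        s0 + s1 + s2 + s3 - (s0 + s0) + (s1 + s1) - (s2 + s2) - (s2 + s2) := by abel
    rw [h2, e0, e1, e2]
    simp only [sub_zero, add_zero]

theorem VM_orb {Y : Type} (σ : Equiv.Perm Y)
    (hord : ∀ y, (σ ^ 4) y = y) (hfree : ∀ y, (σ ^ 2) y ≠ y) (y : Y) (m n : ℕ) :
    (σ ^ m) y = (σ ^ n) y ↔ m % 4 = n % 4 := by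
  have h1 : Function.minimalPeriod σ y = 4 := by
    have h2 : Function.minimalPeriod σ y ∣ 4 := by
      rw [← Function.isPeriodicPt_iff_minimalPeriod_dvd]
      show σ^[4] y = y
      rw [Equiv.Perm.iterate_eq_pow]
      exact hord y
    have h3 : ¬ Function.minimalPeriod σ y ∣ 2 := by
      rw [← Function.isPeriodicPt_iff_minimalPeriod_dvd]
      intro h
      have h4 : σ^[2] y = y := h
      rw [Equiv.Perm.iterate_eq_pow] at h4
      exact hfree y h4
    have h5 := Nat.le_of_dvd (by norm_num) h2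
    generalize Function.minimalPeriod σ y = d at h2 h3 h5 ⊢
    interval_cases d
    · exact absurd h2 (by norm_num)
    · exact absurd (by norm_num) h3
    · exact absurd (by norm_num) h3
    · exact absurd h2 (by norm_num)
    · rfl
  rw [← Equiv.Perm.iterate_eq_pow, ← Equiv.Perm.iterate_eq_pow]
  rw [← Function.iterate_mod_minimalPeriod_eq (f := σ) (x := y) (n := m),
    ← Function.iterate_mod_minimalPeriod_eq (f := σ) (x := y) (n := n), h1]
  have hp : 0 < 4 := by norm_num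
  exact Function.iterate_eq_iterate_iff_of_lt_minimalPeriod (by rw [h1]; exact Nat.mod_lt _ hp)
    (by rw [h1]; exact Nat.mod_lt _ hp)

theorem VM_N_apply {Y Z : Type} (σ : Equiv.Perm Y)
    (hord : ∀ y, (σ ^ 4) y = y) (hfree : ∀ y, (σ ^ 2) y ≠ y) (b : Y → Z)
    (hfib : ∀ y y' : Y, b y = b y' ↔ ∃ n : ℕ, (σ ^ n) y = y')
    (x : Y →₀ ZMod 2) (y : Y) : VM_N σ x y = Finsupp.mapDomain b x (b y) := by
  classical
  induction x using Finsupp.induction_linear with
  | zero => rw [VM_N_zero, Finsupp.mapDomain_zero]; rfl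
  | add u v hu hv =>
    rw [VM_N_add, Finsupp.mapDomain_add, Finsupp.add_apply, Finsupp.add_apply, hu, hv]
  | single u a =>
    rw [VM_N_single, Finsupp.mapDomain_single, Finsupp.single_apply, Finsupp.finsetSum_apply]
    have hp : 0 < 4 := by norm_num
    by_cases h : b u = b y
    · rw [if_pos h]
      obtain ⟨n, rfl⟩ := (hfib u y).1 h
      rw [Finset.sum_eq_single_of_mem (n % 4) (Finset.mem_range.2 (Nat.mod_lt _ hp))]
      · rw [Finsupp.single_apply, if_pos]
        rw [VM_orb σ hord hfree, Nat.mod_mod]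
      · intro i hi hin
        rw [Finsupp.single_apply, if_neg]
        rw [VM_orb σ hord hfree, Nat.mod_eq_of_lt (Finset.mem_range.1 hi)]
        exact hin
    · rw [if_neg h]
      refine Finset.sum_eq_zero fun i _ => ?_
      rw [Finsupp.single_apply, if_neg]
      exact fun h' => h ((hfib u y).2 ⟨i, h'⟩)

theorem VM_F2 {Y Z : Type} (σ : Equiv.Perm Y)
    (hord : ∀ y, (σ ^ 4) y = y) (hfree : ∀ y, (σ ^ 2) y ≠ y) (b : Y → Z) (hs : Function.Surjective b)
    (hfib : ∀ y y' : Y, b y = b y' ↔ ∃ n : ℕ, (σ ^ n) y = y') (x : Y →₀ ZMod 2)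
    (hx : XM_t 2 σ x = 0) : ∃ u, XM_t 2 σ (XM_t 2 σ u) = x := by
  classical
  have hx1 : ∀ y, x (σ y) = x y := by
    intro y
    have h1 : Finsupp.mapDomain σ x = x := sub_eq_zero.1 hx
    have h2 := Finsupp.mapDomain_apply σ.injective x y
    rwa [h1] at h2
  have hx2 : ∀ y y', b y = b y' → x y' = x y := by
    intro y y' h
    obtain ⟨n, rfl⟩ := (hfib y y').1 h
    clear h
    induction n with
    | zero => rw [pow_zero, Equiv.Perm.one_apply]
    | succ n ih => rw [pow_succ', Equiv.Perm.mul_apply, hx1, ih]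
  obtain ⟨s, hs⟩ : ∃ s : Z → Y, ∀ z, b (s z) = z :=
    ⟨Function.surjInv hs, Function.surjInv_eq hs⟩
  have hN : VM_N σ (x.filter (fun y => s (b y) = y)) = x := by
    ext y
    rw [VM_N_apply σ hord hfree b hfib]
    -- the value of the pushforward
    have key : Finsupp.mapDomain b (x.filter (fun y => s (b y) = y)) (b y) =
        (x.filter (fun y => s (b y) = y)) (s (b y)) := by
      rw [Finsupp.mapDomain, Finsupp.sum_apply, Finsupp.sum]
      by_cases h : s (b y) ∈ (x.filter (fun y => s (b y) = y)).support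
      · rw [Finset.sum_eq_single_of_mem _ h]
        · rw [Finsupp.single_apply, if_pos (hs _)]
        · intro c hc hcy
          rw [Finsupp.single_apply, if_neg]
          intro h1
          apply hcy
          have h2 : s (b c) = c := (Finsupp.mem_support_iff.1 hc |> fun h => by
            by_contra h4
            exact h (Finsupp.filter_apply_neg _ _ h4))
          rw [← h2, h1]
      · rw [Finset.sum_eq_zero]
        · exact (Finsupp.notMem_support_iff.1 h).symm
        · intro c hc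
          rw [Finsupp.single_apply, if_neg]
          intro h1
          apply h
          have h2 : s (b c) = c := (Finsupp.mem_support_iff.1 hc |> fun h => by
            by_contra h4
            exact h (Finsupp.filter_apply_neg _ _ h4))
          rw [← h1, h2]
          exact hc
    rw [key, Finsupp.filter_apply_pos _ _ (by rw [hs])]
    exact hx2 _ _ (hs _).symm
  obtain ⟨u, hu⟩ := VM_Nim σ (x.filter (fun y => s (b y) = y))
  exact ⟨u, by rw [hu, hN]⟩

theorem VM_main {G Y Z : Type} [Group G] [MulAction G Y]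
    [MulAction G Z] (σ : Equiv.Perm Y) (hσ : ∀ (g : G) (y : Y), σ (g • y) = g • σ y)
    (hord : ∀ y, (σ ^ 4) y = y) (hfree : ∀ y, (σ ^ 2) y ≠ y) (b : Y → Z)
    (hb : ∀ (g : G) (y : Y), b (g • y) = g • b y) (hs : Function.Surjective b)
    (hfib : ∀ y y' : Y, b y = b y' ↔ ∃ n : ℕ, (σ ^ n) y = y') :
    ∃ (M₂ M₃ : Rep.{0} ℤ G) (c₂ : PX 2 G Y ⟶ M₂) (j : PX 2 G Z ⟶ M₂) (q : M₂ ⟶ PX 2 G Z)
      (w : j ≫ q = 0) (j₃ : M₂ ⟶ M₃) (q₃ : M₃ ⟶ PX 2 G Z) (w₃ : j₃ ≫ q₃ = 0) (f : M₃ ⟶ M₂),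
      Kp 2 M₂ ∧ (ShortComplex.mk j q w).ShortExact ∧ (ShortComplex.mk j₃ q₃ w₃).ShortExact ∧
        f ≫ q = q₃ ∧ j₃ ≫ f = q ≫ j ∧ c₂ ≫ q = PXm 2 b hb ∧
          (PXm 2 σ hσ - 𝟙 (PX 2 G Y)) ≫ c₂ = PXm 2 b hb ≫ j := by
  have hbσ : ∀ y, b (σ y) = b y := fun y => ((hfib y (σ y)).2 ⟨1, by rw [pow_one]⟩).symm
  have hT : ∀ x : Y →₀ ZMod 2,
      ((PXm 2 σ hσ - 𝟙 (PX 2 G Y)).hom x : Y →₀ ZMod 2) = XM_t 2 σ x := fun x => rfl
  have hB : Function.Surjective (PXm 2 b hb).hom := by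
    intro f
    change Z →₀ ZMod 2 at f
    refine ⟨(Finsupp.mapDomain (Function.surjInv hs) f : Y →₀ ZMod 2), ?_⟩
    show Finsupp.mapDomain b (Finsupp.mapDomain (Function.surjInv hs) f) = f
    rw [← Finsupp.mapDomain_comp]
    have h : b ∘ Function.surjInv hs = id := funext (Function.surjInv_eq hs)
    rw [h, Finsupp.mapDomain_id]
  obtain ⟨M₂, M₃, c₂, j, q, w, j₃, q₃, w₃, f, hc, h1, h2, h3, h4, h5, h6⟩ :=
    XM_abs (PXm 2 σ hσ - 𝟙 (PX 2 G Y)) (PXm 2 b hb) hB
      (fun x => XM_bt 2 σ b hbσ x)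
      (fun x hx => XM_F1 2 σ b hs hfib x hx)
      (fun x hx => VM_F2 σ hord hfree b hs hfib x hx)
  refine ⟨M₂, M₃, c₂, j, q, w, j₃, q₃, w₃, f, ?_, h1, h2, h3, h4, h5, h6⟩
  intro z
  obtain ⟨x, rfl⟩ := hc z
  have h7 : ∀ x : Y →₀ ZMod 2, (2 : ℕ) • x = 0 := by
    intro x
    ext y
    show (2 : ℕ) • x y = 0
    rw [two_nsmul]
    exact CharTwo.add_self_eq_zero (x y)
  have h8 : c₂.hom ((2 : ℕ) • x) = (2 : ℕ) • c₂.hom x := map_nsmul c₂.hom 2 x
  have h9 : (2 : ℕ) • x = 0 := h7 x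
  rw [← h8, h9]
  exact map_zero c₂.hom

end Pool.Agent.H5.PD
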