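import Pool.Agent.H5.PD.XP

/-!
Module VP (row PDVP).  `VP_two`: a group of order `1` or `2` has only the trivial automorphism: `x ↦ x.comp (mk₀ (rmu 2 v))` is additive and injective (inverse: `rmu 2 v⁻¹`; `XP_mul`, `XP_one`, `Ext.mk₀_comp_mk₀`), and it fixes `0`.
`VP_main`: copy of `XP_main` (XP.lean) where the hypothesis `u ^ p = E.t` is replaced by `hD` (in the proof of `XP_main` it is used only through `XP_D`, to get exactly `hD`).
-/

namespace Pool.Agent.H5.PD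

open CategoryTheory CategoryTheory.Abelian CategoryTheory.Limits Pool.Agent.H5.CP
  Pool.Agent.H75.CP Pool.Agent.H5.ZP

theorem VP_two {H : Type} [Group H] (v : H) (c : ℕ) (h : hc 2 H c = 1 ∨ hc 2 H c = 2)
    (x : Ext (tz H) (PX 2 H H) c) : x.comp (Ext.mk₀ (rmu 2 v)) (add_zero c) = x := by
  rcases h with h | h
  · unfold hc at h
    have h2 := (Nat.card_eq_one_iff_unique.1 h).1
    exact Subsingleton.elim _ _
  · unfold hc at h
    by_cases hx : x = 0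
    · rw [hx, Ext.zero_comp]
    · obtain ⟨y, -, hy⟩ := (Nat.card_eq_two_iff' (0 : Ext (tz H) (PX 2 H H) c)).1 h
      have h1 : x.comp (Ext.mk₀ (rmu 2 v)) (add_zero c) ≠ 0 := by
        intro h0
        apply hx
        have h3 : (x.comp (Ext.mk₀ (rmu 2 v)) (add_zero c)).comp (Ext.mk₀ (rmu 2 v⁻¹))
            (add_zero c) = x := by
          rw [Ext.comp_assoc _ _ _ (add_zero c) (add_zero 0) (by omega), Ext.mk₀_comp_mk₀, XP_mul,
            mul_inv_cancel, XP_one, Ext.comp_mk₀_id]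
        rw [← h3, h0, Ext.zero_comp]
      rw [hy _ h1, hy x hx]

theorem VP_main {H L : Type} [Group H] [Group L] (E : CX H L) (p : ℕ) [Fact p.Prime] (c : ℕ)
    (hc0 : 1 ≤ c) (hc1 : CD (ZMod p) H (c + 1)) (hc2 : hc p H c = p)
    (hc3 : ∀ j, j ≠ c → hc p H j = 1) (M₁ M₂ : Rep.{0} ℤ L) (hM₁ : Kp p M₁) (hM₂ : Kp p M₂)
    (j : M₁ ⟶ M₂) (q : M₂ ⟶ M₁) (w : j ≫ q = 0) (hB : (ShortComplex.mk j q w).ShortExact)
    (u : H) (hD : ∀ x : Ext (tz H) (PX p H H) c, x.comp (Ext.mk₀ (rmu p u)) (add_zero c) = x)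
    (b₁ : PX p H H ⟶ Rep.res E.π M₁)
    (w₁ : (rmu p u - 𝟙 _) ≫ b₁ = 0) (hS : (ShortComplex.mk (rmu p u - 𝟙 _) b₁ w₁).ShortExact)
    (b₂ : PX p H H ⟶ Rep.res E.π M₂) (hb : b₂ ≫ (Rep.resFunctor E.π).map q = b₁)
    (hb2 : (rmu p u - 𝟙 _) ≫ b₂ = b₁ ≫ (Rep.resFunctor E.π).map j) (N : ℕ) (hN : c ≤ N + 1)
    (hpar : (N + 1) % 2 = c % 2) (x : Ext (tz L) M₂ N) :
    x.comp (Ext.mk₀ q) (add_zero N) = 0 := by
  have hsub : ∀ x : Ext (tz H) (PX p H H) c,
      x.comp (Ext.mk₀ (rmu p u - 𝟙 _)) (add_zero c) = 0 := by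
    intro x
    have h1 := hD x
    rw [sub_eq_add_neg, Ext.mk₀_add, Ext.mk₀_neg, Ext.comp_add, Ext.comp_neg, h1,
      Ext.comp_mk₀_id, add_neg_cancel]
  have hz : ∀ j, j ≠ c → ∀ x : Ext (tz H) (PX p H H) j, x = 0 := by
    intro j hj x
    have h1 := hc3 j hj
    unfold hc at h1
    have h2 := (Nat.card_eq_one_iff_unique.1 h1).1
    exact Subsingleton.elim x 0
  -- step 2
  have h2 : ∀ j, j + 2 ≤ c → ∀ x : Ext (tz H) (Rep.res E.π M₁) j, x = 0 := by
    intro j hj x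
    obtain ⟨y, hy⟩ := Ext.covariant_sequence_exact₃ (tz H) hS x rfl
      (hz (j + 1) (by omega) _)
    rw [← hy, hz j (by omega) y, Ext.zero_comp]
  -- step 3
  obtain ⟨d, rfl⟩ : ∃ d, c = d + 1 := ⟨c - 1, by omega⟩
  let F : ShortComplex.mk (rmu p u - 𝟙 _) b₁ w₁ ⟶ (ShortComplex.mk j q w).map (Rep.resFunctor E.π) :=
    ShortComplex.homMk b₁ b₂ (𝟙 _) hb2.symm (by
      change b₂ ≫ (Rep.resFunctor E.π).map q = b₁ ≫ 𝟙 _
      rw [hb, Category.comp_id])
  have hBr : ((ShortComplex.mk j q w).map (Rep.resFunctor E.π)).ShortExact :=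
    hB.map_of_exact (Rep.resFunctor E.π)
  have hnat : hS.extClass.comp (Ext.mk₀ b₁) (add_zero 1) = hBr.extClass := by
    have h := ShortComplex.ShortExact.extClass_naturality hS hBr F
    change hS.extClass.comp (Ext.mk₀ b₁) (add_zero 1) =
      (Ext.mk₀ (𝟙 _)).comp hBr.extClass (zero_add 1) at h
    rw [Ext.mk₀_id_comp] at h
    exact h
  have h3 : ∀ x : Ext (tz H) (Rep.res E.π M₂) d,
      x.comp (Ext.mk₀ ((Rep.resFunctor E.π).map q)) (add_zero d) = 0 := by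
    intro x
    obtain ⟨y, hy⟩ : ∃ y : Ext (tz H) (Rep.res E.π M₁) d,
      y = x.comp (Ext.mk₀ ((Rep.resFunctor E.π).map q)) (add_zero d) := ⟨_, rfl⟩
    have h4 : y.comp hBr.extClass rfl = 0 := by
      rw [hy]
      exact XP_ce hBr x
    have h5 : (y.comp hS.extClass rfl).comp (Ext.mk₀ b₁) (add_zero (d + 1)) = 0 := by
      rw [Ext.comp_assoc _ _ _ rfl (add_zero 1) (by omega), hnat]
      exact h4
    obtain ⟨z, hz1⟩ := Ext.covariant_sequence_exact₂ (tz H) hS (y.comp hS.extClass rfl) h5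
    have h6 : y.comp hS.extClass rfl = 0 := by
      rw [← hz1]
      exact hsub z
    obtain ⟨v, hv⟩ := Ext.covariant_sequence_exact₃ (tz H) hS y rfl h6
    rw [← hy, ← hv, hz d (by omega) v, Ext.zero_comp]
  obtain ⟨e, hG⟩ := GC_main E
  -- step 4
  have h4 : ∀ i, i + 2 ≤ d + 1 → ∀ x : Ext (tz L) M₁ i, x = 0 := by
    intro i
    induction i using Nat.strong_induction_on with
    | _ i ih =>
      intro hi x
      have hx : In E.π x = 0 := h2 i hi _
      match i, ih, hi, x, hx with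
      | 0, ih, hi, x, hx => exact hG.a0 M₁ x hx
      | 1, ih, hi, x, hx => exact hG.a1 M₁ x hx
      | i + 2, ih, hi, x, hx =>
        obtain ⟨y, hy⟩ := hG.a2 M₁ i x hx
        rw [hy, ih i (by omega) (by omega) y, Ext.comp_zero]
  have h5 : ∀ x : Ext (tz L) M₁ d, In E.π x = 0 → x = 0 := by
    intro x hx
    match d, h4, x, hx with
    | 0, h4, x, hx => exact hG.a0 M₁ x hx
    | 1, h4, x, hx => exact hG.a1 M₁ x hx
    | i + 2, h4, x, hx =>
      obtain ⟨y, hy⟩ := hG.a2 M₁ i x hx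
      rw [hy, h4 i (by omega) y, Ext.comp_zero]
  have h6 : ∀ x : Ext (tz L) M₂ d, x.comp (Ext.mk₀ q) (add_zero d) = 0 := by
    intro x
    apply h5
    rw [In_nat, h3]
  -- step 5
  obtain ⟨k, hk⟩ : ∃ k, N = d + 2 * k := ⟨(N - d) / 2, by omega⟩
  subst hk
  clear hN hpar
  induction k with
  | zero => exact h6 x
  | succ k ih =>
    have h7 : In E.π x = 0 :=
      CZ_zero p (d + 1 + 1) hc1 (Rep.res E.π M₂) hM₂ _ (by omega) _
    obtain ⟨y, hy⟩ := hG.a2 M₂ (d + 2 * k) x h7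
    rw [hy, Ext.comp_assoc _ _ _ (add_comm 2 (d + 2 * k)) (add_zero _) (by omega), ih y,
      Ext.comp_zero]

end Pool.Agent.H5.PD
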