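import Pool.Agent.H5.PD.TP

/-!
Module XH (row PDXH).  In the level data the cohomology `H^*(H;F_pH)` is `F_p` in the top degree and `0` in the others.  `m = c + 1` here is the top degree.
`XH_zero`: if `H^m(H;F_pH) = 0` and `CD (ZMod p) H (m+1)` then `H^m(H;N) = 0` for all `N` killed by `p`: step (4) of the header of TP.lean (reuse its lemmas: `TP_tail`, `TL_sum`, `P = PX p H (Σ _ : N.V, H) → N` onto): `y = Σ (y'.comp prj_x).comp inc_x … = 0`.
`XH_main`: `hc p H m ≠ 1`, otherwise `H^m(H;F_pH) = 0` (`Nat.card = 1`), `XH_zero`, `CZ_CD` and `CZ_zero` give `CD (ZMod p) H (c+1)`, contradiction.  `H^m(H;F_pH)` is finite (`hE.fin`), killed by `p` (`PX_kp`), non-zero, so its order is a multiple of `p` (an element of order `p`, Lagrange: `addOrderOf_dvd_natCard`), and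
 it divides... the product `Π_{j < n} hc p H j ≤ p` has all factors `≥ 1`, `m < n` (`hc p H j = 1` for `j ≥ n`, `CZ_zero`), so `hc p H m = p` and all other factors are `1`.
-/

namespace Pool.Agent.H5.PD

open CategoryTheory CategoryTheory.Abelian CategoryTheory.Limits Pool.Agent.H5.CP
  Pool.Agent.H75.CP Pool.Agent.H5.ZP

theorem XH_zero {H L : Type} [Group H] [Group L] (E : CX H L) (p : ℕ) [Fact p.Prime] (n : ℕ)
    (hE : Lv p n E) (m : ℕ) (hm : CD (ZMod p) H (m + 1))
    (hd : ∀ d : Ext (tz H) (PX p H H) m, d = 0) (N : Rep.{0} ℤ H) (hN : Kp p N)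
    (x : Ext (tz H) N m) : x = 0 := by
  classical
  have hp : p.Prime := Fact.out
  have hne : NeZero p := ⟨hp.ne_zero⟩
  have hsurj : Function.Surjective (TPo p N hN).hom := by
    intro x
    refine ⟨Finsupp.single ⟨x, 1⟩ (1 : ZMod p), ?_⟩
    rw [TPo_single, map_one]
    rfl
  have hepi : Epi (TPo p N hN) := (Rep.epi_iff_surjective _).2 hsurj
  let S : ShortComplex (Rep.{0} ℤ H) :=
    ShortComplex.mk (kernel.ι (TPo p N hN)) (TPo p N hN) (kernel.condition _)
  have hS : S.ShortExact :=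
    { exact := ShortComplex.exact_kernel _
      mono_f := inferInstanceAs (Mono (kernel.ι (TPo p N hN)))
      epi_g := hepi }
  have hK : Kp p (kernel (TPo p N hN)) := by
    intro u
    have hinj := (Rep.mono_iff_injective (kernel.ι (TPo p N hN))).1 inferInstance
    apply hinj
    rw [map_nsmul, map_zero]
    exact PX_kp p H _ _
  obtain ⟨y', hy'⟩ := Ext.covariant_sequence_exact₃ (tz H) hS x (rfl : m + 1 = m + 1)
    (CZ_zero p (m + 1) hm _ hK (m + 1) le_rfl _)
  obtain ⟨F, hF, hcut⟩ := TP_tail E p n hE m N.V y'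
  obtain ⟨prj, -, hprj⟩ := TL_sum p (G := H) (X := fun _ : N.V => H)
  have hsum := hprj hF.toFinset
  rw [hF.coe_toFinset] at hsum
  rw [← hy']
  have h1 : TPc y' N (TPo p N hN) =
      TPc y' N ((cut p F + ∑ i ∈ hF.toFinset,
        prj i ≫ inc p (G := H) (X := fun _ : N.V => H) i) ≫ TPo p N hN) := by
    rw [← hsum, Category.id_comp]
  have h2 : TPc y' N (cut p F ≫ TPo p N hN) = 0 := by
    rw [TPc_apply, ← Ext.mk₀_comp_mk₀, ← Ext.comp_assoc_of_third_deg_zero, hcut, Ext.zero_comp]
  rw [Preadditive.add_comp, map_add, h2, zero_add, Preadditive.sum_comp, map_sum] at h1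
  show TPc y' N (TPo p N hN) = 0
  rw [h1]
  refine Finset.sum_eq_zero fun i _ => ?_
  rw [TPc_apply, Category.assoc, ← Ext.mk₀_comp_mk₀, ← Ext.comp_assoc_of_third_deg_zero,
    hd (y'.comp (Ext.mk₀ (prj i)) (add_zero m)), Ext.zero_comp]

theorem XH_main {H L : Type} [Group H] [Group L] (E : CX H L) (p : ℕ) [Fact p.Prime] (n : ℕ)
    (hE : Lv p n E) (c : ℕ) (h1 : CD (ZMod p) H (c + 2)) (h2 : ¬ CD (ZMod p) H (c + 1)) :
    hc p H (c + 1) = p ∧ ∀ j, j ≠ c + 1 → hc p H j = 1 := by
  have hp : p.Prime := Fact.out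
  have hpos : ∀ j, 1 ≤ hc p H j := by
    intro j
    have := hE.fin j
    exact Nat.card_pos
  have hbig : ∀ j, n ≤ j → hc p H j = 1 := by
    intro j hj
    have h3 : Subsingleton (Ext (tz H) (PX p H H) j) := by
      refine ⟨fun a b => ?_⟩
      rw [CZ_zero p n hE.cd _ (PX_kp p H H) j hj a, CZ_zero p n hE.cd _ (PX_kp p H H) j hj b]
    exact Nat.card_eq_one_iff_unique.2 ⟨h3, ⟨0⟩⟩
  have hne : ∃ d : Ext (tz H) (PX p H H) (c + 1), d ≠ 0 := by
    by_contra hcon
    push Not at hcon
    apply h2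
    refine CZ_CD p c fun N hN j hj x => ?_
    rcases Nat.eq_or_lt_of_le hj with h3 | h3
    · subst h3
      exact XH_zero E p n hE (c + 1) h1 hcon N hN x
    · exact CZ_zero p (c + 2) h1 N hN j h3 x
  obtain ⟨d, hd⟩ := hne
  have hord : addOrderOf d = p := addOrderOf_eq_prime (TP_kill p (PX_kp p H H) d) hd
  have hdvd : p ∣ hc p H (c + 1) := by
    have h3 : addOrderOf d ∣ hc p H (c + 1) := addOrderOf_dvd_natCard d
    rwa [hord] at h3
  have hlt : c + 1 < n := by
    by_contra hcon
    have h3 := hbig (c + 1) (by omega)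
    rw [h3] at hdvd
    exact hp.one_lt.ne' (Nat.dvd_one.1 hdvd)
  have hprod : 0 < ∏ j ∈ Finset.range n, hc p H j := Finset.prod_pos fun j _ => hpos j
  have hle : hc p H (c + 1) ≤ p :=
    (Nat.le_of_dvd hprod (Finset.dvd_prod_of_mem _ (Finset.mem_range.2 hlt))).trans hE.size
  have heq : hc p H (c + 1) = p := le_antisymm hle (Nat.le_of_dvd (hpos _) hdvd)
  refine ⟨heq, fun j hj => ?_⟩
  by_cases hjn : j < n
  · have h3 : hc p H j * hc p H (c + 1) ∣ ∏ j ∈ Finset.range n, hc p H j := by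
      rw [← Finset.prod_pair hj]
      refine Finset.prod_dvd_prod_of_subset _ _ _ ?_
      intro i hi
      rw [Finset.mem_insert, Finset.mem_singleton] at hi
      rw [Finset.mem_range]
      rcases hi with rfl | rfl
      · exact hjn
      · exact hlt
    have h4 := (Nat.le_of_dvd hprod h3).trans hE.size
    rw [heq] at h4
    have h5 : hc p H j ≤ 1 := by
      by_contra h6
      have h7 : 2 ≤ hc p H j := by omega
      have h8 := Nat.mul_le_mul_right p h7
      have h9 := hp.pos
      omega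
    exact le_antisymm h5 (hpos j)
  · exact hbig j (by omega)

end Pool.Agent.H5.PD
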