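import Pool.Agent.H5.PD.CH
import Pool.Agent.H5.PD.PF
import Pool.Agent.H5.PD.XF
import Pool.Agent.H5.PD.XH
import Pool.Agent.H5.PD.ZA

/-!
Module X5 (row PDX4, replaces X4).  Poincare duality groups of dimension `d ≤ 4`: roots of central elements of order a power of an odd prime are central.  Use only the STATEMENTS of the imported PD files.
`X5_top`: for `E : CX H L` with `Lv p n E`: let `m` be the least number with `CD (ZMod p) H m` (`Nat.find`, `Lv.cd`); `m ≥ 2` (`CZ_ne`, `SB_one`); `c = m - 1`; `XH_main`.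
`X5_base`: `Γ`: `BA_main` gives `n, L, E`; `X5_top` gives `c`, `hc p Γ c = p`; `BS_main`: `hc p Γ j = 1` for `j ≠ d`, so `c = d`.
`X5_par`: `CH_lv` gives `n` and, for all `k`, `Lv p n E_k` for `C k = centralizer {w (k+1)}`.  Induction on `k` with `XF_main` (step `0`: `H = Γ`, `E : CX Γ L` with `E.t = z` from `BA_main` or `CH_cx`, `u = w 1`, `i` the inclusion of `C 0`; step `k+1`: `H = C k`, `u = ⟨w (k+2), _⟩`, `i = Subgroup.inclusion`), the data of `H` from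
 `X5_base`/`X5_top` (the top degree is unique: `hc` is `p ≠ 1` there); `c ≤ d`: `CD (ZMod p) Γ (d+1)` passes to subgroups (`SubC_main`), and `¬ CD … c`.
`X5_cen`: `Ma_chain` (H5/ZP/Ma.lean; `h` gives its hypothesis) gives an injective `f : Multiplicative (Zp p) →* Γ`, `w k = f(1/p^k)`, `w 0 = z`, `w (k+1)^p = w k` (see `PF_w`, `PF_q`, `PF_mem`, `PF_ex` in PF.lean; import it or copy), `CH_main` gives `K`; `Δ = centralizer {w (K+1)} = C K`, finitely generated, all `w k` central in `Δ`;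
 `A = f.range ≤ Δ`, `A ≅ ℤ[1/p]`.  `X5_par` for `k = K`: `c ≡ d mod 2`, `1 ≤ c ≤ d ≤ 4`.
 `c = 1`: `CD (ZMod p) Δ 2`, so `CD (ZMod p) (Multiplicative (Zp p)) 2` (`CZ_inj`), contradiction to `ZA_main`.   `c = 2`: `A` (as a subgroup of `Δ`) has infinite index (a subgroup of finite index of the finitely generated `Δ` is finitely generated: Mathlib, Schreier; but `ZA_fg`), so `SB_main` with `c = 1`
 (`CD (ZMod p) Δ 3`) gives `CD (ZMod p) A 2`, contradiction to `ZA_main` (`CZ_inj`).   So `3 ≤ c ≤ d ≤ 4`, `c ≡ d`: `c = d`.  If `Δ` had infinite index in `Γ`, `SB_main` for `Γ` (`Lv` from `BA_main`, `Γ` finitely generated: `BA_cnt`) with `CD (ZMod p) Γ (d+1)` would give `CD (ZMod p) Δ d`, contradiction to `¬ CD … c`.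
 So `Δ = centralizer {w (K+1)}` has finite index in `Γ`, `w (K+1) ^ (p^(K+1)) = z` is central (`Zs_pow`): `FI_main` (`FPcd_tf`): `w (K+1)` is central in `Γ`, `Δ = ⊤`, all `w k` are central in `Γ`; `w k ^ (p^k) = z` (`Zs_pow`).
-/

namespace Pool.Agent.H5.PD

open CategoryTheory CategoryTheory.Abelian CategoryTheory.Limits Pool.Agent.H5.CP
  Pool.Agent.H75.CP Pool.Agent.H5.ZP

theorem X5_mono {k G : Type} [CommRing k] [Group G] {m n : ℕ} (h : CD k G m) (hmn : m ≤ n) :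
    CD k G n := fun A j hj => h A j (hmn.trans hj)

theorem X5_top {H L : Type} [Group H] [Group L] (E : CX H L) (p : ℕ) [Fact p.Prime] (n : ℕ)
    (hE : Lv p n E) :
    ∃ c, 1 ≤ c ∧ CD (ZMod p) H (c + 1) ∧ ¬ CD (ZMod p) H c ∧ hc p H c = p ∧
      ∀ j, j ≠ c → hc p H j = 1 := by
  classical
  have hcd : ∃ m, CD (ZMod p) H m := ⟨n, hE.cd⟩
  obtain ⟨m, h1, h2⟩ : ∃ m, CD (ZMod p) H m ∧ ∀ c, CD (ZMod p) H c → m ≤ c :=
    ⟨Nat.find hcd, Nat.find_spec hcd, fun c hc => Nat.find_min' hcd hc⟩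
  have h3 : m ≠ 0 := by
    intro h
    rw [h] at h1
    exact CZ_ne p h1
  have h4 : m ≠ 1 := by
    intro h
    rw [h] at h1
    exact SB_one E p h1
  obtain ⟨c, hc⟩ : ∃ c, m = c + 2 := ⟨m - 2, by omega⟩
  rw [hc] at h1 h2
  have h5 : ¬ CD (ZMod p) H (c + 1) := fun h => by
    have := h2 _ h
    omega
  obtain ⟨h6, h7⟩ := XH_main E p n hE c h1 h5
  exact ⟨c + 1, by omega, h1, h5, h6, h7⟩

theorem X5_base {Γ : Type} [Group Γ] (hΓ : IsTypeFP Γ) (d : ℕ)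
    (h0 : ∀ j, j ≠ d → IsZero (groupCohomology (Rep.leftRegular ℤ Γ) j))
    (h1 : Nonempty (groupCohomology (Rep.leftRegular ℤ Γ) d ≃+ ℤ)) (p : ℕ) [Fact p.Prime]
    (z : Γ) (hz : z ∈ Subgroup.center Γ) (hz1 : z ≠ 1) :
    1 ≤ d ∧ CD (ZMod p) Γ (d + 1) ∧ hc p Γ d = p ∧ ∀ j, j ≠ d → hc p Γ j = 1 := by
  obtain ⟨n, L, _, E, -, hE⟩ := BA_main hΓ d h0 h1 p z hz hz1
  obtain ⟨c, c1, c2, c3, c4, c5⟩ := X5_top E p n hE
  obtain ⟨b1, b2, -, -⟩ := BS_main d h0 h1 p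
  have hcd : c = d := by
    by_contra hne
    have h2 := b1 c hne
    rw [c4] at h2
    exact (Fact.out : p.Prime).one_lt.ne' h2
  rw [hcd] at c1 c2
  exact ⟨c1, c2, b2, b1⟩

theorem X5_par' {Γ : Type} [Group Γ] (hΓ : IsTypeFP Γ) (d : ℕ)
    (h0 : ∀ j, j ≠ d → IsZero (groupCohomology (Rep.leftRegular ℤ Γ) j))
    (h1 : Nonempty (groupCohomology (Rep.leftRegular ℤ Γ) d ≃+ ℤ)) (p : ℕ) [Fact p.Prime]
    (hp2 : p ≠ 2)
    (z : Γ) (hz : z ∈ Subgroup.center Γ) (hz1 : z ≠ 1) (w : ℕ → Γ) (hw0 : w 0 = z)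
    (hw : ∀ k, w (k + 1) ^ p = w k) (k : ℕ) :
    ∃ c, 1 ≤ c ∧ c ≤ d ∧ c % 2 = d % 2 ∧
      CD (ZMod p) (Subgroup.centralizer {w (k + 1)} : Subgroup Γ) (c + 1) ∧
      ¬ CD (ZMod p) (Subgroup.centralizer {w (k + 1)} : Subgroup Γ) c ∧
      hc p (Subgroup.centralizer {w (k + 1)} : Subgroup Γ) c = p ∧
      ∀ j, j ≠ c → hc p (Subgroup.centralizer {w (k + 1)} : Subgroup Γ) j = 1 := by
  obtain ⟨n, hlv⟩ := CH_lv hΓ d h0 h1 p z hz hz1 w hw0 hw
  obtain ⟨b1, b2, b3, b4⟩ := X5_base hΓ d h0 h1 p z hz hz1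
  induction k with
  | zero =>
    obtain ⟨n0, L, _, E, hEt, hE⟩ := BA_main hΓ d h0 h1 p z hz hz1
    obtain ⟨L', _, E', hE', hLv⟩ := hlv 0
    obtain ⟨c, c1, c2, c3, c4, c5⟩ := X5_top E' p n hLv
    have hpar := XF_main E p hp2 n0 hE.cd (w (0 + 1)) (by rw [hw 0, hw0, hEt])
      (Subgroup.subtype _) Subtype.val_injective (by
        intro x
        rw [← Subgroup.mem_centralizer_singleton_iff]
        constructor
        · rintro ⟨c, rfl⟩
          exact c.2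
        · intro hx
          exact ⟨⟨x, hx⟩, rfl⟩) E' hE' d c b1 c1 b2 b3 b4 c2 c4 c5
    refine ⟨c, c1, ?_, hpar.symm, c2, c3, c4, c5⟩
    by_contra hlt
    exact c3 (X5_mono (SubC_main (d + 1) b2 _) (by omega))
  | succ k ih =>
    obtain ⟨c₀, a1, a2, a3, a4, a5, a6, a7⟩ := ih
    obtain ⟨L₀, _, E₀, ht₀, hE₀⟩ := hlv k
    obtain ⟨L', _, E', hE', hLv⟩ := hlv (k + 1)
    obtain ⟨c, c1, c2, c3, c4, c5⟩ := X5_top E' p n hLv
    have hpar := XF_main E₀ p hp2 n hE₀.cd ⟨w (k + 1 + 1), CH_mem p w hw (k + 1)⟩ (by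
        apply Subtype.ext
        rw [ht₀]
        exact hw (k + 1))
      (Subgroup.inclusion (CH_succ p w hw (k + 1))) (Subgroup.inclusion_injective _) (by
        intro x
        constructor
        · rintro ⟨c, rfl⟩
          apply Subtype.ext
          exact Subgroup.mem_centralizer_singleton_iff.1 c.2
        · intro hx
          refine ⟨⟨x, ?_⟩, rfl⟩
          rw [Subgroup.mem_centralizer_singleton_iff]
          exact congrArg Subtype.val hx) E' (by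
        apply Subtype.ext
        exact hE') c₀ c a1 c1 a4 a6 a7 c2 c4 c5
    refine ⟨c, c1, ?_, by omega, c2, c3, c4, c5⟩
    by_contra hlt
    exact c3 (X5_mono (SubC_main (d + 1) b2 _) (by omega))

theorem X5_par {Γ : Type} [Group Γ] (hΓ : IsTypeFP Γ) (d : ℕ)
    (h0 : ∀ j, j ≠ d → IsZero (groupCohomology (Rep.leftRegular ℤ Γ) j))
    (h1 : Nonempty (groupCohomology (Rep.leftRegular ℤ Γ) d ≃+ ℤ)) (p : ℕ) [Fact p.Prime]
    (hp2 : p ≠ 2)
    (z : Γ) (hz : z ∈ Subgroup.center Γ) (hz1 : z ≠ 1) (w : ℕ → Γ) (hw0 : w 0 = z)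
    (hw : ∀ k, w (k + 1) ^ p = w k) (k : ℕ) :
    ∃ c, 1 ≤ c ∧ c ≤ d ∧ c % 2 = d % 2 ∧
      CD (ZMod p) (Subgroup.centralizer {w (k + 1)} : Subgroup Γ) (c + 1) ∧
      ¬ CD (ZMod p) (Subgroup.centralizer {w (k + 1)} : Subgroup Γ) c := by
  obtain ⟨c, c1, c2, c3, c4, c5, -, -⟩ := X5_par' hΓ d h0 h1 p hp2 z hz hz1 w hw0 hw k
  exact ⟨c, c1, c2, c3, c4, c5⟩

theorem X5_cen {Γ : Type} [Group Γ] (hΓ : IsTypeFP Γ) (d : ℕ) (hd : d ≤ 4)
    (h0 : ∀ j, j ≠ d → IsZero (groupCohomology (Rep.leftRegular ℤ Γ) j))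
    (h1 : Nonempty (groupCohomology (Rep.leftRegular ℤ Γ) d ≃+ ℤ)) (p : ℕ) [Fact p.Prime]
    (hp2 : p ≠ 2) (z : Γ) (hz : z ∈ Subgroup.center Γ) (hz1 : z ≠ 1)
    (h : ∀ k : ℕ, ∃ u : Γ, u ^ (p ^ k) = z) (k : ℕ) :
    ∃ u ∈ Subgroup.center Γ, u ^ (p ^ k) = z := by
  have hp : p.Prime := Fact.out
  have hp0 : p ≠ 0 := hp.ne_zero
  obtain ⟨f, hf, hfz⟩ := Ma_chain hΓ z hz hz1 p hp h
  obtain ⟨w, hwd⟩ : ∃ w : ℕ → Γ, w = fun k => f (Multiplicative.ofAdd ⟨_, PF_mem p k hp0⟩) :=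
    ⟨_, rfl⟩
  have hw0 : w 0 = z := by
    rw [← hfz, hwd]
    show f _ = f _
    congr 2
    apply Subtype.ext
    show (1 : ℚ) / (p : ℚ) ^ 0 = 1
    simp
  have hw : ∀ k, w (k + 1) ^ p = w k := fun k => by
    rw [hwd]
    exact PF_w p hp0 f k
  obtain ⟨K, hKfg, hK⟩ := CH_main hΓ d h0 h1 p z hz hz1 w hw0 hw
  obtain ⟨c, c1, c2, c3, c4, c5⟩ := X5_par hΓ d h0 h1 p hp2 z hz hz1 w hw0 hw K
  obtain ⟨n, hlv⟩ := CH_lv hΓ d h0 h1 p z hz hz1 w hw0 hw
  obtain ⟨LK, _, EK, hEKt, hEK⟩ := hlv K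
  have hfw : ∀ x, ∃ (k : ℕ) (m : ℤ), f x = w k ^ m := by
    intro x
    obtain ⟨m, k, hmk⟩ := (Multiplicative.toAdd x).2
    refine ⟨k, m, ?_⟩
    rw [hwd]
    exact PF_q p hp0 f (Multiplicative.toAdd x) m k hmk
  have hfΔ : ∀ x, f x ∈ (Subgroup.centralizer {w (K + 1)} : Subgroup Γ) := by
    intro x
    obtain ⟨k, m, hx⟩ := hfw x
    rw [hx]
    exact Subgroup.zpow_mem _ (hK k).1 m
  have hFG : Group.FG (Subgroup.centralizer {w (K + 1)} : Subgroup Γ) :=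
    (Group.fg_iff_subgroup_fg _).2 hKfg
  let f' : Multiplicative (Zp p) →* (Subgroup.centralizer {w (K + 1)} : Subgroup Γ) :=
    f.codRestrict _ hfΔ
  have hf' : Function.Injective f' := by
    intro x y hxy
    exact hf (congrArg Subtype.val hxy)
  have hc1 : c ≠ 1 := by
    intro h
    rw [h] at c4
    exact ZA_main p (CZ_inj p f' hf' 2 c4)
  have hc2 : c ≠ 2 := by
    intro h
    rw [h] at c4
    have hinf : Infinite ((Subgroup.centralizer {w (K + 1)} : Subgroup Γ) ⧸ f'.range) := by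
      by_contra hfin
      have h2 : Finite ((Subgroup.centralizer {w (K + 1)} : Subgroup Γ) ⧸ f'.range) :=
        not_infinite_iff_finite.1 hfin
      have h3 : f'.range.FiniteIndex := Subgroup.finiteIndex_of_finite_quotient
      have h4 : Group.FG f'.range := Subgroup.fg_of_index_ne_zero f'.range
      have h5 : Group.FG (Multiplicative (Zp p)) :=
        Group.fg_of_surjective (f := (MonoidHom.ofInjective hf').symm.toMonoidHom)
          (MonoidHom.ofInjective hf').symm.surjective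
      exact ZA_fg p h5
    have h2 := SB_main EK p n hEK hFG 1 c4 f'.range hinf
    exact ZA_main p (CZ_inj p (MonoidHom.ofInjective hf').toMonoidHom
      (MonoidHom.ofInjective hf').injective 2 h2)
  have hcd : c = d := by omega
  have hfin : Finite (Γ ⧸ (Subgroup.centralizer {w (K + 1)} : Subgroup Γ)) := by
    by_contra hni
    have hinf : Infinite (Γ ⧸ (Subgroup.centralizer {w (K + 1)} : Subgroup Γ)) :=
      not_finite_iff_infinite.1 hni
    obtain ⟨n0, L, _, E, hEt, hE⟩ := BA_main hΓ d h0 h1 p z hz hz1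
    obtain ⟨b1, b2, b3, b4⟩ := X5_base hΓ d h0 h1 p z hz hz1
    obtain ⟨c0, hc0⟩ : ∃ c0, d = c0 + 1 := ⟨d - 1, by omega⟩
    rw [hc0] at b2
    have h2 := SB_main E p n0 hE (BA_cnt (FPcd_inf hΓ)).1 c0 b2 _ hinf
    rw [hcd, hc0] at c5
    exact c5 h2
  have hfi : (Subgroup.centralizer {w (K + 1)} : Subgroup Γ).FiniteIndex :=
    Subgroup.finiteIndex_of_finite_quotient
  have hwp : ∀ k, w k ^ (p ^ k) = z := by
    intro k
    have h2 := Zs_pow hw 0 k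
    rw [zero_add] at h2
    rw [h2, hw0]
  have hwc : w (K + 1) ∈ Subgroup.center Γ :=
    FI_main (fun x hx => FPcd_tf hΓ x hx) (w (K + 1)) (p ^ (K + 1)) (pow_pos hp.pos _)
      (by rw [hwp]; exact hz) hfi
  have hall : ∀ k, w k ∈ Subgroup.center Γ := by
    intro k
    rw [Subgroup.mem_center_iff]
    intro g
    apply (hK k).2 g
    rw [Subgroup.mem_centralizer_singleton_iff]
    exact Subgroup.mem_center_iff.1 hwc g
  exact ⟨w k, hall k, hwp k⟩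

end Pool.Agent.H5.PD
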