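import Pool.Agent.H5.PD.Df

/-!
Module XM (row PDXA, replaces XA).  Algebra of a free action of a group of odd prime order `p` in characteristic `p`.  `Y` a `G`-set, `σ` a permutation commuting with `G`, `σ^p = 1`, `σ y ≠ y`; `b : Y → Z` the quotient by `σ`.  `R = F_p[Y]`, `τ = σ_* - 1 : R → R`, `b_* : R → F_p[Z]`, `τ ≫ b_* = 0`.
FACTS: (F1) `b_* x = 0` implies `x = τ y` for some `y`: with a section `s` of `b`: `single (σ^i y) a - single y a ∈ im τ` (telescope), so `x - s_* b_* x ∈ im τ` for all `x` (additive, check on `single`).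
 (F2) `τ x = 0` implies `x = τ² y` for some `y`: `τ x = 0` means `x(σ y) = x(y)`, so `x = N z`, `N = 1 + σ_* + … + σ_*^(p-1)`, `z = Σ_{ζ ∈ Z} x(s ζ) single (s ζ)` (`σ`-orbits have exactly `p` points: `σ y ≠ y`, `p` prime), and `N = (σ_* - 1)^(p-1)` in characteristic `p`
 (polynomial identity `1 + X + … + X^(p-1) = (X - 1)^(p-1)` over `ZMod p`: multiply by `X - 1`, `X^p - 1 = (X-1)^p`, `sub_pow_char`/`Polynomial`; apply `Polynomial.aeval` in the ring of `ZMod p`-linear endomorphisms of `Y →₀ ZMod p`), `p - 1 ≥ 2`.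
Then everything is formal: `M₂ = R/τ²R`, `M₃ = R/τ³R` (`cokernel (τ ≫ τ)`, `cokernel (τ ≫ τ ≫ τ)`, or quotients by subrepresentations as in `InK_ses`, H75/CP/InK.lean), `c₂ : R → M₂`, `c₃ : R → M₃` the projections, and `F_p[Z] = R/τR` by (F1) and surjectivity of `b`.
 `j [x] = [τ x]` (`R/τR → R/τ²R`), `q [x] = [x]`, `j₃ [x] = [τ x]` (`R/τ²R → R/τ³R`), `q₃ [x] = [x]`, `f [x] = [x]`.  Injectivity of `j`: `τ x = τ² y` gives `x - τ y ∈ ker τ ⊆ im τ²`; of `j₃`: `τ x = τ³ y` gives `x - τ² y ∈ ker τ ⊆ im τ²`.  Exactness in the middle: `[x] ↦ 0` in `R/τR` iff `x = τ y`.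
 All the identities at the end hold on classes.  `VTop_shortExact` (H5/CP/VTop.lean), `mkZ` (Df.lean).
-/

namespace Pool.Agent.H5.PD

open CategoryTheory CategoryTheory.Abelian CategoryTheory.Limits Pool.Agent.H5.CP
  Pool.Agent.H75.CP Pool.Agent.H5.ZP

/-! ## finitely supported functions -/

/-- the difference `σ_* - 1` -/
noncomputable def XM_t (p : ℕ) {Y : Type} (σ : Equiv.Perm Y) : (Y →₀ ZMod p) →+ (Y →₀ ZMod p) :=
  Finsupp.mapDomain.addMonoidHom σ - AddMonoidHom.id _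

theorem XM_t_single (p : ℕ) {Y : Type} (σ : Equiv.Perm Y) (y : Y) (a : ZMod p) :
    XM_t p σ (Finsupp.single y a) = Finsupp.single (σ y) a - Finsupp.single y a := by
  show Finsupp.mapDomain σ (Finsupp.single y a) - Finsupp.single y a = _
  rw [Finsupp.mapDomain_single]

/-- the norm `1 + σ_* + … + σ_*^(p-1)` -/
noncomputable def XM_N (p : ℕ) {Y : Type} (σ : Equiv.Perm Y) (x : Y →₀ ZMod p) : Y →₀ ZMod p :=
  ∑ i ∈ Finset.range p, Finsupp.mapDomain (fun y => (σ ^ i) y) x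

theorem XM_N_zero (p : ℕ) {Y : Type} (σ : Equiv.Perm Y) : XM_N p σ 0 = 0 := by
  unfold XM_N
  exact Finset.sum_eq_zero fun i _ => Finsupp.mapDomain_zero

theorem XM_N_add (p : ℕ) {Y : Type} (σ : Equiv.Perm Y) (x y : Y →₀ ZMod p) :
    XM_N p σ (x + y) = XM_N p σ x + XM_N p σ y := by
  unfold XM_N
  rw [← Finset.sum_add_distrib]
  exact Finset.sum_congr rfl fun i _ => Finsupp.mapDomain_add

theorem XM_N_single (p : ℕ) {Y : Type} (σ : Equiv.Perm Y) (y : Y) (a : ZMod p) :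
    XM_N p σ (Finsupp.single y a) = ∑ i ∈ Finset.range p, Finsupp.single ((σ ^ i) y) a := by
  unfold XM_N
  exact Finset.sum_congr rfl fun i _ => Finsupp.mapDomain_single

/-- the basic computation: `τ` of a function on an orbit -/
theorem XM_tA (p : ℕ) {Y : Type} (σ : Equiv.Perm Y) (hord : ∀ y, (σ ^ p) y = y) (y : Y)
    (d : ℕ → ZMod p) (hd : d p = d 0) :
    XM_t p σ (∑ i ∈ Finset.range p, Finsupp.single ((σ ^ i) y) (d (i + 1))) =
      ∑ i ∈ Finset.range p, Finsupp.single ((σ ^ i) y) (d i - d (i + 1)) := by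
  have h1 : ∑ i ∈ Finset.range p, Finsupp.single ((σ ^ (i + 1)) y) (d (i + 1)) =
      ∑ i ∈ Finset.range p, Finsupp.single ((σ ^ i) y) (d i) := by
    have h2 := Finset.sum_range_succ (fun i => Finsupp.single ((σ ^ i) y) (d i)) p
    have h3 := Finset.sum_range_succ' (fun i => Finsupp.single ((σ ^ i) y) (d i)) p
    rw [h2] at h3
    have h4 : Finsupp.single ((σ ^ p) y) (d p) = Finsupp.single ((σ ^ 0) y) (d 0) := by
      rw [hord, hd, pow_zero]
      rfl
    rw [h4] at h3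
    exact (add_right_cancel h3).symm
  rw [map_sum]
  have h5 : ∀ i ∈ Finset.range p, XM_t p σ (Finsupp.single ((σ ^ i) y) (d (i + 1))) =
      Finsupp.single ((σ ^ (i + 1)) y) (d (i + 1)) - Finsupp.single ((σ ^ i) y) (d (i + 1)) := by
    intro i _
    rw [XM_t_single, pow_succ']
    rfl
  rw [Finset.sum_congr rfl h5, Finset.sum_sub_distrib, h1, ← Finset.sum_sub_distrib]
  exact Finset.sum_congr rfl fun i _ => (Finsupp.single_sub _ _ _).symm

theorem XM_Nim (p : ℕ) [Fact p.Prime] (hp2 : p ≠ 2) {Y : Type} (σ : Equiv.Perm Y)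
    (hord : ∀ y, (σ ^ p) y = y) (x : Y →₀ ZMod p) : ∃ u, XM_t p σ (XM_t p σ u) = XM_N p σ x := by
  induction x using Finsupp.induction_linear with
  | zero => exact ⟨0, by rw [XM_N_zero, map_zero, map_zero]⟩
  | add a c ha hc =>
    obtain ⟨u, hu⟩ := ha
    obtain ⟨v, hv⟩ := hc
    exact ⟨u + v, by rw [map_add, map_add, hu, hv, XM_N_add]⟩
  | single y a =>
    have h2 : (2 : ZMod p) ≠ 0 := by
      intro h
      have h3 : ((2 : ℕ) : ZMod p) = 0 := by exact_mod_cast h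
      rw [ZMod.natCast_eq_zero_iff] at h3
      exact hp2 ((Nat.prime_dvd_prime_iff_eq Fact.out Nat.prime_two).1 h3)
    refine ⟨∑ i ∈ Finset.range p, Finsupp.single ((σ ^ i) y)
      ((fun i : ℕ => (i : ZMod p) * ((i : ZMod p) + 1) * 2⁻¹ * a) (i + 1)), ?_⟩
    rw [XM_tA p σ hord y (fun i : ℕ => (i : ZMod p) * ((i : ZMod p) + 1) * 2⁻¹ * a) (by
      show (p : ZMod p) * ((p : ZMod p) + 1) * 2⁻¹ * a =
        ((0 : ℕ) : ZMod p) * (((0 : ℕ) : ZMod p) + 1) * 2⁻¹ * a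
      rw [ZMod.natCast_self, Nat.cast_zero])]
    have h3 : ∑ i ∈ Finset.range p, Finsupp.single ((σ ^ i) y)
        ((fun i : ℕ => (i : ZMod p) * ((i : ZMod p) + 1) * 2⁻¹ * a) i -
          (fun i : ℕ => (i : ZMod p) * ((i : ZMod p) + 1) * 2⁻¹ * a) (i + 1)) =
        ∑ i ∈ Finset.range p, Finsupp.single ((σ ^ i) y)
          ((fun i : ℕ => -(i : ZMod p) * a) (i + 1)) := by
      refine Finset.sum_congr rfl fun i _ => ?_
      congr 1
      show (i : ZMod p) * ((i : ZMod p) + 1) * 2⁻¹ * a -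
        ((i + 1 : ℕ) : ZMod p) * (((i + 1 : ℕ) : ZMod p) + 1) * 2⁻¹ * a =
          -((i + 1 : ℕ) : ZMod p) * a
      push_cast
      field_simp
      ring
    rw [h3, XM_tA p σ hord y (fun i : ℕ => -(i : ZMod p) * a) (by
      show -(p : ZMod p) * a = -((0 : ℕ) : ZMod p) * a
      rw [ZMod.natCast_self, Nat.cast_zero]), XM_N_single]
    refine Finset.sum_congr rfl fun i _ => ?_
    congr 1
    show -(i : ZMod p) * a - -((i + 1 : ℕ) : ZMod p) * a = a
    push_cast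
    ring

theorem XM_orb (p : ℕ) [Fact p.Prime] {Y : Type} (σ : Equiv.Perm Y)
    (hord : ∀ y, (σ ^ p) y = y) (hfree : ∀ y, σ y ≠ y) (y : Y) (m n : ℕ) :
    (σ ^ m) y = (σ ^ n) y ↔ m % p = n % p := by
  have h1 : Function.minimalPeriod σ y = p := by
    refine Function.minimalPeriod_eq_prime ?_ (hfree y)
    show σ^[p] y = y
    rw [Equiv.Perm.iterate_eq_pow]
    exact hord y
  rw [← Equiv.Perm.iterate_eq_pow, ← Equiv.Perm.iterate_eq_pow]
  rw [← Function.iterate_mod_minimalPeriod_eq (f := σ) (x := y) (n := m),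
    ← Function.iterate_mod_minimalPeriod_eq (f := σ) (x := y) (n := n), h1]
  have hp : 0 < p := (Fact.out : p.Prime).pos
  exact Function.iterate_eq_iterate_iff_of_lt_minimalPeriod (by rw [h1]; exact Nat.mod_lt _ hp)
    (by rw [h1]; exact Nat.mod_lt _ hp)

theorem XM_N_apply (p : ℕ) [Fact p.Prime] {Y Z : Type} (σ : Equiv.Perm Y)
    (hord : ∀ y, (σ ^ p) y = y) (hfree : ∀ y, σ y ≠ y) (b : Y → Z)
    (hfib : ∀ y y' : Y, b y = b y' ↔ ∃ n : ℕ, (σ ^ n) y = y')
    (x : Y →₀ ZMod p) (y : Y) : XM_N p σ x y = Finsupp.mapDomain b x (b y) := by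
  classical
  induction x using Finsupp.induction_linear with
  | zero => rw [XM_N_zero, Finsupp.mapDomain_zero]; rfl
  | add u v hu hv =>
    rw [XM_N_add, Finsupp.mapDomain_add, Finsupp.add_apply, Finsupp.add_apply, hu, hv]
  | single u a =>
    rw [XM_N_single, Finsupp.mapDomain_single, Finsupp.single_apply, Finsupp.finsetSum_apply]
    have hp : 0 < p := (Fact.out : p.Prime).pos
    by_cases h : b u = b y
    · rw [if_pos h]
      obtain ⟨n, rfl⟩ := (hfib u y).1 h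
      rw [Finset.sum_eq_single_of_mem (n % p) (Finset.mem_range.2 (Nat.mod_lt _ hp))]
      · rw [Finsupp.single_apply, if_pos]
        rw [XM_orb p σ hord hfree, Nat.mod_mod]
      · intro i hi hin
        rw [Finsupp.single_apply, if_neg]
        rw [XM_orb p σ hord hfree, Nat.mod_eq_of_lt (Finset.mem_range.1 hi)]
        exact hin
    · rw [if_neg h]
      refine Finset.sum_eq_zero fun i _ => ?_
      rw [Finsupp.single_apply, if_neg]
      exact fun h' => h ((hfib u y).2 ⟨i, h'⟩)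

theorem XM_bt (p : ℕ) {Y Z : Type} (σ : Equiv.Perm Y) (b : Y → Z) (hb : ∀ y, b (σ y) = b y)
    (x : Y →₀ ZMod p) : Finsupp.mapDomain b (XM_t p σ x) = 0 := by
  show Finsupp.mapDomain.addMonoidHom b (XM_t p σ x) = 0
  induction x using Finsupp.induction_linear with
  | zero => simp only [map_zero]
  | add a b ha hb => simp only [map_add, ha, hb, add_zero]
  | single y a =>
    rw [XM_t_single, map_sub]
    show Finsupp.mapDomain b (Finsupp.single (σ y) a) - Finsupp.mapDomain b (Finsupp.single y a) = 0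
    rw [Finsupp.mapDomain_single, Finsupp.mapDomain_single, hb, sub_self]

theorem XM_tel (p : ℕ) {Y : Type} (σ : Equiv.Perm Y) (y : Y) (a : ZMod p) (n : ℕ) :
    ∃ u, XM_t p σ u = Finsupp.single y a - Finsupp.single ((σ ^ n) y) a := by
  induction n with
  | zero => exact ⟨0, by rw [map_zero, pow_zero, Equiv.Perm.one_apply, sub_self]⟩
  | succ n ih =>
    obtain ⟨u, hu⟩ := ih
    refine ⟨u - Finsupp.single ((σ ^ n) y) a, ?_⟩
    rw [map_sub, hu, XM_t_single, pow_succ', Equiv.Perm.mul_apply]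
    abel

theorem XM_F1 (p : ℕ) {Y Z : Type} (σ : Equiv.Perm Y) (b : Y → Z) (hs : Function.Surjective b)
    (hfib : ∀ y y' : Y, b y = b y' ↔ ∃ n : ℕ, (σ ^ n) y = y') (x : Y →₀ ZMod p)
    (hx : Finsupp.mapDomain b x = 0) : ∃ u, XM_t p σ u = x := by
  obtain ⟨s, hs'⟩ : ∃ s : Z → Y, ∀ z, b (s z) = z :=
    ⟨Function.surjInv hs, Function.surjInv_eq hs⟩
  have key : ∀ x : Y →₀ ZMod p,
      ∃ u, XM_t p σ u = x - Finsupp.mapDomain s (Finsupp.mapDomain b x) := by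
    intro x
    induction x using Finsupp.induction_linear with
    | zero =>
      exact ⟨0, by rw [map_zero, Finsupp.mapDomain_zero, Finsupp.mapDomain_zero, sub_zero]⟩
    | add a c ha hc =>
      obtain ⟨u, hu⟩ := ha
      obtain ⟨v, hv⟩ := hc
      refine ⟨u + v, ?_⟩
      rw [map_add, hu, hv, Finsupp.mapDomain_add, Finsupp.mapDomain_add]
      abel
    | single y a =>
      rw [Finsupp.mapDomain_single, Finsupp.mapDomain_single]
      obtain ⟨n, hn⟩ := (hfib y (s (b y))).1 (hs' (b y)).symm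
      rw [← hn]
      exact XM_tel p σ y a n
  obtain ⟨u, hu⟩ := key x
  rw [hx, Finsupp.mapDomain_zero, sub_zero] at hu
  exact ⟨u, hu⟩

theorem XM_F2 (p : ℕ) [Fact p.Prime] (hp2 : p ≠ 2) {Y Z : Type} (σ : Equiv.Perm Y)
    (hord : ∀ y, (σ ^ p) y = y) (hfree : ∀ y, σ y ≠ y) (b : Y → Z) (hs : Function.Surjective b)
    (hfib : ∀ y y' : Y, b y = b y' ↔ ∃ n : ℕ, (σ ^ n) y = y') (x : Y →₀ ZMod p)
    (hx : XM_t p σ x = 0) : ∃ u, XM_t p σ (XM_t p σ u) = x := by
  classical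
  have hx1 : ∀ y, x (σ y) = x y := by
    intro y
    have h1 : Finsupp.mapDomain σ x = x := sub_eq_zero.1 hx
    have h2 := Finsupp.mapDomain_apply σ.injective x y
    rwa [h1] at h2
  have hx2 : ∀ y y', b y = b y' → x y' = x y := by
    intro y y' h
    obtain ⟨n, rfl⟩ := (hfib y y').1 h
    clear h
    induction n with
    | zero => rw [pow_zero, Equiv.Perm.one_apply]
    | succ n ih => rw [pow_succ', Equiv.Perm.mul_apply, hx1, ih]
  obtain ⟨s, hs⟩ : ∃ s : Z → Y, ∀ z, b (s z) = z :=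
    ⟨Function.surjInv hs, Function.surjInv_eq hs⟩
  have hN : XM_N p σ (x.filter (fun y => s (b y) = y)) = x := by
    ext y
    rw [XM_N_apply p σ hord hfree b hfib]
    -- the value of the pushforward
    have key : Finsupp.mapDomain b (x.filter (fun y => s (b y) = y)) (b y) =
        (x.filter (fun y => s (b y) = y)) (s (b y)) := by
      rw [Finsupp.mapDomain, Finsupp.sum_apply, Finsupp.sum]
      by_cases h : s (b y) ∈ (x.filter (fun y => s (b y) = y)).support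
      · rw [Finset.sum_eq_single_of_mem _ h]
        · rw [Finsupp.single_apply, if_pos (hs _)]
        · intro c hc hcy
          rw [Finsupp.single_apply, if_neg]
          intro h1
          apply hcy
          have h2 : s (b c) = c := (Finsupp.mem_support_iff.1 hc |> fun h => by
            by_contra h4
            exact h (Finsupp.filter_apply_neg _ _ h4))
          rw [← h2, h1]
      · rw [Finset.sum_eq_zero]
        · exact (Finsupp.notMem_support_iff.1 h).symm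
        · intro c hc
          rw [Finsupp.single_apply, if_neg]
          intro h1
          apply h
          have h2 : s (b c) = c := (Finsupp.mem_support_iff.1 hc |> fun h => by
            by_contra h4
            exact h (Finsupp.filter_apply_neg _ _ h4))
          rw [← h1, h2]
          exact hc
    rw [key, Finsupp.filter_apply_pos _ _ (by rw [hs])]
    exact hx2 _ _ (hs _).symm
  obtain ⟨u, hu⟩ := XM_Nim p hp2 σ hord (x.filter (fun y => s (b y) = y))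
  exact ⟨u, by rw [hu, hN]⟩

/-! ## formal part -/

/-- descent of a morphism along a surjective morphism -/
noncomputable def XM_desc {G : Type} [Group G] {R Q N : Rep.{0} ℤ G} (B : R ⟶ Q)
    (hB : Function.Surjective B.hom) (φ : R ⟶ N) (h : ∀ x : R.V, B.hom x = 0 → φ.hom x = 0) :
    Q ⟶ N :=
  have h1 : ∀ x y : R.V, B.hom x = B.hom y → φ.hom x = φ.hom y := fun x y hxy => by
    have h2 := h (x - y) (by rw [map_sub, hxy, sub_self])
    rw [map_sub] at h2
    exact sub_eq_zero.1 h2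
  mkZ (M := Q) (N := N)
    { toFun := fun z => φ.hom (Function.surjInv hB z)
      map_zero' := by
        rw [h1 _ 0 (by rw [Function.surjInv_eq hB, map_zero]), map_zero]
      map_add' := by
        intro x y
        rw [← map_add]
        exact h1 _ _ (by rw [Function.surjInv_eq hB, map_add, Function.surjInv_eq hB,
          Function.surjInv_eq hB]) }
    (by
      intro g x
      show φ.hom (Function.surjInv hB (Q.ρ g x)) = N.ρ g (φ.hom (Function.surjInv hB x))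
      rw [← Rep.hom_comm_apply]
      refine h1 _ _ ?_
      rw [Function.surjInv_eq hB, Rep.hom_comm_apply, Function.surjInv_eq hB])

theorem XM_desc_apply {G : Type} [Group G] {R Q N : Rep.{0} ℤ G} (B : R ⟶ Q)
    (hB : Function.Surjective B.hom) (φ : R ⟶ N) (h : ∀ x : R.V, B.hom x = 0 → φ.hom x = 0)
    (x : R.V) : (XM_desc B hB φ h).hom (B.hom x) = φ.hom x := by
  show φ.hom (Function.surjInv hB (B.hom x)) = φ.hom x
  have h2 := h (Function.surjInv hB (B.hom x) - x) (by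
    rw [map_sub, Function.surjInv_eq hB, sub_self])
  rw [map_sub] at h2
  exact sub_eq_zero.1 h2

theorem XM_quot {k G : Type} [CommRing k] [Group G] {R : Rep.{0} k G} (T : R ⟶ R) :
    ∃ (M : Rep.{0} k G) (c : R ⟶ M), Function.Surjective c.hom ∧
      ∀ x : R.V, c.hom x = 0 ↔ ∃ y : R.V, T.hom y = x := by
  have hU : ∀ g, LinearMap.range T.hom.toLinearMap ≤
      (LinearMap.range T.hom.toLinearMap).comap (R.ρ g) := by
    rintro g _ ⟨y, rfl⟩
    exact ⟨R.ρ g y, Rep.hom_comm_apply T g y⟩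
  refine ⟨R.quotient _ hU, Rep.mkQ R _ hU, ?_, ?_⟩
  · intro z
    obtain ⟨x, rfl⟩ := Submodule.Quotient.mk_surjective _ z
    exact ⟨x, rfl⟩
  · intro x
    exact Submodule.Quotient.mk_eq_zero _

theorem XM_ext1 {k G : Type} [CommRing k] [Group G] {M N : Rep.{0} k G} (f g : M ⟶ N)
    (h : ∀ x : M.V, f.hom x = g.hom x) : f = g :=
  Rep.hom_ext (Representation.IntertwiningMap.ext (LinearMap.ext fun x => h x))

theorem XM_ext {k G : Type} [CommRing k] [Group G] {R M N : Rep.{0} k G} (c : R ⟶ M)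
    (hc : Function.Surjective c.hom) (f g : M ⟶ N)
    (h : ∀ x : R.V, f.hom (c.hom x) = g.hom (c.hom x)) : f = g := by
  refine XM_ext1 f g fun x => ?_
  obtain ⟨y, rfl⟩ := hc x
  exact h y

theorem XM_abs {G : Type} [Group G] {R Q : Rep.{0} ℤ G} (T : R ⟶ R) (B : R ⟶ Q)
    (hB : Function.Surjective B.hom) (h0 : ∀ x : R.V, B.hom (T.hom x) = 0)
    (F1 : ∀ x : R.V, B.hom x = 0 → ∃ y : R.V, T.hom y = x)
    (F2 : ∀ x : R.V, T.hom x = 0 → ∃ y : R.V, T.hom (T.hom y) = x) :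
    ∃ (M₂ M₃ : Rep.{0} ℤ G) (c₂ : R ⟶ M₂) (j : Q ⟶ M₂) (q : M₂ ⟶ Q)
      (w : j ≫ q = 0) (j₃ : M₂ ⟶ M₃) (q₃ : M₃ ⟶ Q) (w₃ : j₃ ≫ q₃ = 0) (f : M₃ ⟶ M₂),
      Function.Surjective c₂.hom ∧
      (ShortComplex.mk j q w).ShortExact ∧ (ShortComplex.mk j₃ q₃ w₃).ShortExact ∧
        f ≫ q = q₃ ∧ j₃ ≫ f = q ≫ j ∧ c₂ ≫ q = B ∧ T ≫ c₂ = B ≫ j := by
  obtain ⟨M₂, c₂, hc₂, k₂⟩ := XM_quot (T ≫ T)
  obtain ⟨M₃, c₃, hc₃, k₃⟩ := XM_quot (T ≫ T ≫ T)
  have k₂' : ∀ y : R.V, c₂.hom (T.hom (T.hom y)) = 0 := fun y => (k₂ _).2 ⟨y, rfl⟩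
  have k₃' : ∀ y : R.V, c₃.hom (T.hom (T.hom (T.hom y))) = 0 := fun y => (k₃ _).2 ⟨y, rfl⟩
  have hj : ∀ x : R.V, B.hom x = 0 → (T ≫ c₂).hom x = 0 := by
    intro x hx
    obtain ⟨y, rfl⟩ := F1 x hx
    exact k₂' y
  have hq : ∀ x : R.V, c₂.hom x = 0 → B.hom x = 0 := by
    intro x hx
    obtain ⟨y, rfl⟩ := (k₂ x).1 hx
    exact h0 _
  have hj₃ : ∀ x : R.V, c₂.hom x = 0 → (T ≫ c₃).hom x = 0 := by
    intro x hx
    obtain ⟨y, rfl⟩ := (k₂ x).1 hx
    exact k₃' y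
  have hq₃ : ∀ x : R.V, c₃.hom x = 0 → B.hom x = 0 := by
    intro x hx
    obtain ⟨y, rfl⟩ := (k₃ x).1 hx
    exact h0 _
  have hf : ∀ x : R.V, c₃.hom x = 0 → c₂.hom x = 0 := by
    intro x hx
    obtain ⟨y, rfl⟩ := (k₃ x).1 hx
    exact k₂' _
  have ej : ∀ x : R.V, (XM_desc B hB (T ≫ c₂) hj).hom (B.hom x) = c₂.hom (T.hom x) :=
    fun x => XM_desc_apply B hB (T ≫ c₂) hj x
  have eq : ∀ x : R.V, (XM_desc c₂ hc₂ B hq).hom (c₂.hom x) = B.hom x :=
    fun x => XM_desc_apply c₂ hc₂ B hq x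
  have ej₃ : ∀ x : R.V, (XM_desc c₂ hc₂ (T ≫ c₃) hj₃).hom (c₂.hom x) = c₃.hom (T.hom x) :=
    fun x => XM_desc_apply c₂ hc₂ (T ≫ c₃) hj₃ x
  have eq₃ : ∀ x : R.V, (XM_desc c₃ hc₃ B hq₃).hom (c₃.hom x) = B.hom x :=
    fun x => XM_desc_apply c₃ hc₃ B hq₃ x
  have ef : ∀ x : R.V, (XM_desc c₃ hc₃ c₂ hf).hom (c₃.hom x) = c₂.hom x :=
    fun x => XM_desc_apply c₃ hc₃ c₂ hf x
  generalize XM_desc B hB (T ≫ c₂) hj = j at ej
  generalize XM_desc c₂ hc₂ B hq = q at eq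
  generalize XM_desc c₂ hc₂ (T ≫ c₃) hj₃ = j₃ at ej₃
  generalize XM_desc c₃ hc₃ B hq₃ = q₃ at eq₃
  generalize XM_desc c₃ hc₃ c₂ hf = f at ef
  have w : j ≫ q = 0 := by
    refine XM_ext B hB _ _ fun x => ?_
    show q.hom (j.hom (B.hom x)) = 0
    rw [ej, eq, h0]
  have w₃ : j₃ ≫ q₃ = 0 := by
    refine XM_ext c₂ hc₂ _ _ fun x => ?_
    show q₃.hom (j₃.hom (c₂.hom x)) = 0
    rw [ej₃, eq₃, h0]
  refine ⟨M₂, M₃, c₂, j, q, w, j₃, q₃, w₃, f, hc₂, ?_, ?_, ?_, ?_, ?_, ?_⟩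
  · refine VTop_shortExact _ ?_ ?_ ?_
    · show Function.Injective j.hom
      rw [injective_iff_map_eq_zero]
      intro z hz
      obtain ⟨x, rfl⟩ := hB z
      rw [ej] at hz
      obtain ⟨y, hy⟩ := (k₂ _).1 hz
      have h1 : T.hom (x - T.hom y) = 0 := by
        rw [map_sub, sub_eq_zero]
        exact hy.symm
      obtain ⟨u, hu⟩ := F2 _ h1
      have h2 : x = T.hom (T.hom u) + T.hom y := by rw [hu, sub_add_cancel]
      rw [h2, map_add, h0, h0, add_zero]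
    · intro z
      obtain ⟨x, rfl⟩ := hB z
      exact ⟨c₂.hom x, eq x⟩
    · intro z hz
      obtain ⟨x, rfl⟩ := hc₂ z
      have h1 : B.hom x = 0 := (eq x).symm.trans hz
      obtain ⟨y, rfl⟩ := F1 x h1
      exact ⟨B.hom y, ej y⟩
  · refine VTop_shortExact _ ?_ ?_ ?_
    · show Function.Injective j₃.hom
      rw [injective_iff_map_eq_zero]
      intro z hz
      obtain ⟨x, rfl⟩ := hc₂ z
      rw [ej₃] at hz
      obtain ⟨y, hy⟩ := (k₃ _).1 hz
      have h1 : T.hom (x - T.hom (T.hom y)) = 0 := by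
        rw [map_sub, sub_eq_zero]
        exact hy.symm
      obtain ⟨u, hu⟩ := F2 _ h1
      have h2 : x = T.hom (T.hom u) + T.hom (T.hom y) := by rw [hu, sub_add_cancel]
      rw [h2, map_add, k₂', k₂', add_zero]
    · intro z
      obtain ⟨x, rfl⟩ := hB z
      exact ⟨c₃.hom x, eq₃ x⟩
    · intro z hz
      obtain ⟨x, rfl⟩ := hc₃ z
      have h1 : B.hom x = 0 := (eq₃ x).symm.trans hz
      obtain ⟨y, rfl⟩ := F1 x h1
      exact ⟨c₂.hom y, ej₃ y⟩
  · refine XM_ext c₃ hc₃ _ _ fun x => ?_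
    show q.hom (f.hom (c₃.hom x)) = q₃.hom (c₃.hom x)
    rw [ef, eq, eq₃]
  · refine XM_ext c₂ hc₂ _ _ fun x => ?_
    show f.hom (j₃.hom (c₂.hom x)) = j.hom (q.hom (c₂.hom x))
    rw [ej₃, ef, eq, ej]
  · exact XM_ext1 _ _ fun x => eq x
  · exact XM_ext1 _ _ fun x => (ej x).symm

theorem XM_main (p : ℕ) [Fact p.Prime] (hp2 : p ≠ 2) {G Y Z : Type} [Group G] [MulAction G Y]
    [MulAction G Z] (σ : Equiv.Perm Y) (hσ : ∀ (g : G) (y : Y), σ (g • y) = g • σ y)
    (hord : ∀ y, (σ ^ p) y = y) (hfree : ∀ y, σ y ≠ y) (b : Y → Z)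
    (hb : ∀ (g : G) (y : Y), b (g • y) = g • b y) (hs : Function.Surjective b)
    (hfib : ∀ y y' : Y, b y = b y' ↔ ∃ n : ℕ, (σ ^ n) y = y') :
    ∃ (M₂ M₃ : Rep.{0} ℤ G) (c₂ : PX p G Y ⟶ M₂) (j : PX p G Z ⟶ M₂) (q : M₂ ⟶ PX p G Z)
      (w : j ≫ q = 0) (j₃ : M₂ ⟶ M₃) (q₃ : M₃ ⟶ PX p G Z) (w₃ : j₃ ≫ q₃ = 0) (f : M₃ ⟶ M₂),
      Kp p M₂ ∧ (ShortComplex.mk j q w).ShortExact ∧ (ShortComplex.mk j₃ q₃ w₃).ShortExact ∧
        f ≫ q = q₃ ∧ j₃ ≫ f = q ≫ j ∧ c₂ ≫ q = PXm p b hb ∧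
          (PXm p σ hσ - 𝟙 (PX p G Y)) ≫ c₂ = PXm p b hb ≫ j := by
  have hbσ : ∀ y, b (σ y) = b y := fun y => ((hfib y (σ y)).2 ⟨1, by rw [pow_one]⟩).symm
  have hT : ∀ x : Y →₀ ZMod p,
      ((PXm p σ hσ - 𝟙 (PX p G Y)).hom x : Y →₀ ZMod p) = XM_t p σ x := fun x => rfl
  have hB : Function.Surjective (PXm p b hb).hom := by
    intro f
    change Z →₀ ZMod p at f
    refine ⟨(Finsupp.mapDomain (Function.surjInv hs) f : Y →₀ ZMod p), ?_⟩
    show Finsupp.mapDomain b (Finsupp.mapDomain (Function.surjInv hs) f) = f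
    rw [← Finsupp.mapDomain_comp]
    have h : b ∘ Function.surjInv hs = id := funext (Function.surjInv_eq hs)
    rw [h, Finsupp.mapDomain_id]
  obtain ⟨M₂, M₃, c₂, j, q, w, j₃, q₃, w₃, f, hc, h1, h2, h3, h4, h5, h6⟩ :=
    XM_abs (PXm p σ hσ - 𝟙 (PX p G Y)) (PXm p b hb) hB
      (fun x => XM_bt p σ b hbσ x)
      (fun x hx => XM_F1 p σ b hs hfib x hx)
      (fun x hx => XM_F2 p hp2 σ hord hfree b hs hfib x hx)
  refine ⟨M₂, M₃, c₂, j, q, w, j₃, q₃, w₃, f, ?_, h1, h2, h3, h4, h5, h6⟩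
  intro z
  obtain ⟨x, rfl⟩ := hc z
  have h7 : ∀ x : Y →₀ ZMod p, (p : ℕ) • x = 0 := by
    intro x
    ext y
    show p • x y = 0
    rw [nsmul_eq_mul, ZMod.natCast_self, zero_mul]
  have h8 : c₂.hom ((p : ℕ) • x) = p • c₂.hom x := map_nsmul c₂.hom p x
  have h9 : (p : ℕ) • x = 0 := h7 x
  rw [← h8, h9]
  exact map_zero c₂.hom

end Pool.Agent.H5.PD
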