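import Pool.Agent.H5.PD.Na

/-!
Module Y1 (row PDY1).  The level data imply `Ds p H` (all `H`-modules killed by `p`, not only those on which `t = E.t` acts trivially).  Use only the STATEMENTS of Na.
(a) `Y1_reg`: `N` killed by `p` with `t - 1` injective on `N` (`TReg E.t N`).  `0 → N → N → N_t → 0`, first map `cmul t - 1`, `N_t = N/(t-1)N`.  `x.comp (mk₀ (cmul t - 1)) = 0` (`Cen_main`), so `Ext (tz H) N j → Ext (tz H) N_t j` is injective (`Ext.covariant_sequence_exact₂`).  `t` acts trivially on `N_t`, so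
 `N_t ≅ Rep.res E.π N'` for an `L`-module `N'` (same group, `ρ'(l) = ρ(E.s l)`, `CX.s` in H75/CP/DefsY.lean; `E.ker`), killed by `p`; the members `e` of `T` induce endomorphisms of `N_t` and of `N'`, which form a tail system of `N'`; `hE.dv` kills the image of `x`, and by injectivity some `e ∈ T.S` kills `x`.
(b) general `N`: `P(N) = H →₀ N` with the action `h·single g n = single (hg) n` (`Finsupp.mapDomain (h * ·)`), `P(N) → N`, `single g n ↦ g n`, onto and equivariant, functorial in `N` (`Finsupp.mapRange e`); `t - 1` is injective on `P(N)` (`t` has infinite order, finite supports: `f(t⁻¹ g) = f(g)` for all `g` implies `f = 0`) and on the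
 submodule `N₁ = ker(P(N) → N)`; the members of `T` act on `P(N)` and `N₁`, tail systems (finite supports, closed under composition).  `x ∈ Ext (tz H) N j`: its image `x.comp extClass ∈ Ext (tz H) N₁ (j+1)` is killed by some `e₁ ∈ T.S` (a), so (`extClass_naturality` for the endomorphism of `0 → N₁ → P(N) → N → 0` given by
 `e₁`) `x.comp (mk₀ e₁)` has zero image in `Ext (tz H) N₁ (j+1)`, so it comes from `y ∈ Ext (tz H) P(N) j` (`Ext.covariant_sequence_exact₃`), `y` is killed by `e₂` (a), and `e₁ ≫ e₂` kills `x`.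
-/

namespace Pool.Agent.H5.PD

open CategoryTheory CategoryTheory.Abelian CategoryTheory.Limits Pool.Agent.H5.CP
  Pool.Agent.H75.CP Pool.Agent.H5.ZP

/-- the additive map of a morphism -/
noncomputable def Y1_a {G : Type} [Group G] {M N : Rep.{0} ℤ G} (e : M ⟶ N) : M.V →+ N.V where
  toFun := fun x => e.hom x
  map_zero' := map_zero e.hom
  map_add' := map_add e.hom

section

variable {H L : Type} [Group H] [Group L] (E : CX H L)

/-- the subgroup `(t - 1) N` -/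
noncomputable def Y1_W (N : Rep.{0} ℤ H) : AddSubgroup N.V :=
  AddMonoidHom.range (((N.ρ E.t).toAddMonoidHom : N.V →+ N.V) - AddMonoidHom.id N.V)

theorem Y1_mem (N : Rep.{0} ℤ H) (x : N.V) : N.ρ E.t x - x ∈ Y1_W E N := ⟨x, rfl⟩

theorem Y1_mem' (N : Rep.{0} ℤ H) (x : N.V) (hx : x ∈ Y1_W E N) :
    ∃ y : N.V, N.ρ E.t y - y = x := hx

/-- the elements which act trivially modulo `(t - 1) N` -/
noncomputable def Y1_K (N : Rep.{0} ℤ H) : Subgroup H where
  carrier := {h | ∀ x : N.V, N.ρ h x - x ∈ Y1_W E N}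
  mul_mem' := by
    intro a b ha hb x
    have h1 := ha (N.ρ b x)
    have h2 := hb x
    have h3 := add_mem h1 h2
    rw [sub_add_sub_cancel] at h3
    rw [map_mul]
    exact h3
  one_mem' := by
    intro x
    rw [map_one]
    show x - x ∈ _
    rw [sub_self]
    exact zero_mem _
  inv_mem' := by
    intro a ha x
    have h1 := ha (N.ρ a⁻¹ x)
    have h2 : N.ρ a (N.ρ a⁻¹ x) = x := by
      have h3 : N.ρ (a * a⁻¹) x = x := by
        rw [mul_inv_cancel, map_one]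
        rfl
      rw [map_mul] at h3
      exact h3
    rw [h2] at h1
    have h3 := neg_mem h1
    rw [neg_sub] at h3
    exact h3

theorem Y1_triv (N : Rep.{0} ℤ H) (h h' : H) (e : E.π h = E.π h') (x : N.V) :
    N.ρ h x - N.ρ h' x ∈ Y1_W E N := by
  have h1 : E.π (h * h'⁻¹) = 1 := by rw [map_mul, map_inv, e, mul_inv_cancel]
  obtain ⟨n, hn⟩ := (E.ker _).1 h1
  have h2 : h * h'⁻¹ ∈ Y1_K E N := by
    rw [hn]
    exact Subgroup.zpow_mem (Y1_K E N) (fun y => Y1_mem E N y : E.t ∈ Y1_K E N) n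
  have h3 := h2 (N.ρ h' x)
  have h4 : N.ρ (h * h'⁻¹) (N.ρ h' x) = N.ρ h x := by
    have h5 : N.ρ (h * h'⁻¹ * h') x = N.ρ h x := by rw [inv_mul_cancel_right]
    rw [map_mul] at h5
    exact h5
  rw [h4] at h3
  exact h3

theorem Y1_st (N : Rep.{0} ℤ H) (h : H) : Y1_W E N ≤ (Y1_W E N).comap (N.ρ h).toAddMonoidHom := by
  intro x hx
  obtain ⟨y, rfl⟩ := Y1_mem' E N x hx
  show N.ρ h (N.ρ E.t y - y) ∈ Y1_W E N
  have h1 : N.ρ (h * E.t) y = N.ρ (E.t * h) y := by
    rw [Subgroup.mem_center_iff.1 E.cent h]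
  rw [map_mul, map_mul] at h1
  have h2 : N.ρ h (N.ρ E.t y) = N.ρ E.t (N.ρ h y) := h1
  rw [map_sub, h2]
  exact Y1_mem E N _

theorem Y1_eq (N : Rep.{0} ℤ H) (x y : N.V) (h : x - y ∈ Y1_W E N) :
    (x : N.V ⧸ Y1_W E N) = (y : N.V ⧸ Y1_W E N) := by
  rw [QuotientAddGroup.eq]
  have h1 := neg_mem h
  rw [neg_sub] at h1
  rw [neg_add_eq_sub]
  exact h1

/-- `N/(t-1)N` as an `L`-module -/
noncomputable def Y1_N (N : Rep.{0} ℤ H) : Rep.{0} ℤ L :=
  Rep.of (X := N.V ⧸ Y1_W E N)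
    ({ toFun := fun l => (QuotientAddGroup.map (Y1_W E N) (Y1_W E N)
        (N.ρ (E.s l)).toAddMonoidHom (Y1_st E N _)).toIntLinearMap
       map_one' := by
        apply LinearMap.ext
        intro z
        obtain ⟨x, rfl⟩ := QuotientAddGroup.mk_surjective z
        have h1 := Y1_triv E N (E.s 1) 1 (by rw [E.π_s, map_one]) x
        have h2 := Y1_eq E N _ _ h1
        rw [map_one] at h2
        exact h2
       map_mul' := by
        intro a b
        apply LinearMap.ext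
        intro z
        obtain ⟨x, rfl⟩ := QuotientAddGroup.mk_surjective z
        have h1 := Y1_triv E N (E.s (a * b)) (E.s a * E.s b)
          (by rw [E.π_s, map_mul, E.π_s, E.π_s]) x
        have h2 := Y1_eq E N _ _ h1
        rw [map_mul] at h2
        exact h2 } : Representation ℤ L (N.V ⧸ Y1_W E N))

/-- the projection -/
noncomputable def Y1_p (N : Rep.{0} ℤ H) : N ⟶ Rep.res E.π (Y1_N E N) :=
  mkZ (M := N) (N := Rep.res E.π (Y1_N E N)) (QuotientAddGroup.mk' (Y1_W E N)) (by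
    intro h x
    have h1 := Y1_triv E N h (E.s (E.π h)) (by rw [E.π_s]) x
    exact Y1_eq E N _ _ h1)

theorem Y1_est (N : Rep.{0} ℤ H) (e : N ⟶ N) :
    Y1_W E N ≤ (Y1_W E N).comap (Y1_a e) := by
  intro x hx
  obtain ⟨y, rfl⟩ := Y1_mem' E N x hx
  show e.hom (N.ρ E.t y - y) ∈ Y1_W E N
  rw [map_sub, Rep.hom_comm_apply]
  exact Y1_mem E N _

/-- the induced endomorphism of `N/(t-1)N` -/
noncomputable def Y1_e (N : Rep.{0} ℤ H) (e : N ⟶ N) : Y1_N E N ⟶ Y1_N E N :=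
  mkZ (M := Y1_N E N) (N := Y1_N E N)
    (QuotientAddGroup.map (Y1_W E N) (Y1_W E N) (Y1_a e)
      (Y1_est E N e)) (by
    intro l z
    obtain ⟨x, rfl⟩ := QuotientAddGroup.mk_surjective z
    show ((e.hom (N.ρ (E.s l) x) : N.V) : N.V ⧸ Y1_W E N) =
      ((N.ρ (E.s l) (e.hom x) : N.V) : N.V ⧸ Y1_W E N)
    rw [Rep.hom_comm_apply])

/-- the induced tail system -/
noncomputable def Y1_T {N : Rep.{0} ℤ H} (T : Tail N) : Tail (Y1_N E N) where
  S := {f | ∃ e ∈ T.S, f = Y1_e E N e}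
  ne := by
    obtain ⟨e, he⟩ := T.ne
    exact ⟨_, e, he, rfl⟩
  mul := by
    rintro _ ⟨e, he, rfl⟩ _ ⟨f, hf, rfl⟩
    refine ⟨e ≫ f, T.mul e he f hf, ?_⟩
    apply Rep.hom_ext
    apply DFunLike.ext
    intro z
    obtain ⟨x, rfl⟩ := QuotientAddGroup.mk_surjective z
    rfl
  loc := by
    intro z
    obtain ⟨x, rfl⟩ := QuotientAddGroup.mk_surjective z
    obtain ⟨e, he, h⟩ := T.loc x
    refine ⟨_, ⟨e, he, rfl⟩, ?_⟩
    show ((e.hom x : N.V) : N.V ⧸ Y1_W E N) = 0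
    rw [h]
    rfl

end

theorem Y1_reg {H L : Type} [Group H] [Group L] (E : CX H L) (p : ℕ) [Fact p.Prime] (n : ℕ)
    (hE : Lv p n E) (N : Rep.{0} ℤ H) (hN : Kp p N) (hr : TReg E.t N) (T : Tail N) (j : ℕ) :
    DT T j := by
  intro x
  have hK : Kp p (Y1_N E N) := by
    intro z
    obtain ⟨x, rfl⟩ := QuotientAddGroup.mk_surjective z
    show ((p • x : N.V) : N.V ⧸ Y1_W E N) = 0
    rw [hN x]
    rfl
  have hw : (cmul E.t E.cent N - 𝟙 N) ≫ Y1_p E N = 0 := by
    apply Rep.hom_ext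
    apply DFunLike.ext
    intro x
    show ((N.ρ E.t x - x : N.V) : N.V ⧸ Y1_W E N) = 0
    exact (QuotientAddGroup.eq_zero_iff _).2 (Y1_mem E N x)
  have hS : (ShortComplex.mk (cmul E.t E.cent N - 𝟙 N) (Y1_p E N) hw).ShortExact := by
    apply VTop_shortExact
    · intro a b hab
      have h1 : N.ρ E.t a - a = N.ρ E.t b - b := hab
      have h2 : N.ρ E.t (a - b) = a - b := by
        rw [map_sub, ← sub_eq_zero]
        have h3 : N.ρ E.t a - N.ρ E.t b - (a - b) = (N.ρ E.t a - a) - (N.ρ E.t b - b) := by abel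
        rw [h3, h1, sub_self]
      exact sub_eq_zero.1 (hr _ h2)
    · intro z
      obtain ⟨x, rfl⟩ := QuotientAddGroup.mk_surjective z
      exact ⟨x, rfl⟩
    · intro x hx
      exact Y1_mem' E N x ((QuotientAddGroup.eq_zero_iff x).1 hx)
  obtain ⟨f, ⟨e', ⟨e, he, rfl⟩, rfl⟩, hf⟩ := hE.dv (Y1_N E N) hK (Y1_T E T) j
    (x.comp (Ext.mk₀ (Y1_p E N)) (add_zero j))
  refine ⟨e, he, ?_⟩
  have hc : Y1_p E N ≫ (Rep.resFunctor E.π).map (Y1_e E N e) = e ≫ Y1_p E N := rfl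
  rw [Ext.comp_assoc_of_third_deg_zero, Ext.mk₀_comp_mk₀, hc, ← Ext.mk₀_comp_mk₀,
    ← Ext.comp_assoc_of_third_deg_zero] at hf
  obtain ⟨z, hz⟩ := Ext.covariant_sequence_exact₂ (tz H) hS _ hf
  rw [← hz]
  show z.comp (Ext.mk₀ (cmul E.t E.cent N - 𝟙 N)) (add_zero j) = 0
  have h1 := Cen_main E.t E.cent N j z
  have h2 : cmul E.t E.cent N = (cmul E.t E.cent N - 𝟙 N) + 𝟙 N := (sub_add_cancel _ _).symm
  rw [h2, Ext.mk₀_add, Ext.comp_add, Ext.comp_mk₀_id] at h1
  exact add_eq_right.1 h1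

theorem Y1_fin {G : Type} [Group G] {N : Rep.{0} ℤ G} (T : Tail N) {ι : Type} (s : Finset ι)
    (v : ι → N.V) : ∃ e ∈ T.S, ∀ i ∈ s, e.hom (v i) = 0 := by
  classical
  induction s using Finset.induction_on with
  | empty =>
    obtain ⟨e, he⟩ := T.ne
    exact ⟨e, he, fun i hi => absurd hi (Finset.notMem_empty i)⟩
  | insert a s ha ih =>
    obtain ⟨e, he, h⟩ := ih
    obtain ⟨f, hf, h'⟩ := T.loc (e.hom (v a))
    refine ⟨e ≫ f, T.mul e he f hf, fun i hi => ?_⟩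
    rcases Finset.mem_insert.1 hi with rfl | hi
    · exact h'
    · show f.hom (e.hom (v i)) = 0
      rw [h i hi, map_zero]

section

variable {H : Type} [Group H]

/-- the module `H →₀ N`, `h` acting by translation -/
noncomputable def Y1_P (N : Rep.{0} ℤ H) : Rep.{0} ℤ H :=
  Rep.of (X := H →₀ N.V)
    ({ toFun := fun g => (Finsupp.mapDomain.addMonoidHom (fun x : H => g * x) :
        (H →₀ N.V) →+ (H →₀ N.V)).toIntLinearMap
       map_one' := by
        apply LinearMap.ext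
        intro f
        show Finsupp.mapDomain _ f = f
        have h : (fun x : H => (1 : H) * x) = id := by
          funext x
          exact one_mul x
        rw [h, Finsupp.mapDomain_id]
       map_mul' := by
        intro g h
        apply LinearMap.ext
        intro f
        show Finsupp.mapDomain _ f = Finsupp.mapDomain _ (Finsupp.mapDomain _ f)
        rw [← Finsupp.mapDomain_comp]
        congr 1
        funext x
        exact mul_assoc g h x } : Representation ℤ H (H →₀ N.V))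

theorem Y1_P_ρ (N : Rep.{0} ℤ H) (g : H) (f : H →₀ N.V) :
    ((Y1_P N).ρ g f : H →₀ N.V) = Finsupp.mapDomain (fun x => g * x) f := rfl

/-- `single g n ↦ g n` -/
noncomputable def Y1_ε (N : Rep.{0} ℤ H) : Y1_P N ⟶ N :=
  mkZ (M := Y1_P N) (N := N)
    (Finsupp.liftAddHom (fun g : H => ((N.ρ g).toAddMonoidHom : N.V →+ N.V))) (by
    intro g u
    show Finsupp.liftAddHom _ (Finsupp.mapDomain _ u) = N.ρ g (Finsupp.liftAddHom _ u)
    change H →₀ N.V at u
    induction u using Finsupp.induction_linear with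
    | zero => rw [Finsupp.mapDomain_zero, map_zero, map_zero]
    | add a b ha hb => rw [Finsupp.mapDomain_add, map_add, map_add, map_add, ha, hb]
    | single a b =>
      rw [Finsupp.mapDomain_single, Finsupp.liftAddHom_apply_single,
        Finsupp.liftAddHom_apply_single]
      show N.ρ (g * a) b = N.ρ g (N.ρ a b)
      rw [map_mul]
      rfl)

theorem Y1_ε_single (N : Rep.{0} ℤ H) (g : H) (n : N.V) :
    (Y1_ε N).hom (Finsupp.single g n : H →₀ N.V) = N.ρ g n :=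
  Finsupp.liftAddHom_apply_single _ g n

theorem Y1_ε_surj (N : Rep.{0} ℤ H) : Function.Surjective (Y1_ε N).hom := by
  intro n
  refine ⟨(Finsupp.single 1 n : H →₀ N.V), ?_⟩
  rw [Y1_ε_single, map_one]
  rfl

/-- functoriality -/
noncomputable def Y1_Pe {N N' : Rep.{0} ℤ H} (e : N ⟶ N') : Y1_P N ⟶ Y1_P N' :=
  mkZ (M := Y1_P N) (N := Y1_P N') (Finsupp.mapRange.addMonoidHom (Y1_a e)) (by
    intro g u
    show Finsupp.mapRange (Y1_a e) (map_zero (Y1_a e)) (Finsupp.mapDomain _ u) =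
      Finsupp.mapDomain _ (Finsupp.mapRange (Y1_a e) (map_zero (Y1_a e)) u)
    change H →₀ N.V at u
    exact (Finsupp.mapDomain_mapRange (fun x : H => g * x) u (Y1_a e) (map_zero _)
      (fun x y => map_add (Y1_a e) x y)).symm)

theorem Y1_Pe_ε {N N' : Rep.{0} ℤ H} (e : N ⟶ N') : Y1_Pe e ≫ Y1_ε N' = Y1_ε N ≫ e := by
  apply Rep.hom_ext
  apply DFunLike.ext
  intro u
  show Finsupp.liftAddHom _ (Finsupp.mapRange (Y1_a e) (map_zero (Y1_a e)) u) =
    e.hom (Finsupp.liftAddHom _ u)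
  change H →₀ N.V at u
  induction u using Finsupp.induction_linear with
  | zero => rw [Finsupp.mapRange_zero, map_zero, map_zero, map_zero]
  | add a b ha hb =>
    rw [Finsupp.mapRange_add (fun x y => map_add (Y1_a e) x y), map_add, map_add, map_add, ha, hb]
  | single a b =>
    rw [Finsupp.mapRange_single, Finsupp.liftAddHom_apply_single, Finsupp.liftAddHom_apply_single]
    show N'.ρ a (e.hom b) = e.hom (N.ρ a b)
    rw [Rep.hom_comm_apply]

theorem Y1_Pe_comp {N : Rep.{0} ℤ H} (e f : N ⟶ N) : Y1_Pe e ≫ Y1_Pe f = Y1_Pe (e ≫ f) := by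
  apply Rep.hom_ext
  apply DFunLike.ext
  intro z
  refine Finsupp.ext (fun h => ?_)
  rfl

/-- the tail system of `H →₀ N` -/
noncomputable def Y1_PT {N : Rep.{0} ℤ H} (T : Tail N) : Tail (Y1_P N) where
  S := {f | ∃ e ∈ T.S, f = Y1_Pe e}
  ne := by
    obtain ⟨e, he⟩ := T.ne
    exact ⟨_, e, he, rfl⟩
  mul := by
    rintro _ ⟨e, he, rfl⟩ _ ⟨f, hf, rfl⟩
    exact ⟨e ≫ f, T.mul e he f hf, Y1_Pe_comp e f⟩
  loc := by
    intro z
    change H →₀ N.V at z
    obtain ⟨e, he, h⟩ := Y1_fin T z.support (fun i => z i)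
    refine ⟨_, ⟨e, he, rfl⟩, ?_⟩
    refine Finsupp.ext (fun i => ?_)
    show e.hom (z i) = 0
    by_cases hi : i ∈ z.support
    · exact h i hi
    · rw [Finsupp.notMem_support_iff.1 hi, map_zero]

theorem Y1_Preg (t : H) (ht : ∀ n : ℤ, t ^ n = 1 → n = 0) (N : Rep.{0} ℤ H) :
    TReg t (Y1_P N) := by
  intro f hf
  change H →₀ N.V at f
  have hf' : Finsupp.mapDomain (fun x : H => t * x) f = f := hf
  have h1 : ∀ h : H, f (t * h) = f h := by
    intro h
    have h2 := Finsupp.mapDomain_apply (mul_right_injective t) f h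
    rw [← h2]
    exact (congrArg (fun z : H →₀ N.V => z (t * h)) hf').symm
  have h2 : ∀ (n : ℕ) (h : H), f (t ^ n * h) = f h := by
    intro n
    induction n with
    | zero => intro h; rw [pow_zero, one_mul]
    | succ n ih => intro h; rw [pow_succ, mul_assoc, ih, h1]
  by_contra hne
  obtain ⟨h, hh⟩ := Finsupp.ne_iff.1 hne
  have hmem : ∀ n : ℕ, t ^ n * h ∈ (f.support : Set H) := by
    intro n
    rw [Finset.mem_coe, Finsupp.mem_support_iff, h2]
    exact hh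
  have hinj : Function.Injective (fun n : ℕ => t ^ n * h) := by
    intro m n hmn
    have h3 : t ^ m = t ^ n := mul_right_cancel hmn
    have h4 : t ^ ((n : ℤ) - (m : ℤ)) = 1 := by
      rw [zpow_sub, zpow_natCast, zpow_natCast, h3, mul_inv_cancel]
    have h5 := ht _ h4
    omega
  exact Set.infinite_of_injective_forall_mem hinj hmem (Finset.finite_toSet _)

theorem Y1_Kp (p : ℕ) (N : Rep.{0} ℤ H) (hN : Kp p N) : Kp p (Y1_P N) := by
  intro f
  change H →₀ N.V at f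
  refine Finsupp.ext (fun i => ?_)
  show p • (f i) = 0
  exact hN _

theorem Y1_ι_inj (N : Rep.{0} ℤ H) : Function.Injective (kernel.ι (Y1_ε N)).hom :=
  (Rep.mono_iff_injective _).1 inferInstance

/-- the induced endomorphism of the kernel -/
noncomputable def Y1_Ke {N : Rep.{0} ℤ H} (e : N ⟶ N) : kernel (Y1_ε N) ⟶ kernel (Y1_ε N) :=
  kernel.map (Y1_ε N) (Y1_ε N) (Y1_Pe e) e (Y1_Pe_ε e).symm

theorem Y1_Ke_ι {N : Rep.{0} ℤ H} (e : N ⟶ N) :
    Y1_Ke e ≫ kernel.ι (Y1_ε N) = kernel.ι (Y1_ε N) ≫ Y1_Pe e := kernel.lift_ι _ _ _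

theorem Y1_Ke_hom {N : Rep.{0} ℤ H} (e : N ⟶ N) (x : (kernel (Y1_ε N)).V) :
    (kernel.ι (Y1_ε N)).hom ((Y1_Ke e).hom x) = (Y1_Pe e).hom ((kernel.ι (Y1_ε N)).hom x) := by
  have h := congrArg (fun φ : kernel (Y1_ε N) ⟶ Y1_P N => φ.hom x) (Y1_Ke_ι e)
  exact h

/-- the tail system of the kernel -/
noncomputable def Y1_KT {N : Rep.{0} ℤ H} (T : Tail N) : Tail (kernel (Y1_ε N)) where
  S := {f | ∃ e ∈ T.S, f = Y1_Ke e}
  ne := by
    obtain ⟨e, he⟩ := T.ne
    exact ⟨_, e, he, rfl⟩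
  mul := by
    rintro _ ⟨e, he, rfl⟩ _ ⟨f, hf, rfl⟩
    refine ⟨e ≫ f, T.mul e he f hf, ?_⟩
    apply (cancel_mono (kernel.ι (Y1_ε N))).1
    rw [Category.assoc, Y1_Ke_ι, ← Category.assoc, Y1_Ke_ι, Y1_Ke_ι, Category.assoc,
      Y1_Pe_comp]
  loc := by
    intro z
    obtain ⟨f, ⟨e, he, rfl⟩, h⟩ := (Y1_PT T).loc ((kernel.ι (Y1_ε N)).hom z)
    refine ⟨_, ⟨e, he, rfl⟩, ?_⟩
    apply Y1_ι_inj N
    rw [Y1_Ke_hom, h, map_zero]

end

theorem Y1_main {H L : Type} [Group H] [Group L] (E : CX H L) (p : ℕ) [Fact p.Prime] (n : ℕ)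
    (hE : Lv p n E) : Ds p H := by
  intro N hN T j x
  have hepi : Epi (Y1_ε N) := (Rep.epi_iff_surjective _).2 (Y1_ε_surj N)
  have hPr : TReg E.t (Y1_P N) := Y1_Preg E.t E.inf N
  have hKr : TReg E.t (kernel (Y1_ε N)) := AugE_sub E.t (kernel.ι (Y1_ε N)) hPr
  have hPk : Kp p (Y1_P N) := Y1_Kp p N hN
  have hKk : Kp p (kernel (Y1_ε N)) := by
    intro z
    apply Y1_ι_inj N
    rw [map_nsmul, hPk, map_zero]
  let S : ShortComplex (Rep.{0} ℤ H) :=
    ShortComplex.mk (kernel.ι (Y1_ε N)) (Y1_ε N) (kernel.condition (Y1_ε N))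
  have hS : S.ShortExact := { exact := ShortComplex.exact_kernel (Y1_ε N) }
  obtain ⟨f, ⟨e₁, he₁, rfl⟩, hf⟩ := Y1_reg E p n hE _ hKk hKr (Y1_KT T) (j + 1)
    (x.comp hS.extClass rfl)
  let F : S ⟶ S := ShortComplex.homMk (Y1_Ke e₁) (Y1_Pe e₁) e₁ (Y1_Ke_ι e₁) (Y1_Pe_ε e₁)
  have h1 : hS.extClass.comp (Ext.mk₀ (Y1_Ke e₁)) (add_zero 1) =
      (Ext.mk₀ e₁).comp hS.extClass (zero_add 1) :=
    ShortComplex.ShortExact.extClass_naturality hS hS F
  have h2 : (x.comp (Ext.mk₀ e₁) (add_zero j)).comp hS.extClass (rfl : j + 1 = j + 1) = 0 := by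
    rw [Ext.comp_assoc_of_second_deg_zero, ← h1, ← Ext.comp_assoc_of_third_deg_zero]
    exact hf
  obtain ⟨y, hy⟩ := Ext.covariant_sequence_exact₃ (tz H) hS _ rfl h2
  obtain ⟨f, ⟨e₂, he₂, rfl⟩, hf₂⟩ := Y1_reg E p n hE _ hPk hPr (Y1_PT T) j y
  refine ⟨e₁ ≫ e₂, T.mul e₁ he₁ e₂ he₂, ?_⟩
  rw [← Ext.mk₀_comp_mk₀, ← Ext.comp_assoc_of_third_deg_zero, ← hy,
    Ext.comp_assoc_of_third_deg_zero, Ext.mk₀_comp_mk₀]
  have h3 : S.g ≫ e₂ = Y1_Pe e₂ ≫ Y1_ε N := (Y1_Pe_ε e₂).symm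
  rw [h3, ← Ext.mk₀_comp_mk₀, ← Ext.comp_assoc_of_third_deg_zero, hf₂, Ext.zero_comp]

end Pool.Agent.H5.PD
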