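import Pool.Agent.H5.PD.DfY
import Pool.Agent.H5.PD.Na

/-!
Module Y2 (row PDY2).  Change of the coefficient ring: `Ext_{k[G]}^j(k,N) = Ext_{ℤ[G]}^j(ℤ, N)` with an explicit natural map `x ↦ (mk₀ zk).comp (Rz x)`.
Instances: `Rz` maps short exact sequences to short exact sequences (`VTop_shortExact`, `Rep.mono_iff_injective`, `Rep.epi_iff_surjective`, `ABs_exact`), so it preserves finite limits and colimits (Mathlib `CategoryTheory.Functor.exact_tfae`).
`Y2_main`: induction on `j`, for all `N`.   `j = 0`: `Ext.homEquiv₀`, `Ext.mapExactFunctor_mk₀`: a morphism `k → N` is determined by the image of `1`, an invariant element; same for `ℤ → resZ N`.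
 `j + 1`: let `0 → N → FunR G N → QB G N → 0` (`QSe_main G N`, `G` acting on itself by left multiplication), `X` this complex; `X.map (Rz k G)` is exact, and `Ext (trivial) (FunR G N) (j+1) = 0` and `Ext (tz G) (resZ (FunR G N)) (j+1) = 0` (`FunA_free` for `k` and for `ℤ` (`resZ (FunR G N)` is `FunR G (resZ N)`, `rfl`-like or
 `CocB_resZ`), `ExB_zero`).  Every `x` in degree `j+1` is `x'.comp extClass` (`Ext.covariant_sequence_exact₁`), `Φ(x) = Φ(x').comp extClass(Rz X)` (`Ext.mapExactFunctor_comp`, `_extClass`).  Surjective: clear.  Injective: `Φ(x) = 0`: `Φ(x') = y.comp (mk₀ (Rz g))`, `y ∈ Ext (tz G) (Rz (FunR G N)) j`, `y = Φ(y')` (induction hypothesis for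
 `FunR G N`), so `x' = y'.comp (mk₀ g)` (injectivity for `QB G N`) and `x = 0`.
-/

namespace Pool.Agent.H5.PD

open CategoryTheory CategoryTheory.Abelian CategoryTheory.Limits Pool.Agent.H5.CP
  Pool.Agent.H75.CP Pool.Agent.H5.ZP

theorem Y2_se {k G : Type} [CommRing k] [Group G] (S : ShortComplex (Rep.{0} k G))
    (hS : S.ShortExact) : (S.map (Rz k G)).ShortExact := by
  have hf := (Rep.mono_iff_injective _).1 hS.mono_f
  have hg := (Rep.epi_iff_surjective _).1 hS.epi_g
  have he := (ABs_exact S.f S.g S.zero).1 hS.exact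
  exact VTop_shortExact (S.map (Rz k G)) hf hg he

theorem Y2_fin (k G : Type) [CommRing k] [Group G] :
    PreservesFiniteLimits (Rz k G) ∧ PreservesFiniteColimits (Rz k G) :=
  ((Functor.exact_tfae (Rz k G)).out 0 3).1 (fun S hS => Y2_se S hS)

noncomputable instance Rz_lim (k G : Type) [CommRing k] [Group G] :
    PreservesFiniteLimits (Rz k G) := by
  exact (Y2_fin k G).1

noncomputable instance Rz_colim (k G : Type) [CommRing k] [Group G] :
    PreservesFiniteColimits (Rz k G) := by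
  exact (Y2_fin k G).2

/-- the natural map -/
noncomputable def Y2_phi {k G : Type} [CommRing k] [Group G] (N : Rep.{0} k G) (j : ℕ)
    (x : Ext (Rep.trivial k G k) N j) : Ext (tz G) ((Rz k G).obj N) j :=
  (Ext.mk₀ (zk k G)).comp (x.mapExactFunctor (Rz k G)) (zero_add j)

theorem Y2_add {k G : Type} [CommRing k] [Group G] (N : Rep.{0} k G) (j : ℕ)
    (x y : Ext (Rep.trivial k G k) N j) : Y2_phi N j (x + y) = Y2_phi N j x + Y2_phi N j y := by
  unfold Y2_phi
  rw [Ext.mapExactFunctor_add, Ext.comp_add]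

theorem Y2_mk {k G : Type} [CommRing k] [Group G] (N : Rep.{0} k G)
    (f : Rep.trivial k G k ⟶ N) : Y2_phi N 0 (Ext.mk₀ f) = Ext.mk₀ (zk k G ≫ (Rz k G).map f) := by
  unfold Y2_phi
  rw [Ext.mapExactFunctor_mk₀, Ext.mk₀_comp_mk₀]

theorem Y2_comp {k G : Type} [CommRing k] [Group G] {N N' : Rep.{0} k G} {i j n : ℕ}
    (x : Ext (Rep.trivial k G k) N i) (y : Ext N N' j) (h : i + j = n) :
    Y2_phi N' n (x.comp y h) = (Y2_phi N i x).comp (y.mapExactFunctor (Rz k G)) h := by
  unfold Y2_phi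
  rw [Ext.mapExactFunctor_comp, Ext.comp_assoc _ _ _ (zero_add i) h (by omega)]

theorem Y2_one {k G : Type} [CommRing k] [Group G] (N : Rep.{0} k G)
    (f : Rep.trivial k G k ⟶ N) (r : k) : f.hom r = r • f.hom (1 : k) := by
  have h := map_smul f.hom r (1 : k)
  rw [← h]
  congr 1
  exact (mul_one r).symm

theorem Y2_zero {k G : Type} [CommRing k] [Group G] (N : Rep.{0} k G) :
    Function.Bijective (Y2_phi N 0) := by
  constructor
  · intro x y h
    obtain ⟨f, rfl⟩ := (Ext.mk₀_bijective _ _).2 x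
    obtain ⟨g, rfl⟩ := (Ext.mk₀_bijective _ _).2 y
    rw [Y2_mk, Y2_mk] at h
    have h1 := (Ext.mk₀_bijective _ _).1 h
    have h2 : f.hom (1 : k) = g.hom (1 : k) := by
      have h3 := congrArg (fun u => u.hom (1 : ℤ)) h1
      have h4 : ∀ f : Rep.trivial k G k ⟶ N, (zk k G ≫ (Rz k G).map f).hom (1 : ℤ) =
          f.hom (1 : k) := by
        intro f
        show f.hom (((1 : ℤ) : k)) = f.hom (1 : k)
        rw [Int.cast_one]
      rw [← h4 f, ← h4 g]
      exact h3
    congr 1
    apply Rep.hom_ext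
    apply DFunLike.ext
    intro r
    exact (Y2_one N f r).trans ((congrArg (fun z => r • z) h2).trans (Y2_one N g r).symm)
  · intro y
    obtain ⟨h, rfl⟩ := (Ext.mk₀_bijective _ _).2 y
    let x : N.V := h.hom (1 : ℤ)
    have hx : ∀ g : G, N.ρ g x = x := by
      intro g
      exact (Rep.hom_comm_apply h g (1 : ℤ)).symm
    let f : Rep.trivial k G k ⟶ N := mkH (M := Rep.trivial k G k) (N := N)
      ((LinearMap.toSpanSingleton k N.V x).toAddMonoidHom)
      (fun r y => (LinearMap.toSpanSingleton k N.V x).map_smul r y)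
      (fun g y => by
        show y • x = N.ρ g (y • x)
        rw [map_smul, hx])
    refine ⟨Ext.mk₀ f, ?_⟩
    rw [Y2_mk]
    congr 1
    apply Rep.hom_ext
    apply DFunLike.ext
    intro n
    let A1 : ℤ →+ N.V := (zk k G ≫ (Rz k G).map f).hom.toLinearMap.toAddMonoidHom
    let A2 : ℤ →+ N.V := h.hom.toLinearMap.toAddMonoidHom
    have h1 : A1 = A2 := by
      apply AddMonoidHom.ext_int
      show ((((1 : ℤ) : k)) • x : N.V) = x
      rw [Int.cast_one, one_smul]
    exact congrArg (fun u : ℤ →+ N.V => u n) h1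

theorem Y2_van {k G : Type} [CommRing k] [Group G] (N : Rep.{0} k G) (j : ℕ)
    (x : Ext (Rep.trivial k G k) (FunR G N) (j + 1)) : x = 0 :=
  (ExB_zero (FunR G N) (j + 1)).1 (FunA_free G N j fun g y h => by
    exact mul_eq_right.1 h) x

theorem Y2_vanZ {k G : Type} [CommRing k] [Group G] (N : Rep.{0} k G) (j : ℕ)
    (x : Ext (tz G) ((Rz k G).obj (FunR G N)) (j + 1)) : x = 0 :=
  (ExB_zero (resZ (FunR G N)) (j + 1)).1 ((CocB_resZ _ _).1 (FunA_free G N j fun g y h => by
    exact mul_eq_right.1 h)) x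

theorem Y2_step {k G : Type} [CommRing k] [Group G] (S : ShortComplex (Rep.{0} k G))
    (hX : S.ShortExact) (j : ℕ)
    (v1 : ∀ x : Ext (Rep.trivial k G k) S.X₂ (j + 1), x = 0)
    (v2 : ∀ x : Ext (tz G) ((Rz k G).obj S.X₂) (j + 1), x = 0)
    (b2 : Function.Bijective (Y2_phi S.X₂ j)) (b3 : Function.Bijective (Y2_phi S.X₃ j)) :
    Function.Bijective (Y2_phi S.X₁ (j + 1)) := by
  have hY : (S.map (Rz k G)).ShortExact := hX.map_of_exact (Rz k G)
  have hE : ∀ x : Ext (Rep.trivial k G k) S.X₃ j,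
      Y2_phi S.X₁ (j + 1) (x.comp hX.extClass rfl) = (Y2_phi S.X₃ j x).comp hY.extClass rfl := by
    intro x
    rw [Y2_comp, Ext.mapExactFunctor_extClass]
    rfl
  constructor
  · have h0 : ∀ x, Y2_phi S.X₁ (j + 1) x = 0 → x = 0 := by
      intro x hx
      obtain ⟨x', rfl⟩ := Ext.covariant_sequence_exact₁ _ hX x (v1 _) rfl
      have h1 := hE x'
      rw [hx] at h1
      obtain ⟨y, hy⟩ := Ext.covariant_sequence_exact₃ _ hY (Y2_phi _ j x') rfl h1.symm
      obtain ⟨y', rfl⟩ := b2.2 y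
      have h2 : Y2_phi _ j (y'.comp (Ext.mk₀ S.g) (add_zero j)) = Y2_phi _ j x' := by
        rw [Y2_comp, Ext.mapExactFunctor_mk₀]
        exact hy
      rw [← b3.1 h2, Ext.comp_assoc _ _ _ (add_zero j) (zero_add 1) (by omega),
        hX.comp_extClass, Ext.comp_zero]
    intro x y hxy
    have h1 : Y2_phi S.X₁ (j + 1) (x - y) + Y2_phi S.X₁ (j + 1) y = Y2_phi S.X₁ (j + 1) y := by
      rw [← Y2_add, sub_add_cancel, hxy]
    exact sub_eq_zero.1 (h0 _ (add_eq_right.1 h1))
  · intro y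
    obtain ⟨y', rfl⟩ := Ext.covariant_sequence_exact₁ _ hY y (v2 _) rfl
    obtain ⟨x', rfl⟩ := b3.2 y'
    exact ⟨x'.comp hX.extClass rfl, hE x'⟩

theorem Y2_bij {k G : Type} [CommRing k] [Group G] (j : ℕ) : ∀ N : Rep.{0} k G,
    Function.Bijective (Y2_phi N j) := by
  induction j with
  | zero => exact Y2_zero
  | succ j ih =>
    intro N
    exact Y2_step (QBS G N) (QSe_main G N) j (Y2_van N j) (Y2_vanZ N j) (ih _) (ih _)

theorem Y2_main {k G : Type} [CommRing k] [Group G] (N : Rep.{0} k G) (j : ℕ) :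
    Function.Bijective (fun x : Ext (Rep.trivial k G k) N j =>
      (Ext.mk₀ (zk k G)).comp (x.mapExactFunctor (Rz k G)) (zero_add j)) := by
  exact Y2_bij j N

end Pool.Agent.H5.PD
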