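import Pool.Agent.H5.PD.DfY

/-!
Module Y3 (row PDY3).  The Bieri-Eckmann criterion for countable modules over `k[G]`, `k` a countable commutative ring, `G` countable.
`TA M`: for every `N : Rep k G`, tail system `T : TailK N`, `j` and `x ∈ Ext M N j` some `e ∈ T.S` kills `x` (`x.comp (mk₀ e) = 0`).
`Y3_fg`: `M` countable with `TA M` (only `j = 0` is used) is finitely generated: there are `m` and an epimorphism `Rep.free k G (Fin m) → M`.  Enumerate `M = {x_0, x_1, …}`, `M_n` = the subrepresentation generated by `x_0, …, x_n` (span of all `g x_i`).  `N = (ℕ →₀ M)/U`, `U = {f | f(n) ∈ M_n for all n}` (the direct sum of the `M/M_n`;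
 build it with `Rep.quotient` as `QB` in H75/CP/Defs.lean).  `φ : M → N`, `x ↦ [Σ_{n < m} single n x]` for any `m` with `x ∈ M_m` (independent of `m`).  Tail system: `cut_F` (`F ⊆ ℕ` finite): set `f(n) = 0` for `n ∈ F`.  `x = mk₀ φ`: `φ ≫ cut_F = 0` for some finite `F`; take `n ∉ F`: for all `x ∈ M`, `x ∈ M_n` (if `x ∉ M_n` then `m > n` and
 the `n`-component of `φ(x)` is `x ∉ M_n`).  So `M = M_n`, and `Rep.freeLift` (see `FPd_epi`, H5/CP/FPd.lean) is onto.
`Y3_ker`: `0 → K → F → M → 0` with `F = Rep.free k G (Fin m)`, `TA M`: then `TA K`: `x ∈ Ext K N j`: `extClass.comp x ∈ Ext M N (j+1)` is killed by `e₁`, so `x.comp (mk₀ e₁)` extends to `F`: `= (mk₀ i).comp y` (`Ext.contravariant_sequence_exact₁`), `y ∈ Ext F N j`: `j ≥ 1`: `y = 0`; `j = 0`: a homomorphism `F → N`, finitely many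
 generators, killed by some `e₂` (composition-closed).  `e₁ ≫ e₂` kills `x`.   `K` is countable as a subset of `F`, and `F` is countable (`k`, `G` countable).
`Y3_main`: induction on `n` for all countable `M` with `TA M`: `FPm k G n M`.
-/

namespace Pool.Agent.H5.PD

open CategoryTheory CategoryTheory.Abelian CategoryTheory.Limits Pool.Agent.H5.CP
  Pool.Agent.H75.CP Pool.Agent.H5.ZP

/-- the tail condition for the module `M` -/
def TA {k G : Type} [CommRing k] [Group G] (M : Rep.{0} k G) : Prop :=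
  ∀ (N : Rep.{0} k G) (T : TailK N) (j : ℕ) (x : Ext M N j),
    ∃ e ∈ T.S, x.comp (Ext.mk₀ e) (add_zero j) = 0

/-- the subrepresentation generated by the first elements -/
def Y3_W {k G : Type} [CommRing k] [Group G] (M : Rep.{0} k G) (e : ℕ → M.V) (n : ℕ) :
    Submodule k M.V :=
  Submodule.span k {y | ∃ i ≤ n, ∃ g : G, y = M.ρ g (e i)}

theorem Y3_Ws {k G : Type} [CommRing k] [Group G] (M : Rep.{0} k G) (e : ℕ → M.V) (n : ℕ)
    (g : G) : Y3_W M e n ≤ (Y3_W M e n).comap (M.ρ g) := by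
  refine Submodule.span_le.2 ?_
  rintro _ ⟨i, hi, h, rfl⟩
  refine Submodule.subset_span ⟨i, hi, g * h, ?_⟩
  rw [map_mul]
  rfl

theorem Y3_mem {k G : Type} [CommRing k] [Group G] (M : Rep.{0} k G) (e : ℕ → M.V) (i n : ℕ)
    (h : i ≤ n) : e i ∈ Y3_W M e n := by
  refine Submodule.subset_span ⟨i, h, 1, ?_⟩
  rw [map_one]
  rfl

/-- the quotients -/
noncomputable def Y3_A {k G : Type} [CommRing k] [Group G] (M : Rep.{0} k G) (e : ℕ → M.V)
    (n : ℕ) : Rep.{0} k G :=
  M.quotient (Y3_W M e n) (Y3_Ws M e n)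

/-- the finitely supported elements of a product -/
def Y3_b {k G : Type} [CommRing k] [Group G] (A : ℕ → Rep.{0} k G) :
    Submodule k (PiR A).V where
  carrier := {f | ∃ m : ℕ, ∀ n, m ≤ n → f n = 0}
  zero_mem' := ⟨0, fun _ _ => rfl⟩
  add_mem' := by
    rintro f g ⟨a, ha⟩ ⟨b, hb⟩
    refine ⟨max a b, fun n hn => ?_⟩
    show f n + g n = 0
    rw [ha n ((le_max_left a b).trans hn), hb n ((le_max_right a b).trans hn), add_zero]
  smul_mem' := by
    rintro r f ⟨a, ha⟩
    refine ⟨a, fun n hn => ?_⟩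
    show r • f n = 0
    rw [ha n hn, smul_zero]

theorem Y3_bs {k G : Type} [CommRing k] [Group G] (A : ℕ → Rep.{0} k G) (g : G) :
    Y3_b A ≤ (Y3_b A).comap ((PiR A).ρ g) := by
  rintro f ⟨a, ha⟩
  refine ⟨a, fun n hn => ?_⟩
  show (A n).ρ g (f n) = 0
  rw [ha n hn, map_zero]

/-- the direct sum -/
noncomputable def Y3_N {k G : Type} [CommRing k] [Group G] (A : ℕ → Rep.{0} k G) :
    Rep.{0} k G :=
  (PiR A).subrepresentation (Y3_b A) (Y3_bs A)

/-- cutting off the components below `m` -/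
noncomputable def Y3_cut {k G : Type} [CommRing k] [Group G] (A : ℕ → Rep.{0} k G) (m : ℕ) :
    Y3_N A ⟶ Y3_N A :=
  mkH (M := Y3_N A) (N := Y3_N A)
    { toFun := fun f => ⟨fun n => if n < m then 0 else f.1 n, by
        obtain ⟨a, ha⟩ := f.2
        refine ⟨a, fun n hn => ?_⟩
        show (if n < m then 0 else f.1 n) = 0
        rw [ha n hn, ite_self]⟩
      map_zero' := by
        apply Subtype.ext
        funext n
        exact ite_self _
      map_add' := by
        intro f g
        apply Subtype.ext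
        funext n
        show (if n < m then 0 else f.1 n + g.1 n) =
          (if n < m then 0 else f.1 n) + (if n < m then 0 else g.1 n)
        split_ifs
        · rw [add_zero]
        · rfl }
    (by
      intro r f
      apply Subtype.ext
      funext n
      show (if n < m then 0 else r • f.1 n) = r • (if n < m then 0 else f.1 n)
      split_ifs
      · rw [smul_zero]
      · rfl)
    (by
      intro g f
      apply Subtype.ext
      funext n
      show (if n < m then 0 else (A n).ρ g (f.1 n)) = (A n).ρ g (if n < m then 0 else f.1 n)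
      split_ifs
      · rw [map_zero]
      · rfl)

theorem Y3_cut_hom {k G : Type} [CommRing k] [Group G] (A : ℕ → Rep.{0} k G) (m : ℕ)
    (f : (Y3_N A).V) (n : ℕ) :
    ((Y3_cut A m).hom f).1 n = if n < m then 0 else f.1 n := rfl

/-- the tail system -/
noncomputable def Y3_T {k G : Type} [CommRing k] [Group G] (A : ℕ → Rep.{0} k G) :
    TailK (Y3_N A) where
  S := {e | ∃ m, e = Y3_cut A m}
  ne := ⟨_, 0, rfl⟩
  mul := by
    rintro _ ⟨a, rfl⟩ _ ⟨b, rfl⟩
    refine ⟨max a b, ?_⟩
    ext f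
    apply Subtype.ext
    funext n
    show (if n < b then 0 else (if n < a then 0 else f.1 n)) = if n < max a b then 0 else f.1 n
    by_cases h1 : n < b
    · rw [if_pos h1, if_pos (lt_max_of_lt_right h1)]
    · rw [if_neg h1]
      by_cases h2 : n < a
      · rw [if_pos h2, if_pos (lt_max_of_lt_left h2)]
      · rw [if_neg h2, if_neg]
        intro h3
        rcases lt_max_iff.1 h3 with h | h
        · exact h2 h
        · exact h1 h
  loc := by
    intro f
    obtain ⟨a, ha⟩ := f.2
    refine ⟨_, ⟨a, rfl⟩, ?_⟩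
    apply Subtype.ext
    funext n
    show (if n < a then 0 else f.1 n) = 0
    split_ifs with h
    · rfl
    · exact ha n (not_lt.1 h)

/-- the map `M → ⨁ M/W_n` -/
noncomputable def Y3_φ {k G : Type} [CommRing k] [Group G] (M : Rep.{0} k G) (e : ℕ → M.V)
    (he : Function.Surjective e) : M ⟶ Y3_N (Y3_A M e) :=
  mkH (M := M) (N := Y3_N (Y3_A M e))
    { toFun := fun x => ⟨fun n => (Y3_W M e n).mkQ x, by
        obtain ⟨i, rfl⟩ := he x
        exact ⟨i, fun n hn => (Submodule.Quotient.mk_eq_zero _).2 (Y3_mem M e i n hn)⟩⟩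
      map_zero' := by
        apply Subtype.ext
        funext n
        exact map_zero (Y3_W M e n).mkQ
      map_add' := by
        intro x y
        apply Subtype.ext
        funext n
        exact map_add (Y3_W M e n).mkQ x y }
    (by
      intro r x
      apply Subtype.ext
      funext n
      exact map_smul (Y3_W M e n).mkQ r x)
    (by
      intro g x
      apply Subtype.ext
      funext n
      rfl)

theorem Y3_φ_hom {k G : Type} [CommRing k] [Group G] (M : Rep.{0} k G) (e : ℕ → M.V)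
    (he : Function.Surjective e) (x : M.V) (n : ℕ) :
    ((Y3_φ M e he).hom x).1 n = (Y3_W M e n).mkQ x := rfl

theorem Y3_fg {k G : Type} [CommRing k] [Group G] [Countable k] [Countable G]
    (M : Rep.{0} k G) (hc : Countable M.V) (h : TA M) :
    ∃ (m : ℕ) (f : Rep.free k G (Fin m) ⟶ M), Epi f := by
  obtain ⟨e, he⟩ := exists_surjective_nat M.V
  obtain ⟨_, ⟨m, rfl⟩, h1⟩ := h _ (Y3_T (Y3_A M e)) 0 (Ext.mk₀ (Y3_φ M e he))
  rw [Ext.mk₀_comp_mk₀] at h1
  have h2 : Y3_φ M e he ≫ Y3_cut (Y3_A M e) m = 0 := by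
    rw [← Ext.mk₀_zero] at h1
    exact (Ext.mk₀_bijective _ _).1 h1
  have h3 : ∀ x : M.V, x ∈ Y3_W M e m := by
    intro x
    have h4 : ((Y3_cut (Y3_A M e) m).hom ((Y3_φ M e he).hom x)).1 m = 0 := by
      have h5 : (Y3_φ M e he ≫ Y3_cut (Y3_A M e) m).hom x = 0 := by
        rw [h2]
        rfl
      exact congrFun (congrArg Subtype.val h5) m
    rw [Y3_cut_hom, if_neg (lt_irrefl m), Y3_φ_hom] at h4
    exact (Submodule.Quotient.mk_eq_zero _).1 h4
  refine ⟨m + 1, Rep.freeLift k G M (fun i : Fin (m + 1) => e i), FPd_epi M _ _ ?_⟩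
  intro W hW
  rw [eq_top_iff]
  rintro x -
  have h6 : Y3_W M e m ≤ W := by
    refine Submodule.span_le.2 ?_
    rintro _ ⟨i, hi, g, rfl⟩
    exact hW g ⟨i, Nat.lt_succ_of_le hi⟩
  exact h6 (h3 x)

theorem Y3_fin {k G : Type} [CommRing k] [Group G] {N : Rep.{0} k G} (T : TailK N)
    (s : Finset N.V) : ∃ e ∈ T.S, ∀ x ∈ s, e.hom x = 0 := by
  classical
  induction s using Finset.induction_on with
  | empty =>
    obtain ⟨e, he⟩ := T.ne
    exact ⟨e, he, fun x hx => absurd hx (Finset.notMem_empty x)⟩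
  | insert a s ha ih =>
    obtain ⟨e, he, h⟩ := ih
    obtain ⟨e', he', h'⟩ := T.loc (e.hom a)
    refine ⟨e ≫ e', T.mul e he e' he', fun x hx => ?_⟩
    show e'.hom (e.hom x) = 0
    rcases Finset.mem_insert.1 hx with rfl | hx
    · exact h'
    · rw [h x hx, map_zero]

theorem Y3_free {k G : Type} [CommRing k] [Group G] {N : Rep.{0} k G} (T : TailK N) (m : ℕ)
    (g : Rep.free k G (Fin m) ⟶ N) : ∃ e ∈ T.S, g ≫ e = 0 := by
  classical
  obtain ⟨e, he, h⟩ := Y3_fin T (Finset.univ.image (fun i : Fin m =>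
    g.hom (Finsupp.single i (.single 1 1))))
  refine ⟨e, he, Rep.free_ext k G N (g ≫ e) 0 ?_⟩
  intro i
  show e.hom (g.hom (Finsupp.single i (.single 1 1))) = 0
  exact h _ (Finset.mem_image_of_mem _ (Finset.mem_univ i))

theorem Y3_freeT {k G : Type} [CommRing k] [Group G] {N : Rep.{0} k G} (T : TailK N) (m : ℕ)
    (j : ℕ) (y : Ext (Rep.free k G (Fin m)) N j) :
    ∃ e ∈ T.S, y.comp (Ext.mk₀ e) (add_zero j) = 0 := by
  cases j with
  | zero =>
    obtain ⟨g, rfl⟩ := (Ext.mk₀_bijective _ _).2 y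
    obtain ⟨e, he, h⟩ := Y3_free T m g
    refine ⟨e, he, ?_⟩
    rw [Ext.mk₀_comp_mk₀, h, Ext.mk₀_zero]
  | succ j =>
    have : Projective (Rep.free k G (Fin m)) := Rep.free_projective
    obtain ⟨e, he⟩ := T.ne
    refine ⟨e, he, ?_⟩
    rw [Ext.eq_zero_of_projective y, Ext.zero_comp]

theorem Y3_cnt {k G : Type} [CommRing k] [Group G] [Countable k] [Countable G] (m : ℕ) :
    Countable (Rep.free k G (Fin m)).V := by
  have h0 : Function.Injective (fun x : MonoidAlgebra k G => x.coeff) := by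
    rintro ⟨a⟩ ⟨b⟩ h
    exact congrArg MonoidAlgebra.ofCoeff h
  have h1 : Countable (MonoidAlgebra k G) := h0.countable
  exact inferInstanceAs (Countable (Fin m →₀ MonoidAlgebra k G))

theorem Y3_ker {k G : Type} [CommRing k] [Group G] [Countable k] [Countable G]
    (M : Rep.{0} k G) (h : TA M) (m : ℕ) (f : Rep.free k G (Fin m) ⟶ M) (hf : Epi f) :
    Countable (kernel f).V ∧ TA (kernel f) := by
  constructor
  · have h1 := Y3_cnt (k := k) (G := G) m
    have h2 : Function.Injective (kernel.ι f).hom := (Rep.mono_iff_injective _).1 inferInstance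
    exact h2.countable
  · intro N T j x
    let X : ShortComplex (Rep.{0} k G) := ShortComplex.mk (kernel.ι f) f (kernel.condition f)
    have hX : X.ShortExact :=
      { exact := ShortComplex.exact_of_f_is_kernel _ (kernelIsKernel f)
        mono_f := inferInstanceAs (Mono (kernel.ι f))
        epi_g := hf }
    obtain ⟨e₁, he₁, h1⟩ := h N T (j + 1) (hX.extClass.comp x (add_comm 1 j))
    rw [Ext.comp_assoc_of_third_deg_zero] at h1
    obtain ⟨y, hy⟩ := Ext.contravariant_sequence_exact₁ hX N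
      (x.comp (Ext.mk₀ e₁) (add_zero j)) (add_comm 1 j) h1
    obtain ⟨e₂, he₂, h2⟩ := Y3_freeT T m j y
    refine ⟨e₁ ≫ e₂, T.mul e₁ he₁ e₂ he₂, ?_⟩
    rw [← Ext.mk₀_comp_mk₀, ← Ext.comp_assoc_of_third_deg_zero, ← hy,
      Ext.comp_assoc_of_third_deg_zero, h2, Ext.comp_zero]

theorem Y3_main {k G : Type} [CommRing k] [Group G] [Countable k] [Countable G]
    (M : Rep.{0} k G) (hc : Countable M.V) (h : TA M) (n : ℕ) : FPm k G n M := by
  induction n generalizing M with
  | zero => exact Y3_fg M hc h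
  | succ n ih =>
    obtain ⟨m, f, hf⟩ := Y3_fg M hc h
    obtain ⟨h1, h2⟩ := Y3_ker M h m f hf
    exact ⟨m, f, hf, ih (kernel f) h1 h2⟩

end Pool.Agent.H5.PD
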