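import Pool.Agent.H5.PD.Y1
import Pool.Agent.H5.PD.Y2
import Pool.Agent.H5.PD.Y3

/-!
Module Y4 (row PDY4).  `H` is a Poincare duality group over `F_p`.  Use only the STATEMENTS of Y1, Y2, Y3.
`Y4_ta`: `TA (Rep.trivial (ZMod p) H (ZMod p))`: `N : Rep (ZMod p) H`, `T : TailK N`, `x ∈ Ext (trivial) N j`.  `resZ N` is killed by `p`; `T' : Tail (resZ N)` with `S = {(Rz).map e | e ∈ T.S}`; `Y1_main` kills `Φ(x) = (mk₀ zk).comp (Rz x)`: `Φ(x).comp (mk₀ (Rz.map e)) = Φ(x.comp (mk₀ e)) = 0` (`Ext.mapExactFunctor_comp`, `_mk₀`), so `x.comp (mk₀ e) = 0`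
 (`Y2_main`, injective; `Φ(0) = 0`).
`Y4_main`: FP: `Y3_main` (`ZMod p` is finite, so countable).   `CD (ZMod p) H (c+1)`: hypothesis.   `H^j(H;F_p[H])`: `Ext (trivial) (leftRegular (ZMod p) H) j ≃ Ext (tz H) (resZ (leftRegular)) j` (`Y2_main`) `≃ Ext (tz H) (PX p H H) j`: `resZ (Rep.leftRegular (ZMod p) H) ≅ PX p H H` (`MonoidAlgebra` versus `Finsupp`: `MonoidAlgebra.coeffLinearEquiv`-like,
 see `ABs_π` in H5/CP/ABs.lean; `mkZ` both ways).  All these bijections are additive (`Ext.mapExactFunctor_add`, `Ext.comp_add`).  So `groupCohomology (leftRegular) j` (`ExA_equiv`) has order `hc p H j`: order `1` (zero) for `j ≠ c` and order `p` for `j = c`: an additive group of prime order `p` is isomorphic to `ZMod p` (`zmodAddCyclicAddEquiv`-like, `isAddCyclic_of_prime_card`).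
-/

namespace Pool.Agent.H5.PD

open CategoryTheory CategoryTheory.Abelian CategoryTheory.Limits Pool.Agent.H5.CP
  Pool.Agent.H75.CP Pool.Agent.H5.ZP

/-- the change of rings map -/
noncomputable def Y4_Φ {k G : Type} [CommRing k] [Group G] {N : Rep.{0} k G} {j : ℕ}
    (x : Ext (Rep.trivial k G k) N j) : Ext (tz G) ((Rz k G).obj N) j :=
  (Ext.mk₀ (zk k G)).comp (x.mapExactFunctor (Rz k G)) (zero_add j)

theorem Y4_Φ_add {k G : Type} [CommRing k] [Group G] {N : Rep.{0} k G} {j : ℕ}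
    (x y : Ext (Rep.trivial k G k) N j) : Y4_Φ (x + y) = Y4_Φ x + Y4_Φ y := by
  unfold Y4_Φ
  rw [Ext.mapExactFunctor_add, Ext.comp_add]

theorem Y4_Φ_zero {k G : Type} [CommRing k] [Group G] {N : Rep.{0} k G} {j : ℕ} :
    Y4_Φ (0 : Ext (Rep.trivial k G k) N j) = 0 := by
  unfold Y4_Φ
  rw [Ext.mapExactFunctor_zero, Ext.comp_zero]

theorem Y4_Φ_inj {k G : Type} [CommRing k] [Group G] {N : Rep.{0} k G} {j : ℕ} :
    Function.Bijective (fun x : Ext (Rep.trivial k G k) N j => Y4_Φ x) := Y2_main N j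

theorem Y4_Φ_comp {k G : Type} [CommRing k] [Group G] {N N' : Rep.{0} k G} {j : ℕ}
    (x : Ext (Rep.trivial k G k) N j) (e : N ⟶ N') :
    Y4_Φ (x.comp (Ext.mk₀ e) (add_zero j)) =
      (Y4_Φ x).comp (Ext.mk₀ ((Rz k G).map e)) (add_zero j) := by
  unfold Y4_Φ
  rw [Ext.mapExactFunctor_comp, Ext.mapExactFunctor_mk₀, Ext.comp_assoc]
  all_goals omega

/-- the image of a tail system -/
noncomputable def Y4_T {k G : Type} [CommRing k] [Group G] {N : Rep.{0} k G} (T : TailK N) :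
    Tail ((Rz k G).obj N) where
  S := {f | ∃ e ∈ T.S, f = (Rz k G).map e}
  ne := by
    obtain ⟨e, he⟩ := T.ne
    exact ⟨_, e, he, rfl⟩
  mul := by
    rintro _ ⟨e, he, rfl⟩ _ ⟨f, hf, rfl⟩
    exact ⟨e ≫ f, T.mul e he f hf, ((Rz k G).map_comp e f).symm⟩
  loc := by
    intro x
    obtain ⟨e, he, h⟩ := T.loc x
    exact ⟨_, ⟨e, he, rfl⟩, h⟩

theorem Y4_Kp {G : Type} [Group G] (p : ℕ) (N : Rep.{0} (ZMod p) G) :
    Kp p ((Rz (ZMod p) G).obj N) := by
  have h : ∀ y : N.V, p • y = 0 := by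
    intro y
    rw [← Nat.cast_smul_eq_nsmul (ZMod p), CharP.cast_eq_zero, zero_smul]
  exact fun x => h x

theorem Y4_ta {H L : Type} [Group H] [Group L] (E : CX H L) (p : ℕ) [Fact p.Prime] (n : ℕ)
    (hE : Lv p n E) : TA (Rep.trivial (ZMod p) H (ZMod p)) := by
  intro N T j x
  obtain ⟨_, ⟨e, he, rfl⟩, h⟩ := Y1_main E p n hE ((Rz (ZMod p) H).obj N) (Y4_Kp p N) (Y4_T T) j
    (Y4_Φ x)
  refine ⟨e, he, Y4_Φ_inj.1 ?_⟩
  show Y4_Φ (x.comp (Ext.mk₀ e) (add_zero j)) = Y4_Φ 0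
  rw [Y4_Φ_comp, Y4_Φ_zero]
  exact h

/-- `F_p[G]` as monoid algebra and as finitely supported functions -/
noncomputable def Y4_a (p : ℕ) (G : Type) [Group G] :
    (Rz (ZMod p) G).obj (Rep.leftRegular (ZMod p) G) ⟶ PX p G G :=
  mkZ (M := (Rz (ZMod p) G).obj (Rep.leftRegular (ZMod p) G)) (N := PX p G G)
    ((MonoidAlgebra.coeffLinearEquiv (ZMod p) :
      MonoidAlgebra (ZMod p) G ≃ₗ[ZMod p] G →₀ ZMod p).toLinearMap.toAddMonoidHom)
    (fun g x => by
      show (MonoidAlgebra.coeffLinearEquiv (ZMod p) :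
          MonoidAlgebra (ZMod p) G ≃ₗ[ZMod p] G →₀ ZMod p)
          ((MonoidAlgebra.coeffLinearEquiv (ZMod p) :
            MonoidAlgebra (ZMod p) G ≃ₗ[ZMod p] G →₀ ZMod p).symm
            (Finsupp.lmapDomain (ZMod p) (ZMod p) (g • ·)
              (MonoidAlgebra.coeffLinearEquiv (ZMod p) (x : MonoidAlgebra (ZMod p) G)))) =
        Finsupp.mapDomain (fun y => g • y)
          (MonoidAlgebra.coeffLinearEquiv (ZMod p) (x : MonoidAlgebra (ZMod p) G))
      rw [LinearEquiv.apply_symm_apply]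
      rfl)

theorem Y4_aux (p : ℕ) (G : Type) [Group G] (g : G) (x : G →₀ ZMod p) :
    (MonoidAlgebra.coeffLinearEquiv (ZMod p) :
      MonoidAlgebra (ZMod p) G ≃ₗ[ZMod p] G →₀ ZMod p).symm (Finsupp.mapDomain (fun y => g • y) x) =
    (MonoidAlgebra.coeffLinearEquiv (ZMod p) :
      MonoidAlgebra (ZMod p) G ≃ₗ[ZMod p] G →₀ ZMod p).symm
      (Finsupp.lmapDomain (ZMod p) (ZMod p) (g • ·)
        (MonoidAlgebra.coeffLinearEquiv (ZMod p)
          ((MonoidAlgebra.coeffLinearEquiv (ZMod p) :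
            MonoidAlgebra (ZMod p) G ≃ₗ[ZMod p] G →₀ ZMod p).symm x))) := by
  rw [LinearEquiv.apply_symm_apply]
  rfl

noncomputable def Y4_b (p : ℕ) (G : Type) [Group G] :
    PX p G G ⟶ (Rz (ZMod p) G).obj (Rep.leftRegular (ZMod p) G) :=
  mkZ (M := PX p G G) (N := (Rz (ZMod p) G).obj (Rep.leftRegular (ZMod p) G))
    ((MonoidAlgebra.coeffLinearEquiv (ZMod p) :
      MonoidAlgebra (ZMod p) G ≃ₗ[ZMod p] G →₀ ZMod p).symm.toLinearMap.toAddMonoidHom)
    (fun g x => Y4_aux p G g x)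

noncomputable def Y4_iso (p : ℕ) (G : Type) [Group G] :
    (Rz (ZMod p) G).obj (Rep.leftRegular (ZMod p) G) ≅ PX p G G where
  hom := Y4_a p G
  inv := Y4_b p G
  hom_inv_id := by
    ext x
    exact (MonoidAlgebra.coeffLinearEquiv (ZMod p) :
      MonoidAlgebra (ZMod p) G ≃ₗ[ZMod p] G →₀ ZMod p).symm_apply_apply x
  inv_hom_id := by
    ext x
    exact (MonoidAlgebra.coeffLinearEquiv (ZMod p) :
      MonoidAlgebra (ZMod p) G ≃ₗ[ZMod p] G →₀ ZMod p).apply_symm_apply x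

/-- an isomorphism of coefficients on `Ext` -/
noncomputable def Y4_post {k G : Type} [CommRing k] [Group G] {X A B : Rep.{0} k G} (i : A ≅ B)
    (j : ℕ) : Ext X A j ≃+ Ext X B j where
  toFun := fun y => y.comp (Ext.mk₀ i.hom) (add_zero j)
  invFun := fun y => y.comp (Ext.mk₀ i.inv) (add_zero j)
  left_inv := by
    intro y
    simp
  right_inv := by
    intro y
    simp
  map_add' := fun x y => Ext.add_comp x y _ _

theorem Y4_zmod (M : Type) [AddCommGroup M] (p : ℕ) [Fact p.Prime] (h : Nat.card M = p) :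
    Nonempty (M ≃+ ZMod p) := by
  have h1 : IsAddCyclic M := isAddCyclic_of_prime_card h
  subst h
  exact ⟨(zmodAddCyclicAddEquiv h1).symm⟩

theorem Y4_coh (p : ℕ) (G : Type) [Group G] (j : ℕ) :
    Nonempty (groupCohomology (Rep.leftRegular (ZMod p) G) j ≃+ Ext (tz G) (PX p G G) j) := by
  obtain ⟨e⟩ := ExA_equiv (Rep.leftRegular (ZMod p) G) j
  exact ⟨(e.symm.trans (AddEquiv.ofBijective
    (AddMonoidHom.mk' (fun x => Y4_Φ x) Y4_Φ_add) Y4_Φ_inj)).trans
      (Y4_post (Y4_iso p G) j)⟩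

theorem Y4_main {H L : Type} [Group H] [Group L] (E : CX H L) (p : ℕ) [Fact p.Prime] (n : ℕ)
    (hE : Lv p n E) [Countable H] (c : ℕ) (h1 : CD (ZMod p) H (c + 1)) (h2 : hc p H c = p)
    (h3 : ∀ j, j ≠ c → hc p H j = 1) : IsPD (ZMod p) H c := by
  have hcard : ∀ j, Nat.card (groupCohomology (Rep.leftRegular (ZMod p) H) j) = hc p H j := by
    intro j
    obtain ⟨e⟩ := Y4_coh p H j
    exact Nat.card_congr e.toEquiv
  refine ⟨fun m => Y3_main _ ?_ (Y4_ta E p n hE) m, h1, ?_, ?_⟩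
  · show Countable (ZMod p)
    infer_instance
  · intro j hj
    have h4 := (hcard j).trans (h3 j hj)
    rw [Nat.card_eq_one_iff_unique] at h4
    have := h4.1
    exact ModuleCat.isZero_of_subsingleton _
  · exact Y4_zmod _ p ((hcard c).trans h2)

end Pool.Agent.H5.PD
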