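import Pool.Agent.H5.PD.X5
import Pool.Agent.H5.PD.Y4

/-!
Module Y5 (row PDY5).  The centraliser at the end of the chain is a Poincare duality group over `F_p` of dimension `c`, `3 ≤ c ≤ d`, `c ≡ d mod 2` if `p` is odd.  Use only the STATEMENTS of the imported PD files.
`CH_main` gives `K`: `Δ = centralizer {w (K+1)}` finitely generated, all `w k` in `Δ` and central in `Δ`.  `CH_lv` for `k = K`: `L, E, Lv p n E`.  `X5_top`: `c` with `CD (ZMod p) Δ (c+1)`, `¬ CD (ZMod p) Δ c`, `hc p Δ c = p`, `hc p Δ j = 1` for `j ≠ c`; `Δ` is countable (`BA_cnt`, `FPcd_inf`); `Y4_main`.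
 `c ≤ d`: `X5_base` (`CD (ZMod p) Γ (d+1)`) and `SubC_main`.   `p ≠ 2`: `X5_par` for `k = K` gives some `c'` with `c' ≡ d`, `CD … (c'+1)`, `¬ CD … c'`; `CD` is monotone, so `c' = c`.
 `3 ≤ c`: `f : Multiplicative (Zp p) →* Γ` injective with `f(q) = w k ^ a` if `q p^k = a` (hypothesis `hf`), so `A = f.range ≤ Δ`.  `c = 1`: `CD (ZMod p) Δ 2`, so `CD (ZMod p) (Multiplicative (Zp p)) 2` (`CZ_inj` for `f` corestricted to `Δ`), contradiction to `ZA_main`.  `c = 2`: `A` as a subgroup of `Δ` has infinite index (otherwise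
 `A` is finitely generated, Schreier; `ZA_fg`), `SB_main` with `c = 1` gives `CD (ZMod p) A 2`, contradiction.   (This part is also in the proof of `X5_cen`: share the code, file X5.lean is by another agent.)
-/

namespace Pool.Agent.H5.PD

open CategoryTheory CategoryTheory.Abelian CategoryTheory.Limits Pool.Agent.H5.CP
  Pool.Agent.H75.CP Pool.Agent.H5.ZP

theorem Y5_mono {G : Type} [Group G] (p : ℕ) [Fact p.Prime] (a b : ℕ) (hab : a ≤ b)
    (h : CD (ZMod p) G a) : CD (ZMod p) G b := fun A j hj => h A j (hab.trans hj)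

theorem Y5_three {H L : Type} [Group H] [Group L] (E : CX H L) (p : ℕ) [Fact p.Prime] (n : ℕ)
    (hE : Lv p n E) (hfg : Group.FG H) (c : ℕ) (hc : 1 ≤ c) (hcd : CD (ZMod p) H (c + 1))
    (g : Multiplicative (Zp p) →* H) (hg : Function.Injective g) : 3 ≤ c := by
  have hne1 : c ≠ 1 := by
    rintro rfl
    exact ZA_main p (CZ_inj p g hg 2 hcd)
  have hne2 : c ≠ 2 := by
    rintro rfl
    by_cases hinf : Infinite (H ⧸ g.range)
    · have h1 : CD (ZMod p) g.range 2 := SB_main E p n hE hfg 1 hcd g.range hinf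
      exact ZA_main p (CZ_inj p (MonoidHom.ofInjective hg).toMonoidHom
        (MonoidHom.ofInjective hg).injective 2 h1)
    · have h1 : Finite (H ⧸ g.range) := not_infinite_iff_finite.1 hinf
      have h2 : g.range.FiniteIndex := Subgroup.finiteIndex_of_finite_quotient
      have h3 : Group.FG g.range := by
        have : Group.FG H := hfg
        infer_instance
      exact ZA_fg p (Group.fg_of_surjective (f := (MonoidHom.ofInjective hg).symm.toMonoidHom)
        (MonoidHom.ofInjective hg).symm.surjective)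
  omega

theorem Y5_main {Γ : Type} [Group Γ] (hΓ : IsTypeFP Γ) (d : ℕ)
    (h0 : ∀ j, j ≠ d → IsZero (groupCohomology (Rep.leftRegular ℤ Γ) j))
    (h1 : Nonempty (groupCohomology (Rep.leftRegular ℤ Γ) d ≃+ ℤ)) (p : ℕ) [Fact p.Prime]
    (z : Γ) (hz : z ∈ Subgroup.center Γ) (hz1 : z ≠ 1) (w : ℕ → Γ) (hw0 : w 0 = z)
    (hw : ∀ k, w (k + 1) ^ p = w k) (f : Multiplicative (Zp p) →* Γ)
    (hf : Function.Injective f)
    (hfw : ∀ (q : Zp p) (a : ℤ) (k : ℕ), (q : ℚ) * (p : ℚ) ^ k = a →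
      f (Multiplicative.ofAdd q) = w k ^ a) :
    ∃ (Δ : Subgroup Γ) (c : ℕ), 3 ≤ c ∧ c ≤ d ∧ (p ≠ 2 → c % 2 = d % 2) ∧ Δ.FG ∧
      IsPD (ZMod p) Δ c ∧ ∀ k, w k ∈ Δ ∧ ∀ g ∈ Δ, g * w k = w k * g := by
  obtain ⟨K, hfg, hK⟩ := CH_main hΓ d h0 h1 p z hz hz1 w hw0 hw
  obtain ⟨n, hlv⟩ := CH_lv hΓ d h0 h1 p z hz hz1 w hw0 hw
  obtain ⟨L, _, E, hEt, hE⟩ := hlv K
  obtain ⟨c, hc1, hcd, hncd, hcp, hc0⟩ := X5_top E p n hE
  obtain ⟨hd1, hdcd, _, _⟩ := X5_base hΓ d h0 h1 p z hz hz1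
  have hΔcd : CD (ZMod p) (Subgroup.centralizer {w (K + 1)} : Subgroup Γ) (d + 1) :=
    SubC_main (d + 1) hdcd _
  have hcd' : c ≤ d := by
    by_contra hcon
    push Not at hcon
    exact hncd (Y5_mono p (d + 1) c hcon hΔcd)
  have hpar : p ≠ 2 → c % 2 = d % 2 := by
    intro hp2
    obtain ⟨c', h1c', hc'd, hmod, hcc', hncc'⟩ := X5_par hΓ d h0 h1 p hp2 z hz hz1 w hw0 hw K
    have h2 : c' = c := by
      by_contra hne
      rcases lt_or_gt_of_ne hne with h | h
      · exact hncd (Y5_mono p (c' + 1) c h hcc')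
      · exact hncc' (Y5_mono p (c + 1) c' h hcd)
    rw [← h2]
    exact hmod
  have hcnt : Countable Γ := (BA_cnt (FPcd_inf hΓ)).2
  have hmem : ∀ x, f x ∈ (Subgroup.centralizer {w (K + 1)} : Subgroup Γ) := by
    intro x
    obtain ⟨a, k, hak⟩ := (Multiplicative.toAdd x).2
    have h2 : f x = w k ^ a := hfw (Multiplicative.toAdd x) a k hak
    rw [h2]
    exact Subgroup.zpow_mem _ (hK k).1 a
  have h3 : 3 ≤ c := by
    refine Y5_three E p n hE ((Group.fg_iff_subgroup_fg _).2 hfg) c hc1 hcd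
      (f.codRestrict _ hmem) ?_
    intro x y hxy
    apply hf
    exact congrArg Subtype.val hxy
  exact ⟨_, c, h3, hcd', hpar, hfg, Y4_main E p n hE c hcd hcp hc0, hK⟩

end Pool.Agent.H5.PD
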