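import Pool.Agent.H5.PD.Y5
import Pool.Agent.H5.PD.WZ

/-!
Module Y6 (row PDY6).  `Y5_main` with two more properties of `Δ`: if `c = d` then `Δ = ⊤`, and if `c = 3` then every element of `Δ` has a positive power in the image of `f`.
`c = d`: if `Δ = centralizer {w (K+1)}` had infinite index in `Γ`, `SB_main` for `Γ` (`E, Lv` from `BA_main`, `Γ` finitely generated by `BA_cnt`, `CD (ZMod p) Γ (d+1)`, `d = (d-1)+1`, `d ≥ 3`) would give `CD (ZMod p) Δ d`, contradiction to `¬ CD (ZMod p) Δ c`.  So the index is finite, `w (K+1) ^ (p^(K+1)) = z`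
 is central (`Zs_pow`), `FI_main` (`FPcd_tf`): `w (K+1)` is central, `Δ = ⊤`.  (Same argument as in `X5_cen`.)
`c = 3`: let `x ∈ Δ` have no positive power in `A = f.range`.  `φ : Multiplicative (Zp p) × Multiplicative ℤ → Δ`, `(q, i) ↦ f(q) x^i` is a homomorphism (`A` is central in `Δ`), injective.  Its image `B` has infinite index in the finitely generated `Δ`: otherwise `B` is finitely generated (Schreier), and so is its quotient
 `Multiplicative (Zp p)`, contradiction to `ZA_fg`.  `SB_main` with `c = 2` (`CD (ZMod p) Δ 4`) gives `CD (ZMod p) B 3`, so `CD (ZMod p) (Multiplicative (Zp p) × Multiplicative ℤ) 3` (`CZ_inj`), so `CD (ZMod p) (Multiplicative (Zp p)) 2` (`WZ_main`), contradiction to `ZA_main`.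
-/

namespace Pool.Agent.H5.PD

open CategoryTheory CategoryTheory.Abelian CategoryTheory.Limits Pool.Agent.H5.CP
  Pool.Agent.H75.CP Pool.Agent.H5.ZP

/-- `CD` is monotone -/
theorem Y6_mono {k G : Type} [CommRing k] [Group G] {n m : ℕ} (hnm : n ≤ m) (h : CD k G n) :
    CD k G m := fun A j hj => h A j (hnm.trans hj)

/-- a subgroup which is not finitely generated has smaller dimension -/
theorem Y6_inf {H L A : Type} [Group H] [Group L] [Group A] (E : CX H L) (p : ℕ)
    [Fact p.Prime] (n : ℕ) (hE : Lv p n E) (hfg : Group.FG H) (c : ℕ)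
    (hc : CD (ZMod p) H (c + 2)) (i : A →* H) (hi : Function.Injective i)
    (hA : ¬ Group.FG A) : CD (ZMod p) A (c + 1) := by
  have hinf : Infinite (H ⧸ i.range) := by
    rw [← not_finite_iff_infinite]
    intro hf
    have h1 : i.range.FiniteIndex := Subgroup.finiteIndex_of_finite_quotient
    have h2 : Group.FG i.range := Subgroup.fg_of_index_ne_zero i.range
    exact hA (Group.fg_of_surjective (f := (MonoidHom.ofInjective hi).symm.toMonoidHom)
      (MonoidHom.ofInjective hi).symm.surjective)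
  have h3 := SB_main E p n hE hfg c hc i.range hinf
  exact CZ_inj p (MonoidHom.ofInjective hi).toMonoidHom (MonoidHom.ofInjective hi).injective _ h3

/-- `c = 3`: every element has a positive power in the image of `ℤ[1/p]` -/
theorem Y6_three {H L : Type} [Group H] [Group L] (E : CX H L) (p : ℕ)
    [Fact p.Prime] (n : ℕ) (hE : Lv p n E) (hfg : Group.FG H)
    (hc : CD (ZMod p) H 4) (i : Multiplicative (Zp p) →* H) (hi : Function.Injective i)
    (hcen : ∀ (q : Multiplicative (Zp p)) (g : H), g * i q = i q * g) (x : H) :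
    ∃ m : ℕ, 0 < m ∧ x ^ m ∈ i.range := by
  by_contra hno
  have hno' : ∀ m : ℕ, 0 < m → x ^ m ∉ i.range := fun m hm h => hno ⟨m, hm, h⟩
  have comm : ∀ (a : Multiplicative (Zp p)) (b : Multiplicative ℤ),
      Commute (i a) (zpowersHom H x b) := fun a b => (hcen a (zpowersHom H x b)).symm
  let φ : Multiplicative (Zp p) × Multiplicative ℤ →* H :=
    MonoidHom.noncommCoprod i (zpowersHom H x) comm
  have hφ : Function.Injective φ := by
    rw [injective_iff_map_eq_one]
    rintro ⟨q, b⟩ h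
    have h1 : i q * x ^ (Multiplicative.toAdd b) = 1 := h
    have h2 : x ^ (Multiplicative.toAdd b) = i q⁻¹ := by
      rw [map_inv]
      exact eq_inv_of_mul_eq_one_right h1
    have h3 : Multiplicative.toAdd b = 0 := by
      by_contra hb
      have h4 : x ^ (Multiplicative.toAdd b).natAbs ∈ i.range := by
        rcases Int.natAbs_eq (Multiplicative.toAdd b) with h5 | h5
        · rw [← zpow_natCast, ← h5, h2]
          exact ⟨_, rfl⟩
        · have h6 : ((Multiplicative.toAdd b).natAbs : ℤ) = - Multiplicative.toAdd b := by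
            rw [h5, neg_neg, Int.natAbs_neg, Int.natAbs_natCast]
          rw [← zpow_natCast, h6, zpow_neg, h2, ← map_inv]
          exact ⟨_, rfl⟩
      exact hno' _ (Int.natAbs_pos.2 hb) h4
    have h5 : b = 1 := h3
    have h6 : q = 1 := by
      rw [h3, zpow_zero, mul_one] at h1
      exact hi (h1.trans (map_one i).symm)
    rw [h5, h6]
    rfl
  have hA : ¬ Group.FG (Multiplicative (Zp p) × Multiplicative ℤ) := by
    intro h
    exact ZA_fg p (Group.fg_of_surjective (f := MonoidHom.fst (Multiplicative (Zp p))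
      (Multiplicative ℤ)) Prod.fst_surjective)
  have h1 : CD (ZMod p) (Multiplicative (Zp p) × Multiplicative ℤ) 3 :=
    Y6_inf E p n hE hfg 2 hc φ hφ hA
  exact ZA_main p (WZ_main p 1 h1)

theorem Y6_main {Γ : Type} [Group Γ] (hΓ : IsTypeFP Γ) (d : ℕ)
    (h0 : ∀ j, j ≠ d → IsZero (groupCohomology (Rep.leftRegular ℤ Γ) j))
    (h1 : Nonempty (groupCohomology (Rep.leftRegular ℤ Γ) d ≃+ ℤ)) (p : ℕ) [Fact p.Prime]
    (z : Γ) (hz : z ∈ Subgroup.center Γ) (hz1 : z ≠ 1) (w : ℕ → Γ) (hw0 : w 0 = z)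
    (hw : ∀ k, w (k + 1) ^ p = w k) (f : Multiplicative (Zp p) →* Γ)
    (hf : Function.Injective f)
    (hfw : ∀ (q : Zp p) (a : ℤ) (k : ℕ), (q : ℚ) * (p : ℚ) ^ k = a →
      f (Multiplicative.ofAdd q) = w k ^ a) :
    ∃ (Δ : Subgroup Γ) (c : ℕ), 3 ≤ c ∧ c ≤ d ∧ (p ≠ 2 → c % 2 = d % 2) ∧ Δ.FG ∧
      IsPD (ZMod p) Δ c ∧ (∀ k, w k ∈ Δ ∧ ∀ g ∈ Δ, g * w k = w k * g) ∧
        (c = d → Δ = ⊤) ∧ (c = 3 → ∀ x ∈ Δ, ∃ m : ℕ, 0 < m ∧ x ^ m ∈ f.range) := by
  obtain ⟨K, hfg, hcen⟩ := CH_main hΓ d h0 h1 p z hz hz1 w hw0 hw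
  obtain ⟨n, hlv⟩ := CH_lv hΓ d h0 h1 p z hz hz1 w hw0 hw
  obtain ⟨L, _, E, hEt, hE⟩ := hlv K
  have hfg' : Group.FG (Subgroup.centralizer {w (K + 1)} : Subgroup Γ) :=
    (Group.fg_iff_subgroup_fg _).2 hfg
  obtain ⟨hFGΓ, hcnt⟩ := BA_cnt (FPcd_inf hΓ)
  obtain ⟨c, hc1, hcd, hncd, hcc, hcj⟩ := X5_top E p n hE
  obtain ⟨hd1, hdcd, -, -⟩ := X5_base hΓ d h0 h1 p z hz hz1
  have hPD : IsPD (ZMod p) (Subgroup.centralizer {w (K + 1)} : Subgroup Γ) c :=
    Y4_main E p n hE c hcd hcc hcj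
  have hcd' : c ≤ d := by
    by_contra hlt
    exact hncd (Y6_mono (by omega) (SubC_main (d + 1) hdcd _))
  have hpar : p ≠ 2 → c % 2 = d % 2 := by
    intro hp2
    obtain ⟨c', -, -, h4, h5, h6⟩ := X5_par hΓ d h0 h1 p hp2 z hz hz1 w hw0 hw K
    have h7 : c' = c := by
      rcases lt_trichotomy c' c with h | h | h
      · exact absurd (Y6_mono (by omega) h5) hncd
      · exact h
      · exact absurd (Y6_mono (by omega) hcd) h6
    rw [← h7, h4]
  have hval : ∀ q : Multiplicative (Zp p), ∃ (k : ℕ) (a : ℤ), f q = w k ^ a := by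
    intro q
    obtain ⟨a, k, hq⟩ := (Multiplicative.toAdd q).2
    exact ⟨k, a, hfw (Multiplicative.toAdd q) a k hq⟩
  have hmem : ∀ q, f q ∈ (Subgroup.centralizer {w (K + 1)} : Subgroup Γ) := by
    intro q
    obtain ⟨k, a, hq⟩ := hval q
    rw [hq]
    exact Subgroup.zpow_mem _ (hcen k).1 a
  have hcomm : ∀ q, ∀ g ∈ (Subgroup.centralizer {w (K + 1)} : Subgroup Γ), g * f q = f q * g := by
    intro q g hg
    obtain ⟨k, a, hq⟩ := hval q
    rw [hq]
    exact (show Commute g (w k) from (hcen k).2 g hg).zpow_right a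
  let i : Multiplicative (Zp p) →* (Subgroup.centralizer {w (K + 1)} : Subgroup Γ) :=
    f.codRestrict _ hmem
  have hi : Function.Injective i := fun a b hab => hf (congrArg Subtype.val hab)
  have hc3 : 3 ≤ c := by
    have h2 : c ≠ 1 := by
      intro h
      rw [h] at hcd
      exact ZA_main p (CZ_inj p i hi 2 hcd)
    have h3 : c ≠ 2 := by
      intro h
      rw [h] at hcd
      exact ZA_main p (Y6_inf E p n hE hfg' 1 hcd i hi (ZA_fg p))
    omega
  refine ⟨Subgroup.centralizer {w (K + 1)}, c, hc3, hcd', hpar, hfg, hPD, hcen, ?_, ?_⟩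
  · intro hcdeq
    obtain ⟨n', L', _, E', hEt', hE'⟩ := BA_main hΓ d h0 h1 p z hz hz1
    have hfin : (Subgroup.centralizer {w (K + 1)} : Subgroup Γ).FiniteIndex := by
      have : Finite (Γ ⧸ (Subgroup.centralizer {w (K + 1)} : Subgroup Γ)) := by
        rw [← not_infinite_iff_finite]
        intro hinf
        obtain ⟨d', rfl⟩ : ∃ d', d = d' + 1 := ⟨d - 1, by omega⟩
        have h2 := SB_main E' p n' hE' hFGΓ d' hdcd _ hinf
        rw [hcdeq] at hncd
        exact hncd h2
      exact Subgroup.finiteIndex_of_finite_quotient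
    have hv : w (K + 1) ∈ Subgroup.center Γ := by
      refine FI_main (FPcd_tf hΓ) (w (K + 1)) (p ^ (K + 1))
        (pow_pos (Fact.out : p.Prime).pos _) ?_ hfin
      have h2 := Zs_pow hw 0 (K + 1)
      rw [zero_add, hw0] at h2
      rw [h2]
      exact hz
    rw [eq_top_iff]
    intro g _
    rw [Subgroup.mem_centralizer_singleton_iff]
    exact Subgroup.mem_center_iff.1 hv g
  · intro h3 x hx
    rw [h3] at hcd
    obtain ⟨m, hm, q, hq⟩ := Y6_three E p n hE hfg' hcd i hi
      (fun q g => Subtype.ext (hcomm q g.1 g.2)) ⟨x, hx⟩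
    exact ⟨m, hm, q, congrArg Subtype.val hq⟩

end Pool.Agent.H5.PD
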